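import Pool.Agent.Lib.MP_16285c_agX.T3.SpecA

/-!
# Threefolds with `λ₁ > λ₃`: the degree of the image of a section field (E0X)
-/

set_option autoImplicit false

namespace Pool.Agent.Lib.MP_16285c_agX

open Pool.Agent.Lib.MP_16285c_ag Pool.Agent.Lib.MP_16285c_agN

namespace T3E0XM

variable {K E : Type} [Field K] [Field E] [Algebra K E]

theorem pw_dbl (ρ : E →ₐ[K] E) (m : ℕ) (x : E) : (ρ ^ (2 * m)) x = (ρ ^ m) ((ρ ^ m) x) := by
  rw [two_mul, pow_add]
  rfl

theorem Tu_eq {n : ℕ} (u : K) (g : Fin n → E) :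
    Tu K u g = 1 + ∑ j : Fin n, algebraMap K E (u ^ ((j : ℕ) + 1)) * g j := by
  unfold Tu luN
  rw [Fin.sum_univ_succ]
  congr 1
  · rw [Fin.val_zero, pow_zero, one_mul, Fin.cons_zero]
  · refine Finset.sum_congr rfl fun j _ => ?_
    rw [Fin.val_succ, Fin.cons_succ, map_pow]

/-- The degree over the image of a field. -/
theorem finrank_map (ρ : E →ₐ[K] E) (L : IntermediateField K E) :
    Module.finrank (L.map ρ) E = Module.finrank L E * Module.finrank ρ.fieldRange E := by
  have hB : ρ.fieldRange = (⊤ : IntermediateField K E).map ρ := AlgHom.fieldRange_eq_map ρ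
  have hle : L.map ρ ≤ (⊤ : IntermediateField K E).map ρ :=
    IntermediateField.map_mono ρ le_top
  have h1 := IntermediateField.relfinrank_mul_finrank_top hle
  have h2 : IntermediateField.relfinrank (L.map ρ) ((⊤ : IntermediateField K E).map ρ) =
      Module.finrank L E := by
    rw [IntermediateField.relfinrank_map_map, IntermediateField.relfinrank_top_right]
  rw [← h1, h2, hB]

theorem finrank_pow (ρ : E →ₐ[K] E) (m : ℕ) :
    Module.finrank (ρ ^ m).fieldRange E = Module.finrank ρ.fieldRange E ^ m := by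
  induction m with
  | zero =>
    have h : (ρ ^ 0).fieldRange = (⊤ : IntermediateField K E) := by
      rw [eq_top_iff]
      intro x _
      exact ⟨x, by rw [pow_zero]; rfl⟩
    rw [h, pow_zero]
    exact IntermediateField.finrank_top
  | succ m ih =>
    have h : (ρ ^ (m + 1)).fieldRange = ((ρ ^ m).fieldRange).map ρ := by
      ext x
      constructor
      · rintro ⟨y, rfl⟩
        refine ⟨(ρ ^ m) y, ⟨y, rfl⟩, ?_⟩
        rw [pow_succ']
        rfl
      · rintro ⟨z, ⟨y, rfl⟩, rfl⟩
        refine ⟨y, ?_⟩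
        rw [pow_succ']
        rfl
    rw [h, finrank_map, ih, pow_succ]

/-- The constant `1` does not change the field. -/
theorem adjoin_one (w : E) (S : Set E) :
    IntermediateField.adjoin K (insert (1 + w) S) = IntermediateField.adjoin K ({w} ∪ S) := by
  apply le_antisymm
  · rw [IntermediateField.adjoin_le_iff]
    intro x hx
    rcases hx with rfl | hx
    · exact add_mem (one_mem _) (IntermediateField.subset_adjoin _ _ (Or.inl rfl))
    · exact IntermediateField.subset_adjoin _ _ (Or.inr hx)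
  · rw [IntermediateField.adjoin_le_iff]
    intro x hx
    rcases hx with hx | hx
    · have hxw : x = w := hx
      have h1 : 1 + w ∈ IntermediateField.adjoin K (insert (1 + w) S) :=
        IntermediateField.subset_adjoin _ _ (Or.inl rfl)
      have h2 := sub_mem h1 (one_mem (IntermediateField.adjoin K (insert (1 + w) S)))
      rw [add_sub_cancel_left] at h2
      rw [hxw]
      exact h2
    · exact IntermediateField.subset_adjoin _ _ (Or.inr hx)

end T3E0XM

open T3E0XM in
/-- (E0X) The degree over `K(T_u, m₁(z'), m₂(z'))`. -/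
theorem yE0X : StmtDg1 → StmtE0X := by
  intro hDg K E _ _ _ _ ξ hξ ρ m u B
  set A : Fin 1 → Fin 3 → K := fun _ j => u ^ ((j : ℕ) + 1) with hA
  set x : Fin 3 → E := fun i : Fin 3 => ξ i.succ with hx
  have hT : Tu K u (fun i : Fin 3 => (ρ ^ m) (ξ i.succ)) = 1 + (ρ ^ m) (lc A x 0) := by
    rw [Tu_eq, lc, map_sum]
    congr 1
    refine Finset.sum_congr rfl fun j _ => ?_
    rw [map_mul, AlgHom.commutes]
  have hz : ∀ i : Fin 2, lc B (fun i : Fin 3 => (ρ ^ (2 * m)) (ξ i.succ)) i =
      (ρ ^ m) (lc B (fun i : Fin 3 => (ρ ^ m) (ξ i.succ)) i) := by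
    intro i
    rw [lc, lc, map_sum]
    refine Finset.sum_congr rfl fun j _ => ?_
    rw [map_mul, AlgHom.commutes, pw_dbl]
  have hS : Set.range (lc B (fun i : Fin 3 => (ρ ^ (2 * m)) (ξ i.succ))) =
      (ρ ^ m) '' Set.range (lc B (fun i : Fin 3 => (ρ ^ m) (ξ i.succ))) := by
    rw [← Set.range_comp]
    congr 1
    funext i
    exact hz i
  have hR : ({(ρ ^ m) (lc A x 0)} : Set E) = (ρ ^ m) '' Set.range (lc A x) := by
    have h2 : Set.range (lc A x) = {lc A x 0} := by
      ext y
      constructor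
      · rintro ⟨i, rfl⟩
        rw [Subsingleton.elim i 0]
        rfl
      · intro hy
        exact ⟨0, hy.symm⟩
    rw [h2, Set.image_singleton]
  have hL : IntermediateField.adjoin K (insert (Tu K u (fun i : Fin 3 => (ρ ^ m) (ξ i.succ)))
      (Set.range (lc B fun i : Fin 3 => (ρ ^ (2 * m)) (ξ i.succ)))) =
      (IntermediateField.adjoin K (Set.range (lc A x) ∪
        Set.range (lc B (fun i : Fin 3 => (ρ ^ m) (ξ i.succ))))).map (ρ ^ m) := by
    rw [hT, adjoin_one, hR, hS, ← Set.image_union, IntermediateField.adjoin_map]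
  rw [hL, finrank_map, finrank_pow, mul_comm]
  exact Nat.mul_le_mul_left _ ((hDg K E ξ hξ).2.2.1 (fun i : Fin 3 => (ρ ^ m) (ξ i.succ)) A B)

end Pool.Agent.Lib.MP_16285c_agX
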