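import Pool.Agent.Lib.MP_16285c_agX.T3.SpecA

/-!
# Threefolds with `λ₁ > λ₃`: heights (statements, ZD3X parts HL and HI)

HL: consequences of the axioms of `HtF` (`T3/HDefs.lean`; `h : HtF Ω`, `h.H a` is the height of the finite tuple `a`). HI: the height inequality `StmtHtX`.
Definitions: `T3/Defs.lean` (`Intx`, `Rp`, `Tu`, `Stp`, `SctX`, `VlX`, `OnX`), `luN`, `hcN` (`Lib/MP_16285c_agN/T3/SpecB.lean`), `Vd` (`Lib/MP_16285c_agN/Degr/Spec.lean`).
Every lemma is a `Prop` with its complete proof in the docstring; used statements are hypotheses: file `T3/Y.lean`, `theorem yY : StmtY` or `theorem yY : StmtZ → StmtY`, namespace `Pool.Agent.Lib.MP_16285c_agX`, auxiliary lemmas in the namespace `Pool.Agent.Lib.MP_16285c_agX.T3YM`.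
-/

set_option autoImplicit false

namespace Pool.Agent.Lib.MP_16285c_agX

open Pool.Agent.Lib.MP_16285c_ag Pool.Agent.Lib.MP_16285c_agN

/-! ## HL: consequences of the axioms -/

/-- (HSeq) A monomial of degree `q` is a product of `q` variables. PROOF. Let `m = Finsupp.toMultiset α`, a multiset with `q` elements (`Finsupp.card_toMultiset`), `l = m.toList`, of length `q`, `s j = l.get (Fin.cast _ j)`. Then `∏ j, v (s j) = (l.map v).prod = (m.map v).prod = α.prod (v i ^ e)` (`List.prod_ofFn` / `Fin.prod_ofFn`-type lemmas; `Finsupp.toMultiset_map`, `Finsupp.prod_toMultiset`).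
Alternative: induction on `q`: if `q = 0` then `α = 0`; otherwise `α = α' + single i 1`, `s = Fin.cons i s'`. -/
def StmtHSeq : Prop :=
  ∀ (ι : Type) (q : ℕ) (α : ι →₀ ℕ), (α.sum fun _ e => e) = q → ∃ s : Fin q → ι,
    ∀ (R : Type) [CommRing R] (v : ι → R), ∏ j, v (s j) = α.prod fun i e => v i ^ e

/-- (HMon) Products. PROOF. (1) If `a = 0` or `b = 0` the left tuple is `0` (`h.zero`, `h.nonneg`); otherwise `h.tens`. (2) `(a i * b i)_i` is the tuple of (1) composed with `i ↦ (i, i)` (`h.comp`). (3) `h.comp` for `e` and for `e.symm` (`a = (a ∘ e) ∘ e.symm`). (4) Induction on `q`. `q = 0`: the tuple is constant `1`, it is `fun s => a' s ^ 0` for any `a'`: `h.pow` with `m = 0`.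
`q + 1`: `∏ j, a (s j) = a (s 0) * ∏ j, a (s j.succ)` (`Fin.prod_univ_succ`) is the tuple `(i, s') ↦ a i * ∏ j, a (s' j)` composed with `s ↦ (s 0, fun j => s j.succ)`: `h.comp`, (1) and the induction hypothesis. -/
def StmtHMon : Prop :=
  ∀ (Ω : Type) [Field Ω] (h : HtF Ω),
    (∀ (ι κ : Type) [Finite ι] [Finite κ] (a : ι → Ω) (b : κ → Ω),
      h.H (fun t : ι × κ => a t.1 * b t.2) ≤ h.H a + h.H b) ∧
    (∀ (ι : Type) [Finite ι] (a b : ι → Ω), h.H (fun i => a i * b i) ≤ h.H a + h.H b) ∧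
    (∀ (ι κ : Type) [Finite ι] [Finite κ] (e : ι ≃ κ) (a : κ → Ω), h.H (a ∘ e) = h.H a) ∧
    ∀ (ι : Type) [Finite ι] (q : ℕ) (a : ι → Ω),
      h.H (fun s : Fin q → ι => ∏ j, a (s j)) ≤ q * h.H a

/-- (HUp) Upper bound for the values of forms. PROOF (uses `StmtHSeq`, `StmtHMon`). `aeval a (G k) = ∑ α ∈ (G k).support, algebraMap (coeff α) * α.prod (a i ^ e)`, every `α` of the support has degree `e` (`IsHomogeneous`), `StmtHSeq` gives `s_α : Fin e → ι`. So with the matrix `A k s = ∑ α ∈ (G k).support, if s_α = s then algebraMap (coeff α) else 0`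
(or, as in the landed `T3XUpBM.val_mem` of `Lib/MP_16285c_agN/T3/XUpB.lean`: the function `a ↦ aeval a (G k)` is in the span of the functions `a ↦ ∏ j, a (s j)`, `Submodule.mem_span_range_iff_exists_fun`) `aeval a (G k) = ∑ s, A k s * ∏ j, a (s j)`. `h.lin` for `A` gives `C`; `StmtHMon` (4). -/
def StmtHUp : Prop :=
  ∀ (K Ω : Type) [Field K] [Field Ω] [Algebra K Ω] (h : HtF Ω) (ι κ : Type) [Finite ι] [Finite κ]
    (e : ℕ) (G : κ → MvPolynomial ι K), (∀ k, (G k).IsHomogeneous e) →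
    ∃ C : ℝ, ∀ a : ι → Ω, h.H (fun k => MvPolynomial.aeval a (G k)) ≤ e * h.H a + C

/-- (HLow) Lower bound for the values of forms. PROOF (uses `StmtHUp`, `StmtHMon`). `a r ^ M = ∑ k, aeval a (Q r k) * aeval a (F k)`: the tuple `(a r ^ M)_r` is the image of the tuple `((r, k), k') ↦ aeval a (Q r k) * aeval a (F k')` under a matrix with entries `0`, `1`, so by `h.pow`, `h.lin`, `StmtHMon` (1) and `StmtHUp` for the family `Q` (indexed by `ι × κ`)
`M * h.H a ≤ (M - D) * h.H a + C₁ + h.H (F(a)) + C₂`. -/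
def StmtHLow : Prop :=
  ∀ (K Ω : Type) [Field K] [Field Ω] [Algebra K Ω] (h : HtF Ω) (ι κ : Type) [Finite ι] [Fintype κ]
    (D M : ℕ) (F : κ → MvPolynomial ι K) (Q : ι → κ → MvPolynomial ι K), D ≤ M →
    (∀ r k, (Q r k).IsHomogeneous (M - D)) → (∀ r, MvPolynomial.X r ^ M = ∑ k, Q r k * F k) →
    ∃ C : ℝ, ∀ a : ι → Ω, D * h.H a ≤ h.H (fun k => MvPolynomial.aeval a (F k)) + C

/-- (HLu) Products of linear forms. PROOF. As the landed `tXLow` (`Lib/MP_16285c_agN/T3/XLow.lean`: import it; `T3XLowM.span_pow` for `K = Ω`): there are `c r t ∈ Ω` with `∑ t, c r t * ∏ u ∈ t, luN u a = a r ^ N` for all `a`; so `N * h.H a = h.H (fun r => a r ^ N) ≤ h.H (products) + C` by `h.pow` and `h.lin`. -/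
def StmtHLu : Prop :=
  ∀ (K₀ : Type) [Field K₀] (n : ℕ) (s : Finset K₀) (N : ℕ), N + n ≤ s.card →
    ∀ (Ω : Type) [Field Ω] [Algebra K₀ Ω] (h : HtF Ω), ∃ C : ℝ, ∀ a : Fin (n + 1) → Ω,
      (N : ℝ) * h.H a ≤ h.H (fun t : ↥(Finset.powersetCard N s) =>
        ∏ u ∈ (t : Finset K₀), luN (algebraMap K₀ Ω u) a) + C

/-- (HUpB) Upper bound for bihomogeneous forms. PROOF (uses `StmtHSeq`, `StmtHMon`). Model: `Lib/MP_16285c_agN/T3/XUpB.lean` (`T3XUpBM.val_mem`, `tXUpB`). `eval₂ (aeval x) z (G t)` is a combination with coefficients in `K` of the products `x ^ β * z ^ α`, `∑ β ≤ P`, `∑ α = q`; by `StmtHSeq` (for `β` homogenised: `Finsupp` on `Fin (n + 1)` with value `P - ∑ β` at `0`, or `Fin.cons`)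
it is `(∏ j, hcN x (s j)) * ∏ j, z (s' j)` with `s : Fin P → Fin (n + 1)`, `s' : Fin q → Fin m`. So the tuple is the image under a fixed matrix of the tuple indexed by `(Fin P → Fin (n + 1)) × (Fin q → Fin m)`: `h.lin`, `StmtHMon` (1), (4). -/
def StmtHUpB : Prop :=
  ∀ (K Ω : Type) [Field K] [Field Ω] [Algebra K Ω] (h : HtF Ω) (ι : Type) [Finite ι] (n m P q : ℕ)
    (G : ι → MvPolynomial (Fin m) (Pl n K)), (∀ t, (G t).IsHomogeneous q) →
    (∀ t α, ((G t).coeff α).totalDegree ≤ P) →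
    ∃ C : ℝ, ∀ (x : Fin n → Ω) (z : Fin m → Ω),
      h.H (fun t => MvPolynomial.eval₂ ((MvPolynomial.aeval x : Pl n K →ₐ[K] Ω) : Pl n K →+* Ω) z (G t)) ≤
        P * h.H (hcN x) + q * h.H z + C

/-- (HPo) Polynomials in one variable. PROOF (uses `StmtHMon`). (1) `aeval v (g j) = ∑ i ≤ D, algebraMap (coeff i) * v ^ i`, and `v ^ i`, `i ≤ D`, is a value of the tuple `s ↦ ∏ l, ![1, v] (s l)`, `s : Fin D → Fin 2` (`s l = 1` for `l < i`, `0` otherwise): `h.lin`, `h.comp`, `StmtHMon` (4). (2) (landed model: `Lib/MP_16285c_agN/T3/XBin.lean`; import it, `T3XBinM.comb` over `K`) `d = 0`: `h.nonneg`. `d > 0`: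
there are `M` and `A i`, `B i` of degree `≤ M` with `∑ A i * g i = X ^ (M + d)`, `∑ B i * g i = 1`. So `![1, v ^ (M + d)]` is the image under a fixed matrix of the tuple `(i, k) ↦ v ^ i * aeval v (g k)`, `i ≤ M`: `(M + d) h(1, v) = h(1 ^ (M+d), v ^ (M + d)) ≤ M h(1, v) + h(g(v)) + C` (`h.pow`, `h.lin`, `StmtHMon` (1), and (1) for the powers `v ^ i`, or as in (1)). -/
def StmtHPo : Prop :=
  (∀ (K Ω : Type) [Field K] [Field Ω] [Algebra K Ω] (h : HtF Ω) (ι : Type) [Finite ι]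
    (g : ι → Polynomial K) (D : ℕ), (∀ j, (g j).natDegree ≤ D) →
    ∃ C : ℝ, ∀ v : Ω, h.H (fun j => Polynomial.aeval v (g j)) ≤ D * h.H ![1, v] + C) ∧
  ∀ (K Ω : Type) [Field K] [Field Ω] [Algebra K Ω] (h : HtF Ω) (n : ℕ)
    (g : Fin (n + 1) → Polynomial K) (d : ℕ), (∀ i, (g i).natDegree ≤ d) →
    (∃ i, (g i).natDegree = d) → Ideal.span (Set.range g) = ⊤ →
    ∃ C : ℝ, ∀ v : Ω, d * h.H ![1, v] ≤ h.H (fun i => Polynomial.aeval v (g i)) + C

/-! ## HI: degrees -/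

/-- (StpF) PROOF. `k₁ = K(x)`, `x i = ξ i.succ`. `ξ 0` is integral over `k₁`: map the monic polynomial of `Intx` to `k₁[Y]`. `E = K(ξ) = k₁(ξ 0)` (`IntermediateField.adjoin_adjoin_left`, `Set.range ξ = insert (ξ 0) (Set.range x)` by `Fin.range_cons`-type lemmas; or: the intermediate field `k₁(ξ 0)`, restricted to `K`, contains all `ξ i`, so it is `⊤`); so `E` is finite over `k₁`
(`IntermediateField.adjoin.finiteDimensional`). -/
def StmtStpF : Prop :=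
  ∀ (K E : Type) [Field K] [Field E] [Algebra K E] (n : ℕ) (ξ : Fin (n + 1) → E), Stp K ξ →
    Module.Finite (IntermediateField.adjoin K (Set.range fun i : Fin n => ξ i.succ)) E

/-- (RpE) Degrees of values of polynomials. PROOF (uses `StmtRpA`; (1) - (4) are its parts). First: `Rp K x 0 (algebraMap K E c)` (part (1), `G = C c`), and `Rp K x (c * k) (w ^ k)` if `Rp K x c w` (induction, part (3), `k = 0`: `1`). (a) `aeval ξ G = ∑ α ∈ G.support, algebraMap (coeff α) * ∏ i, ξ i ^ α i`; every term satisfies `Rp K x (c * ∑ i, α i)`, so `Rp K x (c * P)` (part (4)); a finite sum (part (2), the empty sum is `0`).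
(b) `eval₂ (aeval ξ) w G = ∑ α ∈ G.support, aeval ξ (coeff α) * ∏ i, w i ^ α i`, the terms satisfy `Rp K x (c * P + c' * j)` by (a). (c) `∏ i, (z * w i) ^ α i = z ^ (∑ i, α i) * ∏ i, w i ^ α i`, `∑ i, α i = j` for `α ∈ G.support`. -/
def StmtRpE : Prop :=
  (∀ (K E : Type) [Field K] [Field E] [Algebra K E] (n m : ℕ) (x : Fin n → E) (ξ : Fin m → E)
    (c P : ℕ) (G : Pl m K), (∀ i, Rp K x c (ξ i)) → G.totalDegree ≤ P →
    Rp K x (c * P) (MvPolynomial.aeval ξ G)) ∧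
  (∀ (K E : Type) [Field K] [Field E] [Algebra K E] (n m r : ℕ) (x : Fin n → E) (ξ : Fin m → E)
    (w : Fin r → E) (c c' P j : ℕ) (G : MvPolynomial (Fin r) (Pl m K)), (∀ i, Rp K x c (ξ i)) →
    (∀ i, Rp K x c' (w i)) → G.IsHomogeneous j → (∀ α, (G.coeff α).totalDegree ≤ P) →
    Rp K x (c * P + c' * j)
      (MvPolynomial.eval₂ ((MvPolynomial.aeval ξ : Pl m K →ₐ[K] E) : Pl m K →+* E) w G)) ∧
  ∀ (R S : Type) [CommRing R] [CommRing S] (φ : R →+* S) (r j : ℕ) (w : Fin r → S) (z : S)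
    (G : MvPolynomial (Fin r) R), G.IsHomogeneous j →
    MvPolynomial.eval₂ φ (fun i => z * w i) G = z ^ j * MvPolynomial.eval₂ φ w G

/-- (RpM) A common denominator. PROOF (uses `StmtRpD`, `StmtStpF`). `W` from `StmtRpD`, `W = span K {w_1, …, w_N}`. Every `w_l ∈ E = K(ξ)` is a quotient `aeval ξ A_l / aeval ξ B_l` (`IntermediateField.mem_adjoin_range_iff` for `⊤ = adjoin K (range ξ)`); `b = ∏ l, B_l`, so `aeval ξ b * w_l = aeval ξ (W_l)`, `W_l = A_l * ∏ l' ≠ l, B_l'`, `c₁` = the largest total degree of the `W_l`.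
So for every `w ∈ W` there is `M'` of degree `≤ c₁` with `aeval ξ b * w = aeval ξ M'` (`Submodule.span_induction`), and for `v ∈ Vd K x e`, `v = aeval x F = aeval ξ (rename Fin.succ F)`, `totalDegree F ≤ e` (`MvPolynomial.totalDegree_rename_le`). The `S` with the required property form a submodule containing all `w * v`: `Submodule.mul_le` (or `Submodule.mul_induction_on`). -/
def StmtRpM : Prop :=
  ∀ (K E : Type) [Field K] [CharZero K] [Field E] [Algebra K E] (n : ℕ) (ξ : Fin (n + 1) → E),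
    Stp K ξ → ∃ (b : Pl (n + 1) K) (c₁ : ℕ), MvPolynomial.aeval ξ b ≠ 0 ∧
      ∀ (e : ℕ) (S : E), Rp K (fun i : Fin n => ξ i.succ) e S →
        ∃ M : Pl (n + 1) K, M.totalDegree ≤ e + c₁ ∧
          MvPolynomial.aeval ξ b * S = MvPolynomial.aeval ξ M

/-- (RpS) The degrees of the sections are bounded uniformly in `u` and linearly in `i`. PROOF (uses `StmtIntA`, `StmtRpA`, `StmtRpE`, `StmtRpF`, `StmtStpF`). `x i = ξ i.succ`, `z₀ = aeval x Z₀`, `δ = [E : K(x)]`. The `g i` are algebraic over `K(x)` (`StmtStpF`), so over `Algebra.adjoin K (range x)`, so there is `β : Pl 3 K`, `aeval x β ≠ 0`, with all `β(x) g_i` integral over `K[x]`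
(`exists_integral_multiple` for each `i`, multiplied together; elements of `Algebra.adjoin K (range x)` are values: `Algebra.adjoin_range_eq_range_aeval`), so `Intx K x (β(x) g_i)` (`StmtIntA`). `StmtRpA` (5), (1), (4): a common `e₁` with `Rp K x e₁ (β(x) g_i)` and `Rp K x e₁ (β(x))`; so `Rp K x e₁ (β(x) * Tu K u g)` for EVERY `u`
(`β(x) * Tu K u g = ∑ i : Fin 4, u ^ i * (β(x) * (Fin.cons 1 g) i)`, `Rp K x 0 (algebraMap K E c)`, parts (3), (2)). A common `c` with `Rp K x c (ξ i)` (`Stp.int`, part (5) for `i = 0`, part (1) otherwise) and a common `c'` with `Rp K x c' (z₀)`, `Rp K x c' (z₀ * z' i)`. `Tu K u g ≠ 0`: it is the value at `g` of `1 + ∑ i, C (u ^ (i+1)) * X i`,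
which is not the zero polynomial (constant coefficient `1`), `g` algebraically independent. `β(x) ≠ 0`. With `P = P₁ i`, `j = j₁ i`, `q = q₁ i`: `z₀ ^ j * G(ξ; 1, z') = G(ξ; z₀ * (1, z'))` (`StmtRpE` (c)) satisfies `Rp K x (c P + c' j)` (`StmtRpE` (b)), `(β T) ^ q * S = β ^ q * (z₀ ^ j * G(ξ; 1, z'))` satisfies `Rp K x (e₁ q + (c P + c' j))`.
`StmtRpF` for `u = β T`, `v = S`: `Rp K x (e₁ q + (c P + c' j) + q (δ e₁)) S`, `C₀ = e₁ q₁ + c P₁ + c' j₁ + q₁ δ e₁`. -/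
def StmtRpS : Prop :=
  ∀ (K E : Type) [Field K] [CharZero K] [Field E] [Algebra K E] (ξ : Fin 4 → E), Stp K ξ →
    ∀ (g z' : Fin 3 → E) (Z₀ : Pl 3 K) (P₁ j₁ q₁ : ℕ),
    (∀ i, Intx K (fun i : Fin 3 => ξ i.succ)
      (MvPolynomial.aeval (fun i : Fin 3 => ξ i.succ) Z₀ * z' i)) →
    AlgebraicIndependent K g →
    ∃ C₀ : ℕ, ∀ (u : K) (i : ℕ) (G : MvPolynomial (Fin 4) (Pl 4 K)) (S : E),
      G.IsHomogeneous (j₁ * i) → (∀ α, (G.coeff α).totalDegree ≤ P₁ * i) →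
      Intx K (fun i : Fin 3 => ξ i.succ) S →
      MvPolynomial.aeval (fun i : Fin 3 => ξ i.succ) Z₀ ^ (j₁ * i) *
        MvPolynomial.eval₂ ((MvPolynomial.aeval ξ : Pl 4 K →ₐ[K] E) : Pl 4 K →+* E)
          (Fin.cons 1 z' : Fin 4 → E) G = Tu K u g ^ (q₁ * i) * S →
      Rp K (fun i : Fin 3 => ξ i.succ) (C₀ * i) S

/-! ## HI: values -/

/-- (HVa) Values of rational functions. PROOF. (1) `A = G`, `B = 1`. (2), (3): with `(A, B)`, `(A', B')`: `(A * B' + A' * B, B * B')`, `(A * A', B * B')`. (4) `(- A, B)`. (5) `h B(ξ) = A(ξ)`, `h B'(ξ) = A'(ξ)` give `A(ξ) B'(ξ) = A'(ξ) B(ξ)`, so (`OnX` for `A * B' - A' * B`) `A(pt) B'(pt) = A'(pt) B(pt)`, i.e. `v B(pt) B'(pt) = v' B'(pt) B(pt)`. (6) `v ≠ 0`: `A(pt) = v B(pt) ≠ 0`, so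
`A(ξ) ≠ 0` (by `OnX`, if `A(ξ) = 0` then `A(pt) = 0`), `h ≠ 0`, and `(B, A)` represents `h⁻¹`. (7) sums and products over a finite set: induction. -/
def StmtHVa : Prop :=
  ∀ (K E Ω : Type) [Field K] [Field E] [Field Ω] [Algebra K E] [Algebra K Ω] (n : ℕ)
    (ξ : Fin n → E) (pt : Fin n → Ω), OnX K ξ pt →
    (∀ G : Pl n K, VlX K ξ pt (MvPolynomial.aeval ξ G) (MvPolynomial.aeval pt G)) ∧
    (∀ (a b : E) (v w : Ω), VlX K ξ pt a v → VlX K ξ pt b w → VlX K ξ pt (a + b) (v + w)) ∧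
    (∀ (a b : E) (v w : Ω), VlX K ξ pt a v → VlX K ξ pt b w → VlX K ξ pt (a * b) (v * w)) ∧
    (∀ (a : E) (v : Ω), VlX K ξ pt a v → VlX K ξ pt (-a) (-v)) ∧
    (∀ (a : E) (v v' : Ω), VlX K ξ pt a v → VlX K ξ pt a v' → v = v') ∧
    (∀ (a : E) (v : Ω), VlX K ξ pt a v → v ≠ 0 → a ≠ 0 ∧ VlX K ξ pt a⁻¹ v⁻¹) ∧
    ∀ (m : Type) (s : Finset m) (a : m → E) (v : m → Ω), (∀ i ∈ s, VlX K ξ pt (a i) (v i)) →
      VlX K ξ pt (∑ i ∈ s, a i) (∑ i ∈ s, v i) ∧ VlX K ξ pt (∏ i ∈ s, a i) (∏ i ∈ s, v i)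

/-- (HVb) Values of polynomial expressions. PROOF (uses `StmtHVa`). (1) Induction on `G` (`MvPolynomial.induction_on`: constants by `StmtHVa` (1), sums, products with `X i`), or expand `eval₂` into a sum of products. (2) `Tu K u g = ∑ i, (algebraMap K E u) ^ i * (Fin.cons 1 g) i`: sums and products of values; `algebraMap K E c` has the value `algebraMap K Ω c` (`G = C c`), `1` has the value `1`; `hcN gv = Fin.cons 1 gv`. -/
def StmtHVb : Prop :=
  ∀ (K E Ω : Type) [Field K] [Field E] [Field Ω] [Algebra K E] [Algebra K Ω] (n : ℕ)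
    (ξ : Fin n → E) (pt : Fin n → Ω), OnX K ξ pt →
    (∀ (m : ℕ) (w : Fin m → E) (v : Fin m → Ω), (∀ i, VlX K ξ pt (w i) (v i)) →
      ∀ G : MvPolynomial (Fin m) (Pl n K), VlX K ξ pt
        (MvPolynomial.eval₂ ((MvPolynomial.aeval ξ : Pl n K →ₐ[K] E) : Pl n K →+* E) w G)
        (MvPolynomial.eval₂ ((MvPolynomial.aeval pt : Pl n K →ₐ[K] Ω) : Pl n K →+* Ω) v G)) ∧
    ∀ (m : ℕ) (g : Fin m → E) (gv : Fin m → Ω), (∀ i, VlX K ξ pt (g i) (gv i)) →
      ∀ u : K, VlX K ξ pt (Tu K u g) (luN (algebraMap K Ω u) (hcN gv))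

/-! ## HI: the height inequality -/

/-- (HtX) The height inequality. PROOF (uses `StmtRpM`, `StmtRpS`, `StmtHVa`, `StmtHVb`, `StmtHLu`, `StmtHUpB`). Landed model: `tXHtF` in `Lib/MP_16285c_agN/T3/XHtF.lean` (import it for `T3XHtFM.Bd` if it helps; the coefficients are now in `Pl 4 K`, so copy it with `Pl 4 K` in place of `Pl 3 K`). `x i = ξ i.succ`, `z₀ = aeval x Z₀ = aeval ξ (rename Fin.succ Z₀) ≠ 0` (`x` is algebraically independent, `Z₀ ≠ 0`).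
(a) `b, c₁` from `StmtRpM`, `C₀` from `StmtRpS`; `C₁ = C₀ + c₁ + 1`: for every `u` and `i ≥ 1` and `G`, `S` as in `SctX K ξ (Tu K u g) z' Z₀ (P₁ i) (j₁ i) (q₁ i)` there is `M : Pl 4 K` with `totalDegree M ≤ C₁ i` and `aeval ξ b * S = aeval ξ M`. (b) `n = 3 * C₁ ≥ 1`, `s` a set of `n + 3` good values `u` (`K` is infinite), one `i ≥ 1` larger than the `i₀` of all `u ∈ s`; `P = P₁ i`,
`j = j₁ i`, `q = q₁ i`; `G u`, `S u ≠ 0`, `M u` for `u ∈ s`. `B = b * rename Fin.succ Z₀ * ∏ u ∈ s, M u`: `aeval ξ B ≠ 0` since `aeval ξ (M u) = aeval ξ b * S u ≠ 0`. (c) For `t ⊆ s`, `card t = n`, let `H t = ∏ u ∈ t, G u * ∏ u ∈ s \ t, C (M u)`, homogeneous of degree `n j` with coefficients of degree `≤ P' = n P + 3 C₁ i ≤ 2 n P₁ i`. In `E`: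
`z₀ ^ (n j) * b ^ n * H t (ξ; 1, z') = ∏ u ∈ t, (z₀ ^ j * G u (ξ; 1, z')) * b ^ n * ∏ u ∈ s \ t, (b S u) = (∏ u ∈ t, T_u) ^ q * ∏ u ∈ s, (b S u) = (∏ u ∈ t, T_u) ^ q * ∏ u ∈ s, M u (ξ)`. (d) Let `pt, gv, zv` be given, `aeval pt B ≠ 0`. Both sides have values (`StmtHVa`, `StmtHVb`; `(1, z')` has the values `(1, zv) = hcN zv`), which agree (uniqueness):
`Z₀(pt) ^ (n j) * b(pt) ^ n * H t (pt; 1, zv) = (∏ u ∈ t, luN u (hcN gv)) ^ q * ∏ u ∈ s, M u (pt)`; so `t ↦ H t (pt; hcN zv)` is a multiple, by a nonzero factor independent of `t`, of `w ^ q`, `w t = ∏ u ∈ t, luN u (hcN gv)`. (e) `q * h.H w = h.H (w ^ q) = h.H (H t (pt; hcN zv)) ≤ P' * h.H (hcN pt) + n j * h.H (hcN zv) + C₂` (`h.pow`, `h.smul`, `StmtHUpB` with `n = 4`, `m = 4`),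
`n * h.H (hcN gv) ≤ h.H w + C₃` (`StmtHLu` with `n = 3`). So `q n h.H (hcN gv) ≤ 2 n P₁ i h.H (hcN pt) + n j₁ i h.H (hcN zv) + C₂ + q C₃`; divide by `n i`. -/
def StmtHtX : Prop :=
  ∀ (K E : Type) [Field K] [CharZero K] [Field E] [Algebra K E] (ξ : Fin 4 → E), Stp K ξ →
    ∀ (g z' : Fin 3 → E) (Z₀ : Pl 3 K) (P₁ j₁ q₁ : ℕ), Z₀ ≠ 0 →
    (∀ i, Intx K (fun i : Fin 3 => ξ i.succ)
      (MvPolynomial.aeval (fun i : Fin 3 => ξ i.succ) Z₀ * z' i)) →
    AlgebraicIndependent K g → 1 ≤ P₁ → 1 ≤ j₁ → 1 ≤ q₁ →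
    {u : K | ¬ ∃ i₀ : ℕ, ∀ i, i₀ ≤ i →
      SctX K ξ (Tu K u g) z' Z₀ (P₁ * i) (j₁ * i) (q₁ * i)}.Finite →
    ∃ B : Pl 4 K, MvPolynomial.aeval ξ B ≠ 0 ∧
      ∀ (Ω : Type) [Field Ω] [Algebra K Ω] (h : HtF Ω), ∃ C : ℝ,
        ∀ (pt : Fin 4 → Ω) (gv zv : Fin 3 → Ω), OnX K ξ pt → MvPolynomial.aeval pt B ≠ 0 →
          (∀ i, VlX K ξ pt (g i) (gv i)) → (∀ i, VlX K ξ pt (z' i) (zv i)) →
          q₁ * h.H (hcN gv) ≤ 2 * P₁ * h.H (hcN pt) + j₁ * h.H (hcN zv) + C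

end Pool.Agent.Lib.MP_16285c_agX
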