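import Pool.Agent.Lib.MP_16285c_agX.T3.SpecA

set_option autoImplicit false

namespace Pool.Agent.Lib.MP_16285c_agX

open Pool.Agent.Lib.MP_16285c_ag Pool.Agent.Lib.MP_16285c_agN

namespace T3IntAM

variable {K E : Type} [Field K] [Field E] [Algebra K E] {n : ℕ}

/-- The surjection of the polynomial ring onto the subalgebra generated by `x`. -/
noncomputable def phi (x : Fin n → E) : MvPolynomial (Fin n) K →ₐ[K] Algebra.adjoin K (Set.range x) :=
  (MvPolynomial.aeval x : MvPolynomial (Fin n) K →ₐ[K] E).codRestrict (Algebra.adjoin K (Set.range x))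
    (fun p => by
      rw [Algebra.adjoin_range_eq_range_aeval]
      exact ⟨p, rfl⟩)

theorem phi_coe (x : Fin n → E) (p : MvPolynomial (Fin n) K) :
    ((phi x p : Algebra.adjoin K (Set.range x)) : E) = MvPolynomial.aeval x p := rfl

theorem phi_surj (x : Fin n → E) : Function.Surjective (phi (K := K) x) := by
  intro a
  have ha : (a : E) ∈ (MvPolynomial.aeval x : MvPolynomial (Fin n) K →ₐ[K] E).range := by
    rw [← Algebra.adjoin_range_eq_range_aeval]
    exact a.2
  obtain ⟨p, hp⟩ := ha
  exact ⟨p, Subtype.ext (by rw [phi_coe]; exact hp)⟩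

theorem phi_comp (x : Fin n → E) :
    (algebraMap (Algebra.adjoin K (Set.range x)) E).comp
      ((phi x : MvPolynomial (Fin n) K →ₐ[K] Algebra.adjoin K (Set.range x)) :
        MvPolynomial (Fin n) K →+* Algebra.adjoin K (Set.range x)) =
      ((MvPolynomial.aeval x : MvPolynomial (Fin n) K →ₐ[K] E) : MvPolynomial (Fin n) K →+* E) := by
  ext p
  · rfl
  · rfl

end T3IntAM

open T3IntAM in
theorem yIntA : StmtIntA := by
  intro K E _ _ _ n x u
  constructor
  · rintro ⟨F, hF, h0⟩
    refine ⟨F.map ((phi x : MvPolynomial (Fin n) K →ₐ[K] Algebra.adjoin K (Set.range x)) :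
        MvPolynomial (Fin n) K →+* Algebra.adjoin K (Set.range x)), hF.map _, ?_⟩
    rw [Polynomial.eval₂_map, phi_comp]
    exact h0
  · rintro ⟨F, hF, h0⟩
    obtain ⟨q, hq1, -, hq2⟩ := Polynomial.lifts_and_natDegree_eq_and_monic
      (f := ((phi x : MvPolynomial (Fin n) K →ₐ[K] Algebra.adjoin K (Set.range x)) :
        MvPolynomial (Fin n) K →+* Algebra.adjoin K (Set.range x))) (p := F)
      (Polynomial.map_surjective _ (phi_surj x) F) hF
    refine ⟨q, hq2, ?_⟩
    rw [← hq1, Polynomial.eval₂_map, phi_comp] at h0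
    exact h0

end Pool.Agent.Lib.MP_16285c_agX
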