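import Pool.Agent.Lib.MP_16285c_agX.T3.SpecA
import Pool.Agent.Lib.MP_16285c_agN.Degr.Theta
import Pool.Agent.Lib.MP_16285c_agN.Degr.Vd
import Pool.Agent.Lib.MP_16285c_agN.Degr.NN
import Pool.Agent.Lib.MP_16285c_agN.Degr.Cnt

/-!
# Threefolds with `λ₁ > λ₃`: sections, first case

Proof of `StmtSecXI`. `trdeg_simple`: `trdeg κ E = 2` for `κ = K(T)`; `deg0`, `deg1`: the degrees `e₀`, `e₁` of `StmtXUB2`;
`Phi`: the generators of the space of sections, `finrank_W` its dimension, `mem_VV`: its image over `κ`, `Phi_R`: integrality; `cnt_ge`, `num`, `num2`: the count.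
-/

set_option autoImplicit false

namespace Pool.Agent.Lib.MP_16285c_agX

open Pool.Agent.Lib.MP_16285c_ag Pool.Agent.Lib.MP_16285c_agN

namespace T3SecXIM

open MvPolynomial
open scoped IntermediateField.algebraAdjoinAdjoin

section Fields

variable {K E : Type} [Field K] [Field E] [Algebra K E]

/-- `E / K(S)` algebraic implies `E` algebraic over the algebra generated by `S`. -/
theorem alg_of_adjoin (S : Set E)
    (h : Algebra.IsAlgebraic (IntermediateField.adjoin K S) E) :
    Algebra.IsAlgebraic (Algebra.adjoin K S) E :=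
  Algebra.IsAlgebraic.trans (Algebra.adjoin K S) (IntermediateField.adjoin K S) E

/-- `E` is finite over a field over which the coordinates are integral. -/
theorem fin_of_int {n : ℕ} (ξ : Fin n → E) (hgen : IntermediateField.adjoin K (Set.range ξ) = ⊤)
    (L : IntermediateField K E) (hL : ∀ i, IsIntegral L (ξ i)) : Module.Finite L E := by
  have h1 : FiniteDimensional L (IntermediateField.adjoin L (Set.range ξ)) := by
    refine IntermediateField.finiteDimensional_adjoin ?_
    rintro x ⟨i, rfl⟩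
    exact hL i
  have h2 : IntermediateField.adjoin L (Set.range ξ) = ⊤ := by
    rw [eq_top_iff]
    intro x _
    have h3 : x ∈ IntermediateField.adjoin K (Set.range ξ) := by
      rw [hgen]
      trivial
    have h4 : IntermediateField.adjoin K (Set.range ξ) ≤
        (IntermediateField.adjoin L (Set.range ξ)).restrictScalars K :=
      IntermediateField.adjoin_le_iff.2 (IntermediateField.subset_adjoin L (Set.range ξ))
    exact h4 h3
  rw [h2] at h1
  exact Module.Finite.equiv (IntermediateField.topEquiv (F := L) (E := E)).toLinearEquiv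

/-- Integral elements are integral over `K(x)`. -/
theorem int_of_intx {n : ℕ} (x : Fin n → E) (u : E) (h : Intx K x u) :
    IsIntegral (IntermediateField.adjoin K (Set.range x)) u := by
  obtain ⟨F, hF, h0⟩ := h
  have hmem : ∀ G : Pl n K, MvPolynomial.aeval x G ∈ IntermediateField.adjoin K (Set.range x) := by
    intro G
    induction G using MvPolynomial.induction_on with
    | C a =>
      rw [MvPolynomial.aeval_C]
      exact (IntermediateField.adjoin K (Set.range x)).algebraMap_mem a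
    | add p q hp hq =>
      rw [map_add]
      exact add_mem hp hq
    | mul_X p i hp =>
      rw [map_mul, MvPolynomial.aeval_X]
      exact mul_mem hp (IntermediateField.subset_adjoin _ _ ⟨i, rfl⟩)
  let θ : Pl n K →+* IntermediateField.adjoin K (Set.range x) :=
    ((MvPolynomial.aeval x : Pl n K →ₐ[K] E) : Pl n K →+* E).codRestrict
      (IntermediateField.adjoin K (Set.range x)).toSubfield hmem
  refine ⟨F.map θ, hF.map θ, ?_⟩
  rw [Polynomial.eval₂_map]
  exact h0

theorem fin_x {n : ℕ} (ξ : Fin (n + 1) → E) (hS : Stp K ξ) :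
    Module.Finite (IntermediateField.adjoin K (Set.range fun i : Fin n => ξ i.succ)) E := by
  refine fin_of_int ξ hS.gen _ fun i => ?_
  refine Fin.cases ?_ (fun j => ?_) i
  · exact int_of_intx _ _ hS.int
  · have h1 : ξ j.succ ∈ IntermediateField.adjoin K (Set.range fun i : Fin n => ξ i.succ) :=
      IntermediateField.subset_adjoin _ _ ⟨j, rfl⟩
    exact isIntegral_algebraMap
      (x := (⟨ξ j.succ, h1⟩ : IntermediateField.adjoin K (Set.range fun i : Fin n => ξ i.succ)))

theorem basis_x {n : ℕ} (ξ : Fin (n + 1) → E) (hS : Stp K ξ) :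
    IsTranscendenceBasis K (fun i : Fin n => ξ i.succ) := by
  have h1 := fin_x ξ hS
  have h2 : Algebra.IsAlgebraic
      (IntermediateField.adjoin K (Set.range fun i : Fin n => ξ i.succ)) E :=
    Algebra.IsAlgebraic.of_finite _ _
  have h3 := alg_of_adjoin _ h2
  exact hS.ai.isTranscendenceBasis_iff_isAlgebraic.2 h3

theorem trdeg_eq {n : ℕ} (ξ : Fin (n + 1) → E) (hS : Stp K ξ) :
    Algebra.trdeg K E = n := by
  have h := (basis_x ξ hS).cardinalMk_eq_trdeg
  rw [Cardinal.mk_fintype, Fintype.card_fin] at h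
  exact h.symm

/-- `E` is finite over a field which contains `n` algebraically independent elements. -/
theorem fin_ai {n : ℕ} (ξ : Fin (n + 1) → E) (hS : Stp K ξ) (y : Fin n → E)
    (hy : AlgebraicIndependent K y) (κ : IntermediateField K E) :
    Module.Finite (IntermediateField.adjoin κ (Set.range y)) E := by
  have h3 : Algebra.trdeg K E ≤ Cardinal.mk (Fin n) := by
    rw [trdeg_eq ξ hS, Cardinal.mk_fintype, Fintype.card_fin]
  have h4 := hy.isTranscendenceBasis_of_trdeg_le_of_finite h3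
  have h5 : Algebra.IsAlgebraic (Algebra.adjoin K (Set.range y)) E := h4.isAlgebraic
  set L := (IntermediateField.adjoin κ (Set.range y)).restrictScalars K with hL
  have h6 : ∀ i, IsIntegral L (ξ i) := by
    intro i
    have h7 : IsAlgebraic (Algebra.adjoin K (Set.range y)) (ξ i) := h5.isAlgebraic (ξ i)
    have hle : Algebra.adjoin K (Set.range y) ≤ L.toSubalgebra := by
      refine Algebra.adjoin_le ?_
      rintro z ⟨j, rfl⟩
      exact IntermediateField.subset_adjoin κ (Set.range y) ⟨j, rfl⟩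
    obtain ⟨P, hP, hP0⟩ := h7
    have h8 : IsAlgebraic L (ξ i) := by
      refine ⟨P.map (Subalgebra.inclusion hle).toRingHom, ?_, ?_⟩
      · intro h9
        refine hP (Polynomial.map_injective _ (Subalgebra.inclusion_injective hle) ?_)
        rw [Polynomial.map_zero]
        exact h9
      · rw [Polynomial.aeval_def, Polynomial.eval₂_map]
        exact hP0
    exact h8.isIntegral
  exact fin_of_int ξ hS.gen L h6

/-- Three elements over which `E` is finite are algebraically independent. -/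
theorem ind3 (ξ : Fin 4 → E) (hS : Stp K ξ) (v : Fin 3 → E)
    (h : Module.Finite (IntermediateField.adjoin K (Set.range v)) E) :
    AlgebraicIndependent K v := by
  have : Algebra.IsAlgebraic (Algebra.adjoin K (Set.range v)) E :=
    alg_of_adjoin _ (Algebra.IsAlgebraic.of_finite _ _)
  have hb : IsTranscendenceBasis K v :=
    Algebra.IsAlgebraic.isTranscendenceBasis_of_le_trdeg_of_finite K v (by
      rw [trdeg_eq ξ hS, Cardinal.mk_fintype, Fintype.card_fin])
  exact hb.1

/-- Degrees over a field generated in two steps. -/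
theorem finrank_two (a : E) (S : Set E) :
    Module.finrank (IntermediateField.adjoin (IntermediateField.adjoin K {a}) S) E =
      Module.finrank (IntermediateField.adjoin K ({a} ∪ S)) E := by
  rw [← IntermediateField.adjoin_adjoin_left K {a} S]
  rfl

theorem tu_eq (u : K) (y : Fin 3 → E) :
    Tu K u y = algebraMap K E 1 + ∑ j : Fin 3, algebraMap K E (u ^ ((j : ℕ) + 1)) * y j := by
  rw [Tu, luN, Fin.sum_univ_succ, Fin.val_zero, pow_zero, one_mul, Fin.cons_zero, map_one]
  congr 1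
  refine Finset.sum_congr rfl fun j _ => ?_
  rw [Fin.cons_succ, Fin.val_succ, map_pow]

theorem tr_lin [Infinite K] {n : ℕ} (i₀ : Fin n) (a : Fin n → K) (ha : a i₀ ≠ 0) :
    Transcendental K (1 + ∑ j, C (a j) * X j : MvPolynomial (Fin n) K) := by
  rw [transcendental_iff]
  intro q hq
  apply Polynomial.funext
  intro t
  rw [Polynomial.eval_zero]
  have h := congrArg (MvPolynomial.eval (fun i => if i = i₀ then (t - 1) / a i₀ else 0)) hq
  rw [map_zero, ← MvPolynomial.coe_aeval_eq_eval] at h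
  change (MvPolynomial.aeval _) ((Polynomial.aeval _) q) = 0 at h
  rw [← Polynomial.aeval_algHom_apply] at h
  have h2 : (MvPolynomial.aeval (fun i => if i = i₀ then (t - 1) / a i₀ else 0) :
      MvPolynomial (Fin n) K →ₐ[K] K) (1 + ∑ j, C (a j) * X j) = t := by
    rw [map_add, map_one, map_sum, Finset.sum_eq_single i₀]
    · rw [map_mul, aeval_X, aeval_C, if_pos rfl]
      change 1 + a i₀ * ((t - 1) / a i₀) = t
      field_simp
      ring
    · intro j _ hj
      rw [map_mul, aeval_X, if_neg hj, mul_zero]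
    · intro h0
      exact absurd (Finset.mem_univ _) h0
  rw [h2] at h
  exact h

theorem tr_T [Infinite K] (g : Fin 3 → E) (hg : AlgebraicIndependent K g) (u : K) (hu : u ≠ 0) :
    Transcendental K (Tu K u g) := by
  have h1 := tr_lin (K := K) (0 : Fin 3) (fun j : Fin 3 => u ^ ((j : ℕ) + 1)) (pow_ne_zero _ hu)
  have h2 : Tu K u g =
      MvPolynomial.aeval g (1 + ∑ j : Fin 3, C (u ^ ((j : ℕ) + 1)) * X j : Pl 3 K) := by
    rw [tu_eq, map_add, map_one, map_one, map_sum]
    congr 1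
    refine Finset.sum_congr rfl fun j _ => ?_
    rw [map_mul, aeval_C, aeval_X]
  rw [h2]
  intro h0
  exact h1 ((isAlgebraic_algHom_iff (MvPolynomial.aeval g) hg).1 h0)

theorem trdeg_simple (h3 : Algebra.trdeg K E = 3) (T : E) (hT : Transcendental K T) :
    Algebra.trdeg (IntermediateField.adjoin K {T}) E = 2 := by
  set κ := IntermediateField.adjoin K {T} with hκ
  let y' : Fin 1 → κ := fun _ => ⟨T, IntermediateField.subset_adjoin K _ rfl⟩
  let y : Fin 1 → E := fun _ => T
  have hcomp : (algebraMap κ E) ∘ y' = y := rfl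
  have hy : AlgebraicIndependent K y := by
    rw [algebraicIndependent_unique_type_iff]
    exact hT
  have hy' : AlgebraicIndependent K y' := by
    refine AlgebraicIndependent.of_comp (IsScalarTower.toAlgHom K κ E) ?_
    exact hy
  obtain ⟨ι, l, hl⟩ := exists_isTranscendenceBasis' κ E
  have hind : AlgebraicIndependent K (Sum.elim l y) := by
    have h := hy'.sumElim_comp hl.1
    rw [hcomp] at h
    exact h
  have halg : Algebra.IsAlgebraic
      (IntermediateField.adjoin K (Set.range (Sum.elim l y))) E := by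
    have h1 : Set.range (Sum.elim l y) = {T} ∪ Set.range l := by
      rw [Set.Sum.elim_range, Set.union_comm]
      congr 1
      exact Set.range_const
    have h2 := IntermediateField.adjoin_adjoin_left K {T} (Set.range l)
    have h4 := hl.isAlgebraic_field
    constructor
    intro x
    have h3 : IsAlgebraic (IntermediateField.adjoin κ (Set.range l)) x := h4.isAlgebraic x
    rw [h1, ← h2]
    exact h3
  have hb : IsTranscendenceBasis K (Sum.elim l y) :=
    isTranscendenceBasis_iff_algebraicIndependent_isAlgebraic.2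
      ⟨hind, alg_of_adjoin _ halg⟩
  have hc := hb.cardinalMk_eq_trdeg
  rw [h3, Cardinal.mk_sum, Cardinal.lift_id, Cardinal.lift_id, Cardinal.mk_fintype (Fin 1),
    Fintype.card_fin, Nat.cast_one] at hc
  rw [← hl.cardinalMk_eq_trdeg]
  have h3 : (3 : Cardinal) = 2 + 1 := by norm_num
  rw [h3] at hc
  exact Cardinal.add_one_inj.1 hc

/-- The degree over `κ(lc A x)`. -/
theorem deg0 (x g : Fin 3 → E) (d : ℕ)
    (hd : ∀ (A : Fin 2 → Fin 3 → K) (B : Fin 1 → Fin 3 → K),
      Module.finrank (IntermediateField.adjoin K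
        (Set.range (lc A x) ∪ Set.range (lc B g))) E ≤ d) (u : K) (A : Fin 2 → Fin 3 → K) :
    Module.finrank (IntermediateField.adjoin
      (IntermediateField.adjoin K {Tu K u g}) (Set.range (lc A x))) E ≤ d := by
  rw [finrank_two]
  have h2 : IntermediateField.adjoin K ({Tu K u g} ∪ Set.range (lc A x)) =
      IntermediateField.adjoin K (Set.range (lc A x) ∪
        Set.range (lc (fun (_ : Fin 1) (j : Fin 3) => u ^ ((j : ℕ) + 1)) g)) := by
    have hl : lc (fun (_ : Fin 1) (j : Fin 3) => u ^ ((j : ℕ) + 1)) g =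
        fun _ => Tu K u g - 1 := by
      funext i
      rw [tu_eq, map_one, add_sub_cancel_left]
      rfl
    rw [hl, Set.range_const]
    apply le_antisymm
    · rw [IntermediateField.adjoin_le_iff]
      rintro y (hy | hy)
      · rw [Set.mem_singleton_iff] at hy
        have h3 : Tu K u g - 1 ∈ IntermediateField.adjoin K
            (Set.range (lc A x) ∪ {Tu K u g - 1}) :=
          IntermediateField.subset_adjoin K _ (Or.inr rfl)
        have h4 := add_mem h3 (one_mem (IntermediateField.adjoin K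
            (Set.range (lc A x) ∪ {Tu K u g - 1})))
        rw [sub_add_cancel] at h4
        rw [hy]
        exact h4
      · exact IntermediateField.subset_adjoin K _ (Or.inl hy)
    · rw [IntermediateField.adjoin_le_iff]
      rintro y (hy | hy)
      · exact IntermediateField.subset_adjoin K _ (Or.inr hy)
      · rw [Set.mem_singleton_iff] at hy
        rw [hy]
        exact sub_mem (IntermediateField.subset_adjoin K _ (Or.inl rfl)) (one_mem _)
  rw [h2]
  exact hd _ _

/-- The degree over `κ(w, lc A x)`. -/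
theorem deg1 (x z' : Fin 3 → E) (T : E) (d : ℕ)
    (hd : ∀ (l μ : Fin 3 → K), Module.finrank (IntermediateField.adjoin K
      {∑ j, algebraMap K E (l j) * x j, T, ∑ j, algebraMap K E (μ j) * z' j}) E ≤ d)
    (B : Fin 1 → Fin 3 → K) (A : Fin 1 → Fin 3 → K) :
    Module.finrank (IntermediateField.adjoin
      (IntermediateField.adjoin K {T})
      (insert (lc B z' 0) (Set.range (lc A x)))) E ≤ d := by
  rw [finrank_two]
  have h2 : ({T} ∪ (insert (lc B z' 0) (Set.range (lc A x))) : Set E) =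
      {∑ j, algebraMap K E (A 0 j) * x j, T, ∑ j, algebraMap K E (B 0 j) * z' j} := by
    ext y
    simp only [Set.mem_union, Set.mem_singleton_iff, Set.mem_insert_iff, Set.mem_range,
      Fin.exists_fin_one, lc]
    tauto
  rw [h2]
  exact hd _ _

theorem exists_t (ξ : Fin 4 → E) (hS : Stp K ξ) (L : IntermediateField K E)
    (hfin : Module.Finite L E) (e : ℕ) (he : e = Module.finrank L E) :
    ∃ t : Fin e → Pl 4 K, LinearIndependent L (fun k => MvPolynomial.aeval ξ (t k)) := by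
  have halg : Algebra.IsAlgebraic L E := Algebra.IsAlgebraic.of_finite L E
  exact DegrThetaM.exists_fam (F := L) (fun G : Pl 4 K => MvPolynomial.aeval ξ G)
    (DegrThetaM.span_range ((MvPolynomial.aeval ξ : Pl 4 K →ₐ[K] E) : Pl 4 K →+* E) (fun x => by
      have hx : x ∈ IntermediateField.adjoin K (Set.range ξ) := by
        rw [hS.gen]
        trivial
      obtain ⟨N, D, h⟩ := (IntermediateField.mem_adjoin_range_iff K ξ x).1 hx
      exact ⟨N, D, h⟩)) hfin e he

end Fields

section Space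

variable {K E : Type} [Field K] [Field E] [Algebra K E]

/-- The linear form with coefficients `a`. -/
noncomputable def lx (a : Fin 3 → K) : Pl 3 K := ∑ j, C (a j) * X j

theorem ae_lx {c : ℕ} (x : Fin 3 → E) (A : Fin c → Fin 3 → K) (i : Fin c) :
    MvPolynomial.aeval x (lx (A i)) = lc A x i := by
  unfold lx lc
  rw [map_sum]
  refine Finset.sum_congr rfl fun j _ => ?_
  rw [map_mul, aeval_C, aeval_X]

theorem lx_deg (a : Fin 3 → K) : (lx a).totalDegree ≤ 1 := by
  unfold lx
  refine totalDegree_finsetSum_le fun j _ => ?_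
  refine (totalDegree_mul _ _).trans ?_
  rw [totalDegree_C, zero_add]
  exact (totalDegree_X j).le

/-- The monomials in the linear forms. -/
noncomputable def mon (A : Fin 2 → Fin 3 → K) (β : Fin 2 → ℕ) : Pl 3 K := ∏ i, lx (A i) ^ β i

theorem ae_mon (x : Fin 3 → E) (A : Fin 2 → Fin 3 → K) (β : Fin 2 → ℕ) :
    MvPolynomial.aeval x (mon A β) = ∏ i, lc A x i ^ β i := by
  unfold mon
  rw [map_prod]
  refine Finset.prod_congr rfl fun i _ => ?_
  rw [map_pow, ae_lx]

theorem mon_deg (A : Fin 2 → Fin 3 → K) (β : Fin 2 → ℕ) :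
    (mon A β).totalDegree ≤ ∑ i, β i := by
  unfold mon
  refine (totalDegree_finsetProd _ _).trans (Finset.sum_le_sum fun i _ => ?_)
  refine (totalDegree_pow _ _).trans ?_
  calc β i * (lx (A i)).totalDegree ≤ β i * 1 := Nat.mul_le_mul_left _ (lx_deg _)
    _ = β i := mul_one _

/-- The generators of the space of sections. -/
noncomputable def Phi {e : ℕ} (l : Fin 2 → E) (w z₀ : E) (θ : Fin e → E) (j a : ℕ)
    (s : {β : Fin 2 → ℕ // ∑ i, β i ≤ a} × Fin (j + 1) × Fin e) : E :=
  z₀ ^ j * (θ s.2.2 * (∏ i, l i ^ (s.1 : Fin 2 → ℕ) i) * w ^ (s.2.1 : ℕ))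

theorem linInd (hLB : StmtXLB) {e : ℕ} (l : Fin 2 → E) (w z₀ : E) (hz : z₀ ≠ 0) (θ : Fin e → E)
    (hind : AlgebraicIndependent K (Fin.cons w l : Fin 3 → E))
    (hθ : LinearIndependent (IntermediateField.adjoin K (insert w (Set.range l))) θ) (j a : ℕ) :
    LinearIndependent K (Phi l w z₀ θ j a) := by
  have h1 := hLB K E 2 e l w θ hind hθ a j
  exact h1.map' (LinearMap.mulLeft K (z₀ ^ j)) (by
    rw [LinearMap.ker_eq_bot]
    exact mul_right_injective₀ (pow_ne_zero _ hz))

theorem card_idx (e j a : ℕ) :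
    Nat.card ({β : Fin 2 → ℕ // ∑ i, β i ≤ a} × Fin (j + 1) × Fin e) =
      cnt 2 a * ((j + 1) * e) := by
  rw [Nat.card_prod, Nat.card_prod, Nat.card_fin, Nat.card_fin]
  rfl

theorem finrank_W (hLB : StmtXLB) {e : ℕ} (l : Fin 2 → E) (w z₀ : E) (hz : z₀ ≠ 0) (θ : Fin e → E)
    (hind : AlgebraicIndependent K (Fin.cons w l : Fin 3 → E))
    (hθ : LinearIndependent (IntermediateField.adjoin K (insert w (Set.range l))) θ) (j a : ℕ) :
    Module.finrank K (Submodule.span K (Set.range (Phi l w z₀ θ j a))) =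
      cnt 2 a * ((j + 1) * e) := by
  have hf := DegrCntM.fin 2 a
  have hft := Fintype.ofFinite ({β : Fin 2 → ℕ // ∑ i, β i ≤ a} × Fin (j + 1) × Fin e)
  rw [finrank_span_eq_card (linInd hLB l w z₀ hz θ hind hθ j a), ← Nat.card_eq_fintype_card,
    card_idx]

theorem cnt_ge (a : ℕ) : a ^ 2 ≤ 2 * cnt 2 a := by
  have hf := DegrCntM.fin 2 a
  have h1 : Nat.card (Fin a × Fin a) = a ^ 2 := by
    rw [Nat.card_prod, Nat.card_fin, sq]
  have h2 : Nat.card ({β : Fin 2 → ℕ // ∑ i, β i ≤ a} × Bool) = 2 * cnt 2 a := by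
    rw [Nat.card_prod, mul_comm]
    congr 1
    rw [Nat.card_eq_fintype_card, Fintype.card_bool]
  rw [← h1, ← h2]
  have hp : ∀ x y : ℕ, x + y ≤ a → ∑ i, (![x, y] : Fin 2 → ℕ) i ≤ a := by
    intro x y h
    rw [Fin.sum_univ_two]
    exact h
  refine Nat.card_le_card_of_injective
    (fun x : Fin a × Fin a => if h : (x.1 : ℕ) + (x.2 : ℕ) ≤ a then
      ((⟨![(x.1 : ℕ), (x.2 : ℕ)], hp _ _ h⟩ : {β : Fin 2 → ℕ // ∑ i, β i ≤ a}), true)
      else ((⟨![a - (x.1 : ℕ), a - (x.2 : ℕ)], hp _ _ (by omega)⟩ :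
        {β : Fin 2 → ℕ // ∑ i, β i ≤ a}), false)) ?_
  rintro ⟨x1, x2⟩ ⟨y1, y2⟩ hxy
  simp only at hxy
  have hx1 := x1.2
  have hx2 := x2.2
  have hy1 := y1.2
  have hy2 := y2.2
  split_ifs at hxy with h3 h4 h4
  · have h5 := congrArg (fun q => (q.1.1 0, q.1.1 1)) hxy
    simp only [Matrix.cons_val_zero, Matrix.cons_val_one, Prod.mk.injEq] at h5
    ext
    · exact h5.1
    · exact h5.2
  · exact absurd (congrArg Prod.snd hxy) (by simp)
  · exact absurd (congrArg Prod.snd hxy) (by simp)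
  · have h5 := congrArg (fun q => (q.1.1 0, q.1.1 1)) hxy
    simp only [Matrix.cons_val_zero, Matrix.cons_val_one, Prod.mk.injEq] at h5
    ext
    · change (x1 : ℕ) = y1
      omega
    · change (x2 : ℕ) = y2
      omega

/-- The space over `κ`. -/
noncomputable def VV {e : ℕ} (κ : IntermediateField K E) (θ : Fin e → E) (x : Fin 3 → E) (w c : E)
    (p j : ℕ) : Submodule κ E :=
  ((Submodule.span κ (Set.range θ)) * Vd κ x p * Vd κ (fun _ : Fin 1 => w) j).map
    (LinearMap.mulLeft κ c)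

theorem fin_inner {e : ℕ} (κ : IntermediateField K E) (θ : Fin e → E) (x : Fin 3 → E) (w : E)
    (p j : ℕ) :
    ((Submodule.span κ (Set.range θ)) * Vd κ x p * Vd κ (fun _ : Fin 1 => w) j).FG := by
  have h1 : (Vd κ x p).FG := Module.Finite.iff_fg.1 (tVd.1 κ E 3 x p)
  have h2 : (Vd κ (fun _ : Fin 1 => w) j).FG :=
    Module.Finite.iff_fg.1 (tVd.1 κ E 1 (fun _ : Fin 1 => w) j)
  have h3 : (Submodule.span κ (Set.range θ)).FG := Submodule.fg_span (Set.finite_range θ)
  exact (h3.mul h1).mul h2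

theorem fin_VV {e : ℕ} (κ : IntermediateField K E) (θ : Fin e → E) (x : Fin 3 → E) (w c : E)
    (p j : ℕ) : Module.Finite κ (VV κ θ x w c p j) :=
  Module.Finite.iff_fg.2 ((fin_inner κ θ x w p j).map _)

theorem rank_VV {e : ℕ} (κ : IntermediateField K E) (θ : Fin e → E) (x : Fin 3 → E) (w c : E)
    (p j : ℕ) :
    Module.finrank κ (VV κ θ x w c p j) ≤ Module.finrank κ
      ((Submodule.span κ (Set.range θ)) * Vd κ x p * Vd κ (fun _ : Fin 1 => w) j :
        Submodule κ E) := by
  have := Module.Finite.iff_fg.2 (fin_inner κ θ x w p j)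
  exact Submodule.finrank_map_le _ _

theorem deg_map {R S : Type} [CommRing R] [CommRing S] {n : ℕ} (f : R →+* S)
    (G : MvPolynomial (Fin n) R) : (MvPolynomial.map f G).totalDegree ≤ G.totalDegree :=
  Finset.sup_mono (support_map_subset _ _)

/-- The sections over `κ`. -/
theorem mem_VV {e : ℕ} (κ : IntermediateField K E) (A : Fin 2 → Fin 3 → K) (x : Fin 3 → E)
    (w z₀ : E) (θ : Fin e → E) (j a p : ℕ) (hp : a ≤ p) :
    ∀ v ∈ Submodule.span K (Set.range (Phi (lc A x) w z₀ θ j a)),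
      v ∈ VV κ θ x w (z₀ ^ j) p j := by
  intro v hv
  induction hv using Submodule.span_induction with
  | mem y hy =>
    obtain ⟨s, rfl⟩ := hy
    refine Submodule.mem_map.2 ⟨_, ?_, rfl⟩
    refine Submodule.mul_mem_mul (Submodule.mul_mem_mul ?_ ?_) ?_
    · exact Submodule.subset_span ⟨_, rfl⟩
    · rw [DegrNNM.mem_Vd]
      refine ⟨MvPolynomial.map (algebraMap K κ) (mon A (s.1 : Fin 2 → ℕ)), ?_, ?_⟩
      · exact (deg_map _ _).trans ((mon_deg A _).trans (s.1.2.trans hp))
      · rw [aeval_map_algebraMap, ae_mon]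
    · rw [DegrNNM.mem_Vd]
      refine ⟨X 0 ^ (s.2.1 : ℕ), ?_, ?_⟩
      · rw [totalDegree_X_pow]
        have := s.2.1.2
        omega
      · rw [map_pow, aeval_X]
  | zero => exact zero_mem _
  | add y z _ _ hy hz => exact add_mem hy hz
  | smul r y _ hy =>
    rw [Algebra.smul_def, IsScalarTower.algebraMap_apply K κ E, ← Algebra.smul_def]
    exact Submodule.smul_mem _ _ hy

/-- The sections as values of homogeneous polynomials. -/
def Sc (ξ : Fin 4 → E) (z' : Fin 3 → E) (z₀ : E) (P j : ℕ) (s : E) : Prop :=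
  ∃ G : MvPolynomial (Fin 4) (Pl 4 K), G.IsHomogeneous j ∧ (∀ α, (G.coeff α).totalDegree ≤ P) ∧
    z₀ ^ j * MvPolynomial.eval₂ ((MvPolynomial.aeval ξ : Pl 4 K →ₐ[K] E) : Pl 4 K →+* E)
      (Fin.cons 1 z' : Fin 4 → E) G = s

theorem Sc_span (ξ : Fin 4 → E) (z' : Fin 3 → E) (z₀ : E) (P j : ℕ) (S : Set E)
    (hS : ∀ s ∈ S, Sc (K := K) ξ z' z₀ P j s) :
    ∀ s ∈ Submodule.span K S, Sc (K := K) ξ z' z₀ P j s := by
  intro s hs
  induction hs using Submodule.span_induction with
  | mem x hx => exact hS x hx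
  | zero =>
    refine ⟨0, isHomogeneous_zero _ _ _, fun α => ?_, ?_⟩
    · rw [coeff_zero, totalDegree_zero]
      exact Nat.zero_le _
    · rw [eval₂_zero, mul_zero]
  | add x y _ _ hx hy =>
    obtain ⟨G, h1, h2, h3⟩ := hx
    obtain ⟨H, h4, h5, h6⟩ := hy
    refine ⟨G + H, h1.add h4, fun α => ?_, ?_⟩
    · rw [coeff_add]
      exact (totalDegree_add _ _).trans (max_le (h2 α) (h5 α))
    · rw [eval₂_add, mul_add, h3, h6]
  | smul r x _ hx =>
    obtain ⟨G, h1, h2, h3⟩ := hx
    refine ⟨C (C r) * G, ?_, fun α => ?_, ?_⟩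
    · have h4 := (isHomogeneous_C (Fin 4) (C r : Pl 4 K)).mul h1
      rw [zero_add] at h4
      exact h4
    · rw [coeff_C_mul]
      refine (totalDegree_mul _ _).trans ?_
      rw [totalDegree_C, zero_add]
      exact h2 α
    · rw [eval₂_mul, eval₂_C, mul_left_comm, h3, Algebra.smul_def]
      congr 1
      exact aeval_C _ _

theorem Sc_Phi {e : ℕ} (ξ : Fin 4 → E) (z' : Fin 3 → E) (z₀ : E) (A : Fin 2 → Fin 3 → K)
    (B : Fin 1 → Fin 3 → K) (t : Fin e → Pl 4 K) (j a c p : ℕ)
    (ht : ∀ k, (t k).totalDegree ≤ c) (hp : a + c ≤ p)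
    (s : {β : Fin 2 → ℕ // ∑ i, β i ≤ a} × Fin (j + 1) × Fin e) :
    Sc (K := K) ξ z' z₀ p j (Phi (lc A fun i : Fin 3 => ξ i.succ) (lc B z' 0) z₀
      (fun k => MvPolynomial.aeval ξ (t k)) j a s) := by
  have h0 : (s.2.1 : ℕ) + (j - (s.2.1 : ℕ)) = j := by
    have := s.2.1.2
    omega
  set H : MvPolynomial (Fin 4) K := (∑ i : Fin 3, C (B 0 i) * X i.succ) ^ (s.2.1 : ℕ) *
    X 0 ^ (j - (s.2.1 : ℕ)) with hH
  have hH1 : H.IsHomogeneous j := by
    have h1 : (∑ i : Fin 3, C (B 0 i) * X i.succ : MvPolynomial (Fin 4) K).IsHomogeneous 1 := by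
      refine IsHomogeneous.sum _ _ _ fun i _ => ?_
      have h2 := (isHomogeneous_C (Fin 4) (B 0 i)).mul (isHomogeneous_X K (i.succ : Fin 4))
      rw [zero_add] at h2
      exact h2
    have h3 := (h1.pow (s.2.1 : ℕ)).mul ((isHomogeneous_X K (0 : Fin 4)).pow (j - (s.2.1 : ℕ)))
    rw [one_mul, one_mul, h0] at h3
    exact h3
  set Q : Pl 4 K := t s.2.2 * rename Fin.succ (mon A (s.1 : Fin 2 → ℕ)) with hQ
  have hQ1 : Q.totalDegree ≤ p := by
    refine (totalDegree_mul _ _).trans ?_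
    have h1 := (totalDegree_rename_le (Fin.succ : Fin 3 → Fin 4)
      (mon A (s.1 : Fin 2 → ℕ))).trans (mon_deg A _)
    have h2 := s.1.2
    have h3 := ht s.2.2
    omega
  have hQ2 : MvPolynomial.aeval ξ Q = MvPolynomial.aeval ξ (t s.2.2) *
      ∏ i, lc A (fun i : Fin 3 => ξ i.succ) i ^ (s.1 : Fin 2 → ℕ) i := by
    rw [hQ, map_mul, aeval_rename, ← ae_mon]
    rfl
  refine ⟨C Q * MvPolynomial.map C H, ?_, ?_, ?_⟩
  · have h4 := (isHomogeneous_C (Fin 4) Q).mul (hH1.map (C : K →+* Pl 4 K))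
    rw [zero_add] at h4
    exact h4
  · intro α
    rw [coeff_C_mul, coeff_map]
    refine (totalDegree_mul _ _).trans ?_
    rw [totalDegree_C, add_zero]
    exact hQ1
  · have hcomp : ((MvPolynomial.aeval ξ : Pl 4 K →ₐ[K] E) : Pl 4 K →+* E).comp
        (C : K →+* Pl 4 K) = algebraMap K E := by
      ext r
      exact aeval_C _ _
    have hs : eval₂ (algebraMap K E) (Fin.cons 1 z' : Fin 4 → E)
        (∑ i : Fin 3, C (B 0 i) * X i.succ : MvPolynomial (Fin 4) K) = lc B z' 0 := by
      unfold lc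
      rw [eval₂_sum]
      refine Finset.sum_congr rfl fun i _ => ?_
      rw [eval₂_mul, eval₂_C, eval₂_X, Fin.cons_succ]
    rw [eval₂_mul, eval₂_C, eval₂_map, hcomp, hH, eval₂_mul, eval₂_pow, eval₂_pow, eval₂_X,
      Fin.cons_zero, one_pow, mul_one, hs]
    unfold Phi
    congr 2

/-! ## Integrality -/

theorem aeval_mem (R : Subring E) (hR : ∀ c : K, algebraMap K E c ∈ R) {n : ℕ} (x : Fin n → E)
    (hx : ∀ i, x i ∈ R) (G : Pl n K) : MvPolynomial.aeval x G ∈ R := by
  induction G using MvPolynomial.induction_on with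
  | C a =>
    rw [MvPolynomial.aeval_C]
    exact hR a
  | add p q hp hq =>
    rw [map_add]
    exact add_mem hp hq
  | mul_X p i hp =>
    rw [map_mul, MvPolynomial.aeval_X]
    exact mul_mem hp (hx i)

theorem lc_mem (R : Subring E) (hR : ∀ c : K, algebraMap K E c ∈ R) {n c : ℕ} (x : Fin n → E)
    (hx : ∀ i, x i ∈ R) (A : Fin c → Fin n → K) (i : Fin c) : lc A x i ∈ R :=
  sum_mem fun j _ => mul_mem (hR _) (hx j)

theorem Phi_R {e : ℕ} (R : Subring E) (l : Fin 2 → E) (w z₀ : E) (θ : Fin e → E)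
    (hl : ∀ i, l i ∈ R) (hz : z₀ ∈ R) (hw : z₀ * w ∈ R) (hθ : ∀ k, θ k ∈ R) (j a : ℕ)
    (s : {β : Fin 2 → ℕ // ∑ i, β i ≤ a} × Fin (j + 1) × Fin e) : Phi l w z₀ θ j a s ∈ R := by
  have h1 : (s.2.1 : ℕ) + (j - (s.2.1 : ℕ)) = j := by
    have := s.2.1.2
    omega
  have h2 : z₀ ^ j = z₀ ^ (s.2.1 : ℕ) * z₀ ^ (j - (s.2.1 : ℕ)) := by
    rw [← pow_add, h1]
  have h3 : Phi l w z₀ θ j a s = (θ s.2.2 * (∏ i, l i ^ (s.1 : Fin 2 → ℕ) i)) *
      (z₀ ^ (j - (s.2.1 : ℕ)) * (z₀ * w) ^ (s.2.1 : ℕ)) := by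
    unfold Phi
    rw [h2, mul_pow]
    ring
  rw [h3]
  refine mul_mem (mul_mem (hθ _) (prod_mem fun i _ => pow_mem (hl i) _)) ?_
  exact mul_mem (pow_mem hz _) (pow_mem hw _)

/-- The integral closure as a subring. -/
noncomputable def Rg (K : Type) {E : Type} [Field K] [Field E] [Algebra K E] (x : Fin 3 → E) :
    Subring E :=
  (integralClosure (Algebra.adjoin K (Set.range x)) E).toSubring

theorem mem_Rg (hInt : StmtIntA) (x : Fin 3 → E) (u : E) : u ∈ Rg K x ↔ Intx K x u := by
  rw [hInt K E 3 x u]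
  exact mem_integralClosure_iff _ _

theorem Rg_K (x : Fin 3 → E) (c : K) : algebraMap K E c ∈ Rg K x := by
  have h : algebraMap K E c ∈ integralClosure (Algebra.adjoin K (Set.range x)) E := by
    rw [IsScalarTower.algebraMap_apply K (Algebra.adjoin K (Set.range x)) E]
    exact isIntegral_algebraMap
  exact h

theorem Rg_x (x : Fin 3 → E) (i : Fin 3) : x i ∈ Rg K x := by
  have h : x i ∈ integralClosure (Algebra.adjoin K (Set.range x)) E :=
    isIntegral_algebraMap
      (x := (⟨x i, Algebra.subset_adjoin ⟨i, rfl⟩⟩ : Algebra.adjoin K (Set.range x)))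
  exact h

theorem Rg_int (x : Fin 3 → E) (u : E) (hu : IsIntegral (Rg K x) u) : u ∈ Rg K x := by
  have h1 : IsIntegral (integralClosure (Algebra.adjoin K (Set.range x)) E) u := hu
  have h2 : IsIntegral (Algebra.adjoin K (Set.range x)) u := isIntegral_trans u h1
  exact h2

end Space

theorem num (d C c a : ℕ) (hd : 1 ≤ d) (ha : 5 * (C + c) + 1 ≤ a) :
    (a + c + C) * (2 * ((a + c) * d) + C) < 4 * d * a ^ 2 := by
  have h1 : (a + c + C) * (2 * ((a + c) * d) + C) ≤ (a + (C + c)) * (2 * ((a + (C + c)) * d)) := by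
    have h2 : a + c + C = a + (C + c) := by ring
    rw [h2]
    refine Nat.mul_le_mul_left _ ?_
    have h3 : C ≤ 2 * (C * d) := by nlinarith
    calc 2 * ((a + c) * d) + C ≤ 2 * ((a + c) * d) + 2 * (C * d) := by omega
      _ = 2 * ((a + (C + c)) * d) := by ring
  generalize C + c = M at ha h1
  have h4 : (a + M) ^ 2 < 2 * a ^ 2 := by nlinarith
  calc (a + c + C) * (2 * ((a + c) * d) + C) ≤ (a + M) * (2 * ((a + M) * d)) := h1
    _ = 2 * d * (a + M) ^ 2 := by ring
    _ < 2 * d * (2 * a ^ 2) := Nat.mul_lt_mul_of_pos_left h4 (by omega)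
    _ = 4 * d * a ^ 2 := by ring

theorem num2 (d Δ D e C c i a n v : ℕ) (hd : 1 ≤ d) (hD : 1 ≤ D) (he : D ≤ e) (hi : 1 ≤ i)
    (ha : 5 * (C + c) + 1 ≤ a) (hp : 72 * d * Δ * i = a + c) (hn : a ^ 2 ≤ 2 * n)
    (hv : v ≤ (72 * d * Δ * i + C) *
      (72 * d * Δ * i * d + 8 * d * i * (9 * d * Δ) + C)) :
    D * i * v < n * ((8 * d * i + 1) * e) := by
  have h1 : 8 * d * i * (9 * d * Δ) = 72 * d * Δ * i * d := by ring
  rw [h1, hp, ← two_mul] at hv
  have h2 := hv.trans_lt (num d C c a hd ha)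
  have h3 : D * i * v < D * i * (4 * d * a ^ 2) :=
    Nat.mul_lt_mul_of_pos_left h2 (Nat.mul_pos hD hi)
  have h4 : D * i * (4 * d * a ^ 2) ≤ n * ((8 * d * i + 1) * e) := by
    calc D * i * (4 * d * a ^ 2) ≤ D * i * (4 * d * (2 * n)) :=
          Nat.mul_le_mul_left _ (Nat.mul_le_mul_left _ hn)
      _ = n * ((8 * d * i) * D) := by ring
      _ ≤ n * ((8 * d * i + 1) * e) :=
          Nat.mul_le_mul_left _ (Nat.mul_le_mul (Nat.le_succ _) he)
  exact h3.trans_le h4

end T3SecXIM

open T3SecXIM in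
/-- (SecXI) The sections of the first kind. -/
theorem ySecXI : StmtXUB2 → StmtXLB → StmtSubX → StmtIntA → StmtTrX → StmtDg1 → StmtE1X →
    StmtSecXI := by
  intro hUB hLB hSub hInt hTr hDg hE1 K E _ _ _ _ ξ hS ρ m Z₀ hZ₀ hZi d Δ D hd hΔ hD
  obtain ⟨hpos, h21, -, ha21, -⟩ := hDg K E ξ hS
  have hd1 : 1 ≤ d := by
    rw [hd]
    exact (hpos ρ m).1
  have hΔ1 : 1 ≤ Δ := by
    rw [hΔ]
    exact (hpos ρ m).2
  have hD1 : 1 ≤ D := by
    rw [hD]
    exact (hpos ρ (2 * m)).1
  obtain ⟨x, hx⟩ : ∃ x : Fin 3 → E, x = fun i : Fin 3 => ξ i.succ := ⟨_, rfl⟩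
  obtain ⟨g, hg⟩ : ∃ g : Fin 3 → E, g = fun i : Fin 3 => (ρ ^ m) (ξ i.succ) := ⟨_, rfl⟩
  obtain ⟨z', hz'⟩ : ∃ z' : Fin 3 → E, z' = fun i : Fin 3 => (ρ ^ (2 * m)) (ξ i.succ) := ⟨_, rfl⟩
  have hxai : AlgebraicIndependent K x := by
    rw [hx]
    exact hS.ai
  have hgai : AlgebraicIndependent K g := by
    rw [hg]
    exact hS.ai.map' (f := ρ ^ m) (ρ ^ m).toRingHom.injective
  have htrd : Algebra.trdeg K E = 3 := by
    have h := trdeg_eq ξ hS
    exact_mod_cast h
  obtain ⟨A, B, hAB⟩ := ha21 z'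
  have hfld : Set.range (lc A fun i => ξ i.succ) ∪ Set.range (lc B z') =
      insert (lc B z' 0) (Set.range (lc A x)) := by
    rw [hx]
    ext y
    simp only [Set.mem_union, Set.mem_insert_iff, Set.mem_range, Fin.exists_fin_one]
    tauto
  rw [hfld] at hAB
  have hABD : Module.finrank (IntermediateField.adjoin K
      (insert (lc B z' 0) (Set.range (lc A x)))) E = D := by
    rw [hAB, hD, hz']
  have hfin : Module.Finite (IntermediateField.adjoin K
      (insert (lc B z' 0) (Set.range (lc A x)))) E :=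
    Module.finite_of_finrank_pos (by omega)
  obtain ⟨t, ht⟩ := exists_t ξ hS (IntermediateField.adjoin K
      (insert (lc B z' 0) (Set.range (lc A x)))) hfin D hABD.symm
  obtain ⟨θ, hθ⟩ : ∃ θ : Fin D → E, θ = fun k => MvPolynomial.aeval ξ (t k) := ⟨_, rfl⟩
  rw [← hθ] at ht
  have hind : AlgebraicIndependent K (Fin.cons (lc B z' 0) (lc A x) : Fin 3 → E) :=
    ind3 ξ hS _ (by
      rw [Fin.range_cons]
      exact hfin)
  have hw : Transcendental K (lc B z' 0) := by
    have := hind.transcendental 0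
    rwa [Fin.cons_zero] at this
  obtain ⟨c, hc⟩ : ∃ c, ∀ k, (t k).totalDegree ≤ c :=
    ⟨Finset.univ.sup (fun k => (t k).totalDegree),
      fun k => Finset.le_sup (f := fun k => (t k).totalDegree) (Finset.mem_univ k)⟩
  obtain ⟨z₀, hz₀⟩ : ∃ z₀ : E, z₀ = MvPolynomial.aeval (fun i : Fin 3 => ξ i.succ) Z₀ := ⟨_, rfl⟩
  have hz₀0 : z₀ ≠ 0 := by
    rw [hz₀]
    intro h
    exact hZ₀ (hS.ai (h.trans (map_zero _).symm))
  have hbad := (hTr K E g hgai (lc B z' 0) hw).union (Set.finite_singleton (0 : K))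
  refine hbad.subset fun u hu => ?_
  by_contra hu'
  apply hu
  have htr : Transcendental (IntermediateField.adjoin K {Tu K u g}) (lc B z' 0) := by
    by_contra h
    exact hu' (Or.inl h)
  have hu0 : u ≠ 0 := by
    intro h
    exact hu' (Or.inr h)
  have hT := tr_T g hgai u hu0
  have hT0 : Tu K u g ≠ 0 := by
    intro h
    rw [h] at hT
    exact hT isAlgebraic_zero
  obtain ⟨C₀, hC₀⟩ := hUB K E (IntermediateField.adjoin K {Tu K u g}) 3 x (lc B z' 0) d
      (9 * d * Δ) (fin_ai ξ hS x hxai _) (trdeg_simple htrd _ hT) htr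
      (fun A' => deg0 x g d (fun A B => by
        rw [hx, hd, hg]
        exact h21 _ A B) u A')
      (fun A' => deg1 x z' (Tu K u g) (9 * d * Δ) (fun l μ => by
        rw [hx, hz', hd, hΔ, hg]
        exact hE1 K E ξ hS ρ m u l μ) B A')
      (Submodule.span (IntermediateField.adjoin K {Tu K u g}) (Set.range θ))
      (Submodule.fg_span (Set.finite_range θ))
  refine ⟨6 * (C₀ + c) + 1, fun i hi => ?_⟩
  have hpi : i ≤ 72 * d * Δ * i := by
    have h1 : 1 ≤ 72 * d * Δ := Nat.mul_pos (Nat.mul_pos (by norm_num) hd1) hΔ1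
    exact Nat.le_mul_of_pos_left i h1
  obtain ⟨a, ha⟩ : ∃ a, 72 * d * Δ * i = a + c := by
    refine ⟨72 * d * Δ * i - c, ?_⟩
    omega
  have hlt := num2 d Δ D D C₀ c i a (cnt 2 a)
    (Module.finrank (IntermediateField.adjoin K {Tu K u g})
      (VV (IntermediateField.adjoin K {Tu K u g}) θ x (lc B z' 0) (z₀ ^ (8 * d * i))
        (72 * d * Δ * i) (8 * d * i))) hd1 hD1 le_rfl (by omega)
    (by omega) ha (cnt_ge a) ((rank_VV _ _ _ _ _ _ _).trans (hC₀ _ _))
  have hW := finrank_W hLB (lc A x) (lc B z' 0) z₀ hz₀0 θ hind ht (8 * d * i) a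
  rw [← hW] at hlt
  have hRξ : ∀ i, ξ i ∈ Rg K x := by
    intro i
    refine Fin.cases ?_ (fun j => ?_) i
    · rw [mem_Rg hInt, hx]
      exact hS.int
    · have h := Rg_x (K := K) x j
      rw [hx] at h ⊢
      exact h
  have hRθ : ∀ k, θ k ∈ Rg K x := by
    intro k
    rw [hθ]
    exact aeval_mem _ (Rg_K x) ξ hRξ _
  have hRz : z₀ ∈ Rg K x := by
    rw [hz₀]
    exact aeval_mem _ (Rg_K x) _ (fun i => hRξ i.succ) _
  have hRw : z₀ * lc B z' 0 ∈ Rg K x := by
    unfold lc
    rw [Finset.mul_sum]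
    refine sum_mem fun k _ => ?_
    rw [mul_left_comm]
    refine mul_mem (Rg_K x _) ?_
    rw [mem_Rg hInt, hx, hz₀, hz']
    exact hZi k
  have hWR : ∀ v ∈ Submodule.span K (Set.range (Phi (lc A x) (lc B z' 0) z₀ θ (8 * d * i) a)),
      v ∈ Rg K x := by
    intro v hv
    induction hv using Submodule.span_induction with
    | mem y hy =>
      obtain ⟨s, rfl⟩ := hy
      exact Phi_R _ _ _ _ _ (fun k => lc_mem _ (Rg_K x) x (Rg_x x) A k) hRz hRw hRθ _ _ s
    | zero => exact zero_mem _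
    | add y z _ _ hy hz => exact add_mem hy hz
    | smul r y _ hy =>
      rw [Algebra.smul_def]
      exact mul_mem (Rg_K x r) hy
  obtain ⟨S, hSW, hS0, S', hS', hSS⟩ := hSub K E (Rg K x) (Rg_K x) (Rg_int x) (Tu K u g) hT0
    (VV (IntermediateField.adjoin K {Tu K u g}) θ x (lc B z' 0) (z₀ ^ (8 * d * i))
      (72 * d * Δ * i) (8 * d * i)) (fin_VV _ _ _ _ _ _ _)
    (Submodule.span K (Set.range (Phi (lc A x) (lc B z' 0) z₀ θ (8 * d * i) a)))
    (fun v hv => ⟨mem_VV _ A x (lc B z' 0) z₀ θ (8 * d * i) a _ (by omega) v hv, hWR v hv⟩)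
    (D * i) hlt
  obtain ⟨G, hG1, hG2, hG3⟩ := Sc_span ξ z' z₀ (72 * d * Δ * i) (8 * d * i) _
    (by
      rintro s ⟨y, rfl⟩
      rw [hx, hθ]
      exact Sc_Phi ξ z' z₀ A B t (8 * d * i) a c _ hc ha.symm.le y) S hSW
  refine ⟨G, S', hG1, hG2, ?_, ?_, ?_⟩
  · intro h
    apply hS0
    rw [hSS, h, mul_zero]
  · have h := (mem_Rg hInt x S').1 hS'
    rw [hx] at h
    exact h
  · rw [← hz₀, ← hz', ← hg, hG3]
    exact hSS

end Pool.Agent.Lib.MP_16285c_agX
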