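import Pool.Agent.Lib.MP_16285c_agX.T3.SpecA

/-!
# `StmtSubX`: the vanishing conditions
-/

set_option autoImplicit false

namespace Pool.Agent.Lib.MP_16285c_agX

open Pool.Agent.Lib.MP_16285c_ag Pool.Agent.Lib.MP_16285c_agN

namespace T3SubXM

variable {K E : Type} [Field K] [Field E] [Algebra K E]

/-- A relation over `K(t)` gives a relation over `K[t]`. -/
theorem clear_den {m : ℕ} (t : E) (c : Fin m → E)
    (hc : ∀ i, c i ∈ IntermediateField.adjoin K {t}) :
    ∃ (C : Fin m → Polynomial K) (d : E), d ≠ 0 ∧ ∀ i, Polynomial.aeval t (C i) = d * c i := by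
  have h1 : ∀ i, ∃ r s : Polynomial K, Polynomial.aeval t s ≠ 0 ∧
      Polynomial.aeval t r = Polynomial.aeval t s * c i := by
    intro i
    obtain ⟨r, s, hrs⟩ := (IntermediateField.mem_adjoin_simple_iff K (c i)).1 (hc i)
    by_cases hs : Polynomial.aeval t s = 0
    · refine ⟨0, 1, by simp, ?_⟩
      rw [hs, div_zero] at hrs
      rw [hrs]; simp
    · refine ⟨r, s, hs, ?_⟩
      rw [hrs]; field_simp
  choose r s hs hr using h1
  refine ⟨fun i => r i * ∏ j ∈ Finset.univ.erase i, s j, ∏ j, Polynomial.aeval t (s j),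
    Finset.prod_ne_zero_iff.2 fun j _ => hs j, ?_⟩
  intro i
  rw [map_mul, map_prod, hr i, ← Finset.mul_prod_erase Finset.univ _ (Finset.mem_univ i)]
  ring

/-- Division by a power of the variable. -/
theorem divp {m : ℕ} (t : E) (ht : t ≠ 0) (w : Fin m → E) :
    ∀ (N : ℕ) (C : Fin m → Polynomial K), (∑ i, (C i).natDegree) ≤ N →
      (∑ i, Polynomial.aeval t (C i) * w i = 0) → (∃ i, Polynomial.aeval t (C i) ≠ 0) →
      ∃ C' : Fin m → Polynomial K, (∑ i, Polynomial.aeval t (C' i) * w i = 0) ∧
        ∃ i, (C' i).coeff 0 ≠ 0 := by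
  intro N
  induction N with
  | zero =>
    intro C hN hC hne
    refine ⟨C, hC, ?_⟩
    obtain ⟨i, hi⟩ := hne
    refine ⟨i, fun h0 => hi ?_⟩
    have h1 : (C i).natDegree = 0 := by
      have := Finset.single_le_sum (f := fun j => (C j).natDegree) (fun _ _ => Nat.zero_le _)
        (Finset.mem_univ i)
      omega
    rw [Polynomial.eq_C_of_natDegree_eq_zero h1, h0]
    simp
  | succ N ih =>
    intro C hN hC hne
    by_cases h : ∃ i, (C i).coeff 0 ≠ 0
    · exact ⟨C, hC, h⟩
    push Not at h
    have hX : ∀ i, (C i).divX * Polynomial.X = C i := by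
      intro i
      have := Polynomial.divX_mul_X_add (C i)
      rw [h i] at this
      simpa using this
    have hae : ∀ i, Polynomial.aeval t (C i) = Polynomial.aeval t (C i).divX * t := by
      intro i
      conv_lhs => rw [← hX i]
      simp
    obtain ⟨i, hi⟩ := hne
    have hi0 : C i ≠ 0 := by
      intro h0; rw [h0] at hi; simp at hi
    refine ih (fun i => (C i).divX) ?_ ?_ ⟨i, ?_⟩
    · have h2 : ∑ j, ((C j).divX).natDegree < ∑ j, (C j).natDegree := by
        refine Finset.sum_lt_sum (fun j _ => ?_) ⟨i, Finset.mem_univ i, ?_⟩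
        · rw [Polynomial.natDegree_divX_eq_natDegree_tsub_one]; omega
        · rw [Polynomial.natDegree_divX_eq_natDegree_tsub_one]
          have h3 : (C i).natDegree ≠ 0 := by
            intro h4
            apply hi0
            rw [Polynomial.eq_C_of_natDegree_eq_zero h4, h i]
            simp
          omega
      omega
    · have h4 : (∑ i, Polynomial.aeval t (C i).divX * w i) * t = 0 := by
        rw [← hC, Finset.sum_mul]
        refine Finset.sum_congr rfl fun j _ => ?_
        rw [hae j]; ring
      exact (mul_eq_zero.1 h4).resolve_right ht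
    · intro h5
      apply hi
      rw [hae i, h5, zero_mul]

/-- The integral dependence. -/
theorem integ (R : Subring E) (hR : ∀ u : E, IsIntegral R u → u ∈ R) (T : E) (M : ℕ) (a : ℕ → E)
    (ha : ∀ k, a k ∈ R) (w' : E) (hw' : w' = ∑ k ∈ Finset.range (M + 1), a k * T ^ k)
    (hT : T * w' ∈ R) : w' ∈ R := by
  apply hR
  let ar : ℕ → R := fun k => ⟨a k, ha k⟩
  let wr : R := ⟨T * w', hT⟩
  let g : Polynomial R :=
    ∑ k ∈ Finset.range (M + 1), Polynomial.C (ar k * wr ^ k) * Polynomial.X ^ (M - k)
  have hg : g.degree ≤ (M : WithBot ℕ) := by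
    refine (Polynomial.degree_sum_le _ _).trans (Finset.sup_le fun k _ => ?_)
    refine (Polynomial.degree_C_mul_X_pow_le _ _).trans ?_
    exact_mod_cast Nat.sub_le M k
  refine ⟨Polynomial.X ^ (M + 1) - g, Polynomial.monic_X_pow_sub (hg.trans_lt (by exact_mod_cast Nat.lt_succ_self M)), ?_⟩
  have h1 : Polynomial.eval₂ (algebraMap R E) w' g =
      ∑ k ∈ Finset.range (M + 1), a k * (T * w') ^ k * w' ^ (M - k) := by
    rw [Polynomial.eval₂_finsetSum]
    refine Finset.sum_congr rfl fun k _ => ?_
    rw [Polynomial.eval₂_mul, Polynomial.eval₂_C, Polynomial.eval₂_pow, Polynomial.eval₂_X,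
      map_mul, map_pow]
    rfl
  rw [Polynomial.eval₂_sub, Polynomial.eval₂_pow, Polynomial.eval₂_X, h1, sub_eq_zero]
  have h2 : w' ^ (M + 1) = (∑ k ∈ Finset.range (M + 1), a k * T ^ k) * w' ^ M := by
    rw [← hw', pow_succ']
  rw [h2, Finset.sum_mul]
  refine Finset.sum_congr rfl fun k hk => ?_
  have hk' : k ≤ M := Nat.lt_succ_iff.1 (Finset.mem_range.1 hk)
  have h3 : w' ^ M = w' ^ k * w' ^ (M - k) := by rw [← pow_add]; congr 1; omega
  rw [h3, mul_pow]
  ring

/-- The key step: a relation over `K[T]` gives a combination divisible by `T`. -/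
theorem key {m : ℕ} (R : Subring E) (hK : ∀ c : K, algebraMap K E c ∈ R)
    (hR : ∀ u : E, IsIntegral R u → u ∈ R) (T : E) (w : Fin m → E)
    (hw : ∀ i, w i ∈ R) (C : Fin m → Polynomial K)
    (hC : ∑ i, Polynomial.aeval T (C i) * w i = 0) :
    ∃ v ∈ R, T * v = ∑ i, (C i).coeff 0 • w i := by
  have hae : ∀ i, Polynomial.aeval T (C i) =
      Polynomial.aeval T (C i).divX * T + algebraMap K E ((C i).coeff 0) := by
    intro i
    conv_lhs => rw [← Polynomial.divX_mul_X_add (C i)]
    simp
  have hv : T * (-∑ i, Polynomial.aeval T (C i).divX * w i) = ∑ i, (C i).coeff 0 • w i := by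
    have h1 : ∑ i, Polynomial.aeval T (C i) * w i =
        T * (∑ i, Polynomial.aeval T (C i).divX * w i) + ∑ i, (C i).coeff 0 • w i := by
      rw [Finset.mul_sum, ← Finset.sum_add_distrib]
      refine Finset.sum_congr rfl fun i _ => ?_
      rw [hae i, Algebra.smul_def]
      ring
    rw [hC] at h1
    linear_combination h1
  refine ⟨_, ?_, hv⟩
  have hsm : ∀ (c : K) (x : E), x ∈ R → c • x ∈ R := by
    intro c x hx
    rw [Algebra.smul_def]
    exact R.mul_mem (hK c) hx
  let M : ℕ := ∑ i, ((C i).divX).natDegree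
  have hdeg : ∀ i, ((C i).divX).natDegree ≤ M := fun i =>
    Finset.single_le_sum (f := fun j => ((C j).divX).natDegree) (fun _ _ => Nat.zero_le _)
        (Finset.mem_univ i)
  refine integ R hR T M (fun k => -∑ i, ((C i).divX).coeff k • w i) (fun k => ?_) _ ?_ ?_
  · exact R.neg_mem (R.sum_mem fun i _ => hsm _ _ (hw i))
  · have h2 : ∀ i, Polynomial.aeval T (C i).divX * w i =
        ∑ k ∈ Finset.range (M + 1), (((C i).divX).coeff k • w i) * T ^ k := by
      intro i
      rw [Polynomial.aeval_eq_sum_range' (Nat.lt_succ_of_le (hdeg i)), Finset.sum_mul]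
      refine Finset.sum_congr rfl fun k _ => ?_
      rw [Algebra.smul_def, Algebra.smul_def]
      ring
    rw [Finset.sum_congr rfl fun i _ => h2 i, Finset.sum_comm, ← Finset.sum_neg_distrib]
    refine Finset.sum_congr rfl fun k _ => ?_
    rw [← Finset.sum_mul, neg_mul]
  · rw [hv]
    exact R.sum_mem fun i _ => hsm _ _ (hw i)

/-- `R` as a submodule. -/
def RK (R : Subring E) (hK : ∀ c : K, algebraMap K E c ∈ R) : Submodule K E where
  carrier := R
  add_mem' := R.add_mem
  zero_mem' := R.zero_mem
  smul_mem' c x hx := by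
    rw [Algebra.smul_def]
    exact R.mul_mem (hK c) hx

/-- The codimension of the multiples of `T`. -/
theorem codim (R : Subring E) (hK : ∀ c : K, algebraMap K E c ∈ R)
    (hR : ∀ u : E, IsIntegral R u → u ∈ R) (T : E) (hT : T ≠ 0)
    (V : Submodule (IntermediateField.adjoin K {T}) E)
    (hV : Module.Finite (IntermediateField.adjoin K {T}) V) (W : Submodule K E)
    (hWV : ∀ w ∈ W, w ∈ V ∧ w ∈ R) (hW : FiniteDimensional K W) :
    Module.finrank K W ≤
      Module.finrank K (W.comap (LinearMap.mulLeft K T) ⊓ RK R hK : Submodule K E) +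
      Module.finrank (IntermediateField.adjoin K {T}) V := by
  classical
  have hinj : Function.Injective (LinearMap.mulLeft K T) := fun a b hab =>
    mul_left_cancel₀ hT (by simpa using hab)
  let W' : Submodule K E := W.comap (LinearMap.mulLeft K T) ⊓ RK R hK
  let ψ : W' →ₗ[K] W := (LinearMap.mulLeft K T).restrict (fun v hv => hv.1)
  have hψ : Function.Injective ψ := by
    intro a b hab
    apply Subtype.ext
    apply hinj
    exact congrArg Subtype.val hab
  have hfd : FiniteDimensional K W' := FiniteDimensional.of_injective ψ hψ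
  let I : Submodule K E := (RK R hK).map (LinearMap.mulLeft K T)
  let π : W →ₗ[K] (E ⧸ I) := I.mkQ.domRestrict W
  have hrn := LinearMap.finrank_range_add_finrank_ker π
  have hker : Module.finrank K (LinearMap.ker π) ≤ Module.finrank K W' := by
    have hle : LinearMap.ker π ≤ LinearMap.range ψ := by
      intro x hx
      have hx' : I.mkQ (x : E) = 0 := hx
      rw [Submodule.mkQ_apply, Submodule.Quotient.mk_eq_zero] at hx'
      obtain ⟨v, hv, hvx⟩ := hx'
      have hvx' : T * v = x := by simpa using hvx
      refine ⟨⟨v, ?_, hv⟩, Subtype.ext ?_⟩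
      · rw [SetLike.mem_coe, Submodule.mem_comap, hvx]
        exact x.2
      · simpa [ψ] using hvx'
    calc _ ≤ Module.finrank K (LinearMap.range ψ) := Submodule.finrank_mono hle
      _ ≤ _ := LinearMap.finrank_range_le ψ
  have hrange : Module.finrank K (LinearMap.range π) ≤
      Module.finrank (IntermediateField.adjoin K {T}) V := by
    by_contra hlt
    push Not at hlt
    let b := Module.finBasis K (LinearMap.range π)
    have hlift : ∀ i, ∃ w : W, π w = (b i : E ⧸ I) := fun i => (b i).2
    choose w hw using hlift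
    let v : Fin (Module.finrank K (LinearMap.range π)) → V := fun i => ⟨(w i : E), (hWV _ (w i).2).1⟩
    have hdep : ¬ LinearIndependent (IntermediateField.adjoin K {T}) v := by
      intro hli
      have := hli.fintype_card_le_finrank
      rw [Fintype.card_fin] at this
      omega
    obtain ⟨g, hg, i₀, hi₀⟩ := Fintype.not_linearIndependent_iff.1 hdep
    obtain ⟨C, d, hd, hCd⟩ := clear_den T (fun i => (g i : E)) fun i => (g i).2
    have hsum : ∑ i, (g i : E) * (w i : E) = 0 := by
      have := congrArg (Subtype.val) hg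
      simpa [v, Algebra.smul_def] using this
    obtain ⟨C', hC', i₁, hi₁⟩ := divp T hT (fun i => (w i : E)) _ C le_rfl
      (by
        calc _ = d * ∑ i, (g i : E) * (w i : E) := by
              rw [Finset.mul_sum]
              exact Finset.sum_congr rfl fun i _ => by rw [hCd i]; ring
          _ = 0 := by rw [hsum, mul_zero])
      ⟨i₀, by
        rw [hCd i₀]
        exact mul_ne_zero hd (by simpa using hi₀)⟩
    obtain ⟨u, hu, hTu⟩ := key R hK hR T (fun i => (w i : E)) (fun i => (hWV _ (w i).2).2) C' hC'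
    have hzero : ∑ i, (C' i).coeff 0 • b i = 0 := by
      apply Subtype.ext
      have h6 : (((∑ i, (C' i).coeff 0 • b i : LinearMap.range π)) : E ⧸ I) =
          I.mkQ (∑ i, (C' i).coeff 0 • (w i : E)) := by
        rw [map_sum, Submodule.coe_sum]
        refine Finset.sum_congr rfl fun i _ => ?_
        rw [Submodule.coe_smul, ← hw i, map_smul]
        rfl
      rw [h6, Submodule.mkQ_apply, ZeroMemClass.coe_zero, Submodule.Quotient.mk_eq_zero]
      exact ⟨u, hu, by simpa using hTu⟩
    exact hi₁ (Fintype.linearIndependent_iff.1 b.linearIndependent _ hzero i₁)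
  change Module.finrank K W ≤ Module.finrank K W' + _
  omega

end T3SubXM

open T3SubXM in
theorem ySubX : StmtSubX := by
  intro K E _ _ _ R hK hR T hT V hV W hW q
  induction q generalizing W with
  | zero =>
    intro hlt
    have h1 : 0 < Module.finrank K W := by omega
    have h2 : W ≠ ⊥ := by
      rintro rfl
      simp at h1
    obtain ⟨S, hS, hS0⟩ := (Submodule.ne_bot_iff W).1 h2
    exact ⟨S, hS, hS0, S, (hW S hS).2, by simp⟩
  | succ q ih =>
    intro hlt
    have hfd : FiniteDimensional K W := FiniteDimensional.of_finrank_pos (by omega)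
    have hle := codim R hK hR T hT V hV W hW hfd
    have htinv : T⁻¹ ∈ IntermediateField.adjoin K {T} :=
      IntermediateField.inv_mem _ (IntermediateField.mem_adjoin_simple_self K T)
    let W' : Submodule K E := W.comap (LinearMap.mulLeft K T) ⊓ RK R hK
    have hW' : ∀ w ∈ W', w ∈ V ∧ w ∈ R := by
      intro w hw
      refine ⟨?_, hw.2⟩
      have h3 : T * w ∈ V := (hW _ hw.1).1
      have h5 := V.smul_mem (⟨T⁻¹, htinv⟩ : IntermediateField.adjoin K {T}) h3
      have h4 : (⟨T⁻¹, htinv⟩ : IntermediateField.adjoin K {T}) • (T * w) = w := by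
        rw [Algebra.smul_def]
        change T⁻¹ * (T * w) = w
        field_simp
      rwa [h4] at h5
    obtain ⟨S, hS, hS0, S', hS', hSS'⟩ := ih W' hW' (by
      change _ ≤ Module.finrank K W' + _ at hle
      rw [Nat.succ_mul] at hlt
      omega)
    have hTS : T * S ∈ W := hS.1
    exact ⟨T * S, hTS, mul_ne_zero hT hS0, S', hS', by rw [hSS']; ring⟩

end Pool.Agent.Lib.MP_16285c_agX
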