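import Pool.Agent.Lib.MP_16285c_agX.T3.SpecD

/-!
# The height of a point is bounded by the height of `x` (ZD3X, helper85)
-/

set_option autoImplicit false

namespace Pool.Agent.Lib.MP_16285c_agX

open Pool.Agent.Lib.MP_16285c_ag Pool.Agent.Lib.MP_16285c_agN

namespace T3CzXM

/-- A polynomial of degree `≤ D + 1` is a combination of `1, X_1, …, X_n` with coefficients of degree `≤ D`. -/
theorem dec {K : Type} [Field K] {n : ℕ} (D : ℕ) (F : Pl n K) (hF : F.totalDegree ≤ D + 1) :
    ∃ G : Fin (n + 1) → Pl n K, (∀ j, (G j).totalDegree ≤ D) ∧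
      F = ∑ j, hcN (MvPolynomial.X : Fin n → Pl n K) j * G j := by
  classical
  rw [F.as_sum]
  refine Finset.sum_induction (fun s => MvPolynomial.monomial s (F.coeff s))
    (fun F : Pl n K => ∃ G : Fin (n + 1) → Pl n K, (∀ j, (G j).totalDegree ≤ D) ∧
      F = ∑ j, hcN (MvPolynomial.X : Fin n → Pl n K) j * G j) ?_ ?_ ?_
  · rintro a b ⟨G, hG, rfl⟩ ⟨G', hG', rfl⟩
    refine ⟨fun j => G j + G' j, fun j =>
      (MvPolynomial.totalDegree_add _ _).trans (max_le (hG j) (hG' j)), ?_⟩
    rw [← Finset.sum_add_distrib]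
    exact Finset.sum_congr rfl fun j _ => (mul_add _ _ _).symm
  · exact ⟨fun _ => 0, fun j => by simp, by simp⟩
  · intro s hs
    have hdeg : s.sum (fun _ e => e) ≤ D + 1 := (MvPolynomial.le_totalDegree hs).trans hF
    by_cases h0 : s = 0
    · refine ⟨Fin.cons (MvPolynomial.C (F.coeff s)) fun _ => 0, fun j => ?_, ?_⟩
      · refine Fin.cases ?_ (fun i => ?_) j
        · rw [Fin.cons_zero, MvPolynomial.totalDegree_C]
          exact Nat.zero_le _
        · rw [Fin.cons_succ, MvPolynomial.totalDegree_zero]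
          exact Nat.zero_le _
      · rw [Fin.sum_univ_succ]
        simp only [hcN, Fin.cons_zero, Fin.cons_succ, mul_zero, Finset.sum_const_zero, add_zero,
          one_mul]
        rw [h0]
        rfl
    · obtain ⟨i, hi⟩ : ∃ i, s i ≠ 0 := by
        by_contra hcon
        push Not at hcon
        exact h0 (Finsupp.ext hcon)
      obtain ⟨s', hs'⟩ : ∃ s' : Fin n →₀ ℕ, s = Finsupp.single i 1 + s' := by
        refine ⟨s - Finsupp.single i 1, ?_⟩
        rw [add_comm, tsub_add_cancel_of_le]
        rw [Finsupp.single_le_iff]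
        omega
      have hX : MvPolynomial.monomial s (F.coeff s) =
          MvPolynomial.X i * MvPolynomial.monomial s' (F.coeff s) := by
        nth_rewrite 1 [hs']
        rw [MvPolynomial.X, MvPolynomial.monomial_mul, one_mul]
      have hd' : (MvPolynomial.monomial s' (F.coeff s) : Pl n K).totalDegree ≤ D := by
        refine (MvPolynomial.totalDegree_monomial_le _ _).trans ?_
        have h1 : s.sum (fun _ e => e) = 1 + s'.sum (fun _ e => e) := by
          rw [hs', Finsupp.sum_add_index' (fun _ => rfl) (fun _ _ _ => rfl),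
            Finsupp.sum_single_index rfl]
        have h2 : s'.sum (fun _ e => e) ≤ D := by omega
        exact h2
      refine ⟨Fin.cons 0 (Pi.single i (MvPolynomial.monomial s' (F.coeff s))), fun j => ?_, ?_⟩
      · refine Fin.cases ?_ (fun k => ?_) j
        · rw [Fin.cons_zero, MvPolynomial.totalDegree_zero]
          exact Nat.zero_le _
        · rw [Fin.cons_succ]
          by_cases hk : k = i
          · rw [hk, Pi.single_eq_same]
            exact hd'
          · rw [Pi.single_eq_of_ne hk, MvPolynomial.totalDegree_zero]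
            exact Nat.zero_le _
      · rw [Fin.sum_univ_succ]
        simp only [hcN, Fin.cons_zero, Fin.cons_succ, mul_zero, zero_add]
        rw [Finset.sum_eq_single i]
        · rw [Pi.single_eq_same, hX]
        · intro k _ hk
          rw [Pi.single_eq_of_ne hk, mul_zero]
        · intro hk
          exact absurd (Finset.mem_univ _) hk

/-- The value of `hcN X`. -/
theorem aeval_hcN {K Ω : Type} [Field K] [Field Ω] [Algebra K Ω] {n : ℕ} (t : Fin n → Ω)
    (j : Fin (n + 1)) :
    MvPolynomial.aeval t (hcN (MvPolynomial.X : Fin n → Pl n K) j) = hcN t j := by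
  refine Fin.cases ?_ (fun i => ?_) j
  · simp only [hcN, Fin.cons_zero, map_one]
  · simp only [hcN, Fin.cons_succ, MvPolynomial.aeval_X]

theorem hcN_ne {Ω : Type} [Field Ω] {n : ℕ} (t : Fin n → Ω) : hcN t ≠ 0 := by
  intro h
  have := congrFun h 0
  simp only [hcN, Fin.cons_zero, Pi.zero_apply, one_ne_zero] at this

/-- The height of the values of polynomials. -/
theorem poly {K Ω : Type} [Field K] [Field Ω] [Algebra K Ω] (h : HtF Ω) (n D : ℕ) :
    ∀ (κ : Type) [Fintype κ] (F : κ → Pl n K), (∀ k, (F k).totalDegree ≤ D) →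
      ∃ C : ℝ, ∀ t : Fin n → Ω,
        h.H (fun k => MvPolynomial.aeval t (F k)) ≤ D * h.H (hcN t) + C := by
  classical
  induction D with
  | zero =>
    intro κ _ F hF
    refine ⟨h.H (fun k => algebraMap K Ω ((F k).coeff 0)), fun t => ?_⟩
    have e : (fun k => MvPolynomial.aeval t (F k)) =
        fun k => algebraMap K Ω ((F k).coeff 0) := by
      funext k
      have h1 := MvPolynomial.totalDegree_eq_zero_iff_eq_C.1 (Nat.le_zero.1 (hF k))
      nth_rewrite 1 [h1]
      rw [MvPolynomial.aeval_C]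
    rw [e]
    simp
  | succ D ih =>
    intro κ _ F hF
    choose G hG hFG using fun k => dec D (F k) (hF k)
    obtain ⟨C₁, hC₁⟩ := ih (κ × Fin (n + 1)) (fun p => G p.1 p.2) (fun p => hG p.1 p.2)
    obtain ⟨C₂, hC₂⟩ := h.lin (fun (k : κ) (q : Fin (n + 1) × (κ × Fin (n + 1))) =>
      if q.2 = (k, q.1) then (1 : Ω) else 0)
    refine ⟨max (C₁ + C₂) 0, fun t => ?_⟩
    have hval : ∀ k, MvPolynomial.aeval t (F k) =
        ∑ j, hcN t j * MvPolynomial.aeval t (G k j) := by
      intro k
      rw [hFG k, map_sum]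
      refine Finset.sum_congr rfl fun j _ => ?_
      rw [map_mul, aeval_hcN]
    have hn := h.nonneg (hcN t)
    by_cases hz : (fun p : κ × Fin (n + 1) => MvPolynomial.aeval t (G p.1 p.2)) = 0
    · have e : (fun k => MvPolynomial.aeval t (F k)) = 0 := by
        funext k
        rw [hval k, Pi.zero_apply]
        refine Finset.sum_eq_zero fun j _ => ?_
        have := congrFun hz (k, j)
        simp only [Pi.zero_apply] at this
        rw [this, mul_zero]
      rw [e, h.zero]
      have h1 : (0 : ℝ) ≤ ((D + 1 : ℕ) : ℝ) * h.H (hcN t) :=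
        mul_nonneg (Nat.cast_nonneg _) hn
      have h2 := le_max_right (C₁ + C₂) 0
      linarith
    · have h1 := hC₂ (fun q => hcN t q.1 * MvPolynomial.aeval t (G q.2.1 q.2.2))
      have h2 := h.tens (hcN t) (fun p : κ × Fin (n + 1) => MvPolynomial.aeval t (G p.1 p.2))
        (hcN_ne t) hz
      rw [h2] at h1
      have e : (fun k : κ => ∑ q : Fin (n + 1) × (κ × Fin (n + 1)),
          (if q.2 = (k, q.1) then (1 : Ω) else 0) *
            (hcN t q.1 * MvPolynomial.aeval t (G q.2.1 q.2.2))) =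
          fun k => MvPolynomial.aeval t (F k) := by
        funext k
        rw [hval k, Fintype.sum_prod_type]
        refine Finset.sum_congr rfl fun j _ => ?_
        simp only [ite_mul, one_mul, zero_mul]
        rw [Finset.sum_ite_eq' Finset.univ (k, j), if_pos (Finset.mem_univ _)]
      rw [e] at h1
      have h3 := hC₁ t
      have h4 := le_max_left (C₁ + C₂) 0
      push_cast
      linarith

/-- The first coordinate. -/
theorem split {Ω : Type} [Field Ω] (h : HtF Ω) {n : ℕ} (pt : Fin (n + 1) → Ω) :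
    h.H (hcN pt) ≤ h.H ![1, pt 0] + h.H (hcN fun i : Fin n => pt i.succ) := by
  obtain ⟨e, he⟩ : ∃ e : Fin (n + 2) → Fin 2 × Fin (n + 1),
      e = Fin.cons (0, 0) (Fin.cons (1, 0) fun i => (0, i.succ)) := ⟨_, rfl⟩
  have h0 : (![1, pt 0] : Fin 2 → Ω) ≠ 0 := by
    intro hc
    have := congrFun hc 0
    simp at this
  have h1 := h.tens ![1, pt 0] (hcN fun i : Fin n => pt i.succ) h0 (hcN_ne _)
  rw [← h1]
  have h2 := h.comp e (fun t : Fin 2 × Fin (n + 1) =>
    (![1, pt 0] : Fin 2 → Ω) t.1 * hcN (fun i : Fin n => pt i.succ) t.2)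
  refine le_of_eq_of_le ?_ h2
  congr 1
  funext j
  rw [Function.comp_apply, he]
  refine Fin.cases ?_ (fun j => ?_) j
  · simp [hcN]
  · refine Fin.cases ?_ (fun i => ?_) j
    · simp [hcN]
    · simp [hcN]

end T3CzXM

open T3CzXM in
/-- (CzX) -/
theorem yCzX : StmtCzX := by
  intro K E _ _ _ n ξ hξ
  classical
  obtain ⟨F, hF, hF0⟩ := hξ.int
  obtain ⟨r, hr⟩ : ∃ r, r = F.natDegree := ⟨_, rfl⟩
  obtain ⟨D, hD⟩ : ∃ D : ℕ, ∀ i : Fin (r + 1), (F.coeff i).totalDegree ≤ D :=
    ⟨∑ i : Fin (r + 1), (F.coeff i).totalDegree, fun i =>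
      Finset.single_le_sum (f := fun i : Fin (r + 1) => (F.coeff i).totalDegree)
        (fun _ _ => Nat.zero_le _) (Finset.mem_univ i)⟩
  refine ⟨D + 1, Nat.le_add_left 1 D, fun Ω _ _ h => ?_⟩
  obtain ⟨C₁, hC₁⟩ := poly h n D (Fin (r + 1)) (fun i => F.coeff i) hD
  obtain ⟨C₂, hC₂⟩ := h.root r
  refine ⟨C₁ + C₂, fun pt hpt => ?_⟩
  have hQ : ∑ i : Fin (r + 1), MvPolynomial.aeval (fun j : Fin n => pt j.succ) (F.coeff i) *
      pt 0 ^ (i : ℕ) = 0 := by
    have h1 := hpt (∑ i : Fin (r + 1), MvPolynomial.rename Fin.succ (F.coeff i) *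
      MvPolynomial.X 0 ^ (i : ℕ)) (by
        rw [Polynomial.eval₂_eq_sum_range, ← hr, ← Fin.sum_univ_eq_sum_range
          (fun i => ((MvPolynomial.aeval fun i : Fin n => ξ i.succ : Pl n K →ₐ[K] E) :
            Pl n K →+* E) (F.coeff i) * ξ 0 ^ i) (r + 1)] at hF0
        rw [map_sum, ← hF0]
        refine Finset.sum_congr rfl fun i _ => ?_
        rw [map_mul, map_pow, MvPolynomial.aeval_X, MvPolynomial.aeval_rename]
        rfl)
    rw [map_sum] at h1
    rw [← h1]
    refine Finset.sum_congr rfl fun i _ => ?_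
    rw [map_mul, map_pow, MvPolynomial.aeval_X, MvPolynomial.aeval_rename]
    rfl
  have hlast : MvPolynomial.aeval (fun j : Fin n => pt j.succ)
      (F.coeff ((Fin.last r : Fin (r + 1)) : ℕ)) ≠ 0 := by
    rw [Fin.val_last, hr, hF.coeff_natDegree, map_one]
    exact one_ne_zero
  have h2 := hC₂ (fun i : Fin (r + 1) => MvPolynomial.aeval (fun j : Fin n => pt j.succ)
    (F.coeff i)) (pt 0) hlast hQ
  have h3 := hC₁ (fun j : Fin n => pt j.succ)
  have h4 := split h pt
  unfold hx
  push_cast
  linarith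

end Pool.Agent.Lib.MP_16285c_agX
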