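import Pool.Agent.Lib.MP_16285c_agX.T3.SpecD

/-!
# Threefolds with `λ₁ > λ₃`: values along orbits (FlV)
-/

set_option autoImplicit false

namespace Pool.Agent.Lib.MP_16285c_agX

open Pool.Agent.Lib.MP_16285c_ag Pool.Agent.Lib.MP_16285c_agN

namespace T3FlVM

theorem map_aeval {K E : Type} [Field K] [Field E] [Algebra K E] {n : ℕ} (ξ : Fin n → E)
    (ρ : E →ₐ[K] E) (G : Pl n K) :
    ρ (MvPolynomial.aeval ξ G) = MvPolynomial.aeval (fun i => ρ (ξ i)) G := by
  have h : ρ.comp (MvPolynomial.aeval ξ : Pl n K →ₐ[K] E) =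
      MvPolynomial.aeval fun i => ρ (ξ i) := by
    refine MvPolynomial.algHom_ext fun i => ?_
    rw [AlgHom.comp_apply, MvPolynomial.aeval_X, MvPolynomial.aeval_X]
  rw [← h]
  rfl

end T3FlVM

open T3FlVM

/-- (FlV) -/
theorem yFlV : StmtVlA → StmtFlV := by
  intro hVl K E Ω _ _ _ _ _ n ξ ρ z hF m
  induction m with
  | zero =>
    intro t i
    have h := (hVl K E Ω n ξ (z t) (hF t).1).2.1 (MvPolynomial.X i)
    rw [MvPolynomial.aeval_X, MvPolynomial.aeval_X] at h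
    exact h
  | succ m ih =>
    intro t i
    obtain ⟨-, -, -, h4, h5, h6⟩ := hVl K E Ω n ξ (z t) (hF t).1
    obtain ⟨A, B, hB, hAB, hA⟩ := (hF (t + m)).2 i
    have hB0 : MvPolynomial.aeval ξ B ≠ 0 := fun h => hB ((hF (t + m)).1 B h)
    have hb := h6 n (fun j => (ρ ^ m) (ξ j)) (z (t + m)) (ih t) B
    have ha := h6 n (fun j => (ρ ^ m) (ξ j)) (z (t + m)) (ih t) A
    rw [← map_aeval] at ha hb
    have hne : (ρ ^ m) (MvPolynomial.aeval ξ B) ≠ 0 := fun h =>
      hB0 ((ρ ^ m).toRingHom.injective (h.trans (map_zero _).symm))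
    have h := h4 _ _ _ _ ha (h5 _ _ hb hB)
    have e1 : (ρ ^ m) (MvPolynomial.aeval ξ A) * ((ρ ^ m) (MvPolynomial.aeval ξ B))⁻¹ =
        (ρ ^ (m + 1)) (ξ i) := by
      rw [← hAB, map_mul, mul_assoc, mul_inv_cancel₀ hne, mul_one, pow_succ]
      rfl
    have e2 : MvPolynomial.aeval (z (t + m)) A * (MvPolynomial.aeval (z (t + m)) B)⁻¹ =
        z (t + (m + 1)) i := by
      rw [hA, mul_assoc, mul_inv_cancel₀ hB, mul_one]
      rfl
    rw [e1, e2] at h
    exact h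

end Pool.Agent.Lib.MP_16285c_agX
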