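import Pool.Agent.Lib.MP_16285c_agX.T3.SpecA

/-!
# Threefolds with `λ₁ > λ₃`: the degrees (Dg1)
-/

set_option autoImplicit false

namespace Pool.Agent.Lib.MP_16285c_agX

open Pool.Agent.Lib.MP_16285c_ag Pool.Agent.Lib.MP_16285c_agN

namespace T3Dg1M

open scoped IntermediateField.algebraAdjoinAdjoin

variable {K E : Type} [Field K] [Field E] [Algebra K E]

theorem lc_single {n c : ℕ} (A : Fin c → Fin n → K) (y : Fin n → E) (i : Fin c) (j : Fin n)
    (h : A i = Pi.single j 1) : lc A y i = y j := by
  unfold lc
  rw [Finset.sum_eq_single j]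
  · rw [h, Pi.single_eq_same, map_one, one_mul]
  · intro b _ hb
    rw [h, Pi.single_eq_of_ne hb, map_zero, zero_mul]
  · intro hj
    exact absurd (Finset.mem_univ j) hj

/-- Values of polynomials belong to a subfield containing the coordinates. -/
theorem aeval_mem {n : ℕ} (x : Fin n → E) (L : IntermediateField K E) (h : ∀ i, x i ∈ L) (G : Pl n K) :
    MvPolynomial.aeval x G ∈ L := by
  induction G using MvPolynomial.induction_on with
  | C a =>
    rw [MvPolynomial.aeval_C]
    exact L.algebraMap_mem a
  | add p q hp hq =>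
    rw [map_add]
    exact L.add_mem hp hq
  | mul_X p i hp =>
    rw [map_mul, MvPolynomial.aeval_X]
    exact L.mul_mem hp (h i)

/-- An integral element is integral over every subfield which contains the coordinates. -/
theorem int_of_intx {n : ℕ} (x : Fin n → E) (u : E) (hu : Intx K x u) (L : IntermediateField K E)
    (h : ∀ i, x i ∈ L) : IsIntegral L u := by
  obtain ⟨F, hF, h0⟩ := hu
  let f : Pl n K →+* L :=
    ((MvPolynomial.aeval x : Pl n K →ₐ[K] E) : Pl n K →+* E).codRestrict L (fun G => aeval_mem x L h G)
  refine ⟨F.map f, hF.map f, ?_⟩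
  rw [Polynomial.eval₂_map]
  exact h0

/-- The field is finite over a subfield over which it is algebraic. -/
theorem finite_of_alg {n : ℕ} (ξ : Fin n → E) (hg : IntermediateField.adjoin K (Set.range ξ) = ⊤)
    (L : IntermediateField K E) (hi : ∀ i, IsIntegral L (ξ i)) : FiniteDimensional L E := by
  have h1 : IntermediateField.adjoin L (Set.range ξ) = ⊤ := by
    have : (IntermediateField.adjoin L (Set.range ξ)).restrictScalars K = ⊤ := by
      rw [eq_top_iff, ← hg, IntermediateField.adjoin_le_iff]
      rintro _ ⟨i, rfl⟩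
      exact IntermediateField.subset_adjoin L _ ⟨i, rfl⟩
    exact IntermediateField.restrictScalars_eq_top_iff.1 this
  have h2 : FiniteDimensional L (IntermediateField.adjoin L (Set.range ξ)) := by
    apply IntermediateField.finiteDimensional_adjoin
    rintro _ ⟨i, rfl⟩
    exact hi i
  rw [h1] at h2
  exact IntermediateField.topEquiv.toLinearEquiv.finiteDimensional

theorem alg_of_adjoin (S : Set E)
    (h : Algebra.IsAlgebraic (IntermediateField.adjoin K S) E) :
    Algebra.IsAlgebraic (Algebra.adjoin K S) E :=
  Algebra.IsAlgebraic.trans (Algebra.adjoin K S) (IntermediateField.adjoin K S) E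

/-- The coordinates are finite over the base. -/
theorem fin_base {n : ℕ} (ξ : Fin (n + 1) → E) (hs : Stp K ξ) :
    FiniteDimensional (IntermediateField.adjoin K (Set.range fun i : Fin n => ξ i.succ)) E := by
  refine finite_of_alg ξ hs.gen _ ?_
  intro i
  refine Fin.cases ?_ ?_ i
  · exact int_of_intx _ _ hs.int _ fun j => IntermediateField.subset_adjoin K _ ⟨j, rfl⟩
  · intro j
    have hm : ξ j.succ ∈ IntermediateField.adjoin K (Set.range fun i : Fin n => ξ i.succ) :=
      IntermediateField.subset_adjoin K _ ⟨j, rfl⟩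
    exact isIntegral_algebraMap (x := (⟨ξ j.succ, hm⟩ :
      IntermediateField.adjoin K (Set.range fun i : Fin n => ξ i.succ)))

/-- The transcendence degree. -/
theorem trdeg_eq {n : ℕ} (ξ : Fin (n + 1) → E) (hs : Stp K ξ) : Algebra.trdeg K E = n := by
  have hfin := fin_base ξ hs
  have halg : Algebra.IsAlgebraic (IntermediateField.adjoin K (Set.range fun i : Fin n => ξ i.succ)) E :=
    Algebra.IsAlgebraic.of_finite _ _
  have hb : IsTranscendenceBasis K (fun i : Fin n => ξ i.succ) :=
    isTranscendenceBasis_iff_algebraicIndependent_isAlgebraic.2 ⟨hs.ai, alg_of_adjoin _ halg⟩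
  rw [← hb.cardinalMk_eq_trdeg]
  simp

/-- `n` algebraically independent elements: the field is algebraic over the subfield they
generate. -/
theorem alg_fam {n : ℕ} (ξ : Fin (n + 1) → E) (hs : Stp K ξ) (r : Fin n → E)
    (h : AlgebraicIndependent K r) :
    Algebra.IsAlgebraic (IntermediateField.adjoin K (Set.range r)) E := by
  have hr : IsTranscendenceBasis K r := by
    apply h.isTranscendenceBasis_of_trdeg_le_of_finite
    rw [trdeg_eq ξ hs]
    simp
  exact hr.isAlgebraic_field

/-- Some member of an algebraically independent family is transcendental over the field generated by two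
elements. -/
theorem exists_tr (ξ : Fin 4 → E) (hs : Stp K ξ) (y : Fin 2 → E) (v : Fin 3 → E)
    (hv : AlgebraicIndependent K v) :
    ∃ i, Transcendental (IntermediateField.adjoin K (Set.range y)) (v i) := by
  by_contra hcon
  push Not at hcon
  set κ := IntermediateField.adjoin K (Set.range y) with hκ
  have h2 : Algebra.IsAlgebraic κ (IntermediateField.adjoin κ (Set.range v)) := by
    apply IntermediateField.isAlgebraic_adjoin
    rintro x ⟨i, rfl⟩
    have h3 : IsAlgebraic κ (v i) := by
      have h4 := hcon i
      unfold Transcendental at h4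
      exact not_not.1 h4
    exact h3.isIntegral
  have h3 : Algebra.IsAlgebraic κ E := by
    have halg := alg_fam ξ hs v hv
    have h4 : Algebra.IsAlgebraic (IntermediateField.adjoin κ (Set.range v)) E := by
      constructor
      intro z
      have h5 := halg.isAlgebraic z
      have hle : IntermediateField.adjoin K (Set.range v) ≤
          (IntermediateField.adjoin κ (Set.range v)).restrictScalars K := by
        rw [IntermediateField.adjoin_le_iff]
        exact IntermediateField.subset_adjoin κ _
      let j : IntermediateField.adjoin K (Set.range v) →+* IntermediateField.adjoin κ (Set.range v) :=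
        (algebraMap (IntermediateField.adjoin K (Set.range v)) E).codRestrict
          (IntermediateField.adjoin κ (Set.range v)) (fun a => hle a.2)
      obtain ⟨p, hp, hz⟩ := h5
      refine ⟨p.map j, (Polynomial.map_ne_zero_iff j.injective).2 hp, ?_⟩
      rw [Polynomial.aeval_def, Polynomial.eval₂_map]
      rw [Polynomial.aeval_def] at hz
      exact hz
    exact Algebra.IsAlgebraic.trans κ (IntermediateField.adjoin κ (Set.range v)) E
  have h4 := alg_of_adjoin (Set.range y) h3
  have h5 := Algebra.IsAlgebraic.trdeg_le_cardinalMk K (Set.range y)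
  have h6 : Cardinal.mk (Set.range y) ≤ 2 := by
    have h7 := Cardinal.mk_range_le (f := y)
    simpa using h7
  rw [trdeg_eq ξ hs] at h5
  have h8 := h5.trans h6
  norm_num at h8

/-- A field generated by two coordinates of one family and one of another one. -/
theorem finite_fld (ξ : Fin 4 → E) (hs : Stp K ξ) (u v : Fin 3 → E) (hu : AlgebraicIndependent K u)
    (hv : AlgebraicIndependent K v) :
    ∃ (A : Fin 2 → Fin 3 → K) (B : Fin 1 → Fin 3 → K),
      1 ≤ Module.finrank (IntermediateField.adjoin K (Set.range (lc A u) ∪ Set.range (lc B v))) E := by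
  set A : Fin 2 → Fin 3 → K := fun i => Pi.single (Fin.castLE (by norm_num) i) 1 with hA
  set y : Fin 2 → E := lc A u with hy
  have hyi : y = u ∘ Fin.castLE (by norm_num) := by
    funext i
    exact lc_single A u i _ rfl
  obtain ⟨i, hi⟩ := exists_tr ξ hs y v hv
  set B : Fin 1 → Fin 3 → K := fun _ => Pi.single i 1 with hB
  set l : Fin 1 → E := lc B v with hl
  have hli : ∀ j, l j = v i := fun j => lc_single B v j i rfl
  refine ⟨A, B, ?_⟩
  set κ := IntermediateField.adjoin K (Set.range y) with hκ
  have hyind : AlgebraicIndependent K y := by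
    rw [hyi]
    exact hu.comp _ (Fin.castLE_injective _)
  let y' : Fin 2 → κ := fun i => ⟨y i, IntermediateField.subset_adjoin K _ ⟨i, rfl⟩⟩
  have hcomp : (algebraMap κ E) ∘ y' = y := rfl
  have hy' : AlgebraicIndependent K y' := by
    refine AlgebraicIndependent.of_comp (IsScalarTower.toAlgHom K κ E) ?_
    exact hyind
  have hlind : AlgebraicIndependent κ l := by
    rw [algebraicIndependent_unique_type_iff]
    rw [hli]
    exact hi
  have hind : AlgebraicIndependent K (Sum.elim l y) := by
    have h := hy'.sumElim_comp hlind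
    rw [hcomp] at h
    exact h
  have hr : AlgebraicIndependent K (fun j : Fin 3 => Sum.elim l y ((finSumFinEquiv (m := 1) (n := 2)).symm j)) :=
    hind.comp _ (Equiv.injective _)
  have halg := alg_fam ξ hs _ hr
  have hrange : (Set.range fun j : Fin 3 => Sum.elim l y ((finSumFinEquiv (m := 1) (n := 2)).symm j)) =
      Set.range y ∪ Set.range l := by
    rw [Set.union_comm, ← Set.Sum.elim_range]
    exact (Equiv.surjective (finSumFinEquiv (m := 1) (n := 2)).symm).range_comp (Sum.elim l y)
  rw [hrange] at halg
  have hfin : FiniteDimensional (IntermediateField.adjoin K (Set.range y ∪ Set.range l)) E :=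
    finite_of_alg ξ hs.gen _ fun i => (halg.isAlgebraic (ξ i)).isIntegral
  exact Module.finrank_pos

end T3Dg1M

open T3Dg1M

theorem yDg1 : StmtDgB → StmtDg1 := by
  intro hB K E _ _ _ _ ξ hs
  have h21 : ∀ (g : Fin 3 → E) (A : Fin 2 → Fin 3 → K) (B : Fin 1 → Fin 3 → K),
      Module.finrank (IntermediateField.adjoin K
        (Set.range (lc A fun i => ξ i.succ) ∪ Set.range (lc B g))) E ≤
        dgx K 2 1 (fun i : Fin 3 => ξ i.succ) g := by
    intro g A B
    exact le_csSup (hB K E ξ hs g).1 ⟨(A, B), rfl⟩
  have h12 : ∀ (g : Fin 3 → E) (A : Fin 1 → Fin 3 → K) (B : Fin 2 → Fin 3 → K),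
      Module.finrank (IntermediateField.adjoin K
        (Set.range (lc A fun i => ξ i.succ) ∪ Set.range (lc B g))) E ≤
        dgx K 1 2 (fun i : Fin 3 => ξ i.succ) g := by
    intro g A B
    exact le_csSup (hB K E ξ hs g).2 ⟨(A, B), rfl⟩
  refine ⟨?_, h21, h12, ?_, ?_⟩
  · intro ρ m
    have hX : AlgebraicIndependent K (fun i : Fin 3 => (ρ ^ m) (ξ i.succ)) :=
      hs.ai.map' (f := ρ ^ m) (ρ ^ m).toRingHom.injective
    constructor
    · obtain ⟨A, B, h⟩ := finite_fld ξ hs _ _ hs.ai hX
      exact h.trans (h21 _ A B)
    · obtain ⟨B, A, h⟩ := finite_fld ξ hs _ _ hX hs.ai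
      rw [Set.union_comm] at h
      exact h.trans (h12 _ A B)
  · intro g
    obtain ⟨AB, h⟩ := Nat.sSup_mem (Set.range_nonempty _) (hB K E ξ hs g).1
    exact ⟨AB.1, AB.2, h⟩
  · intro g
    obtain ⟨AB, h⟩ := Nat.sSup_mem (Set.range_nonempty _) (hB K E ξ hs g).2
    exact ⟨AB.1, AB.2, h⟩

end Pool.Agent.Lib.MP_16285c_agX
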