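import Pool.Agent.Lib.MP_16285c_agX.T3.SpecD
import Pool.Agent.Lib.MP_16285c_agX.T3.IntA
import Pool.Agent.Lib.MP_16285c_agX.T3.Dg1

/-!
# Threefolds with `λ₁ > λ₃`: the two recursive inequalities (RecX)
-/

set_option autoImplicit false

namespace Pool.Agent.Lib.MP_16285c_agX

open Pool.Agent.Lib.MP_16285c_ag Pool.Agent.Lib.MP_16285c_agN

namespace T3RecXM

open T3Dg1M T3IntAM
open scoped IntermediateField.algebraAdjoinAdjoin

variable {K E : Type} [Field K] [Field E] [Algebra K E]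

/-- One common denominator. -/
theorem den_one {n : ℕ} (ξ : Fin (n + 1) → E) (hs : Stp K ξ) (u : E) :
    ∃ Z : Pl n K, Z ≠ 0 ∧ Intx K (fun i : Fin n => ξ i.succ)
      (MvPolynomial.aeval (fun i : Fin n => ξ i.succ) Z * u) := by
  have hfin := fin_base ξ hs
  have halg : Algebra.IsAlgebraic
      (IntermediateField.adjoin K (Set.range fun i : Fin n => ξ i.succ)) E :=
    Algebra.IsAlgebraic.of_finite _ _
  have h1 := alg_of_adjoin _ halg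
  obtain ⟨y, hy, hyu⟩ := (h1.isAlgebraic u).exists_integral_multiple
  obtain ⟨Z, hZ⟩ := phi_surj (K := K) (fun i : Fin n => ξ i.succ) y
  refine ⟨Z, ?_, ?_⟩
  · rintro rfl
    rw [map_zero] at hZ
    exact hy hZ.symm
  · rw [yIntA]
    have h2 : y • u = MvPolynomial.aeval (fun i : Fin n => ξ i.succ) Z * u := by
      rw [Algebra.smul_def, ← hZ]
      rfl
    rw [← h2]
    exact hyu

theorem intx_aeval {n : ℕ} (x : Fin n → E) (Z : Pl n K) : Intx K x (MvPolynomial.aeval x Z) := by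
  refine ⟨Polynomial.X - Polynomial.C Z, Polynomial.monic_X_sub_C Z, ?_⟩
  rw [Polynomial.eval₂_sub, Polynomial.eval₂_X, Polynomial.eval₂_C]
  exact sub_self _

theorem intx_mul {n : ℕ} (x : Fin n → E) (u v : E) (hu : Intx K x u) (hv : Intx K x v) :
    Intx K x (u * v) := by
  rw [yIntA] at hu hv ⊢
  exact hu.mul hv

/-- A common denominator of three elements. -/
theorem den_three (ξ : Fin 4 → E) (hs : Stp K ξ) (u : Fin 3 → E) :
    ∃ Z : Pl 3 K, Z ≠ 0 ∧ ∀ i, Intx K (fun i : Fin 3 => ξ i.succ)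
      (MvPolynomial.aeval (fun i : Fin 3 => ξ i.succ) Z * u i) := by
  choose Z hZ0 hZ using fun i => den_one ξ hs (u i)
  refine ⟨∏ i, Z i, Finset.prod_ne_zero_iff.2 fun i _ => hZ0 i, ?_⟩
  intro i
  have h1 : MvPolynomial.aeval (fun i : Fin 3 => ξ i.succ) (∏ i, Z i) * u i =
      MvPolynomial.aeval (fun i : Fin 3 => ξ i.succ) (∏ j ∈ Finset.univ.erase i, Z j) *
        (MvPolynomial.aeval (fun i : Fin 3 => ξ i.succ) (Z i) * u i) := by
    rw [← Finset.mul_prod_erase Finset.univ Z (Finset.mem_univ i), map_mul]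
    ring
  rw [h1]
  exact intx_mul _ _ _ (intx_aeval _ _) (hZ i)

/-- The topological degree is positive. -/
theorem tp_pos (ξ : Fin 4 → E) (hs : Stp K ξ) (ρ : E →ₐ[K] E) :
    1 ≤ Module.finrank ρ.fieldRange E := by
  have hg : AlgebraicIndependent K (fun i : Fin 3 => ρ (ξ i.succ)) :=
    hs.ai.map' (f := ρ) ρ.toRingHom.injective
  have halg := alg_fam ξ hs _ hg
  have hfin : FiniteDimensional
      (IntermediateField.adjoin K (Set.range fun i : Fin 3 => ρ (ξ i.succ))) E :=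
    finite_of_alg ξ hs.gen _ fun i => (halg.isAlgebraic (ξ i)).isIntegral
  have hle : IntermediateField.adjoin K (Set.range fun i : Fin 3 => ρ (ξ i.succ)) ≤
      ρ.fieldRange := by
    rw [IntermediateField.adjoin_le_iff]
    rintro _ ⟨i, rfl⟩
    exact ⟨_, rfl⟩
  have h1 := IntermediateField.relfinrank_mul_finrank_top hle
  have h2 : 0 < Module.finrank
      (IntermediateField.adjoin K (Set.range fun i : Fin 3 => ρ (ξ i.succ))) E :=
    Module.finrank_pos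
  rw [← h1] at h2
  exact Nat.pos_of_mul_pos_left h2

theorem arithI (d D Δ c h0 h1 h2 H C₀ C : ℝ) (hd : 0 < d) (hΔ : 0 ≤ Δ) (hH : H ≤ c * h0 + C₀)
    (h : D * h1 ≤ 2 * (72 * d * Δ) * H + 8 * d * h2 + C) :
    D / (8 * d) * h1 ≤ h2 + 18 * c * Δ * h0 + (18 * Δ * C₀ + C / (8 * d)) := by
  have hd8 : 0 < 8 * d := by linarith
  have e1 : D / (8 * d) * h1 = D * h1 / (8 * d) := by ring
  rw [e1, div_le_iff₀ hd8]
  have e2 : (h2 + 18 * c * Δ * h0 + (18 * Δ * C₀ + C / (8 * d))) * (8 * d) =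
      2 * (72 * d * Δ) * (c * h0 + C₀) + 8 * d * h2 + C := by
    field_simp
    ring
  rw [e2]
  have h3 : 2 * (72 * d * Δ) * H ≤ 2 * (72 * d * Δ) * (c * h0 + C₀) :=
    mul_le_mul_of_nonneg_left hH (by positivity)
  linarith

theorem arithII (d Δ Δ' τ c h0 h1 h2 H C₀ C : ℝ) (hd : 0 < d) (hΔ : 0 < Δ) (hτ : 0 ≤ τ)
    (h00 : 0 ≤ h0) (hc : 0 ≤ c) (hH : H ≤ c * h0 + C₀)
    (h : Δ' * h1 ≤ 2 * (16 * τ * Δ) * H + 72 * d * Δ * h2 + C) :
    Δ' / (72 * d * Δ) * h1 ≤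
      h2 + c * τ / d * h0 + (32 * τ * C₀ / (72 * d) + C / (72 * d * Δ)) := by
  have hd8 : 0 < 72 * d * Δ := by positivity
  have e1 : Δ' / (72 * d * Δ) * h1 = Δ' * h1 / (72 * d * Δ) := by ring
  rw [e1, div_le_iff₀ hd8]
  have e2 : (h2 + c * τ / d * h0 + (32 * τ * C₀ / (72 * d) + C / (72 * d * Δ))) * (72 * d * Δ) =
      2 * (16 * τ * Δ) * (c * h0 + C₀) + 40 * (τ * Δ * (c * h0)) + 72 * d * Δ * h2 + C := by
    field_simp
    ring
  rw [e2]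
  have h3 : 0 ≤ τ * Δ * (c * h0) := by positivity
  have h4 : 2 * (16 * τ * Δ) * H ≤ 2 * (16 * τ * Δ) * (c * h0 + C₀) :=
    mul_le_mul_of_nonneg_left hH (by positivity)
  linarith

end T3RecXM

open T3RecXM T3Dg1M in
/-- (RecX) The two recursive inequalities. -/
theorem yRecX : StmtSecXI → StmtSecXII → HtXP → StmtFlV → StmtCzX → StmtDg1 → StmtRecX := by
  intro hI hII hHt hFl hCz hDg K E _ _ _ _ ξ hs
  obtain ⟨c, hc, hC⟩ := hCz K E 3 ξ hs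
  refine ⟨c, hc, ?_⟩
  intro ρ m d Δ D Δ' hd hΔ hD hΔ'
  have hd1 : 1 ≤ d := by rw [hd]; exact ((hDg K E ξ hs).1 ρ m).1
  have hΔ1 : 1 ≤ Δ := by rw [hΔ]; exact ((hDg K E ξ hs).1 ρ m).2
  have hD1 : 1 ≤ D := by rw [hD]; exact ((hDg K E ξ hs).1 ρ (2 * m)).1
  have hΔ'1 : 1 ≤ Δ' := by rw [hΔ']; exact ((hDg K E ξ hs).1 ρ (2 * m)).2
  obtain ⟨Z₀, hZ₀, hZi⟩ := den_three ξ hs (fun i : Fin 3 => (ρ ^ (2 * m)) (ξ i.succ))
  have hg : AlgebraicIndependent K (fun i : Fin 3 => (ρ ^ m) (ξ i.succ)) :=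
    hs.ai.map' (f := ρ ^ m) (ρ ^ m).toRingHom.injective
  have hτ1 : 1 ≤ Module.finrank ρ.fieldRange E ^ m := Nat.one_le_pow _ _ (tp_pos ξ hs ρ)
  have hfI := hI K E ξ hs ρ m Z₀ hZ₀ hZi d Δ D hd hΔ hD
  have hfII := hII K E ξ hs ρ m Z₀ hZ₀ hZi d Δ Δ' hd hΔ hΔ'
  obtain ⟨B₁, hB₁, hb₁⟩ := hHt K E ξ hs (fun i : Fin 3 => (ρ ^ m) (ξ i.succ))
    (fun i : Fin 3 => (ρ ^ (2 * m)) (ξ i.succ)) Z₀ (72 * d * Δ) (8 * d) D hZ₀ hZi hg
    (Nat.mul_pos (Nat.mul_pos (by norm_num) hd1) hΔ1) (Nat.mul_pos (by norm_num) hd1) hD1 hfI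
  obtain ⟨B₂, hB₂, hb₂⟩ := hHt K E ξ hs (fun i : Fin 3 => (ρ ^ m) (ξ i.succ))
    (fun i : Fin 3 => (ρ ^ (2 * m)) (ξ i.succ)) Z₀
    (16 * Module.finrank ρ.fieldRange E ^ m * Δ) (72 * d * Δ) Δ' hZ₀ hZi hg
    (Nat.mul_pos (Nat.mul_pos (by norm_num) hτ1) hΔ1)
    (Nat.mul_pos (Nat.mul_pos (by norm_num) hd1) hΔ1) hΔ'1 hfII
  refine ⟨B₁ * B₂, ?_, ?_⟩
  · rw [map_mul]
    exact mul_ne_zero hB₁ hB₂
  intro Ω _ _ h
  obtain ⟨C₀, hC₀⟩ := hC Ω h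
  obtain ⟨C₁, hC₁⟩ := hb₁ Ω h
  obtain ⟨C₂, hC₂⟩ := hb₂ Ω h
  have hdp : (0 : ℝ) < (d : ℝ) := by exact_mod_cast hd1
  have hΔp : (0 : ℝ) < (Δ : ℝ) := by exact_mod_cast hΔ1
  refine ⟨max (18 * Δ * C₀ + C₁ / (8 * d))
    (32 * (Module.finrank ρ.fieldRange E : ℝ) ^ m * C₀ / (72 * d) + C₂ / (72 * d * Δ)), ?_⟩
  intro z hz t ht
  rw [map_mul] at ht
  have n1 := left_ne_zero_of_mul ht
  have n2 := right_ne_zero_of_mul ht
  have hon : OnX K ξ (z t) := (hz t).1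
  have v1 : ∀ i : Fin 3, VlX K ξ (z t) ((ρ ^ m) (ξ i.succ)) (z (t + m) i.succ) := fun i =>
    hFl K E Ω 4 ξ ρ z hz m t i.succ
  have v2 : ∀ i : Fin 3, VlX K ξ (z t) ((ρ ^ (2 * m)) (ξ i.succ)) (z (t + 2 * m) i.succ) :=
    fun i => hFl K E Ω 4 ξ ρ z hz (2 * m) t i.succ
  have h1 := hC₁ (z t) (fun i : Fin 3 => z (t + m) i.succ) (fun i : Fin 3 => z (t + 2 * m) i.succ)
    hon n1 v1 v2
  have h2 := hC₂ (z t) (fun i : Fin 3 => z (t + m) i.succ) (fun i : Fin 3 => z (t + 2 * m) i.succ)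
    hon n2 v1 v2
  have h3 := hC₀ (z t) hon
  have h00 : 0 ≤ hx h (z t) := h.nonneg _
  constructor
  · have h4 := arithI d D Δ c (hx h (z t)) (hx h (z (t + m))) (hx h (z (t + 2 * m)))
      (h.H (hcN (z t))) C₀ C₁ hdp hΔp.le h3 (by push_cast at h1; exact h1)
    exact h4.trans (add_le_add le_rfl (le_max_left _ _))
  · have h4 := arithII d Δ Δ' ((Module.finrank ρ.fieldRange E : ℝ) ^ m) c (hx h (z t))
      (hx h (z (t + m))) (hx h (z (t + 2 * m))) (h.H (hcN (z t))) C₀ C₂ hdp hΔp (by positivity)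
      h00 (Nat.cast_nonneg c) h3 (by push_cast at h2; exact h2)
    exact h4.trans (add_le_add le_rfl (le_max_right _ _))

end Pool.Agent.Lib.MP_16285c_agX
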