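import Pool.Agent.Lib.MP_16285c_agX.T3.SpecD

/-!
# Values (`StmtVlA`)
-/

set_option autoImplicit false

namespace Pool.Agent.Lib.MP_16285c_agX

open Pool.Agent.Lib.MP_16285c_ag Pool.Agent.Lib.MP_16285c_agN

namespace T3VlAM

variable {K E Ω : Type} [Field K] [Field E] [Field Ω] [Algebra K E] [Algebra K Ω] {n : ℕ}
  {ξ : Fin n → E} {pt : Fin n → Ω}

lemma nz (hO : OnX K ξ pt) {B : Pl n K} (hB : MvPolynomial.aeval pt B ≠ 0) :
    MvPolynomial.aeval ξ B ≠ 0 := fun h => hB (hO B h)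

lemma uniq (hO : OnX K ξ pt) {h : E} {v v' : Ω} (h1 : VlX K ξ pt h v) (h2 : VlX K ξ pt h v') :
    v = v' := by
  obtain ⟨A, B, hB, hA, hv⟩ := h1
  obtain ⟨A', B', hB', hA', hv'⟩ := h2
  have h0 : MvPolynomial.aeval ξ (A * B' - A' * B) = 0 := by
    rw [map_sub, map_mul, map_mul, ← hA, ← hA']
    ring
  have h3 := hO _ h0
  rw [map_sub, map_mul, map_mul, hv, hv'] at h3
  have h4 : (v - v') * (MvPolynomial.aeval pt B * MvPolynomial.aeval pt B') = 0 := by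
    rw [← h3]
    ring
  rcases mul_eq_zero.1 h4 with h5 | h5
  · exact sub_eq_zero.1 h5
  · exact absurd h5 (mul_ne_zero hB hB')

lemma pol (G : Pl n K) : VlX K ξ pt (MvPolynomial.aeval ξ G) (MvPolynomial.aeval pt G) := by
  refine ⟨G, 1, ?_, ?_, ?_⟩
  · rw [map_one]
    exact one_ne_zero
  · rw [map_one, mul_one]
  · rw [map_one, mul_one]

lemma add {h h' : E} {v v' : Ω} (h1 : VlX K ξ pt h v) (h2 : VlX K ξ pt h' v') :
    VlX K ξ pt (h + h') (v + v') := by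
  obtain ⟨A, B, hB, hA, hv⟩ := h1
  obtain ⟨A', B', hB', hA', hv'⟩ := h2
  refine ⟨A * B' + A' * B, B * B', ?_, ?_, ?_⟩
  · rw [map_mul]
    exact mul_ne_zero hB hB'
  · rw [map_mul, map_add, map_mul, map_mul, ← hA, ← hA']
    ring
  · rw [map_mul, map_add, map_mul, map_mul, hv, hv']
    ring

lemma mul {h h' : E} {v v' : Ω} (h1 : VlX K ξ pt h v) (h2 : VlX K ξ pt h' v') :
    VlX K ξ pt (h * h') (v * v') := by
  obtain ⟨A, B, hB, hA, hv⟩ := h1
  obtain ⟨A', B', hB', hA', hv'⟩ := h2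
  refine ⟨A * A', B * B', ?_, ?_, ?_⟩
  · rw [map_mul]
    exact mul_ne_zero hB hB'
  · rw [map_mul, map_mul, ← hA, ← hA']
    ring
  · rw [map_mul, map_mul, hv, hv']
    ring

lemma inv (hO : OnX K ξ pt) {h : E} {v : Ω} (h1 : VlX K ξ pt h v) (hv0 : v ≠ 0) :
    VlX K ξ pt h⁻¹ v⁻¹ := by
  obtain ⟨A, B, hB, hA, hv⟩ := h1
  have hA0 : MvPolynomial.aeval pt A ≠ 0 := by
    rw [hv]
    exact mul_ne_zero hv0 hB
  have hh : h ≠ 0 := by
    intro hh
    rw [hh, zero_mul] at hA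
    exact nz hO hA0 hA.symm
  refine ⟨B, A, hA0, ?_, ?_⟩
  · rw [← hA, ← mul_assoc, inv_mul_cancel₀ hh, one_mul]
  · rw [hv, ← mul_assoc, inv_mul_cancel₀ hv0, one_mul]

lemma sub {s : ℕ} (g : Fin s → E) (gv : Fin s → Ω) (hg : ∀ i, VlX K ξ pt (g i) (gv i))
    (G : Pl s K) : VlX K ξ pt (MvPolynomial.aeval g G) (MvPolynomial.aeval gv G) := by
  induction G using MvPolynomial.induction_on with
  | C a =>
    rw [MvPolynomial.aeval_C, MvPolynomial.aeval_C]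
    have h1 := pol (K := K) (ξ := ξ) (pt := pt) (MvPolynomial.C a : Pl n K)
    rw [MvPolynomial.aeval_C, MvPolynomial.aeval_C] at h1
    exact h1
  | add p q hp hq =>
    rw [map_add, map_add]
    exact add hp hq
  | mul_X p i hp =>
    rw [map_mul, map_mul, MvPolynomial.aeval_X, MvPolynomial.aeval_X]
    exact mul hp (hg i)

end T3VlAM

open T3VlAM in
theorem yVlA : StmtVlA := by
  intro K E Ω _ _ _ _ _ n ξ pt hO
  exact ⟨fun h v v' h1 h2 => uniq hO h1 h2, fun G => pol G, fun h h' v v' h1 h2 => add h1 h2,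
    fun h h' v v' h1 h2 => mul h1 h2, fun h v h1 hv => inv hO h1 hv,
    fun s g gv hg G => sub g gv hg G⟩

end Pool.Agent.Lib.MP_16285c_agX
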