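import Pool.Agent.Lib.MP_16285c_agX.T3.SpecL

/-!
# The degree of the function field over the coordinates (ZD3X, part LN, module LnD)
-/

set_option autoImplicit false

namespace Pool.Agent.Lib.MP_16285c_agX

open Pool.Agent.Lib.MP_16285c_ag Pool.Agent.Lib.MP_16285c_agN

namespace T3LnDM

/-- Evaluation through `finSuccEquiv`. -/
theorem eval_fse {K E : Type} [Field K] [Field E] [Algebra K E] (n : ℕ) (ξ : Fin (n + 1) → E)
    (P : Pl (n + 1) K) :
    Polynomial.eval₂ ((MvPolynomial.aeval (fun i : Fin n => ξ i.succ) : Pl n K →ₐ[K] E) :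
      Pl n K →+* E) (ξ 0) (MvPolynomial.finSuccEquiv K n P) = MvPolynomial.aeval ξ P := by
  have h : (Polynomial.eval₂RingHom ((MvPolynomial.aeval (fun i : Fin n => ξ i.succ) :
      Pl n K →ₐ[K] E) : Pl n K →+* E) (ξ 0)).comp
        ((MvPolynomial.finSuccEquiv K n : Pl (n + 1) K ≃ₐ[K] Polynomial (Pl n K)) :
          Pl (n + 1) K →+* Polynomial (Pl n K)) =
      ((MvPolynomial.aeval ξ : Pl (n + 1) K →ₐ[K] E) : Pl (n + 1) K →+* E) := by
    apply MvPolynomial.ringHom_ext
    · intro a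
      simp [MvPolynomial.finSuccEquiv_apply]
    · intro i
      refine Fin.cases ?_ (fun j => ?_) i
      · simp [MvPolynomial.finSuccEquiv_X_zero]
      · simp [MvPolynomial.finSuccEquiv_X_succ]
  exact DFunLike.congr_fun h P

theorem insert_range {E : Type} (n : ℕ) (ξ : Fin (n + 1) → E) :
    insert (ξ 0) (Set.range fun i : Fin n => ξ i.succ) = Set.range ξ := by
  ext a
  constructor
  · rintro (rfl | ⟨i, rfl⟩)
    · exact ⟨0, rfl⟩
    · exact ⟨i.succ, rfl⟩
  · rintro ⟨i, rfl⟩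
    refine Fin.cases (Or.inl rfl) (fun j => Or.inr ⟨j, rfl⟩) i

end T3LnDM

open T3LnDM

theorem yLnD : StmtFun → StmtLnI → StmtLnD := by
  intro hF hI K E _ _ _ n P ξ hP hM hg
  obtain ⟨hai, hfin, -⟩ := hF.2 K E n P ξ hP hM hg
  obtain ⟨F, hFi, -, -, hFr, hFdiv⟩ := hI K E n (fun i : Fin n => ξ i.succ) hai hfin (ξ 0)
  have h0 : Polynomial.eval₂ ((MvPolynomial.aeval (fun i : Fin n => ξ i.succ) : Pl n K →ₐ[K] E) :
      Pl n K →+* E) (ξ 0) (MvPolynomial.finSuccEquiv K n P) = 0 := by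
    rw [eval_fse]
    exact (hg.ker P).2 dvd_rfl
  have hPi : Irreducible (MvPolynomial.finSuccEquiv K n P) :=
    (MulEquiv.irreducible_iff (MvPolynomial.finSuccEquiv K n)).2 hP
  obtain ⟨u, hu⟩ := hFi.associated_of_dvd hPi (hFdiv _ h0)
  have hdeg : (MvPolynomial.finSuccEquiv K n P).natDegree = F.natDegree := by
    rw [← hu, Polynomial.natDegree_mul hFi.ne_zero u.ne_zero, Polynomial.natDegree_coe_units,
      add_zero]
  rw [insert_range, hg.top, IntermediateField.finrank_top, mul_one] at hFr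
  rw [hdeg, hFr]

end Pool.Agent.Lib.MP_16285c_agX
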