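import Pool.Agent.Lib.MP_16285c_agX.T3.SpecA
import Pool.Agent.Lib.MP_16285c_agN.T3.XBZ

/-!
# Bezout's inequality on a surface, for functions of bounded degree

Proof of `StmtBZ2`.
-/

set_option autoImplicit false

namespace Pool.Agent.Lib.MP_16285c_agX

open Pool.Agent.Lib.MP_16285c_ag Pool.Agent.Lib.MP_16285c_agN

namespace T3BZ2M

/-- Products of the spaces `Vd`. -/
theorem Vd_mul {κ F : Type} [Field κ] [Field F] [Algebra κ F] {n : ℕ} (y : Fin n → F) (a b : ℕ) :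
    Vd κ y a * Vd κ y b ≤ Vd κ y (a + b) := by
  rw [Submodule.mul_le]
  intro u hu v hv
  obtain ⟨G, hG, rfl⟩ := Submodule.mem_map.1 hu
  obtain ⟨H, hH, rfl⟩ := Submodule.mem_map.1 hv
  rw [MvPolynomial.mem_restrictTotalDegree] at hG hH
  refine Submodule.mem_map.2 ⟨G * H, ?_, ?_⟩
  · rw [MvPolynomial.mem_restrictTotalDegree]
    exact (MvPolynomial.totalDegree_mul _ _).trans (add_le_add hG hH)
  · simp only [AlgHom.toLinearMap_apply, map_mul]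

/-- The linearly independent elements are in the product space. -/
theorem mem_prod {κ F : Type} [Field κ] [Field F] [Algebra κ F] {n s : ℕ} (y : Fin n → F)
    (l : Fin s → F) (Θ W W₁ W₂ : Submodule κ F) (a₁ a₂ : ℕ)
    (hV : Vd κ y (a₁ + a₂) ≤ W * Vd κ l (a₁ + a₂)) (t u v : F) (ht : t ∈ Θ)
    (hu : u ∈ W₁ * Vd κ y a₁) (hv : v ∈ W₂ * Vd κ y a₂) :
    t * (u * v) ∈ Θ * (W₁ * W₂) * W * Vd κ l (a₁ + a₂) := by
  have h1 : Θ * (W₁ * Vd κ y a₁ * (W₂ * Vd κ y a₂)) ≤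
      Θ * (W₁ * W₂) * W * Vd κ l (a₁ + a₂) := by
    calc Θ * (W₁ * Vd κ y a₁ * (W₂ * Vd κ y a₂))
        = Θ * (W₁ * W₂) * (Vd κ y a₁ * Vd κ y a₂) := by ring
      _ ≤ Θ * (W₁ * W₂) * (W * Vd κ l (a₁ + a₂)) :=
        mul_le_mul' le_rfl ((Vd_mul y a₁ a₂).trans hV)
      _ = Θ * (W₁ * W₂) * W * Vd κ l (a₁ + a₂) := by ring
  exact h1 (Submodule.mul_mem_mul ht (Submodule.mul_mem_mul hu hv))

end T3BZ2M

open T3BZ2M T3XBZM in
/-- (BZ2) Bezout on a surface. -/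
theorem yBZ2 : StmtNN → StmtUpF → StmtXUpW → StmtXLB → StmtBZ2 := by
  intro hNN _ hUp hLB K E _ _ _ _ κ n y w₁ w₂ d₁ d₂ e₂ hfin hA hd₁ hd₂ hD₁ hD₂ hw
  have hset : ({w₁, w₂} : Set E) = insert w₁ (Set.range ![w₂]) := by
    rw [Matrix.range_cons, Matrix.range_empty, Set.union_empty]
  have hset2 : insert w₁ (Set.range ![w₂]) = Set.range ![w₁, w₂] := by
    rw [Matrix.range_cons w₁ ![w₂], Set.singleton_union]
  rw [hset]
  by_cases he : Module.finrank (IntermediateField.adjoin κ (insert w₁ (Set.range ![w₂]))) E = 0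
  · rw [he]
    exact Nat.zero_le _
  have hfw : Module.Finite (IntermediateField.adjoin κ (insert w₁ (Set.range ![w₂]))) E :=
    Module.finite_of_finrank_pos (Nat.pos_of_ne_zero he)
  obtain ⟨b₁, hb₁, W₁, hW₁, h₁⟩ := hD₁
  obtain ⟨b₂, hb₂, W₂, hW₂, h₂⟩ := hD₂
  obtain ⟨s, A, hl, W, hW, hV⟩ := hNN K κ E n y
  change AlgebraicIndependent κ (lc A y) at hl
  change ∀ a : ℕ, Vd κ y a ≤ W * Vd κ (lc A y) a at hV
  have hfl := fin_of_le y (lc A y) W hW hV hfin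
  have hs : s = 2 := by
    have hb1 := basis_of (lc A y) hl hfl
    have hb2 : IsTranscendenceBasis κ ![w₁, w₂] := by
      apply basis_of _ hw
      rw [← hset2]
      exact hfw
    have hc := hb1.cardinalMk_eq hb2
    rw [Cardinal.mk_fintype, Cardinal.mk_fintype, Nat.cast_inj, Fintype.card_fin,
      Fintype.card_fin] at hc
    exact hc
  subst hs
  obtain ⟨e, θ, hθ, hee⟩ := ex_basis (IntermediateField.adjoin κ (insert w₁ (Set.range ![w₂]))) hfw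
  rw [hee]
  let Θ : Submodule κ E := Submodule.span κ (Set.range θ)
  have hΘ : Θ.FG := Submodule.fg_span (Set.finite_range θ)
  have hΘW : (Θ * (W₁ * W₂) * W).FG := (hΘ.mul (hW₁.mul hW₂)).mul hW
  obtain ⟨C, hC⟩ := hUp κ E 2 (lc A y) (Θ * (W₁ * W₂) * W) hl hΘW hfl
  set p := d₂ * (C + 1) with hp
  set q := d₁ * (C + 1) with hq
  have hlin := hLB κ E 1 e ![w₂] w₁ θ hw hθ q p
  set S : Submodule κ E := Θ * (W₁ * W₂) * W * Vd κ (lc A y) (d₁ * p + d₂ * q) with hS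
  have hSf : Module.Finite κ S := Module.Finite.iff_fg.2 (hΘW.mul (Vd_fg _ _))
  let emb : Fin (q + 1) × Fin (p + 1) × Fin e →
      {β : Fin 1 → ℕ // ∑ i, β i ≤ q} × Fin (p + 1) × Fin e :=
    fun t => (⟨fun _ => t.1, by
      rw [Fin.sum_univ_one]
      exact Nat.lt_succ_iff.1 t.1.2⟩, t.2)
  have hemb : Function.Injective emb := by
    rintro ⟨a, b⟩ ⟨a', b'⟩ h
    have h3 : b = b' := congrArg Prod.snd h
    have h4 : (a : ℕ) = a' := congrFun (congrArg (fun t => (t.1 : Fin 1 → ℕ)) h) 0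
    exact Prod.ext (Fin.ext h4) h3
  have hlin2 := hlin.comp emb hemb
  have hne : b₁ ^ p * b₂ ^ q ≠ 0 := mul_ne_zero (pow_ne_zero _ hb₁) (pow_ne_zero _ hb₂)
  have hlin3 := hlin2.map' (LinearMap.mulLeft κ (b₁ ^ p * b₂ ^ q))
    (LinearMap.ker_eq_bot_of_injective fun u v huv => mul_left_cancel₀ hne huv)
  have hmem : ∀ t, (LinearMap.mulLeft κ (b₁ ^ p * b₂ ^ q) ∘
      (fun t : {β : Fin 1 → ℕ // ∑ i, β i ≤ q} × Fin (p + 1) × Fin e =>
        θ t.2.2 * (∏ i, ![w₂] i ^ (t.1 : Fin 1 → ℕ) i) * w₁ ^ (t.2.1 : ℕ)) ∘ emb) t ∈ S := by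
    rintro ⟨a, b, k⟩
    have h5 : (LinearMap.mulLeft κ (b₁ ^ p * b₂ ^ q) ∘
      (fun t : {β : Fin 1 → ℕ // ∑ i, β i ≤ q} × Fin (p + 1) × Fin e =>
        θ t.2.2 * (∏ i, ![w₂] i ^ (t.1 : Fin 1 → ℕ) i) * w₁ ^ (t.2.1 : ℕ)) ∘ emb) (a, b, k) =
        θ k * ((b₁ ^ p * w₁ ^ (b : ℕ)) * (b₂ ^ q * w₂ ^ (a : ℕ))) := by
      change (b₁ ^ p * b₂ ^ q) * (θ k * (∏ i, ![w₂] i ^ (a : ℕ)) * w₁ ^ (b : ℕ)) = _
      rw [Fin.prod_univ_one]
      change (b₁ ^ p * b₂ ^ q) * (θ k * w₂ ^ (a : ℕ) * w₁ ^ (b : ℕ)) = _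
      ring
    rw [h5]
    exact mem_prod y (lc A y) Θ W W₁ W₂ (d₁ * p) (d₂ * q) (hV _) _ _ _
      (Submodule.subset_span ⟨k, rfl⟩) (h₁ p b (Nat.lt_succ_iff.1 b.2))
      (h₂ q a (Nat.lt_succ_iff.1 a.2))
  have hv : LinearIndependent κ (fun t => (⟨_, hmem t⟩ : S)) := by
    apply LinearIndependent.of_comp S.subtype
    exact hlin3
  have h7 := hv.fintype_card_le_finrank
  rw [Fintype.card_prod, Fintype.card_prod, Fintype.card_fin, Fintype.card_fin,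
    Fintype.card_fin] at h7
  have h8 := (h7.trans (hC _)).trans (Nat.mul_le_mul (hA A) (cnt_two (d₁ * p + d₂ * q + C)))
  have h9 : d₁ * p + d₂ * q + C + 1 = d₂ * (C + 1) * d₁ + d₁ * (C + 1) * d₂ + C + 1 := by
    rw [hp, hq]
    ring
  rw [h9] at h8
  exact arith e d₁ d₂ e₂ C hd₁ hd₂ h8

end Pool.Agent.Lib.MP_16285c_agX
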