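import Pool.Agent.Lib.MP_16285c_agX.T3.SpecA

/-!
# (CfD) Functions of degree at most d
-/

set_option autoImplicit false

namespace Pool.Agent.Lib.MP_16285c_agX

open Pool.Agent.Lib.MP_16285c_ag Pool.Agent.Lib.MP_16285c_agN

namespace T3CfDM

open scoped IntermediateField.algebraAdjoinAdjoin

/-- An element algebraic over `K(x)` is a root of a nonzero polynomial with coefficients in `K[x]`. -/
lemma exPol {K E : Type} [Field K] [Field E] [Algebra K E] {n : ℕ} {x : Fin n → E}
    (hx : AlgebraicIndependent K x)
    (hf : Module.Finite (IntermediateField.adjoin K (Set.range x)) E) (w : E) :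
    ∃ F : Polynomial (Pl n K), F ≠ 0 ∧
      Polynomial.eval₂ ((MvPolynomial.aeval x : Pl n K →ₐ[K] E) : Pl n K →+* E) w F = 0 := by
  have h1 : IsAlgebraic (IntermediateField.adjoin K (Set.range x)) w :=
    Algebra.IsAlgebraic.isAlgebraic w
  have h2 : IsAlgebraic (Algebra.adjoin K (Set.range x)) w :=
    (IsFractionRing.isAlgebraic_iff (Algebra.adjoin K (Set.range x))
      (IntermediateField.adjoin K (Set.range x)) E).mpr h1
  obtain ⟨p, hp, hpw⟩ := h2
  let e := hx.aevalEquiv
  have he : ∀ u : Pl n K, ((e u : Algebra.adjoin K (Set.range x)) : E) = MvPolynomial.aeval x u :=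
    fun u => by simp [e]
  refine ⟨p.map (e.symm : Algebra.adjoin K (Set.range x) →+* Pl n K), ?_, ?_⟩
  · intro h
    apply hp
    have hinj : Function.Injective (e.symm : Algebra.adjoin K (Set.range x) →+* Pl n K) :=
      e.symm.injective
    exact (Polynomial.map_eq_zero_iff hinj).mp h
  · rw [Polynomial.eval₂_map]
    have hcomp : ((MvPolynomial.aeval x : Pl n K →ₐ[K] E) : Pl n K →+* E).comp
        (e.symm : Algebra.adjoin K (Set.range x) →+* Pl n K) =
        algebraMap (Algebra.adjoin K (Set.range x)) E := by
      ext u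
      have h3 := he (e.symm u)
      rw [AlgEquiv.apply_symm_apply] at h3
      exact h3.symm
    rw [hcomp]
    exact hpw

/-- An irreducible such polynomial. -/
lemma exIrr {K E : Type} [Field K] [Field E] [Algebra K E] {n : ℕ} {x : Fin n → E}
    (hx : AlgebraicIndependent K x)
    (hf : Module.Finite (IntermediateField.adjoin K (Set.range x)) E) (w : E) :
    ∃ F : Polynomial (Pl n K), Irreducible F ∧ 1 ≤ F.natDegree ∧
      Polynomial.eval₂ ((MvPolynomial.aeval x : Pl n K →ₐ[K] E) : Pl n K →+* E) w F = 0 := by
  obtain ⟨F₀, hF₀, h0⟩ := exPol hx hf w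
  obtain ⟨f, hf1, u, hfu⟩ := UniqueFactorizationMonoid.exists_prime_factors F₀ hF₀
  let ev : Polynomial (Pl n K) →+* E :=
    Polynomial.eval₂RingHom ((MvPolynomial.aeval x : Pl n K →ₐ[K] E) : Pl n K →+* E) w
  have hev : ev F₀ = 0 := h0
  have hprod : ev f.prod = 0 := by
    have h2 : ev f.prod * ev (u : Polynomial (Pl n K)) = 0 := by
      rw [← map_mul, hfu]
      exact hev
    rcases mul_eq_zero.mp h2 with h | h
    · exact h
    · exact absurd h (u.isUnit.map ev).ne_zero
  rw [map_multiset_prod] at hprod
  have hz := Multiset.prod_eq_zero_iff.mp hprod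
  obtain ⟨F, hF, hF0⟩ := Multiset.mem_map.mp hz
  have hirr : Irreducible F := (hf1 F hF).irreducible
  refine ⟨F, hirr, ?_, hF0⟩
  by_contra hlt
  have hd : F.natDegree = 0 := by omega
  rw [Polynomial.eq_C_of_natDegree_eq_zero hd] at hF0
  have h4 : MvPolynomial.aeval x (F.coeff 0) = 0 := by
    have : ev (Polynomial.C (F.coeff 0)) = MvPolynomial.aeval x (F.coeff 0) := by
      simp [ev]
    rw [← this]
    exact hF0
  have h5 : F.coeff 0 = 0 := (hx : Function.Injective _) (by rw [h4, map_zero])
  apply hirr.ne_zero
  rw [Polynomial.eq_C_of_natDegree_eq_zero hd, h5, map_zero]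

lemma finrank_insert_pos {K E : Type} [Field K] [Field E] [Algebra K E] {n : ℕ} {x : Fin n → E}
    (hf : Module.Finite (IntermediateField.adjoin K (Set.range x)) E) (w : E) :
    0 < Module.finrank (IntermediateField.adjoin K (insert w (Set.range x))) E := by
  have hle : IntermediateField.adjoin K (Set.range x) ≤
      IntermediateField.adjoin K (insert w (Set.range x)) :=
    IntermediateField.adjoin.mono K _ _ (Set.subset_insert _ _)
  letI : Algebra (IntermediateField.adjoin K (Set.range x))
      (IntermediateField.adjoin K (insert w (Set.range x))) :=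
    (IntermediateField.inclusion hle).toRingHom.toAlgebra
  haveI : IsScalarTower (IntermediateField.adjoin K (Set.range x))
      (IntermediateField.adjoin K (insert w (Set.range x))) E :=
    IsScalarTower.of_algebraMap_eq fun _ => rfl
  haveI := Module.Finite.of_restrictScalars_finite (IntermediateField.adjoin K (Set.range x))
    (IntermediateField.adjoin K (insert w (Set.range x))) E
  exact Module.finrank_pos

end T3CfDM

open T3CfDM

/-- (CfD) -/
theorem yCfD : StmtCfA → StmtRpG → StmtCfD := by
  intro hA hG K E _ _ _ _ x hx hfin w d hd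
  haveI : Infinite K := Infinite.of_injective (fun n : ℕ => (n : K)) Nat.cast_injective
  obtain ⟨F, hirr, hdeg, hFw⟩ := exIrr hx hfin w
  let D : ℕ := F.support.sup fun i => (F.coeff i).totalDegree
  have hD1 : ∀ i, (F.coeff i).totalDegree ≤ D := by
    intro i
    by_cases hi : i ∈ F.support
    · exact Finset.le_sup (f := fun i => (F.coeff i).totalDegree) hi
    · rw [Polynomial.notMem_support_iff.mp hi]
      simp
  have hD2 : ∃ i, (F.coeff i).totalDegree = D := by
    have hne : F.support.Nonempty := Polynomial.support_nonempty.mpr hirr.ne_zero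
    obtain ⟨i, -, hi⟩ := Finset.exists_mem_eq_sup F.support hne
      (fun i => (F.coeff i).totalDegree)
    exact ⟨i, hi.symm⟩
  obtain ⟨-, A, hAD⟩ := hA K E x hx hfin w F D hirr hdeg hFw hD1 hD2
  have hpos := finrank_insert_pos hfin w
  have hDd : D ≤ d := by
    calc D = D * 1 := (mul_one D).symm
      _ ≤ D * Module.finrank (IntermediateField.adjoin K (insert w (Set.range x))) E :=
          Nat.mul_le_mul_left D hpos
      _ ≤ _ := hAD
      _ ≤ d := hd A
  refine hG K E 3 x hx hfin F.natDegree d (fun i => F.coeff i) w ?_ ?_ ?_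
  · have : F.coeff ((Fin.last F.natDegree : Fin (F.natDegree + 1)) : ℕ) = F.leadingCoeff := rfl
    simpa using hirr.ne_zero
  · intro i
    exact (hD1 i).trans hDd
  · rw [Polynomial.eval₂_eq_sum_range] at hFw
    rw [← hFw, Finset.sum_range]
    rfl

end Pool.Agent.Lib.MP_16285c_agX
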