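import Pool.Agent.Lib.MP_16285c_agX.T3.SpecA

/-! (RpA): elements integral over `K[x]` with degrees (ZD3X). -/

set_option autoImplicit false

namespace Pool.Agent.Lib.MP_16285c_agX

open Pool.Agent.Lib.MP_16285c_ag Pool.Agent.Lib.MP_16285c_agN

namespace T3RpAM

open Polynomial

variable {K E : Type} [Field K] [Field E] [Algebra K E] {n : ℕ}

/-- the polynomials whose coefficient of degree `k` is the value of a polynomial of degree `≤ k` -/
def Sh (x : Fin n → E) : Subring E[X] where
  carrier := {f | ∀ k, ∃ G : Pl n K, G.totalDegree ≤ k ∧ f.coeff k = MvPolynomial.aeval x G}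
  mul_mem' := by
    intro f g hf hg k
    choose A hA1 hA2 using hf
    choose B hB1 hB2 using hg
    refine ⟨∑ ij ∈ Finset.HasAntidiagonal.antidiagonal k, A ij.1 * B ij.2, ?_, ?_⟩
    · refine (MvPolynomial.totalDegree_finsetSum _ _).trans (Finset.sup_le ?_)
      intro ij hij
      refine (MvPolynomial.totalDegree_mul _ _).trans ?_
      have := Finset.HasAntidiagonal.mem_antidiagonal.1 hij
      have h1 := hA1 ij.1
      have h2 := hB1 ij.2
      omega
    · rw [Polynomial.coeff_mul, map_sum]
      apply Finset.sum_congr rfl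
      intro ij _
      rw [map_mul, hA2, hB2]
  one_mem' := by
    intro k
    by_cases hk : k = 0
    · refine ⟨1, by simp, ?_⟩
      rw [hk, Polynomial.coeff_one_zero, map_one]
    · refine ⟨0, by simp, ?_⟩
      rw [Polynomial.coeff_one, if_neg hk, map_zero]
  add_mem' := by
    intro f g hf hg k
    obtain ⟨A, hA1, hA2⟩ := hf k
    obtain ⟨B, hB1, hB2⟩ := hg k
    refine ⟨A + B, (MvPolynomial.totalDegree_add _ _).trans (max_le hA1 hB1), ?_⟩
    rw [Polynomial.coeff_add, map_add, hA2, hB2]
  zero_mem' := by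
    intro k
    exact ⟨0, by simp, by simp⟩
  neg_mem' := by
    intro f hf k
    obtain ⟨A, hA1, hA2⟩ := hf k
    refine ⟨-A, by rw [MvPolynomial.totalDegree_neg]; exact hA1, ?_⟩
    rw [Polynomial.coeff_neg, map_neg, hA2]

lemma mem_Sh (x : Fin n → E) (f : E[X]) : f ∈ Sh (K := K) x ↔
    ∀ k, ∃ G : Pl n K, G.totalDegree ≤ k ∧ f.coeff k = MvPolynomial.aeval x G := Iff.rfl

lemma mono_mem (x : Fin n → E) (G : Pl n K) (e : ℕ) (hG : G.totalDegree ≤ e) :
    C (MvPolynomial.aeval x G) * X ^ e ∈ Sh (K := K) x := by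
  intro k
  by_cases hk : k = e
  · refine ⟨G, by rw [hk]; exact hG, ?_⟩
    rw [hk, Polynomial.coeff_C_mul_X_pow, if_pos rfl]
  · refine ⟨0, by simp, ?_⟩
    rw [Polynomial.coeff_C_mul_X_pow, if_neg hk, map_zero]

/-- the relation, with the coefficients as a family -/
def RpN (K : Type) {E : Type} [Field K] [Field E] [Algebra K E] {n : ℕ} (x : Fin n → E) (e : ℕ)
    (u : E) : Prop :=
  ∃ (r : ℕ) (G : ℕ → Pl n K), (∀ i, i < r → (G i).totalDegree ≤ e * (r - i)) ∧
    u ^ r + ∑ i ∈ Finset.range r, MvPolynomial.aeval x (G i) * u ^ i = 0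

lemma rp_iff (x : Fin n → E) (e : ℕ) (u : E) : Rp K x e u ↔ RpN K x e u := by
  constructor
  · rintro ⟨F, hF, h0, hd⟩
    refine ⟨F.natDegree, fun i => F.coeff i, fun i _ => hd i, ?_⟩
    rw [Polynomial.eval₂_eq_sum_range, Finset.sum_range_succ, hF.coeff_natDegree, map_one, one_mul,
      add_comm] at h0
    exact h0
  · rintro ⟨r, G, hG, h0⟩
    have hdeg : (∑ i : Fin r, C (G i) * X ^ (i : ℕ) : (Pl n K)[X]).degree < r :=
      Polynomial.degree_sum_fin_lt (fun i : Fin r => G i)
    have hmon : (X ^ r + ∑ i : Fin r, C (G i) * X ^ (i : ℕ) : (Pl n K)[X]).Monic :=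
      Polynomial.monic_X_pow_add hdeg
    have hnat : (X ^ r + ∑ i : Fin r, C (G i) * X ^ (i : ℕ) : (Pl n K)[X]).natDegree = r := by
      rw [Polynomial.natDegree_add_eq_left_of_degree_lt]
      · exact Polynomial.natDegree_X_pow r
      · rw [Polynomial.degree_X_pow]
        exact hdeg
    refine ⟨X ^ r + ∑ i : Fin r, C (G i) * X ^ (i : ℕ), hmon, ?_, ?_⟩
    · rw [Polynomial.eval₂_add, Polynomial.eval₂_X_pow, Polynomial.eval₂_finsetSum, ← h0]
      congr 1
      rw [← Fin.sum_univ_eq_sum_range (fun i => MvPolynomial.aeval x (G i) * u ^ i) r]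
      apply Finset.sum_congr rfl
      intro i _
      rw [Polynomial.eval₂_mul, Polynomial.eval₂_C, Polynomial.eval₂_X_pow]
      rfl
    · intro i
      rw [hnat]
      rcases lt_trichotomy i r with h | h | h
      · have hc : (X ^ r + ∑ i : Fin r, C (G i) * X ^ (i : ℕ) : (Pl n K)[X]).coeff i = G i := by
          rw [Polynomial.coeff_add, Polynomial.coeff_X_pow, if_neg (by omega), zero_add,
            Polynomial.finsetSum_coeff, Finset.sum_eq_single (⟨i, h⟩ : Fin r)]
          · rw [Polynomial.coeff_C_mul_X_pow, if_pos rfl]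
          · intro j _ hj
            rw [Polynomial.coeff_C_mul_X_pow, if_neg]
            intro h1
            apply hj
            exact Fin.ext h1.symm
          · intro h1
            exact absurd (Finset.mem_univ _) h1
        rw [hc]
        exact hG i h
      · have hc := hmon.coeff_natDegree
        rw [hnat] at hc
        rw [h, hc]
        simp
      · rw [Polynomial.coeff_eq_zero_of_natDegree_lt (by rw [hnat]; exact h)]
        simp

lemma rp_iff_int (x : Fin n → E) (e : ℕ) (u : E) :
    Rp K x e u ↔ IsIntegral (Sh (K := K) x) (C u * X ^ e) := by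
  rw [rp_iff]
  constructor
  · rintro ⟨r, G, hG, h0⟩
    have hs : ∀ i : Fin r, C (MvPolynomial.aeval x (G i)) * X ^ (e * (r - i)) ∈ Sh (K := K) x :=
      fun i => mono_mem x (G i) _ (hG i i.2)
    refine ⟨X ^ r + ∑ i : Fin r, C (⟨_, hs i⟩ : Sh (K := K) x) * X ^ (i : ℕ),
      Polynomial.monic_X_pow_add (Polynomial.degree_sum_fin_lt _), ?_⟩
    rw [Polynomial.eval₂_add, Polynomial.eval₂_X_pow, Polynomial.eval₂_finsetSum]
    have h1 : ∀ i : Fin r, Polynomial.eval₂ (algebraMap (Sh (K := K) x) E[X]) (C u * X ^ e)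
        (C (⟨_, hs i⟩ : Sh (K := K) x) * X ^ (i : ℕ)) =
        C (MvPolynomial.aeval x (G i) * u ^ (i : ℕ)) * X ^ (e * r) := by
      intro i
      rw [Polynomial.eval₂_mul, Polynomial.eval₂_C, Polynomial.eval₂_X_pow]
      change (C (MvPolynomial.aeval x (G i)) * X ^ (e * (r - i))) * (C u * X ^ e) ^ (i : ℕ) = _
      have h2 : e * r = e * (r - i) + e * i := by
        rw [← Nat.mul_add]
        congr 1
        have := i.2
        omega
      rw [h2, pow_add, mul_pow, ← pow_mul, map_mul, map_pow]
      ring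
    rw [Finset.sum_congr rfl (fun i _ => h1 i), ← Finset.sum_mul, mul_pow, ← pow_mul, ← map_pow,
      ← map_sum, ← add_mul, ← map_add,
      Fin.sum_univ_eq_sum_range (fun i => MvPolynomial.aeval x (G i) * u ^ i) r, h0, map_zero,
      zero_mul]
  · rintro ⟨P, hP, h0⟩
    have hs : ∀ i, ∃ G : Pl n K, G.totalDegree ≤ e * (P.natDegree - i) ∧
        ((P.coeff i : Sh (K := K) x) : E[X]).coeff (e * (P.natDegree - i)) =
          MvPolynomial.aeval x G := fun i => (mem_Sh x _).1 (P.coeff i).2 _
    choose G hG1 hG2 using hs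
    refine ⟨P.natDegree, G, fun i _ => hG1 i, ?_⟩
    rw [Polynomial.eval₂_eq_sum_range] at h0
    have h1 := congrArg (fun f : E[X] => f.coeff (e * P.natDegree)) h0
    simp only [Polynomial.finsetSum_coeff, Polynomial.coeff_zero] at h1
    have h2 : ∀ i ∈ Finset.range (P.natDegree + 1),
        ((algebraMap (Sh (K := K) x) E[X]) (P.coeff i) * (C u * X ^ e) ^ i).coeff
          (e * P.natDegree) =
        ((P.coeff i : Sh (K := K) x) : E[X]).coeff (e * (P.natDegree - i)) * u ^ i := by
      intro i hi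
      have hir : i ≤ P.natDegree := by
        have := Finset.mem_range.1 hi
        omega
      have h3 : e * P.natDegree = e * (P.natDegree - i) + e * i := by
        rw [← Nat.mul_add]
        congr 1
        omega
      rw [h3, mul_pow, ← pow_mul, ← map_pow, ← mul_assoc, Polynomial.coeff_mul_X_pow,
        Polynomial.coeff_mul_C]
      rfl
    rw [Finset.sum_congr rfl h2, Finset.sum_range_succ, hP.coeff_natDegree] at h1
    rw [add_comm]
    rw [Nat.sub_self, mul_zero] at h1
    have h4 : (((1 : Sh (K := K) x) : E[X])).coeff 0 = 1 := by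
      change (1 : E[X]).coeff 0 = 1
      exact Polynomial.coeff_one_zero
    rw [h4, one_mul] at h1
    rw [← h1]
    congr 1
    apply Finset.sum_congr rfl
    intro i _
    rw [hG2]

end T3RpAM

open T3RpAM in
theorem yRpA : StmtRpA := by
  intro K E _ _ _ n x
  refine ⟨?_, ?_, ?_, ?_, ?_⟩
  · intro G e hG
    rw [rp_iff_int]
    exact isIntegral_algebraMap (R := Sh (K := K) x) (x := ⟨_, mono_mem x G e hG⟩)
  · intro e u v hu hv
    rw [rp_iff_int] at hu hv ⊢
    rw [map_add, add_mul]
    exact hu.add hv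
  · intro e e' u v hu hv
    rw [rp_iff_int] at hu hv ⊢
    have h1 : Polynomial.C (u * v) * Polynomial.X ^ (e + e') =
        (Polynomial.C u * Polynomial.X ^ e) * (Polynomial.C v * Polynomial.X ^ e') := by
      rw [map_mul, pow_add]
      ring
    rw [h1]
    exact hu.mul hv
  · intro e e' u hee hu
    rw [rp_iff_int] at hu ⊢
    have h1 : Polynomial.C u * Polynomial.X ^ e' =
        (Polynomial.C u * Polynomial.X ^ e) *
          (Polynomial.C (MvPolynomial.aeval x (1 : Pl n K)) * Polynomial.X ^ (e' - e)) := by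
      rw [map_one, map_one, one_mul, mul_assoc, ← pow_add]
      congr 2
      omega
    rw [h1]
    exact hu.mul (isIntegral_algebraMap (R := Sh (K := K) x)
      (x := ⟨_, mono_mem x (1 : Pl n K) (e' - e) (by simp)⟩))
  · rintro u ⟨F, hF, h0⟩
    refine ⟨(Finset.range F.natDegree).sup fun i => (F.coeff i).totalDegree, F, hF, h0, ?_⟩
    intro i
    rcases lt_trichotomy i F.natDegree with h | h | h
    · have h1 : (F.coeff i).totalDegree ≤
          (Finset.range F.natDegree).sup fun i => (F.coeff i).totalDegree :=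
        Finset.le_sup (f := fun i => (F.coeff i).totalDegree) (Finset.mem_range.2 h)
      exact h1.trans (Nat.le_mul_of_pos_right _ (by omega))
    · rw [h, hF.coeff_natDegree]
      simp
    · rw [Polynomial.coeff_eq_zero_of_natDegree_lt h]
      simp

end Pool.Agent.Lib.MP_16285c_agX
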