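import Pool.Agent.Lib.MP_16285c_agX.T3.SpecA

/-!
# Elements of `K(x)` which are integral over `K[x]` (RpB)
-/

set_option autoImplicit false

namespace Pool.Agent.Lib.MP_16285c_agX

open Pool.Agent.Lib.MP_16285c_ag Pool.Agent.Lib.MP_16285c_agN

namespace T3RpBM

/-- The total degree of a power in a domain. -/
theorem tdeg_pow {σ R : Type} [CommRing R] [IsDomain R] {G : MvPolynomial σ R} (hG : G ≠ 0) (r : ℕ) :
    (G ^ r).totalDegree = r * G.totalDegree := by
  induction r with
  | zero => simp
  | succ r ih =>
    rw [pow_succ, MvPolynomial.totalDegree_mul_of_isDomain (pow_ne_zero r hG) hG, ih]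
    ring

/-- The bound of the degree of a root. -/
theorem root_deg {K : Type} [Field K] {n : ℕ} (e : ℕ) (F : Polynomial (Pl n K)) (G : Pl n K)
    (hF : F.Monic) (hG : F.eval G = 0) (hdeg : ∀ i, (F.coeff i).totalDegree ≤ e * (F.natDegree - i)) :
    G.totalDegree ≤ e := by
  by_contra hlt
  push Not at hlt
  have hG0 : G ≠ 0 := by
    rintro rfl
    simp at hlt
  rw [Polynomial.eval_eq_sum_range, Finset.sum_range_succ, hF.coeff_natDegree, one_mul] at hG
  set r := F.natDegree with hr
  rcases Nat.eq_zero_or_pos r with h0 | hpos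
  · rw [h0] at hG
    simp at hG
  · have h1 : G ^ r = -(∑ i ∈ Finset.range r, F.coeff i * G ^ i) := by
      rw [eq_neg_iff_add_eq_zero, add_comm]
      exact hG
    have h2 : (∑ i ∈ Finset.range r, F.coeff i * G ^ i).totalDegree ≤ r * G.totalDegree - 1 := by
      apply MvPolynomial.totalDegree_finsetSum_le
      intro i hi
      have hir : i < r := Finset.mem_range.1 hi
      have h3 : (F.coeff i * G ^ i).totalDegree ≤ e * (r - i) + i * G.totalDegree :=
        (MvPolynomial.totalDegree_mul _ _).trans
          (Nat.add_le_add (hdeg i) (MvPolynomial.totalDegree_pow _ _))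
      have h4 : e * (r - i) + i * G.totalDegree < r * G.totalDegree := by
        have h5 : e * (r - i) < G.totalDegree * (r - i) :=
          Nat.mul_lt_mul_of_pos_right hlt (Nat.sub_pos_of_lt hir)
        have h6 : G.totalDegree * (r - i) + i * G.totalDegree = r * G.totalDegree := by
          rw [mul_comm G.totalDegree, ← add_mul, Nat.sub_add_cancel hir.le]
        omega
      omega
    have h7 : (G ^ r).totalDegree = r * G.totalDegree := tdeg_pow hG0 r
    rw [h1, MvPolynomial.totalDegree_neg] at h7
    have h8 : 0 < r * G.totalDegree := Nat.mul_pos hpos (Nat.zero_lt_of_lt hlt)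
    omega

end T3RpBM

open T3RpBM

theorem yRpB : StmtRpB := by
  intro K E _ _ _ n x hx e A B u hB hu hR
  obtain ⟨F, hF, hFu, hdeg⟩ := hR
  have hinj : Function.Injective ((MvPolynomial.aeval x : Pl n K →ₐ[K] E) : Pl n K →+* E) := hx
  have _ : IsIntegrallyClosed (Pl n K) := by
    let _ := UniqueFactorizationMonoid.toGCDMonoid (Pl n K)
    infer_instance
  let lft : FractionRing (Pl n K) →+* E := IsFractionRing.lift hinj
  have hlft : ∀ G : Pl n K, lft (algebraMap (Pl n K) (FractionRing (Pl n K)) G) =
      MvPolynomial.aeval x G := fun G => IsFractionRing.lift_algebraMap hinj G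
  set v : FractionRing (Pl n K) := algebraMap (Pl n K) (FractionRing (Pl n K)) A /
    algebraMap (Pl n K) (FractionRing (Pl n K)) B with hv
  have hBx : MvPolynomial.aeval x B ≠ 0 := fun h => hB (hinj (by
    rw [map_zero]
    exact h))
  have hvu : lft v = u := by
    rw [hv, map_div₀, hlft, hlft, div_eq_iff hBx]
    exact hu.symm
  have hint : IsIntegral (Pl n K) v := by
    refine ⟨F, hF, ?_⟩
    apply lft.injective
    rw [Polynomial.hom_eval₂, map_zero, hvu]
    have hcomp : lft.comp (algebraMap (Pl n K) (FractionRing (Pl n K))) =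
        ((MvPolynomial.aeval x : Pl n K →ₐ[K] E) : Pl n K →+* E) := RingHom.ext hlft
    rw [hcomp]
    exact hFu
  obtain ⟨G, hG⟩ := IsIntegrallyClosed.isIntegral_iff.1 hint
  have hGu : u = MvPolynomial.aeval x G := by
    rw [← hvu, ← hG, hlft]
  refine ⟨G, root_deg e F G hF ?_ hdeg, hGu⟩
  apply hinj
  rw [map_zero, Polynomial.eval, Polynomial.hom_eval₂, RingHom.comp_id]
  rw [hGu] at hFu
  exact hFu

end Pool.Agent.Lib.MP_16285c_agX
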