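import Pool.Agent.Lib.MP_16285c_agX.T3.SpecA

/-!
# ZD3X, module RpC (helper97): traces and minimal polynomials of elements with bounded degree at infinity
-/

set_option autoImplicit false

namespace Pool.Agent.Lib.MP_16285c_agX

open Pool.Agent.Lib.MP_16285c_ag Pool.Agent.Lib.MP_16285c_agN

namespace T3RpCM

/-- the images of the coordinates in the algebraic closure -/
noncomputable def xb {E : Type} [Field E] {n : ℕ} (x : Fin n → E) : Fin n → AlgebraicClosure E :=
  fun i => algebraMap E (AlgebraicClosure E) (x i)

theorem aeval_xb {K E : Type} [Field K] [Field E] [Algebra K E] {n : ℕ} (x : Fin n → E) (G : Pl n K) :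
    MvPolynomial.aeval (xb x) G = algebraMap E (AlgebraicClosure E) (MvPolynomial.aeval x G) := by
  have h := MvPolynomial.comp_aeval x (IsScalarTower.toAlgHom K E (AlgebraicClosure E))
  have h2 := DFunLike.congr_fun h G
  exact h2.symm

theorem ai_xb {K E : Type} [Field K] [Field E] [Algebra K E] {n : ℕ} (x : Fin n → E)
    (hx : AlgebraicIndependent K x) : AlgebraicIndependent K (xb x) :=
  hx.map' (f := IsScalarTower.toAlgHom K E (AlgebraicClosure E))
    (algebraMap E (AlgebraicClosure E)).injective

/-- the coordinates as elements of the field they generate -/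
noncomputable def gen {K E : Type} [Field K] [Field E] [Algebra K E] {n : ℕ} (x : Fin n → E) :
    Pl n K →ₐ[K] IntermediateField.adjoin K (Set.range x) :=
  MvPolynomial.aeval fun i =>
    (⟨x i, IntermediateField.subset_adjoin K (Set.range x) ⟨i, rfl⟩⟩ : IntermediateField.adjoin K (Set.range x))

theorem gen_coe {K E : Type} [Field K] [Field E] [Algebra K E] {n : ℕ} (x : Fin n → E) (G : Pl n K) :
    ((gen x G : IntermediateField.adjoin K (Set.range x)) : E) = MvPolynomial.aeval x G := by
  have h := MvPolynomial.comp_aeval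
    (fun i => (⟨x i, IntermediateField.subset_adjoin K (Set.range x) ⟨i, rfl⟩⟩ :
      IntermediateField.adjoin K (Set.range x))) (IntermediateField.adjoin K (Set.range x)).val (R := K)
  exact DFunLike.congr_fun h G

theorem root {K E : Type} [Field K] [Field E] [Algebra K E] {n : ℕ} (x : Fin n → E) (e : ℕ) (u : E)
    (hR : Rp K x e u) (r : AlgebraicClosure E)
    (hr : Polynomial.aeval r (minpoly (IntermediateField.adjoin K (Set.range x)) u) = 0) :
    Rp K (xb x) e r := by
  obtain ⟨F, hF1, hF2, hF3⟩ := hR
  refine ⟨F, hF1, ?_, hF3⟩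
  have h1 : Polynomial.aeval u
      (F.map ((gen x).toRingHom : Pl n K →+* IntermediateField.adjoin K (Set.range x))) = 0 := by
    rw [Polynomial.aeval_def, Polynomial.eval₂_map]
    rw [← hF2]
    congr 1
    apply RingHom.ext
    intro G
    exact gen_coe x G
  have h2 := minpoly.dvd (IntermediateField.adjoin K (Set.range x)) u h1
  have h3 : Polynomial.aeval r
      (F.map ((gen x).toRingHom : Pl n K →+* IntermediateField.adjoin K (Set.range x))) = 0 := by
    obtain ⟨c, hc⟩ := h2
    rw [hc, map_mul, hr, zero_mul]
  rw [Polynomial.aeval_def, Polynomial.eval₂_map] at h3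
  rw [← h3]
  congr 1
  apply RingHom.ext
  intro G
  have h4 : (algebraMap (IntermediateField.adjoin K (Set.range x)) (AlgebraicClosure E)) (gen x G) =
      algebraMap E (AlgebraicClosure E) ((gen x G : IntermediateField.adjoin K (Set.range x)) : E) := rfl
  show MvPolynomial.aeval (xb x) G =
    (algebraMap (IntermediateField.adjoin K (Set.range x)) (AlgebraicClosure E)) (gen x G)
  rw [h4, gen_coe, aeval_xb]

theorem desc (hB : StmtRpB) {K E : Type} [Field K] [Field E] [Algebra K E] {n : ℕ} (x : Fin n → E)
    (hx : AlgebraicIndependent K x) (e : ℕ) (t : IntermediateField.adjoin K (Set.range x))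
    (h : Rp K (xb x) e (algebraMap E (AlgebraicClosure E) (t : E))) :
    ∃ G : Pl n K, G.totalDegree ≤ e ∧ (t : E) = MvPolynomial.aeval x G := by
  obtain ⟨r, s, hrs⟩ := (IntermediateField.mem_adjoin_range_iff K x (t : E)).1 t.2
  have key : ∃ A B : Pl n K, B ≠ 0 ∧ (t : E) * MvPolynomial.aeval x B = MvPolynomial.aeval x A := by
    by_cases hs : MvPolynomial.aeval x s = 0
    · refine ⟨0, 1, one_ne_zero, ?_⟩
      rw [hrs, hs, div_zero, zero_mul, map_zero]
    · refine ⟨r, s, ?_, ?_⟩
      · intro h0
        apply hs
        rw [h0, map_zero]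
      · rw [hrs, div_mul_cancel₀ _ hs]
  obtain ⟨A, B, hB0, hAB⟩ := key
  have h2 : algebraMap E (AlgebraicClosure E) (t : E) * MvPolynomial.aeval (xb x) B =
      MvPolynomial.aeval (xb x) A := by
    rw [aeval_xb, aeval_xb, ← map_mul, hAB]
  obtain ⟨G, hG1, hG2⟩ := hB K (AlgebraicClosure E) n (xb x) (ai_xb x hx) e A B _ hB0 h2 h
  refine ⟨G, hG1, ?_⟩
  rw [aeval_xb] at hG2
  exact (algebraMap E (AlgebraicClosure E)).injective hG2

section closure

variable {K E : Type} [Field K] [Field E] [Algebra K E] {n : ℕ} {x : Fin n → E}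

theorem rzero (hA : StmtRpA) (e : ℕ) : Rp K x e (0 : E) := by
  have h := (hA K E n x).1 0 e (by rw [MvPolynomial.totalDegree_zero]; exact Nat.zero_le _)
  rwa [map_zero] at h

theorem rone (hA : StmtRpA) (e : ℕ) : Rp K x e (1 : E) := by
  have h := (hA K E n x).1 1 e (by rw [MvPolynomial.totalDegree_one]; exact Nat.zero_le _)
  rwa [map_one] at h

theorem rneg (hA : StmtRpA) (e : ℕ) (u : E) (h : Rp K x e u) : Rp K x e (-u) := by
  have h1 := (hA K E n x).1 (MvPolynomial.C (-1)) 0 (by rw [MvPolynomial.totalDegree_C])
  have h2 := (hA K E n x).2.2.1 0 e _ _ h1 h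
  rw [zero_add, MvPolynomial.aeval_C, map_neg, map_one, neg_mul, one_mul] at h2
  exact h2

theorem rsum (hA : StmtRpA) {ι : Type} (s : Finset ι) (f : ι → E) (e : ℕ) (h : ∀ i ∈ s, Rp K x e (f i)) :
    Rp K x e (∑ i ∈ s, f i) := by
  classical
  induction s using Finset.induction_on with
  | empty =>
    rw [Finset.sum_empty]
    exact rzero hA e
  | insert a s ha ih =>
    rw [Finset.sum_insert ha]
    exact (hA K E n x).2.1 e _ _ (h a (Finset.mem_insert_self a s))
      (ih fun i hi => h i (Finset.mem_insert_of_mem hi))

theorem rmsum (hA : StmtRpA) (m : Multiset E) (e : ℕ) (h : ∀ a ∈ m, Rp K x e a) : Rp K x e m.sum := by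
  induction m using Multiset.induction_on with
  | empty =>
    rw [Multiset.sum_zero]
    exact rzero hA e
  | cons a m ih =>
    rw [Multiset.sum_cons]
    exact (hA K E n x).2.1 e _ _ (h a (Multiset.mem_cons_self a m))
      (ih fun b hb => h b (Multiset.mem_cons_of_mem hb))

theorem rmprod (hA : StmtRpA) (m : Multiset E) (e : ℕ) (h : ∀ a ∈ m, Rp K x e a) :
    Rp K x (e * Multiset.card m) m.prod := by
  induction m using Multiset.induction_on with
  | empty =>
    rw [Multiset.prod_zero]
    exact rone hA _
  | cons a m ih =>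
    rw [Multiset.prod_cons, Multiset.card_cons]
    have h1 := (hA K E n x).2.2.1 e (e * Multiset.card m) _ _ (h a (Multiset.mem_cons_self a m))
      (ih fun b hb => h b (Multiset.mem_cons_of_mem hb))
    have h2 : e + e * Multiset.card m = e * (Multiset.card m + 1) := by ring
    rwa [h2] at h1

theorem resymm (hA : StmtRpA) (m : Multiset E) (e k : ℕ) (h : ∀ a ∈ m, Rp K x e a) :
    Rp K x (e * k) (m.esymm k) := by
  unfold Multiset.esymm
  apply rmsum hA
  intro b hb
  rw [Multiset.mem_map] at hb
  obtain ⟨t, ht, rfl⟩ := hb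
  rw [Multiset.mem_powersetCard] at ht
  rw [← ht.2]
  exact rmprod hA t e fun a ha => h a (Multiset.mem_of_le ht.1 ha)

theorem rsgn (hA : StmtRpA) (e k : ℕ) (u : E) (h : Rp K x e u) : Rp K x e ((-1) ^ k * u) := by
  rcases neg_one_pow_eq_or E k with h1 | h1
  · rw [h1, one_mul]
    exact h
  · rw [h1, neg_one_mul]
    exact rneg hA e u h

end closure

end T3RpCM

theorem yRpC : StmtRpA → StmtRpB → StmtRpC := by
  intro hA hB K E _ _ _ _ n x hx hfin
  classical
  have := hfin
  have halg : Algebra.IsAlgebraic (IntermediateField.adjoin K (Set.range x)) E := inferInstance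
  constructor
  · intro e u hu
    apply T3RpCM.desc hB x hx e
    have h1 := trace_eq_sum_embeddings (K := IntermediateField.adjoin K (Set.range x)) (L := E)
      (AlgebraicClosure E) (x := u)
    have h2 : algebraMap E (AlgebraicClosure E)
        ((Algebra.trace (IntermediateField.adjoin K (Set.range x)) E u :
          IntermediateField.adjoin K (Set.range x)) : E) =
        ∑ σ : E →ₐ[IntermediateField.adjoin K (Set.range x)] AlgebraicClosure E, σ u := h1
    rw [h2]
    apply T3RpCM.rsum hA
    intro σ _
    apply T3RpCM.root x e u hu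
    rw [Polynomial.aeval_algHom_apply, minpoly.aeval, map_zero]
  · intro e u hu i
    set p := minpoly (IntermediateField.adjoin K (Set.range x)) u with hp
    have hint : IsIntegral (IntermediateField.adjoin K (Set.range x)) u := halg.isAlgebraic u |>.isIntegral
    have hmonic : p.Monic := minpoly.monic hint
    rcases lt_or_ge p.natDegree i with hi | hi
    · refine ⟨0, by rw [MvPolynomial.totalDegree_zero]; exact Nat.zero_le _, ?_⟩
      rw [Polynomial.coeff_eq_zero_of_natDegree_lt hi, map_zero]
      rfl
    · apply T3RpCM.desc hB x hx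
      set P := p.map (algebraMap (IntermediateField.adjoin K (Set.range x)) (AlgebraicClosure E)) with hP
      have hdeg : P.natDegree = p.natDegree := Polynomial.natDegree_map _
      have hcard : Multiset.card P.roots = P.natDegree := IsAlgClosed.card_roots_eq_natDegree
      have h1 := Polynomial.coeff_eq_esymm_roots_of_card hcard (k := i) (by rw [hdeg]; exact hi)
      have h2 : P.coeff i = algebraMap E (AlgebraicClosure E)
          ((p.coeff i : IntermediateField.adjoin K (Set.range x)) : E) := by
        rw [hP, Polynomial.coeff_map]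
        rfl
      rw [← h2, h1, (hmonic.map _).leadingCoeff, one_mul, hdeg]
      apply T3RpCM.rsgn hA
      apply T3RpCM.resymm hA
      intro r hr
      have hP0 : P ≠ 0 := (hmonic.map _).ne_zero
      rw [Polynomial.mem_roots hP0] at hr
      apply T3RpCM.root x e u hu
      rw [Polynomial.aeval_def, ← Polynomial.eval_map]
      exact hr

end Pool.Agent.Lib.MP_16285c_agX
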