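import Pool.Agent.Lib.MP_16285c_agX.T3.SpecA
import Pool.Agent.Lib.MP_16285c_agN.Degr.NN
import Pool.Agent.Lib.MP_16285c_agN.Degr.Vd

/-!
# Threefolds with `λ₁ > λ₃`: integral elements of bounded degree lie in a finite module (RpD)
-/

set_option autoImplicit false

namespace Pool.Agent.Lib.MP_16285c_agX

open Pool.Agent.Lib.MP_16285c_ag Pool.Agent.Lib.MP_16285c_agN

namespace T3RpDM

variable {K E : Type} [Field K] [Field E] [Algebra K E] {n : ℕ}

theorem Vd_fg (x : Fin n → E) (a : ℕ) : (Vd K x a).FG :=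
  Module.Finite.iff_fg.1 (tVd.1 K E n x a)

theorem one_le (x : Fin n → E) : (1 : Submodule K E) ≤ Vd K x 1 := by
  rw [Submodule.one_le]
  exact DegrNNM.Vd_one x 1

theorem Vd_le_pow (x : Fin n → E) (a : ℕ) : Vd K x a ≤ Vd K x 1 ^ a := by
  intro g hg
  rw [DegrNNM.mem_Vd] at hg
  obtain ⟨p, hp, rfl⟩ := hg
  refine DegrNNM.aeval_mem x (fun a => Vd K x 1 ^ a) ?_ ?_ ?_ ?_ p a hp
  · show (1 : E) ∈ Vd K x 1 ^ 0
    rw [pow_zero]
    exact Submodule.one_le.1 le_rfl
  · intro a b hab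
    exact pow_le_pow_right₀ (one_le x) hab
  · intro a b g h hg hh
    show g * h ∈ Vd K x 1 ^ (a + b)
    rw [pow_add]
    exact Submodule.mul_mem_mul hg hh
  · intro i
    show x i ∈ Vd K x 1 ^ 1
    rw [pow_one]
    exact DegrNNM.Vd_gen x i

theorem pow_le (x : Fin n → E) (a : ℕ) : Vd K x 1 ^ a ≤ Vd K x a := by
  induction a with
  | zero =>
    rw [pow_zero, Submodule.one_le]
    exact DegrNNM.Vd_one x 0
  | succ a ih =>
    rw [pow_succ]
    refine (mul_le_mul' ih le_rfl).trans ?_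
    rw [Submodule.mul_le]
    intro m hm k hk
    exact DegrNNM.Vd_mul x a 1 m k hm hk

theorem split (x : Fin n → E) (a b : ℕ) : Vd K x (a + b) ≤ Vd K x b * Vd K x a := by
  refine (Vd_le_pow x (a + b)).trans ?_
  rw [add_comm, pow_add]
  exact mul_le_mul' (pow_le x b) (pow_le x a)

open IntermediateField.algebraAdjoinAdjoin in
/-- A common denominator. -/
theorem den (hR : StmtRpA) (x : Fin n → E) (hx : AlgebraicIndependent K x)
    (hf : Module.Finite (IntermediateField.adjoin K (Set.range x)) E) {s : ℕ} (g : Fin s → E) :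
    ∃ (b : E) (D : ℕ), b ≠ 0 ∧ b ∈ Algebra.adjoin K (Set.range x) ∧ ∀ i, Rp K x D (b * g i) := by
  classical
  have alg : Algebra.IsAlgebraic (Algebra.adjoin K (Set.range x)) E :=
    Algebra.IsAlgebraic.trans (Algebra.adjoin K (Set.range x))
      (IntermediateField.adjoin K (Set.range x)) E
  obtain ⟨y, hy, hi⟩ := Algebra.IsAlgebraic.exists_integral_multiples
    (Algebra.adjoin K (Set.range x)) (A := E) (Finset.univ.image g)
  have hb : (y : E) ≠ 0 := fun h => hy (Subtype.ext h)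
  have hcomp : ((MvPolynomial.aeval x : Pl n K →ₐ[K] E) : Pl n K →+* E).comp
      (hx.aevalEquiv.symm : Algebra.adjoin K (Set.range x) →+* Pl n K) =
      algebraMap (Algebra.adjoin K (Set.range x)) E := by
    ext z
    have h1 := hx.algebraMap_aevalEquiv (hx.aevalEquiv.symm z)
    rw [AlgEquiv.apply_symm_apply] at h1
    exact h1.symm
  have hint : ∀ i, Intx K x ((y : E) * g i) := by
    intro i
    obtain ⟨F, hF, h0⟩ := hi (g i) (Finset.mem_image_of_mem g (Finset.mem_univ i))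
    refine ⟨F.map (hx.aevalEquiv.symm : Algebra.adjoin K (Set.range x) →+* Pl n K),
      hF.map _, ?_⟩
    rw [Polynomial.eval₂_map, hcomp]
    exact h0
  have hR5 := (hR K E n x).2.2.2.2
  have hmono := (hR K E n x).2.2.2.1
  choose e he using fun i => hR5 _ (hint i)
  refine ⟨y, ∑ i, e i, hb, y.2, fun i => ?_⟩
  exact hmono _ _ _ (Finset.single_le_sum (f := e) (fun _ _ => Nat.zero_le _) (Finset.mem_univ i))
    (he i)

end T3RpDM

open T3RpDM in
theorem yRpD : StmtRpA → StmtRpC → StmtRpD := by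
  intro hR hC K E _ _ _ _ n x hx hf
  classical
  set k₁ := IntermediateField.adjoin K (Set.range x) with hk₁
  have : CharZero k₁ := charZero_of_injective_algebraMap (algebraMap K k₁).injective
  have : Algebra.IsAlgebraic k₁ E := Algebra.IsAlgebraic.of_finite _ _
  have : Algebra.IsSeparable k₁ E := Algebra.IsAlgebraic.isSeparable_of_perfectField
  set θ := Module.finBasis k₁ E with hθ
  obtain ⟨y, c, hy0, hymem, hy⟩ := den hR x hx hf (fun i => θ i)
  have hyk : y ∈ k₁ := IntermediateField.algebra_adjoin_le_adjoin K _ hymem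
  refine ⟨Submodule.span K (Set.range fun i => y⁻¹ * θ.traceDual i) * Vd K x c, ?_, ?_⟩
  · exact (Submodule.fg_span (Set.finite_range _)).mul (Vd_fg x c)
  intro e u hu
  have h1 := θ.traceDual.sum_repr u
  rw [← h1]
  refine Submodule.sum_mem _ fun i _ => ?_
  obtain ⟨G, hG, hGe⟩ := (hC K E n x hx hf).1 (e + c) (u * (y * θ i))
    ((hR K E n x).2.2.1 _ _ _ _ hu (hy i))
  have h2 : Algebra.trace k₁ E (u * (y * θ i)) = (⟨y, hyk⟩ : k₁) * Algebra.trace k₁ E (u * θ i) := by
    have h2' : u * (y * θ i) = (⟨y, hyk⟩ : k₁) • (u * θ i) := by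
      rw [Algebra.smul_def]
      show u * (y * θ i) = y * (u * θ i)
      ring
    rw [h2', map_smul, smul_eq_mul]
  have h3 : ((Algebra.trace k₁ E (u * θ i) : k₁) : E) = y⁻¹ * MvPolynomial.aeval x G := by
    rw [← hGe, h2]
    show _ = y⁻¹ * (y * ((Algebra.trace k₁ E (u * θ i) : k₁) : E))
    rw [← mul_assoc, inv_mul_cancel₀ hy0, one_mul]
  rw [Module.Basis.traceDual_repr_apply, Algebra.traceForm_apply, Algebra.smul_def]
  show ((Algebra.trace k₁ E (u * θ i) : k₁) : E) * θ.traceDual i ∈ _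
  rw [h3]
  have h4 : y⁻¹ * MvPolynomial.aeval x G * θ.traceDual i =
      (y⁻¹ * θ.traceDual i) * MvPolynomial.aeval x G := by ring
  rw [h4, mul_assoc (Submodule.span K _)]
  refine Submodule.mul_mem_mul (Submodule.subset_span ⟨i, rfl⟩) ?_
  exact split x e c ((DegrNNM.mem_Vd x _ _).2 ⟨G, hG, rfl⟩)

end Pool.Agent.Lib.MP_16285c_agX
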