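import Pool.Agent.Lib.MP_16285c_agX.T3.SpecA

/-!
# MP_16285c: an algebraic function is a function of bounded degree
-/

set_option autoImplicit false

namespace Pool.Agent.Lib.MP_16285c_agX.T3RpGM

open Pool.Agent.Lib.MP_16285c_ag Pool.Agent.Lib.MP_16285c_agN
open Pool.Agent.Lib.MP_16285c_agX

variable {K E : Type} [Field K] [Field E] [Algebra K E] {n : ℕ}

/-- The coefficients of the polynomial of `a_r(x) w`. -/
noncomputable def cf (r : ℕ) (A : Fin (r + 1) → Pl n K) (i : Fin r) : Pl n K :=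
  A i.castSucc * A (Fin.last r) ^ (r - 1 - (i : ℕ))

theorem cf_deg (r d : ℕ) (A : Fin (r + 1) → Pl n K) (hd : ∀ i, (A i).totalDegree ≤ d)
    (i : Fin r) : (cf r A i).totalDegree ≤ d * (r - (i : ℕ)) := by
  have h1 : (A (Fin.last r) ^ (r - 1 - (i : ℕ))).totalDegree ≤ (r - 1 - (i : ℕ)) * d :=
    (MvPolynomial.totalDegree_pow _ _).trans (Nat.mul_le_mul_left _ (hd _))
  have h2 := (MvPolynomial.totalDegree_mul (A i.castSucc)
    (A (Fin.last r) ^ (r - 1 - (i : ℕ)))).trans (add_le_add (hd _) h1)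
  have h3 : d + (r - 1 - (i : ℕ)) * d = d * (r - (i : ℕ)) := by
    have hi := i.2
    obtain ⟨m, hm⟩ : ∃ m, r = (i : ℕ) + 1 + m := ⟨r - ((i : ℕ) + 1), by omega⟩
    have e1 : r - 1 - (i : ℕ) = m := by omega
    have e2 : r - (i : ℕ) = m + 1 := by omega
    rw [e1, e2]
    ring
  rw [h3] at h2
  exact h2

theorem rp_w (x : Fin n → E) (r d : ℕ) (A : Fin (r + 1) → Pl n K) (w : E) (hr : 1 ≤ r)
    (hd : ∀ i, (A i).totalDegree ≤ d)
    (hw : ∑ i, MvPolynomial.aeval x (A i) * w ^ (i : ℕ) = 0) :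
    Rp K x d (MvPolynomial.aeval x (A (Fin.last r)) * w) := by
  classical
  set b : E := MvPolynomial.aeval x (A (Fin.last r)) with hb
  set G : Polynomial (Pl n K) := ∑ i : Fin r, Polynomial.C (cf r A i) * Polynomial.X ^ (i : ℕ)
    with hG
  have hdeg : G.degree < (r : WithBot ℕ) := Polynomial.degree_sum_fin_lt _
  have hnat : (Polynomial.X ^ r + G).natDegree = r := by
    apply Polynomial.natDegree_eq_of_degree_eq_some
    rw [Polynomial.degree_add_eq_left_of_degree_lt (by rw [Polynomial.degree_X_pow]; exact hdeg),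
      Polynomial.degree_X_pow]
  refine ⟨Polynomial.X ^ r + G, Polynomial.monic_X_pow_add hdeg, ?_, fun k => ?_⟩
  · rw [Polynomial.eval₂_add, Polynomial.eval₂_X_pow, hG, Polynomial.eval₂_finset_sum]
    have h1 : ∀ i : Fin r, Polynomial.eval₂ ((MvPolynomial.aeval x : Pl n K →ₐ[K] E) : Pl n K →+* E)
        (b * w) (Polynomial.C (cf r A i) * Polynomial.X ^ (i : ℕ)) =
        b ^ (r - 1) * (MvPolynomial.aeval x (A i.castSucc) * w ^ (i : ℕ)) := by
      intro i
      have hi := i.2
      have e1 : r - 1 = (r - 1 - (i : ℕ)) + (i : ℕ) := by omega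
      rw [Polynomial.eval₂_mul, Polynomial.eval₂_C, Polynomial.eval₂_X_pow, mul_pow]
      change MvPolynomial.aeval x (A i.castSucc * A (Fin.last r) ^ (r - 1 - (i : ℕ))) *
        (b ^ (i : ℕ) * w ^ (i : ℕ)) = _
      rw [map_mul, map_pow, ← hb]
      conv_rhs => rw [e1, pow_add]
      ring
    rw [Finset.sum_congr rfl fun i _ => h1 i, ← Finset.mul_sum]
    rw [Fin.sum_univ_castSucc] at hw
    have e2 : (b * w) ^ r = b ^ (r - 1) * (b * w ^ r) := by
      obtain ⟨m, rfl⟩ : ∃ m, r = m + 1 := ⟨r - 1, by omega⟩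
      rw [Nat.add_sub_cancel]
      ring
    rw [e2, ← mul_add]
    have e3 : b * w ^ r + ∑ i : Fin r, MvPolynomial.aeval x (A i.castSucc) * w ^ (i : ℕ) = 0 := by
      rw [← hw, add_comm]
      rfl
    rw [e3, mul_zero]
  · rw [hnat, Polynomial.coeff_add, Polynomial.coeff_X_pow, hG, Polynomial.finset_sum_coeff]
    simp only [Polynomial.coeff_C_mul_X_pow]
    rcases lt_trichotomy k r with hk | hk | hk
    · rw [if_neg (by omega), zero_add, Finset.sum_eq_single (⟨k, hk⟩ : Fin r)]
      · rw [if_pos rfl]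
        exact cf_deg r d A hd ⟨k, hk⟩
      · intro i _ hi
        rw [if_neg]
        intro h
        exact hi (Fin.ext h.symm)
      · intro h
        exact absurd (Finset.mem_univ _) h
    · rw [if_pos hk, Finset.sum_eq_zero, add_zero, MvPolynomial.totalDegree_one]
      · exact Nat.zero_le _
      · intro i _
        rw [if_neg]
        have := i.2
        omega
    · rw [if_neg (by omega), Finset.sum_eq_zero, add_zero, MvPolynomial.totalDegree_zero]
      · exact Nat.zero_le _
      · intro i _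
        rw [if_neg]
        have := i.2
        omega

theorem rp_pow (hA : StmtRpA) (x : Fin n → E) (d : ℕ) (u : E) (hu : Rp K x d u) (i : ℕ) :
    Rp K x (d * i) (u ^ i) := by
  induction i with
  | zero =>
    have h := (hA K E n x).1 1 (d * 0) (by rw [MvPolynomial.totalDegree_one]; exact Nat.zero_le _)
    rw [map_one] at h
    rw [pow_zero]
    exact h
  | succ i ih =>
    rw [pow_succ, Nat.mul_succ]
    exact (hA K E n x).2.2.1 _ _ _ _ ih hu

end Pool.Agent.Lib.MP_16285c_agX.T3RpGM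

namespace Pool.Agent.Lib.MP_16285c_agX

open Pool.Agent.Lib.MP_16285c_ag Pool.Agent.Lib.MP_16285c_agN

theorem yRpG : StmtRpA → StmtRpD → StmtRpG := by
  intro hA hD K E _ _ _ _ n x hx hfin r d A w hlast hdeg hw
  have hinj : Function.Injective (MvPolynomial.aeval x : Pl n K → E) := hx
  have hb : MvPolynomial.aeval x (A (Fin.last r)) ≠ 0 := fun h =>
    hlast (hinj (h.trans (map_zero _).symm))
  have hr : 1 ≤ r := by
    rcases Nat.eq_zero_or_pos r with rfl | h
    · exfalso
      apply hb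
      rw [Fin.sum_univ_one] at hw
      simp only [Fin.val_zero, pow_zero, mul_one] at hw
      exact hw
    · exact h
  have hv := T3RpGM.rp_w x r d A w hr hdeg hw
  have hb2 : Rp K x d (MvPolynomial.aeval x (A (Fin.last r))) :=
    (hA K E n x).1 _ _ (hdeg _)
  obtain ⟨W, hW, hWm⟩ := hD K E n x hx hfin
  refine ⟨MvPolynomial.aeval x (A (Fin.last r)), hb, W, hW, fun a i hi => ?_⟩
  have h1 := T3RpGM.rp_pow hA x d _ hv i
  have h2 := T3RpGM.rp_pow hA x d _ hb2 (a - i)
  have h3 := (hA K E n x).2.2.1 _ _ _ _ h1 h2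
  have e1 : d * i + d * (a - i) = d * a := by
    rw [← Nat.mul_add, Nat.add_sub_cancel' hi]
  have e2 : (MvPolynomial.aeval x (A (Fin.last r)) * w) ^ i *
      MvPolynomial.aeval x (A (Fin.last r)) ^ (a - i) =
      MvPolynomial.aeval x (A (Fin.last r)) ^ a * w ^ i := by
    have e3 : MvPolynomial.aeval x (A (Fin.last r)) ^ a =
        MvPolynomial.aeval x (A (Fin.last r)) ^ i *
        MvPolynomial.aeval x (A (Fin.last r)) ^ (a - i) := by
      rw [← pow_add, Nat.add_sub_cancel' hi]
    rw [e3]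
    ring
  rw [e1, e2] at h3
  exact hWm _ _ h3

end Pool.Agent.Lib.MP_16285c_agX
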