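import Pool.Agent.Lib.MP_16285c_agX.T3.SpecD

/-!
# Comparison of the degrees in different coordinates

Proof of `StmtCmpX`.
-/

set_option autoImplicit false

namespace Pool.Agent.Lib.MP_16285c_agX

open Pool.Agent.Lib.MP_16285c_ag Pool.Agent.Lib.MP_16285c_agN

namespace T3CmpXM

open scoped IntermediateField.algebraAdjoinAdjoin

variable {K E : Type} [Field K] [Field E] [Algebra K E]

/-- `E` is algebraic over `K(x)`. -/
theorem alg_x {n : ℕ} {ξ : Fin (n + 1) → E} (h : Stp K ξ) :
    Algebra.IsAlgebraic (IntermediateField.adjoin K (Set.range fun i : Fin n => ξ i.succ)) E := by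
  set x : Fin n → E := fun i => ξ i.succ with hx
  set L := IntermediateField.adjoin K (Set.range x) with hL
  obtain ⟨F, hF, hF0⟩ := h.int
  let x' : Fin n → L := fun i => ⟨x i, IntermediateField.subset_adjoin K _ ⟨i, rfl⟩⟩
  have hcomp : ((algebraMap L E).comp ((MvPolynomial.aeval x' : Pl n K →ₐ[K] L) : Pl n K →+* L)) =
      ((MvPolynomial.aeval x : Pl n K →ₐ[K] E) : Pl n K →+* E) := by
    have h1 : ((IsScalarTower.toAlgHom K L E).comp (MvPolynomial.aeval x' : Pl n K →ₐ[K] L)) =
        (MvPolynomial.aeval x : Pl n K →ₐ[K] E) := by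
      refine MvPolynomial.algHom_ext fun i => ?_
      rw [AlgHom.comp_apply, MvPolynomial.aeval_X, MvPolynomial.aeval_X]
      rfl
    rw [← h1]
    rfl
  have h0 : IsAlgebraic L (ξ 0) := by
    refine ⟨F.map ((MvPolynomial.aeval x' : Pl n K →ₐ[K] L) : Pl n K →+* L),
      (hF.map _).ne_zero, ?_⟩
    rw [Polynomial.aeval_def, Polynomial.eval₂_map, hcomp]
    exact hF0
  have htop : (algebraicClosure L E).restrictScalars K = ⊤ := by
    refine top_le_iff.1 ?_
    rw [← h.gen, IntermediateField.adjoin_le_iff]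
    rintro _ ⟨i, rfl⟩
    change ξ i ∈ algebraicClosure L E
    refine mem_algebraicClosure_iff.2 ?_
    refine Fin.cases h0 (fun j => ?_) i
    exact isAlgebraic_algebraMap (x' j)
  constructor
  intro z
  have hz : z ∈ (algebraicClosure L E).restrictScalars K := by
    rw [htop]
    exact IntermediateField.mem_top
  exact mem_algebraicClosure_iff.1 hz

theorem trd {n : ℕ} {ξ : Fin (n + 1) → E} (h : Stp K ξ) : Algebra.trdeg K E = (n : Cardinal) := by
  have h1 := alg_x h
  have h2 : Algebra.IsAlgebraic (Algebra.adjoin K (Set.range fun i : Fin n => ξ i.succ)) E :=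
    Algebra.IsAlgebraic.trans (Algebra.adjoin K (Set.range fun i : Fin n => ξ i.succ))
      (IntermediateField.adjoin K (Set.range fun i : Fin n => ξ i.succ)) E
  have h3 : IsTranscendenceBasis K (fun i : Fin n => ξ i.succ) :=
    isTranscendenceBasis_iff_algebraicIndependent_isAlgebraic.2 ⟨h.ai, h2⟩
  rw [← h3.cardinalMk_eq_trdeg]
  simp

theorem fin_of_alg {n : ℕ} {ξ : Fin (n + 1) → E} (h : Stp K ξ) (A : IntermediateField K E)
    (hA : Algebra.IsAlgebraic A E) : Module.Finite A E := by
  have h5 : Algebra.EssFiniteType K E := by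
    rw [← IntermediateField.fg_top_iff, ← h.gen]
    exact IntermediateField.fg_adjoin_of_finite (Set.finite_range ξ)
  have h6 : Algebra.EssFiniteType A E := Algebra.EssFiniteType.of_comp K A E
  obtain ⟨t, ht⟩ := IntermediateField.fg_top A E
  have h7 : FiniteDimensional A (IntermediateField.adjoin A (t : Set E)) :=
    IntermediateField.finiteDimensional_adjoin fun x _ => Algebra.IsIntegral.isIntegral x
  rw [ht] at h7
  exact Module.Finite.equiv (IntermediateField.topEquiv (F := A) (E := E)).toLinearEquiv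

/-- `E` is finite over the field generated by `n` algebraically independent elements. -/
theorem fin_ind {n : ℕ} {ξ : Fin (n + 1) → E} (h : Stp K ξ) (z : Fin n → E)
    (hz : AlgebraicIndependent K z) :
    Module.Finite (IntermediateField.adjoin K (Set.range z)) E := by
  refine fin_of_alg h _ ?_
  have h1 : IsTranscendenceBasis K z := by
    refine AlgebraicIndependent.isTranscendenceBasis_of_trdeg_le_of_finite hz ?_
    rw [trd h]
    simp
  have h2 : Algebra.IsAlgebraic (Algebra.adjoin K (Set.range z)) E :=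
    (isTranscendenceBasis_iff_algebraicIndependent_isAlgebraic.1 h1).2
  exact Algebra.IsAlgebraic.extendScalars (R := Algebra.adjoin K (Set.range z))
    (S := IntermediateField.adjoin K (Set.range z)) (A := E)
    (FaithfulSMul.algebraMap_injective _ _)

/-- A finite extension of a field generated by `n` elements. -/
theorem ind_fin {n : ℕ} {ξ : Fin (n + 1) → E} (h : Stp K ξ) {c r : ℕ} (hcr : c + r = n)
    (l : Fin c → E) (w : Fin r → E)
    (hfin : Module.Finite (IntermediateField.adjoin K (Set.range l ∪ Set.range w)) E) :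
    AlgebraicIndependent K (Sum.elim w l) ∧
      AlgebraicIndependent (IntermediateField.adjoin K (Set.range l)) w := by
  have ht : Set.range (Sum.elim w l) = Set.range l ∪ Set.range w := by
    rw [Set.Sum.elim_range, Set.union_comm]
  have h1 : Algebra.IsAlgebraic (IntermediateField.adjoin K (Set.range (Sum.elim w l))) E := by
    rw [ht]
    exact Algebra.IsAlgebraic.of_finite _ _
  have h2 : Algebra.IsAlgebraic (Algebra.adjoin K (Set.range (Sum.elim w l))) E :=
    Algebra.IsAlgebraic.trans (Algebra.adjoin K (Set.range (Sum.elim w l)))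
      (IntermediateField.adjoin K (Set.range (Sum.elim w l))) E
  have h3 : Cardinal.mk (Fin r ⊕ Fin c) ≤ Algebra.trdeg K E := by
    rw [trd h, Cardinal.mk_fintype, Fintype.card_sum, Fintype.card_fin, Fintype.card_fin,
      add_comm, hcr]
  have h4 := Algebra.IsAlgebraic.isTranscendenceBasis_of_le_trdeg_of_finite K (Sum.elim w l) h3
  have h5 : AlgebraicIndependent (Algebra.adjoin K (Set.range l)) w :=
    (AlgebraicIndependent.sumElim_iff.1 h4.1).2
  exact ⟨h4.1, h5.extendScalars (IntermediateField.adjoin K (Set.range l))⟩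

/-- Degrees over a field generated in two steps. -/
theorem finrank_two (S T : Set E) :
    Module.finrank (IntermediateField.adjoin (IntermediateField.adjoin K S) T) E =
      Module.finrank (IntermediateField.adjoin K (S ∪ T)) E := by
  rw [← IntermediateField.adjoin_adjoin_left K S T]
  rfl

theorem fd_of_le {F₁ F₂ : IntermediateField K E} (h : F₁ ≤ F₂) (h1 : FiniteDimensional F₁ E) :
    FiniteDimensional F₂ E := by
  obtain ⟨S, hS⟩ := h1.fg_top
  refine ⟨⟨S, ?_⟩⟩
  rw [eq_top_iff]
  intro x _
  have hx : x ∈ Submodule.span F₁ (S : Set E) := by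
    rw [hS]
    trivial
  induction hx using Submodule.span_induction with
  | mem x hx => exact Submodule.subset_span hx
  | zero => exact Submodule.zero_mem _
  | add x y _ _ hx hy => exact Submodule.add_mem _ (hx trivial) (hy trivial)
  | smul a x _ hx => exact Submodule.smul_mem _ (⟨a, h a.2⟩ : F₂) (hx trivial)

theorem fin_two (κ : IntermediateField K E) (T : Set E)
    (h : Module.Finite (IntermediateField.adjoin K T) E) :
    Module.Finite (IntermediateField.adjoin κ T) E := by
  have hle : IntermediateField.adjoin K T ≤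
      (IntermediateField.adjoin κ T).restrictScalars K := by
    rw [IntermediateField.adjoin_le_iff]
    exact IntermediateField.subset_adjoin κ T
  have h1 : FiniteDimensional (IntermediateField.adjoin K T) E := h
  have h5 := fd_of_le hle h1
  exact h5

theorem range_one (w : Fin 1 → E) : Set.range w = {w 0} := by
  ext z
  constructor
  · rintro ⟨i, rfl⟩
    rw [Subsingleton.elim i 0]
    rfl
  · rintro rfl
    exact ⟨0, rfl⟩

theorem range_two (w : Fin 2 → E) : Set.range w = {w 0, w 1} := by
  ext z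
  constructor
  · rintro ⟨i, rfl⟩
    fin_cases i
    · exact Or.inl rfl
    · exact Or.inr rfl
  · rintro (rfl | rfl)
    · exact ⟨0, rfl⟩
    · exact ⟨1, rfl⟩

theorem lc_map (ρ : E →ₐ[K] E) {c n : ℕ} (B : Fin c → Fin n → K) (g : Fin n → E) (i : Fin c) :
    lc B (fun j => ρ (g j)) i = ρ (lc B g i) := by
  unfold lc
  rw [map_sum]
  refine Finset.sum_congr rfl fun j _ => ?_
  rw [map_mul, AlgHom.commutes]

/-- Fields generated by three linear forms. -/
theorem lin_le {s t : ℕ} (hst : s + t = 3) {ξ : Fin 4 → E} (h : Stp K ξ) (x : Fin 3 → E)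
    (A : Fin s → Fin 3 → K) (A' : Fin t → Fin 3 → K) :
    Module.finrank (IntermediateField.adjoin (IntermediateField.adjoin K (Set.range (lc A x)))
      (Set.range (lc A' x))) E ≤ Module.finrank (IntermediateField.adjoin K (Set.range x)) E := by
  by_cases h0 : Module.finrank (IntermediateField.adjoin
      (IntermediateField.adjoin K (Set.range (lc A x))) (Set.range (lc A' x))) E = 0
  · rw [h0]
    exact Nat.zero_le _
  have hfin : Module.Finite (IntermediateField.adjoin
      (IntermediateField.adjoin K (Set.range (lc A x))) (Set.range (lc A' x))) E :=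
    Module.finite_of_finrank_pos (Nat.pos_of_ne_zero h0)
  let z : Fin s ⊕ Fin t → E := Sum.elim (lc A x) (lc A' x)
  have hz : Set.range z = Set.range (lc A x) ∪ Set.range (lc A' x) := Set.Sum.elim_range _ _
  have h1 : (IntermediateField.adjoin (IntermediateField.adjoin K (Set.range (lc A x)))
      (Set.range (lc A' x))).restrictScalars K = IntermediateField.adjoin K (Set.range z) := by
    rw [IntermediateField.adjoin_adjoin_left, hz]
  have h2 : Module.Finite (IntermediateField.adjoin K (Set.range z)) E := by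
    rw [← h1]
    exact hfin
  have h3 : AlgebraicIndependent K z :=
    (ind_fin h (by omega : t + s = 3) (lc A' x) (lc A x) (by
      rw [Set.union_comm, ← hz]
      exact h2)).1
  have h4 : LinearIndependent K z := h3.linearIndependent
  have hlc : ∀ {r : ℕ} (C : Fin r → Fin 3 → K) (i : Fin r),
      lc C x i ∈ Submodule.span K (Set.range x) := by
    intro r C i
    change ∑ j, algebraMap K E (C i j) * x j ∈ Submodule.span K (Set.range x)
    refine Submodule.sum_mem _ fun j _ => ?_
    rw [← Algebra.smul_def]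
    exact Submodule.smul_mem _ _ (Submodule.subset_span ⟨j, rfl⟩)
  have h5 : Submodule.span K (Set.range z) ≤ Submodule.span K (Set.range x) := by
    rw [Submodule.span_le]
    rintro _ ⟨i, rfl⟩
    rcases i with i | i
    · exact hlc A i
    · exact hlc A' i
  have h6 : Submodule.span K (Set.range z) = Submodule.span K (Set.range x) := by
    have hf : Module.Finite K (Submodule.span K (Set.range x)) :=
      Module.Finite.span_of_finite K (Set.finite_range _)
    refine Submodule.eq_of_le_of_finrank_le h5 ?_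
    rw [finrank_span_eq_card h4, Fintype.card_sum, Fintype.card_fin, Fintype.card_fin, hst]
    refine (finrank_range_le_card (R := K) x).trans ?_
    rw [Fintype.card_fin]
  have hsub : ∀ S : Set E, Submodule.span K S ≤
      Subalgebra.toSubmodule (IntermediateField.adjoin K S).toSubalgebra := by
    intro S
    rw [Submodule.span_le]
    exact IntermediateField.subset_adjoin K S
  have h7 : IntermediateField.adjoin K (Set.range z) = IntermediateField.adjoin K (Set.range x) := by
    apply le_antisymm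
    · rw [IntermediateField.adjoin_le_iff]
      intro y hy
      have h8 : y ∈ Submodule.span K (Set.range x) := by
        rw [← h6]
        exact Submodule.subset_span hy
      exact hsub _ h8
    · rw [IntermediateField.adjoin_le_iff]
      intro y hy
      have h8 : y ∈ Submodule.span K (Set.range z) := by
        rw [h6]
        exact Submodule.subset_span hy
      exact hsub _ h8
  rw [h7] at h1
  apply le_of_eq
  rw [← h1]
  rfl

theorem rp_poly (hR : StmtRpA) {n : ℕ} (x : Fin n → E) (G : Pl n K) :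
    Rp K x G.totalDegree (MvPolynomial.aeval x G) :=
  (hR K E n x).1 G _ le_rfl

theorem rp_zero (hR : StmtRpA) {n : ℕ} (x : Fin n → E) (e : ℕ) : Rp K x e (0 : E) := by
  have h := (hR K E n x).1 0 e (by simp)
  rwa [map_zero] at h

theorem rp_smul (hR : StmtRpA) {n : ℕ} (x : Fin n → E) (e : ℕ) (c : K) (u : E)
    (h : Rp K x e u) : Rp K x e (algebraMap K E c * u) := by
  have h1 := (hR K E n x).1 (MvPolynomial.C c) 0 (by simp)
  rw [MvPolynomial.aeval_C] at h1
  have h2 := (hR K E n x).2.2.1 0 e _ _ h1 h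
  rwa [zero_add] at h2

theorem rp_pow (hR : StmtRpA) {n : ℕ} (x : Fin n → E) (e : ℕ) (u : E)
    (h : Rp K x e u) (k : ℕ) : Rp K x (e * k) (u ^ k) := by
  induction k with
  | zero =>
    have h1 := (hR K E n x).1 1 (e * 0) (by simp)
    rw [map_one] at h1
    rwa [pow_zero]
  | succ k ih =>
    rw [pow_succ, mul_add, mul_one]
    exact (hR K E n x).2.2.1 _ _ _ _ ih h

theorem rp_sum (hR : StmtRpA) {n m : ℕ} (x : Fin n → E) (e : ℕ) (v : Fin m → E)
    (h : ∀ j, Rp K x e (v j)) : Rp K x e (∑ j, v j) :=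
  Finset.sum_induction v (Rp K x e) (fun a b ha hb => (hR K E n x).2.1 e a b ha hb)
    (rp_zero hR x e) (fun j _ => h j)

/-- A common denominator. -/
theorem den (hR : StmtRpA) (x : Fin 3 → E) (hx : AlgebraicIndependent K x)
    (hf : Module.Finite (IntermediateField.adjoin K (Set.range x)) E) {s : ℕ} (g : Fin s → E) :
    ∃ (b : E) (D : ℕ), b ≠ 0 ∧ 1 ≤ D ∧ Rp K x D b ∧ ∀ i, Rp K x D (b * g i) := by
  classical
  have alg : Algebra.IsAlgebraic (Algebra.adjoin K (Set.range x)) E :=
    Algebra.IsAlgebraic.trans (Algebra.adjoin K (Set.range x))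
      (IntermediateField.adjoin K (Set.range x)) E
  obtain ⟨y, hy, hi⟩ := Algebra.IsAlgebraic.exists_integral_multiples
    (Algebra.adjoin K (Set.range x)) (A := E) (Finset.univ.image g)
  have hb : (y : E) ≠ 0 := fun h => hy (Subtype.ext h)
  have hcomp : ((MvPolynomial.aeval x : Pl 3 K →ₐ[K] E) : Pl 3 K →+* E).comp
      (hx.aevalEquiv.symm : Algebra.adjoin K (Set.range x) →+* Pl 3 K) =
      algebraMap (Algebra.adjoin K (Set.range x)) E := by
    ext z
    have h1 := hx.algebraMap_aevalEquiv (hx.aevalEquiv.symm z)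
    rw [AlgEquiv.apply_symm_apply] at h1
    exact h1.symm
  have hint : ∀ i, Intx K x ((y : E) * g i) := by
    intro i
    obtain ⟨F, hF, h0⟩ := hi (g i) (Finset.mem_image_of_mem g (Finset.mem_univ i))
    refine ⟨F.map (hx.aevalEquiv.symm : Algebra.adjoin K (Set.range x) →+* Pl 3 K),
      hF.map _, ?_⟩
    rw [Polynomial.eval₂_map, hcomp]
    exact h0
  have hR5 := (hR K E 3 x).2.2.2.2
  have hmono := (hR K E 3 x).2.2.2.1
  choose e he using fun i => hR5 _ (hint i)
  obtain ⟨G, hG⟩ : ∃ G : Pl 3 K, MvPolynomial.aeval x G = (y : E) := by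
    have h1 := hx.algebraMap_aevalEquiv (hx.aevalEquiv.symm y)
    rw [AlgEquiv.apply_symm_apply] at h1
    exact ⟨_, h1.symm⟩
  refine ⟨y, 1 + G.totalDegree + ∑ i, e i, hb, by omega, ?_, fun i => ?_⟩
  · rw [← hG]
    exact hmono _ _ _ (by omega) (rp_poly hR x G)
  · refine hmono _ _ _ ?_ (he i)
    have h2 : e i ≤ ∑ i, e i := Finset.single_le_sum (fun _ _ => Nat.zero_le _) (Finset.mem_univ i)
    omega

/-- Linear combinations of the `g i` are functions of degree `≤ D`. -/
theorem dge_of [CharZero K] (hR : StmtRpA) (hD : StmtRpD) (x : Fin 3 → E)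
    (hx : AlgebraicIndependent K x)
    (hf : Module.Finite (IntermediateField.adjoin K (Set.range x)) E) {s : ℕ} (g : Fin s → E) (b : E)
    (D : ℕ) (hb : b ≠ 0) (h1 : Rp K x D b) (h2 : ∀ i, Rp K x D (b * g i)) {r : ℕ}
    (B : Fin r → Fin s → K) (k : Fin r) : Dge K x (lc B g k) D := by
  obtain ⟨W, hW, hmem⟩ := hD K E 3 x hx hf
  refine ⟨b, hb, W, hW, fun a i hia => hmem _ _ ?_⟩
  have h3 : Rp K x D (b * lc B g k) := by
    have h4 : b * lc B g k = ∑ j, algebraMap K E (B k j) * (b * g j) := by
      rw [lc, Finset.mul_sum]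
      exact Finset.sum_congr rfl fun j _ => by ring
    rw [h4]
    exact rp_sum hR x D _ fun j => rp_smul hR x D _ _ (h2 j)
  have h5 : b ^ a * lc B g k ^ i = b ^ (a - i) * (b * lc B g k) ^ i := by
    rw [mul_pow, ← mul_assoc, ← pow_add, Nat.sub_add_cancel hia]
  have h6 := (hR K E 3 x).2.2.1 _ _ _ _ (rp_pow hR x D b h1 (a - i)) (rp_pow hR x D _ h3 i)
  rw [← mul_add, Nat.sub_add_cancel hia] at h6
  rw [h5]
  exact h6


/-- Powers of compatible homomorphisms. -/
theorem pow_comm {K k E E' : Type} [Field K] [Field k] [Field E] [Field E'] [Algebra K E]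
    [Algebra k E'] [Algebra K E'] (β : E →ₐ[K] E') (ρ : E →ₐ[K] E) (φ : E' →ₐ[k] E')
    (hβ : ∀ h, β (ρ h) = φ (β h)) (m : ℕ) (h : E) : β ((ρ ^ m) h) = (φ ^ m) (β h) := by
  induction m generalizing h with
  | zero => rfl
  | succ m ih =>
    rw [pow_succ, pow_succ, AlgHom.mul_apply, AlgHom.mul_apply, ih, hβ]

theorem lc_single {K E : Type} [Field K] [Field E] [Algebra K E] (g : Fin 3 → E) (j : Fin 3) :
    lc (fun _ : Fin 1 => (Pi.single j 1 : Fin 3 → K)) g 0 = g j := by
  simp [lc, Pi.single_apply]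

end T3CmpXM

open T3CmpXM

/-- (CmpX) -/
theorem yCmpX : StmtDg1 → StmtCfD → StmtDgS → StmtDgT → StmtBZ1 → StmtBZ2 → StmtRpA → StmtRpD →
    StmtCmpX := by
  intro hDg hCfD hDgS hDgT hBZ1 hBZ2 hR hRD K k _ _ _ _ E E' _ _ _ _ _ _ β ξ ρ φ hξ hξ' hβ s y
  have hk0 : CharZero k := charZero_of_injective_algebraMap (algebraMap K k).injective
  have hkI : Infinite k := Infinite.of_injective (Nat.cast : ℕ → k) Nat.cast_injective
  obtain ⟨hD1, hD2, -, -, -⟩ := hDg K E ξ hξ
  obtain ⟨hT1, hT2, -, -⟩ := hDgT
  obtain ⟨hS1, hS2, hS3⟩ := hDgS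
  have hfx : Module.Finite (IntermediateField.adjoin K (Set.range fun i : Fin 3 => ξ i.succ)) E :=
    fin_ind hξ _ hξ.ai
  set x' : Fin 3 → E' := fun i => β (ξ i.succ) with hx'
  have hai' : AlgebraicIndependent k x' := hξ'.ai
  have hfx' : Module.Finite (IntermediateField.adjoin k (Set.range x')) E' :=
    fin_ind hξ' _ hai'
  set δ : ℕ := Module.finrank (IntermediateField.adjoin k (Set.range x')) E' with hδ
  obtain ⟨b, e, hb, he, hRb, hRy⟩ := den hR x' hai' hfx' y
  refine ⟨9 * e * e * (2 * e * (2 * 3 * δ)), fun m => ?_⟩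
  set X' : Fin 3 → E' := fun i => (φ ^ m) (x' i) with hX'
  set d : ℕ := dgx K 2 1 (fun i : Fin 3 => ξ i.succ) (fun i : Fin 3 => (ρ ^ m) (ξ i.succ)) with hd
  have hd1 : 1 ≤ d := (hD1 ρ m).1
  -- (a) the functions of degree `≤ 3 d`
  have hj : ∀ j : Fin 3, Dge k x' (X' j) d := by
    intro j
    have h1 : Dge K (fun i : Fin 3 => ξ i.succ) ((ρ ^ m) (ξ j.succ)) d := by
      refine hCfD K E _ hξ.ai hfx _ _ fun A => ?_
      have h2 := hD2 (fun i : Fin 3 => (ρ ^ m) (ξ i.succ)) A
        (fun _ : Fin 1 => (Pi.single j 1 : Fin 3 → K))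
      rw [range_one, lc_single, Set.union_singleton] at h2
      exact h2
    have h3 := hS3 K k E E' β 3 _ _ _ h1
    rw [pow_comm β ρ φ hβ] at h3
    exact h3
  have ha : ∀ B : Fin 1 → Fin 3 → k, Dge k x' (lc B X' 0) (3 * d) := by
    intro B
    have h1 : lc B X' 0 = algebraMap k E' (B 0 0) * X' 0 + algebraMap k E' (B 0 1) * X' 1 +
        algebraMap k E' (B 0 2) * X' 2 := by
      unfold lc
      rw [Fin.sum_univ_three]
    have h2 := hS1 k E' 3 x' _ _ _ _ (hS1 k E' 3 x' _ _ _ _
      (hS2 k E' 3 x' _ (B 0 0) _ (hj 0)) (hS2 k E' 3 x' _ (B 0 1) _ (hj 1)))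
      (hS2 k E' 3 x' _ (B 0 2) _ (hj 2))
    rw [← h1] at h2
    have h3 : d + d + d = 3 * d := by ring
    rw [h3] at h2
    exact h2
  have ha1 : ∀ (A' : Fin 2 → Fin 3 → k) (B : Fin 1 → Fin 3 → k),
      Module.finrank (IntermediateField.adjoin (IntermediateField.adjoin k
        (Set.range (lc A' x'))) (Set.range (lc B X'))) E' ≤ 2 * (3 * d) * δ := by
    intro A' B
    by_cases h0 : Module.finrank (IntermediateField.adjoin (IntermediateField.adjoin k
        (Set.range (lc A' x'))) (Set.range (lc B X'))) E' = 0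
    · rw [h0]
      exact Nat.zero_le _
    rw [finrank_two] at h0
    have hfin := Module.finite_of_finrank_pos (Nat.pos_of_ne_zero h0)
    have hai := (ind_fin hξ' (by norm_num : 2 + 1 = 3) _ _ hfin).2
    have htr : Transcendental (IntermediateField.adjoin k (Set.range (lc A' x')))
        (lc B X' 0) := (algebraicIndependent_unique_type_iff (x := lc B X')).1 hai
    have h1 := hBZ1 k E' (IntermediateField.adjoin k (Set.range (lc A' x'))) 3 x' (lc B X' 0)
      (3 * d) δ (fin_two _ _ hfx') (fun A'' => lin_le (by norm_num : 2 + 1 = 3) hξ' x' A' A'')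
      (by omega) (hT1 k E' 3 _ _ _ (ha B) _) htr
    rw [range_one]
    exact h1
  -- (b) linear forms in `y`
  have hy : ∀ {c : ℕ} (A : Fin c → Fin s → k) (i : Fin c), Dge k x' (lc A y i) e :=
    fun A i => dge_of hR hRD x' hai' hfx' y b e hb hRb hRy A i
  -- (c)
  have hfX : ∀ κ : IntermediateField k E', Module.Finite (IntermediateField.adjoin κ
      (Set.range X')) E' := fun κ =>
    fin_two κ _ (fin_ind hξ' _ (hai'.map' (f := φ ^ m) (φ ^ m).toRingHom.injective))
  have hc : ∀ (B : Fin 1 → Fin s → k) (A' : Fin 2 → Fin 3 → k),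
      Module.finrank (IntermediateField.adjoin k (Set.range (lc A' x') ∪
        {(φ ^ m) (lc B y 0)})) E' ≤ 2 * e * (2 * (3 * d) * δ) := by
    intro B A'
    by_cases h0 : Module.finrank (IntermediateField.adjoin k (Set.range (lc A' x') ∪
        {(φ ^ m) (lc B y 0)})) E' = 0
    · rw [h0]
      exact Nat.zero_le _
    have hfin := Module.finite_of_finrank_pos (Nat.pos_of_ne_zero h0)
    have hr : Set.range (fun _ : Fin 1 => (φ ^ m) (lc B y 0)) = {(φ ^ m) (lc B y 0)} :=
      range_one _
    have hai := (ind_fin hξ' (by norm_num : 2 + 1 = 3) (lc A' x')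
      (fun _ : Fin 1 => (φ ^ m) (lc B y 0)) (by rw [hr]; exact hfin)).2
    have htr : Transcendental (IntermediateField.adjoin k (Set.range (lc A' x')))
        ((φ ^ m) (lc B y 0)) :=
      (algebraicIndependent_unique_type_iff (x := fun _ : Fin 1 => (φ ^ m) (lc B y 0))).1 hai
    have h1 := hBZ1 k E' (IntermediateField.adjoin k (Set.range (lc A' x'))) 3 X'
      ((φ ^ m) (lc B y 0)) e (2 * (3 * d) * δ) (hfX _) (fun B' => ha1 A' B') he
      (hT1 k E' 3 _ _ _ (hT2 k E' 3 _ _ _ (hy B 0) (φ ^ m)) _) htr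
    rw [finrank_two] at h1
    exact h1
  unfold degrX
  refine iSup_le fun A => iSup_le fun B => Nat.cast_le.2 ?_
  have hwB : lfX B (fun i => (φ ^ m) (y i)) = fun _ : Fin 1 => (φ ^ m) (lc B y 0) := by
    funext i
    rw [Subsingleton.elim i 0]
    exact lc_map (φ ^ m) B y 0
  have hfld : fldX A B y (fun i => (φ ^ m) (y i)) =
      IntermediateField.adjoin k ({(φ ^ m) (lc B y 0)} ∪ Set.range (lc A y : Fin 2 → E')) := by
    unfold fldX
    rw [hwB, range_one (fun _ : Fin 1 => (φ ^ m) (lc B y 0)), Set.union_comm]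
    rfl
  rw [hfld]
  by_cases h0 : Module.finrank (IntermediateField.adjoin k ({(φ ^ m) (lc B y 0)} ∪
      Set.range (lc A y : Fin 2 → E'))) E' = 0
  · rw [h0]
    exact Nat.zero_le _
  have hfin := Module.finite_of_finrank_pos (Nat.pos_of_ne_zero h0)
  have hr : Set.range (fun _ : Fin 1 => (φ ^ m) (lc B y 0)) = {(φ ^ m) (lc B y 0)} :=
    range_one _
  have hai := (ind_fin hξ' (by norm_num : 1 + 2 = 3) (fun _ : Fin 1 => (φ ^ m) (lc B y 0))
    (lc A y : Fin 2 → E') (by rw [hr]; exact hfin)).2
  rw [hr] at hai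
  have h3 : (lc A y : Fin 2 → E') = ![lc A y (0 : Fin 2), lc A y (1 : Fin 2)] := by
    funext i
    fin_cases i <;> rfl
  rw [h3] at hai
  have h1 := hBZ2 k E' (IntermediateField.adjoin k {(φ ^ m) (lc B y 0)}) 3 x'
    (lc A y (0 : Fin 2)) (lc A y (1 : Fin 2)) e e (2 * e * (2 * (3 * d) * δ)) (fin_two _ _ hfx')
    (fun A' => by
      rw [finrank_two, Set.union_comm]
      exact hc B A')
    he he (hT1 k E' 3 _ _ _ (hy A (0 : Fin 2)) _) (hT1 k E' 3 _ _ _ (hy A (1 : Fin 2)) _) hai
  rw [finrank_two, ← range_two (lc A y : Fin 2 → E')] at h1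
  refine h1.trans (le_of_eq ?_)
  ring

end Pool.Agent.Lib.MP_16285c_agX
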