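import Pool.Agent.Lib.MP_16285c_agX.T3.SpecA

/-!
# Degrees of functions: formal properties
-/

set_option autoImplicit false

namespace Pool.Agent.Lib.MP_16285c_agX

open Pool.Agent.Lib.MP_16285c_ag Pool.Agent.Lib.MP_16285c_agN

namespace T3DgTM

theorem mem_Vd {K E : Type} [Field K] [Field E] [Algebra K E] {s : ℕ} (y : Fin s → E) (n : ℕ)
    (v : E) : v ∈ Vd K y n ↔
      ∃ P : MvPolynomial (Fin s) K, P.totalDegree ≤ n ∧ MvPolynomial.aeval y P = v := by
  unfold Vd
  rw [Submodule.mem_map]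
  constructor
  · rintro ⟨P, hP, h⟩
    exact ⟨P, (MvPolynomial.mem_restrictTotalDegree _ _ _).1 hP, h⟩
  · rintro ⟨P, hP, h⟩
    exact ⟨P, (MvPolynomial.mem_restrictTotalDegree _ _ _).2 hP, h⟩

theorem part1 (K E : Type) [Field K] [Field E] [Algebra K E] (s : ℕ) (y : Fin s → E) (w : E)
    (d : ℕ) (h : Dge K y w d) (κ : IntermediateField K E) : Dge κ y w d := by
  obtain ⟨b, hb, W, hW, hm⟩ := h
  obtain ⟨S, hS⟩ := hW
  refine ⟨b, hb, Submodule.span κ (S : Set E), ⟨S, rfl⟩, fun a i hi => ?_⟩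
  have key : ∀ z ∈ W * Vd K y (d * a), z ∈ Submodule.span κ (S : Set E) * Vd κ y (d * a) := by
    intro z hz
    refine Submodule.mul_induction_on hz ?_ ?_
    · intro m hmW v hv
      refine Submodule.mul_mem_mul ?_ ?_
      · rw [← hS] at hmW
        have h1 : Submodule.span K (S : Set E) ≤
            (Submodule.span κ (S : Set E)).restrictScalars K := by
          rw [Submodule.span_le]
          exact fun t ht => Submodule.subset_span ht
        exact h1 hmW
      · obtain ⟨P, hP, rfl⟩ := (mem_Vd y _ v).1 hv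
        refine (mem_Vd y _ _).2 ⟨MvPolynomial.map (algebraMap K κ) P, ?_, ?_⟩
        · exact le_trans (Finset.sup_mono (MvPolynomial.support_map_subset _ _)) hP
        · exact MvPolynomial.aeval_map_algebraMap κ y P
    · intro u v hu hv
      exact add_mem hu hv
  exact key _ (hm a i hi)

theorem part2 (K E : Type) [Field K] [Field E] [Algebra K E] (s : ℕ) (y : Fin s → E) (w : E)
    (d : ℕ) (h : Dge K y w d) (ρ : E →ₐ[K] E) : Dge K (fun i => ρ (y i)) (ρ w) d := by
  obtain ⟨b, hb, W, hW, hm⟩ := h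
  refine ⟨ρ b, (map_ne_zero ρ).2 hb, W.map ρ.toLinearMap, hW.map _, fun a i hi => ?_⟩
  have h1 := hm a i hi
  have h2 : ρ (b ^ a * w ^ i) ∈ (W * Vd K y (d * a)).map ρ.toLinearMap :=
    Submodule.mem_map_of_mem (f := ρ.toLinearMap) h1
  rw [Submodule.map_mul] at h2
  rw [map_mul, map_pow, map_pow] at h2
  refine mul_le_mul' (le_refl (W.map ρ.toLinearMap)) ?_ h2
  rintro _ ⟨v, hv, rfl⟩
  obtain ⟨P, hP, rfl⟩ := (mem_Vd y _ v).1 hv
  refine (mem_Vd _ _ _).2 ⟨P, hP, ?_⟩
  change MvPolynomial.aeval (fun i => ρ (y i)) P = ρ (MvPolynomial.aeval y P)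
  rw [MvPolynomial.comp_aeval_apply]

theorem part3 (K E : Type) [Field K] [Field E] [Algebra K E] (s : ℕ) (y : Fin s → E) (c : K)
    (a : Fin s → K) : Dge K y (algebraMap K E c + ∑ j, algebraMap K E (a j) * y j) 1 := by
  refine ⟨1, one_ne_zero, 1, ?_, fun m i hi => ?_⟩
  · exact ⟨{1}, by rw [Finset.coe_singleton, Submodule.one_eq_span]⟩
  · rw [one_pow, one_mul, one_mul, one_mul]
    have h1 : algebraMap K E c + ∑ j, algebraMap K E (a j) * y j =
        MvPolynomial.aeval y (MvPolynomial.C c + ∑ j, MvPolynomial.C (a j) * MvPolynomial.X j) := by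
      rw [map_add, map_sum, MvPolynomial.aeval_C]
      refine congrArg _ (Finset.sum_congr rfl fun j _ => ?_)
      rw [map_mul, MvPolynomial.aeval_C, MvPolynomial.aeval_X]
    rw [h1, ← map_pow]
    refine (mem_Vd _ _ _).2 ⟨_, ?_, rfl⟩
    refine le_trans (MvPolynomial.totalDegree_pow _ _) ?_
    have h2 : (MvPolynomial.C c + ∑ j, MvPolynomial.C (a j) * MvPolynomial.X j :
        MvPolynomial (Fin s) K).totalDegree ≤ 1 := by
      refine le_trans (MvPolynomial.totalDegree_add _ _) ?_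
      rw [MvPolynomial.totalDegree_C]
      refine max_le (Nat.zero_le _) ?_
      refine MvPolynomial.totalDegree_finsetSum_le fun j _ => ?_
      refine le_trans (MvPolynomial.totalDegree_mul _ _) ?_
      rw [MvPolynomial.totalDegree_C, MvPolynomial.totalDegree_X]
    calc i * _ ≤ i * 1 := Nat.mul_le_mul_left _ h2
      _ ≤ m := by omega

theorem part4 (K E : Type) [Field K] [Field E] [Algebra K E] (s : ℕ) (y : Fin s → E) (w : E)
    (d d' : ℕ) (hd : d ≤ d') (h : Dge K y w d) : Dge K y w d' := by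
  obtain ⟨b, hb, W, hW, hm⟩ := h
  refine ⟨b, hb, W, hW, fun a i hi => ?_⟩
  refine mul_le_mul' (le_refl W) ?_ (hm a i hi)
  intro v hv
  obtain ⟨P, hP, rfl⟩ := (mem_Vd y _ v).1 hv
  exact (mem_Vd _ _ _).2 ⟨P, le_trans hP (Nat.mul_le_mul_right _ hd), rfl⟩

end T3DgTM

open T3DgTM

theorem yDgT : StmtDgT :=
  ⟨part1, part2, part3, part4⟩

end Pool.Agent.Lib.MP_16285c_agX
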