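import Pool.Agent.Lib.MP_16285c_agX.T3.SpecA

/-!
# The degrees `d m` and `Δ m` are finite

Proof of `StmtDgB`.
-/

set_option autoImplicit false

namespace Pool.Agent.Lib.MP_16285c_agX

open Pool.Agent.Lib.MP_16285c_ag Pool.Agent.Lib.MP_16285c_agN

namespace T3DgBM

section

variable {κ F : Type} [Field κ] [Field F] [Algebra κ F]

/-- `F` is algebraic over the algebra generated by `S`. -/
theorem alg_of_adjoin (S : Set F)
    (h : Algebra.IsAlgebraic (IntermediateField.adjoin κ S) F) :
    Algebra.IsAlgebraic (Algebra.adjoin κ S) F := by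
  open scoped IntermediateField.algebraAdjoinAdjoin in
  exact Algebra.IsAlgebraic.trans (Algebra.adjoin κ S) (IntermediateField.adjoin κ S) F

/-- A transcendence basis. -/
theorem basis_of {s : ℕ} (l : Fin s → F) (hl : AlgebraicIndependent κ l)
    (hf : Module.Finite (IntermediateField.adjoin κ (Set.range l)) F) : IsTranscendenceBasis κ l :=
  isTranscendenceBasis_iff_algebraicIndependent_isAlgebraic.2 ⟨hl, alg_of_adjoin _ inferInstance⟩

theorem trdeg_of {s : ℕ} (l : Fin s → F) (hl : AlgebraicIndependent κ l)
    (hf : Module.Finite (IntermediateField.adjoin κ (Set.range l)) F) :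
    Algebra.trdeg κ F = s := by
  rw [← (basis_of l hl hf).cardinalMk_eq_trdeg, Cardinal.mk_fin]

/-- Generators of a field of finite index are algebraically independent if there are not too many. -/
theorem ind_of {ι : Type} [Finite ι] (x : ι → F)
    (hfin : Module.Finite (IntermediateField.adjoin κ (Set.range x)) F)
    (h : Cardinal.mk ι ≤ Algebra.trdeg κ F) : AlgebraicIndependent κ x := by
  have h1 : Algebra.IsAlgebraic (Algebra.adjoin κ (Set.range x)) F := alg_of_adjoin _ inferInstance
  exact (Algebra.IsAlgebraic.isTranscendenceBasis_of_le_trdeg_of_finite κ x h).1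

end

section

variable {K E : Type} [Field K] [Field E] [Algebra K E]

/-- `E` is finite over `K(x)`. -/
theorem fin_base (ξ : Fin 4 → E) (h : Stp K ξ) :
    Module.Finite (IntermediateField.adjoin K (Set.range fun i : Fin 3 => ξ i.succ)) E := by
  obtain ⟨F, hF, h0⟩ := h.int
  set x : Fin 3 → E := fun i => ξ i.succ with hx
  set F1 := IntermediateField.adjoin K (Set.range x) with hF1
  have hm : ∀ i, x i ∈ F1 := fun i => IntermediateField.subset_adjoin K _ ⟨i, rfl⟩
  let φ : Pl 3 K →ₐ[K] F1 := MvPolynomial.aeval (fun i => (⟨x i, hm i⟩ : F1))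
  have hφ : (algebraMap F1 E).comp (φ : Pl 3 K →+* F1) =
      ((MvPolynomial.aeval x : Pl 3 K →ₐ[K] E) : Pl 3 K →+* E) := by
    apply MvPolynomial.ringHom_ext
    · intro r
      simp [φ]
    · intro i
      simp [φ]
  have hint : IsIntegral F1 (ξ 0) :=
    ⟨F.map (φ : Pl 3 K →+* F1), hF.map _, by rw [Polynomial.eval₂_map, hφ]; exact h0⟩
  have h1 : Module.Finite F1 (IntermediateField.adjoin F1 {ξ 0}) :=
    IntermediateField.adjoin.finiteDimensional hint
  have h2 : (IntermediateField.adjoin F1 {ξ 0}).restrictScalars K = ⊤ := by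
    rw [IntermediateField.adjoin_adjoin_left, ← h.gen]
    congr 1
    ext y
    constructor
    · rintro (⟨i, rfl⟩ | rfl)
      · exact ⟨i.succ, rfl⟩
      · exact ⟨0, rfl⟩
    · rintro ⟨i, rfl⟩
      refine Fin.cases ?_ (fun j => ?_) i
      · exact Or.inr rfl
      · exact Or.inl ⟨j, rfl⟩
  have h3 : ∀ y : E, y ∈ IntermediateField.adjoin F1 {ξ 0} := by
    intro y
    have h4 : y ∈ (IntermediateField.adjoin F1 {ξ 0}).restrictScalars K := by
      rw [h2]
      exact IntermediateField.mem_top
    exact h4
  exact Module.Finite.of_surjective (IntermediateField.adjoin F1 {ξ 0}).val.toLinearMap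
    (fun y => ⟨⟨y, h3 y⟩, rfl⟩)

/-- Fields generated by three linear forms. -/
theorem lin_le {s t : ℕ} (hst : s + t = 3) (x : Fin 3 → E) (hx : AlgebraicIndependent K x)
    (hf : Module.Finite (IntermediateField.adjoin K (Set.range x)) E)
    (A : Fin s → Fin 3 → K) (A' : Fin t → Fin 3 → K) :
    Module.finrank (IntermediateField.adjoin (IntermediateField.adjoin K (Set.range (lc A x)))
      (Set.range (lc A' x))) E ≤ Module.finrank (IntermediateField.adjoin K (Set.range x)) E := by
  by_cases h0 : Module.finrank (IntermediateField.adjoin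
      (IntermediateField.adjoin K (Set.range (lc A x))) (Set.range (lc A' x))) E = 0
  · rw [h0]
    exact Nat.zero_le _
  have hfin : Module.Finite (IntermediateField.adjoin
      (IntermediateField.adjoin K (Set.range (lc A x))) (Set.range (lc A' x))) E :=
    Module.finite_of_finrank_pos (Nat.pos_of_ne_zero h0)
  let z : Fin s ⊕ Fin t → E := Sum.elim (lc A x) (lc A' x)
  have hz : Set.range z = Set.range (lc A x) ∪ Set.range (lc A' x) := Set.Sum.elim_range _ _
  have h1 : (IntermediateField.adjoin (IntermediateField.adjoin K (Set.range (lc A x)))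
      (Set.range (lc A' x))).restrictScalars K = IntermediateField.adjoin K (Set.range z) := by
    rw [IntermediateField.adjoin_adjoin_left, hz]
  have h2 : Module.Finite (IntermediateField.adjoin K (Set.range z)) E := by
    rw [← h1]
    exact hfin
  have h3 : AlgebraicIndependent K z := by
    refine ind_of z h2 ?_
    rw [trdeg_of x hx hf, Cardinal.mk_fintype, Fintype.card_sum, Fintype.card_fin,
      Fintype.card_fin, hst]
  have h4 : LinearIndependent K z := h3.linearIndependent
  have hlc : ∀ {r : ℕ} (C : Fin r → Fin 3 → K) (i : Fin r),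
      lc C x i ∈ Submodule.span K (Set.range x) := by
    intro r C i
    change ∑ j, algebraMap K E (C i j) * x j ∈ Submodule.span K (Set.range x)
    refine Submodule.sum_mem _ fun j _ => ?_
    rw [← Algebra.smul_def]
    exact Submodule.smul_mem _ _ (Submodule.subset_span ⟨j, rfl⟩)
  have h5 : Submodule.span K (Set.range z) ≤ Submodule.span K (Set.range x) := by
    rw [Submodule.span_le]
    rintro _ ⟨i, rfl⟩
    rcases i with i | i
    · exact hlc A i
    · exact hlc A' i
  have h6 : Submodule.span K (Set.range z) = Submodule.span K (Set.range x) := by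
    have hf : Module.Finite K (Submodule.span K (Set.range x)) :=
      Module.Finite.span_of_finite K (Set.finite_range _)
    refine Submodule.eq_of_le_of_finrank_le h5 ?_
    rw [finrank_span_eq_card h4, Fintype.card_sum, Fintype.card_fin, Fintype.card_fin, hst]
    refine (finrank_range_le_card (R := K) x).trans ?_
    rw [Fintype.card_fin]
  have hsub : ∀ S : Set E, Submodule.span K S ≤
      Subalgebra.toSubmodule (IntermediateField.adjoin K S).toSubalgebra := by
    intro S
    rw [Submodule.span_le]
    exact IntermediateField.subset_adjoin K S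
  have h7 : IntermediateField.adjoin K (Set.range z) = IntermediateField.adjoin K (Set.range x) := by
    apply le_antisymm
    · rw [IntermediateField.adjoin_le_iff]
      intro y hy
      have h8 : y ∈ Submodule.span K (Set.range x) := by
        rw [← h6]
        exact Submodule.subset_span hy
      exact hsub _ h8
    · rw [IntermediateField.adjoin_le_iff]
      intro y hy
      have h8 : y ∈ Submodule.span K (Set.range z) := by
        rw [h6]
        exact Submodule.subset_span hy
      exact hsub _ h8
  rw [h7] at h1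
  apply le_of_eq
  rw [← h1]
  rfl

/-- Algebraic independence over `K(u)`. -/
theorem ind_over {s t : ℕ} (hst : s + t = 3) (htr : Algebra.trdeg K E = (3 : ℕ)) (u : Fin s → E)
    (w : Fin t → E)
    (hfin : Module.Finite (IntermediateField.adjoin K (Set.range u ∪ Set.range w)) E) :
    AlgebraicIndependent (IntermediateField.adjoin K (Set.range u)) w := by
  let x : Fin t ⊕ Fin s → E := Sum.elim w u
  have hx : Set.range x = Set.range u ∪ Set.range w := by
    rw [Set.Sum.elim_range, Set.union_comm]
  have h3 : AlgebraicIndependent K x := by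
    refine ind_of x (by rw [hx]; exact hfin) ?_
    rw [htr, Cardinal.mk_fintype, Fintype.card_sum, Fintype.card_fin, Fintype.card_fin,
      add_comm t s, hst]
  have h4 := (AlgebraicIndependent.sumElim_iff.1 h3).2
  open scoped IntermediateField.algebraAdjoinAdjoin in
  exact h4.extendScalars (IntermediateField.adjoin K (Set.range u))

theorem rp_poly (hR : StmtRpA) {n : ℕ} (x : Fin n → E) (G : Pl n K) :
    Rp K x G.totalDegree (MvPolynomial.aeval x G) :=
  (hR K E n x).1 G _ le_rfl

theorem rp_zero (hR : StmtRpA) {n : ℕ} (x : Fin n → E) (e : ℕ) : Rp K x e (0 : E) := by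
  have h := (hR K E n x).1 0 e (by simp)
  rwa [map_zero] at h

theorem rp_smul (hR : StmtRpA) {n : ℕ} (x : Fin n → E) (e : ℕ) (c : K) (u : E)
    (h : Rp K x e u) : Rp K x e (algebraMap K E c * u) := by
  have h1 := (hR K E n x).1 (MvPolynomial.C c) 0 (by simp)
  rw [MvPolynomial.aeval_C] at h1
  have h2 := (hR K E n x).2.2.1 0 e _ _ h1 h
  rwa [zero_add] at h2

theorem rp_pow (hR : StmtRpA) {n : ℕ} (x : Fin n → E) (e : ℕ) (u : E)
    (h : Rp K x e u) (k : ℕ) : Rp K x (e * k) (u ^ k) := by
  induction k with
  | zero =>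
    have h1 := (hR K E n x).1 1 (e * 0) (by simp)
    rw [map_one] at h1
    rwa [pow_zero]
  | succ k ih =>
    rw [pow_succ, mul_add, mul_one]
    exact (hR K E n x).2.2.1 _ _ _ _ ih h

theorem rp_sum (hR : StmtRpA) {n m : ℕ} (x : Fin n → E) (e : ℕ) (v : Fin m → E)
    (h : ∀ j, Rp K x e (v j)) : Rp K x e (∑ j, v j) :=
  Finset.sum_induction v (Rp K x e) (fun a b ha hb => (hR K E n x).2.1 e a b ha hb)
    (rp_zero hR x e) (fun j _ => h j)

/-- A common denominator. -/
theorem den (hR : StmtRpA) (x : Fin 3 → E) (hx : AlgebraicIndependent K x)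
    (hf : Module.Finite (IntermediateField.adjoin K (Set.range x)) E) (g : Fin 3 → E) :
    ∃ (b : E) (D : ℕ), b ≠ 0 ∧ 1 ≤ D ∧ Rp K x D b ∧ ∀ i, Rp K x D (b * g i) := by
  classical
  have alg : Algebra.IsAlgebraic (Algebra.adjoin K (Set.range x)) E := alg_of_adjoin _ inferInstance
  obtain ⟨y, hy, hi⟩ := Algebra.IsAlgebraic.exists_integral_multiples
    (Algebra.adjoin K (Set.range x)) (A := E) (Finset.univ.image g)
  have hb : (y : E) ≠ 0 := fun h => hy (Subtype.ext h)
  have hcomp : ((MvPolynomial.aeval x : Pl 3 K →ₐ[K] E) : Pl 3 K →+* E).comp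
      (hx.aevalEquiv.symm : Algebra.adjoin K (Set.range x) →+* Pl 3 K) =
      algebraMap (Algebra.adjoin K (Set.range x)) E := by
    ext z
    have h1 := hx.algebraMap_aevalEquiv (hx.aevalEquiv.symm z)
    rw [AlgEquiv.apply_symm_apply] at h1
    exact h1.symm
  have hint : ∀ i, Intx K x ((y : E) * g i) := by
    intro i
    obtain ⟨F, hF, h0⟩ := hi (g i) (Finset.mem_image_of_mem g (Finset.mem_univ i))
    refine ⟨F.map (hx.aevalEquiv.symm : Algebra.adjoin K (Set.range x) →+* Pl 3 K),
      hF.map _, ?_⟩
    rw [Polynomial.eval₂_map, hcomp]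
    exact h0
  have hR5 := (hR K E 3 x).2.2.2.2
  have hmono := (hR K E 3 x).2.2.2.1
  choose e he using fun i => hR5 _ (hint i)
  obtain ⟨G, hG⟩ : ∃ G : Pl 3 K, MvPolynomial.aeval x G = (y : E) := by
    have h1 := hx.algebraMap_aevalEquiv (hx.aevalEquiv.symm y)
    rw [AlgEquiv.apply_symm_apply] at h1
    exact ⟨_, h1.symm⟩
  refine ⟨y, 1 + G.totalDegree + ∑ i, e i, hb, by omega, ?_, fun i => ?_⟩
  · rw [← hG]
    exact hmono _ _ _ (by omega) (rp_poly hR x G)
  · refine hmono _ _ _ ?_ (he i)
    have h2 : e i ≤ ∑ i, e i := Finset.single_le_sum (fun _ _ => Nat.zero_le _) (Finset.mem_univ i)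
    omega

/-- Linear combinations of the `g i` are functions of degree `≤ D`. -/
theorem dge_of [CharZero K] (hR : StmtRpA) (hD : StmtRpD) (x : Fin 3 → E)
    (hx : AlgebraicIndependent K x)
    (hf : Module.Finite (IntermediateField.adjoin K (Set.range x)) E) (g : Fin 3 → E) (b : E)
    (D : ℕ) (hb : b ≠ 0) (h1 : Rp K x D b) (h2 : ∀ i, Rp K x D (b * g i)) {r : ℕ}
    (B : Fin r → Fin 3 → K) (k : Fin r) : Dge K x (lc B g k) D := by
  obtain ⟨W, hW, hmem⟩ := hD K E 3 x hx hf
  refine ⟨b, hb, W, hW, fun a i hia => hmem _ _ ?_⟩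
  have h3 : Rp K x D (b * lc B g k) := by
    have h4 : b * lc B g k = ∑ j, algebraMap K E (B k j) * (b * g j) := by
      rw [lc, Finset.mul_sum]
      exact Finset.sum_congr rfl fun j _ => by ring
    rw [h4]
    exact rp_sum hR x D _ fun j => rp_smul hR x D _ _ (h2 j)
  have h5 : b ^ a * lc B g k ^ i = b ^ (a - i) * (b * lc B g k) ^ i := by
    rw [mul_pow, ← mul_assoc, ← pow_add, Nat.sub_add_cancel hia]
  have h6 := (hR K E 3 x).2.2.1 _ _ _ _ (rp_pow hR x D b h1 (a - i)) (rp_pow hR x D _ h3 i)
  rw [← mul_add, Nat.sub_add_cancel hia] at h6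
  rw [h5]
  exact h6

/-- Finiteness over a larger field. -/
theorem fin_up (x : Fin 3 → E)
    (hf : Module.Finite (IntermediateField.adjoin K (Set.range x)) E) (κ : IntermediateField K E) :
    Module.Finite (IntermediateField.adjoin κ (Set.range x)) E := by
  have h3 : IntermediateField.adjoin K (Set.range x) ≤
      (IntermediateField.adjoin κ (Set.range x)).restrictScalars K := by
    rw [IntermediateField.adjoin_le_iff]
    exact IntermediateField.subset_adjoin κ _
  obtain ⟨t, ht⟩ :=
    (Module.Finite.fg_top : (⊤ : Submodule (IntermediateField.adjoin K (Set.range x)) E).FG)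
  refine ⟨t, ?_⟩
  rw [eq_top_iff]
  intro z _
  have hz : z ∈ Submodule.span (IntermediateField.adjoin K (Set.range x)) (t : Set E) := by
    rw [ht]
    exact Submodule.mem_top
  refine Submodule.span_induction (fun u hu => Submodule.subset_span hu) (Submodule.zero_mem _)
    (fun u v _ _ hu hv => Submodule.add_mem _ hu hv) (fun a u _ hu => ?_) hz
  have h5 : a • u = (⟨(a : E), h3 a.2⟩ : IntermediateField.adjoin κ (Set.range x)) • u := rfl
  rw [h5]
  exact Submodule.smul_mem _ _ hu

end

end T3DgBM

open T3DgBM in
/-- (DgB) The degrees are bounded. -/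
theorem yDgB : StmtRpA → StmtRpD → StmtBZ1 → StmtBZ2 → StmtDgT → StmtDgB := by
  intro hR hRD hB1 hB2 hT K E _ _ _ _ ξ hξ g
  have hK : Infinite K := Infinite.of_injective (Nat.cast : ℕ → K) Nat.cast_injective
  have hf := fin_base ξ hξ
  have hx := hξ.ai
  set x : Fin 3 → E := fun i => ξ i.succ with hxd
  have htr := trdeg_of x hx hf
  obtain ⟨b, D, hb, hD1, hRb, hRg⟩ := den hR x hx hf g
  constructor
  · refine ⟨2 * D * Module.finrank (IntermediateField.adjoin K (Set.range x)) E, ?_⟩
    rintro _ ⟨⟨A, B⟩, rfl⟩
    change Module.finrank (IntermediateField.adjoin K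
        (Set.range (lc A x) ∪ Set.range (lc B g))) E ≤ _
    by_cases h0 : Module.finrank (IntermediateField.adjoin K
        (Set.range (lc A x) ∪ Set.range (lc B g))) E = 0
    · rw [h0]
      exact Nat.zero_le _
    have hfin : Module.Finite (IntermediateField.adjoin K
        (Set.range (lc A x) ∪ Set.range (lc B g))) E :=
      Module.finite_of_finrank_pos (Nat.pos_of_ne_zero h0)
    have hind := ind_over (by norm_num : 2 + 1 = 3) htr (lc A x) (lc B g) hfin
    have htrans : Transcendental (IntermediateField.adjoin K (Set.range (lc A x))) (lc B g 0) :=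
      hind.transcendental 0
    have hB : Set.range (lc B g) = {lc B g 0} := by
      ext y
      rw [Set.mem_range, Set.mem_singleton_iff]
      constructor
      · rintro ⟨i, rfl⟩
        rw [Subsingleton.elim i 0]
      · rintro rfl
        exact ⟨0, rfl⟩
    have hκ : (IntermediateField.adjoin (IntermediateField.adjoin K (Set.range (lc A x)))
        {lc B g 0}).restrictScalars K = IntermediateField.adjoin K
        (Set.range (lc A x) ∪ Set.range (lc B g)) := by
      rw [IntermediateField.adjoin_adjoin_left, hB]
    have h1 := hB1 K E (IntermediateField.adjoin K (Set.range (lc A x))) 3 x (lc B g 0) D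
      (Module.finrank (IntermediateField.adjoin K (Set.range x)) E) (fin_up x hf _)
      (fun A' => lin_le (by norm_num : 2 + 1 = 3) x hx hf A A') hD1
      (hT.1 K E 3 x _ D (dge_of hR hRD x hx hf g b D hb hRb hRg B 0) _) htrans
    rw [← hκ]
    exact h1
  · refine ⟨9 * D * D * Module.finrank (IntermediateField.adjoin K (Set.range x)) E, ?_⟩
    rintro _ ⟨⟨A, B⟩, rfl⟩
    change Module.finrank (IntermediateField.adjoin K
        (Set.range (lc A x) ∪ Set.range (lc B g))) E ≤ _
    by_cases h0 : Module.finrank (IntermediateField.adjoin K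
        (Set.range (lc A x) ∪ Set.range (lc B g))) E = 0
    · rw [h0]
      exact Nat.zero_le _
    have hfin : Module.Finite (IntermediateField.adjoin K
        (Set.range (lc A x) ∪ Set.range (lc B g))) E :=
      Module.finite_of_finrank_pos (Nat.pos_of_ne_zero h0)
    have hind := ind_over (by norm_num : 1 + 2 = 3) htr (lc A x) (lc B g) hfin
    have hvec : lc B g = ![lc B g 0, lc B g 1] := by
      funext i
      fin_cases i
      · rfl
      · rfl
    have hB : Set.range (lc B g) = {lc B g 0, lc B g 1} := by
      ext y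
      rw [Set.mem_range, Fin.exists_fin_two, Set.mem_insert_iff, Set.mem_singleton_iff, eq_comm,
        @eq_comm _ (lc B g 1)]
    have hκ : (IntermediateField.adjoin (IntermediateField.adjoin K (Set.range (lc A x)))
        {lc B g 0, lc B g 1}).restrictScalars K = IntermediateField.adjoin K
        (Set.range (lc A x) ∪ Set.range (lc B g)) := by
      rw [IntermediateField.adjoin_adjoin_left, hB]
    have hind2 : AlgebraicIndependent (IntermediateField.adjoin K (Set.range (lc A x)))
        ![lc B g 0, lc B g 1] := by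
      rw [← hvec]
      exact hind
    have h1 := hB2 K E (IntermediateField.adjoin K (Set.range (lc A x))) 3 x (lc B g 0) (lc B g 1)
      D D (Module.finrank (IntermediateField.adjoin K (Set.range x)) E) (fin_up x hf _)
      (fun A' => lin_le (by norm_num : 1 + 2 = 3) x hx hf A A') hD1 hD1
      (hT.1 K E 3 x _ D (dge_of hR hRD x hx hf g b D hb hRb hRg B 0) _)
      (hT.1 K E 3 x _ D (dge_of hR hRD x hx hf g b D hb hRb hRg B 1) _) hind2
    rw [← hκ]
    exact h1

end Pool.Agent.Lib.MP_16285c_agX
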