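import Pool.Agent.Lib.MP_16285c_agX.T3.SpecH

/-!
# ZD3X: finiteness over `K(x)` (`StmtStpF`)
-/

set_option autoImplicit false

namespace Pool.Agent.Lib.MP_16285c_agX.T3StpFM

open Pool.Agent.Lib.MP_16285c_ag Pool.Agent.Lib.MP_16285c_agN

variable {K E : Type} [Field K] [Field E] [Algebra K E]

/-- Values of polynomials belong to a subfield containing the coordinates. -/
theorem aeval_mem {n : ℕ} (x : Fin n → E) (L : IntermediateField K E) (h : ∀ i, x i ∈ L) (G : Pl n K) :
    MvPolynomial.aeval x G ∈ L := by
  induction G using MvPolynomial.induction_on with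
  | C a =>
    rw [MvPolynomial.aeval_C]
    exact L.algebraMap_mem a
  | add p q hp hq =>
    rw [map_add]
    exact L.add_mem hp hq
  | mul_X p i hp =>
    rw [map_mul, MvPolynomial.aeval_X]
    exact L.mul_mem hp (h i)

/-- An integral element is integral over every subfield which contains the coordinates. -/
theorem int_of_intx {n : ℕ} (x : Fin n → E) (u : E) (hu : Intx K x u) (L : IntermediateField K E)
    (h : ∀ i, x i ∈ L) : IsIntegral L u := by
  obtain ⟨F, hF, h0⟩ := hu
  let f : Pl n K →+* L :=
    ((MvPolynomial.aeval x : Pl n K →ₐ[K] E) : Pl n K →+* E).codRestrict L (fun G => aeval_mem x L h G)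
  refine ⟨F.map f, hF.map f, ?_⟩
  rw [Polynomial.eval₂_map]
  exact h0

/-- The field is finite over a subfield over which it is algebraic. -/
theorem finite_of_alg {n : ℕ} (ξ : Fin n → E) (hg : IntermediateField.adjoin K (Set.range ξ) = ⊤)
    (L : IntermediateField K E) (hi : ∀ i, IsIntegral L (ξ i)) : FiniteDimensional L E := by
  have h1 : IntermediateField.adjoin L (Set.range ξ) = ⊤ := by
    have : (IntermediateField.adjoin L (Set.range ξ)).restrictScalars K = ⊤ := by
      rw [eq_top_iff, ← hg, IntermediateField.adjoin_le_iff]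
      rintro _ ⟨i, rfl⟩
      exact IntermediateField.subset_adjoin L _ ⟨i, rfl⟩
    exact IntermediateField.restrictScalars_eq_top_iff.1 this
  have h2 : FiniteDimensional L (IntermediateField.adjoin L (Set.range ξ)) := by
    apply IntermediateField.finiteDimensional_adjoin
    rintro _ ⟨i, rfl⟩
    exact hi i
  rw [h1] at h2
  exact IntermediateField.topEquiv.toLinearEquiv.finiteDimensional

/-- The coordinates are finite over the base. -/
theorem fin_base {n : ℕ} (ξ : Fin (n + 1) → E) (hs : Stp K ξ) :
    FiniteDimensional (IntermediateField.adjoin K (Set.range fun i : Fin n => ξ i.succ)) E := by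
  refine finite_of_alg ξ hs.gen _ ?_
  intro i
  refine Fin.cases ?_ ?_ i
  · exact int_of_intx _ _ hs.int _ fun j => IntermediateField.subset_adjoin K _ ⟨j, rfl⟩
  · intro j
    have hm : ξ j.succ ∈ IntermediateField.adjoin K (Set.range fun i : Fin n => ξ i.succ) :=
      IntermediateField.subset_adjoin K _ ⟨j, rfl⟩
    exact isIntegral_algebraMap (x := (⟨ξ j.succ, hm⟩ :
      IntermediateField.adjoin K (Set.range fun i : Fin n => ξ i.succ)))

end Pool.Agent.Lib.MP_16285c_agX.T3StpFM

namespace Pool.Agent.Lib.MP_16285c_agX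

open Pool.Agent.Lib.MP_16285c_ag Pool.Agent.Lib.MP_16285c_agN

theorem yStpF : StmtStpF := by
  intro K E _ _ _ n ξ hs
  exact T3StpFM.fin_base ξ hs

end Pool.Agent.Lib.MP_16285c_agX
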