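import Pool.Agent.Lib.MP_16285c_agX.T3.SpecA

/-!
# Threefolds with `λ₁ > λ₃`: the degree of a section field

Proof of `StmtE1X`.
-/

set_option autoImplicit false

namespace Pool.Agent.Lib.MP_16285c_agX

open Pool.Agent.Lib.MP_16285c_ag Pool.Agent.Lib.MP_16285c_agN

namespace T3E1XM

open scoped IntermediateField.algebraAdjoinAdjoin

variable {K E : Type} [Field K] [Field E] [Algebra K E]

/-- `E / K(S)` algebraic implies `E` algebraic over the algebra generated by `S`. -/
theorem alg_of_adjoin (S : Set E)
    (h : Algebra.IsAlgebraic (IntermediateField.adjoin K S) E) :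
    Algebra.IsAlgebraic (Algebra.adjoin K S) E :=
  Algebra.IsAlgebraic.trans (Algebra.adjoin K S) (IntermediateField.adjoin K S) E

/-- `E` is finite over a field over which the coordinates are integral. -/
theorem fin_of_int {n : ℕ} (ξ : Fin n → E) (hgen : IntermediateField.adjoin K (Set.range ξ) = ⊤)
    (L : IntermediateField K E) (hL : ∀ i, IsIntegral L (ξ i)) : Module.Finite L E := by
  have h1 : FiniteDimensional L (IntermediateField.adjoin L (Set.range ξ)) := by
    refine IntermediateField.finiteDimensional_adjoin ?_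
    rintro x ⟨i, rfl⟩
    exact hL i
  have h2 : IntermediateField.adjoin L (Set.range ξ) = ⊤ := by
    rw [eq_top_iff]
    intro x _
    have h3 : x ∈ IntermediateField.adjoin K (Set.range ξ) := by
      rw [hgen]
      trivial
    have h4 : IntermediateField.adjoin K (Set.range ξ) ≤
        (IntermediateField.adjoin L (Set.range ξ)).restrictScalars K :=
      IntermediateField.adjoin_le_iff.2 (IntermediateField.subset_adjoin L (Set.range ξ))
    exact h4 h3
  rw [h2] at h1
  exact Module.Finite.equiv (IntermediateField.topEquiv (F := L) (E := E)).toLinearEquiv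

/-- Integral elements are integral over `K(x)`. -/
theorem int_of_intx {n : ℕ} (x : Fin n → E) (u : E) (h : Intx K x u) :
    IsIntegral (IntermediateField.adjoin K (Set.range x)) u := by
  obtain ⟨F, hF, h0⟩ := h
  have hmem : ∀ G : Pl n K, MvPolynomial.aeval x G ∈ IntermediateField.adjoin K (Set.range x) := by
    intro G
    induction G using MvPolynomial.induction_on with
    | C a =>
      rw [MvPolynomial.aeval_C]
      exact (IntermediateField.adjoin K (Set.range x)).algebraMap_mem a
    | add p q hp hq =>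
      rw [map_add]
      exact add_mem hp hq
    | mul_X p i hp =>
      rw [map_mul, MvPolynomial.aeval_X]
      exact mul_mem hp (IntermediateField.subset_adjoin _ _ ⟨i, rfl⟩)
  let θ : Pl n K →+* IntermediateField.adjoin K (Set.range x) :=
    ((MvPolynomial.aeval x : Pl n K →ₐ[K] E) : Pl n K →+* E).codRestrict
      (IntermediateField.adjoin K (Set.range x)).toSubfield hmem
  refine ⟨F.map θ, hF.map θ, ?_⟩
  rw [Polynomial.eval₂_map]
  exact h0

theorem fin_x {n : ℕ} (ξ : Fin (n + 1) → E) (hS : Stp K ξ) :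
    Module.Finite (IntermediateField.adjoin K (Set.range fun i : Fin n => ξ i.succ)) E := by
  refine fin_of_int ξ hS.gen _ fun i => ?_
  refine Fin.cases ?_ (fun j => ?_) i
  · exact int_of_intx _ _ hS.int
  · have h1 : ξ j.succ ∈ IntermediateField.adjoin K (Set.range fun i : Fin n => ξ i.succ) :=
      IntermediateField.subset_adjoin _ _ ⟨j, rfl⟩
    exact isIntegral_algebraMap
      (x := (⟨ξ j.succ, h1⟩ : IntermediateField.adjoin K (Set.range fun i : Fin n => ξ i.succ)))

theorem basis_x {n : ℕ} (ξ : Fin (n + 1) → E) (hS : Stp K ξ) :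
    IsTranscendenceBasis K (fun i : Fin n => ξ i.succ) := by
  have h1 := fin_x ξ hS
  have h2 : Algebra.IsAlgebraic
      (IntermediateField.adjoin K (Set.range fun i : Fin n => ξ i.succ)) E :=
    Algebra.IsAlgebraic.of_finite _ _
  have h3 := alg_of_adjoin _ h2
  exact hS.ai.isTranscendenceBasis_iff_isAlgebraic.2 h3

theorem trdeg_eq {n : ℕ} (ξ : Fin (n + 1) → E) (hS : Stp K ξ) :
    Algebra.trdeg K E = n := by
  have h := (basis_x ξ hS).cardinalMk_eq_trdeg
  rw [Cardinal.mk_fintype, Fintype.card_fin] at h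
  exact h.symm

/-- `E` is finite over a field which contains `n` algebraically independent elements. -/
theorem fin_ai {n : ℕ} (ξ : Fin (n + 1) → E) (hS : Stp K ξ) (y : Fin n → E)
    (hy : AlgebraicIndependent K y) (κ : IntermediateField K E) :
    Module.Finite (IntermediateField.adjoin κ (Set.range y)) E := by
  have h3 : Algebra.trdeg K E ≤ Cardinal.mk (Fin n) := by
    rw [trdeg_eq ξ hS, Cardinal.mk_fintype, Fintype.card_fin]
  have h4 := hy.isTranscendenceBasis_of_trdeg_le_of_finite h3
  have h5 : Algebra.IsAlgebraic (Algebra.adjoin K (Set.range y)) E := h4.isAlgebraic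
  set L := (IntermediateField.adjoin κ (Set.range y)).restrictScalars K with hL
  have h6 : ∀ i, IsIntegral L (ξ i) := by
    intro i
    have h7 : IsAlgebraic (Algebra.adjoin K (Set.range y)) (ξ i) := h5.isAlgebraic (ξ i)
    have hle : Algebra.adjoin K (Set.range y) ≤ L.toSubalgebra := by
      refine Algebra.adjoin_le ?_
      rintro z ⟨j, rfl⟩
      exact IntermediateField.subset_adjoin κ (Set.range y) ⟨j, rfl⟩
    obtain ⟨P, hP, hP0⟩ := h7
    have h8 : IsAlgebraic L (ξ i) := by
      refine ⟨P.map (Subalgebra.inclusion hle).toRingHom, ?_, ?_⟩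
      · intro h9
        refine hP (Polynomial.map_injective _ (Subalgebra.inclusion_injective hle) ?_)
        rw [Polynomial.map_zero]
        exact h9
      · rw [Polynomial.aeval_def, Polynomial.eval₂_map]
        exact hP0
    exact h8.isIntegral
  exact fin_of_int ξ hS.gen L h6

/-- A finite extension of a field generated by three elements. -/
theorem indep (ξ : Fin 4 → E) (hS : Stp K ξ) (a w₁ w₂ : E)
    (h : Module.Finite (IntermediateField.adjoin K {a, w₁, w₂}) E) :
    AlgebraicIndependent (IntermediateField.adjoin K {a}) ![w₁, w₂] := by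
  let t : Fin 2 ⊕ Fin 1 → E := Sum.elim ![w₁, w₂] fun _ => a
  have ht : Set.range t = {a, w₁, w₂} := by
    ext x
    constructor
    · rintro ⟨i, rfl⟩
      rcases i with i | i
      · fin_cases i
        · exact Or.inr (Or.inl rfl)
        · exact Or.inr (Or.inr rfl)
      · exact Or.inl rfl
    · rintro (rfl | rfl | rfl)
      · exact ⟨Sum.inr 0, rfl⟩
      · exact ⟨Sum.inl 0, rfl⟩
      · exact ⟨Sum.inl 1, rfl⟩
  have h1 : Algebra.IsAlgebraic (IntermediateField.adjoin K (Set.range t)) E := by
    rw [ht]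
    exact Algebra.IsAlgebraic.of_finite _ _
  have h2 : Algebra.IsAlgebraic (Algebra.adjoin K (Set.range t)) E := alg_of_adjoin _ h1
  have h3 : Cardinal.mk (Fin 2 ⊕ Fin 1) ≤ Algebra.trdeg K E := by
    rw [trdeg_eq ξ hS, Cardinal.mk_fintype, Fintype.card_sum, Fintype.card_fin, Fintype.card_fin]
  have h4 := Algebra.IsAlgebraic.isTranscendenceBasis_of_le_trdeg_of_finite K t h3
  have h5 : AlgebraicIndependent (Algebra.adjoin K (Set.range fun _ : Fin 1 => a)) ![w₁, w₂] :=
    (AlgebraicIndependent.sumElim_iff.1 h4.1).2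
  have h6 : (Set.range fun _ : Fin 1 => a) = {a} := Set.range_const
  rw [h6] at h5
  exact h5.extendScalars (IntermediateField.adjoin K {a})

/-- Degrees over a field generated in two steps. -/
theorem finrank_two (a : E) (S : Set E) :
    Module.finrank (IntermediateField.adjoin (IntermediateField.adjoin K {a}) S) E =
      Module.finrank (IntermediateField.adjoin K ({a} ∪ S)) E := by
  rw [← IntermediateField.adjoin_adjoin_left K {a} S]
  rfl

theorem tu_eq (u : K) (y : Fin 3 → E) :
    Tu K u y = algebraMap K E 1 + ∑ j : Fin 3, algebraMap K E (u ^ ((j : ℕ) + 1)) * y j := by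
  rw [Tu, luN, Fin.sum_univ_succ, Fin.val_zero, pow_zero, one_mul, Fin.cons_zero, map_one]
  congr 1
  refine Finset.sum_congr rfl fun j _ => ?_
  rw [Fin.cons_succ, Fin.val_succ, map_pow]

end T3E1XM

open T3E1XM in
/-- (E1X) The degree over `K(l(x), T, μ(z))`. -/
theorem yE1X : StmtDg1 → StmtCfD → StmtDgT → StmtBZ2 → StmtE1X := by
  intro hDg hCf hDgT hBZ K E _ _ _ _ ξ hS ρ m u l μ
  obtain ⟨hpos, h21, h12, -, -⟩ := hDg K E ξ hS
  obtain ⟨hd, -⟩ := hpos ρ m
  set x : Fin 3 → E := fun i : Fin 3 => ξ i.succ with hx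
  set y : Fin 3 → E := fun i : Fin 3 => (ρ ^ m) (ξ i.succ) with hy
  set a := ∑ j, algebraMap K E (l j) * ξ j.succ with ha
  set w₁ := Tu K u y with hw₁
  set w₂ := ∑ j, algebraMap K E (μ j) * (ρ ^ (2 * m)) (ξ j.succ) with hw₂
  by_cases h0 : Module.finrank (IntermediateField.adjoin K {a, w₁, w₂}) E = 0
  · rw [h0]
    exact Nat.zero_le _
  have hfin : Module.Finite (IntermediateField.adjoin K {a, w₁, w₂}) E :=
    Module.finite_of_finrank_pos (Nat.pos_of_ne_zero h0)
  have hai := indep ξ hS a w₁ w₂ hfin
  have hb : ∀ A : Fin 2 → Fin 3 → K, Module.finrank (IntermediateField.adjoin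
      (IntermediateField.adjoin K {a}) (Set.range (lc A y))) E ≤ dgx K 1 2 x y := by
    intro A
    have h1 := h12 y (fun _ => l) A
    have h2 : Set.range (lc (fun _ : Fin 1 => l) fun i : Fin 3 => ξ i.succ) = {a} :=
      Set.range_const
    rw [h2] at h1
    rw [finrank_two]
    exact h1
  have hyai : AlgebraicIndependent K y := hS.ai.map' (f := ρ ^ m) (ρ ^ m).toRingHom.injective
  -- the first function
  have g₁ : Dge (IntermediateField.adjoin K {a}) y w₁ 1 := by
    refine hDgT.1 K E 3 y w₁ 1 ?_ _
    rw [hw₁, tu_eq]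
    exact hDgT.2.2.1 K E 3 y 1 fun j => u ^ ((j : ℕ) + 1)
  -- the second function
  have g₂ : Dge (IntermediateField.adjoin K {a}) y w₂ (dgx K 2 1 x y) := by
    refine hDgT.1 K E 3 y w₂ _ ?_ _
    have h1 : Dge K x (∑ j, algebraMap K E (μ j) * y j) (dgx K 2 1 x y) := by
      refine hCf K E x hS.ai (fin_x ξ hS) _ _ fun A => ?_
      have h2 := h21 y A fun _ => μ
      have h3 : Set.range (lc (fun _ : Fin 1 => μ) y) = {∑ j, algebraMap K E (μ j) * y j} :=
        Set.range_const
      rw [h3, Set.union_singleton] at h2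
      exact h2
    have h4 := hDgT.2.1 K E 3 x _ _ h1 (ρ ^ m)
    have h5 : (ρ ^ m) (∑ j, algebraMap K E (μ j) * y j) = w₂ := by
      rw [hw₂, map_sum]
      refine Finset.sum_congr rfl fun j _ => ?_
      rw [map_mul, AlgHom.commutes, two_mul, pow_add]
      rfl
    rw [h5] at h4
    exact h4
  have h := hBZ K E (IntermediateField.adjoin K {a}) 3 y w₁ w₂ 1 (dgx K 2 1 x y) (dgx K 1 2 x y)
    (fin_ai ξ hS y hyai _) hb le_rfl hd g₁ g₂ hai
  rw [finrank_two, Set.singleton_union, mul_one] at h
  exact h

end Pool.Agent.Lib.MP_16285c_agX
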