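import Pool.Agent.Lib.MP_16285c_agX.T3.SpecH

/-!
# Lower bound for the values of forms
-/

set_option autoImplicit false

namespace Pool.Agent.Lib.MP_16285c_agX

open Pool.Agent.Lib.MP_16285c_ag Pool.Agent.Lib.MP_16285c_agN

/-- (HLow) Lower bound for the values of forms. -/
theorem yHLow : StmtHUp → StmtHMon → StmtHLow := by
  intro hUp hMon K Ω _ _ _ h ι κ _ _ D M F Q hDM hQ hrel
  classical
  have : Fintype ι := Fintype.ofFinite ι
  obtain ⟨C₁, hC₁⟩ := hUp K Ω h ι (ι × κ) (M - D) (fun t => Q t.1 t.2) fun t => hQ t.1 t.2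
  obtain ⟨C₂, hC₂⟩ := h.lin (ι := (ι × κ) × κ) (κ := ι)
    fun r t => if t.1.1 = r ∧ t.1.2 = t.2 then (1 : Ω) else 0
  refine ⟨C₁ + C₂, fun a => ?_⟩
  have h1 := (hMon Ω h).1 (ι × κ) κ (fun t => MvPolynomial.aeval a (Q t.1 t.2))
    fun k => MvPolynomial.aeval a (F k)
  have h2 := hC₂ fun t : (ι × κ) × κ =>
    MvPolynomial.aeval a (Q t.1.1 t.1.2) * MvPolynomial.aeval a (F t.2)
  have h3 : (fun r : ι => ∑ t : (ι × κ) × κ, (if t.1.1 = r ∧ t.1.2 = t.2 then (1 : Ω) else 0) *
      (MvPolynomial.aeval a (Q t.1.1 t.1.2) * MvPolynomial.aeval a (F t.2))) = fun r => a r ^ M := by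
    funext r
    have h4 : a r ^ M = ∑ k, MvPolynomial.aeval a (Q r k) * MvPolynomial.aeval a (F k) := by
      have h5 := congrArg (MvPolynomial.aeval a) (hrel r)
      rw [map_pow, MvPolynomial.aeval_X, map_sum] at h5
      rw [h5]
      exact Finset.sum_congr rfl fun k _ => map_mul _ _ _
    rw [h4, Fintype.sum_prod_type, Fintype.sum_prod_type, Finset.sum_eq_single r]
    · refine Finset.sum_congr rfl fun k _ => ?_
      rw [Finset.sum_eq_single k]
      · rw [if_pos ⟨rfl, rfl⟩, one_mul]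
      · intro k' _ hk'
        rw [if_neg, zero_mul]
        rintro ⟨-, h6⟩
        exact hk' h6.symm
      · intro h6
        exact absurd (Finset.mem_univ k) h6
    · intro r' _ hr'
      refine Finset.sum_eq_zero fun k _ => Finset.sum_eq_zero fun k' _ => ?_
      rw [if_neg, zero_mul]
      rintro ⟨h6, -⟩
      exact hr' h6
    · intro h6
      exact absurd (Finset.mem_univ r) h6
  rw [h3, h.pow] at h2
  have h7 := hC₁ a
  have h8 : ((M - D : ℕ) : ℝ) = (M : ℝ) - D := Nat.cast_sub hDM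
  rw [h8] at h7
  linarith

end Pool.Agent.Lib.MP_16285c_agX
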