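import Pool.Agent.Lib.MP_16285c_agX.T3.SpecH
import Pool.Agent.Lib.MP_16285c_agN.T3.XLow

/-!
# Threefolds: absolute heights of products of linear forms (module HLu)
-/

set_option autoImplicit false

namespace Pool.Agent.Lib.MP_16285c_agX

open Pool.Agent.Lib.MP_16285c_agN

namespace T3HLuM

open Pool.Agent.Lib.MP_16285c_agN.T3XLowM in
theorem comb (K₀ : Type) [Field K₀] (n : ℕ) (s : Finset K₀) (N : ℕ) (hn : N + n ≤ s.card)
    (K : Type) [Field K] [Algebra K₀ K] (k : Fin (n + 1)) :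
    ∃ c : ↥(Finset.powersetCard N s) → K, ∀ a : Fin (n + 1) → K,
      ∑ t, c t * ∏ u ∈ (t : Finset K₀), luN (algebraMap K₀ K u) a = a k ^ N := by
  classical
  have h := span_pow (K := K) k N s hn
  have e : pr K n '' {t : Finset K₀ | t ⊆ s ∧ t.card = N} =
      Set.range (fun t : ↥(Finset.powersetCard N s) => pr K n (t : Finset K₀)) := by
    ext φ
    constructor
    · rintro ⟨t, ht, rfl⟩
      exact ⟨⟨t, Finset.mem_powersetCard.2 ht⟩, rfl⟩
    · rintro ⟨t, rfl⟩
      exact ⟨t, Finset.mem_powersetCard.1 t.2, rfl⟩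
  rw [e, Submodule.mem_span_range_iff_exists_fun] at h
  obtain ⟨c, hc⟩ := h
  refine ⟨c, fun a => ?_⟩
  have := congrFun hc a
  rw [Finset.sum_apply] at this
  exact this

end T3HLuM

theorem yHLu : StmtHLu := by
  intro K₀ _ n s N hn Ω _ _ h
  choose c hc using T3HLuM.comb K₀ n s N hn Ω
  obtain ⟨C, hC⟩ := h.lin (ι := ↥(Finset.powersetCard N s)) (κ := Fin (n + 1)) c
  refine ⟨C, fun a => ?_⟩
  have h1 := hC fun t => ∏ u ∈ (t : Finset K₀), luN (algebraMap K₀ Ω u) a
  simp only [hc] at h1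
  rwa [h.pow] at h1

end Pool.Agent.Lib.MP_16285c_agX
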