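import Pool.Agent.Lib.MP_16285c_agX.T3.SpecH

/-!
# Heights of products
-/

set_option autoImplicit false

namespace Pool.Agent.Lib.MP_16285c_agX

open Pool.Agent.Lib.MP_16285c_ag Pool.Agent.Lib.MP_16285c_agN

namespace T3HMonM

theorem part1 {Ω : Type} [Field Ω] (h : HtF Ω) (ι κ : Type) [Finite ι] [Finite κ] (a : ι → Ω)
    (b : κ → Ω) : h.H (fun t : ι × κ => a t.1 * b t.2) ≤ h.H a + h.H b := by
  by_cases ha : a = 0
  · have h1 : (fun t : ι × κ => a t.1 * b t.2) = 0 := by
      funext t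
      rw [ha]
      exact zero_mul _
    rw [h1, h.zero]
    exact add_nonneg (h.nonneg a) (h.nonneg b)
  · by_cases hb : b = 0
    · have h1 : (fun t : ι × κ => a t.1 * b t.2) = 0 := by
        funext t
        rw [hb]
        exact mul_zero _
      rw [h1, h.zero]
      exact add_nonneg (h.nonneg a) (h.nonneg b)
    · exact le_of_eq (h.tens a b ha hb)

theorem part2 {Ω : Type} [Field Ω] (h : HtF Ω) (ι : Type) [Finite ι] (a b : ι → Ω) :
    h.H (fun i => a i * b i) ≤ h.H a + h.H b := by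
  have h1 := h.comp (fun i : ι => (i, i)) (fun t : ι × ι => a t.1 * b t.2)
  exact le_trans h1 (part1 h ι ι a b)

theorem part3 {Ω : Type} [Field Ω] (h : HtF Ω) (ι κ : Type) [Finite ι] [Finite κ] (e : ι ≃ κ)
    (a : κ → Ω) : h.H (a ∘ e) = h.H a := by
  refine le_antisymm (h.comp e a) ?_
  have h1 := h.comp e.symm (a ∘ e)
  have h2 : (a ∘ e) ∘ e.symm = a := by
    funext k
    simp
  rw [h2] at h1
  exact h1

theorem part4 {Ω : Type} [Field Ω] (h : HtF Ω) (ι : Type) [Finite ι] (q : ℕ) (a : ι → Ω) :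
    h.H (fun s : Fin q → ι => ∏ j, a (s j)) ≤ q * h.H a := by
  induction q with
  | zero =>
    have h1 : (fun s : Fin 0 → ι => ∏ j, a (s j)) = fun s : Fin 0 → ι => ((1 : Ω) ^ 0) := by
      funext s
      simp
    rw [h1]
    have h2 := h.pow (fun _ : Fin 0 → ι => (1 : Ω)) 0
    rw [h2]
    simp
  | succ q ih =>
    have h1 : (fun s : Fin (q + 1) → ι => ∏ j, a (s j)) =
        (fun t : ι × (Fin q → ι) => a t.1 * ∏ j, a (t.2 j)) ∘
          (fun s : Fin (q + 1) → ι => (s 0, fun j : Fin q => s j.succ)) := by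
      funext s
      exact Fin.prod_univ_succ _
    rw [h1]
    have h2 := h.comp (fun s : Fin (q + 1) → ι => (s 0, fun j : Fin q => s j.succ))
      (fun t : ι × (Fin q → ι) => a t.1 * ∏ j, a (t.2 j))
    have h3 := part1 h ι (Fin q → ι) a (fun s : Fin q → ι => ∏ j, a (s j))
    refine le_trans h2 (le_trans h3 ?_)
    push_cast
    linarith

end T3HMonM

open T3HMonM

theorem yHMon : StmtHMon :=
  fun _ _ h => ⟨fun ι κ _ _ a b => part1 h ι κ a b, fun ι _ a b => part2 h ι a b,
    fun ι κ _ _ e a => part3 h ι κ e a, fun ι _ q a => part4 h ι q a⟩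

end Pool.Agent.Lib.MP_16285c_agX
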