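import Pool.Agent.Lib.MP_16285c_agX.T3.SpecH
import Pool.Agent.Lib.MP_16285c_agN.T3.XBin

/-!
# Heights of the values of polynomials in one variable (HPo)
-/

set_option autoImplicit false

namespace Pool.Agent.Lib.MP_16285c_agX

namespace T3HPoM

/-- The tuple of the powers. -/
theorem powers (hM : StmtHMon) {Ω : Type} [Field Ω] (h : HtF Ω) (D : ℕ) (v : Ω) :
    h.H (fun i : Fin (D + 1) => v ^ (i : ℕ)) ≤ D * h.H ![1, v] := by
  classical
  let e : Fin (D + 1) → (Fin D → Fin 2) := fun i j => if (j : ℕ) < i then 1 else 0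
  have h1 : (fun i : Fin (D + 1) => v ^ (i : ℕ)) =
      (fun s : Fin D → Fin 2 => ∏ j, (![1, v] : Fin 2 → Ω) (s j)) ∘ e := by
    funext i
    have h2 : ∀ j : Fin D, (![1, v] : Fin 2 → Ω) (e i j) = if (j : ℕ) < i then v else 1 := by
      intro j
      by_cases hj : (j : ℕ) < i
      · simp [e, hj]
      · simp [e, hj]
    have h3 : (Finset.univ.filter fun j : Fin D => (j : ℕ) < i).card = (i : ℕ) := by
      have h4 : (Finset.univ.filter fun j : Fin D => (j : ℕ) < i) =
          (Finset.range i).attachFin (fun m hm => by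
            have := Finset.mem_range.1 hm
            have := i.2
            omega) := by
        ext j
        simp [Finset.mem_attachFin]
      rw [h4, Finset.card_attachFin, Finset.card_range]
    simp only [Function.comp_apply, h2]
    rw [Finset.prod_ite, Finset.prod_const, Finset.prod_const_one, mul_one, h3]
  rw [h1]
  exact (h.comp e _).trans ((hM Ω h).2.2.2 (Fin 2) D ![1, v])

/-- The value of a polynomial. -/
theorem val {K Ω : Type} [Field K] [Field Ω] [Algebra K Ω] (p : Polynomial K) (D : ℕ)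
    (hp : p.natDegree < D + 1) (v : Ω) :
    Polynomial.aeval v p = ∑ i : Fin (D + 1), algebraMap K Ω (p.coeff i) * v ^ (i : ℕ) := by
  rw [Polynomial.aeval_eq_sum_range' hp,
    ← Fin.sum_univ_eq_sum_range (fun i => p.coeff i • v ^ i)]
  exact Finset.sum_congr rfl fun i _ => by rw [Algebra.smul_def]

end T3HPoM

open T3HPoM in
/-- (HPo) -/
theorem yHPo : StmtHMon → StmtHPo := by
  classical
  intro hM
  refine ⟨?_, ?_⟩
  · intro K Ω _ _ _ h ι _ g D hD
    obtain ⟨C, hC⟩ := h.lin (ι := Fin (D + 1)) (κ := ι)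
      fun j i => algebraMap K Ω ((g j).coeff i)
    refine ⟨C, fun v => ?_⟩
    have h1 := hC fun i : Fin (D + 1) => v ^ (i : ℕ)
    have h2 : (fun j => Polynomial.aeval v (g j)) =
        fun j => ∑ i : Fin (D + 1), algebraMap K Ω ((g j).coeff i) * v ^ (i : ℕ) :=
      funext fun j => val (g j) D (Nat.lt_succ_of_le (hD j)) v
    rw [h2]
    have h3 := powers hM h D v
    linarith
  · intro K Ω _ _ _ h n g d _hg hd hspan
    rcases Nat.eq_zero_or_pos d with rfl | hd0
    · refine ⟨0, fun v => ?_⟩
      rw [Nat.cast_zero, zero_mul, add_zero]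
      exact h.nonneg _
    obtain ⟨M, A, B, hA, hB, hA1, hB1⟩ := Pool.Agent.Lib.MP_16285c_agN.T3XBinM.comb g d hd0 hd hspan
    obtain ⟨C, hC⟩ := h.lin (ι := Fin (M + 1) × Fin (n + 1)) (κ := Fin 2)
      fun e c => algebraMap K Ω (if e = 0 then (B c.2).coeff c.1 else (A c.2).coeff c.1)
    refine ⟨C, fun v => ?_⟩
    have h1 := hC fun t : Fin (M + 1) × Fin (n + 1) => v ^ (t.1 : ℕ) * Polynomial.aeval v (g t.2)
    have hsum : ∀ (Q : Fin (n + 1) → Polynomial K), (∀ i, (Q i).natDegree < M + 1) →
        ∑ t : Fin (M + 1) × Fin (n + 1), algebraMap K Ω ((Q t.2).coeff t.1) *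
          (v ^ (t.1 : ℕ) * Polynomial.aeval v (g t.2)) =
        Polynomial.aeval v (∑ i, Q i * g i) := by
      intro Q hQ
      rw [Fintype.sum_prod_type, Finset.sum_comm, map_sum]
      refine Finset.sum_congr rfl fun i _ => ?_
      rw [map_mul, val (Q i) M (hQ i) v, Finset.sum_mul]
      exact Finset.sum_congr rfl fun j _ => by ring
    have hvec : (fun e : Fin 2 => ∑ t : Fin (M + 1) × Fin (n + 1),
        algebraMap K Ω (if e = 0 then (B t.2).coeff t.1 else (A t.2).coeff t.1) *
          (v ^ (t.1 : ℕ) * Polynomial.aeval v (g t.2))) =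
        fun e => (![1, v] : Fin 2 → Ω) e ^ (M + d) := by
      funext e
      fin_cases e
      · have h2 := hsum B hB
        rw [hB1, map_one] at h2
        simpa using h2
      · have h2 := hsum A hA
        rw [hA1, map_pow, Polynomial.aeval_X] at h2
        simpa using h2
    rw [hvec, h.pow] at h1
    have h3 := (hM Ω h).1 (Fin (M + 1)) (Fin (n + 1)) (fun i => v ^ (i : ℕ))
      fun i => Polynomial.aeval v (g i)
    have h4 := powers hM h M v
    push_cast at h1
    linarith

end Pool.Agent.Lib.MP_16285c_agX
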