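import Pool.Agent.Lib.MP_16285c_agX.T3.SpecH

/-!
# Upper bound for the values of forms (HUp)

The function `a ↦ aeval a G`, `G` homogeneous of degree `e`, is in the span of the functions
`a ↦ ∏ j, a (s j)`, `s : Fin e → ι`; so the tuple of the values is the image of the tuple of these
products under a fixed matrix.
-/

set_option autoImplicit false

namespace Pool.Agent.Lib.MP_16285c_agX

open Pool.Agent.Lib.MP_16285c_ag Pool.Agent.Lib.MP_16285c_agN

namespace T3HUpM

/-- The values of a form are a fixed combination of the products of `e` variables. -/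
theorem val_comb (hS : StmtHSeq) (K Ω : Type) [Field K] [Field Ω] [Algebra K Ω] (ι : Type) [Fintype ι]
    (e : ℕ) (G : MvPolynomial ι K) (hG : G.IsHomogeneous e) :
    ∃ A : (Fin e → ι) → Ω, ∀ a : ι → Ω,
      MvPolynomial.aeval a G = ∑ s, A s * ∏ j, a (s j) := by
  classical
  have hmem : (fun a : ι → Ω => MvPolynomial.aeval a G) ∈
      Submodule.span Ω (Set.range fun (s : Fin e → ι) (a : ι → Ω) => ∏ j, a (s j)) := by
    have hfun : (fun a : ι → Ω => MvPolynomial.aeval a G) =
        ∑ α ∈ G.support, algebraMap K Ω (G.coeff α) • fun a : ι → Ω => α.prod fun i n => a i ^ n := by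
      funext a
      rw [Finset.sum_apply, MvPolynomial.aeval_def, MvPolynomial.eval₂_eq']
      refine Finset.sum_congr rfl fun α _ => ?_
      rw [Pi.smul_apply, smul_eq_mul, Finsupp.prod_fintype _ _ fun i => pow_zero _]
    rw [hfun]
    refine Submodule.sum_mem _ fun α hα => Submodule.smul_mem _ _ ?_
    have hdeg : (α.sum fun _ n => n) = e := by
      have h1 := hG (MvPolynomial.mem_support_iff.mp hα)
      rw [← h1, Finsupp.weight_apply]
      exact Finsupp.sum_congr fun i _ => by simp
    obtain ⟨s, hs⟩ := hS ι e α hdeg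
    exact Submodule.subset_span ⟨s, funext fun a => hs Ω a⟩
  obtain ⟨A, hA⟩ := (Submodule.mem_span_range_iff_exists_fun Ω).mp hmem
  refine ⟨A, fun a => ?_⟩
  have h := congrFun hA a
  rw [Finset.sum_apply] at h
  rw [← h]
  rfl

end T3HUpM

theorem yHUp : StmtHSeq → StmtHMon → StmtHUp := by
  intro hS hM K Ω _ _ _ h ι κ _ _ e G hG
  haveI : Fintype ι := Fintype.ofFinite ι
  choose A hA using fun k => T3HUpM.val_comb hS K Ω ι e (G k) (hG k)
  obtain ⟨C, hC⟩ := h.lin (fun k s => A k s)
  refine ⟨C, fun a => ?_⟩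
  have h1 : (fun k => MvPolynomial.aeval a (G k)) = fun k => ∑ s, A k s * ∏ j, a (s j) :=
    funext fun k => hA k a
  rw [h1]
  have h2 := hC fun s => ∏ j, a (s j)
  have h3 := (hM Ω h).2.2.2 ι e a
  linarith

end Pool.Agent.Lib.MP_16285c_agX
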