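import Pool.Agent.Lib.MP_16285c_agX.T3.SpecH

/-!
# Heights: upper bound for bihomogeneous forms (HUpB)
-/

set_option autoImplicit false

namespace Pool.Agent.Lib.MP_16285c_agX

open Pool.Agent.Lib.MP_16285c_ag Pool.Agent.Lib.MP_16285c_agN

namespace T3HUpBM

section

variable {K Ω : Type} [Field K] [Field Ω] [Algebra K Ω]

/-- The products of the coordinates. -/
def W (n m P q : ℕ) (i : (Fin P → Fin (n + 1)) × (Fin q → Fin m)) :
    (Fin n → Ω) × (Fin m → Ω) → Ω :=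
  fun y => (∏ j, hcN y.1 (i.1 j)) * ∏ j, y.2 (i.2 j)

theorem val_mem (hS : StmtHSeq) (n m P q : ℕ) (G : MvPolynomial (Fin m) (Pl n K))
    (hG : G.IsHomogeneous q) (hP : ∀ α, (G.coeff α).totalDegree ≤ P) :
    (fun y : (Fin n → Ω) × (Fin m → Ω) =>
      MvPolynomial.eval₂ ((MvPolynomial.aeval y.1 : Pl n K →ₐ[K] Ω) : Pl n K →+* Ω) y.2 G) ∈
      Submodule.span Ω (Set.range (W (Ω := Ω) n m P q)) := by
  classical
  have e : (fun y : (Fin n → Ω) × (Fin m → Ω) =>
      MvPolynomial.eval₂ ((MvPolynomial.aeval y.1 : Pl n K →ₐ[K] Ω) : Pl n K →+* Ω) y.2 G) =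
      ∑ α ∈ G.support, ∑ β ∈ (G.coeff α).support, algebraMap K Ω ((G.coeff α).coeff β) •
        fun y : (Fin n → Ω) × (Fin m → Ω) => (∏ i, y.1 i ^ β i) * ∏ i, y.2 i ^ α i := by
    funext y
    rw [MvPolynomial.eval₂_eq', Finset.sum_apply]
    refine Finset.sum_congr rfl fun α _ => ?_
    change MvPolynomial.aeval y.1 (G.coeff α) * _ = _
    rw [MvPolynomial.aeval_def, MvPolynomial.eval₂_eq', Finset.sum_mul, Finset.sum_apply]
    refine Finset.sum_congr rfl fun β _ => ?_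
    rw [Pi.smul_apply, smul_eq_mul]
    ring
  rw [e]
  refine Submodule.sum_mem _ fun α hα => Submodule.sum_mem _ fun β hβ =>
    Submodule.smul_mem _ _ (Submodule.subset_span ?_)
  have hα' : (α.sum fun _ e => e) = q := by
    have h := hG (MvPolynomial.mem_support_iff.1 hα)
    rw [Finsupp.weight_apply, Finsupp.sum_fintype _ _ (fun i => by simp)] at h
    rw [Finsupp.sum_fintype _ _ (fun i => rfl)]
    simpa using h
  have hβ' : (β.sum fun _ e => e) ≤ P := (MvPolynomial.le_totalDegree hβ).trans (hP α)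
  have hβ'' : ((Finsupp.cons (P - β.sum fun _ e => e) β).sum fun _ e => e) = P := by
    rw [Finsupp.sum_cons]
    omega
  obtain ⟨s, hs⟩ := hS _ P _ hβ''
  obtain ⟨s', hs'⟩ := hS _ q α hα'
  refine ⟨(s, s'), funext fun y => ?_⟩
  rw [W]
  simp only [hs, hs']
  rw [Finsupp.prod_fintype _ _ (fun i => pow_zero _), Finsupp.prod_fintype _ _ (fun i => pow_zero _),
    Fin.prod_univ_succ, Finsupp.cons_zero]
  have h0 : hcN y.1 0 = 1 := rfl
  have h1 : ∀ i : Fin n, hcN y.1 i.succ = y.1 i := fun i => rfl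
  rw [h0, one_pow, one_mul]
  simp only [h1, Finsupp.cons_succ]

end

end T3HUpBM

open T3HUpBM in
theorem yHUpB : StmtHSeq → StmtHMon → StmtHUpB := by
  classical
  intro hS hM K Ω _ _ _ h ι _ n m P q G hG hP
  have key : ∀ t, ∃ c : (Fin P → Fin (n + 1)) × (Fin q → Fin m) → Ω,
      ∑ i, c i • W (Ω := Ω) n m P q i =
      fun y : (Fin n → Ω) × (Fin m → Ω) =>
        MvPolynomial.eval₂ ((MvPolynomial.aeval y.1 : Pl n K →ₐ[K] Ω) : Pl n K →+* Ω) y.2 (G t) :=
    fun t => (Submodule.mem_span_range_iff_exists_fun Ω).1 (val_mem hS n m P q (G t) (hG t) (hP t))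
  choose c hc using key
  obtain ⟨C, hC⟩ := h.lin c
  refine ⟨C, fun x z => ?_⟩
  have e : (fun t => MvPolynomial.eval₂
      ((MvPolynomial.aeval x : Pl n K →ₐ[K] Ω) : Pl n K →+* Ω) z (G t)) =
      fun t => ∑ i, c t i * W (Ω := Ω) n m P q i (x, z) := by
    funext t
    have h := congrFun (hc t) (x, z)
    rw [Finset.sum_apply] at h
    exact h.symm
  rw [e]
  have h1 := hC fun i => W (Ω := Ω) n m P q i (x, z)
  have h2 : h.H (fun i => W (Ω := Ω) n m P q i (x, z)) ≤ P * h.H (hcN x) + q * h.H z :=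
    ((hM Ω h).1 _ _ (fun s : Fin P → Fin (n + 1) => ∏ j, hcN x (s j))
      (fun s : Fin q → Fin m => ∏ j, z (s j))).trans
      (add_le_add ((hM Ω h).2.2.2 _ P _) ((hM Ω h).2.2.2 _ q _))
  linarith

end Pool.Agent.Lib.MP_16285c_agX
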