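import Pool.Agent.Lib.MP_16285c_agX.T3.SpecH

/-!
# Values of rational functions at a point (HVa)
-/

set_option autoImplicit false

namespace Pool.Agent.Lib.MP_16285c_agX

open Pool.Agent.Lib.MP_16285c_ag Pool.Agent.Lib.MP_16285c_agN

namespace T3HVaM

variable {K E Ω : Type} [Field K] [Field E] [Field Ω] [Algebra K E] [Algebra K Ω] {n : ℕ}
  {ξ : Fin n → E} {pt : Fin n → Ω}

lemma val (G : Pl n K) : VlX K ξ pt (MvPolynomial.aeval ξ G) (MvPolynomial.aeval pt G) :=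
  ⟨G, 1, by simp, by simp, by simp⟩

lemma add {a b : E} {v w : Ω} (ha : VlX K ξ pt a v) (hb : VlX K ξ pt b w) :
    VlX K ξ pt (a + b) (v + w) := by
  obtain ⟨A, B, hB, hA, hv⟩ := ha
  obtain ⟨A', B', hB', hA', hw⟩ := hb
  refine ⟨A * B' + A' * B, B * B', ?_, ?_, ?_⟩
  · rw [map_mul]
    exact mul_ne_zero hB hB'
  · rw [map_add, map_mul, map_mul, map_mul, ← hA, ← hA']
    ring
  · rw [map_add, map_mul, map_mul, map_mul, hv, hw]
    ring

lemma mul {a b : E} {v w : Ω} (ha : VlX K ξ pt a v) (hb : VlX K ξ pt b w) :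
    VlX K ξ pt (a * b) (v * w) := by
  obtain ⟨A, B, hB, hA, hv⟩ := ha
  obtain ⟨A', B', hB', hA', hw⟩ := hb
  refine ⟨A * A', B * B', ?_, ?_, ?_⟩
  · rw [map_mul]
    exact mul_ne_zero hB hB'
  · rw [map_mul, map_mul, ← hA, ← hA']
    ring
  · rw [map_mul, map_mul, hv, hw]
    ring

lemma neg {a : E} {v : Ω} (ha : VlX K ξ pt a v) : VlX K ξ pt (-a) (-v) := by
  obtain ⟨A, B, hB, hA, hv⟩ := ha
  refine ⟨-A, B, hB, ?_, ?_⟩
  · rw [map_neg, ← hA]
    ring
  · rw [map_neg, hv]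
    ring

lemma uniq (hO : OnX K ξ pt) {h : E} {v v' : Ω} (h1 : VlX K ξ pt h v) (h2 : VlX K ξ pt h v') :
    v = v' := by
  obtain ⟨A, B, hB, hA, hv⟩ := h1
  obtain ⟨A', B', hB', hA', hv'⟩ := h2
  have h0 : MvPolynomial.aeval ξ (A * B' - A' * B) = 0 := by
    rw [map_sub, map_mul, map_mul, ← hA, ← hA']
    ring
  have h3 := hO _ h0
  rw [map_sub, map_mul, map_mul, hv, hv'] at h3
  have h4 : (v - v') * (MvPolynomial.aeval pt B * MvPolynomial.aeval pt B') = 0 := by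
    linear_combination h3
  rcases mul_eq_zero.1 h4 with h5 | h5
  · exact sub_eq_zero.1 h5
  · exact absurd h5 (mul_ne_zero hB hB')

lemma inv (hO : OnX K ξ pt) {a : E} {v : Ω} (ha : VlX K ξ pt a v) (hv0 : v ≠ 0) :
    a ≠ 0 ∧ VlX K ξ pt a⁻¹ v⁻¹ := by
  obtain ⟨A, B, hB, hA, hv⟩ := ha
  have hApt : MvPolynomial.aeval pt A ≠ 0 := by
    rw [hv]
    exact mul_ne_zero hv0 hB
  have hAξ : MvPolynomial.aeval ξ A ≠ 0 := fun h0 => hApt (hO A h0)
  have ha0 : a ≠ 0 := by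
    intro h0
    rw [h0, zero_mul] at hA
    exact hAξ hA.symm
  refine ⟨ha0, B, A, hApt, ?_, ?_⟩
  · rw [← hA, ← mul_assoc, inv_mul_cancel₀ ha0, one_mul]
  · rw [hv, ← mul_assoc, inv_mul_cancel₀ hv0, one_mul]

lemma sums {m : Type} (s : Finset m) (a : m → E) (v : m → Ω)
    (h : ∀ i ∈ s, VlX K ξ pt (a i) (v i)) :
    VlX K ξ pt (∑ i ∈ s, a i) (∑ i ∈ s, v i) ∧ VlX K ξ pt (∏ i ∈ s, a i) (∏ i ∈ s, v i) := by
  classical
  induction s using Finset.induction_on with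
  | empty =>
    refine ⟨?_, ?_⟩
    · have h1 := val (ξ := ξ) (pt := pt) (0 : Pl n K)
      simpa using h1
    · have h1 := val (ξ := ξ) (pt := pt) (1 : Pl n K)
      simpa using h1
  | insert i s hi ih =>
    have h1 := ih fun k hk => h k (Finset.mem_insert_of_mem hk)
    have h2 := h i (Finset.mem_insert_self _ _)
    rw [Finset.sum_insert hi, Finset.sum_insert hi, Finset.prod_insert hi, Finset.prod_insert hi]
    exact ⟨add h2 h1.1, mul h2 h1.2⟩

end T3HVaM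

/-- (HVa) Values of rational functions. -/
theorem yHVa : StmtHVa := by
  intro K E Ω _ _ _ _ _ n ξ pt hO
  exact ⟨fun G => T3HVaM.val G, fun a b v w ha hb => T3HVaM.add ha hb,
    fun a b v w ha hb => T3HVaM.mul ha hb, fun a v ha => T3HVaM.neg ha,
    fun a v v' h1 h2 => T3HVaM.uniq hO h1 h2, fun a v ha hv => T3HVaM.inv hO ha hv,
    fun m s a v h => T3HVaM.sums s a v h⟩

end Pool.Agent.Lib.MP_16285c_agX
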