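import Pool.Agent.Lib.MP_16285c_agX.T3.SpecH

/-!
# Values of polynomial expressions (`StmtHVb`)
-/

set_option autoImplicit false

namespace Pool.Agent.Lib.MP_16285c_agX

open Pool.Agent.Lib.MP_16285c_ag Pool.Agent.Lib.MP_16285c_agN

namespace T3HVbM

variable {K E Ω : Type} [Field K] [Field E] [Field Ω] [Algebra K E] [Algebra K Ω] {n : ℕ}
  {ξ : Fin n → E} {pt : Fin n → Ω}

lemma pw (h0 : ∀ G : Pl n K, VlX K ξ pt (MvPolynomial.aeval ξ G) (MvPolynomial.aeval pt G))
    (hm : ∀ (a b : E) (v w : Ω), VlX K ξ pt a v → VlX K ξ pt b w → VlX K ξ pt (a * b) (v * w))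
    {a : E} {v : Ω} (h : VlX K ξ pt a v) (k : ℕ) : VlX K ξ pt (a ^ k) (v ^ k) := by
  induction k with
  | zero =>
    rw [pow_zero, pow_zero]
    have h1 := h0 1
    rwa [map_one, map_one] at h1
  | succ k ih =>
    rw [pow_succ, pow_succ]
    exact hm _ _ _ _ ih h

end T3HVbM

open T3HVbM

theorem yHVb : StmtHVa → StmtHVb := by
  intro hVa K E Ω _ _ _ _ _ n ξ pt hO
  obtain ⟨h0, ha, hm, -, -, -, hs⟩ := hVa K E Ω n ξ pt hO
  refine ⟨?_, ?_⟩
  · intro m w v hw G
    induction G using MvPolynomial.induction_on with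
    | C a =>
      rw [MvPolynomial.eval₂_C, MvPolynomial.eval₂_C]
      exact h0 a
    | add p q hp hq =>
      rw [MvPolynomial.eval₂_add, MvPolynomial.eval₂_add]
      exact ha _ _ _ _ hp hq
    | mul_X p i hp =>
      rw [MvPolynomial.eval₂_mul, MvPolynomial.eval₂_mul, MvPolynomial.eval₂_X,
        MvPolynomial.eval₂_X]
      exact hm _ _ _ _ hp (hw i)
  · intro m g gv hg u
    have hu : VlX K ξ pt (algebraMap K E u) (algebraMap K Ω u) := by
      have h1 := h0 (MvPolynomial.C u)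
      rwa [MvPolynomial.aeval_C, MvPolynomial.aeval_C] at h1
    have h1 : VlX K ξ pt (1 : E) (1 : Ω) := by
      have h2 := h0 1
      rwa [map_one, map_one] at h2
    unfold Tu luN hcN
    refine (hs _ Finset.univ _ _ fun i _ => ?_).1
    refine hm _ _ _ _ (pw h0 hm hu i) ?_
    refine Fin.cases ?_ (fun j => ?_) i
    · rw [Fin.cons_zero, Fin.cons_zero]
      exact h1
    · rw [Fin.cons_succ, Fin.cons_succ]
      exact hg j

end Pool.Agent.Lib.MP_16285c_agX
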