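import Pool.Agent.Lib.MP_16285c_agX.T3.SpecH

/-!
# The height inequality on a threefold (HtX)
-/

set_option autoImplicit false

namespace Pool.Agent.Lib.MP_16285c_agX

open Pool.Agent.Lib.MP_16285c_ag Pool.Agent.Lib.MP_16285c_agN

namespace T3HtXM

/-- The total degree of a finite sum. -/
lemma totalDegree_sum_le' {K : Type} [Field K] {ι : Type} (s : Finset ι) (f : ι → Pl 4 K) (n : ℕ)
    (h : ∀ i ∈ s, (f i).totalDegree ≤ n) : (∑ i ∈ s, f i).totalDegree ≤ n := by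
  classical
  induction s using Finset.induction_on with
  | empty => simp
  | insert a s ha ih =>
    rw [Finset.sum_insert ha]
    refine (MvPolynomial.totalDegree_add _ _).trans (max_le ?_ ?_)
    · exact h a (Finset.mem_insert_self _ _)
    · exact ih fun i hi => h i (Finset.mem_insert_of_mem hi)

/-- Homogeneous with coefficients of bounded degree. -/
def Bd {K : Type} [Field K] (G : MvPolynomial (Fin 4) (Pl 4 K)) (q P : ℕ) : Prop :=
  G.IsHomogeneous q ∧ ∀ α, (G.coeff α).totalDegree ≤ P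

lemma Bd.mul {K : Type} [Field K] {G H : MvPolynomial (Fin 4) (Pl 4 K)} {q P q' P' : ℕ}
    (h : Bd G q P) (h' : Bd H q' P') : Bd (G * H) (q + q') (P + P') := by
  classical
  refine ⟨h.1.mul h'.1, fun α => ?_⟩
  rw [MvPolynomial.coeff_mul]
  refine totalDegree_sum_le' _ _ _ fun x _ => ?_
  exact (MvPolynomial.totalDegree_mul _ _).trans (add_le_add (h.2 _) (h'.2 _))

lemma Bd.prod {K : Type} [Field K] {ι : Type} (s : Finset ι) (G : ι → MvPolynomial (Fin 4) (Pl 4 K))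
    (q P : ℕ) (h : ∀ u ∈ s, Bd (G u) q P) : Bd (∏ u ∈ s, G u) (s.card * q) (s.card * P) := by
  classical
  induction s using Finset.induction_on with
  | empty =>
    refine ⟨by simpa using MvPolynomial.isHomogeneous_one _ _, fun α => ?_⟩
    rw [Finset.prod_empty, MvPolynomial.coeff_one]
    split_ifs <;> simp
  | insert a s ha ih =>
    rw [Finset.prod_insert ha, Finset.card_insert_of_notMem ha, Nat.succ_mul, Nat.succ_mul,
      add_comm (s.card * q), add_comm (s.card * P)]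
    exact (h a (Finset.mem_insert_self _ _)).mul
      (ih fun i hi => h i (Finset.mem_insert_of_mem hi))

lemma Bd.C {K : Type} [Field K] (S : Pl 4 K) (P : ℕ) (h : S.totalDegree ≤ P) :
    Bd (MvPolynomial.C S : MvPolynomial (Fin 4) (Pl 4 K)) 0 P := by
  classical
  refine ⟨MvPolynomial.isHomogeneous_C _ _, fun α => ?_⟩
  rw [MvPolynomial.coeff_C]
  split_ifs
  · exact h
  · simp

end T3HtXM

theorem yHtX : StmtRpM → StmtRpS → StmtHVa → StmtHVb → StmtHLu → StmtHUpB → StmtHtX := by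
  intro hM hS hVA hVB hLow hUp K E _ _ _ _ ξ hξ g z' Z₀ P₁ j₁ q₁ hZ₀ hint hg hP₁ hj₁ hq₁ hbad
  classical
  obtain ⟨b, c₁, hb, hbM⟩ := hM K E 3 ξ hξ
  obtain ⟨C₀, hC₀⟩ := hS K E ξ hξ g z' Z₀ P₁ j₁ q₁ hint hg
  obtain ⟨C₁, hC₁⟩ : ∃ C₁ : ℕ, C₁ = C₀ + c₁ + 1 := ⟨_, rfl⟩
  obtain ⟨n, hn⟩ : ∃ n : ℕ, n = 3 * C₁ := ⟨_, rfl⟩
  have hn1 : 1 ≤ n := by omega
  obtain ⟨s, hs, hscard⟩ : ∃ s : Finset K,
      (∀ u ∈ s, ∃ i₀ : ℕ, ∀ i, i₀ ≤ i →
        SctX K ξ (Tu K u g) z' Z₀ (P₁ * i) (j₁ * i) (q₁ * i)) ∧ s.card = n + 3 := by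
    have hinf : {u : K | ∃ i₀ : ℕ, ∀ i, i₀ ≤ i →
        SctX K ξ (Tu K u g) z' Z₀ (P₁ * i) (j₁ * i) (q₁ * i)}.Infinite := by
      have hinfK : Infinite K := CharZero.infinite K
      have h1 := hbad.infinite_compl
      refine h1.mono ?_
      intro u hu
      by_contra h2
      exact hu h2
    obtain ⟨s, hsub, hcard⟩ := hinf.exists_subset_card_eq (n + 3)
    exact ⟨s, fun u hu => hsub hu, hcard⟩
  choose! i₀ hi₀ using hs
  obtain ⟨i, hi1, hi2⟩ : ∃ i : ℕ, 1 ≤ i ∧ ∀ u ∈ s, i₀ u ≤ i :=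
    ⟨max 1 (s.sup i₀), le_max_left _ _, fun u hu => le_max_of_le_right (Finset.le_sup hu)⟩
  have hG := fun (u : K) (hu : u ∈ s) => hi₀ u hu i (hi2 u hu)
  unfold SctX at hG
  choose! G S hGhom hGdeg hSne hSint hrel using hG
  obtain ⟨x, hx⟩ : ∃ x : Fin 3 → E, x = fun i => ξ i.succ := ⟨_, rfl⟩
  obtain ⟨z₀, hz₀⟩ : ∃ z₀ : E, z₀ = MvPolynomial.aeval ξ (MvPolynomial.rename Fin.succ Z₀) := ⟨_, rfl⟩
  have hz₀' : MvPolynomial.aeval (fun i : Fin 3 => ξ i.succ) Z₀ = z₀ := by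
    rw [hz₀, MvPolynomial.aeval_rename]
    rfl
  have hz₀ne : z₀ ≠ 0 := by
    rw [← hz₀']
    intro h0
    exact hZ₀ (hξ.ai.eq_zero_of_aeval_eq_zero _ h0)
  obtain ⟨j, hj⟩ : ∃ j : ℕ, j = j₁ * i := ⟨_, rfl⟩
  obtain ⟨P, hP⟩ : ∃ P : ℕ, P = P₁ * i := ⟨_, rfl⟩
  obtain ⟨q, hq⟩ : ∃ q : ℕ, q = q₁ * i := ⟨_, rfl⟩
  have hMex : ∀ u ∈ s, ∃ M : Pl 4 K, M.totalDegree ≤ C₁ * i ∧
      MvPolynomial.aeval ξ b * S u = MvPolynomial.aeval ξ M := by
    intro u hu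
    obtain ⟨M, hMd, hMe⟩ := hbM (C₀ * i) (S u)
      (hC₀ u i (G u) (S u) (hGhom u hu) (hGdeg u hu) (hSint u hu) (hrel u hu))
    refine ⟨M, hMd.trans ?_, hMe⟩
    rw [hC₁]
    nlinarith [Nat.le_mul_of_pos_right c₁ hi1]
  choose! M hMd hMe using hMex
  have hBd : ∀ u ∈ s, T3HtXM.Bd (G u) j P := fun u hu => by
    subst hj hP
    exact ⟨hGhom u hu, hGdeg u hu⟩
  have hMne : ∀ u ∈ s, MvPolynomial.aeval ξ (M u) ≠ 0 := fun u hu => by
    rw [← hMe u hu]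
    exact mul_ne_zero hb (hSne u hu)
  obtain ⟨H, hH⟩ : ∃ H : Finset K → MvPolynomial (Fin 4) (Pl 4 K), H = fun t =>
    (∏ u ∈ t, G u) * ∏ u ∈ s \ t, MvPolynomial.C (M u) := ⟨_, rfl⟩
  obtain ⟨P', hP'⟩ : ∃ P' : ℕ, P' = n * P + 3 * (C₁ * i) := ⟨_, rfl⟩
  have hHBd : ∀ t ∈ Finset.powersetCard n s, T3HtXM.Bd (H t) (n * j) P' := by
    intro t ht
    rw [Finset.mem_powersetCard] at ht
    have h1 := T3HtXM.Bd.prod t G j P fun u hu => hBd u (ht.1 hu)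
    have h2 := T3HtXM.Bd.prod (s \ t) (fun u => MvPolynomial.C (M u)) 0 (C₁ * i)
      fun u hu => T3HtXM.Bd.C _ _ (hMd u (Finset.mem_sdiff.1 hu).1)
    have hc : (s \ t).card = 3 := by
      rw [Finset.card_sdiff_of_subset ht.1, hscard, ht.2]
      omega
    have h3 := h1.mul h2
    rw [ht.2, hc] at h3
    rw [hP', hH]
    simpa using h3
  -- the identity in `E`
  obtain ⟨ev, hev⟩ : ∃ ev : MvPolynomial (Fin 4) (Pl 4 K) →+* E, ev =
      MvPolynomial.eval₂Hom ((MvPolynomial.aeval ξ : Pl 4 K →ₐ[K] E) : Pl 4 K →+* E)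
        (Fin.cons 1 z' : Fin 4 → E) := ⟨_, rfl⟩
  have hrel' : ∀ u ∈ s, z₀ ^ j * ev (G u) = Tu K u g ^ q * S u := by
    intro u hu
    have h1 := hrel u hu
    rw [hz₀', ← hj, ← hq] at h1
    rw [hev]
    exact h1
  have hHval : ∀ t ∈ Finset.powersetCard n s,
      z₀ ^ (n * j) * MvPolynomial.aeval ξ b ^ n * ev (H t) =
      (∏ u ∈ t, Tu K u g) ^ q * ∏ u ∈ s, MvPolynomial.aeval ξ (M u) := by
    intro t ht
    rw [Finset.mem_powersetCard] at ht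
    have e1 : ev (H t) = (∏ u ∈ t, ev (G u)) * ∏ u ∈ s \ t, MvPolynomial.aeval ξ (M u) := by
      rw [hH]
      simp only [map_mul, map_prod]
      congr 1
      refine Finset.prod_congr rfl fun u _ => ?_
      rw [hev]
      simp
    have e2 : z₀ ^ (n * j) * MvPolynomial.aeval ξ b ^ n * ∏ u ∈ t, ev (G u) =
        ∏ u ∈ t, (Tu K u g ^ q * MvPolynomial.aeval ξ (M u)) := by
      have h1 : z₀ ^ (n * j) = ∏ _u ∈ t, z₀ ^ j := by
        rw [Finset.prod_const, ht.2, ← pow_mul, mul_comm n j]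
      have h2 : MvPolynomial.aeval ξ b ^ n = ∏ _u ∈ t, MvPolynomial.aeval ξ b := by
        rw [Finset.prod_const, ht.2]
      rw [h1, h2, ← Finset.prod_mul_distrib, ← Finset.prod_mul_distrib]
      refine Finset.prod_congr rfl fun u hu => ?_
      rw [← hMe u (ht.1 hu)]
      linear_combination (MvPolynomial.aeval ξ b) * hrel' u (ht.1 hu)
    rw [e1, ← mul_assoc, e2, Finset.prod_mul_distrib, Finset.prod_pow, mul_assoc,
      mul_comm (∏ u ∈ t, MvPolynomial.aeval ξ (M u)), Finset.prod_sdiff ht.1]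
  obtain ⟨B, hB⟩ : ∃ B : Pl 4 K, B = b * MvPolynomial.rename Fin.succ Z₀ * ∏ u ∈ s, M u := ⟨_, rfl⟩
  refine ⟨B, ?_, ?_⟩
  · rw [hB, map_mul, map_mul, map_prod, ← hz₀]
    exact mul_ne_zero (mul_ne_zero hb hz₀ne) (Finset.prod_ne_zero_iff.2 hMne)
  intro Ω _ _ h
  obtain ⟨C₃, hC₃⟩ := hLow K 3 s n (by omega) Ω h
  obtain ⟨C₂, hC₂⟩ := hUp K Ω h ↥(Finset.powersetCard n s) 4 4 P' (n * j) (fun t => H t)
    (fun t => (hHBd t.1 t.2).1) (fun t α => (hHBd t.1 t.2).2 α)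
  refine ⟨(C₂ + (q : ℝ) * C₃) / ((n : ℝ) * i), fun pt gv zv hpt hBpt hgv hzv => ?_⟩
  rw [hB, map_mul, map_mul, map_prod] at hBpt
  obtain ⟨hV1, hV2, hV3, hV4, hV5, hV6, hV7⟩ := hVA K E Ω 4 ξ pt hpt
  obtain ⟨hW1, hW2⟩ := hVB K E Ω 4 ξ pt hpt
  have hbpt : MvPolynomial.aeval pt b ≠ 0 := fun h0 => hBpt (by rw [h0]; ring)
  have hZpt : MvPolynomial.aeval pt (MvPolynomial.rename Fin.succ Z₀) ≠ 0 :=
    fun h0 => hBpt (by rw [h0]; ring)
  have hMpt : ∏ u ∈ s, MvPolynomial.aeval pt (M u) ≠ 0 := fun h0 => hBpt (by rw [h0]; ring)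
  obtain ⟨w, hw⟩ : ∃ w : ↥(Finset.powersetCard n s) → Ω,
      w = fun t : ↥(Finset.powersetCard n s) =>
        ∏ u ∈ t.1, luN (algebraMap K Ω u) (hcN gv) := ⟨_, rfl⟩
  have hlow := hC₃ (hcN gv)
  rw [← hw] at hlow
  have hup := hC₂ pt (hcN zv)
  -- powers have values
  have hpow : ∀ (a : E) (v : Ω) (m : ℕ), VlX K ξ pt a v → VlX K ξ pt (a ^ m) (v ^ m) := by
    intro a v m hav
    have h1 := (hV7 (Fin m) Finset.univ (fun _ => a) (fun _ => v) fun _ _ => hav).2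
    simpa using h1
  have hcons : ∀ k : Fin 4, VlX K ξ pt ((Fin.cons 1 z' : Fin 4 → E) k) (hcN zv k) := by
    intro k
    refine Fin.cases ?_ (fun l => ?_) k
    · have h1 := hV1 1
      rw [map_one, map_one] at h1
      exact h1
    · exact hzv l
  obtain ⟨D, hD⟩ : ∃ D : Ω, D = MvPolynomial.aeval pt (MvPolynomial.rename Fin.succ Z₀) ^ (n * j) *
      MvPolynomial.aeval pt b ^ n := ⟨_, rfl⟩
  have hDne : D ≠ 0 := by
    rw [hD]
    exact mul_ne_zero (pow_ne_zero _ hZpt) (pow_ne_zero _ hbpt)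
  have hval : (fun t : ↥(Finset.powersetCard n s) =>
      MvPolynomial.eval₂ ((MvPolynomial.aeval pt : Pl 4 K →ₐ[K] Ω) : Pl 4 K →+* Ω) (hcN zv)
        (H t.1)) = (D⁻¹ * ∏ u ∈ s, MvPolynomial.aeval pt (M u)) • fun t => w t ^ q := by
    funext t
    have hL : VlX K ξ pt (z₀ ^ (n * j) * MvPolynomial.aeval ξ b ^ n * ev (H t.1))
        (D * MvPolynomial.eval₂ ((MvPolynomial.aeval pt : Pl 4 K →ₐ[K] Ω) : Pl 4 K →+* Ω)
          (hcN zv) (H t.1)) := by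
      rw [hD, hz₀, hev]
      refine hV3 _ _ _ _ (hV3 _ _ _ _ (hpow _ _ _ (hV1 _)) (hpow _ _ _ (hV1 _))) ?_
      exact hW1 4 _ _ hcons (H t.1)
    have hR : VlX K ξ pt ((∏ u ∈ t.1, Tu K u g) ^ q * ∏ u ∈ s, MvPolynomial.aeval ξ (M u))
        ((w t) ^ q * ∏ u ∈ s, MvPolynomial.aeval pt (M u)) := by
      refine hV3 _ _ _ _ (hpow _ _ _ ?_) ?_
      · rw [hw]
        exact (hV7 K t.1 _ _ fun u _ => hW2 3 g gv hgv u).2
      · exact (hV7 K s _ _ fun u _ => hV1 (M u)).2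
    rw [hHval t.1 t.2] at hL
    have h1 := hV5 _ _ _ hL hR
    rw [Pi.smul_apply, smul_eq_mul]
    have h2 : MvPolynomial.eval₂ ((MvPolynomial.aeval pt : Pl 4 K →ₐ[K] Ω) : Pl 4 K →+* Ω)
        (hcN zv) (H t.1) = D⁻¹ * (D * MvPolynomial.eval₂
          ((MvPolynomial.aeval pt : Pl 4 K →ₐ[K] Ω) : Pl 4 K →+* Ω) (hcN zv) (H t.1)) := by
      rw [← mul_assoc, inv_mul_cancel₀ hDne, one_mul]
    rw [h2, h1]
    ring
  rw [hval, h.smul _ _ (mul_ne_zero (inv_ne_zero hDne) hMpt), h.pow] at hup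
  have hhx := h.nonneg (hcN pt)
  have hnpos : (0 : ℝ) < (n : ℝ) * i := by
    have : 0 < n * i := Nat.mul_pos (by omega) hi1
    exact_mod_cast this
  have key : (q : ℝ) * (n * h.H (hcN gv)) ≤ (q : ℝ) * (h.H w + C₃) :=
    mul_le_mul_of_nonneg_left hlow (Nat.cast_nonneg _)
  have hP2 : (P' : ℝ) ≤ (n * i) * (2 * P₁) := by
    have h1 : P' ≤ n * i * (2 * P₁) := by
      have h2 : P' = n * i * P₁ + n * i := by
        rw [hP', hP, ← mul_assoc 3, ← hn]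
        ring
      have h3 : n * i ≤ n * i * P₁ := Nat.le_mul_of_pos_right _ hP₁
      rw [h2]
      nlinarith [h3]
    exact_mod_cast h1
  have h4 : (P' : ℝ) * h.H (hcN pt) ≤ (n * i : ℝ) * (2 * P₁) * h.H (hcN pt) :=
    mul_le_mul_of_nonneg_right hP2 hhx
  have hjR : ((n * j : ℕ) : ℝ) = n * (j₁ * i) := by
    rw [hj]
    push_cast
    ring
  have hqR : (q : ℝ) = q₁ * i := by
    rw [hq]
    push_cast
    ring
  have hfin : (n * i : ℝ) * (q₁ * h.H (hcN gv)) ≤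
      (n * i : ℝ) * (2 * P₁ * h.H (hcN pt) + j₁ * h.H (hcN zv) +
        (C₂ + q * C₃) / (n * i)) := by
    have h5 : (n * i : ℝ) * ((C₂ + q * C₃) / (n * i)) = C₂ + q * C₃ :=
      mul_div_cancel₀ _ hnpos.ne'
    rw [mul_add, h5]
    rw [hjR] at hup
    have h6 : (n * i : ℝ) * (q₁ * h.H (hcN gv)) = (q : ℝ) * (n * h.H (hcN gv)) := by
      rw [hqR]
      ring
    have h7 : (q : ℝ) * (h.H w + C₃) = q * h.H w + q * C₃ := by ring
    have h8 : (n * i : ℝ) * (2 * P₁ * h.H (hcN pt) + j₁ * h.H (hcN zv)) =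
        (n * i : ℝ) * (2 * P₁) * h.H (hcN pt) +
          n * (j₁ * i) * h.H (hcN zv) := by ring
    rw [h6, h8]
    linarith [key, hup, h4, h7]
  exact le_of_mul_le_mul_left hfin hnpos

end Pool.Agent.Lib.MP_16285c_agX
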