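import Pool.Agent.Lib.MP_16285c_agX.T3.SpecH

/-!
# Threefolds with `λ₁ > λ₃`: degrees of values of polynomials (RpE)
-/

set_option autoImplicit false

namespace Pool.Agent.Lib.MP_16285c_agX

open Pool.Agent.Lib.MP_16285c_ag Pool.Agent.Lib.MP_16285c_agN

namespace T3RpEM

variable {K E : Type} [Field K] [Field E] [Algebra K E] {n : ℕ}

theorem rp_const (h : StmtRpA) (x : Fin n → E) (c : K) : Rp K x 0 (algebraMap K E c) := by
  have h1 := (h K E n x).1 (MvPolynomial.C c) 0 (MvPolynomial.totalDegree_C c).le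
  rwa [MvPolynomial.aeval_C] at h1

theorem rp_zero (h : StmtRpA) (x : Fin n → E) (e : ℕ) : Rp K x e (0 : E) := by
  have h1 := (h K E n x).1 0 e (by rw [MvPolynomial.totalDegree_zero]; exact Nat.zero_le e)
  rwa [map_zero] at h1

theorem rp_pow (h : StmtRpA) (x : Fin n → E) (c k : ℕ) (w : E) (hw : Rp K x c w) :
    Rp K x (c * k) (w ^ k) := by
  induction k with
  | zero =>
    have h1 := rp_const h x (1 : K)
    rw [map_one] at h1
    rwa [Nat.mul_zero, pow_zero]
  | succ k ih =>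
    rw [Nat.mul_succ, pow_succ]
    exact (h K E n x).2.2.1 _ _ _ _ ih hw

theorem rp_prod (h : StmtRpA) (x : Fin n → E) {ι : Type} (s : Finset ι) (e : ι → ℕ) (w : ι → E)
    (hw : ∀ i ∈ s, Rp K x (e i) (w i)) : Rp K x (∑ i ∈ s, e i) (∏ i ∈ s, w i) := by
  classical
  induction s using Finset.induction_on with
  | empty =>
    have h1 := rp_const h x (1 : K)
    rw [map_one] at h1
    rwa [Finset.sum_empty, Finset.prod_empty]
  | insert a s ha ih =>
    rw [Finset.sum_insert ha, Finset.prod_insert ha]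
    exact (h K E n x).2.2.1 _ _ _ _ (hw a (Finset.mem_insert_self a s))
      (ih fun i hi => hw i (Finset.mem_insert_of_mem hi))

theorem rp_sum (h : StmtRpA) (x : Fin n → E) {ι : Type} (s : Finset ι) (e : ℕ) (w : ι → E)
    (hw : ∀ i ∈ s, Rp K x e (w i)) : Rp K x e (∑ i ∈ s, w i) := by
  classical
  induction s using Finset.induction_on with
  | empty =>
    rw [Finset.sum_empty]
    exact rp_zero h x e
  | insert a s ha ih =>
    rw [Finset.sum_insert ha]
    exact (h K E n x).2.1 _ _ _ (hw a (Finset.mem_insert_self a s))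
      (ih fun i hi => hw i (Finset.mem_insert_of_mem hi))

theorem rp_mono (h : StmtRpA) (x : Fin n → E) {r : ℕ} (w : Fin r → E) (c P : ℕ)
    (hw : ∀ i, Rp K x c (w i)) (α : Fin r →₀ ℕ) (hα : ∑ i, α i ≤ P) :
    Rp K x (c * P) (∏ i, w i ^ α i) := by
  have h1 := rp_prod h x Finset.univ (fun i => c * α i) (fun i => w i ^ α i)
    fun i _ => rp_pow h x c (α i) (w i) (hw i)
  rw [← Finset.mul_sum] at h1
  exact (h K E n x).2.2.2.1 _ _ _ (Nat.mul_le_mul_left c hα) h1

theorem sum_le {R : Type} [CommRing R] {r : ℕ} (G : MvPolynomial (Fin r) R) (P : ℕ)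
    (hG : G.totalDegree ≤ P) (α : Fin r →₀ ℕ) (hα : α ∈ G.support) : ∑ i, α i ≤ P := by
  have h1 := (MvPolynomial.le_totalDegree hα).trans hG
  rwa [Finsupp.sum_fintype _ _ fun _ => rfl] at h1

theorem partA (h : StmtRpA) {m : ℕ} (x : Fin n → E) (ξ : Fin m → E)
    (c P : ℕ) (G : Pl m K) (hξ : ∀ i, Rp K x c (ξ i)) (hG : G.totalDegree ≤ P) :
    Rp K x (c * P) (MvPolynomial.aeval ξ G) := by
  rw [MvPolynomial.aeval_def, MvPolynomial.eval₂_eq']
  refine rp_sum h x _ _ _ fun α hα => ?_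
  have h1 := (h K E n x).2.2.1 _ _ _ _ (rp_const h x (G.coeff α))
    (rp_mono h x ξ c P hξ α (sum_le G P hG α hα))
  rwa [Nat.zero_add] at h1

theorem partB (h : StmtRpA) {m r : ℕ} (x : Fin n → E) (ξ : Fin m → E)
    (w : Fin r → E) (c c' P j : ℕ) (G : MvPolynomial (Fin r) (Pl m K))
    (hξ : ∀ i, Rp K x c (ξ i)) (hw : ∀ i, Rp K x c' (w i)) (hG : G.IsHomogeneous j)
    (hP : ∀ α, (G.coeff α).totalDegree ≤ P) :
    Rp K x (c * P + c' * j)
      (MvPolynomial.eval₂ ((MvPolynomial.aeval ξ : Pl m K →ₐ[K] E) : Pl m K →+* E) w G) := by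
  rw [MvPolynomial.eval₂_eq']
  refine rp_sum h x _ _ _ fun α hα => ?_
  exact (h K E n x).2.2.1 _ _ _ _ (partA h x ξ c P (G.coeff α) hξ (hP α))
    (rp_mono h x w c' j hw α (sum_le G j hG.totalDegree_le α hα))

theorem partC {R S : Type} [CommRing R] [CommRing S] (φ : R →+* S) (r j : ℕ) (w : Fin r → S)
    (z : S) (G : MvPolynomial (Fin r) R) (hG : G.IsHomogeneous j) :
    MvPolynomial.eval₂ φ (fun i => z * w i) G = z ^ j * MvPolynomial.eval₂ φ w G := by
  rw [MvPolynomial.eval₂_eq', MvPolynomial.eval₂_eq', Finset.mul_sum]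
  refine Finset.sum_congr rfl fun α hα => ?_
  have h1 : ∑ i, α i = j := by
    have h2 : Finsupp.degree α = j := by
      rw [Finsupp.degree_eq_weight_one]
      exact hG (MvPolynomial.mem_support_iff.mp hα)
    rw [← h2, Finsupp.degree_eq_sum]
  have h3 : ∏ i, (z * w i) ^ α i = z ^ j * ∏ i, w i ^ α i := by
    rw [← h1, ← Finset.prod_pow_eq_pow_sum, ← Finset.prod_mul_distrib]
    exact Finset.prod_congr rfl fun i _ => mul_pow _ _ _
  rw [h3]
  ring

end T3RpEM

open T3RpEM in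
/-- (RpE) Degrees of values of polynomials. -/
theorem yRpE : StmtRpA → StmtRpE := fun h =>
  ⟨fun _ _ _ _ _ _ _ x ξ c P G h1 h2 => partA h x ξ c P G h1 h2,
    fun _ _ _ _ _ _ _ _ x ξ w c c' P j G h1 h2 h3 h4 => partB h x ξ w c c' P j G h1 h2 h3 h4,
    fun _ _ _ _ φ r j w z G hG => partC φ r j w z G hG⟩

end Pool.Agent.Lib.MP_16285c_agX
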