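import Pool.Agent.Lib.MP_16285c_agX.T3.SpecA

set_option autoImplicit false

namespace Pool.Agent.Lib.MP_16285c_agX.T3RpFM

open Pool.Agent.Lib.MP_16285c_ag Pool.Agent.Lib.MP_16285c_agN Polynomial

/-- a monic polynomial over `K(x)` whose coefficients are polynomials of bounded degrees gives `Rp` -/
lemma mk {K E : Type} [Field K] [Field E] [Algebra K E] {n : ℕ} {x : Fin n → E}
    (hx : AlgebraicIndependent K x) (p : Polynomial (IntermediateField.adjoin K (Set.range x)))
    (hp : p.Monic) (u : E) (hu : Polynomial.aeval u p = 0) (e : ℕ) (C : ℕ → Pl n K)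
    (hC : ∀ i, ((p.coeff i : IntermediateField.adjoin K (Set.range x)) : E) =
      MvPolynomial.aeval x (C i))
    (hd : ∀ i, (C i).totalDegree ≤ e * (p.natDegree - i)) : Rp K x e u := by
  have hinj : Function.Injective (MvPolynomial.aeval x : Pl n K →ₐ[K] E) := hx
  set r := p.natDegree with hr
  have hCr : C r = 1 := by
    apply hinj
    rw [← hC r, map_one, hr]
    have : p.coeff p.natDegree = 1 := hp
    rw [this]
    rfl
  have hC0 : ∀ i, r < i → C i = 0 := by
    intro i hi
    apply hinj
    rw [← hC i, map_zero, coeff_eq_zero_of_natDegree_lt hi]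
    rfl
  set F : Polynomial (Pl n K) := ∑ i ∈ Finset.range (r + 1), Polynomial.monomial i (C i) with hF
  have hFc : ∀ i, F.coeff i = C i := by
    intro i
    rw [hF, finsetSum_coeff]
    simp only [coeff_monomial]
    by_cases hi : i ≤ r
    · rw [Finset.sum_eq_single i]
      · simp
      · intro b _ hb
        simp [hb]
      · intro h
        exact absurd (Finset.mem_range.mpr (by omega)) h
    · rw [hC0 i (by omega)]
      apply Finset.sum_eq_zero
      intro b hb
      rw [Finset.mem_range] at hb
      rw [if_neg (by omega)]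
  have hFd : F.natDegree ≤ r := by
    rw [natDegree_le_iff_coeff_eq_zero]
    intro N hN
    rw [hFc, hC0 N hN]
  have hFm : F.Monic := monic_of_natDegree_le_of_coeff_eq_one r hFd (by rw [hFc, hCr])
  have hFn : F.natDegree = r := by
    apply le_antisymm hFd
    apply le_natDegree_of_ne_zero
    rw [hFc, hCr]
    exact one_ne_zero
  refine ⟨F, hFm, ?_, ?_⟩
  · have hmap : F.map ((MvPolynomial.aeval x : Pl n K →ₐ[K] E) : Pl n K →+* E) =
        p.map (algebraMap (IntermediateField.adjoin K (Set.range x)) E) := by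
      ext i
      rw [coeff_map, coeff_map, hFc]
      exact (hC i).symm
    rw [← Polynomial.eval_map, hmap, Polynomial.eval_map, ← Polynomial.aeval_def, hu]
  · intro i
    rw [hFc, hFn]
    exact hd i

lemma tdle {K : Type} [Field K] {n : ℕ} (A B : Pl n K) (hB : B ≠ 0) (e : ℕ)
    (h : (A * B).totalDegree ≤ e) : A.totalDegree ≤ e := by
  by_cases hA : A = 0
  · rw [hA]
    simp
  · rw [MvPolynomial.totalDegree_mul_of_isDomain hA hB] at h
    omega

/-- part (a) -/
lemma pa (hAA : StmtRpA) (hCC : StmtRpC) {K E : Type} [Field K] [CharZero K] [Field E] [Algebra K E]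
    {n : ℕ} {x : Fin n → E} (hx : AlgebraicIndependent K x)
    (hf : Module.Finite (IntermediateField.adjoin K (Set.range x)) E) (e : ℕ) (v : E)
    (hv : Intx K x v) (ν : Pl n K) (hν : ν ≠ 0) (h : Rp K x e (MvPolynomial.aeval x ν * v)) :
    Rp K x e v := by
  have hinj : Function.Injective (MvPolynomial.aeval x : Pl n K →ₐ[K] E) := hx
  obtain ⟨e', he'⟩ := (hAA K E n x).2.2.2.2 v hv
  have hc2 := (hCC K E n x hx hf).2
  have h1 := hc2 e' v he'
  have h2 := hc2 e _ h
  choose C hCd hC using h1
  choose G hGd hG using h2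
  have hmem : (MvPolynomial.aeval x ν : E) ∈ IntermediateField.adjoin K (Set.range x) := by
    have h3 : (MvPolynomial.aeval x ν : E) ∈ Algebra.adjoin K (Set.range x) := by
      rw [Algebra.adjoin_range_eq_range_aeval]
      exact ⟨ν, rfl⟩
    exact IntermediateField.algebra_adjoin_le_adjoin K _ h3
  set a : IntermediateField.adjoin K (Set.range x) := ⟨MvPolynomial.aeval x ν, hmem⟩ with ha
  have ha0 : a ≠ 0 := by
    intro h0
    apply hν
    apply hinj
    rw [map_zero]
    exact congrArg (fun z : IntermediateField.adjoin K (Set.range x) => (z : E)) h0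
  have hvi : IsIntegral (IntermediateField.adjoin K (Set.range x)) v :=
    Algebra.IsIntegral.isIntegral v
  have hsm : (MvPolynomial.aeval x ν : E) * v = a • v := rfl
  have hmp : minpoly (IntermediateField.adjoin K (Set.range x)) (MvPolynomial.aeval x ν * v) =
      (minpoly (IntermediateField.adjoin K (Set.range x)) v).scaleRoots a := by
    rw [hsm]
    exact IsIntegrallyClosed.minpoly_smul ha0 hvi
  rw [hmp] at hGd hG
  refine mk hx _ (minpoly.monic hvi) v (minpoly.aeval _ _) e C hC ?_
  intro i
  apply tdle (C i) (ν ^ ((minpoly (IntermediateField.adjoin K (Set.range x)) v).natDegree - i))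
    (pow_ne_zero _ hν)
  have hGi : C i * ν ^ ((minpoly (IntermediateField.adjoin K (Set.range x)) v).natDegree - i) =
      G i := by
    apply hinj
    rw [← hG i, map_mul, map_pow, ← hC i, coeff_scaleRoots]
    push_cast
    rfl
  rw [hGi]
  have := hGd i
  rwa [natDegree_scaleRoots] at this

lemma pw (hAA : StmtRpA) {K E : Type} [Field K] [Field E] [Algebra K E]
    {n : ℕ} {x : Fin n → E} (e : ℕ) (u : E) (h : Rp K x e u) (i : ℕ) : Rp K x (i * e) (u ^ i) := by
  induction i with
  | zero =>
    have := (hAA K E n x).1 (1 : Pl n K) 0 (by simp)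
    rw [map_one] at this
    simpa using this
  | succ i ih =>
    have := (hAA K E n x).2.2.1 (i * e) e (u ^ i) u ih h
    rw [pow_succ, add_mul, one_mul]
    exact this

lemma sm (hAA : StmtRpA) {K E : Type} [Field K] [Field E] [Algebra K E]
    {n : ℕ} {x : Fin n → E} (e : ℕ) (s : Finset ℕ) (f : ℕ → E) (h : ∀ i ∈ s, Rp K x e (f i)) :
    Rp K x e (∑ i ∈ s, f i) := by
  classical
  induction s using Finset.induction_on with
  | empty =>
    have := (hAA K E n x).1 (0 : Pl n K) e (by simp)
    rw [map_zero] at this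
    simpa using this
  | insert a s ha ih =>
    rw [Finset.sum_insert ha]
    apply (hAA K E n x).2.1
    · exact h a (Finset.mem_insert_self a s)
    · exact ih (fun i hi => h i (Finset.mem_insert_of_mem hi))

end Pool.Agent.Lib.MP_16285c_agX.T3RpFM

namespace Pool.Agent.Lib.MP_16285c_agX

open Pool.Agent.Lib.MP_16285c_ag Pool.Agent.Lib.MP_16285c_agN T3RpFM Polynomial

theorem yRpF : StmtRpA → StmtRpB → StmtRpC → StmtRpF := by
  intro hAA _ hCC K E _ _ _ _ n x hx hf e₁ e₂ q u v s hu0 hu hv huv hs
  have hinj : Function.Injective (MvPolynomial.aeval x : Pl n K →ₐ[K] E) := hx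
  obtain ⟨a1, a2, a3, a4, a5⟩ := hAA K E n x
  have hui : IsIntegral (IntermediateField.adjoin K (Set.range x)) u :=
    Algebra.IsIntegral.isIntegral u
  have h1 := (hCC K E n x hx hf).2 e₁ u hu
  choose C hCd hC using h1
  set μ := minpoly (IntermediateField.adjoin K (Set.range x)) u with hμ
  set r := μ.natDegree with hr
  have hrδ : r ≤ Module.finrank (IntermediateField.adjoin K (Set.range x)) E :=
    minpoly.natDegree_le u
  have hc0 : μ.coeff 0 ≠ 0 := minpoly.coeff_zero_ne_zero hui hu0
  have hC0 : C 0 ≠ 0 := by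
    intro h0
    apply hc0
    have := hC 0
    rw [h0, map_zero] at this
    exact_mod_cast this
  -- the complementary element
  set u' : E := ∑ i ∈ Finset.range r, MvPolynomial.aeval x (- C (i + 1)) * u ^ i with hu'
  have huu : u * u' = MvPolynomial.aeval x (C 0) := by
    have h2 : Polynomial.aeval u μ = 0 := minpoly.aeval _ _
    rw [Polynomial.aeval_eq_sum_range, Finset.sum_range_succ'] at h2
    have h3 : ∀ i, μ.coeff i • u ^ i = MvPolynomial.aeval x (C i) * u ^ i := by
      intro i
      rw [← hC i]
      rfl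
    simp only [h3] at h2
    rw [pow_zero, mul_one] at h2
    rw [hu', Finset.mul_sum]
    have h4 : ∑ i ∈ Finset.range r, u * (MvPolynomial.aeval x (- C (i + 1)) * u ^ i) =
        - ∑ i ∈ Finset.range r, MvPolynomial.aeval x (C (i + 1)) * u ^ (i + 1) := by
      rw [← Finset.sum_neg_distrib]
      apply Finset.sum_congr rfl
      intro i _
      rw [map_neg]
      ring
    rw [h4]
    linear_combination (-1 : E) * h2
  have hu'R : Rp K x (e₁ * (r - 1)) u' := by
    rw [hu']
    apply sm hAA
    intro i hi
    rw [Finset.mem_range] at hi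
    have h5 : Rp K x (e₁ * (r - (i + 1))) (MvPolynomial.aeval x (- C (i + 1))) := by
      apply a1
      rw [MvPolynomial.totalDegree_neg]
      exact hCd (i + 1)
    have h6 := a3 _ _ _ _ h5 (pw hAA e₁ u hu i)
    apply a4 _ _ _ _ h6
    have : r - 1 = (r - (i + 1)) + i := by omega
    rw [this, mul_add, mul_comm i e₁]
  have hprod : MvPolynomial.aeval x (C 0 ^ q) * v = u' ^ q * s := by
    rw [map_pow, ← huu, ← huv]
    ring
  have hfin : Rp K x (e₂ + q * (Module.finrank (IntermediateField.adjoin K (Set.range x)) E * e₁))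
      (MvPolynomial.aeval x (C 0 ^ q) * v) := by
    rw [hprod]
    have h7 := a3 _ _ _ _ (pw hAA _ u' hu'R q) hs
    apply a4 _ _ _ _ h7
    have h8 : e₁ * (r - 1) ≤ Module.finrank (IntermediateField.adjoin K (Set.range x)) E * e₁ := by
      rw [mul_comm]
      exact Nat.mul_le_mul_right _ (by omega)
    have h9 := Nat.mul_le_mul_left q h8
    omega
  exact pa hAA hCC hx hf _ v hv _ (pow_ne_zero _ hC0) hfin

end Pool.Agent.Lib.MP_16285c_agX
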