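import Pool.Agent.Lib.MP_16285c_agX.T3.SpecH

/-!
# (RpM) A common denominator
-/

set_option autoImplicit false

namespace Pool.Agent.Lib.MP_16285c_agX

open Pool.Agent.Lib.MP_16285c_ag Pool.Agent.Lib.MP_16285c_agN

namespace T3RpMM

variable {K E : Type} [Field K] [Field E] [Algebra K E] {n : ℕ}

theorem den (ξ : Fin (n + 1) → E) (hgen : IntermediateField.adjoin K (Set.range ξ) = ⊤)
    (s : Finset E) : ∃ b : Pl (n + 1) K, MvPolynomial.aeval ξ b ≠ 0 ∧
      ∀ w ∈ s, ∃ M : Pl (n + 1) K, MvPolynomial.aeval ξ b * w = MvPolynomial.aeval ξ M := by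
  classical
  induction s using Finset.induction_on with
  | empty =>
    refine ⟨1, by rw [map_one]; exact one_ne_zero, fun w hw => ?_⟩
    exact absurd hw (Finset.notMem_empty w)
  | insert w s hw ih =>
    obtain ⟨b, hb, h⟩ := ih
    have hmem : w ∈ IntermediateField.adjoin K (Set.range ξ) := by
      rw [hgen]
      exact IntermediateField.mem_top
    rw [IntermediateField.mem_adjoin_range_iff] at hmem
    obtain ⟨r, t, hrt⟩ := hmem
    by_cases ht : MvPolynomial.aeval ξ t = 0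
    · rw [ht, div_zero] at hrt
      refine ⟨b, hb, fun w' hw' => ?_⟩
      rcases Finset.mem_insert.1 hw' with rfl | hw'
      · exact ⟨0, by rw [hrt, mul_zero, map_zero]⟩
      · exact h w' hw'
    · refine ⟨b * t, by rw [map_mul]; exact mul_ne_zero hb ht, fun w' hw' => ?_⟩
      rcases Finset.mem_insert.1 hw' with rfl | hw'
      · refine ⟨b * r, ?_⟩
        rw [hrt, map_mul, map_mul, mul_assoc, mul_div_cancel₀ _ ht]
      · obtain ⟨M, hM⟩ := h w' hw'
        refine ⟨M * t, ?_⟩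
        rw [map_mul, map_mul, ← hM]
        ring

theorem bound (ξ : Fin (n + 1) → E) (b : Pl (n + 1) K) (s : Finset E)
    (h : ∀ w ∈ s, ∃ M : Pl (n + 1) K, MvPolynomial.aeval ξ b * w = MvPolynomial.aeval ξ M) :
    ∃ c₁ : ℕ, ∀ w ∈ Submodule.span K (s : Set E), ∃ M : Pl (n + 1) K, M.totalDegree ≤ c₁ ∧
      MvPolynomial.aeval ξ b * w = MvPolynomial.aeval ξ M := by
  choose! f hf using h
  refine ⟨s.sup fun w => (f w).totalDegree, fun w hw => ?_⟩
  refine Submodule.span_induction ?_ ?_ ?_ ?_ hw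
  · intro w hw
    rw [Finset.mem_coe] at hw
    exact ⟨f w, Finset.le_sup (f := fun w => (f w).totalDegree) hw, hf w hw⟩
  · refine ⟨0, ?_, by rw [mul_zero, map_zero]⟩
    rw [MvPolynomial.totalDegree_zero]
    exact Nat.zero_le _
  · rintro x y _ _ ⟨M, hM, hM'⟩ ⟨N, hN, hN'⟩
    refine ⟨M + N, (MvPolynomial.totalDegree_add M N).trans (max_le hM hN), ?_⟩
    rw [mul_add, hM', hN', map_add]
  · rintro c x _ ⟨M, hM, hM'⟩
    refine ⟨c • M, (MvPolynomial.totalDegree_smul_le c M).trans hM, ?_⟩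
    rw [mul_smul_comm, hM', map_smul]

end T3RpMM

open T3RpMM in
/-- (RpM) A common denominator. -/
theorem yRpM : StmtRpD → StmtStpF → StmtRpM := by
  intro hD hF K E _ _ _ _ n ξ hξ
  obtain ⟨W, ⟨s, hs⟩, hW⟩ := hD K E n (fun i : Fin n => ξ i.succ) hξ.ai (hF K E n ξ hξ)
  obtain ⟨b, hb, h⟩ := den ξ hξ.gen s
  obtain ⟨c₁, hc⟩ := bound ξ b s h
  rw [hs] at hc
  refine ⟨b, c₁, hb, fun e S hS => ?_⟩
  have hmem := hW e S hS
  refine Submodule.mul_induction_on hmem ?_ ?_
  · intro m hm v hv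
    obtain ⟨M, hM, hM'⟩ := hc m hm
    obtain ⟨G, hG, rfl⟩ := hv
    have hGd : G.totalDegree ≤ e := (MvPolynomial.mem_restrictTotalDegree (Fin n) e G).1 hG
    refine ⟨M * MvPolynomial.rename Fin.succ G, ?_, ?_⟩
    · refine (MvPolynomial.totalDegree_mul _ _).trans ?_
      have h1 := (MvPolynomial.totalDegree_rename_le Fin.succ G).trans hGd
      omega
    · rw [map_mul, ← hM', MvPolynomial.aeval_rename, ← mul_assoc]
      rfl
  · rintro x y ⟨M, hM, hM'⟩ ⟨N, hN, hN'⟩
    refine ⟨M + N, (MvPolynomial.totalDegree_add M N).trans (max_le hM hN), ?_⟩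
    rw [mul_add, hM', hN', map_add]

end Pool.Agent.Lib.MP_16285c_agX
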