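import Pool.Agent.Lib.MP_16285c_agX.T3.SpecH

/-!
# ZD3X: uniform degree bound for the sections (helper42)
-/

set_option autoImplicit false

namespace Pool.Agent.Lib.MP_16285c_agX

open Pool.Agent.Lib.MP_16285c_ag Pool.Agent.Lib.MP_16285c_agN

namespace T3RpSM

section

variable {K E : Type} [Field K] [Field E] [Algebra K E] {n : ℕ} {x : Fin n → E}

theorem rp_cst (hA : StmtRpA) (c : K) : Rp K x 0 (algebraMap K E c) := by
  have h := (hA K E n x).1 (MvPolynomial.C c) 0 (by simp)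
  rwa [MvPolynomial.aeval_C] at h

theorem rp_pow (hA : StmtRpA) {c : ℕ} {w : E} (hw : Rp K x c w) (k : ℕ) :
    Rp K x (c * k) (w ^ k) := by
  induction k with
  | zero =>
    have h := rp_cst (x := x) hA (1 : K)
    rw [pow_zero, Nat.mul_zero]
    rwa [map_one] at h
  | succ k ih =>
    rw [pow_succ, Nat.mul_succ]
    exact (hA K E n x).2.2.1 _ _ _ _ ih hw

theorem rp_sum (hA : StmtRpA) {c : ℕ} {ι : Type} (s : Finset ι) (f : ι → E)
    (h : ∀ i ∈ s, Rp K x c (f i)) : Rp K x c (∑ i ∈ s, f i) := by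
  classical
  induction s using Finset.induction_on with
  | empty =>
    have h := rp_cst (x := x) hA (0 : K)
    rw [map_zero] at h
    exact (hA K E n x).2.2.2.1 _ _ _ (Nat.zero_le _) h
  | insert a s ha ih =>
    rw [Finset.sum_insert ha]
    exact (hA K E n x).2.1 _ _ _ (h a (Finset.mem_insert_self _ _))
      (ih fun i hi => h i (Finset.mem_insert_of_mem hi))

/-- A common degree. -/
theorem rp_fam (hA : StmtRpA) {m : ℕ} (f : Fin m → E) (h : ∀ i, ∃ e, Rp K x e (f i)) :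
    ∃ e, ∀ i, Rp K x e (f i) := by
  choose e he using h
  exact ⟨Finset.univ.sup e, fun i => (hA K E n x).2.2.2.1 _ _ _
    (Finset.le_sup (f := e) (Finset.mem_univ i)) (he i)⟩

theorem tu_ne {g : Fin n → E} (hg : AlgebraicIndependent K g) (u : K) : Tu K u g ≠ 0 := by
  intro h0
  set Q : MvPolynomial (Fin n) K := 1 + ∑ i : Fin n, MvPolynomial.C (u ^ ((i : ℕ) + 1)) *
    MvPolynomial.X i with hQ
  have h1 : MvPolynomial.aeval g Q = Tu K u g := by
    rw [hQ, map_add, map_one, map_sum, Tu, luN, Fin.sum_univ_succ]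
    simp
  have h2 : Q = 0 := by
    apply hg
    rw [h1, h0, map_zero]
  have h3 := congrArg MvPolynomial.constantCoeff h2
  rw [hQ, map_add, map_one, map_sum, map_zero, Finset.sum_eq_zero, add_zero] at h3
  · exact one_ne_zero h3
  · intro i _
    simp

open IntermediateField.algebraAdjoinAdjoin in
/-- A common denominator. -/
theorem den (hI : StmtIntA)
    (hfin : Module.Finite (IntermediateField.adjoin K (Set.range x)) E) {m : ℕ} (f : Fin m → E) :
    ∃ β : Pl n K, MvPolynomial.aeval x β ≠ 0 ∧ ∀ i, Intx K x (MvPolynomial.aeval x β * f i) := by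
  classical
  have halg : Algebra.IsAlgebraic (IntermediateField.adjoin K (Set.range x)) E :=
    Algebra.IsAlgebraic.of_finite _ _
  have halg2 : Algebra.IsAlgebraic (Algebra.adjoin K (Set.range x)) E :=
    ⟨fun a => (IsFractionRing.isAlgebraic_iff (Algebra.adjoin K (Set.range x))
      (IntermediateField.adjoin K (Set.range x)) E).2 (halg.isAlgebraic a)⟩
  obtain ⟨y, hy0, hy⟩ := Algebra.IsAlgebraic.exists_integral_multiples
    (Algebra.adjoin K (Set.range x)) (Finset.univ.image f)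
  have hyr : (y : E) ∈ (MvPolynomial.aeval x : Pl n K →ₐ[K] E).range := by
    rw [← Algebra.adjoin_range_eq_range_aeval]
    exact y.2
  obtain ⟨β, hβ⟩ := hyr
  have hβ' : MvPolynomial.aeval x β = (y : E) := hβ
  refine ⟨β, ?_, fun i => ?_⟩
  · rw [hβ']
    exact fun h => hy0 (Subtype.ext h)
  · rw [hI, hβ']
    exact hy (f i) (Finset.mem_image_of_mem _ (Finset.mem_univ i))

end

end T3RpSM

open T3RpSM in
theorem yRpS : StmtIntA → StmtRpA → StmtRpE → StmtRpF → StmtStpF → StmtRpS := by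
  intro hI hA hE hF hStpF K E _ _ _ _ ξ hS g z' Z₀ P₁ j₁ q₁ hz' hgai
  obtain ⟨x, hx⟩ : ∃ x : Fin 3 → E, x = fun i : Fin 3 => ξ i.succ := ⟨_, rfl⟩
  have hxai : AlgebraicIndependent K x := hx ▸ hS.ai
  have hfin : Module.Finite (IntermediateField.adjoin K (Set.range x)) E := by
    rw [hx]; exact hStpF K E 3 ξ hS
  rw [← hx] at hz' ⊢
  obtain ⟨β, hβ0, hβ⟩ := den hI hfin (Fin.cons 1 g : Fin 4 → E)
  obtain ⟨z₀, hz₀⟩ : ∃ z₀ : E, z₀ = MvPolynomial.aeval x Z₀ := ⟨_, rfl⟩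
  obtain ⟨e₁, he₁⟩ := rp_fam (x := x) hA (fun i => MvPolynomial.aeval x β * (Fin.cons 1 g : Fin 4 → E) i)
    fun i => (hA K E 3 x).2.2.2.2 _ (hβ i)
  obtain ⟨c, hc⟩ := rp_fam (x := x) hA ξ fun i => by
    refine Fin.cases ?_ (fun i => ?_) i
    · exact (hA K E 3 x).2.2.2.2 _ (hx ▸ hS.int)
    · have h := (hA K E 3 x).1 (MvPolynomial.X i) _ le_rfl
      have h1 : x i = ξ i.succ := by rw [hx]
      rw [MvPolynomial.aeval_X, h1] at h
      exact ⟨_, h⟩
  obtain ⟨c', hc'⟩ := rp_fam (x := x) hA (fun i => z₀ * (Fin.cons 1 z' : Fin 4 → E) i) fun i => by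
    refine Fin.cases ?_ (fun i => ?_) i
    · have h := (hA K E 3 x).1 Z₀ _ le_rfl
      rw [← hz₀] at h
      rw [Fin.cons_zero, mul_one]
      exact ⟨_, h⟩
    · rw [Fin.cons_succ, hz₀]
      exact (hA K E 3 x).2.2.2.2 _ (hz' i)
  refine ⟨e₁ * q₁ + (c * P₁ + c' * j₁) +
    q₁ * (Module.finrank (IntermediateField.adjoin K (Set.range x)) E * e₁), ?_⟩
  intro u i G S hG hGc hSi heq
  have hβ1 : Rp K x e₁ (MvPolynomial.aeval x β) := by
    have h := he₁ 0
    simpa using h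
  have hβT : Rp K x e₁ (MvPolynomial.aeval x β * Tu K u g) := by
    have h1 : MvPolynomial.aeval x β * Tu K u g = ∑ k : Fin 4, algebraMap K E (u ^ (k : ℕ)) *
        (MvPolynomial.aeval x β * (Fin.cons 1 g : Fin 4 → E) k) := by
      rw [Tu, luN, Finset.mul_sum]
      refine Finset.sum_congr rfl fun k _ => ?_
      rw [map_pow]; ring
    rw [h1]
    refine rp_sum hA _ _ fun k _ => ?_
    have h2 := (hA K E 3 x).2.2.1 0 e₁ _ _ (rp_cst hA (u ^ (k : ℕ))) (he₁ k)
    rwa [zero_add] at h2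
  have hne : MvPolynomial.aeval x β * Tu K u g ≠ 0 := mul_ne_zero hβ0 (tu_ne hgai u)
  have hb := hE.2.1 K E 3 4 4 x ξ (fun k => z₀ * (Fin.cons 1 z' : Fin 4 → E) k) c c' (P₁ * i)
    (j₁ * i) G hc hc' hG hGc
  rw [hE.2.2 _ _ _ 4 (j₁ * i) (Fin.cons 1 z' : Fin 4 → E) z₀ G hG, hz₀, heq] at hb
  have hs := (hA K E 3 x).2.2.1 _ _ _ _ (rp_pow hA hβ1 (q₁ * i)) hb
  have hfin2 := hF K E 3 x hxai hfin e₁ _ (q₁ * i) (MvPolynomial.aeval x β * Tu K u g) S _ hne hβT
    hSi (by rw [mul_pow, mul_assoc]) hs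
  have harith : (e₁ * q₁ + (c * P₁ + c' * j₁) +
      q₁ * (Module.finrank (IntermediateField.adjoin K (Set.range x)) E * e₁)) * i =
      e₁ * (q₁ * i) + (c * (P₁ * i) + c' * (j₁ * i)) +
      q₁ * i * (Module.finrank (IntermediateField.adjoin K (Set.range x)) E * e₁) := by ring
  rw [harith]
  exact hfin2

end Pool.Agent.Lib.MP_16285c_agX
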