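import Pool.Agent.Lib.MP_16285c_agX.T3.HSeq
import Pool.Agent.Lib.MP_16285c_agX.T3.HMon
import Pool.Agent.Lib.MP_16285c_agX.T3.HUp
import Pool.Agent.Lib.MP_16285c_agX.T3.HLow
import Pool.Agent.Lib.MP_16285c_agX.T3.HLu
import Pool.Agent.Lib.MP_16285c_agX.T3.HUpB
import Pool.Agent.Lib.MP_16285c_agX.T3.HPo
import Pool.Agent.Lib.MP_16285c_agX.T3.StpF
import Pool.Agent.Lib.MP_16285c_agX.T3.IntA
import Pool.Agent.Lib.MP_16285c_agX.T3.RpA
import Pool.Agent.Lib.MP_16285c_agX.T3.RpB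
import Pool.Agent.Lib.MP_16285c_agX.T3.RpC
import Pool.Agent.Lib.MP_16285c_agX.T3.RpE
import Pool.Agent.Lib.MP_16285c_agX.T3.RpF
import Pool.Agent.Lib.MP_16285c_agX.T3.RpM
import Pool.Agent.Lib.MP_16285c_agX.T3.RpS
import Pool.Agent.Lib.MP_16285c_agX.T3.HVa
import Pool.Agent.Lib.MP_16285c_agX.T3.HVb
import Pool.Agent.Lib.MP_16285c_agX.T3.HtX

/-!
# The height inequality: assembly of the sections HL and HI
-/

set_option autoImplicit false

namespace Pool.Agent.Lib.MP_16285c_agX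

theorem aHUp : StmtHUp := yHUp yHSeq yHMon

theorem aHLow : StmtHLow := yHLow aHUp yHMon

theorem aHUpB : StmtHUpB := yHUpB yHSeq yHMon

theorem aHPo : StmtHPo := yHPo yHMon

theorem aRpE : StmtRpE := yRpE yRpA

theorem aRpF : StmtRpF := yRpF yRpA yRpB (yRpC yRpA yRpB)

theorem aRpS : StmtRpS := yRpS yIntA yRpA aRpE aRpF yStpF

theorem aHVb : StmtHVb := yHVb yHVa

/-- The height inequality, from `StmtRpD` (part A). -/
theorem aHtX : StmtRpD → StmtHtX := fun hD =>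
  yHtX (yRpM hD yStpF) aRpS yHVa aHVb yHLu aHUpB

end Pool.Agent.Lib.MP_16285c_agX
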