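import Pool.Agent.Lib.MP_16285c_agX.T3.SpecA
import Pool.Agent.Lib.MP_16285c_agN.T3.XDgGe

/-!
# (CfA) The degree of an algebraic function and its minimal equation
-/

set_option autoImplicit false

namespace Pool.Agent.Lib.MP_16285c_agX

open Pool.Agent.Lib.MP_16285c_ag Pool.Agent.Lib.MP_16285c_agN

namespace T3CfAM

open scoped IntermediateField.algebraAdjoinAdjoin

section Gen

variable {K E : Type} [Field K] [Field E] [Algebra K E]

theorem alg_of_adjoin (S : Set E) (h : Algebra.IsAlgebraic (IntermediateField.adjoin K S) E) :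
    Algebra.IsAlgebraic (Algebra.adjoin K S) E :=
  Algebra.IsAlgebraic.trans (Algebra.adjoin K S) (IntermediateField.adjoin K S) E

theorem alg_mono {L L' : IntermediateField K E} (h : L ≤ L') (hL : Algebra.IsAlgebraic L E) :
    Algebra.IsAlgebraic L' E := by
  constructor
  intro x
  obtain ⟨p, hp, hx⟩ := hL.isAlgebraic x
  refine ⟨p.map (IntermediateField.inclusion h).toRingHom, ?_, ?_⟩
  · rwa [Ne, Polynomial.map_eq_zero]
  · rw [Polynomial.aeval_def, Polynomial.eval₂_map]
    exact hx

theorem fin_mono {L L' : IntermediateField K E} (h : L ≤ L') (hL : Module.Finite L E) :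
    Module.Finite L' E := by
  have h1 : Module.Finite (IntermediateField.extendScalars h) E :=
    Module.Finite.of_restrictScalars_finite L (IntermediateField.extendScalars h) E
  exact h1

theorem trdeg3 (x : Fin 3 → E) (hx : AlgebraicIndependent K x)
    (hf : Module.Finite (IntermediateField.adjoin K (Set.range x)) E) : Algebra.trdeg K E = 3 := by
  have h1 : IsTranscendenceBasis K x :=
    isTranscendenceBasis_iff_algebraicIndependent_isAlgebraic.2 ⟨hx, alg_of_adjoin _ inferInstance⟩
  rw [← h1.cardinalMk_eq_trdeg]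
  simp

theorem two_gen (h3 : Algebra.trdeg K E = 3) (u : Fin 2 → E)
    (h : Algebra.IsAlgebraic (IntermediateField.adjoin K (Set.range u)) E) : False := by
  have h2 := alg_of_adjoin _ h
  have h3' := Algebra.IsAlgebraic.trdeg_le_cardinalMk K (Set.range u)
  rw [h3] at h3'
  have h4 : Cardinal.mk (Set.range u) ≤ 2 := by
    refine Cardinal.mk_range_le.trans ?_
    simp
  exact absurd (h3'.trans h4) (by norm_num)

theorem three_gen (h3 : Algebra.trdeg K E = 3) (v : Fin 3 → E)
    (h : Algebra.IsAlgebraic (IntermediateField.adjoin K (Set.range v)) E) :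
    AlgebraicIndependent K v := by
  have h2 := alg_of_adjoin _ h
  refine (Algebra.IsAlgebraic.isTranscendenceBasis_of_le_trdeg_of_finite K v ?_).1
  rw [h3]
  simp

/-- Two linear forms can be completed by a coordinate. -/
theorem complete (x : Fin 3 → E) (hg : LinearIndependent K x) (l : Fin 2 → E)
    (hl : LinearIndependent K l) (hV : ∀ i, l i ∈ Submodule.span K (Set.range x)) :
    ∃ j₀ : Fin 3, ∀ j, ∃ a ∈ Submodule.span K (Set.range l), ∃ b : K,
      x j = a + b • x j₀ := by
  set V := Submodule.span K (Set.range x) with hVd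
  set S := Submodule.span K (Set.range l) with hS
  have hVf : Module.finrank K V = 3 := by
    rw [hVd, finrank_span_eq_card hg, Fintype.card_fin]
  have hSf : Module.finrank K S = 2 := by
    rw [hS, finrank_span_eq_card hl, Fintype.card_fin]
  have hfin : Module.Finite K V := Module.finite_of_finrank_pos (by rw [hVf]; norm_num)
  have hSV : S ≤ V := Submodule.span_le.2 (by rintro _ ⟨i, rfl⟩; exact hV i)
  obtain ⟨j₀, hj₀⟩ : ∃ j₀, x j₀ ∉ S := by
    by_contra hcon
    push Not at hcon
    have h1 : V ≤ S := Submodule.span_le.2 (by rintro _ ⟨i, rfl⟩; exact hcon i)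
    have h2 : S = V := le_antisymm hSV h1
    rw [h2, hVf] at hSf
    omega
  refine ⟨j₀, ?_⟩
  have h1 : S ⊔ Submodule.span K {x j₀} ≤ V := by
    refine sup_le hSV (Submodule.span_le.2 ?_)
    rintro _ rfl
    exact Submodule.subset_span ⟨j₀, rfl⟩
  have hfin2 : Module.Finite K ↥(S ⊔ Submodule.span K {x j₀}) :=
    Submodule.finiteDimensional_of_le h1
  have h2 : S < S ⊔ Submodule.span K {x j₀} := by
    refine lt_of_le_of_ne le_sup_left fun h0 => hj₀ ?_
    rw [h0]
    exact Submodule.mem_sup_right (Submodule.mem_span_singleton_self _)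
  have h3 := Submodule.finrank_lt_finrank_of_lt h2
  have h4 : S ⊔ Submodule.span K {x j₀} = V :=
    Submodule.eq_of_le_of_finrank_le h1 (by omega)
  intro j
  have h5 : x j ∈ S ⊔ Submodule.span K {x j₀} := by
    rw [h4]
    exact Submodule.subset_span ⟨j, rfl⟩
  obtain ⟨a, ha, z, hz, h6⟩ := Submodule.mem_sup.1 h5
  obtain ⟨b, rfl⟩ := Submodule.mem_span_singleton.1 hz
  exact ⟨a, ha, b, h6.symm⟩

/-- Polynomials in one more variable, with coefficients in a subfield. -/
theorem sub_poly (x : Fin 3 → E) (F₀ : IntermediateField K E) (j₀ : Fin 3) (a : Fin 3 → F₀)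
    (b : Fin 3 → K) (h : ∀ j, x j = a j + b j • x j₀) (P : Pl 3 K) {d : ℕ}
    (hP : P.totalDegree ≤ d) :
    ∃ Q : Polynomial F₀, Q.natDegree ≤ d ∧ Polynomial.aeval (x j₀) Q = MvPolynomial.aeval x P := by
  set f : Fin 3 → Polynomial F₀ := fun j => Polynomial.C (a j) +
    Polynomial.C (algebraMap K F₀ (b j)) * Polynomial.X with hf
  refine ⟨MvPolynomial.aeval f (MvPolynomial.map (algebraMap K F₀) P), ?_, ?_⟩
  · have h1 := MvPolynomial.aeval_natDegree_le (m := d) (n := 1) (MvPolynomial.map (algebraMap K F₀) P)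
      ((Finset.sup_mono (MvPolynomial.support_map_subset _ P)).trans hP) f (fun j => by
        simp only [hf]
        rw [add_comm]
        exact Polynomial.natDegree_linear_le)
    rwa [mul_one] at h1
  · induction P using MvPolynomial.induction_on generalizing d with
    | C c =>
      rw [MvPolynomial.map_C, MvPolynomial.aeval_C, Polynomial.algebraMap_eq, Polynomial.aeval_C,
        MvPolynomial.aeval_C]
      rfl
    | add p q hp hq =>
      rw [map_add, map_add, map_add, hp le_rfl, hq le_rfl, map_add]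
    | mul_X p i hp =>
      rw [map_mul, map_mul, map_mul, hp le_rfl, map_mul, MvPolynomial.map_X, MvPolynomial.aeval_X,
        MvPolynomial.aeval_X]
      congr 1
      rw [hf]
      simp only [map_add, map_mul, Polynomial.aeval_C, Polynomial.aeval_X]
      rw [h i, Algebra.smul_def]
      rfl

/-- The degree over a subfield, in a simple tower. -/
theorem tow (κ M : IntermediateField K E) (h : κ ≤ M) (t : E) (ht : t ∈ M)
    (hM : M ≤ (IntermediateField.adjoin κ {t}).restrictScalars K) (hint : IsIntegral κ t) :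
    Module.finrank κ E = (minpoly κ t).natDegree * Module.finrank M E := by
  have h1 : M = (IntermediateField.adjoin κ {t}).restrictScalars K := by
    refine le_antisymm hM ?_
    have h2 : IntermediateField.adjoin κ {t} ≤ IntermediateField.extendScalars h := by
      rw [IntermediateField.adjoin_le_iff]
      rintro _ rfl
      exact ht
    intro z hz
    exact h2 hz
  have h2 : Module.finrank M E = Module.finrank (IntermediateField.adjoin κ {t}) E := by
    rw [h1]
    rfl
  rw [h2, ← IntermediateField.adjoin.finrank hint]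
  exact (Module.finrank_mul_finrank κ (IntermediateField.adjoin κ {t}) E).symm

/-- The upper bound. -/
theorem part1 (x : Fin 3 → E) (hx : AlgebraicIndependent K x)
    (hf : Module.Finite (IntermediateField.adjoin K (Set.range x)) E) (w : E)
    (F : Polynomial (Pl 3 K)) (D : ℕ) (hF : F ≠ 0)
    (hev : Polynomial.eval₂ ((MvPolynomial.aeval x : Pl 3 K →ₐ[K] E) : Pl 3 K →+* E) w F = 0)
    (hd : ∀ i, (F.coeff i).totalDegree ≤ D) (A : Fin 2 → Fin 3 → K) :
    Module.finrank (IntermediateField.adjoin K (insert w (Set.range (lc A x)))) E ≤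
      D * Module.finrank (IntermediateField.adjoin K (insert w (Set.range x))) E := by
  set κ := IntermediateField.adjoin K (insert w (Set.range (lc A x))) with hκ
  set M := IntermediateField.adjoin K (insert w (Set.range x)) with hMd
  by_cases h0 : Module.finrank κ E = 0
  · rw [h0]
    exact Nat.zero_le _
  have hfin : Module.Finite κ E := Module.finite_of_finrank_pos (Nat.pos_of_ne_zero h0)
  have halg : Algebra.IsAlgebraic κ E := inferInstance
  have h3 := trdeg3 x hx hf
  set l : Fin 2 → E := lc A x with hl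
  set v : Fin 3 → E := ![l 0, l 1, w] with hv
  have hrange : κ = IntermediateField.adjoin K (Set.range v) := by
    rw [hκ]
    congr 1
    rw [hv]
    ext z
    simp only [Set.mem_insert_iff, Set.mem_range]
    constructor
    · rintro (rfl | ⟨i, rfl⟩)
      · exact ⟨2, rfl⟩
      · fin_cases i
        · exact ⟨0, rfl⟩
        · exact ⟨1, rfl⟩
    · rintro ⟨i, rfl⟩
      fin_cases i
      · exact Or.inr ⟨0, rfl⟩
      · exact Or.inr ⟨1, rfl⟩
      · exact Or.inl rfl
  have hvi : AlgebraicIndependent K v := three_gen h3 v (by rw [← hrange]; exact halg)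
  have hli : LinearIndependent K l := by
    have h1 := hvi.linearIndependent.comp (fun i : Fin 2 => i.castSucc) (Fin.castSucc_injective 2)
    have h2 : v ∘ (fun i : Fin 2 => i.castSucc) = l := by
      funext i
      fin_cases i <;> rfl
    rwa [h2] at h1
  obtain ⟨j₀, hj₀⟩ := complete x hx.linearIndependent l hli (fun i => by
    rw [hl]
    unfold lc
    refine Submodule.sum_mem _ fun j _ => ?_
    rw [← Algebra.smul_def]
    exact Submodule.smul_mem _ _ (Submodule.subset_span ⟨j, rfl⟩))
  set F₀ : IntermediateField K E := IntermediateField.adjoin K (Set.range l) with hF₀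
  have hspan : ∀ a ∈ Submodule.span K (Set.range l), a ∈ F₀ := by
    intro a ha
    refine Submodule.span_induction ?_ ?_ ?_ ?_ ha
    · exact fun x hx => IntermediateField.subset_adjoin K _ hx
    · exact F₀.zero_mem
    · exact fun x y _ _ hx hy => F₀.add_mem hx hy
    · exact fun c x _ hx => F₀.smul_mem hx
  have hle : F₀ ≤ κ := by
    rw [hF₀, hκ]
    exact IntermediateField.adjoin.mono K _ _ (Set.subset_insert _ _)
  have hwL : w ∈ κ := IntermediateField.subset_adjoin K _ (Set.mem_insert _ _)
  have htr : ¬ IsAlgebraic F₀ w := by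
    intro hcon
    refine two_gen h3 l ?_
    have h1 : Algebra.IsAlgebraic F₀ (IntermediateField.adjoin F₀ {w}) :=
      IntermediateField.isAlgebraic_adjoin_simple hcon.isIntegral
    have h2 : κ ≤ (IntermediateField.adjoin F₀ {w}).restrictScalars K := by
      rw [hκ, IntermediateField.adjoin_le_iff]
      rintro z hz
      rcases hz with rfl | hz
      · exact IntermediateField.mem_adjoin_simple_self F₀ _
      · exact (IntermediateField.adjoin F₀ {w}).algebraMap_mem
          ⟨z, IntermediateField.subset_adjoin K _ hz⟩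
    have h4 : Algebra.IsAlgebraic (IntermediateField.adjoin F₀ {w}) E :=
      alg_mono (K := K) (L := κ) (L' := (IntermediateField.adjoin F₀ {w}).restrictScalars K) h2 halg
    exact Algebra.IsAlgebraic.trans F₀ (IntermediateField.adjoin F₀ {w}) E
  choose a ha b hab using hj₀
  have hsub := fun i => sub_poly x F₀ j₀ (fun j => ⟨a j, hspan _ (ha j)⟩) b hab (F.coeff i) (hd i)
  choose Q hQd hQv using hsub
  set inc : F₀ →+* κ := (IntermediateField.inclusion hle).toRingHom with hinc
  have hev2 : ∀ R : Polynomial F₀, Polynomial.aeval (x j₀) (R.map inc) =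
      Polynomial.aeval (x j₀) R := by
    intro R
    rw [Polynomial.aeval_def, Polynomial.eval₂_map]
    rfl
  set wk : κ := ⟨w, hwL⟩ with hwk
  set Q' : Polynomial κ := ∑ i ∈ Finset.range (F.natDegree + 1),
    (Q i).map inc * Polynomial.C (wk ^ i) with hQ'
  have hQv' : Polynomial.aeval (x j₀) Q' = 0 := by
    rw [hQ', map_sum, ← hev, Polynomial.eval₂_eq_sum_range]
    refine Finset.sum_congr rfl fun i _ => ?_
    rw [map_mul, hev2, hQv, Polynomial.aeval_C]
    rfl
  have hQd' : Q'.natDegree ≤ D := by
    rw [hQ']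
    refine Polynomial.natDegree_sum_le_of_forall_le _ _ fun i _ => ?_
    exact (Polynomial.natDegree_mul_C_le _ _).trans ((Polynomial.natDegree_map_le).trans (hQd i))
  have hQ0 : Q' ≠ 0 := by
    intro h1
    have h2 : ∀ k, ∀ i ∈ Finset.range (F.natDegree + 1), (Q i).coeff k = 0 := by
      intro k
      set g : Polynomial F₀ := ∑ i ∈ Finset.range (F.natDegree + 1),
        Polynomial.C ((Q i).coeff k) * Polynomial.X ^ i with hg
      have h4 : Polynomial.aeval w g = 0 := by
        have h5 := congrArg (fun R : Polynomial κ => ((R.coeff k : κ) : E)) h1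
        simp only [hQ', Polynomial.finsetSum_coeff, Polynomial.coeff_mul_C, Polynomial.coeff_map,
          Polynomial.coeff_zero] at h5
        rw [hg, map_sum]
        refine Eq.trans ?_ h5
        push_cast
        refine Finset.sum_congr rfl fun i _ => ?_
        rw [map_mul, Polynomial.aeval_C, map_pow, Polynomial.aeval_X]
        rfl
      have h6 : g = 0 := by
        by_contra hne
        exact htr ⟨g, hne, h4⟩
      intro i hi
      have h7 : g.coeff i = (Q i).coeff k := by
        rw [hg, Polynomial.finsetSum_coeff, Finset.sum_eq_single i]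
        · rw [Polynomial.coeff_C_mul, Polynomial.coeff_X_pow, if_pos rfl, mul_one]
        · intro j _ hj
          rw [Polynomial.coeff_C_mul, Polynomial.coeff_X_pow, if_neg (Ne.symm hj), mul_zero]
        · intro h
          exact absurd hi h
      rw [← h7, h6, Polynomial.coeff_zero]
    have h3' : Q F.natDegree = 0 := by
      ext1 k
      rw [Polynomial.coeff_zero]
      exact h2 k _ (Finset.self_mem_range_succ _)
    have h4 := hQv F.natDegree
    rw [h3', map_zero] at h4
    have h5 : F.coeff F.natDegree = 0 := hx (by rw [← h4, map_zero])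
    exact hF (Polynomial.leadingCoeff_eq_zero.1 h5)
  have hle2 : κ ≤ M := by
    rw [hκ, IntermediateField.adjoin_le_iff]
    rintro z hz
    rcases hz with rfl | ⟨i, rfl⟩
    · exact IntermediateField.subset_adjoin K _ (Set.mem_insert _ _)
    · rw [hl]
      unfold lc
      refine sum_mem fun j _ => mul_mem (M.algebraMap_mem _) ?_
      exact IntermediateField.subset_adjoin K _ (Set.mem_insert_of_mem _ ⟨j, rfl⟩)
  have hM2 : M ≤ (IntermediateField.adjoin κ {x j₀}).restrictScalars K := by
    rw [hMd, IntermediateField.adjoin_le_iff]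
    rintro z hz
    rcases hz with rfl | ⟨j, rfl⟩
    · exact (IntermediateField.adjoin κ {x j₀}).algebraMap_mem wk
    · show x j ∈ IntermediateField.adjoin κ {x j₀}
      rw [hab j]
      refine (IntermediateField.adjoin κ {x j₀}).add_mem ?_ ?_
      · exact (IntermediateField.adjoin κ {x j₀}).algebraMap_mem ⟨a j, hle (hspan _ (ha j))⟩
      · rw [Algebra.smul_def]
        refine (IntermediateField.adjoin κ {x j₀}).mul_mem ?_ ?_
        · exact (IntermediateField.adjoin κ {x j₀}).algebraMap_mem (algebraMap K κ (b j))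
        · exact IntermediateField.mem_adjoin_simple_self _ _
  have hint : IsIntegral κ (x j₀) := Algebra.IsIntegral.isIntegral _
  rw [tow κ M hle2 (x j₀) (IntermediateField.subset_adjoin K _ (Set.mem_insert_of_mem _ ⟨j₀, rfl⟩))
    hM2 hint]
  refine Nat.mul_le_mul_right _ ?_
  exact (Polynomial.natDegree_le_natDegree (minpoly.degree_le_of_ne_zero _ _ hQ0 hQv')).trans hQd'

end Gen

open T3XDgGeM (ln ln_X Tq ln_Tq lp tp1 org org_same org_succAbove lp_add r_mul top_ne exists_dir)

section Dvd

/-- An irreducible equation divides all equations. -/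
theorem dvd_gen {R E : Type} [CommRing R] [IsDomain R] [UniqueFactorizationMonoid R] [Field E]
    (ev : R →+* E) (hinj : Function.Injective ev) (w : E) (F G : Polynomial R)
    (hF : Irreducible F) (hF1 : 1 ≤ F.natDegree)
    (hFe : Polynomial.eval₂ ev w F = 0) (hGe : Polynomial.eval₂ ev w G = 0) : F ∣ G := by
  have hιinj : Function.Injective (algebraMap R (FractionRing R)) :=
    IsFractionRing.injective R (FractionRing R)
  obtain ⟨φ, hφ⟩ : ∃ φ : FractionRing R →+* E, φ.comp (algebraMap R (FractionRing R)) = ev :=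
    ⟨IsFractionRing.lift hinj, RingHom.ext fun z => IsFractionRing.lift_algebraMap hinj z⟩
  have hprim : F.IsPrimitive := hF.isPrimitive (by omega)
  have hirr : Irreducible (F.map (algebraMap R (FractionRing R))) :=
    hprim.irreducible_iff_irreducible_map_fraction_map.1 hF
  have hvF : (F.map (algebraMap R (FractionRing R))).eval₂ φ w = 0 := by
    rw [Polynomial.eval₂_map, hφ]; exact hFe
  have hvG : (G.map (algebraMap R (FractionRing R))).eval₂ φ w = 0 := by
    rw [Polynomial.eval₂_map, hφ]; exact hGe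
  have hdvd : F.map (algebraMap R (FractionRing R)) ∣ G.map (algebraMap R (FractionRing R)) := by
    by_contra hnd
    obtain ⟨a, b, hab⟩ := (hirr.coprime_iff_not_dvd).2 hnd
    have h1 := congrArg (Polynomial.eval₂ φ w) hab
    rw [Polynomial.eval₂_add, Polynomial.eval₂_mul, Polynomial.eval₂_mul, hvF, hvG, mul_zero,
      mul_zero, add_zero, Polynomial.eval₂_one] at h1
    exact zero_ne_one h1
  obtain ⟨H, hH⟩ := hdvd
  obtain ⟨c, hcm, hc⟩ := IsLocalization.integerNormalization_spec (nonZeroDivisors R) H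
  have h2 : Polynomial.C c * G =
      F * IsLocalization.integerNormalization (nonZeroDivisors R) H := by
    apply Polynomial.map_injective (algebraMap R (FractionRing R)) hιinj
    rw [Polynomial.map_mul, Polynomial.map_mul, Polynomial.map_C, hH, hc, Algebra.smul_def]
    have e : algebraMap R (Polynomial (FractionRing R)) c =
        Polynomial.C (algebraMap R (FractionRing R) c) := rfl
    rw [e]
    ring
  have hpr : Prime F := hF.prime
  rcases hpr.dvd_or_dvd (Dvd.intro _ h2.symm) with h3 | h3
  · exfalso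
    have hc0 : c ≠ 0 := nonZeroDivisors.ne_zero hcm
    have h4 := Polynomial.natDegree_le_of_dvd h3 (Polynomial.C_ne_zero.2 hc0)
    rw [Polynomial.natDegree_C] at h4
    omega
  · exact h3

variable {K E : Type} [Field K] [Field E] [Algebra K E]

theorem dvd_of_ev (x : Fin 3 → E) (hx : AlgebraicIndependent K x) (w : E) (F G : Polynomial (Pl 3 K))
    (hF : Irreducible F) (hF1 : 1 ≤ F.natDegree)
    (hFe : Polynomial.eval₂ ((MvPolynomial.aeval x : Pl 3 K →ₐ[K] E) : Pl 3 K →+* E) w F = 0)
    (hGe : Polynomial.eval₂ ((MvPolynomial.aeval x : Pl 3 K →ₐ[K] E) : Pl 3 K →+* E) w G = 0) :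
    F ∣ G :=
  dvd_gen ((MvPolynomial.aeval x : Pl 3 K →ₐ[K] E) : Pl 3 K →+* E) hx w F G hF hF1 hFe hGe

end Dvd

section Low

variable {K S : Type} [Field K] [CommRing S] [Algebra K S]

/-- The coefficients of the top forms at `v`. -/
noncomputable def cf (v : Fin 3 → K) (D : ℕ) (F : Polynomial (Pl 3 K)) : Polynomial K :=
  ∑ i ∈ Finset.range (F.natDegree + 1),
    Polynomial.C (MvPolynomial.eval v (MvPolynomial.homogeneousComponent D (F.coeff i))) *
      Polynomial.X ^ i

/-- Substitution of a line in the coefficients and of `w` for the variable. -/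
noncomputable def Ps (a : Fin 3 → S) (v : Fin 3 → K) (w : S) :
    Polynomial (Pl 3 K) →+* Polynomial S :=
  Polynomial.eval₂RingHom ((ln a v : Pl 3 K →ₐ[K] Polynomial S) : Pl 3 K →+* Polynomial S)
    (Polynomial.C w)

theorem Ps_apply (a : Fin 3 → S) (v : Fin 3 → K) (w : S) (F : Polynomial (Pl 3 K)) :
    Ps a v w F = Polynomial.eval₂
      ((ln a v : Pl 3 K →ₐ[K] Polynomial S) : Pl 3 K →+* Polynomial S) (Polynomial.C w) F := rfl

theorem Ps_sum (a : Fin 3 → S) (v : Fin 3 → K) (w : S) (F : Polynomial (Pl 3 K)) :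
    Ps a v w F = ∑ i ∈ Finset.range (F.natDegree + 1),
      ln a v (F.coeff i) * Polynomial.C (w ^ i) := by
  rw [Ps_apply, Polynomial.eval₂_eq_sum_range]
  refine Finset.sum_congr rfl fun i _ => ?_
  rw [Polynomial.C_pow]
  rfl

theorem Ps_deg (a : Fin 3 → S) (v : Fin 3 → K) (w : S) (F : Polynomial (Pl 3 K)) (D : ℕ)
    (hd : ∀ i, (F.coeff i).totalDegree ≤ D) : (Ps a v w F).natDegree ≤ D := by
  rw [Ps_sum]
  refine Polynomial.natDegree_sum_le_of_forall_le _ _ fun i _ => ?_
  exact (Polynomial.natDegree_mul_C_le _ _).trans (ln_Tq a v (F.coeff i) D (hd i)).1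

theorem Ps_coeff (a : Fin 3 → S) (v : Fin 3 → K) (w : S) (F : Polynomial (Pl 3 K)) (D : ℕ)
    (hd : ∀ i, (F.coeff i).totalDegree ≤ D) :
    (Ps a v w F).coeff D = Polynomial.aeval w (cf v D F) := by
  rw [Ps_sum, Polynomial.finsetSum_coeff, cf, map_sum]
  refine Finset.sum_congr rfl fun i _ => ?_
  rw [Polynomial.coeff_mul_C, (ln_Tq a v (F.coeff i) D (hd i)).2, map_mul, Polynomial.aeval_C,
    map_pow, Polynomial.aeval_X]

theorem cf_coeff (v : Fin 3 → K) (D : ℕ) (F : Polynomial (Pl 3 K)) (i : ℕ) (hi : i ≤ F.natDegree) :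
    (cf v D F).coeff i = MvPolynomial.eval v (MvPolynomial.homogeneousComponent D (F.coeff i)) := by
  rw [cf, Polynomial.finsetSum_coeff, Finset.sum_eq_single i]
  · rw [Polynomial.coeff_C_mul, Polynomial.coeff_X_pow, if_pos rfl, mul_one]
  · intro j _ hj
    rw [Polynomial.coeff_C_mul, Polynomial.coeff_X_pow, if_neg (Ne.symm hj), mul_zero]
  · intro h
    exact absurd (Finset.mem_range.2 (by omega)) h

variable (v : Fin 3 → K) (r : Fin 3)

theorem ln_C' (a : Fin 3 → S) (c : K) :
    ln a v (MvPolynomial.C c) = Polynomial.C (algebraMap K S c) := (ln a v).commutes c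

theorem ln_r (l : Fin 2 → S) : ln (org r l) v (MvPolynomial.X r) =
    Polynomial.C (algebraMap K S (v r)) * Polynomial.X := by
  rw [ln_X, org_same, map_zero, zero_add]

theorem ln_lp (hv : v r ≠ 0) (l : Fin 2 → S) (a : Fin 2) :
    ln (org r l) v (lp v r a) = Polynomial.C (l a) := by
  have h1 : ln (org r l) v (MvPolynomial.X (r.succAbove a)) = Polynomial.C (l a) +
      Polynomial.C (algebraMap K S (v (r.succAbove a))) * Polynomial.X := by
    rw [ln_X, org_succAbove]
  rw [T3XDgGeM.lp, map_sub, map_mul, h1, ln_C', ln_r, ← mul_assoc, ← map_mul, ← map_mul,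
    div_mul_cancel₀ _ hv]
  ring

theorem ln_t (hv : v r ≠ 0) (l : Fin 2 → S) : ln (org r l) v (tp1 v r) = Polynomial.X := by
  rw [tp1, map_mul, ln_C', ln_r, ← mul_assoc, ← map_mul, ← map_mul, inv_mul_cancel₀ hv, map_one,
    map_one, one_mul]

theorem ln_aeval (hv : v r ≠ 0) (l : Fin 2 → S) (p : MvPolynomial (Fin 2) K) :
    ln (org r l) v (MvPolynomial.aeval (lp v r) p) = Polynomial.C (MvPolynomial.aeval l p) := by
  induction p using MvPolynomial.induction_on with
  | C c =>
    rw [MvPolynomial.aeval_C, MvPolynomial.aeval_C]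
    exact ln_C' v _ c
  | add p q hp hq => rw [map_add, map_add, hp, hq, map_add, map_add]
  | mul_X p i hp =>
    rw [map_mul, map_mul, hp, MvPolynomial.aeval_X, ln_lp v r hv, map_mul, MvPolynomial.aeval_X,
      map_mul]

end Low

section Univ

variable {K : Type} [Field K] (v : Fin 3 → K) (r : Fin 3)

/-- The variables. -/
noncomputable def vr (K : Type) [Field K] (a : Fin 2) : Polynomial (MvPolynomial (Fin 2) K) :=
  Polynomial.C (MvPolynomial.X a)

/-- The universal substitution. -/
noncomputable def Ph : Polynomial (Pl 3 K) →+* Polynomial (Polynomial (MvPolynomial (Fin 2) K)) :=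
  Ps (org r (vr K)) v Polynomial.X

/-- A polynomial in `l`, as a polynomial in `x`. -/
noncomputable def up : Polynomial (MvPolynomial (Fin 2) K) →+* Polynomial (Pl 3 K) :=
  Polynomial.mapRingHom ((MvPolynomial.aeval (lp v r) : MvPolynomial (Fin 2) K →ₐ[K] Pl 3 K) :
    MvPolynomial (Fin 2) K →+* Pl 3 K)

theorem Ph_C (G : Pl 3 K) : Ph v r (Polynomial.C G) =
    ln (org r (vr K)) v G := by
  rw [Ph, Ps_apply, Polynomial.eval₂_C]
  rfl

theorem Ph_X : Ph v r Polynomial.X = Polynomial.C Polynomial.X := by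
  rw [Ph, Ps_apply, Polynomial.eval₂_X]

theorem Ph_up (hv : v r ≠ 0) (q : Polynomial (MvPolynomial (Fin 2) K)) :
    Ph v r (up v r q) = Polynomial.C q := by
  have h : (Ph v r).comp (up v r) = Polynomial.C := by
    refine Polynomial.ringHom_ext (fun p => ?_) ?_
    · rw [RingHom.comp_apply]
      have h1 : up v r (Polynomial.C p) = Polynomial.C (MvPolynomial.aeval (lp v r) p) := by
        rw [up, Polynomial.coe_mapRingHom, Polynomial.map_C]
        rfl
      rw [h1, Ph_C, ln_aeval v r hv]
      congr 1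
      have h2 : (MvPolynomial.aeval (vr K) : MvPolynomial (Fin 2) K →ₐ[K] _) =
          Polynomial.CAlgHom := by
        apply MvPolynomial.algHom_ext
        intro i
        rw [MvPolynomial.aeval_X]
        rfl
      rw [h2]
      rfl
    · rw [RingHom.comp_apply]
      have h1 : up v r Polynomial.X = Polynomial.X := by
        rw [up, Polynomial.coe_mapRingHom, Polynomial.map_X]
      rw [h1, Ph_X]
  exact congrArg (fun f : Polynomial (MvPolynomial (Fin 2) K) →+* _ => f q) h

theorem Ph_t (hv : v r ≠ 0) : Ph v r (Polynomial.C (tp1 v r)) = Polynomial.X := by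
  rw [Ph_C, ln_t v r hv]

/-- The degree along the line. -/
theorem Ph_ne (D : ℕ) (F : Polynomial (Pl 3 K)) (hd : ∀ i, (F.coeff i).totalDegree ≤ D)
    (i₀ : ℕ) (hi₀ : i₀ ≤ F.natDegree)
    (hv : MvPolynomial.eval v (MvPolynomial.homogeneousComponent D (F.coeff i₀)) ≠ 0) :
    (D : WithBot ℕ) ≤ (Ph v r F).degree := by
  refine Polynomial.le_degree_of_ne_zero ?_
  rw [Ph, Ps_coeff _ _ _ _ _ hd]
  intro h
  apply hv
  rw [← cf_coeff v D F i₀ hi₀]
  have h1 : Polynomial.aeval (Polynomial.X : Polynomial (MvPolynomial (Fin 2) K)) (cf v D F) =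
      (cf v D F).map (algebraMap K (MvPolynomial (Fin 2) K)) := rfl
  rw [h1] at h
  have h2 := congrArg (fun p => p.coeff i₀) h
  simp only [Polynomial.coeff_map, Polynomial.coeff_zero] at h2
  exact (map_eq_zero_iff _ (MvPolynomial.C_injective (Fin 2) K)).1 h2

end Univ

section Part2

variable {K E : Type} [Field K] [Field E] [Algebra K E]

theorem cons_aeval (l : Fin 2 → E) (w : E) (P : MvPolynomial (Fin 3) K) :
    MvPolynomial.aeval (Fin.cons w l : Fin 3 → E) P =
      Polynomial.eval₂ ((MvPolynomial.aeval l : MvPolynomial (Fin 2) K →ₐ[K] E) :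
        MvPolynomial (Fin 2) K →+* E) w (MvPolynomial.finSuccEquiv K 2 P) := by
  induction P using MvPolynomial.induction_on with
  | C c =>
    rw [MvPolynomial.aeval_C, ← MvPolynomial.algebraMap_eq, AlgEquiv.commutes]
    have e : algebraMap K (Polynomial (MvPolynomial (Fin 2) K)) c =
        Polynomial.C (MvPolynomial.C c) := rfl
    rw [e, Polynomial.eval₂_C]
    show algebraMap K E c = MvPolynomial.aeval l (MvPolynomial.C c)
    rw [MvPolynomial.aeval_C]
  | add p q hp hq => rw [map_add, map_add, Polynomial.eval₂_add, hp, hq]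
  | mul_X p i hp =>
    rw [map_mul, map_mul, Polynomial.eval₂_mul, hp, MvPolynomial.aeval_X]
    congr 1
    refine Fin.cases ?_ (fun j => ?_) i
    · rw [MvPolynomial.finSuccEquiv_X_zero, Polynomial.eval₂_X]
      rfl
    · rw [MvPolynomial.finSuccEquiv_X_succ, Polynomial.eval₂_C]
      show (Fin.cons w l : Fin 3 → E) j.succ = MvPolynomial.aeval l (MvPolynomial.X j)
      rw [MvPolynomial.aeval_X, Fin.cons_succ]

/-- The linear forms. -/
noncomputable def lE (x : Fin 3 → E) (v : Fin 3 → K) (r : Fin 3) (a : Fin 2) : E :=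
  MvPolynomial.aeval x (lp v r a)

theorem ev_up (x : Fin 3 → E) (w : E) (v : Fin 3 → K) (r : Fin 3)
    (q : Polynomial (MvPolynomial (Fin 2) K)) :
    Polynomial.eval₂ ((MvPolynomial.aeval x : Pl 3 K →ₐ[K] E) : Pl 3 K →+* E) w (up v r q) =
      Polynomial.eval₂ ((MvPolynomial.aeval (lE x v r) : MvPolynomial (Fin 2) K →ₐ[K] E) :
        MvPolynomial (Fin 2) K →+* E) w q := by
  rw [up, Polynomial.coe_mapRingHom, Polynomial.eval₂_map]
  congr 1
  have h : (MvPolynomial.aeval x : Pl 3 K →ₐ[K] E).comp
      (MvPolynomial.aeval (lp v r) : MvPolynomial (Fin 2) K →ₐ[K] Pl 3 K) =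
      MvPolynomial.aeval (lE x v r) := by
    rw [MvPolynomial.comp_aeval]
    rfl
  rw [← h]
  rfl

theorem small (x : Fin 3 → E) (hx : AlgebraicIndependent K x) (w : E) (F : Polynomial (Pl 3 K))
    (hF : Irreducible F) (hF1 : 1 ≤ F.natDegree)
    (hFe : Polynomial.eval₂ ((MvPolynomial.aeval x : Pl 3 K →ₐ[K] E) : Pl 3 K →+* E) w F = 0)
    (v : Fin 3 → K) (r : Fin 3) (D : ℕ) (hdeg : (D : WithBot ℕ) ≤ (Ph v r F).degree)
    (G : Polynomial (Pl 3 K))
    (hGe : Polynomial.eval₂ ((MvPolynomial.aeval x : Pl 3 K →ₐ[K] E) : Pl 3 K →+* E) w G = 0)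
    (hG : (Ph v r G).degree < D) : Ph v r G = 0 := by
  by_contra hne
  have h1 : Ph v r F ∣ Ph v r G := map_dvd _ (dvd_of_ev x hx w F G hF hF1 hFe hGe)
  exact absurd (hdeg.trans (Polynomial.degree_le_of_dvd h1 hne)) (not_le.2 hG)

/-- The powers of the parameter are linearly independent. -/
theorem indep (x : Fin 3 → E) (hx : AlgebraicIndependent K x) (w : E) (F : Polynomial (Pl 3 K))
    (hF : Irreducible F) (hF1 : 1 ≤ F.natDegree)
    (hFe : Polynomial.eval₂ ((MvPolynomial.aeval x : Pl 3 K →ₐ[K] E) : Pl 3 K →+* E) w F = 0)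
    (v : Fin 3 → K) (r : Fin 3) (hv : v r ≠ 0) (D : ℕ)
    (hdeg : (D : WithBot ℕ) ≤ (Ph v r F).degree) (S : Set E)
    (hS : S = Set.range (Fin.cons w (lE x v r) : Fin 3 → E)) :
    LinearIndependent (IntermediateField.adjoin K S) fun i : Fin D =>
      MvPolynomial.aeval x (tp1 v r) ^ (i : ℕ) := by
  subst hS
  rw [← LinearIndependent.iff_fractionRing
    (Algebra.adjoin K (Set.range (Fin.cons w (lE x v r) : Fin 3 → E)))
    (IntermediateField.adjoin K (Set.range (Fin.cons w (lE x v r) : Fin 3 → E))),
    Fintype.linearIndependent_iff]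
  intro c hc
  have hP : ∀ i, ∃ P : MvPolynomial (Fin 3) K,
      MvPolynomial.aeval (Fin.cons w (lE x v r) : Fin 3 → E) P = (c i : E) := by
    intro i
    have h1 : ∀ y : E, y ∈ Algebra.adjoin K (Set.range (Fin.cons w (lE x v r) :
        Fin 3 → E)) → ∃ P : MvPolynomial (Fin 3) K,
        MvPolynomial.aeval (Fin.cons w (lE x v r) : Fin 3 → E) P = y := by
      intro y hy
      rw [Algebra.adjoin_range_eq_range_aeval] at hy
      exact hy
    exact h1 _ (c i).2
  choose P hP using hP
  set Q : Fin D → Polynomial (MvPolynomial (Fin 2) K) := fun i =>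
    MvPolynomial.finSuccEquiv K 2 (P i) with hQ
  set G : Polynomial (Pl 3 K) := ∑ i : Fin D, up v r (Q i) * Polynomial.C (tp1 v r) ^ (i : ℕ)
    with hG
  have hGe : Polynomial.eval₂ ((MvPolynomial.aeval x : Pl 3 K →ₐ[K] E) : Pl 3 K →+* E) w G = 0 := by
    rw [hG, Polynomial.eval₂_finsetSum, ← hc]
    refine Finset.sum_congr rfl fun i _ => ?_
    rw [Polynomial.eval₂_mul, Polynomial.eval₂_pow, Polynomial.eval₂_C, ev_up, hQ, ← cons_aeval, hP]
    rfl
  have hPG : Ph v r G = ∑ i : Fin D, Polynomial.C (Q i) * Polynomial.X ^ (i : ℕ) := by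
    rw [hG, map_sum]
    refine Finset.sum_congr rfl fun i _ => ?_
    rw [map_mul, map_pow, Ph_up v r hv, Ph_t v r hv]
  have hG0 : Ph v r G = 0 := by
    refine small x hx w F hF hF1 hFe v r D hdeg G hGe ?_
    rw [hPG]
    exact Polynomial.degree_sum_fin_lt Q
  intro i
  have hQi : Q i = 0 := by
    have h1 : (∑ i : Fin D, Polynomial.C (Q i) * Polynomial.X ^ (i : ℕ) :
        Polynomial (Polynomial (MvPolynomial (Fin 2) K))).coeff i = Q i := by
      rw [Polynomial.finsetSum_coeff, Finset.sum_eq_single i]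
      · rw [Polynomial.coeff_C_mul, Polynomial.coeff_X_pow, if_pos rfl, mul_one]
      · intro j _ hj
        rw [Polynomial.coeff_C_mul, Polynomial.coeff_X_pow, if_neg, mul_zero]
        intro h
        exact hj (Fin.ext h.symm)
      · intro h
        exact absurd (Finset.mem_univ i) h
    rw [← h1, ← hPG, hG0, Polynomial.coeff_zero]
  have hPi : P i = 0 := (MvPolynomial.finSuccEquiv K 2).injective (by rw [map_zero]; exact hQi)
  apply Subtype.ext
  rw [← hP i, hPi, map_zero]
  rfl

theorem ev_ln (κ : IntermediateField K E) (a0 : Fin 3 → κ) (v : Fin 3 → K) (τ : E)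
    (x : Fin 3 → E) (h : ∀ i, x i = a0 i + algebraMap K E (v i) * τ) (G : Pl 3 K) :
    Polynomial.aeval τ (ln a0 v G) = MvPolynomial.aeval x G := by
  induction G using MvPolynomial.induction_on with
  | C c =>
    rw [ln_C', Polynomial.aeval_C, MvPolynomial.aeval_C]
    rfl
  | add p q hp hq => rw [map_add, map_add, map_add, hp, hq]
  | mul_X p i hp =>
    rw [map_mul, map_mul, map_mul, hp, MvPolynomial.aeval_X, h i]
    congr 1
    rw [ln_X, map_add, map_mul, Polynomial.aeval_C, Polynomial.aeval_C, Polynomial.aeval_X]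
    rfl

theorem x_eq (x : Fin 3 → E) (v : Fin 3 → K) (r : Fin 3) (hv : v r ≠ 0) (i : Fin 3) :
    x i = org r (lE x v r) i + algebraMap K E (v i) * MvPolynomial.aeval x (tp1 v r) := by
  rcases Fin.eq_self_or_eq_succAbove r i with h | ⟨a, h⟩
  · subst h
    rw [org_same, zero_add]
    have h1 := congrArg (MvPolynomial.aeval x) (r_mul v i hv)
    rw [map_mul, MvPolynomial.aeval_C, MvPolynomial.aeval_X] at h1
    exact h1.symm
  · subst h
    rw [org_succAbove, lE]
    have h1 := congrArg (MvPolynomial.aeval x) (lp_add v r a)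
    rw [map_add, map_mul, MvPolynomial.aeval_C, MvPolynomial.aeval_X] at h1
    exact h1.symm

/-- The parameter is algebraic. -/
theorem tau_int (x : Fin 3 → E) (hx : AlgebraicIndependent K x) (w : E) (F : Polynomial (Pl 3 K))
    (hF : Irreducible F) (hF1 : 1 ≤ F.natDegree)
    (hFe : Polynomial.eval₂ ((MvPolynomial.aeval x : Pl 3 K →ₐ[K] E) : Pl 3 K →+* E) w F = 0)
    (v : Fin 3 → K) (r : Fin 3) (hv : v r ≠ 0) (D : ℕ) (hD : 1 ≤ D)
    (hd : ∀ i, (F.coeff i).totalDegree ≤ D) (i₀ : ℕ) (hi₀ : i₀ ≤ F.natDegree)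
    (hv0 : MvPolynomial.eval v (MvPolynomial.homogeneousComponent D (F.coeff i₀)) ≠ 0)
    (κ : IntermediateField K E) (hwκ : w ∈ κ) (hlκ : ∀ a, lE x v r a ∈ κ) :
    IsIntegral κ (MvPolynomial.aeval x (tp1 v r) : E) := by
  have hdeg := Ph_ne v r D F hd i₀ hi₀ hv0
  set τ : E := MvPolynomial.aeval x (tp1 v r) with hτ
  set lk : Fin 2 → κ := fun a => ⟨lE x v r a, hlκ a⟩ with hlk
  set wk : κ := ⟨w, hwκ⟩ with hwk
  have hcoe : ∀ i, ((org r lk i : κ) : E) = org r (lE x v r) i := by
    intro i
    rcases Fin.eq_self_or_eq_succAbove r i with h | ⟨a, h⟩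
    · subst h
      rw [org_same, org_same]
      rfl
    · subst h
      rw [org_succAbove, org_succAbove]
  have hx' : ∀ i, x i = (org r lk i : κ) + algebraMap K E (v i) * τ := by
    intro i
    rw [hcoe]
    exact x_eq x v r hv i
  have hev : Polynomial.aeval τ (Ps (org r lk) v wk F) = 0 := by
    rw [Ps_sum, map_sum, ← hFe, Polynomial.eval₂_eq_sum_range]
    refine Finset.sum_congr rfl fun i _ => ?_
    rw [map_mul, ev_ln κ (org r lk) v τ x hx', Polynomial.aeval_C]
    rfl
  have hne : Ps (org r lk) v wk F ≠ 0 := by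
    intro h0
    have h1 := Ps_coeff (org r lk) v wk F D hd
    rw [h0, Polynomial.coeff_zero] at h1
    have h2 : Polynomial.aeval w (cf v D F) = 0 := by
      have h3 := congrArg (fun z : κ => (z : E)) h1
      have h4 : ((Polynomial.aeval wk (cf v D F) : κ) : E) = Polynomial.aeval w (cf v D F) := by
        have h5 := Polynomial.aeval_algebraMap_apply E wk (cf v D F)
        exact h5.symm
      rw [← h4]
      exact h3.symm
    set q : Polynomial (MvPolynomial (Fin 2) K) :=
      (cf v D F).map (algebraMap K (MvPolynomial (Fin 2) K)) with hq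
    have hGe : Polynomial.eval₂ ((MvPolynomial.aeval x : Pl 3 K →ₐ[K] E) : Pl 3 K →+* E) w
        (up v r q) = 0 := by
      rw [ev_up, hq, Polynomial.eval₂_map]
      have h6 : ((MvPolynomial.aeval (lE x v r) : MvPolynomial (Fin 2) K →ₐ[K] E) :
          MvPolynomial (Fin 2) K →+* E).comp (algebraMap K (MvPolynomial (Fin 2) K)) =
          algebraMap K E := AlgHom.comp_algebraMap _
      rw [h6]
      exact h2
    have h7 := small x hx w F hF hF1 hFe v r D hdeg (up v r q) hGe (by
      rw [Ph_up v r hv]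
      refine lt_of_le_of_lt Polynomial.degree_C_le ?_
      exact_mod_cast hD)
    rw [Ph_up v r hv] at h7
    have h8 : q = 0 := Polynomial.C_eq_zero.1 h7
    apply hv0
    rw [← cf_coeff v D F i₀ hi₀]
    have h9 := congrArg (fun p => p.coeff i₀) h8
    simp only [hq, Polynomial.coeff_map, Polynomial.coeff_zero] at h9
    exact (map_eq_zero_iff _ (MvPolynomial.C_injective (Fin 2) K)).1 h9
  have halg : IsAlgebraic κ τ := ⟨_, hne, hev⟩
  exact halg.isIntegral

/-- The lower bound. -/
theorem part2 [Infinite K] (x : Fin 3 → E) (hx : AlgebraicIndependent K x)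
    (w : E) (F : Polynomial (Pl 3 K)) (D : ℕ) (hF : Irreducible F) (hF1 : 1 ≤ F.natDegree)
    (hFe : Polynomial.eval₂ ((MvPolynomial.aeval x : Pl 3 K →ₐ[K] E) : Pl 3 K →+* E) w F = 0)
    (hd : ∀ i, (F.coeff i).totalDegree ≤ D) (hex : ∃ i, (F.coeff i).totalDegree = D) :
    ∃ A : Fin 2 → Fin 3 → K,
      D * Module.finrank (IntermediateField.adjoin K (insert w (Set.range x))) E ≤
        Module.finrank (IntermediateField.adjoin K (insert w (Set.range (lc A x)))) E := by
  classical
  rcases Nat.eq_zero_or_pos D with hD | hD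
  · refine ⟨fun _ _ => 0, ?_⟩
    rw [hD, zero_mul]
    exact Nat.zero_le _
  obtain ⟨i₀, hi₀⟩ := hex
  have hFi : F.coeff i₀ ≠ 0 := by
    intro h
    rw [h, MvPolynomial.totalDegree_zero] at hi₀
    omega
  have hi₀' : i₀ ≤ F.natDegree := Polynomial.le_natDegree_of_ne_zero hFi
  have htop := top_ne (F.coeff i₀) hFi
  rw [hi₀] at htop
  obtain ⟨v, hv0, r, hv⟩ := exists_dir D hD (F.coeff i₀) htop
  set A : Fin 2 → Fin 3 → K := fun a j =>
    (if j = r.succAbove a then 1 else 0) - (if j = r then v (r.succAbove a) / v r else 0) with hA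
  refine ⟨A, ?_⟩
  have hlA : lc A x = lE x v r := by
    funext a
    rw [lc, lE, T3XDgGeM.lp, hA]
    simp only [map_sub, sub_mul, Finset.sum_sub_distrib]
    congr 1
    · rw [Finset.sum_eq_single (r.succAbove a)]
      · rw [if_pos rfl, map_one, one_mul, MvPolynomial.aeval_X]
      · intro j _ hj
        rw [if_neg hj, map_zero, zero_mul]
      · intro h
        exact absurd (Finset.mem_univ _) h
    · rw [Finset.sum_eq_single r]
      · rw [if_pos rfl, map_mul, MvPolynomial.aeval_C, MvPolynomial.aeval_X]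
      · intro j _ hj
        rw [if_neg hj, map_zero, zero_mul]
      · intro h
        exact absurd (Finset.mem_univ _) h
  set τ : E := MvPolynomial.aeval x (tp1 v r) with hτ
  set κ := IntermediateField.adjoin K (insert w (Set.range (lc A x))) with hκ
  set M := IntermediateField.adjoin K (insert w (Set.range x)) with hMd
  have hwκ : w ∈ κ := IntermediateField.subset_adjoin K _ (Set.mem_insert _ _)
  have hlκ : ∀ a, lE x v r a ∈ κ := fun a => by
    rw [← hlA]
    exact IntermediateField.subset_adjoin K _ (Set.mem_insert_of_mem _ ⟨a, rfl⟩)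
  have hint : IsIntegral κ τ :=
    tau_int x hx w F hF hF1 hFe v r hv D hD hd i₀ hi₀' hv0 κ hwκ hlκ
  have hind : LinearIndependent κ fun i : Fin D => τ ^ (i : ℕ) :=
    indep x hx w F hF hF1 hFe v r hv D (Ph_ne v r D F hd i₀ hi₀' hv0) _ (by
      rw [hlA, Fin.range_cons])
  have hxM : ∀ j, x j ∈ M := fun j =>
    IntermediateField.subset_adjoin K _ (Set.mem_insert_of_mem _ ⟨j, rfl⟩)
  have hGM : ∀ G : Pl 3 K, MvPolynomial.aeval x G ∈ M := by
    intro G
    induction G using MvPolynomial.induction_on with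
    | C c =>
      rw [MvPolynomial.aeval_C]
      exact M.algebraMap_mem c
    | add p q hp hq =>
      rw [map_add]
      exact M.add_mem hp hq
    | mul_X p i hp =>
      rw [map_mul, MvPolynomial.aeval_X]
      exact M.mul_mem hp (hxM i)
  have hle2 : κ ≤ M := by
    rw [hκ, IntermediateField.adjoin_le_iff]
    rintro z hz
    rcases hz with rfl | ⟨i, rfl⟩
    · exact IntermediateField.subset_adjoin K _ (Set.mem_insert _ _)
    · rw [hlA]
      exact hGM _
  have hM2 : M ≤ (IntermediateField.adjoin κ {τ}).restrictScalars K := by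
    rw [hMd, IntermediateField.adjoin_le_iff]
    rintro z hz
    rcases hz with rfl | ⟨j, rfl⟩
    · exact (IntermediateField.adjoin κ {τ}).algebraMap_mem ⟨_, hwκ⟩
    · show x j ∈ IntermediateField.adjoin κ {τ}
      rw [x_eq x v r hv j]
      refine (IntermediateField.adjoin κ {τ}).add_mem ?_ ?_
      · have h1 : org r (lE x v r) j ∈ κ := by
          rcases Fin.eq_self_or_eq_succAbove r j with h | ⟨a, h⟩
          · subst h
            rw [org_same]
            exact κ.zero_mem
          · subst h
            rw [org_succAbove]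
            exact hlκ a
        exact (IntermediateField.adjoin κ {τ}).algebraMap_mem ⟨_, h1⟩
      · refine (IntermediateField.adjoin κ {τ}).mul_mem ?_ ?_
        · exact (IntermediateField.adjoin κ {τ}).algebraMap_mem (algebraMap K κ (v j))
        · exact IntermediateField.mem_adjoin_simple_self _ _
  rw [tow κ M hle2 τ (hGM _) hM2 hint]
  refine Nat.mul_le_mul_right _ ?_
  rw [← IntermediateField.adjoin.finrank hint]
  have hfd : FiniteDimensional κ (IntermediateField.adjoin κ {τ}) :=
    IntermediateField.adjoin.finiteDimensional hint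
  have hind2 : LinearIndependent κ fun i : Fin D =>
      (⟨τ ^ (i : ℕ), pow_mem (IntermediateField.mem_adjoin_simple_self κ τ) _⟩ :
        IntermediateField.adjoin κ {τ}) :=
    LinearIndependent.of_comp (IntermediateField.val (IntermediateField.adjoin κ {τ})).toLinearMap
      hind
  have h := hind2.fintype_card_le_finrank
  rwa [Fintype.card_fin] at h

end Part2

end T3CfAM

open T3CfAM in
/-- (CfA) -/
theorem yCfA : StmtCfA := by
  intro K E _ _ _ _ x hx hf w F D hF hF1 hFe hd hex
  exact ⟨part1 x hx hf w F D hF.ne_zero hFe hd, part2 x hx w F D hF hF1 hFe hd hex⟩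
end Pool.Agent.Lib.MP_16285c_agX
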