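import Pool.Agent.Lib.MP_16285c_agX.T3.SpecD

/-!
# Threefolds with `λ₁ > λ₃`: degrees of sums, multiples and images (DgS)
-/

set_option autoImplicit false

namespace Pool.Agent.Lib.MP_16285c_agX

open Pool.Agent.Lib.MP_16285c_ag Pool.Agent.Lib.MP_16285c_agN

namespace T3DgSM

theorem mem_Vd {K E : Type} [Field K] [Field E] [Algebra K E] {s : ℕ} (y : Fin s → E) (n : ℕ)
    (v : E) : v ∈ Vd K y n ↔
      ∃ G : MvPolynomial (Fin s) K, G.totalDegree ≤ n ∧ MvPolynomial.aeval y G = v := by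
  unfold Vd
  rw [Submodule.mem_map]
  constructor
  · rintro ⟨G, hG, rfl⟩
    exact ⟨G, (MvPolynomial.mem_restrictTotalDegree (Fin s) n G).mp hG, rfl⟩
  · rintro ⟨G, hG, rfl⟩
    exact ⟨G, (MvPolynomial.mem_restrictTotalDegree (Fin s) n G).mpr hG, rfl⟩

theorem Vd_mul {K E : Type} [Field K] [Field E] [Algebra K E] {s : ℕ} (y : Fin s → E) (a b : ℕ) :
    Vd K y a * Vd K y b ≤ Vd K y (a + b) := by
  rw [Submodule.mul_le]
  intro v hv w hw
  obtain ⟨G, hG, rfl⟩ := (mem_Vd y a v).mp hv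
  obtain ⟨H, hH, rfl⟩ := (mem_Vd y b w).mp hw
  exact (mem_Vd y (a + b) _).mpr ⟨G * H, (MvPolynomial.totalDegree_mul G H).trans
    (Nat.add_le_add hG hH), map_mul _ _ _⟩

/-- Sums. -/
theorem dge_add {K E : Type} [Field K] [Field E] [Algebra K E] {s : ℕ} (y : Fin s → E)
    (w₁ w₂ : E) (d₁ d₂ : ℕ) (h₁ : Dge K y w₁ d₁) (h₂ : Dge K y w₂ d₂) :
    Dge K y (w₁ + w₂) (d₁ + d₂) := by
  obtain ⟨b₁, hb₁, W₁, hW₁, H₁⟩ := h₁
  obtain ⟨b₂, hb₂, W₂, hW₂, H₂⟩ := h₂
  refine ⟨b₁ * b₂, mul_ne_zero hb₁ hb₂, W₁ * W₂, hW₁.mul hW₂, fun a i hi => ?_⟩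
  rw [(Commute.all w₁ w₂).add_pow, Finset.mul_sum]
  refine Submodule.sum_mem _ fun j hj => ?_
  have hj' : j ≤ i := Nat.lt_succ_iff.mp (Finset.mem_range.mp hj)
  have e : (b₁ * b₂) ^ a * (w₁ ^ j * w₂ ^ (i - j) * (i.choose j : E)) =
      (i.choose j) • ((b₁ ^ a * w₁ ^ j) * (b₂ ^ a * w₂ ^ (i - j))) := by
    rw [nsmul_eq_mul]
    ring
  rw [e]
  refine nsmul_mem ?_ _
  have h1 := Submodule.mul_mem_mul (H₁ a j (hj'.trans hi))
    (H₂ a (i - j) ((Nat.sub_le i j).trans hi))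
  have h2 : W₁ * Vd K y (d₁ * a) * (W₂ * Vd K y (d₂ * a)) ≤
      W₁ * W₂ * Vd K y ((d₁ + d₂) * a) := by
    rw [mul_mul_mul_comm, add_mul]
    exact mul_le_mul' le_rfl (Vd_mul y _ _)
  exact h2 h1

/-- Multiples. -/
theorem dge_smul {K E : Type} [Field K] [Field E] [Algebra K E] {s : ℕ} (y : Fin s → E)
    (w : E) (c : K) (d : ℕ) (h : Dge K y w d) : Dge K y (algebraMap K E c * w) d := by
  obtain ⟨b, hb, W, hW, H⟩ := h
  refine ⟨b, hb, W, hW, fun a i hi => ?_⟩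
  have e : b ^ a * (algebraMap K E c * w) ^ i = (c ^ i) • (b ^ a * w ^ i) := by
    rw [Algebra.smul_def, map_pow]
    ring
  rw [e]
  exact Submodule.smul_mem _ _ (H a i hi)

/-- Images. -/
theorem dge_map {K k E E' : Type} [Field K] [Field k] [Algebra K k] [Field E] [Field E']
    [Algebra K E] [Algebra k E'] [Algebra K E'] [IsScalarTower K k E'] (β : E →ₐ[K] E') {s : ℕ}
    (y : Fin s → E) (w : E) (d : ℕ) (h : Dge K y w d) : Dge k (fun i => β (y i)) (β w) d := by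
  obtain ⟨b, hb, W, ⟨S, hS⟩, H⟩ := h
  have hspan : ∀ x ∈ W, β x ∈ Submodule.span k (β '' (S : Set E)) := by
    have h1 : Submodule.span K (S : Set E) ≤
        ((Submodule.span k (β '' (S : Set E))).restrictScalars K).comap β.toLinearMap := by
      rw [Submodule.span_le]
      intro x hx
      exact Submodule.subset_span ⟨x, hx, rfl⟩
    rw [hS] at h1
    exact h1
  refine ⟨β b, (map_ne_zero β).mpr hb, Submodule.span k (β '' (S : Set E)), ?_, fun a i hi => ?_⟩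
  · classical
    exact ⟨S.image β, by rw [Finset.coe_image]⟩
  · have h1 : ∀ n : ℕ, ∀ x ∈ W * Vd K y n,
        β x ∈ Submodule.span k (β '' (S : Set E)) * Vd k (fun i => β (y i)) n := by
      intro n x hx
      refine Submodule.mul_induction_on hx ?_ ?_
      · intro p hp v hv
        rw [map_mul]
        refine Submodule.mul_mem_mul (hspan p hp) ?_
        obtain ⟨G, hG, rfl⟩ := (mem_Vd y n v).mp hv
        refine (mem_Vd _ n _).mpr ⟨MvPolynomial.map (algebraMap K k) G,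
          (Finset.sup_mono (MvPolynomial.support_map_subset _ _)).trans hG, ?_⟩
        rw [MvPolynomial.aeval_map_algebraMap, MvPolynomial.comp_aeval_apply]
      · intro p q hp hq
        rw [map_add]
        exact Submodule.add_mem _ hp hq
    have h2 := h1 _ _ (H a i hi)
    rw [map_mul, map_pow, map_pow] at h2
    exact h2

end T3DgSM

open T3DgSM in
/-- (DgS) Sums, multiples, images. -/
theorem yDgS : StmtDgS :=
  ⟨fun _ _ _ _ _ _ y w₁ w₂ d₁ d₂ => dge_add y w₁ w₂ d₁ d₂,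
    fun _ _ _ _ _ _ y w c d => dge_smul y w c d,
    fun _ _ _ _ _ _ _ _ _ _ _ _ _ β _ y w d => dge_map β y w d⟩

end Pool.Agent.Lib.MP_16285c_agX
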