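import Pool.Agent.Lib.MP_16285c_agX.T3.SpecD
import Pool.Agent.Lib.MP_16285c_agN.CoreN
import Pool.Agent.Lib.MP_16285c_agN.G5

/-!
# Threefolds with `λ₁ > λ₃`: the core argument with an alternative (ZD3X, CoreA)
-/

set_option autoImplicit false

namespace Pool.Agent.Lib.MP_16285c_agX

open Pool.Agent.Lib.MP_16285c_ag Pool.Agent.Lib.MP_16285c_agN
open Pool.Agent.Lib.MP_16285c_agS (toF vanK StmtInvD StmtNoPowE StmtPresK StmtRkK StmtIrrK StmtPrimS StmtLowS StmtConjS StmtDescS StmtDom StmtUni)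

namespace T3CoreAM

theorem fse_C {K : Type} [Field K] {r : ℕ} (c : K) :
    MvPolynomial.finSuccEquiv K r (MvPolynomial.C c) = Polynomial.C (MvPolynomial.C c) := by
  exact (MvPolynomial.finSuccEquiv K r).commutes c

theorem fse_pderiv {K : Type} [Field K] {r : ℕ} (G : MvPolynomial (Fin (r + 1)) K) :
    MvPolynomial.finSuccEquiv K r (MvPolynomial.pderiv 0 G) =
      Polynomial.derivative (MvPolynomial.finSuccEquiv K r G) := by
  induction G using MvPolynomial.induction_on with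
  | C a => rw [MvPolynomial.pderiv_C, map_zero, fse_C, Polynomial.derivative_C]
  | add p q hp hq => simp only [map_add, hp, hq]
  | mul_X p i hp =>
    rw [Derivation.leibniz, map_add, map_mul, Polynomial.derivative_mul, smul_eq_mul, smul_eq_mul,
      map_mul, map_mul, hp, mul_comm (MvPolynomial.finSuccEquiv K r (MvPolynomial.X i)), add_comm]
    congr 2
    refine Fin.cases ?_ (fun j => ?_) i
    · rw [MvPolynomial.pderiv_X_self, map_one, MvPolynomial.finSuccEquiv_X_zero,
        Polynomial.derivative_X]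
    · rw [MvPolynomial.pderiv_X_of_ne (Fin.succ_ne_zero j), map_zero,
        MvPolynomial.finSuccEquiv_X_succ, Polynomial.derivative_C]

/-- `P` does not divide its derivative. -/
theorem not_dvd_der {K : Type} [Field K] [CharZero K] {n : ℕ} {P : Pl (n + 1) K}
    (hP : Irreducible P) (hm : MonZ P) : ¬ P ∣ MvPolynomial.pderiv 0 P := by
  rintro ⟨S, hS⟩
  have h1 : MvPolynomial.finSuccEquiv K n P ∣
      Polynomial.derivative (MvPolynomial.finSuccEquiv K n P) := by
    refine ⟨MvPolynomial.finSuccEquiv K n S, ?_⟩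
    rw [← fse_pderiv, hS, map_mul]
  have hpos : (MvPolynomial.finSuccEquiv K n P).natDegree ≠ 0 := by
    intro h0
    have h2 : MvPolynomial.finSuccEquiv K n P = 1 := (Polynomial.Monic.natDegree_eq_zero hm).1 h0
    have h3 : P = 1 := by
      apply (MvPolynomial.finSuccEquiv K n).injective
      rw [h2, map_one]
    exact hP.1 (h3 ▸ isUnit_one)
  have hne : Polynomial.derivative (MvPolynomial.finSuccEquiv K n P) ≠ 0 := by
    intro h0
    exact hpos (Polynomial.derivative_eq_zero.1 h0)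
  have h9 := Polynomial.natDegree_le_of_dvd h1 hne
  have h10 := Polynomial.natDegree_derivative_lt hpos
  omega

/-- Values at `(z₀, t)` of polynomials in `t`. -/
theorem aeval_up {K : Type} [Field K] {K' : Type} [Field K'] [Algebra K K'] {n : ℕ}
    (t : Fin n → K) (z₀ : K') (R : Pl n K) :
    MvPolynomial.aeval (pt t z₀) (up K n R) = algebraMap K K' (MvPolynomial.eval t R) := by
  unfold up
  rw [MvPolynomial.aeval_rename]
  have h1 : (pt t z₀ ∘ Fin.succ : Fin n → K') = algebraMap K K' ∘ t := by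
    funext i
    simp [pt]
  rw [h1, MvPolynomial.aeval_algebraMap_apply]
  rfl

/-- A polynomial which divides, modulo `P`, a polynomial in `t` does not vanish at `(z₀, t)`. -/
theorem ne_of_nrm {K : Type} [Field K] {K' : Type} [Field K'] [Algebra K K'] {n : ℕ}
    (t : Fin n → K) (z₀ : K') (P G A B : Pl (n + 1) K) (R : Pl n K) (h : up K n R = A * P + B * G)
    (hP : MvPolynomial.aeval (pt t z₀) P = 0) (hR : MvPolynomial.eval t R ≠ 0) :
    MvPolynomial.aeval (pt t z₀) G ≠ 0 := by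
  intro h0
  have h1 := congrArg (MvPolynomial.aeval (pt t z₀)) h
  rw [aeval_up, map_add, map_mul, map_mul, hP, h0, mul_zero, mul_zero, add_zero] at h1
  exact hR ((map_eq_zero _).1 h1)

/-- Values of polynomials over `K` at points over `K'`. -/
theorem eval_map' {K : Type} [Field K] {K' : Type} [Field K'] [Algebra K K'] {n : ℕ}
    (x : Fin n → K') (G : Pl n K) :
    MvPolynomial.eval x (MvPolynomial.map (algebraMap K K') G) = MvPolynomial.aeval x G := by
  rw [MvPolynomial.eval_map, MvPolynomial.aeval_def]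

theorem mem_vanK {K : Type} [Field K] {K' : Type} [Field K'] [Algebra K K'] {n : ℕ}
    (z : ℕ → Fin n → K') (M : ℕ) (G : Pl n K) :
    G ∈ vanK K z M ↔ ∀ t : ℕ, MvPolynomial.aeval (z (M * t)) G = 0 := by
  unfold vanK
  rw [Ideal.mem_comap, mem_van]
  simp only [eval_map']

end T3CoreAM

open Pool.Agent.Lib.MP_16285c_agX.T3CoreAM in
theorem yCoreA : StmtResF → StmtG1 → StmtRk2 → StmtRk3 → StmtTan → StmtPresK → StmtRkK →
    StmtIrrK → StmtPrimS → StmtNrmX → StmtMoveX → StmtTowX → StmtLowS → StmtCoreA := by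
  intro hRes h1 hr2 hr3 hTan hPresK hRkK hIrrK hPrimS hNrm hMove hTow hLowS
  intro K _ _ n P f σ M hn hP hmon hOf hPres hM E _ _ _ _ _ ρ hρ hmv e he hNoFull
  have hq : (Ideal.span {P}).IsPrime := (Ideal.span_singleton_prime hP.ne_zero).2 hP.prime
  have hPM : Pres (σ ^ M) (Ideal.span {P}) := G5M.pres_pow σ _ hPres M
  obtain ⟨F, u, w, hFm, hFd, hFi, hw, hFe⟩ := hPrimS K (n + 1) (Ideal.span {P}) E ρ
    (h1.1 K (n + 1) (Ideal.span {P}) E ρ)
  obtain ⟨H, G₂, hHm, hHi, hG₂, hTower⟩ := hTow K n P hmon hP E F hFm hFi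
  obtain ⟨G₁, hG₁, hG₁m⟩ := hMove K n P f σ M hP hOf hPM E ρ hρ hmv
  obtain ⟨R₁, A₁, B₁, hR₁, e₁⟩ := hNrm K n P hP hmon G₁ hG₁
  obtain ⟨R₂, A₂, B₂, hR₂, e₂⟩ := hNrm K n P hP hmon w
    (fun h => hw (Ideal.mem_span_singleton.2 h))
  obtain ⟨R₃, A₃, B₃, hR₃, e₃⟩ := hNrm K n P hP hmon _ (not_dvd_der hP hmon)
  obtain ⟨R₄, A₄, B₄, hR₄, e₄⟩ := hNrm K n P hP hmon e he
  refine ⟨H, G₂ * R₁ * R₂ * R₃ * R₄, hHm, hHi,
    mul_ne_zero (mul_ne_zero (mul_ne_zero (mul_ne_zero hG₂ hR₁) hR₂) hR₃) hR₄, ?_⟩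
  intro t hirr hGt
  rw [map_mul, map_mul, map_mul, map_mul] at hGt
  have hR₄t : MvPolynomial.eval t R₄ ≠ 0 := right_ne_zero_of_mul hGt
  have hGt' := left_ne_zero_of_mul hGt
  have hR₃t : MvPolynomial.eval t R₃ ≠ 0 := right_ne_zero_of_mul hGt'
  have hGt'' := left_ne_zero_of_mul hGt'
  have hR₂t : MvPolynomial.eval t R₂ ≠ 0 := right_ne_zero_of_mul hGt''
  have hGt3 := left_ne_zero_of_mul hGt''
  have hR₁t : MvPolynomial.eval t R₁ ≠ 0 := right_ne_zero_of_mul hGt3
  have hG₂t : MvPolynomial.eval t G₂ ≠ 0 := left_ne_zero_of_mul hGt3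
  refine ⟨(hTower t hG₂t hirr).1, ?_⟩
  intro K' _ _ _ z₀ htop hP' y N N' p p' hy0 horb hall hp hp' hne hNN hcl hcl'
  subst hNN
  have hcz : CharZero K' := charZero_of_injective_algebraMap (algebraMap K K').injective
  have hPz : MvPolynomial.aeval (pt t z₀) P = 0 := by
    rw [← hy0]
    exact (hall 0).1
  have hirrF := (hTower t hG₂t hirr).2 K' z₀ htop hPz
  rw [← hy0] at hirrF
  have hG₁y : MvPolynomial.aeval (y 0) G₁ ≠ 0 := by
    rw [hy0]
    exact ne_of_nrm t z₀ P G₁ A₁ B₁ R₁ e₁ hPz hR₁t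
  have hwy : MvPolynomial.aeval (y 0) w ≠ 0 := by
    rw [hy0]
    exact ne_of_nrm t z₀ P w A₂ B₂ R₂ e₂ hPz hR₂t
  have hdy : MvPolynomial.aeval (y 0) (MvPolynomial.pderiv 0 P) ≠ 0 := by
    rw [hy0]
    exact ne_of_nrm t z₀ P _ A₃ B₃ R₃ e₃ hPz hR₃t
  have hey : MvPolynomial.aeval (y 0) e ≠ 0 := by
    rw [hy0]
    exact ne_of_nrm t z₀ P e A₄ B₄ R₄ e₄ hPz hR₄t
  have hprime : (van y (N * N')).IsPrime :=
    CoreNM.van_isPrime y N N' p p' hp hp' hne hcl hcl'
  have hz0 : ∀ G ∈ van y (N * N'), MvPolynomial.eval (y 0) G = 0 := fun G hG => by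
    have := (mem_van y (N * N') G).1 hG 0
    rwa [mul_zero] at this
  have hP'van : MvPolynomial.map (algebraMap K K') P ∈ van y (N * N') := by
    rw [mem_van]
    intro s
    rw [eval_map']
    exact (hall _).1
  have hspan : Ideal.span {MvPolynomial.map (algebraMap K K') P} ≤ van y (N * N') :=
    (Ideal.span_singleton_le_iff_mem _).2 hP'van
  by_cases hnot : van y (N * N') ≤ Ideal.span {MvPolynomial.map (algebraMap K K') P}
  · exact Or.inl hnot
  right
  have hlt : Ideal.span {MvPolynomial.map (algebraMap K K') P} < van y (N * N') :=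
    lt_of_le_not_ge hspan hnot
  have hsp' : (Ideal.span {MvPolynomial.map (algebraMap K K') P}).IsPrime :=
    (Ideal.span_singleton_prime hP'.ne_zero).2 hP'.prime
  have hrk1 := hr2.2.2.2 K' (n + 1) (Ideal.span {MvPolynomial.map (algebraMap K K') P})
    (van y (N * N')) hlt
  have hrk2 := hr3.2.2 K' (n + 1) (MvPolynomial.map (algebraMap K K') P) hP'
  have hrk0 : rk (van y (N * N')) ≠ 0 := by
    intro h0
    have hall' := hr3.1 K' (n + 1) (van y (N * N')) (y 0) hz0 h0
    refine hG₁m K' y horb hG₁y ?_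
    funext i
    have hm := hall' (MvPolynomial.X i - MvPolynomial.C (y 0 i))
      (by rw [map_sub, MvPolynomial.eval_X, MvPolynomial.eval_C, sub_self])
    have := (mem_van y (N * N') _).1 hm 1
    rw [map_sub, MvPolynomial.eval_X, MvPolynomial.eval_C, mul_one] at this
    exact sub_eq_zero.1 this
  have h𝔭 : (vanK K y (N * N')).IsPrime := by
    unfold vanK
    exact Ideal.comap_isPrime _ _
  have hrk𝔭 : rk (vanK K y (N * N')) = rk (van y (N * N')) :=
    hRkK K K' (n + 1) (van y (N * N'))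
  have hP𝔭 : P ∈ vanK K y (N * N') := (mem_vanK y (N * N') P).2 fun s => (hall _).1
  have hle : Ideal.span {P} ≤ vanK K y (N * N') := (Ideal.span_singleton_le_iff_mem _).2 hP𝔭
  have hnot𝔭 : ∀ G : Pl (n + 1) K, MvPolynomial.aeval (y 0) G ≠ 0 → G ∉ vanK K y (N * N') := by
    intro G hG hGm
    have := (mem_vanK y (N * N') G).1 hGm 0
    rw [mul_zero] at this
    exact hG this
  have hPr𝔭 : Pres (σ ^ (N * N')) (vanK K y (N * N')) :=
    hPresK K (n + 1) f σ hOf K' y N N' p hp horb hcl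
  have hfull : rk (vanK K y (N * N')) + 1 ≠ n := by
    intro hcod
    have : IsDomain (CR (vanK K y (N * N'))) := Ideal.Quotient.isDomain _
    obtain ⟨ρb, hρb⟩ := hRes (n + 1) K (σ ^ (N * N')) (vanK K y (N * N')) h𝔭 hPr𝔭
      (FractionRing (CR (vanK K y (N * N'))))
    have hjac : ∀ m, MvPolynomial.eval (y m) (jac (f.map (algebraMap K K'))) ≠ 0 := by
      intro m
      have e : jac (f.map (algebraMap K K')) = MvPolynomial.map (algebraMap K K') (jac f) :=
        Pool.Agent.ZDO.map_Jc f (algebraMap K K')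
      rw [e, eval_map']
      exact (hall m).2
    have hGrd : Grd (van y (N * N')) (y 0) (n + 1 - rk (van y (N * N'))) :=
      hTan K' (n + 1) (f.map (algebraMap K K')) y (N * N') horb hjac
    have hirrL := hIrrK K K' (n + 1) (van y (N * N')) (y 0) hz0 hGrd (vanK K y (N * N')) rfl
      (FractionRing (CR (vanK K y (N * N')))) F hFm hirrF
    have hfin := h1.1 K (n + 1) (vanK K y (N * N')) (FractionRing (CR (vanK K y (N * N')))) ρb
    have hdeg := hLowS K (n + 1) (Ideal.span {P}) (vanK K y (N * N')) hle (σ ^ (N * N')) hPr𝔭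
      E ρ hρ (FractionRing (CR (vanK K y (N * N')))) ρb hρb hfin
      F u w hFm hirrL (hnot𝔭 w hwy) hFe
    rw [hFd] at hdeg
    have hlow := hNoFull (vanK K y (N * N')) hP𝔭 (hnot𝔭 _ hdy) (hnot𝔭 _ hey) (by omega) hcod
      (FractionRing (CR (vanK K y (N * N')))) ρb hρb
    omega
  exact ⟨h𝔭, hP𝔭, hnot𝔭 e hey, by omega, by omega, hPr𝔭⟩

end Pool.Agent.Lib.MP_16285c_agX
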