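import Pool.Agent.Lib.MP_16285c_agX.T3.SpecD
import Pool.Agent.Lib.MP_16285c_agX.Hrn.Fun

/-!
# The generic point (ZD3X, module GenS)
-/

set_option autoImplicit false

namespace Pool.Agent.Lib.MP_16285c_agX

open Pool.Agent.Lib.MP_16285c_ag Pool.Agent.Lib.MP_16285c_agN
open Pool.Agent.Lib.MP_16285c_agS (toF)
open scoped IntermediateField

namespace T3GenSM

open MvPolynomial (finSuccEquiv)

section

variable {κ E : Type} [Field κ] [Field E] [Algebra κ E] {c : ℕ} {P : MvPolynomial (Fin (c + 1)) κ}
  {ξ : Fin (c + 1) → E}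

theorem stp (hP : Irreducible P) (hm : (finSuccEquiv κ c P).Monic) (hg : GenN P ξ) : Stp κ ξ := by
  refine ⟨FunM.algInd hP hm hg.ker, ⟨finSuccEquiv κ c P, hm, ?_⟩, hg.top⟩
  have h := FunM.root (P := P) hg.ker
  rw [Polynomial.eval_map] at h
  exact h

theorem fin (hP : Irreducible P) (hm : (finSuccEquiv κ c P).Monic) (hg : GenN P ξ) :
    Module.finrank (IntermediateField.adjoin κ (Set.range fun i : Fin c => ξ i.succ)) E =
      (finSuccEquiv κ c P).natDegree := by
  have hai := FunM.algInd hP hm hg.ker
  let x : Fin c → E := fun i => ξ i.succ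
  let M : IntermediateField κ E := IntermediateField.adjoin κ (Set.range x)
  let x' : Fin c → M := fun i => ⟨x i, IntermediateField.subset_adjoin _ _ ⟨i, rfl⟩⟩
  let Q := finSuccEquiv κ c P
  let φ : MvPolynomial (Fin c) κ →+* M :=
    (MvPolynomial.aeval x' : MvPolynomial (Fin c) κ →ₐ[κ] M).toRingHom
  have hφ : (algebraMap M E).comp φ =
      (MvPolynomial.aeval x : MvPolynomial (Fin c) κ →ₐ[κ] E).toRingHom := by
    apply MvPolynomial.ringHom_ext
    · intro a
      change algebraMap M E (MvPolynomial.aeval x' (MvPolynomial.C a)) =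
        MvPolynomial.aeval x (MvPolynomial.C a)
      rw [MvPolynomial.aeval_C, MvPolynomial.aeval_C]
      rfl
    · intro i
      change algebraMap M E (MvPolynomial.aeval x' (MvPolynomial.X i)) =
        MvPolynomial.aeval x (MvPolynomial.X i)
      rw [MvPolynomial.aeval_X, MvPolynomial.aeval_X]
      rfl
  have hφ' : ∀ a, algebraMap M E (φ a) = MvPolynomial.aeval x a := fun a =>
    RingHom.congr_fun hφ a
  have hinj : Function.Injective φ := by
    have h1 : Function.Injective ((algebraMap M E).comp φ) := by
      rw [hφ]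
      exact hai
    rw [RingHom.coe_comp] at h1
    exact Function.Injective.of_comp h1
  have hroot : Polynomial.aeval (ξ 0) (Q.map φ) = 0 := by
    rw [Polynomial.aeval_def, ← Polynomial.eval_map, Polynomial.map_map, hφ]
    exact FunM.root hg.ker
  have hmon : (Q.map φ).Monic := hm.map φ
  have hint : IsIntegral M (ξ 0) := ⟨Q.map φ, hmon, by rwa [← Polynomial.aeval_def]⟩
  have htop' : IntermediateField.adjoin M {ξ 0} = ⊤ := by
    apply IntermediateField.restrictScalars_injective κ
    rw [IntermediateField.adjoin_adjoin_left, IntermediateField.restrictScalars_top, ← hg.top]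
    congr 1
    ext y
    simp only [Set.mem_union, Set.mem_range, Set.mem_singleton_iff, x]
    constructor
    · rintro (⟨i, hi⟩ | h)
      · exact ⟨i.succ, hi⟩
      · exact ⟨0, h.symm⟩
    · rintro ⟨i, hi⟩
      revert hi
      refine Fin.cases ?_ (fun j => ?_) i
      · intro h
        exact Or.inr h.symm
      · intro h
        exact Or.inl ⟨j, h⟩
  have hirr : Irreducible (Q.map φ) := by
    let _ : Algebra (MvPolynomial (Fin c) κ) M := φ.toAlgebra
    have : FaithfulSMul (MvPolynomial (Fin c) κ) M :=
      (faithfulSMul_iff_algebraMap_injective _ _).2 hinj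
    have : IsFractionRing (MvPolynomial (Fin c) κ) M := by
      refine IsFractionRing.of_field _ _ fun z => ?_
      obtain ⟨r, s, hrs⟩ := (IntermediateField.mem_adjoin_range_iff κ x (z : E)).1 z.2
      refine ⟨r, s, ?_⟩
      apply (algebraMap M E).injective
      rw [map_div₀]
      change (z : E) = algebraMap M E (φ r) / algebraMap M E (φ s)
      rw [hφ', hφ']
      exact hrs
    exact (Polynomial.Monic.irreducible_iff_irreducible_map_fraction_map (K := M) hm).1
      ((FunM.irr_fse P).2 hP)
  have hmin : Q.map φ = minpoly M (ξ 0) := minpoly.eq_of_irreducible_of_monic hirr hroot hmon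
  change Module.finrank M E = Q.natDegree
  rw [← IntermediateField.finrank_top' (F := M) (E := E), ← htop',
    IntermediateField.adjoin.finrank hint, ← hmin, hm.natDegree_map]

end

theorem gen (K : Type) [Field K] (n : ℕ) (P : Pl (n + 1) K) [(Ideal.span {P}).IsPrime] (E : Type)
    [Field E] [Algebra (CR (Ideal.span {P})) E] [IsFractionRing (CR (Ideal.span {P})) E]
    [Algebra K E] [IsScalarTower K (CR (Ideal.span {P})) E] :
    GenN P (fun i => toF (Ideal.span {P}) E (MvPolynomial.X i) : Fin (n + 1) → E) := by
  have hev : ∀ B : MvPolynomial (Fin (n + 1)) K,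
      MvPolynomial.aeval (fun i => toF (Ideal.span {P}) E (MvPolynomial.X i) : Fin (n + 1) → E) B =
        algebraMap (CR (Ideal.span {P})) E (Ideal.Quotient.mk _ B) := by
    intro B
    induction B using MvPolynomial.induction_on with
    | C a =>
      rw [MvPolynomial.aeval_C]
      exact IsScalarTower.algebraMap_apply K (CR (Ideal.span {P})) E a
    | add p q hp hq => rw [map_add, hp, hq, map_add, map_add]
    | mul_X p i hp =>
      rw [map_mul, hp, MvPolynomial.aeval_X, map_mul, map_mul]
      rfl
  refine ⟨fun B => ?_, ?_⟩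
  · rw [hev, ← map_zero (algebraMap (CR (Ideal.span {P})) E),
      (IsFractionRing.injective (CR (Ideal.span {P})) E).eq_iff,
      Ideal.Quotient.eq_zero_iff_mem, Ideal.mem_span_singleton]
  · rw [eq_top_iff]
    intro e _
    have hm : ∀ B : MvPolynomial (Fin (n + 1)) K,
        algebraMap (CR (Ideal.span {P})) E (Ideal.Quotient.mk _ B) ∈
        IntermediateField.adjoin K (Set.range
          (fun i => toF (Ideal.span {P}) E (MvPolynomial.X i) : Fin (n + 1) → E)) := by
      intro B
      rw [← hev]
      have h1 : MvPolynomial.aeval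
          (fun i => toF (Ideal.span {P}) E (MvPolynomial.X i) : Fin (n + 1) → E) B ∈
          Algebra.adjoin K (Set.range
            (fun i => toF (Ideal.span {P}) E (MvPolynomial.X i) : Fin (n + 1) → E)) := by
        rw [Algebra.adjoin_range_eq_range_aeval]
        exact ⟨B, rfl⟩
      exact IntermediateField.algebra_adjoin_le_adjoin K _ h1
    obtain ⟨a, b, -, rfl⟩ := IsFractionRing.div_surjective (A := CR (Ideal.span {P})) e
    obtain ⟨a, rfl⟩ := Ideal.Quotient.mk_surjective a
    obtain ⟨b, rfl⟩ := Ideal.Quotient.mk_surjective b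
    exact div_mem (hm a) (hm b)

end T3GenSM

theorem yGenS : StmtGenS := by
  refine ⟨fun K E _ _ _ n P ξ hP hm hg => T3GenSM.stp hP hm hg,
    fun K _ n P _ E _ _ _ _ _ => T3GenSM.gen K n P E,
    fun K E _ _ _ n P ξ hP hm hg => T3GenSM.fin hP hm hg⟩

end Pool.Agent.Lib.MP_16285c_agX
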