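import Pool.Agent.Lib.MP_16285c_agX.T3.SpecD
import Pool.Agent.Lib.MP_16285c_agN.T3.XRl1

/-!
# ZD3X: growth of a real sequence from the first step (`StmtRl1X`)
-/

set_option autoImplicit false

namespace Pool.Agent.Lib.MP_16285c_agX

open Pool.Agent.Lib.MP_16285c_ag Pool.Agent.Lib.MP_16285c_agN

theorem yRl1X : StmtRl1X := by
  intro c a b d C C' hc ha hG
  obtain ⟨g1, g2, g3, -⟩ := hG
  have hc0 : 0 < c := by linarith
  have h1 : 4 * a < b * (d / c) := by
    rw [mul_div_assoc', lt_div_iff₀ hc0]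
    linarith
  obtain ⟨H₀, hH⟩ := tXRl1 a b (d / c) C |C'| ha g1 g2 h1
  refine ⟨H₀, ?_⟩
  intro h m η hh hη h0 hm hrec
  refine hH h m η hh hη (h0.trans (by linarith [le_abs_self C'])) ?_ hrec
  rw [div_mul_eq_mul_div, div_le_iff₀ hc0]
  have h2 : C' ≤ |C'| * c := by
    calc C' ≤ |C'| := le_abs_self C'
      _ ≤ |C'| * c := le_mul_of_one_le_right (abs_nonneg _) hc
  linarith

end Pool.Agent.Lib.MP_16285c_agX
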