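import Pool.Agent.Lib.MP_16285c_agX.T3.SpecD

/-!
# Threefolds with `λ₁ > λ₃`: the growth hypothesis of the model (ZD3X, Gr3P)
-/

set_option autoImplicit false

namespace Pool.Agent.Lib.MP_16285c_agX

open Pool.Agent.Lib.MP_16285c_ag Pool.Agent.Lib.MP_16285c_agN
open Pool.Agent.Lib.MP_16285c_agS (toF)

namespace T3Gr3PM

/-- `E'` is finite over the image of every homomorphism. -/
theorem fin {k : Type} [Field k] {n : ℕ} {P : Pl n k} {E' : Type} [Field E'] [Algebra k E']
    {ξ : Fin n → E'} (hP : Irreducible P) (hgen : GenN P ξ) (hG1 : StmtG1) (φ : E' →ₐ[k] E') :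
    Module.Finite φ.fieldRange E' := by
  have hq : (Ideal.span {P}).IsPrime := (Ideal.span_singleton_prime hP.ne_zero).2 hP.prime
  have hker : ∀ A ∈ Ideal.span {P},
      ((MvPolynomial.aeval ξ : Pl n k →ₐ[k] E') : Pl n k →+* E') A = 0 := by
    intro A hA
    exact (hgen.ker A).2 (Ideal.mem_span_singleton.1 hA)
  let θ : CR (Ideal.span {P}) →+* E' := Ideal.Quotient.lift (Ideal.span {P}) _ hker
  let _ : Algebra (CR (Ideal.span {P})) E' := θ.toAlgebra
  have hmk : ∀ A : Pl n k, algebraMap (CR (Ideal.span {P})) E'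
      (Ideal.Quotient.mk (Ideal.span {P}) A) = MvPolynomial.aeval ξ A := fun A => rfl
  have hst : IsScalarTower k (CR (Ideal.span {P})) E' := by
    refine IsScalarTower.of_algebraMap_eq (R := k) (S := CR (Ideal.span {P})) (A := E')
      fun c => ?_
    have e1 : algebraMap (CR (Ideal.span {P})) E' (algebraMap k (CR (Ideal.span {P})) c) =
        MvPolynomial.aeval ξ (algebraMap k (Pl n k) c) := rfl
    rw [e1]
    exact ((MvPolynomial.aeval ξ : Pl n k →ₐ[k] E').commutes c).symm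
  have hinj : Function.Injective (algebraMap (CR (Ideal.span {P})) E') := by
    rw [injective_iff_map_eq_zero]
    intro a
    obtain ⟨A, rfl⟩ := Ideal.Quotient.mk_surjective a
    intro h
    rw [hmk] at h
    rw [Ideal.Quotient.eq_zero_iff_mem, Ideal.mem_span_singleton]
    exact (hgen.ker A).1 h
  have hfaith : FaithfulSMul (CR (Ideal.span {P})) E' :=
    (faithfulSMul_iff_algebraMap_injective _ _).2 hinj
  have hfrac : IsFractionRing (CR (Ideal.span {P})) E' := by
    refine IsFractionRing.of_field _ _ fun z => ?_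
    have hz : z ∈ IntermediateField.adjoin k (Set.range ξ) := by
      rw [hgen.top]
      exact IntermediateField.mem_top
    obtain ⟨r, s, hrs⟩ := (IntermediateField.mem_adjoin_range_iff k ξ z).1 hz
    exact ⟨Ideal.Quotient.mk _ r, Ideal.Quotient.mk _ s, by rw [hmk, hmk]; exact hrs⟩
  exact hG1.1 k n (Ideal.span {P}) E' φ

/-- The roots of a constant converge to `1`. -/
theorem root_lim (C : ℕ) (hC : 1 ≤ C) :
    Filter.Tendsto (fun t : ℕ => (C : ENNReal) ^ ((t : ℝ)⁻¹)) Filter.atTop (nhds 1) := by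
  have hC0 : (0 : ℝ) < C := by exact_mod_cast hC
  have h1 : Filter.Tendsto (fun t : ℕ => (C : ℝ) ^ ((t : ℝ)⁻¹)) Filter.atTop (nhds 1) := by
    have h2 := (Real.continuousAt_const_rpow (a := (C : ℝ)) (b := 0) hC0.ne').tendsto.comp
      tendsto_inv_atTop_nhds_zero_nat
    rw [Real.rpow_zero] at h2
    exact h2
  have h3 := ENNReal.tendsto_ofReal h1
  rw [ENNReal.ofReal_one] at h3
  refine h3.congr fun t => ?_
  rw [← ENNReal.ofReal_rpow_of_pos hC0, ENNReal.ofReal_natCast]

/-- A constant factor does not change the growth rate. -/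
theorem limsup_const (d : ℕ → ℕ) (u : ℕ → ENNReal) (C : ℕ) (h : ∀ t, u t ≤ (C * d t : ℕ)) :
    Filter.limsup (fun t : ℕ => u t ^ ((t : ℝ)⁻¹)) Filter.atTop ≤
      Filter.limsup (fun t : ℕ => (d t : ENNReal) ^ ((t : ℝ)⁻¹)) Filter.atTop := by
  have h1 : ∀ t : ℕ, u t ^ ((t : ℝ)⁻¹) ≤
      ((fun t : ℕ => ((C + 1 : ℕ) : ENNReal) ^ ((t : ℝ)⁻¹)) *
        fun t : ℕ => (d t : ENNReal) ^ ((t : ℝ)⁻¹)) t := by
    intro t
    rw [Pi.mul_apply, ← ENNReal.mul_rpow_of_nonneg _ _ (inv_nonneg.2 (Nat.cast_nonneg t))]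
    refine ENNReal.rpow_le_rpow ?_ (inv_nonneg.2 (Nat.cast_nonneg t))
    refine (h t).trans ?_
    rw [← Nat.cast_mul]
    exact_mod_cast Nat.mul_le_mul_right (d t) (Nat.le_succ C)
  have h2 := (root_lim (C + 1) (Nat.succ_le_succ (Nat.zero_le C))).limsup_eq
  refine (Filter.limsup_le_limsup (Filter.Eventually.of_forall h1)).trans ?_
  refine (ENNReal.limsup_mul_le' (Or.inl ?_) (Or.inl ?_)).trans ?_
  · rw [h2]
    exact one_ne_zero
  · rw [h2]
    exact ENNReal.one_ne_top
  · rw [h2, one_mul]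

end T3Gr3PM

open T3Gr3PM in
theorem yGr3P : StmtBet → StmtCmpB → StmtTpG → StmtCmpX → StmtGenS → StmtG1 → StmtGr3P := by
  intro hBet hCmp hTp hCX hGenS hG1
  intro k _ _ P E' _ _ ξ φ f m y' hP hmon hgen hinv hfv hlam
  refine ⟨∅, ?_⟩
  intro K _ _ _ PK fK _ hS hPK hfK hirrK hmonK hinvK σK hOf E _ _ _ _ _ ρ hRst
  let _ : Algebra K E' := ((algebraMap k E').comp (algebraMap K k)).toAlgebra
  have hst : IsScalarTower K k E' := IsScalarTower.of_algebraMap_eq fun _ => rfl
  have hgenK : GenN (MvPolynomial.map (algebraMap K k) PK) ξ := by rw [hPK]; exact hgen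
  obtain ⟨β, hβ, hdis⟩ := hBet K k 3 PK hmonK E E' ξ hgenK
  have hden : ∀ i, MvPolynomial.aeval ξ ((fK.map (algebraMap K k)).den i) ≠ 0 := by
    intro i h0
    rw [hfK] at h0
    exact hinv.1 i ((hgen.ker _).1 h0)
  have hfvK : ∀ i, fvn (fK.map (algebraMap K k)) ξ i = φ (ξ i) := by
    intro i
    rw [hfK]
    exact hfv i
  have hRst1 : Rst (σK ^ 1) (Ideal.span {PK}) E ρ := by
    rw [pow_one]
    exact hRst
  have hcmp : ∀ h : E, β (ρ h) = φ (β h) := by
    intro h
    have := hCmp K k 3 PK E E' ξ β hβ fK σK φ 1 ρ hOf hden hfvK hRst1 h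
    rw [pow_one] at this
    exact this
  set ξE : Fin 4 → E := fun i => toF (Ideal.span {PK}) E (MvPolynomial.X i) with hξE
  have hgenE : GenN PK ξE := hGenS.2.1 K 3 PK E
  have hβξ : (fun i => β (ξE i)) = ξ := by
    funext i
    rw [hξE]
    simp only
    rw [hβ, MvPolynomial.map_X, MvPolynomial.aeval_X]
  have hStpE : Stp K ξE := hGenS.1 K E 3 PK ξE hirrK hmonK hgenE
  have hStp : Stp k (fun i => β (ξE i)) := by
    rw [hβξ]
    exact hGenS.1 k E' 3 P ξ hP hmon hgen
  have htop : IntermediateField.adjoin k (Set.range fun i => β (ξE i)) = ⊤ := by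
    rw [hβξ]
    exact hgen.top
  have hfin : Module.Finite φ.fieldRange E' := fin hP hgen hG1 φ
  have hT : Module.finrank ρ.fieldRange E ≤ Module.finrank φ.fieldRange E' :=
    hTp K k E E' β hdis ρ φ hcmp hfin 4 ξE hgenE.top htop
  obtain ⟨C, hC⟩ := hCX K k E E' β ξE ρ φ hStpE hStp hcmp m y'
  have h1 : lamX k 3 1 y' φ ≤ Filter.limsup (fun t : ℕ =>
      (dgx K 2 1 (fun i : Fin 3 => ξE i.succ) (fun i : Fin 3 => (ρ ^ t) (ξE i.succ)) : ENNReal) ^
        ((t : ℝ)⁻¹)) Filter.atTop := limsup_const _ _ C hC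
  have h2 : (Module.finrank ρ.fieldRange E : ENNReal) ≤ Module.finrank φ.fieldRange E' := by
    exact_mod_cast hT
  exact h2.trans_lt (hlam.trans_le h1)

end Pool.Agent.Lib.MP_16285c_agX
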