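import Pool.Agent.Lib.MP_16285c_agX.T3.SpecD
import Pool.Agent.Lib.MP_16285c_agX.Gro.DescX

/-! # Comparison of the topological degrees over a smaller field -/

set_option autoImplicit false

namespace Pool.Agent.Lib.MP_16285c_agX

theorem yTpG : StmtTpG := by
  intro K k _ _ _ E E' _ _ _ _ _ _ β hdj ρ φ hc _ m y hy hy'
  have h1 : ρ.fieldRange = IntermediateField.adjoin K (ρ '' Set.range y) := by
    rw [AlgHom.fieldRange_eq_map, ← hy, IntermediateField.adjoin_map]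
  have h2 : φ.fieldRange = IntermediateField.adjoin k (β '' (ρ '' Set.range y)) := by
    rw [AlgHom.fieldRange_eq_map, ← hy', IntermediateField.adjoin_map]
    congr 1
    ext z
    constructor
    · rintro ⟨_, ⟨i, rfl⟩, rfl⟩
      exact ⟨ρ (y i), ⟨y i, ⟨i, rfl⟩, rfl⟩, hc (y i)⟩
    · rintro ⟨_, ⟨_, ⟨i, rfl⟩, rfl⟩, rfl⟩
      exact ⟨β (y i), ⟨i, rfl⟩, (hc (y i)).symm⟩
  rw [h1, h2]
  exact GroDescXM.key β hdj y hy' _

end Pool.Agent.Lib.MP_16285c_agX
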