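import Pool.Agent.Lib.MP_16285c_agX.T3.Defs

/-!
# Threefolds with `λ₁ > λ₃`: degrees and sections (statements, ZD3X part A)

Definitions: `T3/Defs.lean` (`Intx`, `Rp`, `Dge`, `dgx`, `Tu`, `Stp`, `SctX`), `Lib/MP_16285c_agN/T3/SpecA.lean` (`lc`, `Vd`, `StmtXUB2`, `StmtXLB`, `StmtXBZ`, … all landed), `Lib/MP_16285c_agN/Degr/Spec.lean` (`Vd`, `cnt`, `StmtNN`, …).
`x i = ξ i.succ` are algebraically independent, `E` is finite over `K(x)` (it is generated by `ξ`, `ξ 0` is algebraic over `K(x)`), so `E` has transcendence degree `n` over `K`. `δ = [E : K(x)]`, `τ = [E : ρ E]`, `X m = ρ ^ m ∘ x`.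
`Module.finrank` is `0` if the degree is infinite, so upper bounds are trivial in this case; a field over which `E` is finite has transcendence degree `n` over `K`.
Every lemma is a `Prop` with its complete proof in the docstring; used statements are hypotheses: file `T3/Y.lean`, `theorem yY : StmtY` or `theorem yY : StmtZ → StmtY`, namespace `Pool.Agent.Lib.MP_16285c_agX`, auxiliary lemmas in the namespace `Pool.Agent.Lib.MP_16285c_agX.T3YM`.
-/

set_option autoImplicit false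

namespace Pool.Agent.Lib.MP_16285c_agX

open Pool.Agent.Lib.MP_16285c_ag Pool.Agent.Lib.MP_16285c_agN

/-! ## Integral elements with degrees -/

/-- (IntA) PROOF. `F : Polynomial (Pl n K)` monic with `F(u) = 0` gives a monic polynomial over `Algebra.adjoin K (Set.range x)` (the range of `aeval x`: `Algebra.adjoin_range_eq_range_aeval`) by mapping the coefficients; conversely lift the coefficients of a monic polynomial, keeping it monic (`Polynomial.lifts_and_natDegree_eq_and_monic`). -/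
def StmtIntA : Prop :=
  ∀ (K E : Type) [Field K] [Field E] [Algebra K E] (n : ℕ) (x : Fin n → E) (u : E),
    Intx K x u ↔ IsIntegral (Algebra.adjoin K (Set.range x)) u

/-- (RpA) PROOF. Let `Sh` be the subring of `Polynomial E` (variable `T`) of the polynomials whose coefficient of `T ^ k` is `aeval x G` for some `G` of total degree `≤ k`, for all `k`. CLAIM: `Rp K x e u ↔ IsIntegral Sh (C u * T ^ e)`. `→`: multiply `F(u) = 0` by `T ^ (e r)`, `r = F.natDegree`: the coefficient of `(u T ^ e) ^ i` is `F_i(x) T ^ (e (r - i)) ∈ Sh`.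
`←`: let `(u T ^ e) ^ r + ∑ i < r, s_i (u T ^ e) ^ i = 0`, `s_i ∈ Sh`; the coefficient of `T ^ (e r)` is `u ^ r + ∑ i < r, (coefficient of T ^ (e (r - i)) in s_i) * u ^ i = 0`, where the coefficients are `aeval x G_i` with `deg G_i ≤ e (r - i)`: `F = Y ^ r + ∑ i < r, G_i Y ^ i`. Now (2), (3), (4) follow since sums and products of integral elements are integral
and `T ^ (e' - e) ∈ Sh`; (1) `F = Y - G`; (5) `e` = sum of the total degrees of the coefficients of `F`. -/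
def StmtRpA : Prop :=
  ∀ (K E : Type) [Field K] [Field E] [Algebra K E] (n : ℕ) (x : Fin n → E),
    (∀ (G : Pl n K) (e : ℕ), G.totalDegree ≤ e → Rp K x e (MvPolynomial.aeval x G)) ∧
    (∀ (e : ℕ) (u v : E), Rp K x e u → Rp K x e v → Rp K x e (u + v)) ∧
    (∀ (e e' : ℕ) (u v : E), Rp K x e u → Rp K x e' v → Rp K x (e + e') (u * v)) ∧
    (∀ (e e' : ℕ) (u : E), e ≤ e' → Rp K x e u → Rp K x e' u) ∧
    ∀ u : E, Intx K x u → ∃ e, Rp K x e u

/-- (RpB) PROOF. `aeval x : Pl n K → E` is injective, `u` is an element of the field of fractions of `Pl n K` integral over the integrally closed domain `Pl n K`, so `u = aeval x G`. If `deg G > e` then in `G ^ r + ∑ i < r, F_i G ^ i = 0` (`F` from `Rp`, `r = natDegree`; the relation holds in `Pl n K` by injectivity) the term `G ^ r` has degree `r deg G` and all the others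
have degree `≤ e (r - i) + i deg G < r deg G`: a contradiction (`MvPolynomial.totalDegree_pow` with equality in a domain, `totalDegree_mul_of_isDomain`). -/
def StmtRpB : Prop :=
  ∀ (K E : Type) [Field K] [Field E] [Algebra K E] (n : ℕ) (x : Fin n → E),
    AlgebraicIndependent K x → ∀ (e : ℕ) (A B : Pl n K) (u : E), B ≠ 0 →
    u * MvPolynomial.aeval x B = MvPolynomial.aeval x A → Rp K x e u →
    ∃ G : Pl n K, G.totalDegree ≤ e ∧ u = MvPolynomial.aeval x G

/-- (RpC) PROOF (uses `StmtRpA`, `StmtRpB`). `k₁ = K(x)`. Let `Ω` be an algebraic closure of `E` (an algebra over `K`, `k₁`). Every `k₁`-embedding `s : E → Ω` maps `u` to an element with `Rp K x e (s u)` in `Ω` (the same `F`; `x` also denotes the images of the `x i` in `Ω`). (1) `trace u = ∑ s, s u` (`trace_eq_sum_embeddings`; separable: characteristic zero), so `Rp` for the trace in `Ω` (`StmtRpA` (2)), it is an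
element of `k₁`, so a quotient of values of polynomials (`IntermediateField.mem_adjoin_range_iff`), and `StmtRpB`. (2) The minimal polynomial splits in `Ω` with roots conjugates of `u`, all of them satisfy `Rp K x e`; its coefficient of index `i` is `±` an elementary symmetric polynomial of degree `natDegree - i` of the roots (`Polynomial.coeff_eq_esymm_roots_of_card`), so it satisfies
`Rp K x (e * (natDegree - i))` (`StmtRpA`), and `StmtRpB` in `Ω`. -/
def StmtRpC : Prop :=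
  ∀ (K E : Type) [Field K] [CharZero K] [Field E] [Algebra K E] (n : ℕ) (x : Fin n → E),
    AlgebraicIndependent K x → Module.Finite (IntermediateField.adjoin K (Set.range x)) E →
    (∀ (e : ℕ) (u : E), Rp K x e u → ∃ G : Pl n K, G.totalDegree ≤ e ∧
      ((Algebra.trace (IntermediateField.adjoin K (Set.range x)) E u :
        IntermediateField.adjoin K (Set.range x)) : E) = MvPolynomial.aeval x G) ∧
    ∀ (e : ℕ) (u : E), Rp K x e u → ∀ i : ℕ, ∃ G : Pl n K,
      G.totalDegree ≤ e * ((minpoly (IntermediateField.adjoin K (Set.range x)) u).natDegree - i) ∧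
      (((minpoly (IntermediateField.adjoin K (Set.range x)) u).coeff i :
        IntermediateField.adjoin K (Set.range x)) : E) = MvPolynomial.aeval x G

/-- (RpD) PROOF (uses `StmtRpA`, `StmtRpC`). Let `θ_1, …, θ_δ` be a basis of `E` over `k₁ = K(x)`; multiplying by elements of `K[x]` we may assume that the `θ_i` are integral over `K[x]` (`exists_integral_multiple`), so `Rp K x c (θ i)` for a common `c`. Let `θ' i` be the dual basis for the trace form (nondegenerate: separable; `Module.Basis.traceDual` or `BilinForm.dualBasis`): `u = ∑ i, trace (u θ_i) θ'_i`. If `Rp K x e u` then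
`Rp K x (e + c) (u θ_i)`, so `trace (u θ_i) = aeval x G_i` with `deg G_i ≤ e + c`, an element of `Vd K x (e + c) = Vd K x c * Vd K x e`. `W = (span K {θ'_i}) * Vd K x c` (`Vd` is finitely generated). -/
def StmtRpD : Prop :=
  ∀ (K E : Type) [Field K] [CharZero K] [Field E] [Algebra K E] (n : ℕ) (x : Fin n → E),
    AlgebraicIndependent K x → Module.Finite (IntermediateField.adjoin K (Set.range x)) E →
    ∃ W : Submodule K E, W.FG ∧ ∀ (e : ℕ) (u : E), Rp K x e u → u ∈ W * Vd K x e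

/-- (RpF) PROOF (uses `StmtRpA`, `StmtRpB`, `StmtRpC`). (a) CLAIM: if `v` is integral over `K[x]`, `ν : Pl n K`, `ν ≠ 0`, `Rp K x e (ν(x) v)` then `Rp K x e v`. The minimal polynomial of `v` over `k₁ = K(x)` is `Y ^ r + ∑ c_i Y ^ i` with `c_i = aeval x C_i` (`StmtRpC` (2) for some `e'`, by `StmtRpA` (5)), the one of `ν(x) v` is `Y ^ r + ∑ ν(x) ^ (r - i) c_i Y ^ i`
(`minpoly` of a nonzero multiple: `Polynomial.scaleRoots`), so by `StmtRpC` (2) `ν ^ (r - i) C_i` has degree `≤ e (r - i)` (`aeval x` is injective), so `deg C_i ≤ e (r - i)`. (b) Let `Y ^ r + ∑ i < r, c_i Y ^ i` be the minimal polynomial of `u`, `c_0 ≠ 0` (`u ≠ 0`), `c_i = aeval x C_i`, `deg C_i ≤ e₁ (r - i)`, `r ≤ δ`. Put `u' = - (u ^ (r-1) + ∑ 1 ≤ i < r, c_i u ^ (i-1))`, `Rp K x (e₁ (r - 1)) u'`,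
`u u' = c_0`. So `c_0 ^ q * v = s * u' ^ q` satisfies `Rp K x (e₂ + q (δ e₁))`, and (a) with `ν = C_0 ^ q`. -/
def StmtRpF : Prop :=
  ∀ (K E : Type) [Field K] [CharZero K] [Field E] [Algebra K E] (n : ℕ) (x : Fin n → E),
    AlgebraicIndependent K x → Module.Finite (IntermediateField.adjoin K (Set.range x)) E →
    ∀ (e₁ e₂ q : ℕ) (u v s : E), u ≠ 0 → Rp K x e₁ u → Intx K x v → u ^ q * v = s → Rp K x e₂ s →
      Rp K x (e₂ + q * (Module.finrank (IntermediateField.adjoin K (Set.range x)) E * e₁)) v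

/-- (RpG) PROOF (uses `StmtRpA`, `StmtRpD`). `a_r(x) w` is a root of `Y ^ r + ∑ i < r, a_i a_r ^ (r - 1 - i) Y ^ i`, so `Rp K x d (a_r(x) w)`; `Rp K x d (a_r(x))`. So `a_r(x) ^ a * w ^ i = (a_r(x) w) ^ i * a_r(x) ^ (a - i)` satisfies `Rp K x (d * a)`; `StmtRpD` gives `W`, `b = aeval x (A r) ≠ 0`. -/
def StmtRpG : Prop :=
  ∀ (K E : Type) [Field K] [CharZero K] [Field E] [Algebra K E] (n : ℕ) (x : Fin n → E),
    AlgebraicIndependent K x → Module.Finite (IntermediateField.adjoin K (Set.range x)) E →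
    ∀ (r d : ℕ) (A : Fin (r + 1) → Pl n K) (w : E), A (Fin.last r) ≠ 0 →
      (∀ i, (A i).totalDegree ≤ d) → ∑ i, MvPolynomial.aeval x (A i) * w ^ (i : ℕ) = 0 → Dge K x w d

/-! ## Degrees of functions -/

/-- (CfA) PROOF. `k₁ = K(x)`. `F` is irreducible in `Pl 3 K [Y]` of positive degree, so (Gauss) it is up to a factor the minimal polynomial of `w` over `K(x)`, and it is irreducible in `K[x_1, x_2, x_3, Y]`. `D` = the largest total degree of a coefficient. Let `A` be given. We may assume that `E` is finite over `K(l₁, l₂, w)`, `l = lc A x`; so `l₁, l₂, w` are algebraically independent, `l₁, l₂` are linearly independent forms;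
complete them by a third form `l₃` to a basis: `K(x) = K(l₁, l₂, l₃)`. Write `F` as a polynomial in `l₃` with coefficients in `K[l₁, l₂, Y]` (linear substitution, degrees `≤ D`): not zero, of degree `≤ D`. The coefficients do not all vanish for `Y = w` (`l₁, l₂, w` algebraically independent), so `[K(x, w) : K(l₁, l₂, w)] ≤ D`, and `[E : K(l₁, l₂, w)] = [E : K(x, w)] [K(x, w) : K(l₁, l₂, w)]`. (2) If `D = 0` nothing is to be shown.
Let `D ≥ 1`. Choose `l₃`-coordinates such that the coefficient of `l₃ ^ D` is not zero: for some coefficient `F_i` of degree `D` its top form does not vanish at some point of `K ^ 3` (`K` infinite); `x = (l₁ + c₁ l₃, l₂ + c₂ l₃, l₃)` or a permutation. `F`, as a polynomial in `l₃` over `K[l₁, l₂, Y]`, is irreducible of degree `D ≥ 1`, so irreducible over the field of fractions `K(l₁, l₂, Y)` (Gauss). `w` is not algebraic over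
`K(l₁, l₂)`: otherwise its minimal polynomial over `K(l₁, l₂)` stays irreducible over `K(l₁, l₂, l₃)`, so `F` would be a multiple by a unit of a polynomial over `K[l₁, l₂]`, not involving `l₃`. So `l₁, l₂, w` are algebraically independent (`Y ↦ w`), and `l₃` has degree exactly `D` over `K(l₁, l₂, w)`. (Compare the landed proofs of `StmtXDgLe`, `StmtXDgGe` in `Lib/MP_16285c_agN/T3`.) -/
def StmtCfA : Prop :=
  ∀ (K E : Type) [Field K] [Infinite K] [Field E] [Algebra K E] (x : Fin 3 → E),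
    AlgebraicIndependent K x → Module.Finite (IntermediateField.adjoin K (Set.range x)) E →
    ∀ (w : E) (F : Polynomial (Pl 3 K)) (D : ℕ), Irreducible F → 1 ≤ F.natDegree →
      Polynomial.eval₂ ((MvPolynomial.aeval x : Pl 3 K →ₐ[K] E) : Pl 3 K →+* E) w F = 0 →
      (∀ i, (F.coeff i).totalDegree ≤ D) → (∃ i, (F.coeff i).totalDegree = D) →
      (∀ A : Fin 2 → Fin 3 → K,
        Module.finrank (IntermediateField.adjoin K (insert w (Set.range (lc A x)))) E ≤
          D * Module.finrank (IntermediateField.adjoin K (insert w (Set.range x))) E) ∧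
      ∃ A : Fin 2 → Fin 3 → K,
        D * Module.finrank (IntermediateField.adjoin K (insert w (Set.range x))) E ≤
          Module.finrank (IntermediateField.adjoin K (insert w (Set.range (lc A x)))) E

/-- (CfD) Functions of degree `≤ d`. PROOF (uses `StmtCfA`, `StmtRpG`). Let `F` be an irreducible polynomial as in `StmtCfA` (`w` is algebraic over `K(x)`: clear denominators in the minimal polynomial and take the primitive part, or an irreducible factor which vanishes at `w`), `D` the largest total degree of a coefficient. `StmtCfA` (2): `D ≤ D * [E : K(x, w)] ≤ d`. `StmtRpG` for the coefficients of `F`. -/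
def StmtCfD : Prop :=
  ∀ (K E : Type) [Field K] [CharZero K] [Field E] [Algebra K E] (x : Fin 3 → E),
    AlgebraicIndependent K x → Module.Finite (IntermediateField.adjoin K (Set.range x)) E →
    ∀ (w : E) (d : ℕ), (∀ A : Fin 2 → Fin 3 → K,
        Module.finrank (IntermediateField.adjoin K (insert w (Set.range (lc A x)))) E ≤ d) →
      Dge K x w d

/-- (DgT) PROOF. (1) Take the `κ`-span of `W` and `Vd K y ≤ Vd κ y`. (2) Apply `ρ` (`ρ (Vd K y a) = Vd K (ρ ∘ y) a`, `W.map ρ`). (3) `b = 1`, `W = span {1}`: `w ^ i` is the value of a polynomial of degree `≤ i` at `y`. (4) `W` the same: `d a ≤ d' a`. -/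
def StmtDgT : Prop :=
  (∀ (K E : Type) [Field K] [Field E] [Algebra K E] (s : ℕ) (y : Fin s → E) (w : E) (d : ℕ),
    Dge K y w d → ∀ κ : IntermediateField K E, Dge κ y w d) ∧
  (∀ (K E : Type) [Field K] [Field E] [Algebra K E] (s : ℕ) (y : Fin s → E) (w : E) (d : ℕ),
    Dge K y w d → ∀ ρ : E →ₐ[K] E, Dge K (fun i => ρ (y i)) (ρ w) d) ∧
  (∀ (K E : Type) [Field K] [Field E] [Algebra K E] (s : ℕ) (y : Fin s → E) (c : K) (a : Fin s → K),
    Dge K y (algebraMap K E c + ∑ j, algebraMap K E (a j) * y j) 1) ∧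
  ∀ (K E : Type) [Field K] [Field E] [Algebra K E] (s : ℕ) (y : Fin s → E) (w : E) (d d' : ℕ),
    d ≤ d' → Dge K y w d → Dge K y w d'

/-- (BZ1) Bezout on a curve. PROOF (uses `StmtNN`, `StmtUpF`, `StmtXUpW`, `StmtXLB`). `e = [E : κ(w)]`, we may assume `e ≥ 1`; `θ_1, …, θ_e` a basis, `Θ` its `κ`-span. `trdeg κ E = 1` (`E` is finite over `κ(w)`, `w` transcendental). `StmtNN` for `K, κ, E, y`: `l = lc A y` algebraically independent over `κ`, `Vd κ y a ≤ W' * Vd κ l a`, `E` finite over `κ(l)` (`StmtUpF` and finiteness over `κ(y)`, as in the landed proof of `StmtXBZ`,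
`Lib/MP_16285c_agN/T3/XBZ.lean`), so `l : Fin 1 → E`. `b, W` from `Dge`. The elements `b ^ I w ^ i θ_k`, `i ≤ I`, are linearly independent over `κ` and belong to `Θ * W * Vd κ y (d I) ≤ Θ * W * W' * Vd κ l (d I)`, of dimension `≤ e₁ * cnt 1 (d I + C) = e₁ (d I + C + 1)` (`StmtXUpW`). So `e (I + 1) ≤ e₁ (d I + C + 1)` for all `I`; `I = C`: `e ≤ e₁ (d + 1) ≤ 2 d e₁`. -/
def StmtBZ1 : Prop :=
  ∀ (K E : Type) [Field K] [Infinite K] [Field E] [Algebra K E] (κ : IntermediateField K E) (n : ℕ)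
    (y : Fin n → E) (w : E) (d e₁ : ℕ),
    Module.Finite (IntermediateField.adjoin κ (Set.range y)) E →
    (∀ A : Fin 1 → Fin n → K,
      Module.finrank (IntermediateField.adjoin κ (Set.range (lc A y))) E ≤ e₁) →
    1 ≤ d → Dge κ y w d → Transcendental κ w →
    Module.finrank (IntermediateField.adjoin κ {w}) E ≤ 2 * d * e₁

/-- (BZ2) Bezout on a surface. PROOF (uses `StmtNN`, `StmtUpF`, `StmtXUpW`, `StmtXLB`). The landed proof of `StmtXBZ` (`Lib/MP_16285c_agN/T3/XBZ.lean`: copy), with `b₁, W₁`, `b₂, W₂` from `Dge` in place of `aeval y B_i`: `b₁ ^ (d₂ I) w₁ ^ i ∈ W₁ * Vd κ y (d₁ d₂ I)` for `i ≤ d₂ I`, `b₂ ^ (d₁ I) w₂ ^ j ∈ W₂ * Vd κ y (d₁ d₂ I)` for `j ≤ d₁ I`; so the independent elements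
`b₁ ^ (d₂ I) b₂ ^ (d₁ I) w₁ ^ i w₂ ^ j θ_k` are in `(Θ * W₁ * W₂) * Vd κ y (2 d₁ d₂ I)`. -/
def StmtBZ2 : Prop :=
  ∀ (K E : Type) [Field K] [Infinite K] [Field E] [Algebra K E] (κ : IntermediateField K E) (n : ℕ)
    (y : Fin n → E) (w₁ w₂ : E) (d₁ d₂ e₂ : ℕ),
    Module.Finite (IntermediateField.adjoin κ (Set.range y)) E →
    (∀ A : Fin 2 → Fin n → K,
      Module.finrank (IntermediateField.adjoin κ (Set.range (lc A y))) E ≤ e₂) →
    1 ≤ d₁ → 1 ≤ d₂ → Dge κ y w₁ d₁ → Dge κ y w₂ d₂ → AlgebraicIndependent κ ![w₁, w₂] →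
    Module.finrank (IntermediateField.adjoin κ {w₁, w₂}) E ≤ 9 * d₁ * d₂ * e₂

/-! ## The degrees `d m` and `Δ m` -/

/-- (DgB) PROOF (uses `StmtRpA`, `StmtRpD`, `StmtBZ1`, `StmtBZ2`, `StmtDgT`). There are `c : Pl 3 K`, `c ≠ 0`, and `D ≥ 1` with `Rp K x D (c(x))`, `Rp K x D (c(x) g_i)` (common denominator: `g_i` algebraic over `K(x)`, `exists_integral_multiple`; `StmtRpA` (5), (4)). So for every linear combination `w` of the `g_i`: `c(x) ^ a w ^ i = c(x) ^ (a - i) (c(x) w) ^ i` satisfies `Rp K x (D a)`: `Dge K x w D` (`StmtRpD`).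
(1) `κ = K(lc A x)`: `fld = κ(w)`; if `E` is finite over it then `w` is transcendental over `κ` (`trdeg κ E = 1`: `lc A x` are algebraically independent) and `StmtBZ1` for `y = x`, `e₁ = δ`: `[E : κ(lc A' x)]` is `0` or `δ` (if it is finite, the three forms are algebraically independent, so linearly independent, so they generate `K(x)`). So the set is bounded by `2 D δ`. (2) `κ = K(lc A x)`, `StmtBZ2`: bounded by `9 D ^ 2 δ`. -/
def StmtDgB : Prop :=
  ∀ (K E : Type) [Field K] [CharZero K] [Field E] [Algebra K E] (ξ : Fin 4 → E), Stp K ξ →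
    ∀ g : Fin 3 → E,
    BddAbove (Set.range fun AB : (Fin 2 → Fin 3 → K) × (Fin 1 → Fin 3 → K) =>
      Module.finrank (IntermediateField.adjoin K
        (Set.range (lc AB.1 fun i => ξ i.succ) ∪ Set.range (lc AB.2 g))) E) ∧
    BddAbove (Set.range fun AB : (Fin 1 → Fin 3 → K) × (Fin 2 → Fin 3 → K) =>
      Module.finrank (IntermediateField.adjoin K
        (Set.range (lc AB.1 fun i => ξ i.succ) ∪ Set.range (lc AB.2 g))) E)

/-- (Dg1) PROOF (uses `StmtDgB`). Boundedness gives the upper bounds (`le_csSup`) and that the supremum is attained (`Nat.sSup_mem`). Lower bounds: `X m i = ρ ^ m (x i)` are algebraically independent (`ρ` is injective). `K(x 0, x 1)` has transcendence degree `2`, so some `X m i` is transcendental over it (otherwise all `X m i` were algebraic over it, against transcendence degree `3`); `E` is algebraic over `K(x 0, x 1, X m i)` (transcendence degree `3`), finitely generated, so finite: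
the degree is `≥ 1`. In the same way `K(X m 0, X m 1)` and some `x i`. (Compare `StmtXMd` and its landed proof `Lib/MP_16285c_agN/T3/XMd.lean`.) -/
def StmtDg1 : Prop :=
  ∀ (K E : Type) [Field K] [CharZero K] [Field E] [Algebra K E] (ξ : Fin 4 → E), Stp K ξ →
    (∀ (ρ : E →ₐ[K] E) (m : ℕ), 1 ≤ dgx K 2 1 (fun i : Fin 3 => ξ i.succ) (fun i : Fin 3 => (ρ ^ m) (ξ i.succ)) ∧
      1 ≤ dgx K 1 2 (fun i : Fin 3 => ξ i.succ) (fun i : Fin 3 => (ρ ^ m) (ξ i.succ))) ∧
    (∀ (g : Fin 3 → E) (A : Fin 2 → Fin 3 → K) (B : Fin 1 → Fin 3 → K),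
      Module.finrank (IntermediateField.adjoin K
        (Set.range (lc A fun i => ξ i.succ) ∪ Set.range (lc B g))) E ≤
        dgx K 2 1 (fun i : Fin 3 => ξ i.succ) g) ∧
    (∀ (g : Fin 3 → E) (A : Fin 1 → Fin 3 → K) (B : Fin 2 → Fin 3 → K),
      Module.finrank (IntermediateField.adjoin K
        (Set.range (lc A fun i => ξ i.succ) ∪ Set.range (lc B g))) E ≤
        dgx K 1 2 (fun i : Fin 3 => ξ i.succ) g) ∧
    (∀ g : Fin 3 → E, ∃ (A : Fin 2 → Fin 3 → K) (B : Fin 1 → Fin 3 → K),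
      Module.finrank (IntermediateField.adjoin K
        (Set.range (lc A fun i => ξ i.succ) ∪ Set.range (lc B g))) E =
        dgx K 2 1 (fun i : Fin 3 => ξ i.succ) g) ∧
    ∀ g : Fin 3 → E, ∃ (A : Fin 1 → Fin 3 → K) (B : Fin 2 → Fin 3 → K),
      Module.finrank (IntermediateField.adjoin K
        (Set.range (lc A fun i => ξ i.succ) ∪ Set.range (lc B g))) E =
        dgx K 1 2 (fun i : Fin 3 => ξ i.succ) g

/-- (DgM) PROOF (uses `StmtDg1`, `StmtCfD`, `StmtDgT`, `StmtBZ1`, `StmtBZ2`). Write `d m`, `Δ m` for the two degrees, `X m = ρ ^ m ∘ x`. By `StmtDg1` (2) and `StmtCfD`: `Dge K x w (d b)` for `w = lc B (X b) 0`, for all `B` (`Set.range (lc B g)` for `B : Fin 1 → _` is `{w}`). (1) Let `A, B` be arbitrary, `κ = K(lc A x)`, `y = X a`, `w = lc B (X (a + b)) 0 = ρ ^ a (lc B (X b) 0)`: `Dge κ y w (d b)` (`StmtDgT` (2), (1)). If `E` is finite over `κ(w)`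
then `w` is transcendental over `κ`. `E` is finite over `K(y)` (`trdeg K(y) = 3`), so over `κ(y)`. `StmtBZ1` with `e₁ = d a` (`StmtDg1` (2): `κ(lc B' y)`; `IntermediateField.adjoin_adjoin_left`): `[E : κ(w)] ≤ 2 (d b) (d a)`. (2) `κ = K(lc A x)` (`A : Fin 1`), `y = x`, `w_i = lc B (X m) i`, `Dge K x w_i (d m)`; `StmtBZ2` with `e₂ = δ` (as in `StmtDgB`). (3) `κ = K(lc A x)`, `y = X m`,
`w_i = lc B (X (m+1)) i = ρ ^ m (lc B (X 1) i)`, `Dge κ y w_i (d 1)`, `e₂ = Δ m`. -/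
def StmtDgM : Prop :=
  ∀ (K E : Type) [Field K] [CharZero K] [Field E] [Algebra K E] (ξ : Fin 4 → E), Stp K ξ →
    ∀ (ρ : E →ₐ[K] E),
    (∀ a b : ℕ, dgx K 2 1 (fun i : Fin 3 => ξ i.succ) (fun i : Fin 3 => (ρ ^ (a + b)) (ξ i.succ)) ≤
      2 * dgx K 2 1 (fun i : Fin 3 => ξ i.succ) (fun i : Fin 3 => (ρ ^ a) (ξ i.succ)) *
        dgx K 2 1 (fun i : Fin 3 => ξ i.succ) (fun i : Fin 3 => (ρ ^ b) (ξ i.succ))) ∧
    (∀ m : ℕ, dgx K 1 2 (fun i : Fin 3 => ξ i.succ) (fun i : Fin 3 => (ρ ^ m) (ξ i.succ)) ≤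
      9 * Module.finrank (IntermediateField.adjoin K (Set.range fun i : Fin 3 => ξ i.succ)) E *
        dgx K 2 1 (fun i : Fin 3 => ξ i.succ) (fun i : Fin 3 => (ρ ^ m) (ξ i.succ)) ^ 2) ∧
    ∀ m : ℕ, dgx K 1 2 (fun i : Fin 3 => ξ i.succ) (fun i : Fin 3 => (ρ ^ (m + 1)) (ξ i.succ)) ≤
      9 * dgx K 2 1 (fun i : Fin 3 => ξ i.succ) (fun i : Fin 3 => (ρ ^ 1) (ξ i.succ)) ^ 2 *
        dgx K 1 2 (fun i : Fin 3 => ξ i.succ) (fun i : Fin 3 => (ρ ^ m) (ξ i.succ))

/-- (E1X) PROOF (uses `StmtDg1`, `StmtCfD`, `StmtDgT`, `StmtBZ2`). `κ = K(l(x))`, `y = X m`, `w₁ = Tu u (X m) = 1 + ∑ u ^ (j+1) y_j` (`Fin.sum_univ_succ`): `Dge κ y w₁ 1` (`StmtDgT` (3)); `w₂ = ∑ μ_j X (2 m) j = ρ ^ m (∑ μ_j X m j)`: `Dge κ y w₂ (d m)` (`StmtCfD`, `StmtDgT`). If `E` is finite over `K(l(x), w₁, w₂)` then `l(x), w₁, w₂` are algebraically independent over `K`, so `w₁, w₂` are algebraically independent over `κ`. `StmtBZ2` with `e₂ = Δ m`: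
`κ(lc A y)` is `K(l(x), lc A (X m))`. (Landed model: `Lib/MP_16285c_agN/T3/XE1.lean`.) -/
def StmtE1X : Prop :=
  ∀ (K E : Type) [Field K] [CharZero K] [Field E] [Algebra K E] (ξ : Fin 4 → E), Stp K ξ →
    ∀ (ρ : E →ₐ[K] E) (m : ℕ) (u : K) (l μ : Fin 3 → K), Module.finrank (IntermediateField.adjoin K
      {∑ j, algebraMap K E (l j) * ξ j.succ, Tu K u (fun i : Fin 3 => (ρ ^ m) (ξ i.succ)),
        ∑ j, algebraMap K E (μ j) * (ρ ^ (2 * m)) (ξ j.succ)}) E ≤
      9 * dgx K 2 1 (fun i : Fin 3 => ξ i.succ) (fun i : Fin 3 => (ρ ^ m) (ξ i.succ)) *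
        dgx K 1 2 (fun i : Fin 3 => ξ i.succ) (fun i : Fin 3 => (ρ ^ m) (ξ i.succ))

/-- (E0X) PROOF (uses `StmtDg1`). `L = K(T_u, m₁(X (2m)), m₂(X (2m)))` is the image under `ρ ^ m` of `L' = K(1 + ∑ u ^ (j+1) x_j, m₁(X m), m₂(X m)) = K(lc A x, lc B (X m))`, `A 0 j = u ^ (j+1)`. `[E : L] = [E : ρ ^ m E] [ρ ^ m E : ρ ^ m L'] = τ ^ m [E : L']`, and `[E : (ρ ^ m).fieldRange] = [E : ρ.fieldRange] ^ m` (tower law). (Landed model: `Lib/MP_16285c_agN/T3/XE0.lean`.) -/
def StmtE0X : Prop :=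
  ∀ (K E : Type) [Field K] [CharZero K] [Field E] [Algebra K E] (ξ : Fin 4 → E), Stp K ξ →
    ∀ (ρ : E →ₐ[K] E) (m : ℕ) (u : K) (B : Fin 2 → Fin 3 → K),
    Module.finrank (IntermediateField.adjoin K (insert (Tu K u (fun i : Fin 3 => (ρ ^ m) (ξ i.succ)))
      (Set.range (lc B fun i : Fin 3 => (ρ ^ (2 * m)) (ξ i.succ))))) E ≤
      Module.finrank ρ.fieldRange E ^ m *
        dgx K 1 2 (fun i : Fin 3 => ξ i.succ) (fun i : Fin 3 => (ρ ^ m) (ξ i.succ))

/-- (TrX) PROOF. As `StmtXTr` (`Lib/MP_16285c_agN/T3/XTr.lean`: copy): if `w` is algebraic over `K(T_u)` then `T_u` is algebraic over `K(w)` (`w` transcendental over `K`). If this happens for four different `u`, then by Vandermonde all `g j` are algebraic over `K(w)`, so `K(g)` has transcendence degree `≤ 1`. -/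
def StmtTrX : Prop :=
  ∀ (K E : Type) [Field K] [Field E] [Algebra K E] (g : Fin 3 → E), AlgebraicIndependent K g →
    ∀ w : E, Transcendental K w →
      {u : K | ¬ Transcendental (IntermediateField.adjoin K {Tu K u g}) w}.Finite

/-! ## Sections -/

/-- (SubX) The vanishing conditions. PROOF. (i) Any `n + 1` elements `w_i` of `W`, `n = finrank V`, satisfy a relation `∑ c_i(T) w_i = 0` with `c_i ∈ K[Y]`, not all divisible by `Y` (clear denominators, divide by a power of `T ≠ 0`). Let `w = ∑ c_i(0) w_i`, a nontrivial `K`-combination, `w' = w / T = - ∑ ((c_i(T) - c_i(0)) / T) w_i`, a polynomial `∑ k ≤ N, a_k T ^ k` in `T` with coefficients `a_k ∈ W ⊆ R`. Then `w' ∈ R`: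
multiply by `w' ^ N`: `w' ^ (N+1) = ∑ k ≤ N, a_k (T w') ^ k w' ^ (N - k) = ∑ k ≤ N, a_k w ^ k w' ^ (N - k)`, an equation of integral dependence of `w'` over `R`. So `W₁ = {w ∈ W : w / T ∈ R}` has codimension `≤ n` in `W` (if `n + 1` elements of `W` were independent modulo `W₁` there would be a contradiction). (ii) Induction on `q`: `W' = T⁻¹ W₁` is contained in `R` and in `V` (`T⁻¹ ∈ K(T)`), `dim W' = dim W₁ > (q - 1) n`;
`S' ∈ W'` with `S' = T ^ (q-1) * S''` gives `S = T S' ∈ W₁ ≤ W`. (Compare the landed `Lib/MP_16285c_agN/T3/XSub.lean`.) -/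
def StmtSubX : Prop :=
  ∀ (K E : Type) [Field K] [Field E] [Algebra K E] (R : Subring E), (∀ c : K, algebraMap K E c ∈ R) →
    (∀ u : E, IsIntegral R u → u ∈ R) → ∀ T : E, T ≠ 0 →
    ∀ V : Submodule (IntermediateField.adjoin K {T}) E, Module.Finite (IntermediateField.adjoin K {T}) V →
    ∀ W : Submodule K E, (∀ w ∈ W, w ∈ V ∧ w ∈ R) → ∀ q : ℕ,
      q * Module.finrank (IntermediateField.adjoin K {T}) V < Module.finrank K W →
      ∃ S ∈ W, S ≠ 0 ∧ ∃ S' ∈ R, S = T ^ q * S'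

/-- (SecXI) PROOF (uses `StmtXUB2`, `StmtXLB`, `StmtSubX`, `StmtIntA`, `StmtTrX`, `StmtDg1`, `StmtE1X`). Landed model: `Lib/MP_16285c_agN/T3/XSecI.lean` (copy the structure and the final estimates). `x = ξ ∘ succ`, `X m = ρ ^ m ∘ x`, `d = d m`, `Δ = Δ m`, `D = d (2 m)`, `T = Tu K u (X m)`, `κ = K(T)`. `StmtDg1` (4) for `X (2m)`: `A, B` with `e := [E : K(l₁, l₂, w)] = D ≥ 1`, `l = lc A x`, `w = lc B (X (2m)) 0`. Let `u ≠ 0` be such that `w` is
transcendental over `κ` (`StmtTrX` for `g = X m`, which is algebraically independent). `T` is transcendental over `K` (`u ≠ 0`, `X m` algebraically independent), `trdeg κ E = 2`. UPPER BOUND: `StmtXUB2` for `κ`, `y = x`, `w`, `e₀ = d` (`κ(lc A' x) = K(lc A' x, T) = K(lc A' x, lc B' (X m))` with `B' 0 j = u ^ (j+1)`; `StmtDg1` (2)), `e₁ = 9 d Δ` (`StmtE1X`), `Θ` = the `κ`-span of a basis `θ_k`, `k < e`, of `E` over `K(l₁, l₂, w)` consisting of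
values `aeval ξ t_k` of polynomials of degree `≤ c` (`E = K(l₁, l₂, w)(ξ)` is spanned by the monomials in `ξ`). So `dim_κ V ≤ (p + C) (p d + 9 d Δ j + C)` for `V = z₀ ^ j • (Θ * Vd κ x p * Vd κ w j)`, `z₀ = aeval x Z₀ ≠ 0`. `W = span K {z₀ ^ j * θ_k * g(x) * w ^ r : totalDegree g ≤ p - c, r ≤ j}`, contained in `V` and in the integral closure `R` of `K[x]` (`θ_k ∈ K[ξ]`; `z₀ ^ j w ^ r = z₀ ^ (j - r) (z₀ w) ^ r`, `z₀ w ∈ R` by hypothesis; `StmtIntA`).
LOWER BOUND: `StmtXLB`: `dim W ≥ e * cnt 2 (p - c) * (j + 1)`, `2 cnt 2 a ≥ a ^ 2`. With `j = 8 d i`, `q = D i`, `p = 9 Δ j = 72 d Δ i`: `q dim V ≤ D i (p + C) (2 p d + C) < 4 D d i (p - c) ^ 2 ≤ dim W` for large `i`. `StmtSubX` for `R`: `S = T ^ q S'`, `S = z₀ ^ j * G(ξ; 1, X (2m))`, `G = ∑ C (t_k g_s) * X 0 ^ (j - r) * (∑ j, C (C (B 0 j)) * X j.succ) ^ r`, with coefficients of degree `≤ p`; `S' ≠ 0` since `S ≠ 0`. -/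
def StmtSecXI : Prop :=
  ∀ (K E : Type) [Field K] [CharZero K] [Field E] [Algebra K E] (ξ : Fin 4 → E), Stp K ξ →
    ∀ (ρ : E →ₐ[K] E) (m : ℕ) (Z₀ : Pl 3 K), Z₀ ≠ 0 →
    (∀ i : Fin 3, Intx K (fun i : Fin 3 => ξ i.succ)
      (MvPolynomial.aeval (fun i : Fin 3 => ξ i.succ) Z₀ * (ρ ^ (2 * m)) (ξ i.succ))) →
    ∀ d Δ D : ℕ, d = dgx K 2 1 (fun i : Fin 3 => ξ i.succ) (fun i : Fin 3 => (ρ ^ m) (ξ i.succ)) →
    Δ = dgx K 1 2 (fun i : Fin 3 => ξ i.succ) (fun i : Fin 3 => (ρ ^ m) (ξ i.succ)) →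
    D = dgx K 2 1 (fun i : Fin 3 => ξ i.succ) (fun i : Fin 3 => (ρ ^ (2 * m)) (ξ i.succ)) →
    {u : K | ¬ ∃ i₀ : ℕ, ∀ i, i₀ ≤ i → SctX K ξ (Tu K u (fun i : Fin 3 => (ρ ^ m) (ξ i.succ)))
      (fun i : Fin 3 => (ρ ^ (2 * m)) (ξ i.succ)) Z₀ (72 * d * Δ * i) (8 * d * i) (D * i)}.Finite

/-- (SecXII) PROOF (uses `StmtXUB2`, `StmtXLB`, `StmtSubX`, `StmtIntA`, `StmtTrX`, `StmtDg1`, `StmtE1X`, `StmtE0X`). Landed model: `Lib/MP_16285c_agN/T3/XSecII.lean`. `Δ' = Δ (2m)`, `τ = [E : ρ E]`, `z' = X (2m)`. `StmtDg1` (5): `A : Fin 1`, `B : Fin 2` with `[E : K(l(x), m₁(z'), m₂(z'))] = Δ' ≥ 1`. `u ≠ 0` with `l(x)` transcendental over `κ = K(T)` (`StmtTrX`; `l(x)` is transcendental over `K`). `θ_k = aeval ξ t_k`, `k < Δ'`, a basis of `E` over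
`K(l(x), m₁(z'), m₂(z'))`, degrees `≤ c`; `Θ` its `κ`-span. UPPER BOUND: `StmtXUB2` for `κ`, `y = z'` (`E` is finite over `K(z')`), `w = l(x)`, `e₀ = τ ^ m Δ` (`StmtE0X`), `e₁ = 9 d Δ` (`StmtE1X`), roles of `p` and `j` exchanged: `dim_κ (Θ * Vd κ z' j * Vd κ w p) ≤ (j + C) (j τ ^ m Δ + 9 d Δ p + C)`. `W = span K {z₀ ^ j * θ_k * l(x) ^ r * m₁(z') ^ a * m₂(z') ^ b : r ≤ p, a + b ≤ j}`, in the integral closure `R`
(`z₀ ^ j m₁ ^ a m₂ ^ b = z₀ ^ (j - a - b) (z₀ m₁) ^ a (z₀ m₂) ^ b`). LOWER BOUND: `StmtXLB`: `dim W ≥ Δ' * cnt 2 j * (p + 1) ≥ Δ' (j ^ 2 / 2) p`. With `j = 72 d Δ i`, `p = 8 τ ^ m Δ i`, `q = Δ' i`: `q dim V ≤ Δ' i (j + C) (2 j τ ^ m Δ + C) < 4 Δ' τ ^ m Δ i j ^ 2 = Δ' (j ^ 2 / 2) p` for large `i`. `StmtSubX`. The coefficients of `G` have degree `≤ c + p ≤ 2 p = 16 τ ^ m Δ i` for large `i`. -/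
def StmtSecXII : Prop :=
  ∀ (K E : Type) [Field K] [CharZero K] [Field E] [Algebra K E] (ξ : Fin 4 → E), Stp K ξ →
    ∀ (ρ : E →ₐ[K] E) (m : ℕ) (Z₀ : Pl 3 K), Z₀ ≠ 0 →
    (∀ i : Fin 3, Intx K (fun i : Fin 3 => ξ i.succ)
      (MvPolynomial.aeval (fun i : Fin 3 => ξ i.succ) Z₀ * (ρ ^ (2 * m)) (ξ i.succ))) →
    ∀ d Δ Δ' : ℕ, d = dgx K 2 1 (fun i : Fin 3 => ξ i.succ) (fun i : Fin 3 => (ρ ^ m) (ξ i.succ)) →
    Δ = dgx K 1 2 (fun i : Fin 3 => ξ i.succ) (fun i : Fin 3 => (ρ ^ m) (ξ i.succ)) →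
    Δ' = dgx K 1 2 (fun i : Fin 3 => ξ i.succ) (fun i : Fin 3 => (ρ ^ (2 * m)) (ξ i.succ)) →
    {u : K | ¬ ∃ i₀ : ℕ, ∀ i, i₀ ≤ i → SctX K ξ (Tu K u (fun i : Fin 3 => (ρ ^ m) (ξ i.succ)))
      (fun i : Fin 3 => (ρ ^ (2 * m)) (ξ i.succ)) Z₀
      (16 * Module.finrank ρ.fieldRange E ^ m * Δ * i) (72 * d * Δ * i) (Δ' * i)}.Finite

end Pool.Agent.Lib.MP_16285c_agX
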