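import Pool.Agent.Lib.MP_16285c_agX.T3.SpecC
import Pool.Agent.Lib.MP_16285c_agN.T3.XCv

/-!
# ZD3X: the generic point of a curve (`StmtCuG`)
-/

set_option autoImplicit false

namespace Pool.Agent.Lib.MP_16285c_agX

open Pool.Agent.Lib.MP_16285c_ag Pool.Agent.Lib.MP_16285c_agN
open Pool.Agent.Lib.MP_16285c_agS (toF StmtUni)

theorem tCuG : StmtCuG := by
  intro K _ n 𝔭 _ L _ _ _ _ _
  exact ⟨T3XCvM.adjoin_top 𝔭 K, fun h => T3XCvM.trdeg_one 𝔭 h⟩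

end Pool.Agent.Lib.MP_16285c_agX
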