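import Pool.Agent.Lib.MP_16285c_agX.T3.SpecH

/-!
# ZD3X: a monomial of degree `q` is a product of `q` variables (task 26508, helper12)
-/

set_option autoImplicit false

namespace Pool.Agent.Lib.MP_16285c_agX

namespace T3HSeqM

theorem prod_ms {ι : Type} (α : ι →₀ ℕ) {R : Type} [CommRing R] (v : ι → R) :
    ((Finsupp.toMultiset α).map v).prod = α.prod fun i e => v i ^ e := by
  induction α using Finsupp.induction_linear with
  | zero => simp
  | add f g hf hg =>
    rw [map_add, Multiset.map_add, Multiset.prod_add, hf, hg,
      Finsupp.prod_add_index' (fun _ => pow_zero _) fun _ _ _ => pow_add _ _ _]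
  | single a n =>
    rw [Finsupp.toMultiset_single, Multiset.map_nsmul, Multiset.map_singleton, Multiset.prod_nsmul,
      Multiset.prod_singleton]
    exact (Finsupp.prod_single_index (h := fun i e => v i ^ e) (pow_zero _)).symm

end T3HSeqM

open T3HSeqM

theorem yHSeq : StmtHSeq := by
  intro ι q α hq
  have hc : (Finsupp.toMultiset α).toList.length = q := by
    rw [Multiset.length_toList, Finsupp.card_toMultiset]
    exact hq
  refine ⟨fun j => (Finsupp.toMultiset α).toList.get (Fin.cast hc.symm j), ?_⟩
  intro R _ v
  rw [← prod_ms α v, ← Multiset.prod_map_toList]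
  clear hq
  subst hc
  rw [← Fin.prod_univ_fun_getElem]
  rfl

end Pool.Agent.Lib.MP_16285c_agX
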