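import Pool.Agent.Lib.MP_16285c_agX.T3.SpecC

/-!
# Threefolds with `λ₁ > λ₃`: `StmtRtX` (elementary inequalities between heights)
-/

set_option autoImplicit false

namespace Pool.Agent.Lib.MP_16285c_agX

open Pool.Agent.Lib.MP_16285c_ag Pool.Agent.Lib.MP_16285c_agN

namespace T3RtXM

/-- The height of the vector `(1, …, 1)` is at most `0`. -/
lemma one_le {Ω : Type} [Field Ω] (h : HtF Ω) {ι : Type} [Finite ι] [Nonempty ι] :
    h.H (fun _ : ι => (1 : Ω)) ≤ 0 := by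
  have hne : (fun _ : ι => (1 : Ω)) ≠ 0 := by
    intro he
    obtain ⟨i⟩ := ‹Nonempty ι›
    exact one_ne_zero (congrFun he i)
  have h1 := h.tens (fun _ : ι => (1 : Ω)) (fun _ : ι => (1 : Ω)) hne hne
  have h2 := h.comp (fun t : ι × ι => t.1) (fun _ : ι => (1 : Ω))
  have h3 : (fun _ : ι => (1 : Ω)) ∘ (fun t : ι × ι => t.1) = fun t : ι × ι => (1 : Ω) * 1 := by
    funext t
    simp
  rw [h3, h1] at h2
  linarith

lemma cons_ne {Ω : Type} [Field Ω] {n : ℕ} (x : Fin n → Ω) : hcN x ≠ 0 := by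
  intro he
  have := congrFun he 0
  simp [hcN] at this

lemma pair_ne {Ω : Type} [Field Ω] (u : Ω) : ![1, u] ≠ 0 := by
  intro he
  have := congrFun he 0
  simp at this

lemma part1 {Ω : Type} [Field Ω] (h : HtF Ω) (a : ℕ) (u : Ω) :
    h.H (fun i : Fin (a + 1) => u ^ (i : ℕ)) ≤ a * h.H ![1, u] := by
  induction a with
  | zero =>
    have h1 : (fun i : Fin (0 + 1) => u ^ (i : ℕ)) = fun _ : Fin (0 + 1) => (1 : Ω) := by
      funext i
      have : (i : ℕ) = 0 := by omega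
      rw [this, pow_zero]
    rw [h1]
    simpa using one_le h (ι := Fin (0 + 1))
  | succ a ih =>
    have hne : (fun i : Fin (a + 1) => u ^ (i : ℕ)) ≠ 0 := by
      intro he
      have := congrFun he 0
      simp at this
    have h1 := h.tens (fun i : Fin (a + 1) => u ^ (i : ℕ)) ![1, u] hne (pair_ne u)
    have h2 := h.comp (Fin.cons ((0 : Fin (a + 1)), (0 : Fin 2)) (fun i => (i, (1 : Fin 2))) :
      Fin (a + 1 + 1) → Fin (a + 1) × Fin 2)
      (fun t : Fin (a + 1) × Fin 2 => u ^ (t.1 : ℕ) * (![1, u] : Fin 2 → Ω) t.2)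
    have h3 : (fun t : Fin (a + 1) × Fin 2 => u ^ (t.1 : ℕ) * (![1, u] : Fin 2 → Ω) t.2) ∘
        (Fin.cons ((0 : Fin (a + 1)), (0 : Fin 2)) (fun i => (i, (1 : Fin 2))) :
          Fin (a + 1 + 1) → Fin (a + 1) × Fin 2) = fun i : Fin (a + 1 + 1) => u ^ (i : ℕ) := by
      funext i
      refine Fin.cases ?_ (fun j => ?_) i
      · simp
      · simp [pow_succ]
    rw [h3] at h2
    have h4 : h.H (fun t : Fin (a + 1) × Fin 2 => u ^ (t.1 : ℕ) * (![1, u] : Fin 2 → Ω) t.2) =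
        h.H (fun i : Fin (a + 1) => u ^ (i : ℕ)) + h.H ![1, u] := h1
    rw [h4] at h2
    push_cast
    linarith

lemma part2 {K Ω : Type} [Field K] [Field Ω] [Algebra K Ω] (h : HtF Ω) (a : ℕ)
    (Φ : Polynomial (Polynomial K)) (ha : ∀ j, (Φ.coeff j).natDegree ≤ a) :
    ∃ C : ℝ, 0 ≤ C ∧ ∀ u v : Ω, Polynomial.aeval u Φ.leadingCoeff ≠ 0 →
      bv u v Φ = 0 → h.H ![1, v] ≤ a * h.H ![1, u] + C := by
  obtain ⟨C₁, hC₁⟩ := h.root Φ.natDegree
  obtain ⟨C₂, hC₂⟩ := h.lin (ι := Fin (a + 1)) (κ := Fin (Φ.natDegree + 1))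
    (fun j l => algebraMap K Ω ((Φ.coeff (j : ℕ)).coeff (l : ℕ)))
  refine ⟨|C₁| + |C₂|, by positivity, fun u v hu hv => ?_⟩
  have hl : (fun i : Fin (Φ.natDegree + 1) => Polynomial.aeval u (Φ.coeff (i : ℕ)))
      (Fin.last Φ.natDegree) ≠ 0 := by
    show Polynomial.aeval u (Φ.coeff ((Fin.last Φ.natDegree : Fin (Φ.natDegree + 1)) : ℕ)) ≠ 0
    rw [Fin.val_last]
    exact hu
  have hs : ∑ i : Fin (Φ.natDegree + 1), (fun i : Fin (Φ.natDegree + 1) =>
      Polynomial.aeval u (Φ.coeff (i : ℕ))) i * v ^ (i : ℕ) = 0 := by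
    rw [bv, Polynomial.eval₂_eq_sum_range, Finset.sum_range] at hv
    rw [← hv]
    rfl
  have h1 := hC₁ (fun i => Polynomial.aeval u (Φ.coeff (i : ℕ))) v hl hs
  have h2 := hC₂ (fun l => u ^ (l : ℕ))
  have h3 : (fun j : Fin (Φ.natDegree + 1) => ∑ l : Fin (a + 1),
      algebraMap K Ω ((Φ.coeff (j : ℕ)).coeff (l : ℕ)) * u ^ (l : ℕ)) =
      fun i : Fin (Φ.natDegree + 1) => Polynomial.aeval u (Φ.coeff (i : ℕ)) := by
    funext j
    rw [Polynomial.aeval_eq_sum_range' (Nat.lt_succ_of_le (ha (j : ℕ))), Finset.sum_range]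
    refine Finset.sum_congr rfl fun l _ => ?_
    rw [Algebra.smul_def]
  rw [h3] at h2
  have h4 := part1 h a u
  have h5 := le_abs_self C₁
  have h6 := le_abs_self C₂
  linarith

lemma part3 {Ω : Type} [Field Ω] (h : HtF Ω) (n : ℕ) (x : Fin n → Ω) :
    h.H (hcN x) ≤ ∑ j, h.H ![1, x j] := by
  induction n with
  | zero =>
    have h1 : hcN x = fun _ : Fin (0 + 1) => (1 : Ω) := by
      funext i
      refine Fin.cases ?_ (fun j => j.elim0) i
      simp [hcN]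
    rw [h1]
    simpa using one_le h (ι := Fin (0 + 1))
  | succ n ih =>
    have h1 := h.tens ![1, x 0] (hcN (Fin.tail x)) (pair_ne (x 0)) (cons_ne (Fin.tail x))
    have h2 := h.comp (Fin.cons ((0 : Fin 2), (0 : Fin (n + 1)))
      (Fin.cons ((1 : Fin 2), (0 : Fin (n + 1))) (fun i : Fin n => ((0 : Fin 2), i.succ)) :
        Fin (n + 1) → Fin 2 × Fin (n + 1)) : Fin (n + 1 + 1) → Fin 2 × Fin (n + 1))
      (fun t : Fin 2 × Fin (n + 1) => (![1, x 0] : Fin 2 → Ω) t.1 * hcN (Fin.tail x) t.2)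
    have h3 : (fun t : Fin 2 × Fin (n + 1) =>
        (![1, x 0] : Fin 2 → Ω) t.1 * hcN (Fin.tail x) t.2) ∘
        (Fin.cons ((0 : Fin 2), (0 : Fin (n + 1)))
          (Fin.cons ((1 : Fin 2), (0 : Fin (n + 1))) (fun i : Fin n => ((0 : Fin 2), i.succ)) :
            Fin (n + 1) → Fin 2 × Fin (n + 1)) : Fin (n + 1 + 1) → Fin 2 × Fin (n + 1)) =
        hcN x := by
      funext i
      refine Fin.cases ?_ (fun j => ?_) i
      · simp [hcN]
      · refine Fin.cases ?_ (fun l => ?_) j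
        · simp [hcN]
        · simp [hcN, Fin.tail]
    have h4 : h.H (fun t : Fin 2 × Fin (n + 1) =>
        (![1, x 0] : Fin 2 → Ω) t.1 * hcN (Fin.tail x) t.2) =
        h.H ![1, x 0] + h.H (hcN (Fin.tail x)) := h1
    rw [h3, h4] at h2
    have h5 := ih (Fin.tail x)
    rw [Fin.sum_univ_succ]
    have h6 : (∑ j, h.H ![1, Fin.tail x j]) = ∑ i : Fin n, h.H ![1, x i.succ] := rfl
    linarith

end T3RtXM

/-- (RtX) Heights. -/
theorem tRtX : StmtRtX :=
  ⟨fun _ _ h a u => T3RtXM.part1 h a u,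
    fun _ _ _ _ _ h a Φ ha => T3RtXM.part2 h a Φ ha,
    fun _ _ h n x => T3RtXM.part3 h n x⟩

end Pool.Agent.Lib.MP_16285c_agX
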