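import Pool.Agent.Lib.MP_16285c_agX.T3.SpecA

/-!
# Threefolds with `λ₁ > λ₃`: inequalities between the degrees (DgM)
-/

set_option autoImplicit false

namespace Pool.Agent.Lib.MP_16285c_agX

open Pool.Agent.Lib.MP_16285c_ag Pool.Agent.Lib.MP_16285c_agN

namespace T3DgMM

open scoped IntermediateField.algebraAdjoinAdjoin

variable {K E : Type} [Field K] [Field E] [Algebra K E]

/-- `E` is algebraic over `K(x)`. -/
theorem alg_x {n : ℕ} {ξ : Fin (n + 1) → E} (h : Stp K ξ) :
    Algebra.IsAlgebraic (IntermediateField.adjoin K (Set.range fun i : Fin n => ξ i.succ)) E := by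
  set x : Fin n → E := fun i => ξ i.succ with hx
  set L := IntermediateField.adjoin K (Set.range x) with hL
  obtain ⟨F, hF, hF0⟩ := h.int
  let x' : Fin n → L := fun i => ⟨x i, IntermediateField.subset_adjoin K _ ⟨i, rfl⟩⟩
  have hcomp : ((algebraMap L E).comp ((MvPolynomial.aeval x' : Pl n K →ₐ[K] L) : Pl n K →+* L)) =
      ((MvPolynomial.aeval x : Pl n K →ₐ[K] E) : Pl n K →+* E) := by
    have h1 : ((IsScalarTower.toAlgHom K L E).comp (MvPolynomial.aeval x' : Pl n K →ₐ[K] L)) =
        (MvPolynomial.aeval x : Pl n K →ₐ[K] E) := by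
      refine MvPolynomial.algHom_ext fun i => ?_
      rw [AlgHom.comp_apply, MvPolynomial.aeval_X, MvPolynomial.aeval_X]
      rfl
    rw [← h1]
    rfl
  have h0 : IsAlgebraic L (ξ 0) := by
    refine ⟨F.map ((MvPolynomial.aeval x' : Pl n K →ₐ[K] L) : Pl n K →+* L),
      (hF.map _).ne_zero, ?_⟩
    rw [Polynomial.aeval_def, Polynomial.eval₂_map, hcomp]
    exact hF0
  have htop : (algebraicClosure L E).restrictScalars K = ⊤ := by
    refine top_le_iff.1 ?_
    rw [← h.gen, IntermediateField.adjoin_le_iff]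
    rintro _ ⟨i, rfl⟩
    change ξ i ∈ algebraicClosure L E
    refine mem_algebraicClosure_iff.2 ?_
    refine Fin.cases h0 (fun j => ?_) i
    exact isAlgebraic_algebraMap (x' j)
  constructor
  intro z
  have hz : z ∈ (algebraicClosure L E).restrictScalars K := by
    rw [htop]
    exact IntermediateField.mem_top
  exact mem_algebraicClosure_iff.1 hz

theorem trd {n : ℕ} {ξ : Fin (n + 1) → E} (h : Stp K ξ) : Algebra.trdeg K E = (n : Cardinal) := by
  have h1 := alg_x h
  have h2 : Algebra.IsAlgebraic (Algebra.adjoin K (Set.range fun i : Fin n => ξ i.succ)) E :=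
    Algebra.IsAlgebraic.trans (Algebra.adjoin K (Set.range fun i : Fin n => ξ i.succ))
      (IntermediateField.adjoin K (Set.range fun i : Fin n => ξ i.succ)) E
  have h3 : IsTranscendenceBasis K (fun i : Fin n => ξ i.succ) :=
    isTranscendenceBasis_iff_algebraicIndependent_isAlgebraic.2 ⟨h.ai, h2⟩
  rw [← h3.cardinalMk_eq_trdeg]
  simp

theorem fin_of_alg {n : ℕ} {ξ : Fin (n + 1) → E} (h : Stp K ξ) (A : IntermediateField K E)
    (hA : Algebra.IsAlgebraic A E) : Module.Finite A E := by
  have h5 : Algebra.EssFiniteType K E := by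
    rw [← IntermediateField.fg_top_iff, ← h.gen]
    exact IntermediateField.fg_adjoin_of_finite (Set.finite_range ξ)
  have h6 : Algebra.EssFiniteType A E := Algebra.EssFiniteType.of_comp K A E
  obtain ⟨t, ht⟩ := IntermediateField.fg_top A E
  have h7 : FiniteDimensional A (IntermediateField.adjoin A (t : Set E)) :=
    IntermediateField.finiteDimensional_adjoin fun x _ => Algebra.IsIntegral.isIntegral x
  rw [ht] at h7
  exact Module.Finite.equiv (IntermediateField.topEquiv (F := A) (E := E)).toLinearEquiv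

/-- `E` is finite over the field generated by `n` algebraically independent elements. -/
theorem fin_ind {n : ℕ} {ξ : Fin (n + 1) → E} (h : Stp K ξ) (z : Fin n → E)
    (hz : AlgebraicIndependent K z) :
    Module.Finite (IntermediateField.adjoin K (Set.range z)) E := by
  refine fin_of_alg h _ ?_
  have h1 : IsTranscendenceBasis K z := by
    refine AlgebraicIndependent.isTranscendenceBasis_of_trdeg_le_of_finite hz ?_
    rw [trd h]
    simp
  have h2 : Algebra.IsAlgebraic (Algebra.adjoin K (Set.range z)) E :=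
    (isTranscendenceBasis_iff_algebraicIndependent_isAlgebraic.1 h1).2
  exact Algebra.IsAlgebraic.extendScalars (R := Algebra.adjoin K (Set.range z))
    (S := IntermediateField.adjoin K (Set.range z)) (A := E)
    (FaithfulSMul.algebraMap_injective _ _)

/-- A finite extension of a field generated by `n` elements. -/
theorem ind_fin {n : ℕ} {ξ : Fin (n + 1) → E} (h : Stp K ξ) {c r : ℕ} (hcr : c + r = n)
    (l : Fin c → E) (w : Fin r → E)
    (hfin : Module.Finite (IntermediateField.adjoin K (Set.range l ∪ Set.range w)) E) :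
    AlgebraicIndependent K (Sum.elim w l) ∧
      AlgebraicIndependent (IntermediateField.adjoin K (Set.range l)) w := by
  have ht : Set.range (Sum.elim w l) = Set.range l ∪ Set.range w := by
    rw [Set.Sum.elim_range, Set.union_comm]
  have h1 : Algebra.IsAlgebraic (IntermediateField.adjoin K (Set.range (Sum.elim w l))) E := by
    rw [ht]
    exact Algebra.IsAlgebraic.of_finite _ _
  have h2 : Algebra.IsAlgebraic (Algebra.adjoin K (Set.range (Sum.elim w l))) E :=
    Algebra.IsAlgebraic.trans (Algebra.adjoin K (Set.range (Sum.elim w l)))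
      (IntermediateField.adjoin K (Set.range (Sum.elim w l))) E
  have h3 : Cardinal.mk (Fin r ⊕ Fin c) ≤ Algebra.trdeg K E := by
    rw [trd h, Cardinal.mk_fintype, Fintype.card_sum, Fintype.card_fin, Fintype.card_fin,
      add_comm, hcr]
  have h4 := Algebra.IsAlgebraic.isTranscendenceBasis_of_le_trdeg_of_finite K (Sum.elim w l) h3
  have h5 : AlgebraicIndependent (Algebra.adjoin K (Set.range l)) w :=
    (AlgebraicIndependent.sumElim_iff.1 h4.1).2
  exact ⟨h4.1, h5.extendScalars (IntermediateField.adjoin K (Set.range l))⟩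

/-- Degrees over a field generated in two steps. -/
theorem finrank_two (S T : Set E) :
    Module.finrank (IntermediateField.adjoin (IntermediateField.adjoin K S) T) E =
      Module.finrank (IntermediateField.adjoin K (S ∪ T)) E := by
  rw [← IntermediateField.adjoin_adjoin_left K S T]
  rfl

theorem fd_of_le {F₁ F₂ : IntermediateField K E} (h : F₁ ≤ F₂) (h1 : FiniteDimensional F₁ E) :
    FiniteDimensional F₂ E := by
  obtain ⟨S, hS⟩ := h1.fg_top
  refine ⟨⟨S, ?_⟩⟩
  rw [eq_top_iff]
  intro x _
  have hx : x ∈ Submodule.span F₁ (S : Set E) := by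
    rw [hS]
    trivial
  induction hx using Submodule.span_induction with
  | mem x hx => exact Submodule.subset_span hx
  | zero => exact Submodule.zero_mem _
  | add x y _ _ hx hy => exact Submodule.add_mem _ (hx trivial) (hy trivial)
  | smul a x _ hx => exact Submodule.smul_mem _ (⟨a, h a.2⟩ : F₂) (hx trivial)

theorem fin_two (κ : IntermediateField K E) (T : Set E)
    (h : Module.Finite (IntermediateField.adjoin K T) E) :
    Module.Finite (IntermediateField.adjoin κ T) E := by
  have hle : IntermediateField.adjoin K T ≤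
      (IntermediateField.adjoin κ T).restrictScalars K := by
    rw [IntermediateField.adjoin_le_iff]
    exact IntermediateField.subset_adjoin κ T
  have h1 : FiniteDimensional (IntermediateField.adjoin K T) E := h
  have h5 := fd_of_le hle h1
  exact h5

theorem range_one (w : Fin 1 → E) : Set.range w = {w 0} := by
  ext z
  constructor
  · rintro ⟨i, rfl⟩
    rw [Subsingleton.elim i 0]
    rfl
  · rintro rfl
    exact ⟨0, rfl⟩

theorem range_two (w : Fin 2 → E) : Set.range w = {w 0, w 1} := by
  ext z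
  constructor
  · rintro ⟨i, rfl⟩
    fin_cases i
    · exact Or.inl rfl
    · exact Or.inr rfl
  · rintro (rfl | rfl)
    · exact ⟨0, rfl⟩
    · exact ⟨1, rfl⟩

/-- The degree over the field generated by three linear forms in `x`. -/
theorem le_delta {ξ : Fin 4 → E} (h : Stp K ξ) (A : Fin 1 → Fin 3 → K) (A' : Fin 2 → Fin 3 → K) :
    Module.finrank (IntermediateField.adjoin K
      (Set.range (lc A fun i => ξ i.succ) ∪ Set.range (lc A' fun i => ξ i.succ))) E ≤
      Module.finrank (IntermediateField.adjoin K (Set.range fun i : Fin 3 => ξ i.succ)) E := by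
  set x : Fin 3 → E := fun i => ξ i.succ with hx
  set L := IntermediateField.adjoin K (Set.range (lc A x) ∪ Set.range (lc A' x)) with hL
  by_cases h0 : Module.finrank L E = 0
  · rw [h0]
    exact Nat.zero_le _
  have hfin : Module.Finite L E := Module.finite_of_finrank_pos (Nat.pos_of_ne_zero h0)
  have hai := (ind_fin h (by norm_num) (lc A x) (lc A' x) hfin).1
  have hli := hai.linearIndependent
  have hmem : ∀ {c : ℕ} (B : Fin c → Fin 3 → K) (i : Fin c),
      lc B x i ∈ Submodule.span K (Set.range x) := by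
    intro c B i
    unfold lc
    refine Submodule.sum_mem _ fun j _ => ?_
    rw [← Algebra.smul_def]
    exact Submodule.smul_mem _ _ (Submodule.subset_span ⟨j, rfl⟩)
  have hle : Submodule.span K (Set.range (Sum.elim (lc A' x) (lc A x))) ≤
      Submodule.span K (Set.range x) := by
    rw [Submodule.span_le]
    rintro _ ⟨i, rfl⟩
    rcases i with i | i
    · exact hmem A' i
    · exact hmem A i
  have heq : Submodule.span K (Set.range (Sum.elim (lc A' x) (lc A x))) =
      Submodule.span K (Set.range x) := by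
    have : Module.Finite K (Submodule.span K (Set.range x)) :=
      Module.Finite.span_of_finite K (Set.finite_range x)
    refine Submodule.eq_of_le_of_finrank_le hle ?_
    rw [finrank_span_eq_card hli]
    have := finrank_range_le_card (R := K) x
    simpa [Set.finrank] using this
  have hxL : ∀ j, x j ∈ L := by
    intro j
    have h1 : x j ∈ Submodule.span K (Set.range (Sum.elim (lc A' x) (lc A x))) := by
      rw [heq]
      exact Submodule.subset_span ⟨j, rfl⟩
    have h2 : Submodule.span K (Set.range (Sum.elim (lc A' x) (lc A x))) ≤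
        Subalgebra.toSubmodule L.toSubalgebra := by
      rw [Submodule.span_le]
      rintro _ ⟨i, rfl⟩
      rcases i with i | i
      · exact IntermediateField.subset_adjoin K _ (Or.inr ⟨i, rfl⟩)
      · exact IntermediateField.subset_adjoin K _ (Or.inl ⟨i, rfl⟩)
    exact h2 h1
  have hLx : L = IntermediateField.adjoin K (Set.range x) := by
    refine le_antisymm ?_ ?_
    · rw [hL, IntermediateField.adjoin_le_iff]
      have h3 : ∀ {c : ℕ} (B : Fin c → Fin 3 → K) (i : Fin c),
          lc B x i ∈ IntermediateField.adjoin K (Set.range x) := by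
        intro c B i
        unfold lc
        refine sum_mem fun j _ => mul_mem ?_ (IntermediateField.subset_adjoin K _ ⟨j, rfl⟩)
        exact IntermediateField.algebraMap_mem _ _
      rintro z (⟨i, rfl⟩ | ⟨i, rfl⟩)
      · exact h3 A i
      · exact h3 A' i
    · rw [IntermediateField.adjoin_le_iff]
      rintro z ⟨i, rfl⟩
      exact hxL i
  rw [hLx]

theorem lc_map (ρ : E →ₐ[K] E) {c n : ℕ} (B : Fin c → Fin n → K) (g : Fin n → E) (i : Fin c) :
    lc B (fun j => ρ (g j)) i = ρ (lc B g i) := by
  unfold lc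
  rw [map_sum]
  refine Finset.sum_congr rfl fun j _ => ?_
  rw [map_mul, AlgHom.commutes]

theorem ai_pow {ξ : Fin 4 → E} (h : Stp K ξ) (ρ : E →ₐ[K] E) :
    AlgebraicIndependent K (fun i : Fin 3 => ρ (ξ i.succ)) :=
  h.ai.map' (f := ρ) ρ.toRingHom.injective

end T3DgMM

open T3DgMM

/-- (DgM) -/
theorem yDgM : StmtDg1 → StmtCfD → StmtDgT → StmtBZ1 → StmtBZ2 → StmtDgM := by
  intro hDg hCfD hDgT hBZ1 hBZ2 K E _ _ _ _ ξ hξ ρ
  obtain ⟨hD1, hD2, hD3, -, -⟩ := hDg K E ξ hξ
  obtain ⟨hT1, hT2, -, -⟩ := hDgT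
  have hfx : Module.Finite (IntermediateField.adjoin K (Set.range fun i : Fin 3 => ξ i.succ)) E :=
    fin_ind hξ _ hξ.ai
  -- the functions of degree `≤ d m`
  have hw : ∀ (m : ℕ) (b : Fin 3 → K),
      Dge K (fun i : Fin 3 => ξ i.succ) (lc (fun _ : Fin 1 => b) (fun i : Fin 3 => (ρ ^ m) (ξ i.succ)) 0)
        (dgx K 2 1 (fun i : Fin 3 => ξ i.succ) (fun i : Fin 3 => (ρ ^ m) (ξ i.succ))) := by
    intro m b
    refine hCfD K E _ hξ.ai hfx _ _ fun A => ?_
    have h1 := hD2 (fun i : Fin 3 => (ρ ^ m) (ξ i.succ)) A (fun _ => b)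
    rw [range_one, Set.union_singleton] at h1
    exact h1
  have hw' : ∀ (a m : ℕ) (b : Fin 3 → K) (κ : IntermediateField K E),
      Dge κ (fun i : Fin 3 => (ρ ^ a) (ξ i.succ))
        (lc (fun _ : Fin 1 => b) (fun i : Fin 3 => (ρ ^ (a + m)) (ξ i.succ)) 0)
        (dgx K 2 1 (fun i : Fin 3 => ξ i.succ) (fun i : Fin 3 => (ρ ^ m) (ξ i.succ))) := by
    intro a m b κ
    refine hT1 K E 3 _ _ _ ?_ κ
    have h1 := hT2 K E 3 _ _ _ (hw m b) (ρ ^ a)
    rw [← lc_map] at h1
    have h2 : (fun j : Fin 3 => (ρ ^ a) ((ρ ^ m) (ξ j.succ))) =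
        fun j : Fin 3 => (ρ ^ (a + m)) (ξ j.succ) := by
      funext j
      rw [pow_add]
      rfl
    rw [h2] at h1
    exact h1
  have hfy : ∀ (m : ℕ) (κ : IntermediateField K E), Module.Finite (IntermediateField.adjoin κ
      (Set.range fun i : Fin 3 => (ρ ^ m) (ξ i.succ))) E := fun m κ =>
    fin_two κ _ (fin_ind hξ _ (ai_pow hξ (ρ ^ m)))
  refine ⟨?_, ?_, ?_⟩
  · intro a b
    refine csSup_le (Set.range_nonempty _) ?_
    rintro _ ⟨⟨A, B⟩, rfl⟩
    change Module.finrank (IntermediateField.adjoin K (Set.range (lc A fun i : Fin 3 => ξ i.succ) ∪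
      Set.range (lc B fun i : Fin 3 => (ρ ^ (a + b)) (ξ i.succ)))) E ≤ _
    by_cases h0 : Module.finrank (IntermediateField.adjoin K
        (Set.range (lc A fun i : Fin 3 => ξ i.succ) ∪
        Set.range (lc B fun i : Fin 3 => (ρ ^ (a + b)) (ξ i.succ)))) E = 0
    · rw [h0]
      exact Nat.zero_le _
    have hfin := Module.finite_of_finrank_pos (Nat.pos_of_ne_zero h0)
    have hai := (ind_fin hξ (by norm_num) _ _ hfin).2
    have htr : Transcendental (IntermediateField.adjoin K
        (Set.range (lc A fun i : Fin 3 => ξ i.succ)))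
        (lc B (fun i : Fin 3 => (ρ ^ (a + b)) (ξ i.succ)) 0) :=
      (algebraicIndependent_unique_type_iff (x := lc B fun i : Fin 3 => (ρ ^ (a + b)) (ξ i.succ))).1 hai
    have h1 := hBZ1 K E (IntermediateField.adjoin K (Set.range (lc A fun i : Fin 3 => ξ i.succ))) 3
      (fun i : Fin 3 => (ρ ^ a) (ξ i.succ)) (lc B (fun i : Fin 3 => (ρ ^ (a + b)) (ξ i.succ)) 0)
      (dgx K 2 1 (fun i : Fin 3 => ξ i.succ) (fun i : Fin 3 => (ρ ^ b) (ξ i.succ)))
      (dgx K 2 1 (fun i : Fin 3 => ξ i.succ) (fun i : Fin 3 => (ρ ^ a) (ξ i.succ)))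
      (hfy a _)
      (by
        intro A'
        rw [finrank_two]
        exact hD2 _ A A')
      (hD1 ρ b).1
      (by
        have h2 := hw' a b (B 0) (IntermediateField.adjoin K
          (Set.range (lc A fun i : Fin 3 => ξ i.succ)))
        exact h2)
      htr
    rw [finrank_two, ← range_one] at h1
    refine h1.trans (le_of_eq ?_)
    ring
  · intro m
    refine csSup_le (Set.range_nonempty _) ?_
    rintro _ ⟨⟨A, B⟩, rfl⟩
    change Module.finrank (IntermediateField.adjoin K (Set.range (lc A fun i : Fin 3 => ξ i.succ) ∪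
      Set.range (lc B fun i : Fin 3 => (ρ ^ m) (ξ i.succ)))) E ≤ _
    by_cases h0 : Module.finrank (IntermediateField.adjoin K
        (Set.range (lc A fun i : Fin 3 => ξ i.succ) ∪
        Set.range (lc B fun i : Fin 3 => (ρ ^ m) (ξ i.succ)))) E = 0
    · rw [h0]
      exact Nat.zero_le _
    have hfin := Module.finite_of_finrank_pos (Nat.pos_of_ne_zero h0)
    have hai := (ind_fin hξ (by norm_num) _ _ hfin).2
    have hai' : AlgebraicIndependent (IntermediateField.adjoin K
        (Set.range (lc A fun i : Fin 3 => ξ i.succ)))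
        ![lc B (fun i : Fin 3 => (ρ ^ m) (ξ i.succ)) 0, lc B (fun i : Fin 3 => (ρ ^ m) (ξ i.succ)) 1] := by
      have h3 : ![lc B (fun i : Fin 3 => (ρ ^ m) (ξ i.succ)) 0,
          lc B (fun i : Fin 3 => (ρ ^ m) (ξ i.succ)) 1] =
          lc B (fun i : Fin 3 => (ρ ^ m) (ξ i.succ)) := by
        funext i
        fin_cases i <;> rfl
      rw [h3]
      exact hai
    have hg : ∀ i : Fin 2, Dge (IntermediateField.adjoin K
        (Set.range (lc A fun i : Fin 3 => ξ i.succ))) (fun i : Fin 3 => ξ i.succ)
        (lc B (fun i : Fin 3 => (ρ ^ m) (ξ i.succ)) i)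
        (dgx K 2 1 (fun i : Fin 3 => ξ i.succ) (fun i : Fin 3 => (ρ ^ m) (ξ i.succ))) := fun i =>
      hT1 K E 3 _ _ _ (hw m (B i)) _
    have h1 := hBZ2 K E (IntermediateField.adjoin K (Set.range (lc A fun i : Fin 3 => ξ i.succ))) 3
      (fun i : Fin 3 => ξ i.succ) _ _ _ _
      (Module.finrank (IntermediateField.adjoin K (Set.range fun i : Fin 3 => ξ i.succ)) E)
      (fin_two _ _ hfx)
      (by
        intro A'
        rw [finrank_two]
        exact le_delta hξ A A')
      (hD1 ρ m).1 (hD1 ρ m).1 (hg 0) (hg 1) hai'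
    rw [finrank_two, ← range_two] at h1
    refine h1.trans (le_of_eq ?_)
    ring
  · intro m
    refine csSup_le (Set.range_nonempty _) ?_
    rintro _ ⟨⟨A, B⟩, rfl⟩
    change Module.finrank (IntermediateField.adjoin K (Set.range (lc A fun i : Fin 3 => ξ i.succ) ∪
      Set.range (lc B fun i : Fin 3 => (ρ ^ (m + 1)) (ξ i.succ)))) E ≤ _
    by_cases h0 : Module.finrank (IntermediateField.adjoin K
        (Set.range (lc A fun i : Fin 3 => ξ i.succ) ∪
        Set.range (lc B fun i : Fin 3 => (ρ ^ (m + 1)) (ξ i.succ)))) E = 0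
    · rw [h0]
      exact Nat.zero_le _
    have hfin := Module.finite_of_finrank_pos (Nat.pos_of_ne_zero h0)
    have hai := (ind_fin hξ (by norm_num) _ _ hfin).2
    have hai' : AlgebraicIndependent (IntermediateField.adjoin K
        (Set.range (lc A fun i : Fin 3 => ξ i.succ)))
        ![lc B (fun i : Fin 3 => (ρ ^ (m + 1)) (ξ i.succ)) 0,
          lc B (fun i : Fin 3 => (ρ ^ (m + 1)) (ξ i.succ)) 1] := by
      have h3 : ![lc B (fun i : Fin 3 => (ρ ^ (m + 1)) (ξ i.succ)) 0,
          lc B (fun i : Fin 3 => (ρ ^ (m + 1)) (ξ i.succ)) 1] =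
          lc B (fun i : Fin 3 => (ρ ^ (m + 1)) (ξ i.succ)) := by
        funext i
        fin_cases i <;> rfl
      rw [h3]
      exact hai
    have hg : ∀ i : Fin 2, Dge (IntermediateField.adjoin K
        (Set.range (lc A fun i : Fin 3 => ξ i.succ))) (fun i : Fin 3 => (ρ ^ m) (ξ i.succ))
        (lc B (fun i : Fin 3 => (ρ ^ (m + 1)) (ξ i.succ)) i)
        (dgx K 2 1 (fun i : Fin 3 => ξ i.succ) (fun i : Fin 3 => (ρ ^ 1) (ξ i.succ))) := fun i =>
      hw' m 1 (B i) _
    have h1 := hBZ2 K E (IntermediateField.adjoin K (Set.range (lc A fun i : Fin 3 => ξ i.succ))) 3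
      (fun i : Fin 3 => (ρ ^ m) (ξ i.succ)) _ _ _ _
      (dgx K 1 2 (fun i : Fin 3 => ξ i.succ) (fun i : Fin 3 => (ρ ^ m) (ξ i.succ)))
      (hfy m _)
      (by
        intro A'
        rw [finrank_two]
        exact hD3 _ A A')
      (hD1 ρ 1).1 (hD1 ρ 1).1 (hg 0) (hg 1) hai'
    rw [finrank_two, ← range_two] at h1
    refine h1.trans (le_of_eq ?_)
    ring

end Pool.Agent.Lib.MP_16285c_agX
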