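import Pool.Agent.Lib.MP_16285c_agX.T3.SpecL
import Pool.Agent.Lib.MP_16285c_agN.T3.XGen

/-!
# Two generic combinations (`StmtLnG`)
-/

set_option autoImplicit false

namespace Pool.Agent.Lib.MP_16285c_agX

open Pool.Agent.Lib.MP_16285c_ag Pool.Agent.Lib.MP_16285c_agN

namespace T3LnGM

/-- A nonunit divides only finitely many values. -/
theorem fin1 {K : Type} [Field K] {n r : ℕ} (a : Fin (r + 1) → Pl n K)
    (ha : ∀ c : Pl n K, (∀ i, c ∣ a i) → IsUnit c) (p : Pl n K) (hp : ¬ IsUnit p) :
    {u : K | p ∣ luN (MvPolynomial.C u) a}.Finite := by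
  by_contra hinf
  have hi : {u : K | p ∣ luN (MvPolynomial.C u) a}.Infinite := hinf
  let v : Fin (r + 1) → K := fun k => (hi.natEmbedding _ (k : ℕ) : K)
  have hv : Function.Injective v := by
    intro x y hxy
    exact Fin.ext ((hi.natEmbedding _).injective (Subtype.ext hxy))
  have hd : ∀ k, p ∣ luN (algebraMap K (Pl n K) (v k)) a := fun k =>
    (hi.natEmbedding _ (k : ℕ)).2
  exact hp (ha p (fun i => T3XGenM.vand r a p v hv hd i))

/-- Generic combinations are relatively prime to `a q`. -/
theorem gen {K : Type} [Field K] {n r : ℕ} (a : Fin (r + 1) → Pl n K)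
    (ha : ∀ c : Pl n K, (∀ i, c ∣ a i) → IsUnit c) (q : Fin (r + 1)) (h0 : a q ≠ 0) :
    {u : K | ¬ IsRelPrime (luN (MvPolynomial.C u) a) (a q)}.Finite := by
  classical
  refine Set.Finite.subset (s := ⋃ p ∈ (UniqueFactorizationMonoid.factors (a q)).toFinset,
    {u : K | p ∣ luN (MvPolynomial.C u) a}) ?_ ?_
  · refine Set.Finite.biUnion (Finset.finite_toSet _) ?_
    intro p hp
    have hp' : p ∈ UniqueFactorizationMonoid.factors (a q) := by
      simpa using hp
    exact fin1 a ha p (UniqueFactorizationMonoid.irreducible_of_factor p hp').not_isUnit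
  · intro u hu
    have hu' : ¬ IsRelPrime (luN (MvPolynomial.C u) a) (a q) := hu
    unfold IsRelPrime at hu'
    push Not at hu'
    obtain ⟨d, hd1, hd2, hd3⟩ := hu'
    have hd0 : d ≠ 0 := by
      rintro rfl
      exact h0 (zero_dvd_iff.1 hd2)
    obtain ⟨p, hp, hpd⟩ := WfDvdMonoid.exists_irreducible_factor hd3 hd0
    obtain ⟨q', hq, hpq⟩ := UniqueFactorizationMonoid.exists_mem_factors_of_dvd h0 hp
      (hpd.trans hd2)
    refine Set.mem_biUnion (x := q') ?_ ?_
    · simpa using hq
    · exact (hpq.symm.dvd).trans (hpd.trans hd1)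

/-- The degree of a combination. -/
theorem deg_le {K : Type} [Field K] {n r D : ℕ} (a : Fin (r + 1) → Pl n K)
    (hD : ∀ i, (a i).totalDegree ≤ D) (c : Fin (r + 1) → K) :
    (∑ j, MvPolynomial.C (c j) * a j).totalDegree ≤ D := by
  refine MvPolynomial.totalDegree_finsetSum_le fun j _ => ?_
  refine (MvPolynomial.totalDegree_mul _ _).trans ?_
  rw [MvPolynomial.totalDegree_C, zero_add]
  exact hD j

/-- `luN` as a combination. -/
theorem luN_eq {K : Type} [Field K] {n r : ℕ} (a : Fin (r + 1) → Pl n K) (u : K) :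
    ∑ j : Fin (r + 1), MvPolynomial.C (u ^ (j : ℕ)) * a j = luN (MvPolynomial.C u) a := by
  unfold luN
  exact Finset.sum_congr rfl fun j _ => by rw [MvPolynomial.C_pow]

/-- Generic combinations have degree `D`. -/
theorem degs {K : Type} [Field K] {n r D : ℕ} (a : Fin (r + 1) → Pl n K)
    (hD : ∀ i, (a i).totalDegree ≤ D) (hex : ∃ i, (a i).totalDegree = D) :
    {u : K | (luN (MvPolynomial.C u) a).totalDegree ≠ D}.Finite := by
  classical
  obtain ⟨i₀, hi₀⟩ := hex
  by_cases hz : a i₀ = 0
  · rw [hz, MvPolynomial.totalDegree_zero] at hi₀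
    subst hi₀
    refine Set.Finite.subset Set.finite_empty fun u hu => hu ?_
    have := deg_le a hD fun j => u ^ (j : ℕ)
    rw [luN_eq] at this
    exact Nat.le_zero.1 this
  · have hne : (a i₀).support.Nonempty := by
      rw [Finset.nonempty_iff_ne_empty]
      intro h
      exact hz (MvPolynomial.support_eq_empty.1 h)
    obtain ⟨μ, hμ, hμd⟩ := Finset.exists_mem_eq_sup _ hne
      (fun s : Fin n →₀ ℕ => s.sum fun _ e => e)
    have hμD : (μ.sum fun _ e => e) = D := by
      rw [← hi₀, MvPolynomial.totalDegree, hμd]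
    set Q : Polynomial K := ∑ j : Fin (r + 1), Polynomial.C (MvPolynomial.coeff μ (a j)) *
      Polynomial.X ^ (j : ℕ) with hQ
    have hQ0 : Q ≠ 0 := by
      intro h
      have hc : Q.coeff (i₀ : ℕ) = MvPolynomial.coeff μ (a i₀) := by
        rw [hQ, Polynomial.finsetSum_coeff, Finset.sum_eq_single i₀]
        · rw [Polynomial.coeff_C_mul_X_pow, if_pos rfl]
        · intro j _ hj
          rw [Polynomial.coeff_C_mul_X_pow, if_neg]
          exact fun h' => hj (Fin.ext h'.symm)
        · intro h'
          exact absurd (Finset.mem_univ _) h'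
      rw [h, Polynomial.coeff_zero] at hc
      exact (MvPolynomial.mem_support_iff.1 hμ) hc.symm
    refine Set.Finite.subset (Q.roots.toFinset.finite_toSet) fun u hu => ?_
    by_contra hr
    apply hu
    have hup := deg_le a hD fun j => u ^ (j : ℕ)
    rw [luN_eq] at hup
    refine le_antisymm hup ?_
    have hcoef : MvPolynomial.coeff μ (luN (MvPolynomial.C u) a) = Q.eval u := by
      rw [← luN_eq, MvPolynomial.coeff_sum, hQ, Polynomial.eval_finsetSum]
      refine Finset.sum_congr rfl fun j _ => ?_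
      rw [MvPolynomial.coeff_C_mul, Polynomial.eval_mul, Polynomial.eval_C, Polynomial.eval_pow,
        Polynomial.eval_X, mul_comm]
    have hne' : MvPolynomial.coeff μ (luN (MvPolynomial.C u) a) ≠ 0 := by
      rw [hcoef]
      intro h
      apply hr
      simp [Polynomial.mem_roots hQ0, h]
    rw [← hμD]
    exact MvPolynomial.le_totalDegree (MvPolynomial.mem_support_iff.2 hne')

end T3LnGM

open T3LnGM in
/-- Two generic combinations. -/
theorem yLnG : StmtLnG := by
  classical
  intro K _ _ n r D a q hn h0 ha hD hex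
  obtain ⟨u, hu⟩ := ((gen a ha q h0).union (degs a hD hex)).infinite_compl.nonempty
  have hu1 : IsRelPrime (luN (MvPolynomial.C u) a) (a q) := by
    by_contra h
    exact hu (Or.inl h)
  have hu2 : (luN (MvPolynomial.C u) a).totalDegree = D := by
    by_contra h
    exact hu (Or.inr h)
  have hl : Fin.last n ≠ 0 := by
    intro h
    have := congrArg Fin.val h
    simp at this
    omega
  set M : Fin (n + 1) → Fin (r + 1) → K := fun i j =>
    if i = 0 then (if j = q then 1 else 0) else u ^ (j : ℕ) with hM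
  have hM0 : ∑ j, MvPolynomial.C (M 0 j) * a j = a q := by
    rw [Finset.sum_eq_single q]
    · simp [hM]
    · intro j _ hj
      simp [hM, hj]
    · intro h
      exact absurd (Finset.mem_univ _) h
  have hM1 : ∑ j, MvPolynomial.C (M (Fin.last n) j) * a j = luN (MvPolynomial.C u) a := by
    rw [← luN_eq]
    refine Finset.sum_congr rfl fun j _ => ?_
    simp only [hM, if_neg hl]
  refine ⟨M, hM0, fun c hc => ?_, fun i => deg_le a hD (M i), Fin.last n, ?_⟩
  · have h1 := hc 0
    have h2 := hc (Fin.last n)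
    rw [hM0] at h1
    rw [hM1] at h2
    exact hu1 h2 h1
  · rw [hM1, hu2]

end Pool.Agent.Lib.MP_16285c_agX
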