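import Pool.Agent.Lib.MP_16285c_agX.T3.SpecL

/-!
# ZD3X: heights of the coefficients on a line

Proof of `StmtLnH` of `T3/SpecL.lean`.
-/

set_option autoImplicit false

namespace Pool.Agent.Lib.MP_16285c_agX

open Pool.Agent.Lib.MP_16285c_ag Pool.Agent.Lib.MP_16285c_agN

namespace T3LnHM

/-- A multiset with `r` elements as a family indexed by `Fin r`. -/
theorem exists_fun {α : Type} (s : Multiset α) (r : ℕ) (h : Multiset.card s = r) :
    ∃ u : Fin r → α, s = Multiset.map u Finset.univ.val := by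
  subst h
  induction s using Quotient.inductionOn with
  | _ l =>
    refine ⟨l.get, ?_⟩
    show (l : Multiset α) = Multiset.map l.get Finset.univ.val
    have h : Multiset.map l.get (Finset.univ : Finset (Fin l.length)).val = ↑(List.ofFn l.get) :=
      Fin.univ_val_map _
    rw [h, List.ofFn_get]

/-- The value of the restricted polynomial. -/
theorem aeval_fs {K₁ F : Type} [Field K₁] [CommRing F] [Algebra K₁ F] {n : ℕ} (t : Fin n → K₁)
    (x : F) (G : Pl (n + 1) K₁) :
    Polynomial.aeval x ((MvPolynomial.finSuccEquiv K₁ n G).map (MvPolynomial.eval t)) =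
      MvPolynomial.aeval (Fin.cons x (fun i => algebraMap K₁ F (t i)) : Fin (n + 1) → F) G := by
  induction G using MvPolynomial.induction_on with
  | C c =>
    have h : MvPolynomial.finSuccEquiv K₁ n (MvPolynomial.C c) = Polynomial.C (MvPolynomial.C c) :=
      (MvPolynomial.finSuccEquiv K₁ n).commutes c
    rw [h, Polynomial.map_C, MvPolynomial.eval_C, Polynomial.aeval_C, MvPolynomial.aeval_C]
  | add p q hp hq =>
    rw [map_add, Polynomial.map_add, map_add, map_add, hp, hq]
  | mul_X p i hp =>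
    rw [map_mul, Polynomial.map_mul, map_mul, map_mul, hp, MvPolynomial.aeval_X]
    congr 1
    refine Fin.cases ?_ (fun j => ?_) i
    · rw [MvPolynomial.finSuccEquiv_X_zero, Polynomial.map_X, Polynomial.aeval_X, Fin.cons_zero]
    · rw [MvPolynomial.finSuccEquiv_X_succ, Polynomial.map_C, MvPolynomial.eval_X,
        Polynomial.aeval_C, Fin.cons_succ]

/-- The value of a polynomial with coefficients in a subfield. -/
theorem aeval_map' {K K₁ F : Type} [Field K] [Field K₁] [CommRing F] [Algebra K K₁] [Algebra K F]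
    [Algebra K₁ F] [IsScalarTower K K₁ F] {n : ℕ} (y : Fin n → F) (G : Pl n K) :
    MvPolynomial.aeval y (MvPolynomial.map (algebraMap K K₁) G) = MvPolynomial.aeval y G := by
  rw [MvPolynomial.aeval_map_algebraMap]

theorem aeval_algebraMap {K K₁ Ω : Type} [Field K] [Field K₁] [Field Ω] [Algebra K K₁]
    [Algebra K Ω] [Algebra K₁ Ω] [IsScalarTower K K₁ Ω] {n : ℕ} (c : Fin n → K₁) (G : Pl n K) :
    MvPolynomial.aeval (fun i => algebraMap K₁ Ω (c i)) G =
      algebraMap K₁ Ω (MvPolynomial.aeval c G) := by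
  have h := MvPolynomial.aeval_algebraMap_apply (R := K) Ω c G
  exact h

/-- Two points over the same point: their values have the same height. -/
theorem conj {K K₁ Ω : Type} [Field K] [Field K₁] [Field Ω] [Algebra K K₁] [Algebra K Ω]
    [Algebra K₁ Ω] [IsScalarTower K K₁ Ω] (h : HtF Ω)
    (hinv : ∀ (F : Type) [Field F] [Algebra K₁ F] (ι ι' : F →ₐ[K₁] Ω) (m : Type) [Finite m]
      (a : m → F), h.H (fun j => ι (a j)) = h.H (fun j => ι' (a j)))
    {n : ℕ} (P N : Pl (n + 1) K) (b : Pl n K) (t : Fin n → K₁)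
    (hirr : Irreducible ((MvPolynomial.finSuccEquiv K₁ n (MvPolynomial.map (algebraMap K K₁) P)).map
        (MvPolynomial.eval t))) (hb : MvPolynomial.aeval t b ≠ 0) (ζ z₀ y y₀ : Ω)
    (hζ : MvPolynomial.aeval (Fin.cons ζ (fun i => algebraMap K₁ Ω (t i)) : Fin (n + 1) → Ω) P = 0)
    (hz : MvPolynomial.aeval (Fin.cons z₀ (fun i => algebraMap K₁ Ω (t i)) : Fin (n + 1) → Ω) P = 0)
    (hy : y * MvPolynomial.aeval (fun i => algebraMap K₁ Ω (t i)) b =
      MvPolynomial.aeval (Fin.cons ζ (fun i => algebraMap K₁ Ω (t i)) : Fin (n + 1) → Ω) N)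
    (hy₀ : y₀ * MvPolynomial.aeval (fun i => algebraMap K₁ Ω (t i)) b =
      MvPolynomial.aeval (Fin.cons z₀ (fun i => algebraMap K₁ Ω (t i)) : Fin (n + 1) → Ω) N) :
    h.H ![1, y] = h.H ![1, y₀] := by
  obtain ⟨p, hp⟩ : ∃ p, p = (MvPolynomial.finSuccEquiv K₁ n
    (MvPolynomial.map (algebraMap K K₁) P)).map (MvPolynomial.eval t) := ⟨_, rfl⟩
  rw [← hp] at hirr
  have : Fact (Irreducible p) := ⟨hirr⟩
  have hbΩ : algebraMap K₁ Ω (MvPolynomial.aeval t b) ≠ 0 :=
    (map_ne_zero_iff _ (algebraMap K₁ Ω).injective).2 hb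
  -- the general embedding
  have key : ∀ (x w : Ω),
      MvPolynomial.aeval (Fin.cons x (fun i => algebraMap K₁ Ω (t i)) : Fin (n + 1) → Ω) P = 0 →
      w * MvPolynomial.aeval (fun i => algebraMap K₁ Ω (t i)) b =
        MvPolynomial.aeval (Fin.cons x (fun i => algebraMap K₁ Ω (t i)) : Fin (n + 1) → Ω) N →
      ∃ ι : AdjoinRoot p →ₐ[K₁] Ω, ι (MvPolynomial.aeval (Fin.cons (AdjoinRoot.root p)
        (fun i => algebraMap K₁ (AdjoinRoot p) (t i)) : Fin (n + 1) → AdjoinRoot p)
          (MvPolynomial.map (algebraMap K K₁) N) /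
        algebraMap K₁ (AdjoinRoot p) (MvPolynomial.aeval t b)) = w := by
    intro x w hx hw
    have hroot : Polynomial.aeval x p = 0 := by
      rw [hp, aeval_fs, aeval_map', hx]
    refine ⟨AdjoinRoot.liftAlgHom p (Algebra.ofId K₁ Ω) x hroot, ?_⟩
    rw [map_div₀, AlgHom.commutes, div_eq_iff hbΩ, ← aeval_algebraMap, hw,
      MvPolynomial.comp_aeval_apply, ← aeval_map' (K := K) (K₁ := K₁)]
    congr 2
    funext i
    refine Fin.cases ?_ (fun j => ?_) i
    · simp
    · simp
  obtain ⟨ι, hι⟩ := key ζ y hζ hy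
  obtain ⟨ι', hι'⟩ := key z₀ y₀ hz hy₀
  have h1 := hinv (AdjoinRoot p) ι ι' (Fin 2) ![1, MvPolynomial.aeval (Fin.cons (AdjoinRoot.root p)
        (fun i => algebraMap K₁ (AdjoinRoot p) (t i)) : Fin (n + 1) → AdjoinRoot p)
          (MvPolynomial.map (algebraMap K K₁) N) /
        algebraMap K₁ (AdjoinRoot p) (MvPolynomial.aeval t b)]
  have e : ∀ (κ : AdjoinRoot p →ₐ[K₁] Ω) (v : AdjoinRoot p),
      (fun j : Fin 2 => κ (![1, v] j)) = ![1, κ v] := by
    intro κ v
    funext j
    fin_cases j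
    · simp
    · simp
  rw [e, e, hι, hι'] at h1
  exact h1

end T3LnHM

open T3LnHM

/-- (LnH) Heights of the coefficients. -/
theorem yLnH : StmtLnH := by
  intro K K₁ Ω _ _ _ _ _ _ _ _ h hinv n r P N b a hroot
  obtain ⟨C, hC⟩ := h.coef r
  refine ⟨C, fun t z₀ y₀ hirr hb har hP hN => ?_⟩
  obtain ⟨α, hα⟩ : ∃ α : Fin (r + 1) → Ω, α = fun i => algebraMap K₁ Ω (MvPolynomial.aeval t (a i)) :=
    ⟨_, rfl⟩
  have hαr : α (Fin.last r) ≠ 0 := by
    rw [hα]
    exact (map_ne_zero_iff _ (algebraMap K₁ Ω).injective).2 har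
  obtain ⟨A, hA⟩ : ∃ A : Polynomial Ω, A = ∑ i : Fin (r + 1), Polynomial.C (α i) * Polynomial.X ^ (i : ℕ) :=
    ⟨_, rfl⟩
  have hcoef : ∀ i : Fin (r + 1), A.coeff i = α i := by
    intro i
    rw [hA, Polynomial.finsetSum_coeff]
    rw [Finset.sum_eq_single i]
    · simp
    · intro j _ hj
      rw [Polynomial.coeff_C_mul, Polynomial.coeff_X_pow, if_neg, mul_zero]
      intro h
      exact hj (Fin.ext h).symm
    · intro h
      exact (h (Finset.mem_univ _)).elim
  have hdeg : A.natDegree = r := by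
    apply le_antisymm
    · rw [hA]
      refine Polynomial.natDegree_sum_le_of_forall_le _ _ fun i _ => ?_
      exact (Polynomial.natDegree_C_mul_X_pow_le _ _).trans (Nat.lt_succ_iff.1 i.2)
    · refine Polynomial.le_natDegree_of_ne_zero ?_
      have := hcoef (Fin.last r)
      rw [Fin.val_last] at this
      rw [this]
      exact hαr
  have hlead : A.leadingCoeff = α (Fin.last r) := by
    rw [Polynomial.leadingCoeff, hdeg]
    exact hcoef (Fin.last r)
  have hsplit := IsAlgClosed.splits A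
  have hcard : Multiset.card A.roots = r := by
    rw [← hdeg]
    exact hsplit.natDegree_eq_card_roots.symm
  obtain ⟨u, hu⟩ := exists_fun A.roots r hcard
  have hprod : A = Polynomial.C (α (Fin.last r)) * ∏ j, (Polynomial.X - Polynomial.C (u j)) := by
    have h1 := Polynomial.C_leadingCoeff_mul_prod_multiset_X_sub_C (p := A) (by rw [hcard, hdeg])
    rw [hlead, hu, Multiset.map_map] at h1
    exact h1.symm
  have hA0 : A ≠ 0 := by
    intro h0
    rw [h0] at hlead
    exact hαr (by rw [← hlead, Polynomial.leadingCoeff_zero])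
  have hclaim : ∀ j, h.H ![1, u j] = h.H ![1, y₀] := by
    intro j
    have hmem : u j ∈ A.roots := by
      rw [hu]
      exact Multiset.mem_map_of_mem u (Finset.mem_univ_val j)
    have hev : A.eval (u j) = 0 := (Polynomial.mem_roots hA0).1 hmem
    rw [hA, Polynomial.eval_finsetSum] at hev
    obtain ⟨ζ, hζ, hζN⟩ := hroot (fun i => algebraMap K₁ Ω (t i)) (u j) (by
      rw [← hev]
      refine Finset.sum_congr rfl fun i _ => ?_
      rw [aeval_algebraMap, Polynomial.eval_mul, Polynomial.eval_C, Polynomial.eval_pow,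
        Polynomial.eval_X, hα])
    exact conj h hinv P N b t hirr hb ζ z₀ (u j) y₀ hζ hP hζN hN
  have hfin : (fun i => algebraMap K₁ Ω (MvPolynomial.aeval t (a i))) =
      α (Fin.last r) • fun i : Fin (r + 1) =>
        (∏ j, (Polynomial.X - Polynomial.C (u j)) : Polynomial Ω).coeff i := by
    funext i
    have h1 := hcoef i
    rw [hprod, Polynomial.coeff_C_mul] at h1
    rw [Pi.smul_apply, smul_eq_mul, h1, hα]
  rw [hfin, h.smul _ _ hαr]
  refine (hC u).trans ?_
  rw [Finset.sum_congr rfl fun j _ => hclaim j]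
  simp

end Pool.Agent.Lib.MP_16285c_agX
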