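import Pool.Agent.Lib.MP_16285c_agX.T3.SpecL

/-!
# The irreducible polynomial of an element over `K[x]` (LnI)
-/

set_option autoImplicit false

namespace Pool.Agent.Lib.MP_16285c_agX

open Pool.Agent.Lib.MP_16285c_ag Pool.Agent.Lib.MP_16285c_agN

namespace T3LnIM

variable {K E : Type} [Field K] [Field E] [Algebra K E] {n : ℕ} (x : Fin n → E)

/-- The coordinates as elements of `K(x)`. -/
def xk (i : Fin n) : IntermediateField.adjoin K (Set.range x) :=
  ⟨x i, IntermediateField.subset_adjoin _ _ ⟨i, rfl⟩⟩

/-- The evaluation with values in `K(x)`. -/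
noncomputable def jk : Pl n K →ₐ[K] IntermediateField.adjoin K (Set.range x) :=
  MvPolynomial.aeval (xk (K := K) x)

theorem jk_val (G : Pl n K) :
    ((jk x G : IntermediateField.adjoin K (Set.range x)) : E) = MvPolynomial.aeval x G := by
  have h : ((IntermediateField.adjoin K (Set.range x)).val).comp (jk x) = MvPolynomial.aeval x := by
    ext i
    simp [jk, xk]
  exact DFunLike.congr_fun h G

theorem jk_inj (hx : AlgebraicIndependent K x) : Function.Injective (jk (K := K) x) := fun a b h =>
  hx (by rw [← jk_val, ← jk_val, h])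

/-- Degrees over a field generated in two steps. -/
theorem finrank_two (S T : Set E) :
    Module.finrank (IntermediateField.adjoin (IntermediateField.adjoin K S) T) E =
      Module.finrank (IntermediateField.adjoin K (S ∪ T)) E := by
  rw [← IntermediateField.adjoin_adjoin_left K S T]
  rfl

/-- An irreducible element of the kernel. -/
theorem irr_ker {A B : Type} [CommRing A] [IsDomain A] [UniqueFactorizationMonoid A] [Field B]
    (ψ : A →+* B) (p : A) (hp : p ≠ 0) (h : ψ p = 0) : ∃ q : A, Prime q ∧ ψ q = 0 := by
  obtain ⟨f, hf, u, hu⟩ := UniqueFactorizationMonoid.exists_prime_factors p hp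
  have h1 : ψ f.prod = 0 := by
    rw [← hu, map_mul] at h
    rcases mul_eq_zero.1 h with h | h
    · exact h
    · exact absurd h ((u.isUnit.map ψ).ne_zero)
  rw [map_multiset_prod, Multiset.prod_eq_zero_iff, Multiset.mem_map] at h1
  obtain ⟨q, hq, hq0⟩ := h1
  exact ⟨q, hf q hq, hq0⟩

end T3LnIM

open T3LnIM

theorem yLnI : StmtLnI := by
  intro K E _ _ _ n x hx hfin w
  let _ : Algebra (Pl n K) (IntermediateField.adjoin K (Set.range x)) := (jk (K := K) x).toRingHom.toAlgebra
  have _ : FaithfulSMul (Pl n K) (IntermediateField.adjoin K (Set.range x)) :=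
    (faithfulSMul_iff_algebraMap_injective _ _).2 (jk_inj x hx)
  have hfr : IsFractionRing (Pl n K) (IntermediateField.adjoin K (Set.range x)) := by
    refine IsFractionRing.of_field _ _ fun α => ?_
    obtain ⟨r, s, h⟩ := (IntermediateField.mem_adjoin_range_iff K x α.1).1 α.2
    refine ⟨r, s, Subtype.ext ?_⟩
    rw [h, ← jk_val, ← jk_val]
    rfl
  let _ : Algebra (Pl n K) E := ((MvPolynomial.aeval x : Pl n K →ₐ[K] E) : Pl n K →+* E).toAlgebra
  have _ : IsScalarTower (Pl n K) (IntermediateField.adjoin K (Set.range x)) E :=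
    IsScalarTower.of_algebraMap_eq fun G => (jk_val x G).symm
  have hint : IsIntegral (IntermediateField.adjoin K (Set.range x)) w := Algebra.IsIntegral.isIntegral w
  obtain ⟨p, hp0, hp⟩ := (IsFractionRing.isAlgebraic_iff (Pl n K)
    (IntermediateField.adjoin K (Set.range x)) E).2 hint.isAlgebraic
  set φ : Pl n K →+* E := ((MvPolynomial.aeval x : Pl n K →ₐ[K] E) : Pl n K →+* E) with hφ
  have hφi : Function.Injective φ := hx
  obtain ⟨F, hFp, hF0⟩ := irr_ker (Polynomial.eval₂RingHom φ w) p hp0 hp
  have hF1 : Polynomial.eval₂ φ w F = 0 := hF0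
  have hFi : Irreducible F := hFp.irreducible
  have hdeg : F.natDegree ≠ 0 := by
    intro h0
    rw [Polynomial.eq_C_of_natDegree_eq_zero h0, Polynomial.eval₂_C] at hF1
    have h1 : F.coeff 0 = 0 := hφi (by rw [hF1, map_zero])
    apply hFi.ne_zero
    rw [Polynomial.eq_C_of_natDegree_eq_zero h0, h1, map_zero]
  have hprim : F.IsPrimitive := hFi.isPrimitive hdeg
  let _ := UniqueFactorizationMonoid.toGCDMonoid (Pl n K)
  have hirr : Irreducible (F.map (algebraMap (Pl n K) (IntermediateField.adjoin K (Set.range x)))) :=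
    (hprim.irreducible_iff_irreducible_map_fraction_map
      (K := IntermediateField.adjoin K (Set.range x))).1 hFi
  have hev : ∀ Q : Polynomial (Pl n K), Polynomial.aeval w
      (Q.map (algebraMap (Pl n K) (IntermediateField.adjoin K (Set.range x)))) = Polynomial.eval₂ φ w Q := by
    intro Q
    rw [Polynomial.aeval_map_algebraMap]
    rfl
  have hmin := minpoly.eq_of_irreducible hirr (by rw [hev]; exact hF1)
  have hlc : (F.map (algebraMap (Pl n K)
      (IntermediateField.adjoin K (Set.range x)))).leadingCoeff⁻¹ ≠ 0 :=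
    inv_ne_zero (Polynomial.leadingCoeff_ne_zero.2 hirr.ne_zero)
  have hnd : (minpoly (IntermediateField.adjoin K (Set.range x)) w).natDegree = F.natDegree := by
    rw [← hmin, Polynomial.natDegree_mul_C hlc]
    exact Polynomial.natDegree_map_eq_of_injective (jk_inj x hx) F
  refine ⟨F, hFi, Nat.one_le_iff_ne_zero.2 hdeg, hF1, ?_, ?_⟩
  · have h1 := Module.finrank_mul_finrank (IntermediateField.adjoin K (Set.range x))
      (IntermediateField.adjoin (IntermediateField.adjoin K (Set.range x)) {w}) E
    rw [IntermediateField.adjoin.finrank hint, hnd, finrank_two, Set.union_singleton] at h1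
    exact h1
  · intro Q hQ
    apply hprim.dvd_of_fraction_map_dvd_fraction_map (K := IntermediateField.adjoin K (Set.range x))
    have h1 := minpoly.dvd (IntermediateField.adjoin K (Set.range x)) w
      (p := Q.map (algebraMap (Pl n K) (IntermediateField.adjoin K (Set.range x)))) (by rw [hev]; exact hQ)
    rw [← hmin] at h1
    exact dvd_of_mul_right_dvd h1

end Pool.Agent.Lib.MP_16285c_agX
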