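import Pool.Agent.Lib.MP_16285c_agX.T3.SpecL

/-!
# Threefolds with `λ₁ > λ₃`: the lower bound on lines

Proof of `StmtLnL`.
-/

set_option autoImplicit false

namespace Pool.Agent.Lib.MP_16285c_agX

open Pool.Agent.Lib.MP_16285c_ag Pool.Agent.Lib.MP_16285c_agN

namespace T3LnLM

/-- The restriction of a polynomial to the line. -/
noncomputable def res {K : Type} [Field K] {n : ℕ} (c w : Fin n → K) : Pl n K →ₐ[K] Polynomial K :=
  MvPolynomial.aeval
    (fun j => (Polynomial.C (c j) + Polynomial.C (w j) * Polynomial.X : Polynomial K))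

theorem natDegree_res_le {K : Type} [Field K] {n : ℕ} (c w : Fin n → K) (G : Pl n K) (d : ℕ)
    (hd : G.totalDegree ≤ d) : (res c w G).natDegree ≤ d := by
  have h : res c w G = ∑ m ∈ G.support, Polynomial.C (G.coeff m) *
      ∏ j ∈ m.support, (Polynomial.C (c j) + Polynomial.C (w j) * Polynomial.X) ^ m j := by
    rw [res, MvPolynomial.aeval_def, MvPolynomial.eval₂_eq]
    rfl
  rw [h]
  refine Polynomial.natDegree_sum_le_of_forall_le _ _ fun m hm => ?_
  have h1 : (∏ j ∈ m.support,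
      (Polynomial.C (c j) + Polynomial.C (w j) * Polynomial.X : Polynomial K) ^ m j).natDegree ≤
      ∑ j ∈ m.support, m j := by
    refine (Polynomial.natDegree_prod_le _ _).trans (Finset.sum_le_sum fun j _ => ?_)
    refine Polynomial.natDegree_pow_le.trans ?_
    have h2 : (Polynomial.C (c j) + Polynomial.C (w j) * Polynomial.X : Polynomial K).natDegree ≤ 1 := by
      compute_degree
    calc m j * _ ≤ m j * 1 := Nat.mul_le_mul_left _ h2
      _ = m j := mul_one _
  have h3 : ∑ j ∈ m.support, m j ≤ G.totalDegree := MvPolynomial.le_totalDegree hm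
  exact (Polynomial.natDegree_C_mul_le _ _).trans (h1.trans (h3.trans hd))

theorem eval_res {K : Type} [Field K] {n : ℕ} (c w : Fin n → K) (G : Pl n K) (s : K) :
    (res c w G).eval s = MvPolynomial.aeval (lptN c w s) G := by
  have h : (Polynomial.aeval s).comp (res c w) = MvPolynomial.aeval (lptN c w s) := by
    apply MvPolynomial.algHom_ext
    intro i
    rw [AlgHom.comp_apply, res, MvPolynomial.aeval_X, MvPolynomial.aeval_X]
    simp only [map_add, map_mul, Polynomial.aeval_C, Polynomial.aeval_X, lptN]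
    simp only [Algebra.algebraMap_self, RingHom.id_apply]
    ring
  have h2 := DFunLike.congr_fun h G
  rw [AlgHom.comp_apply, Polynomial.coe_aeval_eq_eval] at h2
  exact h2

theorem deg_map_eq {K L : Type} [Field K] [Field L] (f : K →+* L) {n : ℕ} (G : Pl n K) :
    (MvPolynomial.map f G).totalDegree = G.totalDegree := by
  unfold MvPolynomial.totalDegree
  rw [MvPolynomial.support_map_of_injective _ f.injective]

end T3LnLM

open T3LnLM in
/-- (LnL) The lower bound on lines. -/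
theorem yLnL : StmtLnG → StmtXRpB → StmtXLine → StmtLnB → StmtLnL := by
  intro hG hR hL hB K K₁ _ _ _ _ _ n r D a q hn haq hcop hdeg hD c hc
  obtain ⟨M, hM0, hMc, hMd, i₀, hi₀⟩ := hG K n r D a q hn haq hcop hdeg hD
  obtain ⟨F, hF⟩ : ∃ F : Fin (n + 1) → Pl n K, F = fun i => ∑ j, MvPolynomial.C (M i j) * a j :=
    ⟨_, rfl⟩
  have hF0 : F 0 = a q := by
    rw [hF]
    exact hM0
  have hFc : ∀ c : Pl n K, (∀ i, c ∣ F i) → IsUnit c := by
    rw [hF]
    exact hMc
  have hFd : ∀ i, (F i).totalDegree ≤ D := by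
    rw [hF]
    exact hMd
  have hFD : (F i₀).totalDegree = D := by
    rw [hF]
    exact hi₀
  have hF0' : F 0 ≠ 0 := by
    rw [hF0]
    exact haq
  obtain ⟨F₁, hF₁⟩ : ∃ F₁ : Fin (n + 1) → Pl n K₁,
      F₁ = fun i => MvPolynomial.map (algebraMap K K₁) (F i) := ⟨_, rfl⟩
  have h1 : ∀ i, (F₁ i).totalDegree = (F i).totalDegree := by
    intro i
    rw [hF₁]
    exact deg_map_eq _ _
  have h2 : ∀ c : Pl n K₁, (∀ i, c ∣ F₁ i) → IsUnit c := by
    rw [hF₁]
    exact hR K K₁ n F hF0' hFc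
  have h3 : F₁ 0 ≠ 0 := by
    rw [hF₁]
    intro h
    exact hF0' (MvPolynomial.map_injective _ (algebraMap K K₁).injective (h.trans (map_zero _).symm))
  have h4 : MvPolynomial.eval c (F₁ 0) ≠ 0 := by
    rw [hF₁, MvPolynomial.eval_map, ← MvPolynomial.aeval_def, hF0]
    exact hc
  obtain ⟨R, hR0, hRw⟩ := hL K₁ n F₁ D h2 h3 ⟨i₀, (h1 i₀).trans hFD⟩ c ⟨0, h4⟩
  refine ⟨R, hR0, fun w hw Ω _ _ h => ?_⟩
  obtain ⟨hsp, i₁, hi₁⟩ := hRw w hw
  have h5 : ∀ i, (res c w (F₁ i)).natDegree ≤ D := fun i =>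
    natDegree_res_le c w (F₁ i) D ((h1 i).le.trans (hFd i))
  obtain ⟨C₁, hC₁⟩ := hB K₁ Ω h n (fun i => res c w (F₁ i)) D h5 ⟨i₁, le_antisymm (h5 i₁) hi₁⟩ hsp
  obtain ⟨C₂, hC₂⟩ := h.lin (fun (i : Fin (n + 1)) (j : Fin (r + 1)) =>
    algebraMap K₁ Ω (algebraMap K K₁ (M i j)))
  refine ⟨C₁ + C₂, fun s => ?_⟩
  have h6 := hC₁ s
  have h7 := hC₂ (fun j => algebraMap K₁ Ω (MvPolynomial.aeval (lptN c w s) (a j)))
  have h8 : (fun i => algebraMap K₁ Ω ((res c w (F₁ i)).eval s)) =
      fun i => ∑ j, algebraMap K₁ Ω (algebraMap K K₁ (M i j)) *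
        algebraMap K₁ Ω (MvPolynomial.aeval (lptN c w s) (a j)) := by
    funext i
    rw [eval_res, hF₁, hF]
    rw [MvPolynomial.aeval_map_algebraMap, map_sum, map_sum]
    refine Finset.sum_congr rfl fun j _ => ?_
    rw [map_mul, MvPolynomial.aeval_C, map_mul]
  rw [h8] at h6
  linarith

end Pool.Agent.Lib.MP_16285c_agX
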