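import Pool.Agent.Lib.MP_16285c_agX.T3.SpecL
import Pool.Agent.Lib.MP_16285c_agX.Hrn.Nm

/-!
# ZD3X, part L, LnQ: the norm of `b Y - N` modulo `P`
-/

set_option autoImplicit false

namespace Pool.Agent.Lib.MP_16285c_agX

open Pool.Agent.Lib.MP_16285c_ag Pool.Agent.Lib.MP_16285c_agN

namespace T3LnQM

theorem fin_eval {K E : Type} [Field K] [Field E] [Algebra K E] {n : ℕ} (t : Fin n → E) (z : E)
    (A : Pl (n + 1) K) :
    Polynomial.eval₂ ((MvPolynomial.aeval t : Pl n K →ₐ[K] E) : Pl n K →+* E) z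
      (MvPolynomial.finSuccEquiv K n A) = MvPolynomial.aeval (Fin.cons z t : Fin (n + 1) → E) A := by
  induction A using MvPolynomial.induction_on with
  | C a => simp [MvPolynomial.finSuccEquiv_apply]
  | add p q hp hq => rw [map_add, map_add, Polynomial.eval₂_add, hp, hq]
  | mul_X p i hp =>
    rw [map_mul, map_mul, Polynomial.eval₂_mul, hp, MvPolynomial.aeval_X]
    congr 1
    refine Fin.cases ?_ (fun j => ?_) i
    · rw [MvPolynomial.finSuccEquiv_X_zero, Polynomial.eval₂_X, Fin.cons_zero]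
    · rw [MvPolynomial.finSuccEquiv_X_succ, Polynomial.eval₂_C, Fin.cons_succ, RingHom.coe_coe,
        MvPolynomial.aeval_X]

/-- A vector in the left kernel of the multiplication matrix. -/
theorem kernel {S : Type} [CommRing S] [IsDomain S] (p a : Polynomial S) (hp : p.Monic)
    (h0 : (NmM.Mg p.natDegree p a).det = 0) :
    ∃ V : Polynomial S, V ≠ 0 ∧ V.degree < p.degree ∧ p ∣ V * a := by
  have h1 : p ≠ 1 := by
    rintro rfl
    have : IsEmpty (Fin (1 : Polynomial S).natDegree) := by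
      rw [Polynomial.natDegree_one]
      infer_instance
    rw [Matrix.det_isEmpty] at h0
    exact one_ne_zero h0
  obtain ⟨v, hv0, hv⟩ := Matrix.exists_vecMul_eq_zero_iff.2 h0
  set V : Polynomial S := ∑ i : Fin p.natDegree, Polynomial.C (v i) * Polynomial.X ^ (i : ℕ) with hV
  have hcoef : ∀ j : Fin p.natDegree, V.coeff (j : ℕ) = v j := by
    intro j
    rw [hV, Polynomial.finsetSum_coeff]
    rw [Finset.sum_eq_single j]
    · rw [Polynomial.coeff_C_mul_X_pow, if_pos rfl]
    · intro i _ hij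
      rw [Polynomial.coeff_C_mul_X_pow, if_neg]
      intro h
      exact hij (Fin.ext h.symm)
    · intro h
      exact absurd (Finset.mem_univ j) h
  have hV0 : V ≠ 0 := by
    intro h
    apply hv0
    funext j
    rw [← hcoef j, h, Polynomial.coeff_zero, Pi.zero_apply]
  have hVd : V.degree < p.degree := by
    rw [Polynomial.degree_eq_natDegree hp.ne_zero, hV]
    refine lt_of_le_of_lt (Polynomial.degree_sum_le _ _) ?_
    rw [Finset.sup_lt_iff (WithBot.bot_lt_coe _)]
    intro i _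
    refine lt_of_le_of_lt (Polynomial.degree_C_mul_X_pow_le _ _) ?_
    exact_mod_cast i.2
  have hmod : (V * a) %ₘ p = 0 := by
    have e1 : (V * a) %ₘ p = ∑ i : Fin p.natDegree, v i •
        ((Polynomial.X ^ (i : ℕ) * a) %ₘ p) := by
      have e2 : V * a = ∑ i : Fin p.natDegree, v i • (Polynomial.X ^ (i : ℕ) * a) := by
        rw [hV, Finset.sum_mul]
        refine Finset.sum_congr rfl fun i _ => ?_
        rw [Polynomial.smul_eq_C_mul, mul_assoc]
      have e3 := congrArg (Polynomial.modByMonicHom p) e2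
      rw [map_sum] at e3
      simp only [map_smul] at e3
      exact e3
    have e4 : ∀ i : Fin p.natDegree, v i • ((Polynomial.X ^ (i : ℕ) * a) %ₘ p) =
        ∑ j : Fin p.natDegree, Polynomial.C (v i * NmM.Mg p.natDegree p a i j) *
          Polynomial.X ^ (j : ℕ) := by
      intro i
      rw [NmM.row p a hp h1 i, Finset.smul_sum]
      refine Finset.sum_congr rfl fun j _ => ?_
      rw [Polynomial.smul_eq_C_mul, Polynomial.C_mul, mul_assoc]
    rw [e1, Finset.sum_congr rfl fun i _ => e4 i, Finset.sum_comm]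
    refine Finset.sum_eq_zero fun j _ => ?_
    rw [← Finset.sum_mul, ← map_sum]
    have e5 := congrFun hv j
    rw [Matrix.vecMul, dotProduct] at e5
    rw [e5, Pi.zero_apply, map_zero, zero_mul]
  exact ⟨V, hV0, hVd, (Polynomial.modByMonic_eq_zero_iff_dvd hp).1 hmod⟩

theorem root {Ω : Type} [Field Ω] [IsAlgClosed Ω] (p a : Polynomial Ω) (hp : p.Monic)
    (h0 : (NmM.Mg p.natDegree p a).det = 0) : ∃ ζ : Ω, p.eval ζ = 0 ∧ a.eval ζ = 0 := by
  obtain ⟨V, hV0, hVd, hdvd⟩ := kernel p a hp h0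
  by_contra hcon
  push Not at hcon
  have hco : IsCoprime p a := by
    rw [Polynomial.isCoprime_iff_aeval_ne_zero_of_isAlgClosed Ω Ω]
    intro ζ
    rw [Polynomial.coe_aeval_eq_eval]
    by_cases h : p.eval ζ = 0
    · exact Or.inr (hcon ζ h)
    · exact Or.inl h
  exact (Polynomial.Monic.not_dvd_of_degree_lt hp hV0 hVd) (hco.dvd_of_dvd_mul_right hdvd)

section

variable {K : Type} [Field K] {n : ℕ}

/-- `P` as a polynomial in `Z` with coefficients in `K[x][Y]` -/
noncomputable def pS (P : Pl (n + 1) K) : Polynomial (Polynomial (Pl n K)) :=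
  (MvPolynomial.finSuccEquiv K n P).map Polynomial.C

/-- `b Y - N` -/
noncomputable def aS (N : Pl (n + 1) K) (b : Pl n K) : Polynomial (Polynomial (Pl n K)) :=
  Polynomial.C (Polynomial.C b * Polynomial.X) - pS N

theorem eval_pS {E : Type} [Field E] [Algebra K E] (t : Fin n → E) (y z : E) (P : Pl (n + 1) K) :
    Polynomial.eval₂ (Polynomial.eval₂RingHom
      ((MvPolynomial.aeval t : Pl n K →ₐ[K] E) : Pl n K →+* E) y) z (pS P) =
      MvPolynomial.aeval (Fin.cons z t : Fin (n + 1) → E) P := by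
  have h : (Polynomial.eval₂RingHom
      ((MvPolynomial.aeval t : Pl n K →ₐ[K] E) : Pl n K →+* E) y).comp Polynomial.C =
      ((MvPolynomial.aeval t : Pl n K →ₐ[K] E) : Pl n K →+* E) := by
    refine RingHom.ext fun c => ?_
    rw [RingHom.comp_apply, Polynomial.coe_eval₂RingHom, Polynomial.eval₂_C]
  rw [pS, Polynomial.eval₂_map, h, fin_eval]

theorem eval_aS {E : Type} [Field E] [Algebra K E] (t : Fin n → E) (y z : E) (N : Pl (n + 1) K)
    (b : Pl n K) :
    Polynomial.eval₂ (Polynomial.eval₂RingHom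
      ((MvPolynomial.aeval t : Pl n K →ₐ[K] E) : Pl n K →+* E) y) z (aS N b) =
      y * MvPolynomial.aeval t b - MvPolynomial.aeval (Fin.cons z t : Fin (n + 1) → E) N := by
  rw [aS, Polynomial.eval₂_sub, eval_pS, Polynomial.eval₂_C, Polynomial.coe_eval₂RingHom,
    Polynomial.eval₂_mul, Polynomial.eval₂_C, Polynomial.eval₂_X, mul_comm, RingHom.coe_coe]

end

end T3LnQM

open T3LnQM in
theorem yLnQ : StmtLnQ := by
  intro K _ n P N b hP
  have hm : (pS P).Monic := Polynomial.Monic.map _ hP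
  refine ⟨(NmM.Mg (pS P).natDegree (pS P) (aS N b)).det, ?_, ?_⟩
  · intro E _ _ ξ w h1 h2
    obtain ⟨c, d, hcd⟩ := Ideal.mem_span_pair.1 (NmM.mem_span (pS P) (aS N b) hm)
    have h := congrArg (Polynomial.eval₂RingHom (Polynomial.eval₂RingHom
      ((MvPolynomial.aeval (fun i : Fin n => ξ i.succ) : Pl n K →ₐ[K] E) : Pl n K →+* E) w) (ξ 0)) hcd
    have hξ : (Fin.cons (ξ 0) (fun i : Fin n => ξ i.succ) : Fin (n + 1) → E) = ξ :=
      Fin.cons_self_tail ξ
    rw [map_add, map_mul, map_mul, Polynomial.coe_eval₂RingHom, eval_pS, eval_aS,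
      hξ, h1, h2, sub_self, mul_zero, mul_zero, add_zero, Polynomial.eval₂_C,
      Polynomial.coe_eval₂RingHom] at h
    exact h.symm
  · intro Ω _ _ _ t y hQ
    set ψ : Polynomial (Pl n K) →+* Ω := Polynomial.eval₂RingHom
      ((MvPolynomial.aeval t : Pl n K →ₐ[K] Ω) : Pl n K →+* Ω) y with hψ
    have h0 := NmM.map_det ψ (pS P).natDegree (pS P) (aS N b) hm
    rw [hψ, Polynomial.coe_eval₂RingHom, hQ, ← hψ, ← hm.natDegree_map ψ] at h0
    obtain ⟨ζ, hζ1, hζ2⟩ := root ((pS P).map ψ) ((aS N b).map ψ) (hm.map ψ) h0.symm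
    refine ⟨ζ, ?_, ?_⟩
    · rw [Polynomial.eval_map, hψ, eval_pS] at hζ1
      exact hζ1
    · rw [Polynomial.eval_map, hψ, eval_aS] at hζ2
      exact sub_eq_zero.1 hζ2

end Pool.Agent.Lib.MP_16285c_agX
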