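import Pool.Agent.Lib.MP_16285c_agX.T3.SpecL

/-!
# Values of linear combinations, heights on a line

Proof of `StmtLnE` and `StmtLnV`.
-/

set_option autoImplicit false

namespace Pool.Agent.Lib.MP_16285c_agX

open Pool.Agent.Lib.MP_16285c_ag Pool.Agent.Lib.MP_16285c_agN

namespace T3LnVM

/-- The value of a linear combination with a common denominator. -/
theorem lin_val {K F : Type} [Field K] [Field F] [Algebra K F] {n m : ℕ} (z : Fin n → F)
    (v : Fin m → F) (A B : Fin m → Pl n K) (l : Fin m → K) (b : Pl n K)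
    (h : ∀ j, v j * MvPolynomial.aeval z (B j) = MvPolynomial.aeval z (A j)) :
    MvPolynomial.aeval z
        (∑ j, MvPolynomial.C (l j) * A j * (∏ i ∈ Finset.univ.erase j, B i) * b) =
      (∑ j, algebraMap K F (l j) * v j) * MvPolynomial.aeval z b *
        MvPolynomial.aeval z (∏ j, B j) := by
  rw [map_sum, Finset.sum_mul, Finset.sum_mul]
  refine Finset.sum_congr rfl fun j _ => ?_
  rw [← Finset.mul_prod_erase Finset.univ B (Finset.mem_univ j)]
  rw [map_mul, map_mul, map_mul, map_mul, MvPolynomial.aeval_C, ← h j]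
  ring

end T3LnVM

open T3LnVM in
/-- (LnE) Heights on a line. -/
theorem yLnE : StmtLnE := by
  intro K₁ Ω _ _ _ h n c w
  obtain ⟨C, hC⟩ := h.lin (ι := Fin 2) (κ := Fin (n + 1))
    (Fin.cons ![1, 0] fun i => ![algebraMap K₁ Ω (c i), algebraMap K₁ Ω (w i)])
  refine ⟨C, fun s => ?_⟩
  have h1 := hC ![1, algebraMap K₁ Ω s]
  have h2 : (hcN fun i => algebraMap K₁ Ω (lptN c w s i)) = fun j : Fin (n + 1) => ∑ i : Fin 2,
      (Fin.cons ![1, 0] (fun i => ![algebraMap K₁ Ω (c i), algebraMap K₁ Ω (w i)]) :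
        Fin (n + 1) → Fin 2 → Ω) j i * (![1, algebraMap K₁ Ω s] : Fin 2 → Ω) i := by
    funext j
    rw [Fin.sum_univ_two]
    refine Fin.cases ?_ (fun i => ?_) j
    · simp [hcN]
    · simp only [hcN, lptN, Fin.cons_succ, Matrix.cons_val_zero, Matrix.cons_val_one, map_add,
        map_mul, mul_one]
      ring
  rw [h2]
  exact h1

open T3LnVM in
/-- (LnV) Values of linear combinations. -/
theorem yLnV : StmtLnV := by
  constructor
  · intro K E Ω _ _ _ _ _ n m ξ pt hOn g gv hg l b N hb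
    choose A B hB hgB hAB using hg
    have h1 := lin_val ξ g A B l b hgB
    have h2 := lin_val pt gv A B l b fun j => (hAB j).symm
    have h3 := hOn (∑ j, MvPolynomial.C (l j) * A j * (∏ i ∈ Finset.univ.erase j, B i) * b -
      N * ∏ j, B j) (by rw [map_sub, h1, map_mul, hb, sub_self])
    rw [map_sub, h2, map_mul, sub_eq_zero] at h3
    refine mul_right_cancel₀ ?_ h3
    rw [map_prod]
    exact Finset.prod_ne_zero_iff.2 fun j _ => hB j
  · intro K Ω _ _ _ h m l
    obtain ⟨C, hC⟩ := h.lin (ι := Fin (m + 1)) (κ := Fin 2)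
      ![Fin.cons 1 0, Fin.cons 0 fun j => algebraMap K Ω (l j)]
    refine ⟨C, fun gv => ?_⟩
    have h1 := hC (hcN gv)
    have h2 : (![1, ∑ j, algebraMap K Ω (l j) * gv j] : Fin 2 → Ω) = fun k : Fin 2 =>
        ∑ i : Fin (m + 1), (![Fin.cons 1 0, Fin.cons 0 fun j => algebraMap K Ω (l j)] :
          Fin 2 → Fin (m + 1) → Ω) k i * hcN gv i := by
      funext k
      rw [Fin.sum_univ_succ]
      fin_cases k
      · simp [hcN]
      · simp [hcN]
    rw [h2]
    exact h1

end Pool.Agent.Lib.MP_16285c_agX
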