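import Pool.Agent.Lib.MP_16285c_agX.T3.LowX
import Pool.Agent.Lib.MP_16285c_agX.T3.LnI
import Pool.Agent.Lib.MP_16285c_agX.T3.LnQ
import Pool.Agent.Lib.MP_16285c_agX.T3.LnH
import Pool.Agent.Lib.MP_16285c_agX.T3.LnG
import Pool.Agent.Lib.MP_16285c_agX.T3.LnL
import Pool.Agent.Lib.MP_16285c_agX.T3.LnV
import Pool.Agent.Lib.MP_16285c_agX.T3.LnD
import Pool.Agent.Lib.MP_16285c_agX.Hrn.Fun
import Pool.Agent.Lib.MP_16285c_agX.Hrn.Nm
import Pool.Agent.Lib.MP_16285c_agN.T3.All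

/-!
# Threefolds with `λ₁ > λ₃`: the lower bound for heights on lines, with all its parts
-/

set_option autoImplicit false

namespace Pool.Agent.Lib.MP_16285c_agX

open Pool.Agent.Lib.MP_16285c_agN

/-- The lower bound; the remaining hypotheses are proved in other parts. -/
theorem yLnAll (h1 : StmtDg1) (h2 : StmtCfA) (h3 : StmtLnB) : StmtLowX :=
  yLowX h1 h2 tFun tNm yLnI yLnQ yLnH (yLnL yLnG tXRpB aXLine h3) yLnE yLnV
    (yLnD tFun yLnI)

end Pool.Agent.Lib.MP_16285c_agX
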