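import Pool.Agent.Lib.MP_16285c_agX.T3.SpecD

/-!
# Threefolds with `λ₁ > λ₃`: orbits on curves (statements, ZD3X part C)

A curve is given by its function field `L` over `K` with the generic point `η : Fin n → L` (`L = K(η)`, `Algebra.trdeg K L = 1`) and a homomorphism `ρb : L →ₐ[K] L`. The points have
coordinates in a field `Ω` with a height `h : HtF Ω` (`HDefs.lean`). `OnX`, `VlX`, `FlowX`, `hx`: `T3/Defs.lean`; `StmtVlA`, `StmtFlV`: `T3/SpecD.lean`.
Models: `XCv`, `XPts`, `XGm`, `XUpp`, `XEnd`, `XPrE` of `Lib/MP_16285c_agN/T3` and `Lib/MP_16285c_agZ/UPP`.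

Every lemma is a `Prop` with its complete proof in the docstring; used statements are hypotheses: file `T3/Y.lean`, `theorem tY : StmtY` or `theorem tY : StmtZ → StmtY`, namespace `Pool.Agent.Lib.MP_16285c_agX`,
auxiliary lemmas in the namespace `Pool.Agent.Lib.MP_16285c_agX.T3YM`.
-/

set_option autoImplicit false

namespace Pool.Agent.Lib.MP_16285c_agX

open Pool.Agent.Lib.MP_16285c_ag Pool.Agent.Lib.MP_16285c_agN
open Pool.Agent.Lib.MP_16285c_agS (toF StmtUni)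

/-- The value of a polynomial in two variables at `(a, b)` (`a` for the inner variable). -/
noncomputable def bv {K L : Type} [Field K] [Field L] [Algebra K L] (a b : L) (Φ : Polynomial (Polynomial K)) : L :=
  Polynomial.eval₂ (Polynomial.eval₂RingHom (algebraMap K L) a) b Φ

/-- (CvX) Relations on a curve. PROOF. Edit `Lib/MP_16285c_agN/T3/XCv.lean` (`alg_over`, `finDim`, `exists_transcendental` with `η i` in place of `rs 𝔭 L (X i)`; `adjoin_top` is the hypothesis; for `finDim` over `K(w)`: `L` is generated over `K(w)` by the `η i`, e.g. `IntermediateField.adjoin` over a larger field is `⊤` as in `adjoin_top`, or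
`IntermediateField.restrictScalars`). `bv a b Φ` is `aevalAeval a b Φ` (`Pool.Agent.Lib.MP_16285c_agZ.aa_eq`). -/
def StmtCvX : Prop :=
  ∀ (K L : Type) [Field K] [Field L] [Algebra K L] (n : ℕ) (η : Fin n → L) (ρb : L →ₐ[K] L),
    IntermediateField.adjoin K (Set.range η) = ⊤ → Algebra.trdeg K L = 1 →
    1 ≤ Module.finrank ρb.fieldRange L ∧ ∃ (i : Fin n) (c : ℕ), Transcendental K (η i) ∧
      (∀ N : ℕ, ∃ Φ : Polynomial (Polynomial K), Φ ≠ 0 ∧
        (∀ j, (Φ.coeff j).natDegree ≤ c * Module.finrank ρb.fieldRange L ^ N) ∧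
        bv (η i) ((ρb ^ N) (η i)) Φ = 0) ∧
      ∀ j : Fin n, ∃ Φ : Polynomial (Polynomial K), Φ ≠ 0 ∧ bv (η i) (η j) Φ = 0

/-- (PtC) Finitely many zeros on a curve. PROOF. Let `q = aeval η Q ≠ 0`. CLAIM: for every `i` there are `g ∈ K[T]`, `g ≠ 0`, and `A : Pl n K` with `aeval (η i) g = aeval η (A * Q)`. If `η i` is algebraic: `g` = its minimal polynomial, `A = 0`. Otherwise `L` is algebraic over `K(η i)` (`alg_over` in `Lib/MP_16285c_agN/T3/XCv.lean`), and `biv_rel` (`Lib/MP_16285c_agZ/UPP/Dg.lean`) gives `Ψ ≠ 0` in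
`K[T][Y]` with `bv (η i) q Ψ = 0` (`Bivariate.swap` if necessary). Write `Ψ = Y ^ m * Ψ'` with `Ψ'.coeff 0 ≠ 0` (`Polynomial.exists_eq_pow_rootMultiplicity_mul_and_not_dvd` or strong induction on `natDegree` with `Polynomial.divX`); `q ≠ 0`, so `bv (η i) q Ψ' = 0`; `Ψ' = C g + Y * Ψ''` (`Polynomial.divX_mul_X_add`), so `g(η i) = - q * bv (η i) q Ψ''`, and `bv (η i) q Ψ'' = aeval η A'` for the polynomial
`A' = eval₂ (aeval (X i)) Q Ψ''`; `A = -A'`. Now let `pt` be in the set: the polynomial `aeval (X i) g - A * Q` vanishes at `η`, so at `pt` (`OnX`): `aeval (pt i) g = 0`. So `pt i` is in the finite set of the roots of `g_i` in `Ω` (`Polynomial.rootSet`), and the set is contained in `Set.pi Set.univ (fun i => roots)` (`Set.Finite.pi`). -/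
def StmtPtC : Prop :=
  ∀ (K L Ω : Type) [Field K] [Field L] [Field Ω] [Algebra K L] [Algebra K Ω] (n : ℕ) (η : Fin n → L),
    Algebra.trdeg K L = 1 → ∀ Q : Pl n K, MvPolynomial.aeval η Q ≠ 0 →
    {pt : Fin n → Ω | OnX K η pt ∧ MvPolynomial.aeval pt Q = 0}.Finite

/-- (BvV) Relations between functions give relations between values. PROOF (uses `StmtVlA`). By induction on `Φ` (`Polynomial.induction_on'` twice): `VlX K η pt (bv a b Φ) (bv u v Φ)` (constants: `StmtVlA` (2) for `G = C c`; sums and products: (3), (4)). If `bv a b Φ = 0` then the value of `0 = aeval η 0` is `0`, so `bv u v Φ = 0` by uniqueness (1). -/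
def StmtBvV : Prop :=
  ∀ (K L Ω : Type) [Field K] [Field L] [Field Ω] [Algebra K L] [Algebra K Ω] (n : ℕ) (η : Fin n → L)
    (pt : Fin n → Ω), OnX K η pt → ∀ (a b : L) (u v : Ω), VlX K η pt a u → VlX K η pt b v →
    ∀ Φ : Polynomial (Polynomial K), bv a b Φ = 0 → bv u v Φ = 0

/-- (RtX) Heights. PROOF. (1) Induction on `a`: for `a = 0` the vector is `(1)`, and `2 * H (1) = H ((1) ⊗ (1)) ≤ H (1)` by `tens` and `comp` (the tensor product is `(1) ∘ e`), so `H (1) ≤ 0`. Step: `(u ^ i)_(i ≤ a + 1)` is a subtuple of `(u ^ i)_(i ≤ a) ⊗ ![1, u]`: `comp`, `tens` (both vectors are not `0`).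
(2) `d = natDegree Φ`. `root` for `d`: `C₁`. `c i = aeval u (Φ.coeff i) = ∑ l ≤ a, algebraMap (coeff l) * u ^ l`: `lin` for the matrix of the coefficients: `H c ≤ H (u ^ l)_l + C₂`. `c (last) = aeval u Φ.leadingCoeff ≠ 0`, `∑ c i * v ^ i = bv u v Φ = 0`. `C = |C₁| + |C₂|`. (3) Induction on `n`: `hcN x` for `x = Fin.cons x₀ x'` is a subtuple of `![1, x₀] ⊗ hcN x'`; for `n = 0` the vector is `(1)`, height `0`. -/
def StmtRtX : Prop :=
  (∀ (Ω : Type) [Field Ω] (h : HtF Ω) (a : ℕ) (u : Ω),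
    h.H (fun i : Fin (a + 1) => u ^ (i : ℕ)) ≤ a * h.H ![1, u]) ∧
  (∀ (K Ω : Type) [Field K] [Field Ω] [Algebra K Ω] (h : HtF Ω) (a : ℕ) (Φ : Polynomial (Polynomial K)),
    (∀ j, (Φ.coeff j).natDegree ≤ a) → ∃ C : ℝ, 0 ≤ C ∧ ∀ u v : Ω, Polynomial.aeval u Φ.leadingCoeff ≠ 0 →
      bv u v Φ = 0 → h.H ![1, v] ≤ a * h.H ![1, u] + C) ∧
  ∀ (Ω : Type) [Field Ω] (h : HtF Ω) (n : ℕ) (x : Fin n → Ω), h.H (hcN x) ≤ ∑ j, h.H ![1, x j]

/-- (UppX) Growth of heights on a curve. PROOF (uses `StmtCvX`, `StmtPtC`, `StmtBvV`, `StmtRtX`, `StmtFlV`). Edit `Lib/MP_16285c_agN/T3/XUpp.lean`: `late`: every `Q` with `aeval η Q ≠ 0` does not vanish at `z t` for large `t` (`StmtPtC`, `z` injective); applied to `Q = aeval (X i) q` for `q ∈ K[T]`, `q ≠ 0`, `η i` transcendental. The relations `bv (z t i) (z (t + N) i) Φ = 0` hold for all `t` (`StmtBvV`, `StmtFlV` for `VlX K η (z t) ((ρb ^ N) (η i)) (z (t + N) i)`).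
`StmtRtX` (2) in place of `root_sharp`, (3) in place of `vecP`; `grow_le` of `Lib/MP_16285c_agZ/UPP/Fin.lean` for `t ↦ h.H ![1, z t i]`. -/
def StmtUppX : Prop :=
  ∀ (K Ω L : Type) [Field K] [Field Ω] [Field L] [Algebra K Ω] [Algebra K L] (h : HtF Ω) (n : ℕ)
    (η : Fin n → L) (ρb : L →ₐ[K] L), IntermediateField.adjoin K (Set.range η) = ⊤ → Algebra.trdeg K L = 1 →
    ∀ z : ℕ → Fin n → Ω, FlowX K η ρb z → Function.Injective z → ∀ ε : ℝ, 0 < ε →
    ∃ C : ℝ, ∀ t, h.H (hcN (z t)) ≤ C * ((Module.finrank ρb.fieldRange L : ℝ) + ε) ^ t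

/-- (EndX) The curve case is impossible. PROOF (uses `StmtUppX`, `StmtXRl2`). Edit `Lib/MP_16285c_agN/T3/XEnd.lean` (`bdd`, `grow`; the hypothesis replaces `periodic`): `t ↦ z (M t)` is injective, otherwise `z` takes finitely many values and `hx h (z t)` is bounded, but it grows geometrically. `hx h pt ≤ h.H (hcN pt)` (`comp`: `hcN (pt ∘ succ) = hcN pt ∘ e`). `StmtUppX` for `t ↦ z (M t)` and `StmtXRl2` for `h := fun t => hx h (z t)`,
`δ = finrank ρb.fieldRange L`. -/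
def StmtEndX : Prop :=
  ∀ (K Ω L : Type) [Field K] [Field Ω] [Field L] [Algebra K Ω] [Algebra K L] (h : HtF Ω) (n : ℕ)
    (η : Fin (n + 1) → L) (ρb : L →ₐ[K] L), IntermediateField.adjoin K (Set.range η) = ⊤ →
    Algebra.trdeg K L = 1 → ∀ (T m M : ℕ) (b : ℝ), 1 ≤ T → 1 ≤ m → 1 ≤ M → 2 ≤ b → (T : ℝ) ^ m < b / 2 →
    Module.finrank ρb.fieldRange L ≤ T ^ M → ∀ z : ℕ → Fin (n + 1) → Ω,
    (∀ s t, z s = z t → z (s + 1) = z (t + 1)) → FlowX K η ρb (fun t => z (M * t)) → 0 < hx h (z m) →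
    (∀ j, 1 ≤ j → b / 2 * hx h (z (m * j)) ≤ hx h (z (m * (j + 1)))) → False

/-- (PrEX) The degree on subvarieties. PROOF (uses `StmtRsE`, `StmtRsR` of `Gro/Spec.lean`, `StmtG1`). Edit `Lib/MP_16285c_agN/T3/XPrE.lean`, with `RsE (span {P}) 𝔭 E L` in place of `Rsd` and `StmtRsR` (`m = 1`) in place of `Rst`: `E` is finite over `ρ.fieldRange` (`StmtG1`; see `Gro/DegrPX.lean` or `Top/CoreX.lean` for its use), basis `b`, `1 = ∑ ρ (a 1 t) b t`, `x_i b_s = ∑ ρ (a (i, s) t) b t`, `x_i = toF _ E (X i)`.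
`e` = the product of the denominators of the `b s`, `a 1 t`, `a (i, s) t` (elements of `E` are quotients `toF A / toF B`, `P ∤ B`). If `e ∉ 𝔭` they have residues; the `ρb.fieldRange`-span of the residues of the `b s` contains `1` and is stable under the `toF 𝔭 L (X i)`, so it is `L` (`T3XPrEM.span_top`, landed, general). -/
def StmtPrEX : Prop :=
  ∀ (K : Type) [Field K] [CharZero K] (n : ℕ) (P : Pl (n + 1) K) [(Ideal.span {P}).IsPrime]
    (σ : RF (n + 1) K →ₐ[K] RF (n + 1) K)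
    (E : Type) [Field E] [Algebra (CR (Ideal.span {P})) E] [IsFractionRing (CR (Ideal.span {P})) E]
    [Algebra K E] [IsScalarTower K (CR (Ideal.span {P})) E] (ρ : E →ₐ[K] E), Rst σ (Ideal.span {P}) E ρ →
    ∃ e : Pl (n + 1) K, ¬ P ∣ e ∧ ∀ (𝔭 : Ideal (Pl (n + 1) K)) [𝔭.IsPrime], P ∈ 𝔭 → e ∉ 𝔭 →
      ∀ (L : Type) [Field L] [Algebra (CR 𝔭) L] [IsFractionRing (CR 𝔭) L] [Algebra K L]
        [IsScalarTower K (CR 𝔭) L] (ρb : L →ₐ[K] L), Rst σ 𝔭 L ρb →
        Module.finrank ρb.fieldRange L ≤ Module.finrank ρ.fieldRange E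

/-- (FlC) The orbit on the curve. PROOF (uses `StmtUni`). `OnX`: `aeval (fun i => toF 𝔭 L (X i)) G = toF 𝔭 L G = 0` means `G ∈ 𝔭`. Value: `StmtUni` for `M` and `X i`: `E', N'` with `fr N' = fr E' * (σ ^ M) (fr (X i))`, `E'(y (M t)) ≠ 0`, `N'(y (M t)) = E'(y (M t)) * y (M t + M) i`, `M t + M = M (t + 1)`. So `E' ∉ 𝔭`, `Rsd 𝔭 L ((σ ^ M) (fr (X i))) (toF N' / toF E')`; `Rst` for `LowM.res_fr (X i)` gives
`Rsd 𝔭 L ((σ ^ M) (fr (X i))) (ρb (toF (X i)))`; `LowM.uniq`: `ρb (toF (X i)) * toF E' = toF N'`. -/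
def StmtFlC : Prop :=
  ∀ (K Ω : Type) [Field K] [Field Ω] [Algebra K Ω] (n : ℕ) (f : RM K n) (σ : RF n K →ₐ[K] RF n K) (M : ℕ),
    Of f σ → ∀ (𝔭 : Ideal (Pl n K)) [𝔭.IsPrime] (L : Type) [Field L] [Algebra (CR 𝔭) L]
    [IsFractionRing (CR 𝔭) L] [Algebra K L] [IsScalarTower K (CR 𝔭) L] (ρb : L →ₐ[K] L), Rst (σ ^ M) 𝔭 L ρb →
    ∀ y : ℕ → Fin n → Ω, (f.map (algebraMap K Ω)).Orb y →
      (∀ t, ∀ G ∈ 𝔭, MvPolynomial.aeval (y (M * t)) G = 0) →
      FlowX K (fun i => toF 𝔭 L (MvPolynomial.X i)) ρb (fun t => y (M * t))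

/-- (CuG) The generic point of a curve. PROOF. `η i = toF 𝔭 L (X i)` generates `L`: every element is `toF A / toF B` and `toF 𝔭 L G = aeval η G` is in the field generated by the `η i`. `trdeg`: `T3XCvM.trdeg_one` in `Lib/MP_16285c_agN/T3/XCv.lean` (landed). -/
def StmtCuG : Prop :=
  ∀ (K : Type) [Field K] (n : ℕ) (𝔭 : Ideal (Pl n K)) [𝔭.IsPrime] (L : Type) [Field L] [Algebra (CR 𝔭) L]
    [IsFractionRing (CR 𝔭) L] [Algebra K L] [IsScalarTower K (CR 𝔭) L],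
    IntermediateField.adjoin K (Set.range fun i => toF 𝔭 L (MvPolynomial.X i)) = ⊤ ∧
      (rk 𝔭 = 1 → Algebra.trdeg K L = 1)

end Pool.Agent.Lib.MP_16285c_agX
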