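import Pool.Agent.Lib.MP_16285c_agX.T3.SpecL
import Pool.Agent.Lib.MP_16285c_agX.T3.SpecC
import Pool.Agent.Lib.MP_16285c_agN.T3.XBin

/-!
# Lower bound for the heights of the values of polynomials in one variable (ZD3X, LnB)
-/

set_option autoImplicit false

namespace Pool.Agent.Lib.MP_16285c_agX

open Pool.Agent.Lib.MP_16285c_ag Pool.Agent.Lib.MP_16285c_agN

open Polynomial in
theorem yLnB : StmtRtX → StmtLnB := by
  classical
  intro hRt K₁ Ω _ _ _ h r g d _ hd hspan
  rcases Nat.eq_zero_or_pos d with rfl | hd0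
  · refine ⟨0, fun y => ?_⟩
    rw [Nat.cast_zero, zero_mul, add_zero]
    exact h.nonneg _
  obtain ⟨M, A, B, hA, hB, hA1, hB1⟩ := T3XBinM.comb g d hd0 hd hspan
  let c : Fin 2 → Fin (M + 1) × Fin (r + 1) → Ω := fun e i =>
    if e = 0 then algebraMap K₁ Ω ((B i.2).coeff i.1) else algebraMap K₁ Ω ((A i.2).coeff i.1)
  obtain ⟨C, hC⟩ := h.lin c
  refine ⟨C, fun s => ?_⟩
  obtain ⟨y, hy⟩ : ∃ y : Ω, y = algebraMap K₁ Ω s := ⟨_, rfl⟩
  rw [← hy]
  have hev : ∀ P : Polynomial K₁, P.natDegree < M + 1 →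
      algebraMap K₁ Ω (P.eval s) = ∑ i : Fin (M + 1), algebraMap K₁ Ω (P.coeff i) * y ^ (i : ℕ) := by
    intro P hP
    rw [eval_eq_sum_range' hP, ← Fin.sum_univ_eq_sum_range (fun i => P.coeff i * s ^ i), map_sum]
    refine Finset.sum_congr rfl fun i _ => ?_
    rw [map_mul, map_pow, hy]
  have hA2 : ∑ i, algebraMap K₁ Ω ((A i).eval s) * algebraMap K₁ Ω ((g i).eval s) = y ^ (M + d) := by
    have h2 := congrArg (fun P : Polynomial K₁ => algebraMap K₁ Ω (P.eval s)) hA1
    simp only [eval_finsetSum, eval_mul, eval_pow, eval_X, map_sum, map_mul, map_pow] at h2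
    rw [h2, hy]
  have hB2 : ∑ i, algebraMap K₁ Ω ((B i).eval s) * algebraMap K₁ Ω ((g i).eval s) = 1 := by
    have h2 := congrArg (fun P : Polynomial K₁ => algebraMap K₁ Ω (P.eval s)) hB1
    simp only [eval_finsetSum, eval_mul, eval_one, map_sum, map_mul, map_one] at h2
    exact h2
  have hvec : (fun e : Fin 2 => (![1, y] : Fin 2 → Ω) e ^ (M + d)) =
      fun e => ∑ i : Fin (M + 1) × Fin (r + 1),
        c e i * (y ^ (i.1 : ℕ) * algebraMap K₁ Ω ((g i.2).eval s)) := by
    funext e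
    rw [Fintype.sum_prod_type, Finset.sum_comm]
    fin_cases e
    · simp only [c, Fin.zero_eta, Fin.isValue, Matrix.cons_val_zero, ↓reduceIte, one_pow]
      rw [← hB2]
      refine Finset.sum_congr rfl fun i _ => ?_
      rw [hev _ (hB i), Finset.sum_mul]
      exact Finset.sum_congr rfl fun j _ => by ring
    · simp only [c, Fin.mk_one, Fin.isValue, Matrix.cons_val_one, one_ne_zero, ↓reduceIte,
        Matrix.cons_val_zero]
      rw [← hA2]
      refine Finset.sum_congr rfl fun i _ => ?_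
      rw [hev _ (hA i), Finset.sum_mul]
      exact Finset.sum_congr rfl fun j _ => by ring
  have h4 := hC (fun i : Fin (M + 1) × Fin (r + 1) =>
    y ^ (i.1 : ℕ) * algebraMap K₁ Ω ((g i.2).eval s))
  rw [← hvec, h.pow] at h4
  have hne1 : (fun i : Fin (M + 1) => y ^ (i : ℕ)) ≠ 0 := by
    intro h0
    have := congrFun h0 0
    simp at this
  have hne2 : (fun i => algebraMap K₁ Ω ((g i).eval s)) ≠ 0 := by
    intro h0
    rw [Finset.sum_eq_zero] at hB2
    · exact zero_ne_one hB2
    · intro i _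
      have := congrFun h0 i
      simp only [Pi.zero_apply] at this
      rw [this, mul_zero]
  have h7 := h.tens (fun i : Fin (M + 1) => y ^ (i : ℕ)) (fun i => algebraMap K₁ Ω ((g i).eval s))
    hne1 hne2
  rw [h7] at h4
  have h8 := hRt.1 Ω h M y
  push_cast at h4
  linarith

end Pool.Agent.Lib.MP_16285c_agX
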