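import Pool.Agent.Lib.MP_16285c_agX.T3.SpecA
import Pool.Agent.Lib.MP_16285c_agX.Gro.Spec

/-!
# Threefolds with `λ₁ > λ₃`: recursion, rates, fast orbits, core, comparison of degrees, final assembly (statements, ZD3X part D)

Definitions: `T3/Defs.lean`, `T3/HDefs.lean`, `Top/Spec.lean`, `Top/Defs.lean`, `G/Spec.lean`, `Gro/Spec.lean`. The statements `StmtHtX` (height inequality), `StmtLowX` (lower bound on lines), `StmtUppX`, `StmtEndX`, `StmtPrEX` are in the files `SpecH.lean`, `SpecL.lean`, `SpecC.lean` of this directory (other architects); the statements here which use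
them have them as explicit hypotheses in this file (`HtXP`, `LowXP`).
Every lemma is a `Prop` with its complete proof in the docstring; used statements are hypotheses: file `T3/Y.lean`, `theorem yY : StmtY` or `theorem yY : StmtZ → StmtY`, namespace `Pool.Agent.Lib.MP_16285c_agX`, auxiliary lemmas in the namespace `Pool.Agent.Lib.MP_16285c_agX.T3YM`.
-/

set_option autoImplicit false

namespace Pool.Agent.Lib.MP_16285c_agX

open Pool.Agent.Lib.MP_16285c_ag Pool.Agent.Lib.MP_16285c_agN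
open Pool.Agent.Lib.MP_16285c_agS (toF vanK StmtInvD StmtNoPowE StmtPresK StmtRkK StmtIrrK StmtPrimS StmtLowS StmtConjS StmtDescS StmtDom StmtUni)
open Pool.Agent.Lib.MP_16285c_agS.G (FF cls ValAt)

/-! ## Values -/

/-- (VlA) Values. PROOF. `VlX K ξ pt h v`: `h = A(ξ) / B(ξ)` with `B(pt) ≠ 0` (so `B(ξ) ≠ 0` by `OnX`), `v = A(pt) / B(pt)`. (1) `h A'/B'`: `A(ξ) B'(ξ) = A'(ξ) B(ξ)`, so `A B' - A' B` vanishes at `ξ`, so at `pt` (`OnX`). (2) `B = 1`. (3), (4) products of the denominators. (5) `1 / h = B(ξ) / A(ξ)`, `A(pt) = v B(pt) ≠ 0`. (6) induction on `G` (`MvPolynomial.induction_on`) with (2), (3), (4). -/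
def StmtVlA : Prop :=
  ∀ (K E Ω : Type) [Field K] [Field E] [Field Ω] [Algebra K E] [Algebra K Ω] (n : ℕ) (ξ : Fin n → E)
    (pt : Fin n → Ω), OnX K ξ pt →
    (∀ (h : E) (v v' : Ω), VlX K ξ pt h v → VlX K ξ pt h v' → v = v') ∧
    (∀ G : Pl n K, VlX K ξ pt (MvPolynomial.aeval ξ G) (MvPolynomial.aeval pt G)) ∧
    (∀ (h h' : E) (v v' : Ω), VlX K ξ pt h v → VlX K ξ pt h' v' → VlX K ξ pt (h + h') (v + v')) ∧
    (∀ (h h' : E) (v v' : Ω), VlX K ξ pt h v → VlX K ξ pt h' v' → VlX K ξ pt (h * h') (v * v')) ∧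
    (∀ (h : E) (v : Ω), VlX K ξ pt h v → v ≠ 0 → VlX K ξ pt h⁻¹ v⁻¹) ∧
    ∀ (s : ℕ) (g : Fin s → E) (gv : Fin s → Ω), (∀ i, VlX K ξ pt (g i) (gv i)) → ∀ G : Pl s K,
      VlX K ξ pt (MvPolynomial.aeval g G) (MvPolynomial.aeval gv G)

/-- (FlV) Values along orbits. PROOF (uses `StmtVlA`). Induction on `m`; `m = 0`: `StmtVlA` (2) for `G = X i`. Step: by `FlowX` at `t + m`: `ρ (ξ i) * B(ξ) = A(ξ)`, `B(z (t+m)) ≠ 0`, `A(z (t+m)) = z (t+m+1) i * B(z (t+m))`. Apply `ρ ^ m`: `(ρ ^ (m+1)) (ξ i) * B(ρ ^ m ξ) = A(ρ ^ m ξ)`. By the induction hypothesis and `StmtVlA` (6) `B(ρ ^ m ξ)` has at `z t` the value `B(z (t+m)) ≠ 0` and `A(ρ ^ m ξ)` the value `A(z (t+m))`;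
`StmtVlA` (5), (4). -/
def StmtFlV : Prop :=
  ∀ (K E Ω : Type) [Field K] [Field E] [Field Ω] [Algebra K E] [Algebra K Ω] (n : ℕ) (ξ : Fin n → E)
    (ρ : E →ₐ[K] E) (z : ℕ → Fin n → Ω), FlowX K ξ ρ z → ∀ (m t : ℕ) (i : Fin n),
      VlX K ξ (z t) ((ρ ^ m) (ξ i)) (z (t + m) i)

/-- (FlF) Orbits of `f` are orbits of `ρ`. PROOF. `OnX`: `aeval ξ G = 0` means `toF _ E G = 0`, so `P ∣ G`, so `G(z t) = 0`. `ρ (ξ i)`: `Rst` for `Rsd (fr (X i)) (ξ i)` gives `Rsd (σ (fr (X i))) (ρ (ξ i))`, i.e. `σ (fr (X i)) * fr D = fr N'`, `ρ (ξ i) * toF D = toF N'`, `¬ P ∣ D`; by `Of`: `fr (num i) * fr D = fr N' * fr (den i)`, so `num i * D = N' * den i` and `ρ (ξ i) * toF (den i) * toF D = toF N' * toF (den i) = toF (num i) * toF D`; cancel `toF D ≠ 0`: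
`ρ (ξ i) * toF (den i) = toF (num i)`. `Orb`: `aeval (z t) (den i) ≠ 0` and `z (t+1) i * aeval (z t) (den i) = aeval (z t) (num i)`. (`toF _ E G = aeval ξ G` for `ξ i = toF _ E (X i)`.) -/
def StmtFlF : Prop :=
  ∀ (K : Type) [Field K] (n : ℕ) (P : Pl n K) [(Ideal.span {P}).IsPrime] (f : RM K n)
    (σ : RF n K →ₐ[K] RF n K), Of f σ →
    ∀ (E : Type) [Field E] [Algebra (CR (Ideal.span {P})) E] [IsFractionRing (CR (Ideal.span {P})) E]
      [Algebra K E] [IsScalarTower K (CR (Ideal.span {P})) E] (ρ : E →ₐ[K] E),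
      Rst σ (Ideal.span {P}) E ρ → ∀ (Ω : Type) [Field Ω] [Algebra K Ω] (z : ℕ → Fin n → Ω),
      (f.map (algebraMap K Ω)).Orb z → (∀ t, MvPolynomial.aeval (z t) P = 0) →
      FlowX K (fun i => toF (Ideal.span {P}) E (MvPolynomial.X i)) ρ z

/-- (GenS) The generic point. PROOF. `MonZ P`, `Irreducible P`. `GenN.ker`: `aeval ξ G = 0 ↔ P ∣ G`, `GenN.top`: `K(ξ) = ⊤`. Independence: a polynomial in the `X i.succ` divisible by `P` is `0` (degree in `X 0`). `ξ 0` is a root of the monic polynomial `finSuccEquiv K n P` with coefficients at `ξ ∘ succ` (`MvPolynomial.eval_eq_eval_mv_eval'` or its `eval₂` version). (2) `toF _ E` has the kernel `(P)`; every element of `E` is a quotient. (3) the degree of the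
minimal polynomial of `ξ 0` over `K(x)` is `natDegree (finSuccEquiv K n P)` (irreducible over the field of fractions by Gauss). -/
def StmtGenS : Prop :=
  (∀ (K E : Type) [Field K] [Field E] [Algebra K E] (n : ℕ) (P : Pl (n + 1) K) (ξ : Fin (n + 1) → E),
    Irreducible P → MonZ P → GenN P ξ → Stp K ξ) ∧
  (∀ (K : Type) [Field K] (n : ℕ) (P : Pl (n + 1) K) [(Ideal.span {P}).IsPrime] (E : Type) [Field E]
    [Algebra (CR (Ideal.span {P})) E] [IsFractionRing (CR (Ideal.span {P})) E] [Algebra K E]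
    [IsScalarTower K (CR (Ideal.span {P})) E],
    GenN P (fun i => toF (Ideal.span {P}) E (MvPolynomial.X i) : Fin (n + 1) → E)) ∧
  ∀ (K E : Type) [Field K] [Field E] [Algebra K E] (n : ℕ) (P : Pl (n + 1) K) (ξ : Fin (n + 1) → E),
    Irreducible P → MonZ P → GenN P ξ →
    Module.finrank (IntermediateField.adjoin K (Set.range fun i : Fin n => ξ i.succ)) E =
      (MvPolynomial.finSuccEquiv K n P).natDegree

/-- (CzX) The height of a point is bounded by the height of `x`. PROOF. `F` monic over `K[x]` with `F(ξ 0) = 0` (`Stp.int`), `r = natDegree F`, `D` = a bound for the total degrees of the coefficients. For `pt` on the variety `z₀ = pt 0` is a root of the monic polynomial `F_t` with the coefficients `F_i(t)`, `t = pt ∘ succ` (`OnX` for the polynomial `∑ rename succ (F_i) * X 0 ^ i`). Axiom `root`: `H ![1, z₀] ≤ H (F_i(t))_i + C`, and the vector `(F_i(t))_i` is a vector of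
values of polynomials of degree `≤ D` in `t`: `H ≤ D * H (hcN t) + C` (homogenise; monomials of degree `D` in `hcN t` have height `≤ D * H (hcN t)`: axioms `tens`, `comp`, `lin`, induction on `D`). `hcN pt = (1, z₀, t)` is a subtuple of the tensor product of `![1, z₀]` and `hcN t` (`tens`, `comp`): `H (hcN pt) ≤ H ![1, z₀] + H (hcN t)`. `c = D + 1`. -/
def StmtCzX : Prop :=
  ∀ (K E : Type) [Field K] [Field E] [Algebra K E] (n : ℕ) (ξ : Fin (n + 1) → E), Stp K ξ →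
    ∃ c : ℕ, 1 ≤ c ∧ ∀ (Ω : Type) [Field Ω] [Algebra K Ω] (h : HtF Ω), ∃ C : ℝ,
      ∀ pt : Fin (n + 1) → Ω, OnX K ξ pt → h.H (hcN pt) ≤ c * hx h pt + C

/-! ## Recursion -/

/-- (HtX) The height inequality (architect of `SpecH.lean`: helper5). -/
def HtXP : Prop :=
  ∀ (K E : Type) [Field K] [CharZero K] [Field E] [Algebra K E] (ξ : Fin 4 → E), Stp K ξ →
    ∀ (g z' : Fin 3 → E) (Z₀ : Pl 3 K) (P₁ j₁ q₁ : ℕ), Z₀ ≠ 0 →
    (∀ i : Fin 3, Intx K (fun i : Fin 3 => ξ i.succ)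
      (MvPolynomial.aeval (fun i : Fin 3 => ξ i.succ) Z₀ * z' i)) →
    AlgebraicIndependent K g → 1 ≤ P₁ → 1 ≤ j₁ → 1 ≤ q₁ →
    {u : K | ¬ ∃ i₀ : ℕ, ∀ i, i₀ ≤ i →
      SctX K ξ (Tu K u g) z' Z₀ (P₁ * i) (j₁ * i) (q₁ * i)}.Finite →
    ∃ B : Pl 4 K, MvPolynomial.aeval ξ B ≠ 0 ∧
      ∀ (Ω : Type) [Field Ω] [Algebra K Ω] (h : HtF Ω), ∃ C : ℝ,
      ∀ (pt : Fin 4 → Ω) (gv zv : Fin 3 → Ω), OnX K ξ pt → MvPolynomial.aeval pt B ≠ 0 →
        (∀ i, VlX K ξ pt (g i) (gv i)) → (∀ i, VlX K ξ pt (z' i) (zv i)) →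
        (q₁ : ℝ) * h.H (hcN gv) ≤ 2 * P₁ * h.H (hcN pt) + j₁ * h.H (hcN zv) + C

/-- (RecX) The two recursive inequalities. PROOF (uses `StmtSecXI`, `StmtSecXII`, `HtXP`, `StmtFlV`, `StmtCzX`, `StmtDg1`). `c` from `StmtCzX`. `Z₀ ≠ 0` with `Z₀(x) * (ρ ^ (2m)) (x i)` integral over `K[x]` (`E` is algebraic over `K(x)`: `exists_integral_multiple`). `HtXP` for `g = ρ ^ m x`, `z' = ρ ^ (2m) x` (`g` is algebraically independent since `ρ` is injective) with `(P₁, j₁, q₁) = (72 d Δ, 8 d, D)` (`StmtSecXI`) and `(16 τ ^ m Δ, 72 d Δ, Δ')` (`StmtSecXII`; `1 ≤ τ`: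
`E` is finite over `ρ.fieldRange`, generated by `ξ` and algebraic since the transcendence degrees are equal); `d, Δ, D, Δ' ≥ 1` by `StmtDg1`. `B = B_I * B_II`. For an orbit `z` and `pt = z t`: `gv i = z (t + m) i.succ`, `zv i = z (t + 2m) i.succ` (`StmtFlV`), so `h.H (hcN gv) = hx h (z (t + m))`, …, and `h.H (hcN (z t)) ≤ c * hx h (z t) + C`. (I) `D hx(t+m) ≤ 144 d Δ (c hx(t) + C) + 8 d hx(t+2m) + C'`: divide by `8 d`.
(II) `Δ' hx(t+m) ≤ 32 τ ^ m Δ (c hx(t) + C) + 72 d Δ hx(t+2m) + C'`: divide by `72 d Δ`, `32 ≤ 72`. -/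
def StmtRecX : Prop :=
  ∀ (K E : Type) [Field K] [CharZero K] [Field E] [Algebra K E] (ξ : Fin 4 → E), Stp K ξ →
    ∃ c : ℕ, 1 ≤ c ∧ ∀ (ρ : E →ₐ[K] E) (m : ℕ),
    ∀ d Δ D Δ' : ℕ, d = dgx K 2 1 (fun i : Fin 3 => ξ i.succ) (fun i : Fin 3 => (ρ ^ m) (ξ i.succ)) →
    Δ = dgx K 1 2 (fun i : Fin 3 => ξ i.succ) (fun i : Fin 3 => (ρ ^ m) (ξ i.succ)) →
    D = dgx K 2 1 (fun i : Fin 3 => ξ i.succ) (fun i : Fin 3 => (ρ ^ (2 * m)) (ξ i.succ)) →
    Δ' = dgx K 1 2 (fun i : Fin 3 => ξ i.succ) (fun i : Fin 3 => (ρ ^ (2 * m)) (ξ i.succ)) →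
    ∃ B : Pl 4 K, MvPolynomial.aeval ξ B ≠ 0 ∧
      ∀ (Ω : Type) [Field Ω] [Algebra K Ω] (h : HtF Ω), ∃ C : ℝ, ∀ z : ℕ → Fin 4 → Ω,
        FlowX K ξ ρ z → ∀ t : ℕ, MvPolynomial.aeval (z t) B ≠ 0 →
        (D : ℝ) / (8 * d) * hx h (z (t + m)) ≤
            hx h (z (t + 2 * m)) + 18 * c * Δ * hx h (z t) + C ∧
        (Δ' : ℝ) / (72 * d * Δ) * hx h (z (t + m)) ≤
            hx h (z (t + 2 * m)) + c * (Module.finrank ρ.fieldRange E : ℝ) ^ m / d * hx h (z t) + C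

/-! ## Rates -/

/-- (FekX) PROOF. As `StmtXFek` (`Lib/MP_16285c_agN/T3/XFek.lean`) for `d' m = 2 * d m`, which is submultiplicative; the `m`-th roots of `2` converge to `1`, so the limit superior of `(d m) ^ (1/m)` in `ENNReal` is the limit `l` of `(2 * d m) ^ (1/m)`: `ENNReal.ofReal` of the real roots (`ENNReal.ofReal_rpow_of_pos`, …) converges to `ENNReal.ofReal l` (`ENNReal.tendsto_ofReal`, `Filter.Tendsto.limsup_eq`). `l = inf (2 d m) ^ (1/m)`. -/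
def StmtFekX : Prop :=
  ∀ (d : ℕ → ℕ) (τ : ℕ), (∀ a b, d (a + b) ≤ 2 * d a * d b) → (∀ m, 1 ≤ d m) →
    (τ : ENNReal) < Filter.limsup (fun m : ℕ => (d m : ENNReal) ^ ((m : ℝ)⁻¹)) Filter.atTop →
    ∃ l : ℝ, (τ : ℝ) < l ∧ (∀ m, l ^ m ≤ 2 * (d m : ℝ)) ∧
      ∀ ε : ℝ, 0 < ε → ∃ m₀ : ℕ, ∀ m, m₀ ≤ m → (d m : ℝ) ≤ (l * (1 + ε)) ^ m

/-- The numerical conditions for `a`, `b`, `d`, `t` and the constant `c`. -/
def GdX (c a b d t : ℝ) : Prop := 2 ≤ b ∧ 8 * a ≤ b ^ 2 ∧ 4 * c * a < b * d ∧ t < b / 2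

/-- (RatesX) PROOF (uses `StmtFekX`). Landed model: `Lib/MP_16285c_agN/T3/XRates.lean` (the constants `2`, `C₀`, `c` are additional fixed factors, harmless for large `m`). `l > τ ≥ 1` from `StmtFekX`. Choose `ε ∈ (0, 1)` with `l (1 - ε) ^ 2 > τ` and then `ε' > 0` with `l (1 - ε) ^ 2 > τ (1 + ε')`, `l > τ (1 + ε')` and `(1 + ε') ^ 3 (1 - ε) < 1`. CASE II: `Δ (2m) ≥ (l (1 - ε)) ^ (2m) Δ m` for arbitrarily large `m`. For such large `m` the second alternative holds: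
`b ≥ (l (1 - ε)) ^ (2m) / (72 (l (1 + ε')) ^ m)` is larger than `2 τ ^ m` and than any constant; `a = c τ ^ m / d m ≤ 2 c` (`τ ^ m ≤ l ^ m ≤ 2 d m`), so `8 a ≤ 16 c ≤ b ^ 2` and `4 c a ≤ 8 c ^ 2 < b ≤ b d`. CASE I: otherwise `Δ (2m) < (l (1 - ε)) ^ (2m) Δ m ≤ C₀ (l (1 - ε)) ^ (2m) (l (1 + ε')) ^ (2m) = C₀ μ ^ (2m)` for large `m`, `μ = l ^ 2 (1 - ε) (1 + ε')`; as `Δ (2m + 1) ≤ C₀ Δ (2m)`, `Δ n ≤ C μ ^ n` for all large `n`
(`μ > 1` by the choice of `ε`). The first alternative holds for large `m`: `b = d (2m) / (8 d m) ≥ (l / (1 + ε')) ^ m / 16 > 2 τ ^ m`; `8 a = 144 c Δ m ≤ C' μ ^ m ≤ (l / (1 + ε')) ^ (2m) / 256 ≤ b ^ 2`; `4 c a = 72 c ^ 2 Δ m ≤ C'' μ ^ m < l ^ (2m) / 16 ≤ d (2m) / 8 = b d`. -/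
def StmtRatesX : Prop :=
  ∀ (d Δ : ℕ → ℕ) (τ C₀ c : ℕ), 1 ≤ τ → 1 ≤ c → (∀ a b, d (a + b) ≤ 2 * d a * d b) → (∀ m, 1 ≤ d m) →
    (∀ m, 1 ≤ Δ m) → (∀ m, Δ m ≤ C₀ * d m ^ 2) → (∀ m, Δ (m + 1) ≤ C₀ * Δ m) →
    (τ : ENNReal) < Filter.limsup (fun m : ℕ => (d m : ENNReal) ^ ((m : ℝ)⁻¹)) Filter.atTop →
    ∃ m : ℕ, 1 ≤ m ∧
      (GdX c (18 * c * Δ m) (d (2 * m) / (8 * d m)) (d m) ((τ : ℝ) ^ m) ∨
        GdX c (c * (τ : ℝ) ^ m / d m) (Δ (2 * m) / (72 * d m * Δ m)) (d m) ((τ : ℝ) ^ m))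

/-! ## Fast orbits -/

/-- (LowX) The lower bound on lines (architect of `SpecL.lean`: helper66). -/
def LowXP : Prop :=
  ∀ (K E : Type) [Field K] [CharZero K] [Field E] [Algebra K E] (P : Pl 4 K) (ξ : Fin 4 → E),
    Irreducible P → MonZ P → GenN P ξ → ∀ g : Fin 3 → E,
    ∃ B : Pl 3 K, B ≠ 0 ∧ ∀ (K₁ Ω : Type) [Field K₁] [CharZero K₁] [Field Ω] [IsAlgClosed Ω]
      [Algebra K K₁] [Algebra K Ω] [Algebra K₁ Ω] [IsScalarTower K K₁ Ω] (h : HtF Ω),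
      (∀ (F : Type) [Field F] [Algebra K₁ F] (ι ι' : F →ₐ[K₁] Ω) (m : Type) [Finite m] (a : m → F),
        h.H (fun j => ι (a j)) = h.H (fun j => ι' (a j))) →
      ∀ c : Fin 3 → K₁, MvPolynomial.aeval c B ≠ 0 → ∃ R : Pl 3 K₁, R ≠ 0 ∧
        ∀ w : Fin 3 → K₁, MvPolynomial.eval w R ≠ 0 → ∃ C : ℝ, ∀ (s : K₁) (z₀ : Ω) (gv : Fin 3 → Ω),
          Irreducible ((MvPolynomial.finSuccEquiv K₁ 3
            (MvPolynomial.map (algebraMap K K₁) P)).map (MvPolynomial.eval (lptN c w s))) →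
          MvPolynomial.aeval (lptN c w s) B ≠ 0 →
          MvPolynomial.aeval (pt (lptN c w s) z₀) P = 0 →
          (∀ i, VlX K ξ (pt (lptN c w s) z₀) (g i) (gv i)) →
          (dgx K 2 1 (fun i : Fin 3 => ξ i.succ) g : ℝ) * h.H ![1, algebraMap K₁ Ω s] ≤
            (MvPolynomial.finSuccEquiv K 3 P).natDegree * h.H (hcN gv) + C ∧
          hx h (pt (lptN c w s) z₀) ≤ h.H ![1, algebraMap K₁ Ω s] + C

/-- (Rl1X) PROOF. As `StmtXRl1` (`Lib/MP_16285c_agN/T3/XRl1.lean`): `b (h m) - 4 a (h 0) ≥ b (d η - C') / c - 4 a (η + C') ≥ 0`, `b (h m) ≥ 4 C`, `h m > 0` for large `η` (`C' ≥ 0` without loss of generality; `b d / c > 4 a`). `StmtGro` of `Lib/MP_16285c_agZ` (`stmtGro` in `Gro.lean`). -/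
def StmtRl1X : Prop :=
  ∀ (c a b d C C' : ℝ), 1 ≤ c → 0 ≤ a → GdX c a b d 0 → ∃ H₀ : ℝ,
    ∀ (h : ℕ → ℝ) (m : ℕ) (η : ℝ), (∀ n, 0 ≤ h n) → H₀ < η → h 0 ≤ η + C' → d * η ≤ c * h m + C' →
      (∀ t, b * h (t + m) ≤ h (t + 2 * m) + a * h t + C) →
      0 < h m ∧ ∀ j, 1 ≤ j → b / 2 * h (m * j) ≤ h (m * (j + 1))

/-- (FastX) Fast orbits through points over a line. PROOF (uses `StmtRatesX`, `StmtRecX`, `LowXP`, `StmtDg1`, `StmtDgM`, `StmtRl1X`, `StmtGenS`, `StmtFlV`). `Stp K ξ` (`StmtGenS`). `d m = dgx K 2 1 x (ρ ^ m x)`, `Δ m = dgx K 1 2 x (ρ ^ m x)`, `δ = natDegree`, `τ = [E : ρ E] ≥ 1`, `c₀` from `StmtRecX`, `c = max c₀ δ`, `C₀ = 9 (d 1) ^ 2 + 9 δ` (`StmtDgM`): `StmtRatesX` gives `m ≥ 1` and one of the two alternatives for `c`, where the coefficients `a` with `c` are `≥` the ones with `c₀`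
in `StmtRecX` (`hx ≥ 0`). `B₁` from `StmtRecX`, `B'` from `LowXP` for `g = ρ ^ m x`; `B = B₁ * up K 3 B'` (`B'(x) ≠ 0`). Let `K₁, Ω, h, c, w, s, z` be as in the statement. `pt = z 0`: it is the point `pt (lptN c w s) z₀` with `z₀ = z 0 0`. `up K 3 B'` at `z 0` is `aeval (lptN c w s) B'` (mapped to `Ω`), so it is `≠ 0`. `gv i = z m i.succ` (`StmtFlV`): `d m * η ≤ δ * hx h (z m) + C`, `hx h (z 0) ≤ η + C`, `η = h.H ![1, s]`. `StmtRl1X` with `a`, `b` of the alternative. -/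
def StmtFastX : Prop :=
  ∀ (K E : Type) [Field K] [CharZero K] [Field E] [Algebra K E] (P : Pl 4 K) (ξ : Fin 4 → E)
    (ρ : E →ₐ[K] E), Irreducible P → MonZ P → GenN P ξ →
    (Module.finrank ρ.fieldRange E : ENNReal) < Filter.limsup (fun m : ℕ =>
      (dgx K 2 1 (fun i : Fin 3 => ξ i.succ) (fun i : Fin 3 => (ρ ^ m) (ξ i.succ)) : ENNReal) ^
        ((m : ℝ)⁻¹)) Filter.atTop →
    ∃ (m : ℕ) (b : ℝ) (B : Pl 4 K) (B' : Pl 3 K), 1 ≤ m ∧ 2 ≤ b ∧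
      (Module.finrank ρ.fieldRange E : ℝ) ^ m < b / 2 ∧ ¬ P ∣ B ∧ B' ≠ 0 ∧
      ∀ (K₁ Ω : Type) [Field K₁] [CharZero K₁] [Field Ω] [IsAlgClosed Ω]
      [Algebra K K₁] [Algebra K Ω] [Algebra K₁ Ω] [IsScalarTower K K₁ Ω] (h : HtF Ω),
      (∀ (F : Type) [Field F] [Algebra K₁ F] (ι ι' : F →ₐ[K₁] Ω) (m : Type) [Finite m] (a : m → F),
        h.H (fun j => ι (a j)) = h.H (fun j => ι' (a j))) →
      ∀ c : Fin 3 → K₁, MvPolynomial.aeval c B' ≠ 0 → ∃ R : Pl 3 K₁, R ≠ 0 ∧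
        ∀ w : Fin 3 → K₁, MvPolynomial.eval w R ≠ 0 → ∃ H₀ : ℝ, ∀ s : K₁,
          H₀ < h.H ![1, algebraMap K₁ Ω s] →
          Irreducible ((MvPolynomial.finSuccEquiv K₁ 3
            (MvPolynomial.map (algebraMap K K₁) P)).map (MvPolynomial.eval (lptN c w s))) →
          ∀ z : ℕ → Fin 4 → Ω, FlowX K ξ ρ z →
          (∀ i : Fin 3, z 0 i.succ = algebraMap K₁ Ω (lptN c w s i)) →
          (∀ t, MvPolynomial.aeval (z t) B ≠ 0) →
          0 < hx h (z m) ∧ ∀ j, 1 ≤ j → b / 2 * hx h (z (m * j)) ≤ hx h (z (m * (j + 1)))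

/-! ## Core -/

/-- No invariant divisor outside `e * pderiv 0 P = 0` has residue degree `≥ T`. -/
def NoFullD {K : Type} [Field K] {n : ℕ} (P e : Pl (n + 1) K) (σ : RF (n + 1) K →ₐ[K] RF (n + 1) K)
    (T : ℕ) : Prop :=
  ∀ (𝔭 : Ideal (Pl (n + 1) K)) [𝔭.IsPrime], P ∈ 𝔭 → MvPolynomial.pderiv 0 P ∉ 𝔭 → e ∉ 𝔭 →
    1 ≤ rk 𝔭 → rk 𝔭 + 1 = n →
    ∀ (L : Type) [Field L] [Algebra (CR 𝔭) L] [IsFractionRing (CR 𝔭) L] [Algebra K L]
      [IsScalarTower K (CR 𝔭) L] (ρb : L →ₐ[K] L), Rst σ 𝔭 L ρb →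
      Module.finrank ρb.fieldRange L < T

/-- (CoreA) The core with an alternative. PROOF. `Top/CoreX.lean` (landed, `StmtCoreX`: copy) with `NoFullD` in place of `NoFull1`: if the inclusion `span {P'} ≤ van y M` is strict and `rk = 0` or `rk + 1 = n` there is the same contradiction; otherwise the second alternative holds: `𝔭 = vanK K y M` is prime, contains `P`, does not contain `e` (all its elements vanish at `y 0`), `rk 𝔭 = rk (van y M)` (`StmtRkK`), `Pres (σ ^ M) 𝔭` (`StmtPresK`). -/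
def StmtCoreA : Prop :=
  ∀ (K : Type) [Field K] [CharZero K] (n : ℕ) (P : Pl (n + 1) K) (f : RM K (n + 1))
    (σ : RF (n + 1) K →ₐ[K] RF (n + 1) K) (M : ℕ), 1 ≤ n →
    Irreducible P → MonZ P → Of f σ → Pres σ (Ideal.span {P}) → 1 ≤ M →
    ∀ (E : Type) [Field E] [Algebra (CR (Ideal.span {P})) E] [IsFractionRing (CR (Ideal.span {P})) E]
      [Algebra K E] [IsScalarTower K (CR (Ideal.span {P})) E] (ρ : E →ₐ[K] E),
      Rst (σ ^ M) (Ideal.span {P}) E ρ → (∃ h : E, ρ h ≠ h) → ∀ e : Pl (n + 1) K, ¬ P ∣ e →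
      NoFullD P e (σ ^ M) (Module.finrank ρ.fieldRange E) →
    ∃ (H : Polynomial (Pl n K)) (G : Pl n K), H.Monic ∧
      Irreducible (H.map (algebraMap (Pl n K) (RF n K))) ∧ G ≠ 0 ∧
      ∀ t : Fin n → K, Irreducible (H.map (MvPolynomial.eval t)) → MvPolynomial.eval t G ≠ 0 →
        Irreducible ((MvPolynomial.finSuccEquiv K n P).map (MvPolynomial.eval t)) ∧
        ∀ (K' : Type) [Field K'] [Algebra K K'] [Algebra.IsAlgebraic K K'] (z₀ : K'),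
          IntermediateField.adjoin K {z₀} = ⊤ →
          Irreducible (MvPolynomial.map (algebraMap K K') P) →
          ∀ (y : ℕ → Fin (n + 1) → K') (N N' p p' : ℕ), y 0 = pt t z₀ →
          (f.map (algebraMap K K')).Orb y →
          (∀ m, MvPolynomial.aeval (y m) P = 0 ∧ MvPolynomial.aeval (y m) (jac f) ≠ 0) →
          p.Prime → p'.Prime → p ≠ p' → N * N' = M → Pool.Agent.ZDO.ClN N p y →
          Pool.Agent.ZDO.ClN N' p' y →
          van y M ≤ Ideal.span {MvPolynomial.map (algebraMap K K') P} ∨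
            ((vanK K y M).IsPrime ∧ P ∈ vanK K y M ∧ e ∉ vanK K y M ∧ 1 ≤ rk (vanK K y M) ∧
              rk (vanK K y M) + 2 ≤ n ∧ Pres (σ ^ M) (vanK K y M))

/-! ## Comparison of degrees -/

/-- (TpG) PROOF. `β : E → E'` with the disjointness property of `StmtBet`. Let `w_1, …, w_d` be a basis of `E` over `ρ.fieldRange`; the `β w_i` are linearly independent over `φ.fieldRange`: `φ.fieldRange` is generated over `k` as a field by the `φ (β (y i)) = β (ρ (y i))`; part (ii) of the proof of `StmtDescX` (`Gro/DescX.lean`, landed) with `κ = ρ.fieldRange = K(ρ y)`, `κ' = φ.fieldRange = k(β (ρ y))`: clear denominators, expand the coefficients in a `K`-independent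
family of elements of `k`, use the disjointness. `E'` is finite over `φ.fieldRange` (hypothesis), so `d ≤ [E' : φ.fieldRange]`. -/
def StmtTpG : Prop :=
  ∀ (K k : Type) [Field K] [Field k] [Algebra K k] (E E' : Type) [Field E] [Field E'] [Algebra K E]
    [Algebra k E'] [Algebra K E'] [IsScalarTower K k E'] (β : E →ₐ[K] E'),
    (∀ (s : ℕ) (b : Fin s → k), LinearIndependent K b → ∀ h : Fin s → E,
      ∑ t, algebraMap k E' (b t) * β (h t) = 0 → ∀ t, h t = 0) →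
    ∀ (ρ : E →ₐ[K] E) (φ : E' →ₐ[k] E'), (∀ h, β (ρ h) = φ (β h)) →
    Module.Finite φ.fieldRange E' → ∀ (m : ℕ) (y : Fin m → E), IntermediateField.adjoin K (Set.range y) = ⊤ →
      IntermediateField.adjoin k (Set.range fun i => β (y i)) = ⊤ →
      Module.finrank ρ.fieldRange E ≤ Module.finrank φ.fieldRange E'

/-- (DgS) Sums. PROOF. (1) `b = b₁ * b₂`, `W` = `W₁ * W₂`: `b ^ a * (w₁ + w₂) ^ i = ∑ j, binom * (b₁ ^ a w₁ ^ j) (b₂ ^ a w₂ ^ (i - j))`, in `W₁ W₂ Vd (d₁ a) Vd (d₂ a)`. (2) multiplication by a constant. (3) Apply the ring homomorphism `β` to everything (`β` maps `W * Vd K y a` into the `k`-span `W' * Vd k (β ∘ y) a`). -/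
def StmtDgS : Prop :=
  (∀ (K E : Type) [Field K] [Field E] [Algebra K E] (s : ℕ) (y : Fin s → E) (w₁ w₂ : E) (d₁ d₂ : ℕ),
    Dge K y w₁ d₁ → Dge K y w₂ d₂ → Dge K y (w₁ + w₂) (d₁ + d₂)) ∧
  (∀ (K E : Type) [Field K] [Field E] [Algebra K E] (s : ℕ) (y : Fin s → E) (w : E) (c : K) (d : ℕ),
    Dge K y w d → Dge K y (algebraMap K E c * w) d) ∧
  ∀ (K k E E' : Type) [Field K] [Field k] [Algebra K k] [Field E] [Field E'] [Algebra K E] [Algebra k E']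
    [Algebra K E'] [IsScalarTower K k E'] (β : E →ₐ[K] E') (s : ℕ) (y : Fin s → E) (w : E) (d : ℕ),
    Dge K y w d → Dge k (fun i => β (y i)) (β w) d

/-- (CmpX) The degrees in the coordinates `y` over `k` are bounded by the degrees in the coordinates `x` over `K`. PROOF (uses `StmtDg1`, `StmtCfD`, `StmtDgS`, `StmtDgT`, `StmtBZ1`, `StmtBZ2`, `StmtRpA`, `StmtRpD`). `x' i = β (ξ i.succ)`, `X' m = φ ^ m ∘ x' = β ∘ (ρ ^ m ∘ x)`, `Stp k (β ∘ ξ)` is a hypothesis; `δ = [E' : k(x')]`, `d m = dgx K 2 1 x (ρ ^ m x) ≥ 1`.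
(a) Every `k`-linear combination `w` of the `X' m j` satisfies `Dge k x' w (3 * d m)`: `Dge K x ((ρ ^ m) (x j)) (d m)` (`StmtDg1` (2) for `B = Pi.single j 1`, `StmtCfD`), `StmtDgS` (3), (2), (1). So `[E' : k(lc A' x', w)] ≤ 2 (3 d m) δ =: e₁` for all `A' : Fin 2` (`StmtBZ1`, `κ = k(lc A' x')`, as in `StmtDgB`: the degrees `[E' : κ(l(x'))]` are `0` or `δ`). (b) There is `e ≥ 1` with `Dge k x' (l(y)) e` for all `k`-linear forms `l`
(common denominator `c(x')` with `Rp k x' e (c(x') y_i)`, as in `StmtDgB`), so `Dge k (X' m) (φ ^ m (l(y))) e` (`StmtDgT` (2)). (c) Let `A, B` be forms in `y`, `w = lfX B (φ ^ m y) 0 = φ ^ m (lfX B y 0)`. For `A' : Fin 2`, `κ = k(lc A' x')`: `StmtBZ1` with `y := X' m`, `e₁`: `[E' : κ(w)] ≤ 2 e e₁` (if `w` is algebraic over `κ` the degree is infinite, i.e. `0`). So over `κ'' = k(w)` all `[E' : κ''(lc A' x')] ≤ 2 e e₁`, and `StmtBZ2` for `κ''`, `y := x'`,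
`w_i = lfX A y i` (`Dge κ'' x' w_i e`): `[E' : κ''(w₁, w₂)] ≤ 9 e ^ 2 (2 e e₁)` (if finite then `w₁, w₂` are algebraically independent over `κ''`, `w` transcendental over `k`). `C = 9 * e ^ 2 * (2 * e * (6 * δ))`; take the supremum over `A, B`. -/
def StmtCmpX : Prop :=
  ∀ (K k : Type) [Field K] [CharZero K] [Field k] [Algebra K k] (E E' : Type) [Field E] [Field E']
    [Algebra K E] [Algebra k E'] [Algebra K E'] [IsScalarTower K k E'] (β : E →ₐ[K] E')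
    (ξ : Fin 4 → E) (ρ : E →ₐ[K] E) (φ : E' →ₐ[k] E'), Stp K ξ → Stp k (fun i => β (ξ i)) →
    (∀ h, β (ρ h) = φ (β h)) → ∀ (s : ℕ) (y : Fin s → E'),
    ∃ C : ℕ, ∀ m : ℕ, degrX k 3 1 y (fun i => (φ ^ m) (y i)) ≤
      (C * dgx K 2 1 (fun i : Fin 3 => ξ i.succ) (fun i : Fin 3 => (ρ ^ m) (ξ i.succ)) : ℕ)

/-! ## Final assembly -/

/-- The growth hypothesis: over all fields of definition which contain the finite set `S₀` the first dynamical degree is larger than the topological degree. -/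
def Gr3 {k : Type} [Field k] (P : Pl 4 k) (f : RM k 4) : Prop :=
  ∃ S₀ : Finset k, ∀ (K : Type) [Field K] [CharZero K] [Algebra K k] (PK : Pl 4 K) (fK : RM K 4)
    [(Ideal.span {PK}).IsPrime], (∀ s ∈ S₀, s ∈ Set.range (algebraMap K k)) →
    MvPolynomial.map (algebraMap K k) PK = P → fK.map (algebraMap K k) = f → Irreducible PK →
    MonZ PK → InvX fK PK → ∀ σK : RF 4 K →ₐ[K] RF 4 K, Of fK σK →
    ∀ (E : Type) [Field E] [Algebra (CR (Ideal.span {PK})) E] [IsFractionRing (CR (Ideal.span {PK})) E]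
      [Algebra K E] [IsScalarTower K (CR (Ideal.span {PK})) E] (ρ : E →ₐ[K] E),
      Rst σK (Ideal.span {PK}) E ρ →
      (Module.finrank ρ.fieldRange E : ENNReal) < Filter.limsup (fun m : ℕ =>
        (dgx K 2 1 (fun i : Fin 3 => toF (Ideal.span {PK}) E (MvPolynomial.X i.succ))
          (fun i : Fin 3 => (ρ ^ m) (toF (Ideal.span {PK}) E (MvPolynomial.X i.succ))) : ENNReal) ^
          ((m : ℝ)⁻¹)) Filter.atTop

/-- The theorem for the model. -/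
def StmtMod3 : Prop :=
  ∀ (k : Type) [Field k] [IsAlgClosed k] [CharZero k] (P : Pl 4 k) (f : RM k 4), Irreducible P →
    MonZ P → InvX f P → NoIX f P → Gr3 P f → ∀ b : Pl 4 k, ¬ P ∣ b →
    ∃ x : ℕ → Fin 4 → k, f.Orb x ∧
      (∀ m, MvPolynomial.eval (x m) P = 0 ∧ MvPolynomial.eval (x m) b ≠ 0) ∧
      ∀ G : Pl 4 k, ¬ P ∣ G → ∃ m, MvPolynomial.eval (x m) G ≠ 0

/-- (Gr3P) PROOF (uses `StmtBet`, `StmtCmpB`, `StmtTpG`, `StmtCmpX`, `StmtGenS`, `StmtG1`). `S₀ = ∅`. Let `K, PK, fK, σK, E, ρ` be given; `Algebra K E'` by composition. `β : E → E'` from `StmtBet` (for `ξ'`), `β (toF (X i)) = ξ' i`, `β (ρ h) = φ (β h)` (`StmtCmpB` with `M = 1`; `fvn f ξ' i = φ (ξ' i)`). `finrank ρ.fieldRange E ≤ finrank φ.fieldRange E'` (`StmtTpG` with `y i = toF (X i)`; `E'` is finite over `φ.fieldRange`: `StmtG1`, or: same transcendence degree and finitely generated;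
if `finrank φ.fieldRange E'` were `0` the claim `… < …` still needs finiteness, so prove it). `StmtCmpX`: `degrX k 3 1 y' (φ ^ m y') ≤ C * d m`, so `lamX k 3 1 y' φ ≤ limsup (C * d m) ^ (1/m) = limsup (d m) ^ (1/m)` (`ENNReal.mul_rpow_of_nonneg`; `C ^ (1/m) → 1`; for `m ≥ 1` `(C d) ^ (1/m) ≤ (1 + ε) d ^ (1/m)` eventually, or `limsup (u v) ≤ (limsup u) (limsup v)`: `ENNReal.limsup_mul_le`). Hence `finrank ρ ≤ finrank φ < lamX k 3 1 y' φ ≤ limsup (d m) ^ (1/m)`. -/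
def StmtGr3P : Prop :=
  ∀ (k : Type) [Field k] [CharZero k] (P : Pl 4 k) (E' : Type) [Field E'] [Algebra k E']
    (ξ : Fin 4 → E') (φ : E' →ₐ[k] E') (f : RM k 4) (m : ℕ) (y' : Fin m → E'),
    Irreducible P → MonZ P → GenN P ξ → InvX f P → (∀ i, fvn f ξ i = φ (ξ i)) →
    (Module.finrank φ.fieldRange E' : ENNReal) < lamX k 3 1 y' φ → Gr3 P f

/-- (Fin3) PROOF OF `StmtMod3` (uses `StmtFastX`, `StmtCoreA`, `StmtHSup`, `StmtXHL`, `StmtBoxX`, `StmtDom`, `StmtPresX`, `StmtResF`, `StmtG1`, `StmtNoEX`, `StmtNoPowE`, `StmtNoDescX`, `StmtInvDX`, `StmtInvD` (2), `StmtLiftC2`, `StmtDesc`, `StmtCanX`, `StmtConjS`, `StmtDescS`, `StmtTpX`, `StmtFlF`, `StmtGenS`, and the statements `StmtPrEX`, `StmtFlC`, `StmtEndX` of `SpecC.lean`). Models: `Top/FinX.lean`, `Top/ModX.lean`, and `Lib/MP_16285c_agN/T3/XFin.lean`. `P` is prime, `𝔮 = (P)`.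
(0) `σ` with `Of f σ` (`StmtDom`), `NoRX (σ ^ M) P` for all `M ≥ 1` as in `ModX.lean`. (1) `S₀` from `Gr3`; `S` = `S₀`, the coefficients of `P`, `f`, of `E₀, N₀` of `InvX`; `K₀ = Subfield.closure S`; `P₀, f₀, σ₀`, `E₀ = FractionRing (CR (span {P₀}))`, `ρ₀` from `StmtResF` (`StmtPresX`, `StmtInvDX`), `ξ₀ i = toF (X i)`, `GenN P₀ ξ₀` (`StmtGenS`). `Gr3` and `StmtFastX`: `m, b', B, B'`, `T = finrank ρ₀.fieldRange E₀`, `T ^ m < b' / 2`. (2) `StmtBoxX` for `b * jac f * map B * up (map B')` twice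
(`p₀ = 2`, then `p₀ = p`): `V, p, a, N`, `V', p', a', N'`; `M = N * N'`; `c` from `StmtLiftC2` for `a i.succ`, `a' i.succ`; the orbit of the box over `c` (`z₀` over `c`) shows `B'(c) ≠ 0`. (3) `StmtHSup` for `V, V', p, p'` and `S ∪ {c i}`: `E₀', Ω, h, t`. `K₁ = E₀' ⊔ Subfield.closure (S ∪ {c i})`, finitely generated, contained in `Ω`; `Ω` is algebraically closed and algebraic over `K₁`; `P₁, f₁, σ₁` over `K₁`, `Pres`, `E₁`, `ρ₁` for `σ₁ ^ M`; `NoRX (σ₁ ^ M) P₁` (`StmtNoDescX`), so `ρ₁ h = h` implies `h`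
constant, `ρ₁ ≠ id`. `Γ` from `StmtCanX` (`n = 3`), `e₁` from `StmtPrEX` for `σ₁ ^ M`; `e = e₁ * up Γ`; `NoFullD P₁ e (σ₁ ^ M) (finrank ρ₁)` by `StmtCanX` (as in `ModX.lean`). (4) `H, G` from `StmtCoreA`; `R` from `StmtFastX` for `K₁, Ω, h, c`; `w` from `StmtXHL` (`n = 3`) for `H, G * B', R, c` over `K₁`; `H₀` from `StmtFastX`; `j₀` from `StmtHSup` for `H₀`, `q = p p' t ^ j₀ ≠ 0`; `s'` from `StmtXHL`; `s = q s'`, `t₁ = lptN c w s`: `H(t₁, Y)` irreducible, `G(t₁) ≠ 0`, so `P₁(Z, t₁)` is irreducible over `K₁`.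
`Lies V (t₁ i) (a i.succ)`: `s w i = p * (p' t ^ j₀ s' w i)` is in `V` with residue `0` (`(t : k) ∈ V`, `w i` an integer), the same for `V'`. (5) - (7) as in `FinX.lean`: `z₀, z₀'` over `t₁` from the box, orbits `x`, `x'` in `k`, `K' = AdjoinRoot (P₁(Z, t₁))`, embeddings `ι, ι'` over `K₁`, the orbit `y` over `K'` with `x = ι y`, `x' = ι' y`, `ClN N p y`, `ClN N' p' y`, `P`, `jac f` on `y`. (8) `StmtCoreA`: in the first case `x` is dense (`StmtDescS`) as in `FinX.lean`. In the second case `𝔭 = vanK K₁ y M` is prime,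
`rk 𝔭 = 1`, `e₁ ∉ 𝔭`; `L = FractionRing (CR 𝔭)`, `ρb` from `StmtResF`; `finrank ρb ≤ finrank ρ₁ ≤ T ^ M` (`StmtPrEX`; `StmtTpX` for `β : E₀ → E₁` and `ρ₀ ^ M`, `StmtG1` (b)). The orbit `x` lies in `Ω` (algebraic over `K₁`): `z : ℕ → Fin 4 → Ω`. `FlowX K₀ ξ₀ ρ₀ z` (`StmtFlF`), `B ≠ 0` along `z`: growth by `StmtFastX` (`h.H ![1, s] > H₀`). `FlowX K₁ η ρb (fun t => z (M t))` (`StmtFlC`). `StmtEndX`: contradiction. The invariance hypothesis of `StmtFastX` follows from the one of `StmtHSup` (`E₀' ≤ K₁`). -/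
def StmtFin3 : Prop := StmtMod3

/-- (Var3) The theorem for threefolds with `λ₁ > λ₃`. PROOF (uses `StmtMod3`, `StmtPrimX`, `StmtAmbX`, `StmtNoInvX`, `StmtPtsX`, `StmtGr3P`). Copy `G/VarX.lean` (landed) with `n = 3`: `P, ξ` from `StmtPrimX`, `f` from `StmtAmbX`, `NoIX f P` from `StmtNoInvX`; `c, Y, d, Z` from `StmtPtsX`; `Gr3 P f` from `StmtGr3P` with `y' i = cls I (X i)`; `StmtMod3` for `b := β`. -/
def StmtVar3 : Prop :=
  ∀ (k : Type) [Field k] [IsAlgClosed k] [CharZero k] (m : ℕ) (I : Ideal (MvPolynomial (Fin m) k)) [I.IsPrime],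
    Algebra.trdeg k (MvPolynomial (Fin m) k ⧸ I) = (3 : ℕ) → ∀ φ : FF I →ₐ[k] FF I,
    (Module.finrank φ.fieldRange (FF I) : ENNReal) <
      lamX k 3 1 (fun i => cls I (MvPolynomial.X i)) φ →
    (∀ h : FF I, φ h = h → ∃ c : k, h = algebraMap k (FF I) c) → ∀ b : MvPolynomial (Fin m) k, b ∉ I →
    ∃ x : ℕ → Fin m → k, (∀ n, (∀ A ∈ I, MvPolynomial.eval (x n) A = 0) ∧ MvPolynomial.eval (x n) b ≠ 0 ∧
      ∀ i, ValAt I (φ (cls I (MvPolynomial.X i))) (x n) (x (n + 1) i)) ∧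
      ∀ A : MvPolynomial (Fin m) k, A ∉ I → ∃ n, MvPolynomial.eval (x n) A ≠ 0

end Pool.Agent.Lib.MP_16285c_agX
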