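import Pool.Agent.Lib.MP_16285c_agX.T3.SpecC

/-!
# Relations between functions give relations between values (BvV)
-/

set_option autoImplicit false

namespace Pool.Agent.Lib.MP_16285c_agX

open Pool.Agent.Lib.MP_16285c_ag Pool.Agent.Lib.MP_16285c_agN

namespace T3BvVM

variable {K L Ω : Type} [Field K] [Field L] [Field Ω] [Algebra K L] [Algebra K Ω] {n : ℕ} {η : Fin n → L}
  {pt : Fin n → Ω}

theorem const (hV : StmtVlA) (hpt : OnX K η pt) (c : K) :
    VlX K η pt (algebraMap K L c) (algebraMap K Ω c) := by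
  have h := (hV K L Ω n η pt hpt).2.1 (MvPolynomial.C c)
  rwa [MvPolynomial.aeval_C, MvPolynomial.aeval_C] at h

theorem powV (hV : StmtVlA) (hpt : OnX K η pt) {a : L} {u : Ω} (ha : VlX K η pt a u) (m : ℕ) :
    VlX K η pt (a ^ m) (u ^ m) := by
  induction m with
  | zero =>
    have h := const (L := L) hV hpt (1 : K)
    rwa [map_one, map_one, ← pow_zero a, ← pow_zero u] at h
  | succ m ih =>
    rw [pow_succ, pow_succ]
    exact (hV K L Ω n η pt hpt).2.2.2.1 _ _ _ _ ih ha

theorem inner (hV : StmtVlA) (hpt : OnX K η pt) {a : L} {u : Ω} (ha : VlX K η pt a u) (p : Polynomial K) :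
    VlX K η pt (Polynomial.eval₂ (algebraMap K L) a p) (Polynomial.eval₂ (algebraMap K Ω) u p) := by
  induction p using Polynomial.induction_on' with
  | add p q hp hq =>
    rw [Polynomial.eval₂_add, Polynomial.eval₂_add]
    exact (hV K L Ω n η pt hpt).2.2.1 _ _ _ _ hp hq
  | monomial m c =>
    rw [Polynomial.eval₂_monomial, Polynomial.eval₂_monomial]
    exact (hV K L Ω n η pt hpt).2.2.2.1 _ _ _ _ (const hV hpt c) (powV hV hpt ha m)

theorem outer (hV : StmtVlA) (hpt : OnX K η pt) {a b : L} {u v : Ω} (ha : VlX K η pt a u) (hb : VlX K η pt b v)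
    (Φ : Polynomial (Polynomial K)) : VlX K η pt (bv a b Φ) (bv u v Φ) := by
  unfold bv
  induction Φ using Polynomial.induction_on' with
  | add p q hp hq =>
    rw [Polynomial.eval₂_add, Polynomial.eval₂_add]
    exact (hV K L Ω n η pt hpt).2.2.1 _ _ _ _ hp hq
  | monomial m c =>
    rw [Polynomial.eval₂_monomial, Polynomial.eval₂_monomial]
    exact (hV K L Ω n η pt hpt).2.2.2.1 _ _ _ _ (inner hV hpt ha c) (powV hV hpt hb m)

end T3BvVM

/-- (BvV) Relations between functions give relations between values. -/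
theorem tBvV : StmtVlA → StmtBvV := by
  intro hV K L Ω _ _ _ _ _ n η pt hpt a b u v ha hb Φ h0
  have h := T3BvVM.outer hV hpt ha hb Φ
  rw [h0] at h
  have h1 := T3BvVM.const (L := L) hV hpt (0 : K)
  rw [map_zero, map_zero] at h1
  exact (hV K L Ω n η pt hpt).1 _ _ _ h h1

end Pool.Agent.Lib.MP_16285c_agX
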