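import Pool.Agent.Lib.MP_16285c_agX.T3.SpecC
import Pool.Agent.Lib.MP_16285c_agZ.UPP.Dh

/-!
# Relations on a curve given by its function field (proof of `StmtCvX`; edit of `Lib/MP_16285c_agN/T3/XCv.lean`)
-/

set_option autoImplicit false

open Polynomial

namespace Pool.Agent.Lib.MP_16285c_agX

open Pool.Agent.Lib.MP_16285c_ag Pool.Agent.Lib.MP_16285c_agN

namespace T3CvXM

section

variable {K L : Type} [Field K] [Field L] [Algebra K L]

/-- In transcendence degree one every transcendental element is a transcendence basis. -/
theorem alg_over (h1 : Algebra.trdeg K L = 1) (w : L) (hw : Transcendental K w) :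
    Algebra.IsAlgebraic (IntermediateField.adjoin K {w}) L := by
  have hind : AlgebraicIndependent K (fun _ : Unit => w) :=
    algebraicIndependent_unique_type_iff.mpr hw
  have hb : IsTranscendenceBasis K (fun _ : Unit => w) :=
    hind.isTranscendenceBasis_of_trdeg_le_of_finite (by rw [h1]; simp)
  have h := hb.isAlgebraic_field
  rwa [Set.range_const] at h

variable {n : ℕ} {η : Fin n → L}

/-- `L` is generated by the coordinate functions over every intermediate field. -/
theorem adjoin_top (hg : IntermediateField.adjoin K (Set.range η) = ⊤) (F : Type) [Field F]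
    [Algebra F L] [Algebra K F] [IsScalarTower K F L] :
    IntermediateField.adjoin F (Set.range η) = ⊤ := by
  rw [eq_top_iff]
  intro x _
  have hx : x ∈ IntermediateField.adjoin K (Set.range η) := by
    rw [hg]
    exact IntermediateField.mem_top
  have hle : IntermediateField.adjoin K (Set.range η) ≤
      (IntermediateField.adjoin F (Set.range η)).restrictScalars K :=
    IntermediateField.adjoin_le_iff.2 (IntermediateField.subset_adjoin F _)
  exact hle hx

theorem finDim (hg : IntermediateField.adjoin K (Set.range η) = ⊤)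
    (h1 : Algebra.trdeg K L = 1) (w : L) (hw : Transcendental K w) :
    FiniteDimensional (IntermediateField.adjoin K {w}) L := by
  have halg := alg_over h1 w hw
  have hfin : FiniteDimensional (IntermediateField.adjoin K {w})
      (IntermediateField.adjoin (IntermediateField.adjoin K {w}) (Set.range η)) :=
    IntermediateField.finiteDimensional_adjoin fun z _ => (halg.isAlgebraic z).isIntegral
  rw [adjoin_top hg] at hfin
  exact (IntermediateField.topEquiv (F := IntermediateField.adjoin K {w})
    (E := L)).toLinearEquiv.finiteDimensional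

/-- One of the coordinate functions is transcendental. -/
theorem exists_transcendental (hg : IntermediateField.adjoin K (Set.range η) = ⊤)
    (h1 : Algebra.trdeg K L = 1) : ∃ i : Fin n, Transcendental K (η i) := by
  by_contra hcon
  push Not at hcon
  have halg : ∀ i : Fin n, IsAlgebraic K (η i) := fun i => not_not.1 (hcon i)
  have h2 : Algebra.IsAlgebraic K (IntermediateField.adjoin K (Set.range η)) := by
    apply IntermediateField.isAlgebraic_adjoin
    rintro x ⟨i, rfl⟩
    exact (halg i).isIntegral
  rw [hg] at h2
  have h3 : Algebra.IsAlgebraic K L :=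
    (IntermediateField.topEquiv (F := K) (E := L)).isAlgebraic
  rw [trdeg_eq_zero (R := K) (A := L)] at h1
  exact zero_ne_one h1

end

end T3CvXM

open T3CvXM in
theorem tCvX : StmtCvX := by
  intro K L _ _ _ n η ρb hg h1
  obtain ⟨i, hi⟩ := exists_transcendental hg h1
  have hT : ∀ N : ℕ, Transcendental K ((ρb ^ N) (η i)) :=
    fun N h => hi ((isAlgebraic_algHom_iff (ρb ^ N) (ρb ^ N).injective).1 h)
  refine ⟨?_, i, Module.finrank (IntermediateField.adjoin K {η i}) L, hi, ?_, ?_⟩
  · have := finDim hg h1 _ (hT 1)
    have h2 : 0 < Module.finrank (IntermediateField.adjoin K {(ρb ^ 1) (η i)}) L :=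
      Module.finrank_pos
    rw [Pool.Agent.Lib.MP_16285c_agZ.finrank_pow', pow_one] at h2
    exact Nat.pos_of_mul_pos_left h2
  · intro N
    have halg := alg_over h1 _ (hT N)
    have hfd := finDim hg h1 _ (hT N)
    obtain ⟨Φ, h1, h2, h3⟩ := Pool.Agent.Lib.MP_16285c_agZ.biv_rel (K := K)
      ((ρb ^ N) (η i)) (η i) (halg.isAlgebraic _) _ le_rfl
    refine ⟨Φ, h1, fun j => (h2 j).trans ?_, ?_⟩
    · rw [← Pool.Agent.Lib.MP_16285c_agZ.finrank_pow']
      exact minpoly.natDegree_le _
    · rw [Pool.Agent.Lib.MP_16285c_agZ.aa_eq] at h3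
      exact h3
  · intro j
    have halg := alg_over h1 _ hi
    obtain ⟨Φ, h2, -, h3⟩ := Pool.Agent.Lib.MP_16285c_agZ.biv_rel (K := K)
      (η i) (η j) (halg.isAlgebraic _) _ le_rfl
    refine ⟨Bivariate.swap Φ, ?_, ?_⟩
    · intro h0
      exact h2 ((map_eq_zero_iff (Bivariate.swap (R := K)) (Bivariate.swap (R := K)).injective).1
        h0)
    · rw [← Bivariate.aevalAeval_swap, Pool.Agent.Lib.MP_16285c_agZ.aa_eq] at h3
      exact h3

end Pool.Agent.Lib.MP_16285c_agX
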