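import Pool.Agent.Lib.MP_16285c_agX.T3.SpecC

/-!
# Threefolds with `λ₁ > λ₃`: the curve case is impossible (ZD3X, module EndX, helper84)
-/

set_option autoImplicit false

namespace Pool.Agent.Lib.MP_16285c_agX

open Pool.Agent.Lib.MP_16285c_ag Pool.Agent.Lib.MP_16285c_agN

namespace T3EndXM

/-- An orbit which returns is periodic. -/
theorem periodic {X : Type} {z : ℕ → X} (hz : ∀ s t, z s = z t → z (s + 1) = z (t + 1))
    {a b : ℕ} (h : z a = z b) (i : ℕ) : z (a + i) = z (b + i) := by
  induction i with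
  | zero => exact h
  | succ i ih => exact hz _ _ ih

/-- A function on such an orbit is bounded. -/
theorem bdd {X : Type} (x : ℕ → X) (h : X → ℝ) (a b : ℕ) (hab : a < b)
    (hp : ∀ i, x (a + i) = x (b + i)) : ∃ C : ℝ, ∀ n, h (x n) ≤ C := by
  refine ⟨∑ i ∈ Finset.range b, |h (x i)|, fun n => ?_⟩
  induction n using Nat.strong_induction_on with
  | _ n ih =>
    by_cases hn : n < b
    · exact (le_abs_self _).trans
        (Finset.single_le_sum (f := fun i => |h (x i)|) (fun i _ => abs_nonneg _)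
          (Finset.mem_range.2 hn))
    · have h1 : x n = x (a + (n - b)) := by
        rw [hp, Nat.add_sub_cancel' (not_lt.1 hn)]
      rw [h1]
      exact ih _ (by omega)

/-- Geometric growth. -/
theorem grow (h : ℕ → ℝ) (m : ℕ) (β : ℝ) (hβ : 0 ≤ β)
    (hg : ∀ j, 1 ≤ j → β * h (m * j) ≤ h (m * (j + 1))) (j : ℕ) :
    β ^ j * h m ≤ h (m * (j + 1)) := by
  induction j with
  | zero => rw [pow_zero, one_mul, zero_add, mul_one]
  | succ j ih =>
    calc β ^ (j + 1) * h m = β * (β ^ j * h m) := by ring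
      _ ≤ β * h (m * (j + 1)) := mul_le_mul_of_nonneg_left ih hβ
      _ ≤ h (m * (j + 1 + 1)) := hg _ (by omega)

/-- The height measured by `x` is at most the height. -/
theorem hx_le {Ω : Type} [Field Ω] (h : HtF Ω) {n : ℕ} (pt : Fin (n + 1) → Ω) :
    hx h pt ≤ h.H (hcN pt) := by
  have e : (hcN fun i : Fin n => pt i.succ) =
      hcN pt ∘ (Fin.cases 0 (fun j : Fin n => j.succ.succ) : Fin (n + 1) → Fin (n + 1 + 1)) := by
    funext i
    refine Fin.cases ?_ (fun j => ?_) i
    · rfl
    · rfl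
  unfold hx
  rw [e]
  exact h.comp _ _

end T3EndXM

open T3EndXM

theorem tEndX : StmtUppX → StmtXRl2 → StmtEndX := by
  intro hU hR K Ω L _ _ _ _ _ h n η ρb hη htr T m M b hT1 hm hM hb htb hδ z hz hfl h0 hgrow
  let hh : ℕ → ℝ := fun t => hx h (z t)
  have hT : (1 : ℝ) ≤ (T : ℝ) := by exact_mod_cast hT1
  have hβ : 1 < b / 2 := lt_of_le_of_lt (one_le_pow₀ hT) htb
  have hinj : Function.Injective (fun t => z (M * t)) := by
    have key : ∀ s t : ℕ, s < t → z (M * s) ≠ z (M * t) := by
      intro s t hst heq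
      obtain ⟨C, hC⟩ := bdd z (fun y => hx h y)
        (M * s) (M * t) (Nat.mul_lt_mul_of_pos_left hst (by omega)) (periodic hz heq)
      obtain ⟨j, hj⟩ := pow_unbounded_of_one_lt (C / hh m) hβ
      have h1 := grow hh m (b / 2) (by linarith) hgrow j
      have h2 : hh (m * (j + 1)) ≤ C := hC _
      have h3 : C < (b / 2) ^ j * hh m := (div_lt_iff₀ h0).1 hj
      linarith
    intro s t hst
    rcases lt_trichotomy s t with h | h | h
    · exact absurd hst (key s t h)
    · exact h
    · exact absurd hst.symm (key t s h)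
  refine hR hh m M b (T : ℝ) (Module.finrank ρb.fieldRange L : ℝ) hm hM hb
    hT htb (Nat.cast_nonneg _) (by exact_mod_cast hδ) h0 hgrow fun ε hε => ?_
  obtain ⟨C, hC⟩ := hU K Ω L h (n + 1) η ρb hη htr (fun t => z (M * t)) hfl hinj ε hε
  exact ⟨C, fun t => (hx_le h _).trans (hC t)⟩

end Pool.Agent.Lib.MP_16285c_agX
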