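import Pool.Agent.Lib.MP_16285c_agX.T3.SpecC
import Pool.Agent.Lib.MP_16285c_agN.Low

/-!
# The orbit on the curve (FlC)
-/

set_option autoImplicit false

namespace Pool.Agent.Lib.MP_16285c_agX

open Pool.Agent.Lib.MP_16285c_ag Pool.Agent.Lib.MP_16285c_agN
open Pool.Agent.Lib.MP_16285c_agS (toF StmtUni)

namespace T3FlCM

theorem toF_aeval {K : Type} [Field K] {n : ℕ} (𝔭 : Ideal (Pl n K)) (L : Type)
    [Field L] [Algebra (CR 𝔭) L] [Algebra K L] [IsScalarTower K (CR 𝔭) L] (G : Pl n K) :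
    toF 𝔭 L G = MvPolynomial.aeval (fun i => toF 𝔭 L (MvPolynomial.X i)) G := by
  induction G using MvPolynomial.induction_on with
  | C a =>
    rw [MvPolynomial.aeval_C, IsScalarTower.algebraMap_apply K (CR 𝔭) L]
    rfl
  | add a b ha hb => rw [map_add, map_add, ha, hb]
  | mul_X a i ha => rw [map_mul, map_mul, ha, MvPolynomial.aeval_X]

end T3FlCM

theorem tFlC : StmtUni → StmtFlC := by
  intro hU K Ω _ _ _ n f σ M hf 𝔭 h𝔭 L _ _ _ _ _ ρb hρ y hy hv t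
  constructor
  · intro G hG
    rw [← T3FlCM.toF_aeval 𝔭 L G] at hG
    have hm : G ∈ 𝔭 := by
      by_contra h
      exact LowM.cl_ne (L := L) h hG
    exact hv t G hm
  · intro i
    obtain ⟨E, N, hEN, hz⟩ := hU K n f σ hf M (MvPolynomial.X i)
    obtain ⟨h1, h2⟩ := hz Ω y hy (M * t)
    have hE : E ∉ 𝔭 := fun h => h1 (hv t E h)
    have hE0 : toF 𝔭 L E ≠ 0 := LowM.cl_ne (L := L) hE
    have r1 : Rsd 𝔭 L ((σ ^ M) (fr (MvPolynomial.X i))) (toF 𝔭 L N / toF 𝔭 L E) := by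
      refine ⟨N, E, hE, ?_, ?_⟩
      · rw [hEN]
        exact mul_comm _ _
      · exact div_mul_cancel₀ _ hE0
    have r2 : Rsd 𝔭 L ((σ ^ M) (fr (MvPolynomial.X i))) (ρb (toF 𝔭 L (MvPolynomial.X i))) :=
      hρ (fr (MvPolynomial.X i)) (toF 𝔭 L (MvPolynomial.X i)) (LowM.res_fr (MvPolynomial.X i))
    have r3 : ρb (toF 𝔭 L (MvPolynomial.X i)) = toF 𝔭 L N / toF 𝔭 L E := LowM.uniq r2 r1
    refine ⟨N, E, h1, ?_, ?_⟩
    · rw [← T3FlCM.toF_aeval 𝔭 L E, ← T3FlCM.toF_aeval 𝔭 L N]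
      show ρb (toF 𝔭 L (MvPolynomial.X i)) * toF 𝔭 L E = toF 𝔭 L N
      rw [r3]
      exact div_mul_cancel₀ _ hE0
    · show MvPolynomial.aeval (y (M * t)) N =
        y (M * (t + 1)) i * MvPolynomial.aeval (y (M * t)) E
      rw [h2, MvPolynomial.aeval_X]
      have e : M * (t + 1) = M * t + M := by ring
      rw [e]
      exact mul_comm _ _

end Pool.Agent.Lib.MP_16285c_agX
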