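import Pool.Agent.Lib.MP_16285c_agX.T3.SpecC
import Pool.Agent.Lib.MP_16285c_agZ.UPP.Dg

/-!
# A function on a curve has finitely many zeros (proof of `StmtPtC`)
-/

set_option autoImplicit false

open Polynomial

namespace Pool.Agent.Lib.MP_16285c_agX

open Pool.Agent.Lib.MP_16285c_ag Pool.Agent.Lib.MP_16285c_agN

namespace T3PtCM

section

variable {K L : Type} [Field K] [Field L] [Algebra K L]

/-- In transcendence degree one every transcendental element is a transcendence basis. -/
theorem alg_over (h1 : Algebra.trdeg K L = 1) (w : L) (hw : Transcendental K w) :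
    Algebra.IsAlgebraic (IntermediateField.adjoin K {w}) L := by
  have hind : AlgebraicIndependent K (fun _ : Unit => w) :=
    algebraicIndependent_unique_type_iff.mpr hw
  have hb : IsTranscendenceBasis K (fun _ : Unit => w) :=
    hind.isTranscendenceBasis_of_trdeg_le_of_finite (by rw [h1]; simp)
  have h := hb.isAlgebraic_field
  rwa [Set.range_const] at h

/-- A relation between two elements. -/
theorem rel (h1 : Algebra.trdeg K L = 1) (a q : L) :
    ∃ Φ : K[X][X], Φ ≠ 0 ∧ bv a q Φ = 0 := by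
  by_cases hq : Transcendental K q
  · have halg := alg_over h1 q hq
    obtain ⟨Φ, h2, -, h3⟩ := Pool.Agent.Lib.MP_16285c_agZ.biv_rel (K := K) q a
      (halg.isAlgebraic _) _ le_rfl
    rw [Pool.Agent.Lib.MP_16285c_agZ.aa_eq] at h3
    exact ⟨Φ, h2, h3⟩
  · obtain ⟨m, hm, hmq⟩ := not_not.mp hq
    refine ⟨m.map C, (Polynomial.map_ne_zero_iff C_injective).mpr hm, ?_⟩
    unfold bv
    rw [eval₂_map]
    have h2 : (eval₂RingHom (algebraMap K L) a).comp (C : K →+* K[X]) = algebraMap K L := by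
      ext c
      simp
    rw [h2]
    exact hmq

/-- A relation with a nonzero constant term. -/
theorem rel' (h1 : Algebra.trdeg K L = 1) (a q : L) (hq : q ≠ 0) :
    ∃ (g : K[X]) (Ψ : K[X][X]), g ≠ 0 ∧ aeval a g + bv a q Ψ * q = 0 := by
  obtain ⟨Φ, hΦ, h2⟩ := rel h1 a q
  obtain ⟨Φ', h3, h4⟩ := exists_eq_pow_rootMultiplicity_mul_and_not_dvd Φ hΦ 0
  rw [C_0, sub_zero] at h3 h4
  rw [X_dvd_iff] at h4
  refine ⟨Φ'.coeff 0, divX Φ', h4, ?_⟩
  have h5 : bv a q Φ' = 0 := by
    rw [h3] at h2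
    unfold bv at h2
    rw [eval₂_mul, eval₂_pow, eval₂_X] at h2
    exact (mul_eq_zero.mp h2).resolve_left (pow_ne_zero _ hq)
  have h6 := divX_mul_X_add Φ'
  rw [← h6] at h5
  unfold bv at h5
  rw [eval₂_add, eval₂_mul, eval₂_X, eval₂_C] at h5
  rw [add_comm]
  exact h5

end

end T3PtCM

open T3PtCM in
theorem tPtC : StmtPtC := by
  intro K L Ω _ _ _ _ _ n η htr Q hQ
  classical
  have key : ∀ i : Fin n, ∃ g : K[X], g ≠ 0 ∧ ∀ pt : Fin n → Ω, OnX K η pt →
      MvPolynomial.aeval pt Q = 0 → aeval (pt i) g = 0 := by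
    intro i
    obtain ⟨g, Ψ, hg, hgΨ⟩ := rel' htr (η i) (MvPolynomial.aeval η Q) hQ
    refine ⟨g, hg, ?_⟩
    intro pt hpt hz
    let A : Pl n K := eval₂ ((aeval (MvPolynomial.X i : Pl n K) : K[X] →ₐ[K] Pl n K) :
      K[X] →+* Pl n K) Q Ψ
    have h1 : ∀ {M : Type} [Field M] [Algebra K M] (x : Fin n → M),
        MvPolynomial.aeval x (aeval (MvPolynomial.X i : Pl n K) g + A * Q) =
        aeval (x i) g + bv (x i) (MvPolynomial.aeval x Q) Ψ * MvPolynomial.aeval x Q := by
      intro M _ _ x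
      rw [map_add, map_mul]
      congr 1
      · rw [← Polynomial.aeval_algHom_apply, MvPolynomial.aeval_X]
      · congr 1
        have h2 := hom_eval₂ Ψ ((aeval (MvPolynomial.X i : Pl n K) : K[X] →ₐ[K] Pl n K) :
          K[X] →+* Pl n K) ((MvPolynomial.aeval x : Pl n K →ₐ[K] M) : Pl n K →+* M) Q
        refine h2.trans ?_
        unfold bv
        congr 1
        apply Polynomial.ringHom_ext
        · intro c
          simp [aeval_C]
        · simp
    have h3 := hpt _ ((h1 η).trans hgΨ)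
    rw [h1 pt, hz, mul_zero, add_zero] at h3
    exact h3
  choose g hg hgz using key
  refine Set.Finite.subset (Set.Finite.pi (ι := Fin n) (t := fun i => (g i).rootSet Ω)
    fun i => rootSet_finite _ _) ?_
  rintro pt ⟨h1, h2⟩ i -
  rw [mem_rootSet]
  exact ⟨hg i, hgz i pt h1 h2⟩

end Pool.Agent.Lib.MP_16285c_agX
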