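import Pool.Agent.Lib.MP_16285c_agX.T3.SpecC
import Pool.Agent.Lib.MP_16285c_agZ.UPP.Fin

/-!
# Growth of heights on a curve (`StmtUppX`)
-/

set_option autoImplicit false

namespace Pool.Agent.Lib.MP_16285c_agX

open Polynomial
open Pool.Agent.Lib.MP_16285c_ag Pool.Agent.Lib.MP_16285c_agN

namespace T3UppXM

section

variable {K L Ω : Type} [Field K] [Field L] [Field Ω] [Algebra K L] [Algebra K Ω] {n : ℕ}

theorem aeval_aeval_X {A : Type} [CommRing A] [Algebra K A] (x : Fin n → A) (i : Fin n) (q : K[X]) :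
    MvPolynomial.aeval x (aeval (MvPolynomial.X i : Pl n K) q) = aeval (x i) q := by
  have h := aeval_algHom_apply (MvPolynomial.aeval x : Pl n K →ₐ[K] A) (MvPolynomial.X i) q
  rw [MvPolynomial.aeval_X] at h
  exact h.symm

/-- A nonzero polynomial in a transcendental coordinate does not vanish at the late points. -/
theorem lead_ne {η : Fin n → L} (i : Fin n) (hi : Transcendental K (η i)) (z : ℕ → Fin n → Ω)
    (hD : ∀ Q : Pl n K, MvPolynomial.aeval η Q ≠ 0 → ∃ t₀, ∀ t ≥ t₀, MvPolynomial.aeval (z t) Q ≠ 0)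
    (q : K[X]) (hq : q ≠ 0) : ∃ t₀, ∀ t ≥ t₀, aeval (z t i) q ≠ 0 := by
  obtain ⟨t₀, ht₀⟩ := hD (aeval (MvPolynomial.X i : Pl n K) q) (by
    intro h0
    rw [aeval_aeval_X] at h0
    exact hq ((transcendental_iff.1 hi) q h0))
  refine ⟨t₀, fun t ht => ?_⟩
  rw [← aeval_aeval_X (z t) i q]
  exact ht₀ t ht

/-- Only finitely many points of the orbit are zeros of a function which is not zero. -/
theorem late {η : Fin n → L} (z : ℕ → Fin n → Ω) (hz : ∀ t, OnX K η (z t))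
    (hinj : Function.Injective z)
    (hfin : ∀ Q : Pl n K, MvPolynomial.aeval η Q ≠ 0 →
      {pt : Fin n → Ω | OnX K η pt ∧ MvPolynomial.aeval pt Q = 0}.Finite)
    (Q : Pl n K) (hQ : MvPolynomial.aeval η Q ≠ 0) :
    ∃ t₀, ∀ t ≥ t₀, MvPolynomial.aeval (z t) Q ≠ 0 := by
  have h1 : {t : ℕ | MvPolynomial.aeval (z t) Q = 0}.Finite := by
    apply ((hfin Q hQ).preimage hinj.injOn).subset
    intro t ht
    exact ⟨hz t, ht⟩
  obtain ⟨b, hb⟩ := h1.bddAbove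
  refine ⟨b + 1, fun t ht h0 => ?_⟩
  have h2 : t ≤ b := hb h0
  omega

end

end T3UppXM

open T3UppXM in
/-- Growth of heights on a curve. -/
theorem tUppX : StmtCvX → StmtPtC → StmtBvV → StmtRtX → StmtFlV → StmtUppX := by
  intro hCv hPt hBv hRt hFl K Ω L _ _ _ _ _ h n η ρb htop htr z hflow hinj ε hε
  have hon : ∀ t, OnX K η (z t) := fun t => (hflow t).1
  have hD : ∀ Q : Pl n K, MvPolynomial.aeval η Q ≠ 0 →
      ∃ t₀, ∀ t ≥ t₀, MvPolynomial.aeval (z t) Q ≠ 0 :=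
    fun Q hQ => late z hon hinj (fun Q hQ => hPt K L Ω n η htr Q hQ) Q hQ
  obtain ⟨hδ, i, d, hi, hrel, hoth⟩ := hCv K L n η ρb htop htr
  set δ := Module.finrank ρb.fieldRange L with hδdef
  have hδ1 : (1 : ℝ) ≤ δ := by exact_mod_cast hδ
  have hδ0 : (0 : ℝ) < δ := by linarith
  obtain ⟨N, hN⟩ : ∃ N : ℕ, ((d * δ ^ N : ℕ) : ℝ) + 1 ≤ ((δ : ℝ) + ε) ^ N := by
    obtain ⟨N, hN⟩ := pow_unbounded_of_one_lt ((d : ℝ) + 1) (y := ((δ : ℝ) + ε) / δ) (by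
      rw [one_lt_div hδ0]
      linarith)
    refine ⟨N, ?_⟩
    rw [div_pow, lt_div_iff₀ (pow_pos hδ0 N)] at hN
    have h1 : (1 : ℝ) ≤ (δ : ℝ) ^ N := one_le_pow₀ hδ1
    push_cast
    linarith
  obtain ⟨Φ, hΦ0, hΦd, hΦ⟩ := hrel N
  obtain ⟨C₁, hC₁, hroot⟩ := hRt.2.1 K Ω h (d * δ ^ N) Φ hΦd
  obtain ⟨t₂, ht₂⟩ := lead_ne i hi z hD Φ.leadingCoeff (leadingCoeff_ne_zero.2 hΦ0)
  have hval : ∀ (m t : ℕ) (j : Fin n), VlX K η (z t) ((ρb ^ m) (η j)) (z (t + m) j) :=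
    fun m t j => hFl K L Ω n η ρb z hflow m t j
  have hval0 : ∀ (t : ℕ) (j : Fin n), VlX K η (z t) (η j) (z t j) := fun t j => hval 0 t j
  obtain ⟨D, hD0, hDt⟩ := Pool.Agent.Lib.MP_16285c_agZ.grow_le
    (fun t => h.H ![1, z t i]) (fun t => h.nonneg _) N t₂ ((d * δ ^ N : ℕ) : ℝ) C₁ ((δ : ℝ) + ε)
    (Nat.cast_nonneg _) hC₁ (by linarith) hN (fun t ht =>
      hroot _ _ (ht₂ t ht)
        (hBv K L Ω n η (z t) (hon t) _ _ _ _ (hval0 t i) (hval N t i) Φ hΦ))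
  -- the other coordinates
  have hother : ∀ j : Fin n, ∃ (a C : ℝ) (t₀ : ℕ), 0 ≤ a ∧ 0 ≤ C ∧ ∀ t ≥ t₀,
      h.H ![1, z t j] ≤ a * h.H ![1, z t i] + C := by
    intro j
    obtain ⟨Ψ, hΨ0, hΨ⟩ := hoth j
    obtain ⟨a, ha⟩ := Pool.Agent.Lib.MP_16285c_agZ.coeff_bound Ψ
    obtain ⟨C₂, hC₂, hroot₂⟩ := hRt.2.1 K Ω h a Ψ ha
    obtain ⟨t₃, ht₃⟩ := lead_ne i hi z hD Ψ.leadingCoeff (leadingCoeff_ne_zero.2 hΨ0)
    exact ⟨a, C₂, t₃, Nat.cast_nonneg _, hC₂, fun t ht => hroot₂ _ _ (ht₃ t ht)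
      (hBv K L Ω n η (z t) (hon t) _ _ _ _ (hval0 t i) (hval0 t j) Ψ hΨ)⟩
  choose a C₂ T ha hC₂ hT using hother
  set T₀ : ℕ := ∑ j, T j with hT₀
  have hTle : ∀ j, T j ≤ T₀ := fun j =>
    Finset.single_le_sum (f := T) (fun _ _ => Nat.zero_le _) (Finset.mem_univ j)
  set S := ∑ t ∈ Finset.range T₀, h.H (hcN (z t)) with hS
  have hS0 : 0 ≤ S := Finset.sum_nonneg fun t _ => h.nonneg _
  have hβ1 : (1 : ℝ) ≤ (δ : ℝ) + ε := by linarith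
  have ha0 : 0 ≤ ∑ j, a j := Finset.sum_nonneg fun j _ => ha j
  have hC0 : 0 ≤ ∑ j, C₂ j := Finset.sum_nonneg fun j _ => hC₂ j
  refine ⟨(∑ j, a j) * D + ∑ j, C₂ j + S, fun t => ?_⟩
  have hone : (1 : ℝ) ≤ ((δ : ℝ) + ε) ^ t := one_le_pow₀ hβ1
  have hone0 : (0 : ℝ) ≤ ((δ : ℝ) + ε) ^ t := zero_le_one.trans hone
  have haD : 0 ≤ (∑ j, a j) * D := mul_nonneg ha0 hD0
  rcases lt_or_ge t T₀ with ht | ht
  · have h1 : h.H (hcN (z t)) ≤ S :=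
      Finset.single_le_sum (f := fun t => h.H (hcN (z t)))
        (fun s _ => h.nonneg _) (Finset.mem_range.2 ht)
    have h2 : S ≤ ((∑ j, a j) * D + ∑ j, C₂ j + S) * ((δ : ℝ) + ε) ^ t := by
      calc S ≤ (∑ j, a j) * D + ∑ j, C₂ j + S := by linarith
        _ = ((∑ j, a j) * D + ∑ j, C₂ j + S) * 1 := (mul_one _).symm
        _ ≤ _ := mul_le_mul_of_nonneg_left hone (by linarith)
    exact h1.trans h2
  · have h1 := hRt.2.2 Ω h n (z t)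
    have h3 : ∑ j : Fin n, h.H ![1, z t j] ≤
        ∑ j : Fin n, (a j * (D * ((δ : ℝ) + ε) ^ t) + C₂ j * ((δ : ℝ) + ε) ^ t) := by
      apply Finset.sum_le_sum
      intro j _
      have h4 := hT j t ((hTle j).trans ht)
      have h5 := mul_le_mul_of_nonneg_left (hDt t) (ha j)
      have h6 : C₂ j ≤ C₂ j * ((δ : ℝ) + ε) ^ t := le_mul_of_one_le_right (hC₂ j) hone
      linarith
    have h7 : ∑ j : Fin n, (a j * (D * ((δ : ℝ) + ε) ^ t) + C₂ j * ((δ : ℝ) + ε) ^ t) =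
        ((∑ j, a j) * D + ∑ j, C₂ j) * ((δ : ℝ) + ε) ^ t := by
      rw [Finset.sum_add_distrib, ← Finset.sum_mul, ← Finset.sum_mul]
      ring
    have h8 : 0 ≤ S * ((δ : ℝ) + ε) ^ t := mul_nonneg hS0 hone0
    calc h.H (hcN (z t)) ≤ _ := h1
      _ ≤ _ := h3
      _ = _ := h7
      _ ≤ ((∑ j, a j) * D + ∑ j, C₂ j + S) * ((δ : ℝ) + ε) ^ t := by linarith

end Pool.Agent.Lib.MP_16285c_agX
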