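import Pool.Agent.Lib.MP_16285c_agN.T3.XRl2
import Pool.Agent.Lib.MP_16285c_agS.Top.All
import Pool.Agent.Lib.MP_16285c_agX.Gro.RsE
import Pool.Agent.Lib.MP_16285c_agX.Gro.RsR
import Pool.Agent.Lib.MP_16285c_agX.T3.BvV
import Pool.Agent.Lib.MP_16285c_agX.T3.CuG
import Pool.Agent.Lib.MP_16285c_agX.T3.CvX
import Pool.Agent.Lib.MP_16285c_agX.T3.EndX
import Pool.Agent.Lib.MP_16285c_agX.T3.FlC
import Pool.Agent.Lib.MP_16285c_agX.T3.FlV
import Pool.Agent.Lib.MP_16285c_agX.T3.PrEX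
import Pool.Agent.Lib.MP_16285c_agX.T3.PtC
import Pool.Agent.Lib.MP_16285c_agX.T3.RtX
import Pool.Agent.Lib.MP_16285c_agX.T3.UppX
import Pool.Agent.Lib.MP_16285c_agX.T3.VlA

/-!
# Orbits on curves: closed forms (ZD3X part C)
-/

set_option autoImplicit false

namespace Pool.Agent.Lib.MP_16285c_agX

open Pool.Agent.Lib.MP_16285c_ag Pool.Agent.Lib.MP_16285c_agN
open Pool.Agent.Lib.MP_16285c_agS

theorem cUppX : StmtUppX := tUppX tCvX tPtC (tBvV yVlA) tRtX (yFlV yVlA)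

/-- The curve case is impossible. -/
theorem cEndX : StmtEndX := tEndX cUppX tXRl2

/-- The degree on subvarieties. -/
theorem cPrEX : StmtPrEX := tPrEX tRsE tRsR tG1

/-- The orbit on the curve. -/
theorem cFlC : StmtFlC := tFlC tUni

end Pool.Agent.Lib.MP_16285c_agX
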