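import Pool.Agent.Lib.MP_16285c_agX.T3.SpecA
import Pool.Agent.Lib.MP_16285c_agN.T3.XBZ

/-!
# Bezout's inequality on a curve (BZ1)
-/

set_option autoImplicit false

namespace Pool.Agent.Lib.MP_16285c_agX

open Pool.Agent.Lib.MP_16285c_ag Pool.Agent.Lib.MP_16285c_agN

namespace T3BZ1M

/-- The number of monomials in one variable. -/
theorem cnt_one (a : ℕ) : cnt 1 a ≤ a + 1 := by
  unfold cnt
  have hb : ∀ (b : {b : Fin 1 → ℕ // ∑ i, b i ≤ a}) (i : Fin 1), b.1 i < a + 1 := fun b i =>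
    Nat.lt_succ_of_le ((Finset.single_le_sum (f := b.1) (fun _ _ => Nat.zero_le _)
      (Finset.mem_univ i)).trans b.2)
  have h := Nat.card_le_card_of_injective
    (fun b : {b : Fin 1 → ℕ // ∑ i, b i ≤ a} => fun i : Fin 1 => (⟨b.1 i, hb b i⟩ : Fin (a + 1)))
    (fun b c hbc => by
      apply Subtype.ext
      funext i
      exact congrArg Fin.val (congrFun hbc i))
  refine h.trans (le_of_eq ?_)
  rw [Nat.card_eq_fintype_card, Fintype.card_fun, Fintype.card_fin, Fintype.card_fin, pow_one]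

/-- Arithmetic. -/
theorem arith (e d e₁ C : ℕ) (hd : 1 ≤ d) (h : (C + 1) * e ≤ e₁ * (d * C + C + 1)) :
    e ≤ 2 * d * e₁ := by
  have h1 : (C + 1) * e ≤ (C + 1) * (2 * d * e₁) := by
    calc (C + 1) * e ≤ e₁ * (d * C + C + 1) := h
      _ ≤ e₁ * (2 * d * (C + 1)) := by
        apply Nat.mul_le_mul_left
        nlinarith [Nat.mul_le_mul_right (C + 1) hd]
      _ = (C + 1) * (2 * d * e₁) := by ring
  exact Nat.le_of_mul_le_mul_left h1 (Nat.succ_pos C)

end T3BZ1M

open T3BZ1M in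
/-- (BZ1) Bezout's inequality on a curve. -/
theorem yBZ1 : StmtNN → StmtUpF → StmtXUpW → StmtXLB → StmtBZ1 := by
  intro hNN _ hUp hLB K E _ _ _ _ κ n y w d e₁ hfin hA hd hD hw
  by_cases he : Module.finrank (IntermediateField.adjoin κ {w}) E = 0
  · rw [he]
    exact Nat.zero_le _
  have hfw : Module.Finite (IntermediateField.adjoin κ {w}) E :=
    Module.finite_of_finrank_pos (Nat.pos_of_ne_zero he)
  obtain ⟨s, A, hl, W, hW, hV⟩ := hNN K κ E n y
  change AlgebraicIndependent κ (lc A y) at hl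
  change ∀ a : ℕ, Vd κ y a ≤ W * Vd κ (lc A y) a at hV
  have hfl := T3XBZM.fin_of_le y (lc A y) W hW hV hfin
  have hwa : AlgebraicIndependent κ (Fin.cons w (fun i : Fin 0 => i.elim0) : Fin 1 → E) := by
    let _ : Unique (Fin (0 + 1)) := inferInstanceAs (Unique (Fin 1))
    exact algebraicIndependent_unique_type_iff.2 hw
  have hrange : Set.range (Fin.cons w (fun i : Fin 0 => i.elim0) : Fin 1 → E) = {w} := by
    ext z
    constructor
    · rintro ⟨i, rfl⟩
      have hi : i = (0 : Fin 1) := Fin.fin_one_eq_zero i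
      rw [hi]
      rfl
    · intro hz
      exact ⟨0, (Set.mem_singleton_iff.1 hz).symm⟩
  have hs : s = 1 := by
    have hb1 := T3XBZM.basis_of (lc A y) hl hfl
    have hb2 : IsTranscendenceBasis κ (Fin.cons w (fun i : Fin 0 => i.elim0) : Fin 1 → E) := by
      apply T3XBZM.basis_of _ hwa
      rw [hrange]
      exact hfw
    have hc := hb1.cardinalMk_eq hb2
    rw [Cardinal.mk_fintype, Cardinal.mk_fintype, Nat.cast_inj, Fintype.card_fin,
      Fintype.card_fin] at hc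
    exact hc
  subst hs
  obtain ⟨e, θ, hθ, hee⟩ := T3XBZM.ex_basis (IntermediateField.adjoin κ {w}) hfw
  rw [hee]
  obtain ⟨b, hb, W₀, hW₀, hbw⟩ := hD
  let Θ : Submodule κ E := Submodule.span κ (Set.range θ)
  have hΘ : Θ.FG := Submodule.fg_span (Set.finite_range θ)
  have hWW : (Θ * W₀ * W).FG := (hΘ.mul hW₀).mul hW
  obtain ⟨C, hC⟩ := hUp κ E 1 (lc A y) (Θ * W₀ * W) hl hWW hfl
  have hset : insert w (Set.range (fun i : Fin 0 => (i.elim0 : E))) = {w} := by
    rw [Set.range_eq_empty, insert_empty_eq]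
  have hlin := hLB κ E 0 e (fun i : Fin 0 => i.elim0) w θ hwa (by rw [hset]; exact hθ) 0 C
  set S : Submodule κ E := Θ * W₀ * W * Vd κ (lc A y) (d * C) with hS
  have hSf : Module.Finite κ S := Module.Finite.iff_fg.2 (hWW.mul (T3XBZM.Vd_fg _ _))
  let emb : Fin (C + 1) × Fin e →
      {β : Fin 0 → ℕ // ∑ i, β i ≤ 0} × Fin (C + 1) × Fin e :=
    fun t => (⟨fun i => i.elim0, by simp⟩, t)
  have hemb : Function.Injective emb := fun t t' h => congrArg Prod.snd h
  have hlin2 := hlin.comp emb hemb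
  have hne : b ^ C ≠ 0 := pow_ne_zero _ hb
  have hlin3 := hlin2.map' (LinearMap.mulLeft κ (b ^ C))
    (LinearMap.ker_eq_bot_of_injective fun u v huv => mul_left_cancel₀ hne huv)
  have hmem : ∀ t, (LinearMap.mulLeft κ (b ^ C) ∘
      (fun t : {β : Fin 0 → ℕ // ∑ i, β i ≤ 0} × Fin (C + 1) × Fin e =>
        θ t.2.2 * (∏ i, (fun i : Fin 0 => (i.elim0 : E)) i ^ (t.1 : Fin 0 → ℕ) i) *
          w ^ (t.2.1 : ℕ)) ∘ emb) t ∈ S := by
    rintro ⟨i, k⟩
    have h5 : (LinearMap.mulLeft κ (b ^ C) ∘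
      (fun t : {β : Fin 0 → ℕ // ∑ i, β i ≤ 0} × Fin (C + 1) × Fin e =>
        θ t.2.2 * (∏ i, (fun i : Fin 0 => (i.elim0 : E)) i ^ (t.1 : Fin 0 → ℕ) i) *
          w ^ (t.2.1 : ℕ)) ∘ emb) (i, k) = θ k * (b ^ C * w ^ (i : ℕ)) := by
      change b ^ C * (θ k * (∏ i : Fin 0, (i.elim0 : E) ^ (i.elim0 : ℕ)) * w ^ (i : ℕ)) = _
      rw [Finset.univ_eq_empty, Finset.prod_empty]
      ring
    rw [h5]
    have h6 : Θ * (W₀ * Vd κ y (d * C)) ≤ S := by
      rw [hS, mul_assoc (Θ * W₀), mul_assoc Θ]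
      exact mul_le_mul' le_rfl (mul_le_mul' le_rfl (hV (d * C)))
    exact h6 (Submodule.mul_mem_mul (Submodule.subset_span ⟨k, rfl⟩)
      (hbw C i (Nat.lt_succ_iff.1 i.2)))
  have hv : LinearIndependent κ (fun t => (⟨_, hmem t⟩ : S)) := by
    apply LinearIndependent.of_comp S.subtype
    exact hlin3
  have h7 := hv.fintype_card_le_finrank
  rw [Fintype.card_prod, Fintype.card_fin, Fintype.card_fin] at h7
  have h8 := (h7.trans (hC (d * C))).trans (Nat.mul_le_mul (hA A) (cnt_one (d * C + C)))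
  exact arith e d e₁ C hd h8

end Pool.Agent.Lib.MP_16285c_agX
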