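import Pool.Agent.Lib.MP_16285c_agX.T3.SpecA
import Pool.Agent.Lib.MP_16285c_agN.T3.XSecII

/-!
# ZD3X: the second family of sections

Proof of `StmtSecXII` of `T3/SpecA.lean`.
-/

set_option autoImplicit false

namespace Pool.Agent.Lib.MP_16285c_agX

open Pool.Agent.Lib.MP_16285c_ag Pool.Agent.Lib.MP_16285c_agN

namespace T3SecXIIM

section fields

variable {K E : Type} [Field K] [Field E] [Algebra K E]

open scoped IntermediateField.algebraAdjoinAdjoin

theorem alg_of_adjoin (S : Set E) (h : Algebra.IsAlgebraic (IntermediateField.adjoin K S) E) :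
    Algebra.IsAlgebraic (Algebra.adjoin K S) E :=
  Algebra.IsAlgebraic.trans (Algebra.adjoin K S) (IntermediateField.adjoin K S) E

theorem fin_mono {L₁ L₂ : IntermediateField K E} (h : L₁ ≤ L₂)
    (h1 : Module.Finite L₁ E) : Module.Finite L₂ E := by
  obtain ⟨s, hs⟩ := h1
  refine ⟨s, eq_top_iff.2 ?_⟩
  rintro x -
  have hx : x ∈ Submodule.span L₁ (s : Set E) := by
    rw [hs]
    exact Submodule.mem_top
  induction hx using Submodule.span_induction with
  | zero => exact Submodule.zero_mem _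
  | add a b _ _ ha hb => exact Submodule.add_mem _ ha hb
  | mem a ha => exact Submodule.subset_span ha
  | smul c a _ ha => exact Submodule.smul_mem _ (⟨(c : E), h c.2⟩ : L₂) ha

theorem alg_mono {L₁ L₂ : IntermediateField K E} (h : L₁ ≤ L₂)
    (h1 : Algebra.IsAlgebraic L₁ E) : Algebra.IsAlgebraic L₂ E :=
  ⟨fun x => IsAlgebraic.tower_top_of_subalgebra_le (A := L₁.toSubalgebra) (B := L₂.toSubalgebra) h
    (h1.isAlgebraic x)⟩

/-- A field generated by finitely many elements algebraic over `F` is finite over `F`. -/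
theorem fin_of_int {n : ℕ} (ξ : Fin n → E) (hgen : IntermediateField.adjoin K (Set.range ξ) = ⊤)
    (F : IntermediateField K E) (h : ∀ i, IsIntegral F (ξ i)) : Module.Finite F E := by
  have htop : IntermediateField.adjoin F (Set.range ξ) = ⊤ := by
    rw [eq_top_iff]
    rintro z -
    have h1 : IntermediateField.adjoin K (Set.range ξ) ≤
        (IntermediateField.adjoin F (Set.range ξ)).restrictScalars K := by
      rw [IntermediateField.adjoin_le_iff]
      exact IntermediateField.subset_adjoin F _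
    rw [hgen] at h1
    exact h1 (IntermediateField.mem_top (x := z))
  have hfd : FiniteDimensional F (IntermediateField.adjoin F (Set.range ξ)) :=
    IntermediateField.finiteDimensional_adjoin (fun z hz => by
      obtain ⟨i, rfl⟩ := hz
      exact h i)
  rw [htop] at hfd
  exact Module.Finite.equiv (IntermediateField.topEquiv (F := F) (E := E)).toLinearEquiv

theorem fin_x (ξ : Fin 4 → E) (hξ : Stp K ξ) :
    Module.Finite (IntermediateField.adjoin K (Set.range fun i : Fin 3 => ξ i.succ)) E := by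
  refine fin_of_int ξ hξ.gen _ ?_
  have hx : ∀ i : Fin 3, ξ i.succ ∈
      IntermediateField.adjoin K (Set.range fun i : Fin 3 => ξ i.succ) :=
    fun i => IntermediateField.subset_adjoin K _ ⟨i, rfl⟩
  intro i
  refine Fin.cases ?_ (fun j => ?_) i
  · obtain ⟨P, hP, hev⟩ := hξ.int
    let φ : Pl 3 K →+* IntermediateField.adjoin K (Set.range fun i : Fin 3 => ξ i.succ) :=
      ((MvPolynomial.aeval (fun i : Fin 3 => (⟨ξ i.succ, hx i⟩ :
        IntermediateField.adjoin K (Set.range fun i : Fin 3 => ξ i.succ))) : Pl 3 K →ₐ[K]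
        IntermediateField.adjoin K (Set.range fun i : Fin 3 => ξ i.succ)) : Pl 3 K →+*
        IntermediateField.adjoin K (Set.range fun i : Fin 3 => ξ i.succ))
    refine ⟨P.map φ, hP.map φ, ?_⟩
    rw [Polynomial.eval₂_map]
    have h1 : (algebraMap (IntermediateField.adjoin K (Set.range fun i : Fin 3 => ξ i.succ)) E).comp
        φ = ((MvPolynomial.aeval (fun i : Fin 3 => ξ i.succ) : Pl 3 K →ₐ[K] E) : Pl 3 K →+* E) := by
      apply MvPolynomial.ringHom_ext
      · intro c
        simp only [φ, RingHom.comp_apply, RingHom.coe_coe, MvPolynomial.aeval_C]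
        rfl
      · intro j
        simp only [φ, RingHom.comp_apply, RingHom.coe_coe, MvPolynomial.aeval_X]
        rfl
    rw [h1]
    exact hev
  · exact isIntegral_algebraMap (x := (⟨ξ j.succ, hx j⟩ :
      IntermediateField.adjoin K (Set.range fun i : Fin 3 => ξ i.succ)))

theorem trdeg3 (ξ : Fin 4 → E) (hξ : Stp K ξ) : Algebra.trdeg K E = 3 := by
  have h1 := fin_x ξ hξ
  have h3 := alg_of_adjoin (K := K) (E := E) (Set.range fun i : Fin 3 => ξ i.succ) inferInstance
  have hb : IsTranscendenceBasis K (fun i : Fin 3 => ξ i.succ) :=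
    isTranscendenceBasis_iff_algebraicIndependent_isAlgebraic.2 ⟨hξ.ai, h3⟩
  rw [← hb.cardinalMk_eq_trdeg]
  simp

/-- Three elements which generate a subfield over which `E` is algebraic are algebraically independent. -/
theorem alg_ind3 (ξ : Fin 4 → E) (hξ : Stp K ξ) (y : Fin 3 → E)
    (h : Algebra.IsAlgebraic (IntermediateField.adjoin K (Set.range y)) E) :
    AlgebraicIndependent K y := by
  have := alg_of_adjoin _ h
  exact (Algebra.IsAlgebraic.isTranscendenceBasis_of_le_trdeg_of_finite K y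
    (by rw [trdeg3 ξ hξ]; simp)).1

/-- `E` is finite over the field generated by three algebraically independent elements. -/
theorem fin_of_ind (ξ : Fin 4 → E) (hξ : Stp K ξ) (y : Fin 3 → E) (hy : AlgebraicIndependent K y) :
    Module.Finite (IntermediateField.adjoin K (Set.range y)) E := by
  have hb : IsTranscendenceBasis K y :=
    hy.isTranscendenceBasis_of_trdeg_le_of_finite (by rw [trdeg3 ξ hξ]; simp)
  have halg := hb.isAlgebraic
  refine fin_of_int ξ hξ.gen _ fun i => ?_
  have h1 : IsAlgebraic (Algebra.adjoin K (Set.range y)) (ξ i) := halg.isAlgebraic _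
  have h2 : IsAlgebraic (IntermediateField.adjoin K (Set.range y)) (ξ i) :=
    IsAlgebraic.tower_top_of_subalgebra_le (A := Algebra.adjoin K (Set.range y))
      (B := (IntermediateField.adjoin K (Set.range y)).toSubalgebra)
      (IntermediateField.algebra_adjoin_le_adjoin K _) h1
  exact h2.isIntegral

theorem ind_pow (ξ : Fin 4 → E) (hξ : Stp K ξ) (ρ : E →ₐ[K] E) (m : ℕ) :
    AlgebraicIndependent K (fun i : Fin 3 => (ρ ^ m) (ξ i.succ)) := by
  have h := hξ.ai.map' (f := ρ ^ m) (ρ ^ m).toRingHom.injective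
  exact h

theorem one_le_tp (ξ : Fin 4 → E) (hξ : Stp K ξ) (ρ : E →ₐ[K] E) :
    1 ≤ Module.finrank ρ.fieldRange E := by
  have h1 := fin_of_ind ξ hξ _ (ind_pow ξ hξ ρ 1)
  have h2 : IntermediateField.adjoin K (Set.range fun i : Fin 3 => (ρ ^ 1) (ξ i.succ)) ≤
      ρ.fieldRange := by
    rw [IntermediateField.adjoin_le_iff]
    rintro _ ⟨i, rfl⟩
    show (ρ ^ 1) (ξ i.succ) ∈ ρ.fieldRange
    rw [pow_one]
    exact ⟨ξ i.succ, rfl⟩
  have h3 := fin_mono h2 h1
  exact Module.finrank_pos

theorem Tu_eq (u : K) (g : Fin 3 → E) :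
    Tu K u g = 1 + ∑ j : Fin 3, algebraMap K E (u ^ ((j : ℕ) + 1)) * g j := by
  rw [Tu, luN, Fin.sum_univ_succ]
  congr 1
  · simp
  · refine Finset.sum_congr rfl fun j _ => ?_
    rw [Fin.cons_succ, Fin.val_succ, map_pow]

theorem T_tr (ξ : Fin 4 → E) (hξ : Stp K ξ) (g : Fin 3 → E)
    (hg : AlgebraicIndependent K g) (u : K) (hu : u ≠ 0) : Transcendental K (Tu K u g) := by
  have hfin := fin_of_ind ξ hξ g hg
  obtain ⟨T, hT⟩ : ∃ T, T = Tu K u g := ⟨_, rfl⟩
  have hT' := Tu_eq u g
  rw [← hT, Fin.sum_univ_three] at hT'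
  rw [← hT]
  let y : Fin 3 → E := ![T, g 1, g 2]
  have hle : IntermediateField.adjoin K (Set.range g) ≤ IntermediateField.adjoin K (Set.range y) := by
    rw [IntermediateField.adjoin_le_iff]
    rintro _ ⟨i, rfl⟩
    have h0 : T ∈ IntermediateField.adjoin K (Set.range y) :=
      IntermediateField.subset_adjoin K _ ⟨0, rfl⟩
    have h1 : g 1 ∈ IntermediateField.adjoin K (Set.range y) :=
      IntermediateField.subset_adjoin K _ ⟨1, rfl⟩
    have h2 : g 2 ∈ IntermediateField.adjoin K (Set.range y) :=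
      IntermediateField.subset_adjoin K _ ⟨2, rfl⟩
    have hu' : algebraMap K E u ≠ 0 := (map_ne_zero _).2 hu
    have h3 : g 0 = (T - 1 - algebraMap K E (u ^ 2) * g 1 -
        algebraMap K E (u ^ 3) * g 2) / algebraMap K E u := by
      rw [eq_div_iff hu', hT']
      simp only [Fin.val_zero, Fin.val_one, Fin.val_two, zero_add, pow_one]
      ring
    fin_cases i
    · show g 0 ∈ _
      rw [h3]
      exact div_mem (sub_mem (sub_mem (sub_mem h0 (one_mem _))
        (mul_mem (IntermediateField.algebraMap_mem _ _) h1))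
        (mul_mem (IntermediateField.algebraMap_mem _ _) h2)) (IntermediateField.algebraMap_mem _ _)
    · exact h1
    · exact h2
  have h4 : AlgebraicIndependent K y := alg_ind3 ξ hξ y (alg_mono hle inferInstance)
  exact h4.transcendental 0

theorem trdeg_one (T : E) (hT : Transcendental K T) :
    Algebra.trdeg K (IntermediateField.adjoin K {T}) = 1 := by
  let T' : IntermediateField.adjoin K {T} := ⟨T, IntermediateField.mem_adjoin_simple_self K T⟩
  have hT' : Transcendental K T' := by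
    intro h
    apply hT
    exact h.algHom (IntermediateField.adjoin K {T}).val
  have h1 : AlgebraicIndependent K (fun _ : Fin 1 => T') := algebraicIndependent_unique_type_iff.2 hT'
  have h2 : Algebra.IsAlgebraic (Algebra.adjoin K (Set.range fun _ : Fin 1 => T'))
      (IntermediateField.adjoin K {T}) := by
    constructor
    intro x
    obtain ⟨r, s, hrs⟩ := (IntermediateField.mem_adjoin_simple_iff K (x : E)).1 x.2
    have h3 : x = Polynomial.aeval T' r / Polynomial.aeval T' s := by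
      apply Subtype.ext
      rw [hrs]
      have h4 : ∀ q : Polynomial K, ((Polynomial.aeval T' q : IntermediateField.adjoin K {T}) : E) =
          Polynomial.aeval T q := by
        intro q
        exact (Polynomial.aeval_algHom_apply (IntermediateField.adjoin K {T}).val T' q).symm
      rw [← h4, ← h4]
      rfl
    have h5 : ∀ q : Polynomial K, Polynomial.aeval T' q ∈
        Algebra.adjoin K (Set.range fun _ : Fin 1 => T') := by
      intro q
      refine Algebra.adjoin_mono ?_ (Polynomial.aeval_mem_adjoin_singleton K T')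
      rw [Set.singleton_subset_iff]
      exact Set.mem_range_self (0 : Fin 1)
    rw [h3, div_eq_mul_inv]
    exact (isAlgebraic_algebraMap (⟨_, h5 r⟩ : Algebra.adjoin K (Set.range fun _ : Fin 1 => T'))).mul
      (isAlgebraic_algebraMap (⟨_, h5 s⟩ : Algebra.adjoin K (Set.range fun _ : Fin 1 => T'))).inv
  have h3 := (isTranscendenceBasis_iff_algebraicIndependent_isAlgebraic.2 ⟨h1, h2⟩).cardinalMk_eq_trdeg
  rw [← h3]
  simp

theorem trdeg_two (ξ : Fin 4 → E) (hξ : Stp K ξ) (T : E) (hT : Transcendental K T) :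
    Algebra.trdeg (IntermediateField.adjoin K {T}) E = 2 := by
  have h := _root_.trdeg_add_eq K (IntermediateField.adjoin K {T}) (A := E)
  rw [trdeg_one T hT, trdeg3 ξ hξ] at h
  have h2 : (1 : Cardinal) + Algebra.trdeg (IntermediateField.adjoin K {T}) E = 1 + 2 := by
    rw [h]
    norm_num
  exact Cardinal.eq_of_add_eq_add_left h2 (Cardinal.one_lt_aleph0)

theorem adj_eq (T : E) (S : Set E) :
    (IntermediateField.adjoin (IntermediateField.adjoin K {T}) S).restrictScalars K =
      IntermediateField.adjoin K (insert T S) :=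
  IntermediateField.adjoin_adjoin_left K {T} S

theorem finrank_adj (T : E) (S : Set E) :
    Module.finrank (IntermediateField.adjoin (IntermediateField.adjoin K {T}) S) E =
      Module.finrank (IntermediateField.adjoin K (insert T S)) E := by
  rw [← adj_eq]
  rfl

/-- All elements are quotients of values of polynomials at `ξ`. -/
theorem frac {n : ℕ} (ξ : Fin n → E) (hgen : IntermediateField.adjoin K (Set.range ξ) = ⊤) (z : E) :
    ∃ a b : Pl n K, z = MvPolynomial.aeval ξ a / MvPolynomial.aeval ξ b := by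
  have h : z ∈ IntermediateField.adjoin K (Set.range ξ) := by
    rw [hgen]
    exact IntermediateField.mem_top
  exact (IntermediateField.mem_adjoin_range_iff K ξ z).1 h

end fields

section main

variable {K E : Type} [Field K] [Field E] [Algebra K E]

/-- The generators of `W`. -/
noncomputable def gv (z₀ lx : E) (mu : Fin 2 → E) {e : ℕ} (θ : Fin e → E) (j p : ℕ)
    (x : {β : Fin 2 → ℕ // ∑ i, β i ≤ j} × Fin (p + 1) × Fin e) : E :=
  z₀ ^ j * (θ x.2.2 * (∏ i, mu i ^ (x.1 : Fin 2 → ℕ) i) * lx ^ (x.2.1 : ℕ))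

theorem lin_mem (κ : IntermediateField K E) (z : Fin 3 → E) (B : Fin 2 → Fin 3 → K)
    (j : ℕ) (β : Fin 2 → ℕ) (hβ : ∑ i, β i ≤ j) : ∏ i, lc B z i ^ β i ∈ Vd κ z j := by
  have h1 : MvPolynomial.aeval z (∏ i, (∑ l, MvPolynomial.C (algebraMap K κ (B i l)) *
      MvPolynomial.X l) ^ β i : MvPolynomial (Fin 3) κ) = ∏ i, lc B z i ^ β i := by
    rw [map_prod]
    refine Finset.prod_congr rfl fun i _ => ?_
    rw [map_pow, map_sum, lc]
    congr 1
    refine Finset.sum_congr rfl fun l _ => ?_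
    rw [map_mul, MvPolynomial.aeval_C, MvPolynomial.aeval_X,
      ← IsScalarTower.algebraMap_apply K κ E]
  rw [← h1]
  apply T3XSecIIM.vd_mem
  refine (MvPolynomial.totalDegree_finsetProd _ _).trans (le_trans ?_ hβ)
  refine Finset.sum_le_sum fun i _ => ?_
  refine (MvPolynomial.totalDegree_pow _ _).trans ?_
  have h2 : (∑ l, MvPolynomial.C (algebraMap K κ (B i l)) * MvPolynomial.X l :
      MvPolynomial (Fin 3) κ).totalDegree ≤ 1 := by
    refine MvPolynomial.totalDegree_finsetSum_le fun l _ => ?_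
    refine (MvPolynomial.totalDegree_mul _ _).trans ?_
    rw [MvPolynomial.totalDegree_C, MvPolynomial.totalDegree_X]
  calc β i * _ ≤ β i * 1 := Nat.mul_le_mul_left _ h2
    _ = β i := mul_one _

theorem pow_mem' (κ : IntermediateField K E) (w : E) (p r : ℕ) (hr : r ≤ p) :
    w ^ r ∈ Vd κ (fun _ : Fin 1 => w) p := by
  have h1 : MvPolynomial.aeval (fun _ : Fin 1 => w) (MvPolynomial.X 0 ^ r : MvPolynomial (Fin 1) κ) =
      w ^ r := by
    rw [map_pow, MvPolynomial.aeval_X]
  rw [← h1]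
  apply T3XSecIIM.vd_mem
  rw [MvPolynomial.totalDegree_X_pow]
  exact hr

/-- The inclusion `W ⊆ V`. -/
theorem incl (κ : IntermediateField K E) (z : Fin 3 → E) (z₀ lx : E) (B : Fin 2 → Fin 3 → K) {e : ℕ}
    (θ : Fin e → E) (j p : ℕ) :
    ∀ w ∈ Submodule.span K (Set.range (gv z₀ lx (lc B z) θ j p)),
      w ∈ (Submodule.span κ (Set.range θ) * Vd κ z j *
        Vd κ (fun _ : Fin 1 => lx) p).map (LinearMap.mulLeft κ (z₀ ^ j)) := by
  intro w hw
  have h : Submodule.span K (Set.range (gv z₀ lx (lc B z) θ j p)) ≤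
      ((Submodule.span κ (Set.range θ) * Vd κ z j *
        Vd κ (fun _ : Fin 1 => lx) p).map (LinearMap.mulLeft κ (z₀ ^ j))).restrictScalars K := by
    rw [Submodule.span_le]
    rintro _ ⟨x, rfl⟩
    exact ⟨_, Submodule.mul_mem_mul (Submodule.mul_mem_mul (Submodule.subset_span ⟨x.2.2, rfl⟩)
      (lin_mem κ z B j x.1.1 x.1.2)) (pow_mem' κ lx p _ (Nat.lt_succ_iff.1 x.2.1.2)), rfl⟩
  exact h hw

/-- The elements of `W` are integral. -/
theorem gv_mem (R : Subring E) (hK : ∀ c : K, algebraMap K E c ∈ R) (z : Fin 3 → E) (z₀ lx : E)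
    (B : Fin 2 → Fin 3 → K) {e : ℕ} (θ : Fin e → E) (j p : ℕ) (h0 : z₀ ∈ R)
    (hz : ∀ i, z₀ * z i ∈ R) (hl : lx ∈ R) (hθ : ∀ k, θ k ∈ R) :
    ∀ w ∈ Submodule.span K (Set.range (gv z₀ lx (lc B z) θ j p)), w ∈ R := by
  intro w hw
  induction hw using Submodule.span_induction with
  | zero => exact R.zero_mem
  | add x y _ _ hx hy => exact R.add_mem hx hy
  | smul a x _ hx =>
    rw [Algebra.smul_def]
    exact R.mul_mem (hK a) hx
  | mem _ hx =>
    obtain ⟨x, rfl⟩ := hx
    have h1 : ∀ i, z₀ * lc B z i ∈ R := by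
      intro i
      rw [lc, Finset.mul_sum]
      refine sum_mem fun l _ => ?_
      have h2 : z₀ * (algebraMap K E (B i l) * z l) = algebraMap K E (B i l) * (z₀ * z l) := by ring
      rw [h2]
      exact R.mul_mem (hK _) (hz l)
    have h2 : gv z₀ lx (lc B z) θ j p x = θ x.2.2 * lx ^ (x.2.1 : ℕ) *
        (z₀ ^ (j - ∑ i, x.1.1 i) * ∏ i, (z₀ * lc B z i) ^ x.1.1 i) := by
      have h3 : z₀ ^ j = z₀ ^ (j - ∑ i, x.1.1 i) * z₀ ^ (∑ i, x.1.1 i) := by
        rw [← pow_add, Nat.sub_add_cancel x.1.2]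
      have h4 : ∏ i, (z₀ * lc B z i) ^ x.1.1 i = z₀ ^ (∑ i, x.1.1 i) * ∏ i, lc B z i ^ x.1.1 i := by
        rw [← Finset.prod_pow_eq_pow_sum, ← Finset.prod_mul_distrib]
        exact Finset.prod_congr rfl fun i _ => mul_pow _ _ _
      rw [gv, h3, h4]
      ring
    rw [h2]
    exact R.mul_mem (R.mul_mem (hθ _) (R.pow_mem hl _))
      (R.mul_mem (R.pow_mem h0 _) (prod_mem fun i _ => R.pow_mem (h1 i) _))

/-- The elements of `W` are values of forms. -/
theorem form (ξ : Fin 4 → E) (z : Fin 3 → E) (z₀ : E) (lx : Pl 4 K) (hlx : lx.totalDegree ≤ 1)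
    (B : Fin 2 → Fin 3 → K) {e : ℕ} (t : Fin e → Pl 4 K) (c : ℕ) (ht : ∀ k, (t k).totalDegree ≤ c)
    (j p : ℕ) :
    ∀ S ∈ Submodule.span K (Set.range (gv z₀ (MvPolynomial.aeval ξ lx) (lc B z)
      (fun k => MvPolynomial.aeval ξ (t k)) j p)), ∃ G : MvPolynomial (Fin 4) (Pl 4 K),
      G.IsHomogeneous j ∧ (∀ α, (G.coeff α).totalDegree ≤ c + p) ∧
      z₀ ^ j * MvPolynomial.eval₂ ((MvPolynomial.aeval ξ : Pl 4 K →ₐ[K] E) : Pl 4 K →+* E)
        (Fin.cons 1 z : Fin 4 → E) G = S := by
  intro S hS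
  induction hS using Submodule.span_induction with
  | zero =>
    refine ⟨0, MvPolynomial.isHomogeneous_zero _ _ _, fun α => ?_, ?_⟩
    · rw [MvPolynomial.coeff_zero, MvPolynomial.totalDegree_zero]
      exact Nat.zero_le _
    · rw [MvPolynomial.eval₂_zero, mul_zero]
  | add x y _ _ hx hy =>
    obtain ⟨G, h1, h2, h3⟩ := hx
    obtain ⟨G', h1', h2', h3'⟩ := hy
    refine ⟨G + G', h1.add h1', fun α => ?_, by rw [MvPolynomial.eval₂_add, mul_add, h3, h3']⟩
    rw [MvPolynomial.coeff_add]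
    exact (MvPolynomial.totalDegree_add _ _).trans (max_le (h2 α) (h2' α))
  | smul a x _ hx =>
    obtain ⟨G, h1, h2, h3⟩ := hx
    refine ⟨MvPolynomial.C (MvPolynomial.C a) * G, ?_, fun α => ?_, ?_⟩
    · have h4 := (MvPolynomial.isHomogeneous_C (Fin 4) (MvPolynomial.C a : Pl 4 K)).mul h1
      rwa [zero_add] at h4
    · rw [MvPolynomial.coeff_C_mul]
      refine (MvPolynomial.totalDegree_mul _ _).trans ?_
      rw [MvPolynomial.totalDegree_C, zero_add]
      exact h2 α
    · rw [MvPolynomial.eval₂_mul, MvPolynomial.eval₂_C, RingHom.coe_coe, MvPolynomial.aeval_C,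
        Algebra.smul_def, ← h3]
      ring
  | mem _ hx =>
    obtain ⟨x, rfl⟩ := hx
    let H : MvPolynomial (Fin 4) K := MvPolynomial.X 0 ^ (j - ∑ i, x.1.1 i) *
      ∏ i, (∑ l, MvPolynomial.C (B i l) * MvPolynomial.X (Fin.succ l)) ^ x.1.1 i
    have hlin : ∀ i, (∑ l, MvPolynomial.C (B i l) * MvPolynomial.X (Fin.succ l) :
        MvPolynomial (Fin 4) K).IsHomogeneous 1 := by
      intro i
      refine MvPolynomial.IsHomogeneous.sum _ _ _ fun l _ => ?_
      have h4 := (MvPolynomial.isHomogeneous_C (Fin 4) (B i l)).mul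
        (MvPolynomial.isHomogeneous_X K (Fin.succ l))
      rwa [zero_add] at h4
    have hH : H.IsHomogeneous j := by
      have h4 := ((MvPolynomial.isHomogeneous_X K (0 : Fin 4)).pow (j - ∑ i, x.1.1 i)).mul
        (MvPolynomial.IsHomogeneous.prod Finset.univ
          (fun i => (∑ l, MvPolynomial.C (B i l) * MvPolynomial.X (Fin.succ l)) ^ x.1.1 i)
          (fun i => 1 * x.1.1 i) fun i _ => (hlin i).pow (x.1.1 i))
      have h5 : 1 * (j - ∑ i, x.1.1 i) + ∑ i, 1 * x.1.1 i = j := by
        have := x.1.2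
        simp only [one_mul]
        omega
      rwa [h5] at h4
    refine ⟨MvPolynomial.C (t x.2.2 * lx ^ (x.2.1 : ℕ)) * MvPolynomial.map MvPolynomial.C H, ?_,
      fun α => ?_, ?_⟩
    · have h4 := (MvPolynomial.isHomogeneous_C (Fin 4) (t x.2.2 * lx ^ (x.2.1 : ℕ))).mul
        (hH.map MvPolynomial.C)
      rwa [zero_add] at h4
    · rw [MvPolynomial.coeff_C_mul, MvPolynomial.coeff_map]
      refine (MvPolynomial.totalDegree_mul _ _).trans ?_
      rw [MvPolynomial.totalDegree_C, add_zero]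
      refine (MvPolynomial.totalDegree_mul _ _).trans (Nat.add_le_add (ht _) ?_)
      refine (MvPolynomial.totalDegree_pow _ _).trans ?_
      calc (x.2.1 : ℕ) * lx.totalDegree ≤ (x.2.1 : ℕ) * 1 := Nat.mul_le_mul_left _ hlx
        _ ≤ p := by
          rw [mul_one]
          exact Nat.lt_succ_iff.1 x.2.1.2
    · have h6 : MvPolynomial.eval₂ ((MvPolynomial.aeval ξ : Pl 4 K →ₐ[K] E) : Pl 4 K →+* E)
          (Fin.cons 1 z : Fin 4 → E) (MvPolynomial.map MvPolynomial.C H) =
          ∏ i, lc B z i ^ x.1.1 i := by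
        rw [MvPolynomial.eval₂_map]
        simp only [H, MvPolynomial.eval₂_mul, MvPolynomial.eval₂_pow, MvPolynomial.eval₂_prod,
          MvPolynomial.eval₂_sum, MvPolynomial.eval₂_X, MvPolynomial.eval₂_C, Fin.cons_zero,
          Fin.cons_succ, one_pow, one_mul, RingHom.comp_apply, RingHom.coe_coe, MvPolynomial.aeval_C]
        rfl
      rw [MvPolynomial.eval₂_mul, MvPolynomial.eval₂_C, h6, RingHom.coe_coe, map_mul, map_pow, gv]
      ring

end main

end T3SecXIIM

open T3SecXIIM

theorem ySecXII : StmtXUB2 → StmtXLB → StmtSubX → StmtIntA → StmtTrX → StmtDg1 → StmtE1X → StmtE0X →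
    StmtSecXII := by
  classical
  intro hUB hLB hSub hInt hTr hDg hE1 hE0 K E _ _ _ _ ξ hξ ρ m Z₀ hZ₀ hZint d Δ Δ' hd hΔ hΔ'
  have hinf : Infinite K := CharZero.infinite K
  obtain ⟨hDg1, -, -, -, hDg5⟩ := hDg K E ξ hξ
  have hd1 : 1 ≤ d := by
    rw [hd]
    exact (hDg1 ρ m).1
  have hD1 : 1 ≤ Δ := by
    rw [hΔ]
    exact (hDg1 ρ m).2
  have hD'1 : 1 ≤ Δ' := by
    rw [hΔ']
    exact (hDg1 ρ (2 * m)).2
  have ht1 : 1 ≤ Module.finrank ρ.fieldRange E ^ m := Nat.one_le_pow _ _ (one_le_tp ξ hξ ρ)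
  obtain ⟨z, hz⟩ : ∃ z : Fin 3 → E, z = fun i : Fin 3 => (ρ ^ (2 * m)) (ξ i.succ) := ⟨_, rfl⟩
  obtain ⟨g, hg⟩ : ∃ g : Fin 3 → E, g = fun i : Fin 3 => (ρ ^ m) (ξ i.succ) := ⟨_, rfl⟩
  have hgind : AlgebraicIndependent K g := by
    rw [hg]
    exact ind_pow ξ hξ ρ m
  have hzind : AlgebraicIndependent K z := by
    rw [hz]
    exact ind_pow ξ hξ ρ (2 * m)
  rw [← hz] at hΔ' ⊢
  rw [← hg] at hΔ hd ⊢
  obtain ⟨A, B, hAB⟩ := hDg5 z
  rw [← hΔ'] at hAB
  obtain ⟨lx, hlx⟩ : ∃ lx : Pl 4 K, lx = ∑ j, MvPolynomial.C (A 0 j) * MvPolynomial.X (Fin.succ j) :=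
    ⟨_, rfl⟩
  have hLx : lc A (fun i : Fin 3 => ξ i.succ) 0 = MvPolynomial.aeval ξ lx := by
    rw [hlx, map_sum, lc]
    refine Finset.sum_congr rfl fun j _ => ?_
    rw [map_mul, MvPolynomial.aeval_C, MvPolynomial.aeval_X]
  have hlx1 : lx.totalDegree ≤ 1 := by
    rw [hlx]
    refine MvPolynomial.totalDegree_finsetSum_le fun l _ => ?_
    refine (MvPolynomial.totalDegree_mul _ _).trans ?_
    rw [MvPolynomial.totalDegree_C, MvPolynomial.totalDegree_X]
  have hfld : IntermediateField.adjoin K (Set.range (lc A fun i : Fin 3 => ξ i.succ) ∪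
      Set.range (lc B z)) =
      IntermediateField.adjoin K (insert (MvPolynomial.aeval ξ lx) (Set.range (lc B z))) := by
    congr 1
    rw [← Set.singleton_union]
    congr 1
    rw [← hLx]
    ext x
    constructor
    · rintro ⟨i, rfl⟩
      rw [Subsingleton.elim i 0]
      exact rfl
    · intro hx
      exact ⟨0, hx.symm⟩
  rw [hfld] at hAB
  have hfinM : Module.Finite (IntermediateField.adjoin K
      (insert (MvPolynomial.aeval ξ lx) (Set.range (lc B z)))) E :=
    Module.finite_of_finrank_pos (by rw [hAB]; exact hD'1)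
  have hyind : AlgebraicIndependent K (Fin.cons (MvPolynomial.aeval ξ lx) (lc B z) : Fin 3 → E) := by
    apply alg_ind3 ξ hξ
    rw [Fin.range_cons]
    infer_instance
  have hlxtr : Transcendental K (MvPolynomial.aeval ξ lx) := hyind.transcendental 0
  -- a basis of values of polynomials
  have hspan : Submodule.span (IntermediateField.adjoin K
      (insert (MvPolynomial.aeval ξ lx) (Set.range (lc B z))))
      (Set.range (fun G : Pl 4 K => MvPolynomial.aeval ξ G)) = ⊤ :=
    DegrThetaM.span_range ((MvPolynomial.aeval ξ : Pl 4 K →ₐ[K] E) : Pl 4 K →+* E)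
      (fun x => frac ξ hξ.gen x)
  obtain ⟨t, ht⟩ := DegrThetaM.exists_fam (fun G : Pl 4 K => MvPolynomial.aeval ξ G) hspan hfinM Δ'
    hAB.symm
  obtain ⟨c, hc⟩ : ∃ c : ℕ, ∀ k, (t k).totalDegree ≤ c :=
    ⟨∑ k, (t k).totalDegree, fun k => Finset.single_le_sum (f := fun k => (t k).totalDegree)
      (fun _ _ => Nat.zero_le _) (Finset.mem_univ k)⟩
  -- the ring of integral elements
  obtain ⟨R, hR⟩ : ∃ R : Subring E, ∀ w, w ∈ R ↔ IsIntegral
      (Algebra.adjoin K (Set.range fun i : Fin 3 => ξ i.succ)) w :=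
    ⟨(integralClosure (Algebra.adjoin K (Set.range fun i : Fin 3 => ξ i.succ)) E).toSubring,
      fun w => Iff.rfl⟩
  have hRI : ∀ w, w ∈ R ↔ Intx K (fun i : Fin 3 => ξ i.succ) w := fun w => by
    rw [hR, hInt K E 3 (fun i : Fin 3 => ξ i.succ) w]
  have hRA : ∀ w ∈ Algebra.adjoin K (Set.range fun i : Fin 3 => ξ i.succ), w ∈ R := fun w hw => by
    rw [hR]
    exact isIntegral_algebraMap (x := (⟨w, hw⟩ :
      Algebra.adjoin K (Set.range fun i : Fin 3 => ξ i.succ)))
  have hRK : ∀ a : K, algebraMap K E a ∈ R := fun a => hRA _ (Subalgebra.algebraMap_mem _ a)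
  have hRint : ∀ w : E, IsIntegral R w → w ∈ R := by
    intro w hw
    rw [hR]
    have h1 : IsIntegral (integralClosure
        (Algebra.adjoin K (Set.range fun i : Fin 3 => ξ i.succ)) E) w := by
      obtain ⟨P, hP, hev⟩ := hw
      let f : R →+* integralClosure (Algebra.adjoin K (Set.range fun i : Fin 3 => ξ i.succ)) E :=
        { toFun := fun a => ⟨(a : E), (hR _).1 a.2⟩
          map_one' := rfl
          map_mul' := fun _ _ => rfl
          map_zero' := rfl
          map_add' := fun _ _ => rfl }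
      refine ⟨P.map f, hP.map f, ?_⟩
      rw [Polynomial.eval₂_map]
      exact hev
    exact isIntegral_trans (R := Algebra.adjoin K (Set.range fun i : Fin 3 => ξ i.succ))
      (A := integralClosure (Algebra.adjoin K (Set.range fun i : Fin 3 => ξ i.succ)) E) w h1
  have hRξ : ∀ i, ξ i ∈ R := by
    intro i
    refine Fin.cases ?_ (fun l => ?_) i
    · exact (hRI _).2 hξ.int
    · exact hRA _ (Algebra.subset_adjoin ⟨l, rfl⟩)
  have hRP : ∀ G : Pl 4 K, MvPolynomial.aeval ξ G ∈ R := by
    intro G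
    induction G using MvPolynomial.induction_on with
    | C a =>
      rw [MvPolynomial.aeval_C]
      exact hRK a
    | add p q hp hq =>
      rw [map_add]
      exact R.add_mem hp hq
    | mul_X p i hp =>
      rw [map_mul, MvPolynomial.aeval_X]
      exact R.mul_mem hp (hRξ i)
  obtain ⟨z₀, hz₀⟩ : ∃ z₀ : E, z₀ = MvPolynomial.aeval (fun i : Fin 3 => ξ i.succ) Z₀ := ⟨_, rfl⟩
  have hz₀R : z₀ ∈ R := by
    rw [hz₀]
    apply hRA
    rw [Algebra.adjoin_range_eq_range_aeval]
    exact ⟨Z₀, rfl⟩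
  have hz₀0 : z₀ ≠ 0 := by
    rw [hz₀]
    intro h
    exact hZ₀ (hξ.ai.eq_zero_of_aeval_eq_zero Z₀ h)
  have hz₀z : ∀ i, z₀ * z i ∈ R := by
    intro i
    rw [hRI, hz₀, hz]
    exact hZint i
  refine ((hTr K E g hgind (MvPolynomial.aeval ξ lx) hlxtr).union
    (Set.finite_singleton (0 : K))).subset ?_
  intro u hu
  by_contra hcon
  simp only [Set.mem_union, Set.mem_ofPred_eq, not_or, not_not, Set.mem_singleton_iff] at hcon
  obtain ⟨hlxκ, hu0⟩ := hcon
  apply hu
  clear hu
  obtain ⟨T, hT⟩ : ∃ T, T = Tu K u g := ⟨_, rfl⟩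
  rw [← hT] at hlxκ
  rw [← hT]
  have hTtr : Transcendental K T := by
    rw [hT]
    exact T_tr ξ hξ g hgind u hu0
  have hT0 : T ≠ 0 := by
    intro h
    apply hTtr
    rw [h]
    exact isAlgebraic_zero
  have hFG : (Submodule.span (IntermediateField.adjoin K {T})
      (Set.range fun k => MvPolynomial.aeval ξ (t k))).FG :=
    Submodule.fg_span (Set.finite_range _)
  obtain ⟨C, hC⟩ := hUB K E (IntermediateField.adjoin K {T}) 3 z (MvPolynomial.aeval ξ lx)
    (Module.finrank ρ.fieldRange E ^ m * Δ) (9 * d * Δ) (by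
      have h1 := fin_of_ind ξ hξ z hzind
      have h2 : IntermediateField.adjoin K (Set.range z) ≤
          (IntermediateField.adjoin (IntermediateField.adjoin K {T}) (Set.range z)).restrictScalars
            K := by
        rw [adj_eq]
        exact IntermediateField.adjoin.mono _ _ _ (Set.subset_insert _ _)
      exact fin_mono (K := K) (L₂ := (IntermediateField.adjoin (IntermediateField.adjoin K {T})
        (Set.range z)).restrictScalars K) h2 h1)
    (trdeg_two ξ hξ T hTtr) hlxκ (by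
      intro A'
      rw [finrank_adj, hT, hz, hΔ, hg]
      exact hE0 K E ξ hξ ρ m u A') (by
      intro A'
      rw [finrank_adj]
      have h1 := hE1 K E ξ hξ ρ m u (A 0) (A' 0)
      rw [← hg, ← hd, ← hΔ, ← hT] at h1
      have h2 : insert T (insert (MvPolynomial.aeval ξ lx) (Set.range (lc A' z))) =
          {∑ j, algebraMap K E (A 0 j) * ξ j.succ, T,
            ∑ j, algebraMap K E (A' 0 j) * (ρ ^ (2 * m)) (ξ j.succ)} := by
        rw [Set.insert_comm, ← hLx]
        have h3 : Set.range (lc A' z) =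
            {∑ j, algebraMap K E (A' 0 j) * (ρ ^ (2 * m)) (ξ j.succ)} := by
          rw [hz]
          ext x
          constructor
          · rintro ⟨i, rfl⟩
            rw [Subsingleton.elim i 0]
            exact rfl
          · intro hx
            exact ⟨0, hx.symm⟩
        rw [h3]
        rfl
      rw [h2]
      exact h1) _ hFG
  refine ⟨2 * C + c + 1, fun i hi => ?_⟩
  obtain ⟨j, hj⟩ : ∃ j, j = 72 * d * Δ * i := ⟨_, rfl⟩
  obtain ⟨p, hp⟩ : ∃ p, p = 8 * Module.finrank ρ.fieldRange E ^ m * Δ * i := ⟨_, rfl⟩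
  have hVfin : Module.Finite (IntermediateField.adjoin K {T})
      (Submodule.span (IntermediateField.adjoin K {T})
        (Set.range fun k => MvPolynomial.aeval ξ (t k)) *
        Vd (IntermediateField.adjoin K {T}) z j *
        Vd (IntermediateField.adjoin K {T}) (fun _ : Fin 1 => MvPolynomial.aeval ξ lx) p :
        Submodule (IntermediateField.adjoin K {T}) E) := by
    rw [Module.Finite.iff_fg]
    exact (hFG.mul (Module.Finite.iff_fg.1 (tVd.1 _ _ _ _ _))).mul
      (Module.Finite.iff_fg.1 (tVd.1 _ _ _ _ _))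
  have hV := (Submodule.finrank_map_le (LinearMap.mulLeft (IntermediateField.adjoin K {T})
    (z₀ ^ j)) _).trans (hC j p)
  -- the dimension of `W`
  have hLI := hLB K E 2 Δ' (lc B z) (MvPolynomial.aeval ξ lx)
    (fun k => MvPolynomial.aeval ξ (t k)) hyind ht j p
  have hLI2 : LinearIndependent K (gv z₀ (MvPolynomial.aeval ξ lx) (lc B z)
      (fun k => MvPolynomial.aeval ξ (t k)) j p) := by
    have h1 : gv z₀ (MvPolynomial.aeval ξ lx) (lc B z)
        (fun k => MvPolynomial.aeval ξ (t k)) j p = (LinearMap.mulLeft K (z₀ ^ j)) ∘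
        (fun x : {β : Fin 2 → ℕ // ∑ i, β i ≤ j} × Fin (p + 1) × Fin Δ' =>
          MvPolynomial.aeval ξ (t x.2.2) * (∏ i, lc B z i ^ (x.1 : Fin 2 → ℕ) i) *
            MvPolynomial.aeval ξ lx ^ (x.2.1 : ℕ)) := rfl
    rw [h1]
    refine hLI.map' _ ?_
    rw [LinearMap.ker_eq_bot']
    intro w hw
    rw [LinearMap.mulLeft_apply, mul_eq_zero] at hw
    exact hw.resolve_left (pow_ne_zero _ hz₀0)
  have hfin2 := DegrCntM.fin 2 j
  have hft := Fintype.ofFinite {β : Fin 2 → ℕ // ∑ i, β i ≤ j}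
  have hW : Module.finrank K (Submodule.span K (Set.range (gv z₀ (MvPolynomial.aeval ξ lx) (lc B z)
      (fun k => MvPolynomial.aeval ξ (t k)) j p))) = cnt 2 j * ((p + 1) * Δ') := by
    rw [finrank_span_eq_card hLI2, Fintype.card_prod, Fintype.card_prod, Fintype.card_fin,
      Fintype.card_fin, cnt, Nat.card_eq_fintype_card]
  have hq : Δ' * i * Module.finrank (IntermediateField.adjoin K {T})
      ((Submodule.span (IntermediateField.adjoin K {T})
        (Set.range fun k => MvPolynomial.aeval ξ (t k)) *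
        Vd (IntermediateField.adjoin K {T}) z j *
        Vd (IntermediateField.adjoin K {T}) (fun _ : Fin 1 => MvPolynomial.aeval ξ lx) p).map
          (LinearMap.mulLeft (IntermediateField.adjoin K {T}) (z₀ ^ j))) <
      Module.finrank K (Submodule.span K (Set.range (gv z₀ (MvPolynomial.aeval ξ lx) (lc B z)
        (fun k => MvPolynomial.aeval ξ (t k)) j p))) := by
    rw [hW, hp]
    refine T3XSecIIM.num2 Δ' Δ (Module.finrank ρ.fieldRange E ^ m) d i C _ (cnt 2 j) hD'1 hD1 ht1
      hd1 (by omega) ?_ ?_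
    · rw [← hj, ← hp]
      exact hV
    · rw [← hj]
      exact T3XSecIIM.cnt_two j
  obtain ⟨S, hS, hS0, S', hS'R, hSS'⟩ := hSub K E R hRK hRint T hT0 _ inferInstance
    (Submodule.span K (Set.range (gv z₀ (MvPolynomial.aeval ξ lx) (lc B z)
      (fun k => MvPolynomial.aeval ξ (t k)) j p)))
    (fun w hw => ⟨incl (IntermediateField.adjoin K {T}) z z₀ (MvPolynomial.aeval ξ lx) B
      (fun k => MvPolynomial.aeval ξ (t k)) j p w hw,
      gv_mem R hRK z z₀ (MvPolynomial.aeval ξ lx) B (fun k => MvPolynomial.aeval ξ (t k)) j p hz₀R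
        hz₀z (hRP lx) (fun k => hRP (t k)) w hw⟩) (Δ' * i) hq
  obtain ⟨G, hG1, hG2, hG3⟩ := form ξ z z₀ lx hlx1 B t c hc j p S hS
  refine ⟨G, S', ?_, ?_, ?_, ?_, ?_⟩
  · rw [← hj]
    exact hG1
  · intro α
    refine (hG2 α).trans ?_
    revert hi hp ht1 hD1
    generalize Module.finrank ρ.fieldRange E ^ m = τ
    intro hD1 ht1 hi hp
    have h1 : i ≤ p := by
      rw [hp]
      exact Nat.le_mul_of_pos_left i (Nat.mul_pos (Nat.mul_pos (by norm_num) ht1) hD1)
    have h2 : 16 * τ * Δ * i = 2 * p := by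
      rw [hp]
      ring
    rw [h2]
    omega
  · intro h
    apply hS0
    rw [hSS', h, mul_zero]
  · exact (hRI _).1 hS'R
  · rw [← hz₀, ← hj, hG3]
    exact hSS'

end Pool.Agent.Lib.MP_16285c_agX
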