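import Pool.Agent.Lib.MP_16285c_agX.T3.SpecD
import Pool.Agent.Lib.MP_16285c_agX.T3.SecXII

/-!
# ZD3X: fast orbits through points over a line

Proof of `StmtFastX` of `T3/SpecD.lean`.
-/

set_option autoImplicit false

namespace Pool.Agent.Lib.MP_16285c_agX

open Pool.Agent.Lib.MP_16285c_ag Pool.Agent.Lib.MP_16285c_agN

namespace T3FastXM

theorem aeval_up {K A : Type} [Field K] [CommRing A] [Algebra K A] {n : ℕ} (y : Fin (n + 1) → A)
    (G : Pl n K) :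
    MvPolynomial.aeval y (up K n G) = MvPolynomial.aeval (fun i : Fin n => y i.succ) G := by
  rw [up, MvPolynomial.aeval_rename]
  rfl

theorem aeval_algebraMap {K K₁ Ω : Type} [Field K] [Field K₁] [Field Ω] [Algebra K K₁]
    [Algebra K Ω] [Algebra K₁ Ω] [IsScalarTower K K₁ Ω] {n : ℕ} (c : Fin n → K₁) (G : Pl n K) :
    MvPolynomial.aeval (fun i => algebraMap K₁ Ω (c i)) G =
      algebraMap K₁ Ω (MvPolynomial.aeval c G) := by
  have h := MvPolynomial.aeval_algebraMap_apply (R := K) Ω c G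
  exact h

end T3FastXM

open T3FastXM

/-- (FastX) Fast orbits through points over a line. -/
theorem yFastX : StmtRatesX → StmtRecX → LowXP → StmtDg1 → StmtDgM → StmtRl1X → StmtGenS →
    StmtFlV → StmtFastX := by
  intro hRates hRec hLow hDg1 hDgM hRl1 hGen hFlV K E _ _ _ _ P ξ ρ hirr hmon hg hlam
  have hξ : Stp K ξ := hGen.1 K E 3 P ξ hirr hmon hg
  obtain ⟨h11, -, -, -, -⟩ := hDg1 K E ξ hξ
  obtain ⟨hM1, hM2, hM3⟩ := hDgM K E ξ hξ ρ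
  have hτ : 1 ≤ Module.finrank ρ.fieldRange E := T3SecXIIM.one_le_tp ξ hξ ρ
  obtain ⟨c₀, hc₀, hrec⟩ := hRec K E ξ hξ
  obtain ⟨δ, hδ⟩ : ∃ δ, δ = (MvPolynomial.finSuccEquiv K 3 P).natDegree := ⟨_, rfl⟩
  obtain ⟨d, hd⟩ : ∃ d : ℕ → ℕ, d = fun m =>
    dgx K 2 1 (fun i : Fin 3 => ξ i.succ) (fun i : Fin 3 => (ρ ^ m) (ξ i.succ)) := ⟨_, rfl⟩
  obtain ⟨Δ, hΔ⟩ : ∃ Δ : ℕ → ℕ, Δ = fun m =>
    dgx K 1 2 (fun i : Fin 3 => ξ i.succ) (fun i : Fin 3 => (ρ ^ m) (ξ i.succ)) := ⟨_, rfl⟩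
  obtain ⟨c, hc⟩ : ∃ c, c = max c₀ δ := ⟨_, rfl⟩
  have hcc₀ : c₀ ≤ c := hc ▸ le_max_left _ _
  have hcδ : δ ≤ c := hc ▸ le_max_right _ _
  have hc1 : 1 ≤ c := hc₀.trans hcc₀
  have hd1 : ∀ m, 1 ≤ d m := fun m => by rw [hd]; exact (h11 ρ m).1
  have hΔ1 : ∀ m, 1 ≤ Δ m := fun m => by rw [hΔ]; exact (h11 ρ m).2
  obtain ⟨m, hm1, hm⟩ := hRates d Δ (Module.finrank ρ.fieldRange E)
    (9 * d 1 ^ 2 + 9 * Module.finrank
      (IntermediateField.adjoin K (Set.range fun i : Fin 3 => ξ i.succ)) E) c hτ hc1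
    (fun a b => by rw [hd]; exact hM1 a b) hd1 hΔ1
    (fun m => by
      have h := hM2 m
      rw [hd, hΔ]
      exact h.trans (Nat.mul_le_mul_right _ (Nat.le_add_left _ _)))
    (fun m => by
      have h := hM3 m
      rw [hd, hΔ]
      exact h.trans (Nat.mul_le_mul_right _ (Nat.le_add_right _ _)))
    (by rw [hd]; exact hlam)
  obtain ⟨B₁, hB₁0, hB₁⟩ := hrec ρ m (d m) (Δ m) (d (2 * m)) (Δ (2 * m)) (by rw [hd]) (by rw [hΔ])
    (by rw [hd]) (by rw [hΔ])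
  obtain ⟨B', hB'0, hB'⟩ := hLow K E P ξ hirr hmon hg (fun i : Fin 3 => (ρ ^ m) (ξ i.succ))
  have hcc₀' : (c₀ : ℝ) ≤ c := by exact_mod_cast hcc₀
  -- the chosen alternative
  obtain ⟨a, b, ha, hG, hrec'⟩ : ∃ a b : ℝ, 0 ≤ a ∧
      GdX c a b (d m) ((Module.finrank ρ.fieldRange E : ℝ) ^ m) ∧
      ∀ (Ω : Type) [Field Ω] [Algebra K Ω] (h : HtF Ω), ∃ C : ℝ, ∀ z : ℕ → Fin 4 → Ω,
        FlowX K ξ ρ z → ∀ t : ℕ, MvPolynomial.aeval (z t) B₁ ≠ 0 →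
          b * hx h (z (t + m)) ≤ hx h (z (t + 2 * m)) + a * hx h (z t) + C := by
    rcases hm with hG | hG
    · refine ⟨_, _, by positivity, hG, ?_⟩
      intro Ω _ _ h
      obtain ⟨C, hC⟩ := hB₁ Ω h
      refine ⟨C, fun z hz t ht => ((hC z hz t ht).1).trans ?_⟩
      have h0 : 0 ≤ hx h (z t) := h.nonneg _
      have h1 : 18 * (c₀ : ℝ) * Δ m * hx h (z t) ≤ 18 * (c : ℝ) * Δ m * hx h (z t) := by
        gcongr
      linarith
    · refine ⟨_, _, by positivity, hG, ?_⟩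
      intro Ω _ _ h
      obtain ⟨C, hC⟩ := hB₁ Ω h
      refine ⟨C, fun z hz t ht => ((hC z hz t ht).2).trans ?_⟩
      have h0 : 0 ≤ hx h (z t) := h.nonneg _
      have h1 : (c₀ : ℝ) * (Module.finrank ρ.fieldRange E : ℝ) ^ m / d m * hx h (z t) ≤
          (c : ℝ) * (Module.finrank ρ.fieldRange E : ℝ) ^ m / d m * hx h (z t) := by
        gcongr
      linarith
  obtain ⟨hb2, hab, habd, htb⟩ := hG
  have hup0 : MvPolynomial.aeval ξ (up K 3 B') ≠ 0 := by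
    rw [aeval_up]
    intro h0
    exact hB'0 (hξ.ai (h0.trans (map_zero _).symm))
  refine ⟨m, b, B₁ * up K 3 B', B', hm1, hb2, htb, ?_, hB'0, ?_⟩
  · intro hdvd
    have h0 := (hg.ker _).2 hdvd
    rw [map_mul] at h0
    exact (mul_ne_zero hB₁0 hup0) h0
  intro K₁ Ω _ _ _ _ _ _ _ _ h hinv cc hcc
  obtain ⟨R, hR0, hR⟩ := hB' K₁ Ω h hinv cc hcc
  refine ⟨R, hR0, fun w hw => ?_⟩
  obtain ⟨C₁, hC₁⟩ := hR w hw
  obtain ⟨C₂, hC₂⟩ := hrec' Ω h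
  obtain ⟨H₀, hH₀⟩ := hRl1 c a b (d m) C₂ C₁ (by exact_mod_cast hc1) ha
    ⟨hb2, hab, habd, by linarith⟩
  refine ⟨H₀, fun s hs hirs z hz hz0 hzB => ?_⟩
  have hB1t : ∀ t, MvPolynomial.aeval (z t) B₁ ≠ 0 := by
    intro t h0
    have := hzB t
    rw [map_mul, h0, zero_mul] at this
    exact this rfl
  have hBt0 : MvPolynomial.aeval (lptN cc w s) B' ≠ 0 := by
    intro h0
    have := hzB 0
    rw [map_mul, aeval_up] at this
    have e1 : (fun i : Fin 3 => z 0 i.succ) = fun i => algebraMap K₁ Ω (lptN cc w s i) :=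
      funext hz0
    rw [e1, aeval_algebraMap, h0, map_zero, mul_zero] at this
    exact this rfl
  have hpt : pt (lptN cc w s) (z 0 0) = z 0 := by
    funext i
    refine Fin.cases ?_ (fun j => ?_) i
    · rfl
    · exact (hz0 j).symm
  have hP0 : MvPolynomial.aeval (z 0) P = 0 :=
    (hz 0).1 P ((hg.ker P).2 dvd_rfl)
  have hV : ∀ i : Fin 3, VlX K ξ (pt (lptN cc w s) (z 0 0)) ((ρ ^ m) (ξ i.succ)) (z m i.succ) := by
    intro i
    have := hFlV K E Ω 4 ξ ρ z hz m 0 i.succ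
    rw [zero_add] at this
    rw [hpt]
    exact this
  obtain ⟨hA, hA'⟩ := hC₁ s (z 0 0) (fun i : Fin 3 => z m i.succ) hirs hBt0 (by rw [hpt]; exact hP0) hV
  rw [hpt] at hA'
  have hAA : (d m : ℝ) * h.H ![1, algebraMap K₁ Ω s] ≤ c * hx h (z m) + C₁ := by
    have h1 : (d m : ℝ) * h.H ![1, algebraMap K₁ Ω s] ≤ (δ : ℝ) * hx h (z m) + C₁ := by
      rw [hd, hδ]
      exact hA
    have h2 : (δ : ℝ) * hx h (z m) ≤ c * hx h (z m) := by
      have h0 : 0 ≤ hx h (z m) := h.nonneg _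
      have : (δ : ℝ) ≤ c := by exact_mod_cast hcδ
      gcongr
    linarith
  exact hH₀ (fun t => hx h (z t)) m (h.H ![1, algebraMap K₁ Ω s]) (fun n => h.nonneg _) hs hA' hAA
    (fun t => hC₂ z hz t (hB1t t))

end Pool.Agent.Lib.MP_16285c_agX
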