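import Pool.Agent.Lib.MP_16285c_agX.T3.SpecD
import Pool.Agent.Lib.MP_16285c_agN.Real

/-!
# `StmtFekX`: the rates of a submultiplicative sequence (up to the factor `2`)
-/

set_option autoImplicit false

namespace Pool.Agent.Lib.MP_16285c_agX

namespace T3FekXM

open Filter Topology

/-- The limit superior of the roots in `ENNReal`. -/
theorem limsup_eq {d : ℕ → ℕ} {L : ℝ} (h1 : ∀ m, 1 ≤ d m)
    (ht : Tendsto (fun m : ℕ => Real.log (d m : ℝ) / m) atTop (𝓝 L)) :
    limsup (fun m : ℕ => (d m : ENNReal) ^ ((m : ℝ)⁻¹)) atTop = ENNReal.ofReal (Real.exp L) := by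
  have he : (fun m : ℕ => (d m : ENNReal) ^ ((m : ℝ)⁻¹)) =
      fun m : ℕ => ENNReal.ofReal (Real.exp (Real.log (d m : ℝ) / m)) := by
    funext m
    have h : (0 : ℝ) < d m := by exact_mod_cast h1 m
    rw [← ENNReal.ofReal_natCast (d m), ENNReal.ofReal_rpow_of_pos h, Real.rpow_def_of_pos h,
      div_eq_mul_inv]
  rw [he]
  exact (ENNReal.tendsto_ofReal ((Real.continuous_exp.tendsto _).comp ht)).limsup_eq

end T3FekXM

open Filter Topology T3FekXM Pool.Agent.Lib.MP_16285c_agN.RealM in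
theorem yFekX : StmtFekX := by
  intro d τ hd h1 hlim
  have hd' : ∀ a b, 2 * d (a + b) ≤ 2 * d a * (2 * d b) := fun a b => by
    calc 2 * d (a + b) ≤ 2 * (2 * d a * d b) := Nat.mul_le_mul_left 2 (hd a b)
      _ = 2 * d a * (2 * d b) := by ring
  have h1' : ∀ m, 1 ≤ 2 * d m := fun m => by
    have := h1 m
    omega
  have hs := subadd (d := fun m => 2 * d m) hd' h1'
  obtain ⟨L, hL, ht, -⟩ := tends (d := fun m => 2 * d m) hd' h1'
  have hb := bdd (d := fun m => 2 * d m) h1'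
  have hLs : hs.lim = L := tendsto_nhds_unique (hs.tendsto_lim hb) ht
  have hpos : ∀ m, (0 : ℝ) < d m := fun m => by exact_mod_cast h1 m
  have hpos2 : ∀ m, (0 : ℝ) < 2 * (d m : ℝ) := fun m => mul_pos two_pos (hpos m)
  have hcast : ∀ m, ((2 * d m : ℕ) : ℝ) = 2 * (d m : ℝ) := fun m => by push_cast; ring
  -- the limit for `d`
  have ht2 : Tendsto (fun m : ℕ => Real.log (d m : ℝ) / m) atTop (𝓝 L) := by
    have h2 : Tendsto (fun m : ℕ => Real.log 2 / (m : ℝ)) atTop (𝓝 0) :=
      Tendsto.div_atTop tendsto_const_nhds tendsto_natCast_atTop_atTop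
    have h3 := ht.sub h2
    rw [sub_zero] at h3
    refine h3.congr fun m => ?_
    rw [hcast, Real.log_mul two_ne_zero (hpos m).ne', add_div]
    ring
  refine ⟨Real.exp L, ?_, ?_, ?_⟩
  · rw [limsup_eq h1 ht2, ← ENNReal.ofReal_natCast τ,
      ENNReal.ofReal_lt_ofReal_iff (Real.exp_pos L)] at hlim
    exact hlim
  · intro m
    rcases Nat.eq_zero_or_pos m with rfl | hm
    · rw [pow_zero]
      have : (1 : ℝ) ≤ d 0 := by exact_mod_cast h1 0
      linarith
    · have hm' : (0 : ℝ) < m := by exact_mod_cast hm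
      have h2 : hs.lim ≤ Real.log ((2 * d m : ℕ) : ℝ) / m := hs.lim_le_div hb hm.ne'
      rw [hLs, le_div_iff₀ hm', hcast] at h2
      rw [← Real.exp_nat_mul, ← Real.exp_log (hpos2 m), Real.exp_le_exp]
      linarith
  · intro ε hε
    have hlog : 0 < Real.log (1 + ε) := Real.log_pos (by linarith)
    have h2 : ∀ᶠ m : ℕ in atTop, Real.log (d m : ℝ) / m < L + Real.log (1 + ε) :=
      ht2.eventually_lt_const (by linarith)
    obtain ⟨m₀, hm₀⟩ := eventually_atTop.1 (h2.and (eventually_ge_atTop 1))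
    refine ⟨m₀, fun m hm => ?_⟩
    obtain ⟨h3, h4⟩ := hm₀ m hm
    have hm' : (0 : ℝ) < m := by exact_mod_cast h4
    rw [div_lt_iff₀ hm'] at h3
    have h5 : Real.exp L * (1 + ε) = Real.exp (L + Real.log (1 + ε)) := by
      rw [Real.exp_add, Real.exp_log (by linarith)]
    rw [h5, ← Real.exp_nat_mul, ← Real.exp_log (hpos m), Real.exp_le_exp]
    linarith

end Pool.Agent.Lib.MP_16285c_agX
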