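import Pool.Agent.Lib.MP_16285c_agX.T3.SpecD

/-!
# `StmtFlF`: orbits of `f` are orbits of `ρ`
-/

set_option autoImplicit false

namespace Pool.Agent.Lib.MP_16285c_agX

open Pool.Agent.Lib.MP_16285c_ag Pool.Agent.Lib.MP_16285c_agN
open Pool.Agent.Lib.MP_16285c_agS (toF)

namespace T3FlFM

/-- The values of polynomials at the generic point. -/
theorem aeval_xi {K : Type} [Field K] {n : ℕ} (𝔭 : Ideal (Pl n K)) (E : Type) [Field E]
    [Algebra (CR 𝔭) E] [Algebra K E] [IsScalarTower K (CR 𝔭) E] (G : Pl n K) :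
    MvPolynomial.aeval (fun i => toF 𝔭 E (MvPolynomial.X i)) G = toF 𝔭 E G := by
  have h : ((MvPolynomial.aeval (fun i => toF 𝔭 E (MvPolynomial.X i)) : Pl n K →ₐ[K] E) :
      Pl n K →+* E) = toF 𝔭 E := by
    refine MvPolynomial.ringHom_ext (fun a => ?_) (fun i => ?_)
    · have h1 : (MvPolynomial.aeval (fun i => toF 𝔭 E (MvPolynomial.X i)) : Pl n K →ₐ[K] E)
          (MvPolynomial.C a) = algebraMap K E a := MvPolynomial.aeval_C _ _
      have h2 : toF 𝔭 E (MvPolynomial.C a) = algebraMap K E a := by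
        rw [IsScalarTower.algebraMap_apply K (CR 𝔭) E a]
        rfl
      exact h1.trans h2.symm
    · exact MvPolynomial.aeval_X _ _
  exact DFunLike.congr_fun h G

end T3FlFM

open T3FlFM in
theorem yFlF : StmtFlF := by
  intro K _ n P _ f σ hf E _ _ _ _ _ ρ hρ Ω _ _ z hz hP t
  have hinj : Function.Injective (algebraMap (CR (Ideal.span {P})) E) :=
    IsFractionRing.injective (CR (Ideal.span {P})) E
  have h0 : ∀ G : Pl n K, toF (Ideal.span {P}) E G = 0 ↔ G ∈ Ideal.span {P} := by
    intro G
    rw [RingHom.comp_apply, map_eq_zero_iff _ hinj]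
    exact Ideal.Quotient.eq_zero_iff_mem
  refine ⟨?_, ?_⟩
  · intro G hG
    rw [aeval_xi, h0, Ideal.mem_span_singleton] at hG
    obtain ⟨c, rfl⟩ := hG
    rw [map_mul, hP t, zero_mul]
  · intro i
    obtain ⟨h1, h2⟩ := hz t i
    have e1 : ∀ G : Pl n K, MvPolynomial.eval (z t) (MvPolynomial.map (algebraMap K Ω) G) =
        MvPolynomial.aeval (z t) G := by
      intro G
      rw [MvPolynomial.eval_map, MvPolynomial.aeval_def]
    have h1' : MvPolynomial.aeval (z t) (f.den i) ≠ 0 := by
      rw [← e1]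
      exact h1
    have h2' : MvPolynomial.aeval (z t) (f.num i) =
        z (t + 1) i * MvPolynomial.aeval (z t) (f.den i) := by
      rw [← e1, ← e1]
      exact h2.symm
    refine ⟨f.num i, f.den i, h1', ?_, h2'⟩
    rw [aeval_xi, aeval_xi]
    have hR : Rsd (Ideal.span {P}) E (fr (MvPolynomial.X i))
        (toF (Ideal.span {P}) E (MvPolynomial.X i)) := by
      refine ⟨MvPolynomial.X i, 1, ?_, ?_, ?_⟩
      · exact fun h => (inferInstance : (Ideal.span {P}).IsPrime).ne_top
          ((Ideal.eq_top_iff_one _).2 h)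
      · have h9 : fr (1 : Pl n K) = 1 := map_one _
        rw [h9, mul_one]
      · have h9 : algebraMap (CR (Ideal.span {P})) E (cl (Ideal.span {P}) 1) = 1 := by
          have h10 : cl (Ideal.span {P}) (1 : Pl n K) = 1 := map_one _
          rw [h10]
          exact map_one _
        rw [h9, mul_one]
        rfl
    obtain ⟨N, D, hD, h3, h4⟩ := hρ _ _ hR
    obtain ⟨-, h5⟩ := hf i
    have h6 : f.num i * D = N * f.den i := by
      have hfr : Function.Injective
          (algebraMap (MvPolynomial (Fin n) K) (FractionRing (MvPolynomial (Fin n) K))) :=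
        IsFractionRing.injective _ _
      apply hfr
      have h7 : fr (f.num i) * fr D = fr N * fr (f.den i) := by
        rw [← h5, ← h3]
        unfold gen
        ring
      rw [map_mul, map_mul]
      exact h7
    have hD0 : toF (Ideal.span {P}) E D ≠ 0 := fun h => hD ((h0 D).1 h)
    have h8 : ρ (toF (Ideal.span {P}) E (MvPolynomial.X i)) * toF (Ideal.span {P}) E D =
        toF (Ideal.span {P}) E N := h4
    apply mul_right_cancel₀ hD0
    rw [← map_mul, h6, map_mul, ← h8]
    ring

end Pool.Agent.Lib.MP_16285c_agX
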