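import Pool.Agent.Lib.MP_16285c_agX.T3.SpecL

/-!
# Threefolds with `λ₁ > λ₃`: the lower bound for heights on lines (LowX)
-/

set_option autoImplicit false

namespace Pool.Agent.Lib.MP_16285c_agX

open Pool.Agent.Lib.MP_16285c_ag Pool.Agent.Lib.MP_16285c_agN

namespace T3LowXM

theorem fin_eval {K E : Type} [Field K] [Field E] [Algebra K E] {n : ℕ} (ξ : Fin (n + 1) → E)
    (A : Pl (n + 1) K) :
    Polynomial.eval₂ ((MvPolynomial.aeval (fun i : Fin n => ξ i.succ) : Pl n K →ₐ[K] E) :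
      Pl n K →+* E) (ξ 0) (MvPolynomial.finSuccEquiv K n A) = MvPolynomial.aeval ξ A := by
  induction A using MvPolynomial.induction_on with
  | C a => simp [MvPolynomial.finSuccEquiv_apply]
  | add p q hp hq => rw [map_add, Polynomial.eval₂_add, hp, hq, map_add]
  | mul_X p i hp =>
    rw [map_mul, map_mul, Polynomial.eval₂_mul, hp, MvPolynomial.aeval_X]
    congr 1
    refine Fin.cases ?_ (fun j => ?_) i
    · rw [MvPolynomial.finSuccEquiv_X_zero, Polynomial.eval₂_X]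
    · rw [MvPolynomial.finSuccEquiv_X_succ, Polynomial.eval₂_C]
      exact MvPolynomial.aeval_X _ _

theorem eval_sum {K E : Type} [Field K] [Field E] [Algebra K E] {n : ℕ} (t : Fin n → E) (y : E)
    (F : Polynomial (Pl n K)) :
    Polynomial.eval₂ ((MvPolynomial.aeval t : Pl n K →ₐ[K] E) : Pl n K →+* E) y F =
      ∑ i : Fin (F.natDegree + 1), MvPolynomial.aeval t (F.coeff i) * y ^ (i : ℕ) := by
  rw [Polynomial.eval₂_eq_sum_range, Finset.sum_range]
  rfl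

theorem cop {K : Type} [Field K] {n : ℕ} (F : Polynomial (Pl n K)) (hF : Irreducible F)
    (h1 : 1 ≤ F.natDegree) (c : Pl n K) (hc : ∀ i : Fin (F.natDegree + 1), c ∣ F.coeff i) : IsUnit c := by
  have h : Polynomial.C c ∣ F := by
    rw [Polynomial.C_dvd_iff_dvd_coeff]
    intro i
    by_cases hi : i < F.natDegree + 1
    · exact hc ⟨i, hi⟩
    · rw [Polynomial.coeff_eq_zero_of_natDegree_lt (by omega)]
      exact dvd_zero _
  obtain ⟨G, hG⟩ := h
  rcases hF.isUnit_or_isUnit hG with h2 | h2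
  · exact Polynomial.isUnit_C.1 h2
  · exfalso
    obtain ⟨u, -, hu⟩ := Polynomial.isUnit_iff.1 h2
    have : F.natDegree = 0 := by
      rw [hG, ← hu, ← Polynomial.C_mul, Polynomial.natDegree_C]
    omega

end T3LowXM

open T3LowXM in
theorem yLowX : StmtDg1 → StmtCfA → StmtFun → StmtNm → StmtLnI → StmtLnQ → StmtLnH → StmtLnL → StmtLnE →
    StmtLnV → StmtLnD → StmtLowX := by
  intro hDg hCf hFun hNm hI hQ hH hL hE hV hD K E _ _ _ _ P ξ hPi hPm hG g
  classical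
  obtain ⟨hai, hfin, -⟩ := hFun.2 K E 3 P ξ hPi hPm hG
  have hP0 : MvPolynomial.aeval ξ P = 0 := (hG.ker P).2 dvd_rfl
  have hStp : Stp K ξ := by
    refine ⟨hai, ⟨MvPolynomial.finSuccEquiv K 3 P, hPm, ?_⟩, hG.top⟩
    rw [fin_eval, hP0]
  obtain ⟨-, -, -, hd4, -⟩ := hDg K E ξ hStp
  obtain ⟨A, B₀, hAB⟩ := hd4 g
  set w : E := lc B₀ g 0 with hw
  obtain ⟨F, hFi, hF1, hF0, hFd, hFQ⟩ := hI K E 3 (fun i : Fin 3 => ξ i.succ) hai hfin w
  set r := F.natDegree with hr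
  set a : Fin (r + 1) → Pl 3 K := fun i => F.coeff i with ha
  have halast : a (Fin.last r) = F.leadingCoeff := rfl
  have halast0 : a (Fin.last r) ≠ 0 := by
    rw [halast]
    exact Polynomial.leadingCoeff_ne_zero.2 hFi.ne_zero
  have hcop := cop F hFi hF1
  set D : ℕ := Finset.univ.sup fun i : Fin (r + 1) => (a i).totalDegree with hDdef
  have hdeg : ∀ i, (a i).totalDegree ≤ D := fun i =>
    Finset.le_sup (f := fun i : Fin (r + 1) => (a i).totalDegree) (Finset.mem_univ i)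
  have hdegE : ∃ i, (a i).totalDegree = D := by
    obtain ⟨i, -, hi⟩ := Finset.exists_mem_eq_sup (Finset.univ : Finset (Fin (r + 1)))
      ⟨0, Finset.mem_univ _⟩ fun i => (a i).totalDegree
    exact ⟨i, hi.symm⟩
  have hdegN : ∀ i : ℕ, (F.coeff i).totalDegree ≤ D := by
    intro i
    by_cases hi : i < r + 1
    · exact hdeg ⟨i, hi⟩
    · rw [Polynomial.coeff_eq_zero_of_natDegree_lt (by omega)]
      simp
  have hdegNE : ∃ i : ℕ, (F.coeff i).totalDegree = D := by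
    obtain ⟨i, hi⟩ := hdegE
    exact ⟨i, hi⟩
  -- the degree
  have hdgx : dgx K 2 1 (fun i : Fin 3 => ξ i.succ) g ≤ D *
      Module.finrank (IntermediateField.adjoin K (insert w (Set.range fun i : Fin 3 => ξ i.succ))) E := by
    rw [← hAB]
    have h1 := (hCf K E (fun i : Fin 3 => ξ i.succ) hai hfin w F D hFi hF1 hF0 hdegN hdegNE).1 A
    have h2 : Set.range (lc A fun i : Fin 3 => ξ i.succ) ∪ Set.range (lc B₀ g) =
        insert w (Set.range (lc A fun i : Fin 3 => ξ i.succ)) := by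
      have h3 : Set.range (lc B₀ g) = {w} := by
        ext y
        constructor
        · rintro ⟨i, rfl⟩
          rw [Subsingleton.elim i 0]
          exact Set.mem_singleton _
        · rintro rfl
          exact ⟨0, rfl⟩
      rw [h3, Set.union_comm]
      rfl
    rw [h2]
    exact h1
  -- the denominator
  obtain ⟨A₁, B₁, hB₁, hwB⟩ : ∃ A B : Pl 4 K, MvPolynomial.aeval ξ B ≠ 0 ∧
      w * MvPolynomial.aeval ξ B = MvPolynomial.aeval ξ A := by
    have h1 : w ∈ IntermediateField.adjoin K (Set.range ξ) := by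
      rw [hG.top]
      exact IntermediateField.mem_top
    rw [IntermediateField.mem_adjoin_range_iff] at h1
    obtain ⟨p, q, hpq⟩ := h1
    by_cases h0 : MvPolynomial.aeval ξ q = 0
    · exact ⟨0, 1, by simp, by rw [hpq, h0]; simp⟩
    · exact ⟨p, q, h0, by rw [hpq, div_mul_cancel₀ _ h0]⟩
  have hPp : Prime P := hPi.prime
  have hb0 : nm P B₁ ≠ 0 := hNm.2.1 K 3 P B₁ hPm hPp fun h => hB₁ ((hG.ker B₁).2 h)
  obtain ⟨U, V, hUV⟩ := Ideal.mem_span_pair.1 (hNm.1 K 3 P B₁ hPm)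
  set b : Pl 3 K := nm P B₁ with hb
  have hbx : MvPolynomial.aeval (fun i : Fin 3 => ξ i.succ) b =
      MvPolynomial.aeval ξ V * MvPolynomial.aeval ξ B₁ := by
    have h1 := congrArg (MvPolynomial.aeval ξ) hUV
    rw [map_add, map_mul, map_mul, hP0, mul_zero, zero_add, MvPolynomial.aeval_rename] at h1
    exact h1.symm
  have hwb : w * MvPolynomial.aeval (fun i : Fin 3 => ξ i.succ) b = MvPolynomial.aeval ξ (V * A₁) := by
    rw [hbx, map_mul, ← hwB]
    ring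
  obtain ⟨Q, hQ1, hQ2⟩ := hQ K 3 P (V * A₁) b hPm
  obtain ⟨F', hF'⟩ := hFQ Q (hQ1 E ξ w hP0 hwb)
  have hroot : ∀ (Ω : Type) [Field Ω] [IsAlgClosed Ω] [Algebra K Ω] (t : Fin 3 → Ω) (y : Ω),
      ∑ i, MvPolynomial.aeval t (a i) * y ^ (i : ℕ) = 0 →
      ∃ ζ : Ω, MvPolynomial.aeval (Fin.cons ζ t : Fin (3 + 1) → Ω) P = 0 ∧
        y * MvPolynomial.aeval t b = MvPolynomial.aeval (Fin.cons ζ t : Fin (3 + 1) → Ω) (V * A₁) := by
    intro Ω _ _ _ t y hy
    refine hQ2 Ω t y ?_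
    rw [hF', Polynomial.eval₂_mul, eval_sum, hy, zero_mul]
  refine ⟨b * a (Fin.last r), mul_ne_zero hb0 halast0, ?_⟩
  intro K₁ Ω _ _ _ _ _ _ _ _ h hinv c hc
  rw [map_mul] at hc
  obtain ⟨R, hR0, hR⟩ := hL K K₁ 3 r D a (Fin.last r) (by norm_num) halast0 hcop hdeg hdegE c
    (right_ne_zero_of_mul hc)
  refine ⟨R, hR0, fun w' hw' => ?_⟩
  obtain ⟨C₁, hC₁⟩ := hR w' hw' Ω h
  obtain ⟨C₂, hC₂⟩ := hH K K₁ Ω h hinv 3 r P (V * A₁) b a (hroot Ω)
  obtain ⟨C₃, hC₃⟩ := hV.2 K Ω h 3 (B₀ 0)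
  obtain ⟨C₄, hC₄⟩ := hE K₁ Ω h 3 c w'
  set s₁ : ℕ := Module.finrank
    (IntermediateField.adjoin K (insert w (Set.range fun i : Fin 3 => ξ i.succ))) E with hs₁
  refine ⟨max (s₁ * (C₁ + C₂ + r * C₃)) C₄, fun s z₀ gv hirr hB hPt hVl => ⟨?_, ?_⟩⟩
  · rw [map_mul] at hB
    have hon : OnX K ξ (pt (lptN c w' s) z₀) := by
      intro G hG0
      obtain ⟨G', rfl⟩ := (hG.ker G).1 hG0
      rw [map_mul, hPt, zero_mul]
    have hren : MvPolynomial.aeval (pt (lptN c w' s) z₀) (MvPolynomial.rename Fin.succ b) =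
        MvPolynomial.aeval (fun i => algebraMap K₁ Ω (lptN c w' s i)) b := by
      rw [MvPolynomial.aeval_rename]
      rfl
    have hy := hV.1 K E Ω 4 3 ξ (pt (lptN c w' s) z₀) hon g gv hVl (B₀ 0)
      (MvPolynomial.rename Fin.succ b) (V * A₁) (by
        rw [MvPolynomial.aeval_rename]
        exact hwb)
    rw [hren] at hy
    have h1 := hC₁ s
    have h2 := hC₂ (lptN c w' s) z₀ (∑ j, algebraMap K Ω (B₀ 0 j) * gv j) hirr
      (left_ne_zero_of_mul hB) (right_ne_zero_of_mul hB) hPt hy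
    have h3 := hC₃ gv
    have h4 : (dgx K 2 1 (fun i : Fin 3 => ξ i.succ) g : ℝ) ≤ D * s₁ := by exact_mod_cast hdgx
    have h5 : ((MvPolynomial.finSuccEquiv K 3 P).natDegree : ℝ) = r * s₁ := by
      rw [← hD K E 3 P ξ hPi hPm hG, ← hFd]
      push_cast
      rfl
    have h6 := h.nonneg ![1, algebraMap K₁ Ω s]
    have hs0 : (0 : ℝ) ≤ s₁ := Nat.cast_nonneg _
    have hr0 : (0 : ℝ) ≤ r := Nat.cast_nonneg _
    rw [h5]
    have h7 : (D : ℝ) * h.H ![1, algebraMap K₁ Ω s] ≤ r * (h.H (hcN gv) + C₃) + C₂ + C₁ := by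
      have := mul_le_mul_of_nonneg_left h3 hr0
      linarith
    have h8 : (dgx K 2 1 (fun i : Fin 3 => ξ i.succ) g : ℝ) * h.H ![1, algebraMap K₁ Ω s] ≤
        s₁ * (r * (h.H (hcN gv) + C₃) + C₂ + C₁) := by
      calc (dgx K 2 1 (fun i : Fin 3 => ξ i.succ) g : ℝ) * h.H ![1, algebraMap K₁ Ω s]
          ≤ (D * s₁) * h.H ![1, algebraMap K₁ Ω s] := mul_le_mul_of_nonneg_right h4 h6
        _ = s₁ * (D * h.H ![1, algebraMap K₁ Ω s]) := by ring
        _ ≤ _ := mul_le_mul_of_nonneg_left h7 hs0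
    have h9 := le_max_left ((s₁ : ℝ) * (C₁ + C₂ + r * C₃)) C₄
    nlinarith [h8, h9]
  · exact (hC₄ s).trans (by linarith [le_max_right ((s₁ : ℝ) * (C₁ + C₂ + r * C₃)) C₄])

end Pool.Agent.Lib.MP_16285c_agX
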