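import Pool.Agent.Lib.MP_16285c_agX.T3.SpecC
import Pool.Agent.Lib.MP_16285c_agN.T3.XPrE

/-!
# `StmtPrEX`: the degree on subvarieties of the hypersurface
-/

set_option autoImplicit false

namespace Pool.Agent.Lib.MP_16285c_agX

open Pool.Agent.Lib.MP_16285c_ag Pool.Agent.Lib.MP_16285c_agN
open Pool.Agent.Lib.MP_16285c_agS (toF)

namespace T3PrEXM

variable {n : ℕ} {K : Type} [Field K]

/-- Sums of residues. -/
theorem res_sum {𝔮 𝔭 : Ideal (Pl n K)} {E : Type} [Field E] [Algebra (CR 𝔮) E] {L : Type} [Field L]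
    [Algebra (CR 𝔭) L] (h0 : RsE 𝔮 𝔭 E L 0 0)
    (hadd : ∀ h h' u u', RsE 𝔮 𝔭 E L h u → RsE 𝔮 𝔭 E L h' u' → RsE 𝔮 𝔭 E L (h + h') (u + u'))
    {ι : Type} (S : Finset ι) (g : ι → E) (u : ι → L)
    (h : ∀ i ∈ S, RsE 𝔮 𝔭 E L (g i) (u i)) : RsE 𝔮 𝔭 E L (∑ i ∈ S, g i) (∑ i ∈ S, u i) := by
  classical
  induction S using Finset.induction_on with
  | empty =>
    rw [Finset.sum_empty, Finset.sum_empty]
    exact h0
  | insert a S ha ih =>
    rw [Finset.sum_insert ha, Finset.sum_insert ha]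
    exact hadd _ _ _ _ (h a (Finset.mem_insert_self a S))
      (ih fun i hi => h i (Finset.mem_insert_of_mem hi))

/-- Nonzero denominators. -/
theorem ne {𝔭 : Ideal (Pl n K)} [𝔭.IsPrime] {L : Type} [Field L] [Algebra (CR 𝔭) L] [IsFractionRing (CR 𝔭) L]
    {B : Pl n K} (hB : B ∉ 𝔭) : toF 𝔭 L B ≠ 0 := by
  intro h
  apply hB
  have h2 : algebraMap (CR 𝔭) L (Ideal.Quotient.mk 𝔭 B) = 0 := h
  rw [← Ideal.Quotient.eq_zero_iff_mem]
  apply IsFractionRing.injective (CR 𝔭) L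
  rw [h2, map_zero]

/-- Every function is a quotient of polynomials. -/
theorem quot {𝔮 : Ideal (Pl n K)} [𝔮.IsPrime] {E : Type} [Field E] [Algebra (CR 𝔮) E] [IsFractionRing (CR 𝔮) E]
    (g : E) : ∃ A B : Pl n K, B ∉ 𝔮 ∧ g * toF 𝔮 E B = toF 𝔮 E A := by
  obtain ⟨α, β, hβ, rfl⟩ := IsFractionRing.div_surjective (A := CR 𝔮) g
  obtain ⟨A, rfl⟩ := Ideal.Quotient.mk_surjective α
  obtain ⟨B, rfl⟩ := Ideal.Quotient.mk_surjective β
  have hB : B ∉ 𝔮 := by
    intro h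
    exact nonZeroDivisors.ne_zero hβ (Ideal.Quotient.eq_zero_iff_mem.2 h)
  exact ⟨A, B, hB, div_mul_cancel₀ _ (ne (L := E) hB)⟩

end T3PrEXM

open T3PrEXM in
theorem tPrEX : StmtRsE → StmtRsR → StmtG1 → StmtPrEX := by
  classical
  intro hRs hRsR hG1 K _ _ n P hPr σ E _ _ _ _ _ ρ hρ
  have hfin : Module.Finite ρ.fieldRange E := hG1.1 K (n + 1) (Ideal.span {P}) E ρ
  obtain ⟨b⟩ : Nonempty (Module.Basis (Fin (Module.finrank ρ.fieldRange E)) ρ.fieldRange E) :=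
    ⟨Module.finBasis ρ.fieldRange E⟩
  have hcoef : ∀ (g : E) (t : Fin (Module.finrank ρ.fieldRange E)), ∃ a : E,
      ρ a = ((b.repr g t : ρ.fieldRange) : E) := fun g t => (b.repr g t).2
  choose a ha using hcoef
  have hsum : ∀ g : E, g = ∑ t, ρ (a g t) * b t := by
    intro g
    conv_lhs => rw [← b.sum_repr g]
    refine Finset.sum_congr rfl fun t _ => ?_
    rw [ha, Algebra.smul_def]
    rfl
  choose num den hden hnd using fun g : E => quot (𝔮 := Ideal.span {P}) g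
  obtain ⟨x, hx⟩ : ∃ x : Fin (n + 1) → E, ∀ i, x i = toF (Ideal.span {P}) E (MvPolynomial.X i) := ⟨_, fun _ => rfl⟩
  refine ⟨(∏ s, den (b s)) * (∏ i : Fin (n + 1), ∏ s, ∏ t, den (a (x i * b s) t)) *
    ∏ t, den (a 1 t), ?_, ?_⟩
  · intro hdvd
    rw [← Ideal.mem_span_singleton] at hdvd
    have hprod : ∀ (m : ℕ) (D : Fin m → Pl (n + 1) K), (∀ s, D s ∉ Ideal.span {P}) →
        ∏ s, D s ∉ Ideal.span {P} := by
      intro m D hD h
      obtain ⟨s, -, hs⟩ := (hPr.prod_mem_iff).1 h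
      exact hD s hs
    rcases hPr.mem_or_mem hdvd with h | h
    · rcases hPr.mem_or_mem h with h | h
      · exact hprod _ _ (fun s => hden _) h
      · exact hprod _ _ (fun i => hprod _ _ fun s => hprod _ _ fun t => hden _) h
    · exact hprod _ _ (fun s => hden _) h
  intro 𝔭 _ hP hh L _ _ _ _ _ ρb hR
  have hle : Ideal.span {P} ≤ 𝔭 := (Ideal.span_singleton_le_iff_mem _).2 hP
  obtain ⟨huq, hpol, hcst, hadd, hmul, -⟩ := hRs K (n + 1) (Ideal.span {P}) 𝔭 hle E L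
  have h0 : RsE (Ideal.span {P}) 𝔭 E L 0 0 := by
    have := hpol 0
    rwa [map_zero, map_zero] at this
  have h1 : RsE (Ideal.span {P}) 𝔭 E L 1 1 := by
    have := hpol 1
    rwa [map_one, map_one] at this
  have hstep : ∀ (h : E) (u : L), RsE (Ideal.span {P}) 𝔭 E L h u →
      RsE (Ideal.span {P}) 𝔭 E L (ρ h) (ρb u) := by
    intro h u hu
    have := hRsR K (n + 1) (Ideal.span {P}) 𝔭 hle E L σ ρ ρb hρ hR 1 h u hu
    rwa [pow_one, pow_one] at this
  have hdvd : ∀ D : Pl (n + 1) K, D ∣ (∏ s, den (b s)) *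
      (∏ i : Fin (n + 1), ∏ s, ∏ t, den (a (x i * b s) t)) * ∏ t, den (a 1 t) →
      D ∉ 𝔭 := by
    rintro D ⟨c, hc⟩ hD
    apply hh
    rw [hc]
    exact 𝔭.mul_mem_right _ hD
  let r : E → L := fun g => toF 𝔭 L (num g) / toF 𝔭 L (den g)
  have hr : ∀ g, den g ∉ 𝔭 → RsE (Ideal.span {P}) 𝔭 E L g (r g) := by
    intro g hg
    exact ⟨num g, den g, hg, hnd g, div_mul_cancel₀ _ (ne hg)⟩
  have hb : ∀ s, RsE (Ideal.span {P}) 𝔭 E L (b s) (r (b s)) := fun s => hr _ (hdvd _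
    (Dvd.dvd.mul_right (Dvd.dvd.mul_right (Finset.dvd_prod_of_mem _ (Finset.mem_univ s)) _) _))
  have ha1 : ∀ t, RsE (Ideal.span {P}) 𝔭 E L (a 1 t) (r (a 1 t)) := fun t => hr _ (hdvd _
    (Dvd.dvd.mul_left (Finset.dvd_prod_of_mem _ (Finset.mem_univ t)) _))
  have haX : ∀ i s t, RsE (Ideal.span {P}) 𝔭 E L (a (x i * b s) t)
      (r (a (x i * b s) t)) := fun i s t => hr _ (hdvd _
    (Dvd.dvd.mul_right (Dvd.dvd.mul_left
      ((Finset.dvd_prod_of_mem (fun t => den (a (x i * b s) t))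
        (Finset.mem_univ t)).trans
        ((Finset.dvd_prod_of_mem (fun s => ∏ t, den (a (x i * b s) t))
          (Finset.mem_univ s)).trans
          (Finset.dvd_prod_of_mem (fun i => ∏ s, ∏ t, den (a (x i * b s) t))
            (Finset.mem_univ i)))) _) _))
  have hmem : ∀ (c : Fin (Module.finrank ρ.fieldRange E) → L),
      (∑ t, ρb (c t) * r (b t)) ∈
        Submodule.span ρb.fieldRange (Set.range fun s => r (b s)) := by
    intro c
    refine Submodule.sum_mem _ fun t _ => ?_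
    have h2 := Submodule.smul_mem (Submodule.span ρb.fieldRange (Set.range fun s => r (b s)))
      (⟨ρb (c t), ⟨c t, rfl⟩⟩ : ρb.fieldRange) (Submodule.subset_span ⟨t, rfl⟩)
    rw [Algebra.smul_def] at h2
    exact h2
  refine T3XPrEM.span_top (𝔭 := 𝔭) ρb.fieldRange (fun s => r (b s)) ?_ ?_
  · have h2 : RsE (Ideal.span {P}) 𝔭 E L (1 : E) (∑ t, ρb (r (a 1 t)) * r (b t)) := by
      have h3 := res_sum h0 hadd Finset.univ (fun t => ρ (a 1 t) * b t)
        (fun t => ρb (r (a 1 t)) * r (b t)) (fun t _ => hmul _ _ _ _ (hstep _ _ (ha1 t)) (hb t))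
      rw [← hsum 1] at h3
      exact h3
    rw [huq _ _ _ h1 h2]
    exact hmem _
  · intro i s
    have h2 : RsE (Ideal.span {P}) 𝔭 E L (x i * b s)
        (∑ t, ρb (r (a (x i * b s) t)) * r (b t)) := by
      have h3 := res_sum h0 hadd Finset.univ
        (fun t => ρ (a (x i * b s) t) * b t)
        (fun t => ρb (r (a (x i * b s) t)) * r (b t))
        (fun t _ => hmul _ _ _ _ (hstep _ _ (haX i s t)) (hb t))
      rw [← hsum (x i * b s)] at h3
      exact h3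
    have h4 : RsE (Ideal.span {P}) 𝔭 E L (x i * b s)
        (algebraMap (CR 𝔭) L (cl 𝔭 (MvPolynomial.X i)) * r (b s)) := by
      refine hmul _ _ _ _ ?_ (hb s)
      rw [hx]
      exact hpol _
    rw [huq _ _ _ h4 h2]
    exact hmem _

end Pool.Agent.Lib.MP_16285c_agX
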