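import Pool.Agent.Lib.MP_16285c_agX.T3.SpecA
import Pool.Agent.Lib.MP_16285c_agN.T3.XTr

/-!
# ZD3X: transcendence over the field of a generic combination (`StmtTrX`)
-/

set_option autoImplicit false

namespace Pool.Agent.Lib.MP_16285c_agX.T3TrXM

open Pool.Agent.Lib.MP_16285c_ag Pool.Agent.Lib.MP_16285c_agN
open scoped IntermediateField.algebraAdjoinAdjoin

variable {K E : Type} [Field K] [Field E] [Algebra K E]

/-- Algebraic elements stay algebraic over larger fields. -/
theorem alg_mono {A B : IntermediateField K E} (h : A ≤ B)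
    {x : E} (hx : IsAlgebraic A x) : IsAlgebraic B x := by
  obtain ⟨p, hp, hpx⟩ := hx
  refine ⟨p.map (IntermediateField.inclusion h).toRingHom, ?_, ?_⟩
  · exact (Polynomial.map_ne_zero_iff (IntermediateField.inclusion h).toRingHom.injective).2 hp
  · rw [Polynomial.aeval_def, Polynomial.eval₂_map]
    rw [Polynomial.aeval_def] at hpx
    exact hpx

/-- Transitivity. -/
theorem alg_trans {v w x : E} (h : IsAlgebraic (IntermediateField.adjoin K {v}) w)
    (hx : IsAlgebraic (IntermediateField.adjoin K {w}) x) :
    IsAlgebraic (IntermediateField.adjoin K {v}) x := by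
  have h1 : IntermediateField.adjoin K {w} ≤
      (algebraicClosure (IntermediateField.adjoin K {v}) E).restrictScalars K := by
    rw [IntermediateField.adjoin_le_iff]
    rintro _ rfl
    exact mem_algebraicClosure_iff.2 h
  have h3 : IsAlgebraic (algebraicClosure (IntermediateField.adjoin K {v}) E) x :=
    alg_mono h1 hx
  exact h3.restrictScalars (IntermediateField.adjoin K {v})

/-- Two algebraically independent elements are not both algebraic over `K(w)`. -/
theorem two {g : Fin 3 → E} (hg : AlgebraicIndependent K g) (w : E)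
    (h : ∀ i, IsAlgebraic (IntermediateField.adjoin K {w}) (g i)) : False := by
  have h0 : Transcendental K (g 0) := hg.transcendental 0
  have h1 := Pool.Agent.Lib.MP_16285c_agZ.exchange w (g 0) h0 (h 0)
  have h2 := alg_trans h1 (h 1)
  have h3 := h2.restrictScalars (Algebra.adjoin K {g 0})
  have h4 := hg.transcendental_adjoin (s := {0}) (i := 1) (by simp)
  rw [Set.image_singleton] at h4
  exact h4 h3

theorem Tu_eq (g : Fin 3 → E) (u : K) :
    Tu K u g = ∑ i : Fin 4, u ^ (i : ℕ) • (Fin.cons 1 g : Fin 4 → E) i := by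
  unfold Tu luN
  apply Finset.sum_congr rfl
  intro i _
  rw [Algebra.smul_def, map_pow]

theorem core (g : Fin 3 → E) (hg : AlgebraicIndependent K g)
    (w : E) (hw : Transcendental K w) (u : Fin 4 → K) (hu : Function.Injective u)
    (h : ∀ k, ¬ Transcendental (IntermediateField.adjoin K {Tu K (u k) g}) w) : False := by
  apply two hg w
  set L := IntermediateField.adjoin K {w} with hL
  set S : Submodule K E :=
    Subalgebra.toSubmodule ((algebraicClosure L E).restrictScalars K).toSubalgebra with hS
  have hmem : ∀ x : E, x ∈ S ↔ IsAlgebraic L x := fun x => mem_algebraicClosure_iff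
  have h1 : ∀ i : Fin 4, (Fin.cons 1 g : Fin 4 → E) i ∈ S := by
    apply Pool.Agent.Lib.MP_16285c_agN.T3XTrM.vdm S _ u hu
    intro k
    rw [← Tu_eq, hmem]
    apply Pool.Agent.Lib.MP_16285c_agZ.exchange _ w hw
    have hk := h k
    unfold Transcendental at hk
    exact not_not.1 hk
  intro i
  have h2 := h1 i.succ
  rw [Fin.cons_succ] at h2
  exact (hmem _).1 h2

end Pool.Agent.Lib.MP_16285c_agX.T3TrXM

namespace Pool.Agent.Lib.MP_16285c_agX

open Pool.Agent.Lib.MP_16285c_ag Pool.Agent.Lib.MP_16285c_agN

theorem yTrX : StmtTrX := by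
  intro K E _ _ _ g hg w hw
  by_contra hfin
  have hinf : Set.Infinite {u : K | ¬ Transcendental
      (IntermediateField.adjoin K {Tu K u g}) w} := hfin
  let e := hinf.natEmbedding
  apply T3TrXM.core g hg w hw (fun k : Fin 4 => ((e (k : ℕ) : _) : K))
  · intro a b hab
    have h1 : e (a : ℕ) = e (b : ℕ) := Subtype.ext hab
    exact Fin.ext (e.injective h1)
  · intro k
    exact (e (k : ℕ)).2

end Pool.Agent.Lib.MP_16285c_agX
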