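import Pool.Agent.Lib.MP_16285c_agN.T3.All
import Pool.Agent.Lib.MP_16285c_agX.Fin.All
import Pool.Agent.Lib.MP_16285c_agX.T3.BZ1
import Pool.Agent.Lib.MP_16285c_agX.T3.BZ2
import Pool.Agent.Lib.MP_16285c_agX.T3.LnB
import Pool.Agent.Lib.MP_16285c_agX.T3.BvV
import Pool.Agent.Lib.MP_16285c_agX.T3.CfA
import Pool.Agent.Lib.MP_16285c_agX.T3.CfD
import Pool.Agent.Lib.MP_16285c_agX.T3.CmpX
import Pool.Agent.Lib.MP_16285c_agX.T3.CoreA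
import Pool.Agent.Lib.MP_16285c_agX.T3.CuG
import Pool.Agent.Lib.MP_16285c_agX.T3.CvX
import Pool.Agent.Lib.MP_16285c_agX.T3.CzX
import Pool.Agent.Lib.MP_16285c_agX.T3.Dg1
import Pool.Agent.Lib.MP_16285c_agX.T3.DgB
import Pool.Agent.Lib.MP_16285c_agX.T3.DgM
import Pool.Agent.Lib.MP_16285c_agX.T3.DgS
import Pool.Agent.Lib.MP_16285c_agX.T3.DgT
import Pool.Agent.Lib.MP_16285c_agX.T3.E0X
import Pool.Agent.Lib.MP_16285c_agX.T3.E1X
import Pool.Agent.Lib.MP_16285c_agX.T3.EndX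
import Pool.Agent.Lib.MP_16285c_agX.T3.FastX
import Pool.Agent.Lib.MP_16285c_agX.T3.FekX
import Pool.Agent.Lib.MP_16285c_agX.T3.Fin3
import Pool.Agent.Lib.MP_16285c_agX.T3.FlC
import Pool.Agent.Lib.MP_16285c_agX.T3.FlF
import Pool.Agent.Lib.MP_16285c_agX.T3.FlV
import Pool.Agent.Lib.MP_16285c_agX.T3.GenS
import Pool.Agent.Lib.MP_16285c_agX.T3.Gr3P
import Pool.Agent.Lib.MP_16285c_agX.T3.HLow
import Pool.Agent.Lib.MP_16285c_agX.T3.HLu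
import Pool.Agent.Lib.MP_16285c_agX.T3.HMon
import Pool.Agent.Lib.MP_16285c_agX.T3.HPo
import Pool.Agent.Lib.MP_16285c_agX.T3.HSeq
import Pool.Agent.Lib.MP_16285c_agX.T3.HUp
import Pool.Agent.Lib.MP_16285c_agX.T3.HUpB
import Pool.Agent.Lib.MP_16285c_agX.T3.HVa
import Pool.Agent.Lib.MP_16285c_agX.T3.HVb
import Pool.Agent.Lib.MP_16285c_agX.T3.HtX
import Pool.Agent.Lib.MP_16285c_agX.T3.IntA
import Pool.Agent.Lib.MP_16285c_agX.T3.LnD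
import Pool.Agent.Lib.MP_16285c_agX.T3.LnG
import Pool.Agent.Lib.MP_16285c_agX.T3.LnH
import Pool.Agent.Lib.MP_16285c_agX.T3.LnI
import Pool.Agent.Lib.MP_16285c_agX.T3.LnL
import Pool.Agent.Lib.MP_16285c_agX.T3.LnQ
import Pool.Agent.Lib.MP_16285c_agX.T3.LnV
import Pool.Agent.Lib.MP_16285c_agX.T3.LowX
import Pool.Agent.Lib.MP_16285c_agX.T3.PrEX
import Pool.Agent.Lib.MP_16285c_agX.T3.PtC
import Pool.Agent.Lib.MP_16285c_agX.T3.RatesX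
import Pool.Agent.Lib.MP_16285c_agX.T3.RecX
import Pool.Agent.Lib.MP_16285c_agX.T3.Rl1X
import Pool.Agent.Lib.MP_16285c_agX.T3.RpA
import Pool.Agent.Lib.MP_16285c_agX.T3.RpB
import Pool.Agent.Lib.MP_16285c_agX.T3.RpC
import Pool.Agent.Lib.MP_16285c_agX.T3.RpD
import Pool.Agent.Lib.MP_16285c_agX.T3.RpE
import Pool.Agent.Lib.MP_16285c_agX.T3.RpF
import Pool.Agent.Lib.MP_16285c_agX.T3.RpG
import Pool.Agent.Lib.MP_16285c_agX.T3.RpM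
import Pool.Agent.Lib.MP_16285c_agX.T3.RpS
import Pool.Agent.Lib.MP_16285c_agX.T3.RtX
import Pool.Agent.Lib.MP_16285c_agX.T3.SecXI
import Pool.Agent.Lib.MP_16285c_agX.T3.SecXII
import Pool.Agent.Lib.MP_16285c_agX.T3.StpF
import Pool.Agent.Lib.MP_16285c_agX.T3.SubX
import Pool.Agent.Lib.MP_16285c_agX.T3.TpG
import Pool.Agent.Lib.MP_16285c_agX.T3.TrX
import Pool.Agent.Lib.MP_16285c_agX.T3.UppX
import Pool.Agent.Lib.MP_16285c_agX.T3.Var3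
import Pool.Agent.Lib.MP_16285c_agX.T3.VlA
import Pool.Agent.Lib.MP_16285c_agX.HS.Base
import Pool.Agent.Lib.MP_16285c_agX.HS.Fs
import Pool.Agent.Lib.MP_16285c_agX.HS.GA
import Pool.Agent.Lib.MP_16285c_agX.HS.GB
import Pool.Agent.Lib.MP_16285c_agX.HS.Ht
import Pool.Agent.Lib.MP_16285c_agX.HS.LA
import Pool.Agent.Lib.MP_16285c_agX.HS.LB
import Pool.Agent.Lib.MP_16285c_agX.HS.LC
import Pool.Agent.Lib.MP_16285c_agX.HS.Lft
import Pool.Agent.Lib.MP_16285c_agX.HS.Mean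
import Pool.Agent.Lib.MP_16285c_agX.HS.PF
import Pool.Agent.Lib.MP_16285c_agX.HS.Plf
import Pool.Agent.Lib.MP_16285c_agX.HS.SupF
import Pool.Agent.Lib.MP_16285c_agX.HS.SupN
import Pool.Agent.Lib.MP_16285c_agX.HS.Trn
import Pool.Agent.Lib.MP_16285c_agX.HS.Trs

/-!
# Threefolds with `λ₁ > λ₃`: closed forms (ZD3X)
-/

set_option autoImplicit false

namespace Pool.Agent.Lib.MP_16285c_agX

open Pool.Agent.Lib.MP_16285c_ag Pool.Agent.Lib.MP_16285c_agN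
open Pool.Agent.Lib.MP_16285c_agS (tUni tPresK tRkK tIrrK tPrimS tLowS tDom tInvD tNoPow tConj tDesc)


/-! ## Degrees -/

theorem bBZ1 : StmtBZ1 := yBZ1 tNN tUpF (tXUpW tVd) tXLB

theorem bBZ2 : StmtBZ2 := yBZ2 tNN tUpF (tXUpW tVd) tXLB

theorem bRpC : StmtRpC := yRpC yRpA yRpB

theorem bRpD : StmtRpD := yRpD yRpA bRpC

theorem bRpF : StmtRpF := yRpF yRpA yRpB bRpC

theorem bRpG : StmtRpG := yRpG yRpA bRpD

theorem bCfD : StmtCfD := yCfD yCfA bRpG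

theorem bDg1 : StmtDg1 := yDg1 (yDgB yRpA bRpD bBZ1 bBZ2 yDgT)

theorem bDgM : StmtDgM := yDgM bDg1 bCfD yDgT bBZ1 bBZ2

theorem bE1X : StmtE1X := yE1X bDg1 bCfD yDgT bBZ2

theorem bE0X : StmtE0X := yE0X bDg1

/-! ## Sections -/

theorem bSecXI : StmtSecXI := ySecXI aXUB2 tXLB ySubX yIntA yTrX bDg1 bE1X

theorem bSecXII : StmtSecXII := ySecXII aXUB2 tXLB ySubX yIntA yTrX bDg1 bE1X bE0X

/-! ## Heights -/

theorem bHUpB : StmtHUpB := yHUpB yHSeq yHMon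

theorem bHtX : StmtHtX :=
  yHtX (yRpM bRpD yStpF) (yRpS yIntA yRpA (yRpE yRpA) bRpF yStpF) yHVa (yHVb yHVa) yHLu bHUpB

theorem bHLow : StmtHLow := yHLow (yHUp yHSeq yHMon) yHMon

theorem bRecX : StmtRecX := yRecX bSecXI bSecXII bHtX (yFlV yVlA) yCzX bDg1

theorem bLowX : StmtLowX :=
  yLowX bDg1 yCfA tFun tNm yLnI yLnQ yLnH (yLnL yLnG tXRpB aXLine (yLnB tRtX)) yLnE yLnV (yLnD tFun yLnI)

theorem bFastX : StmtFastX :=
  yFastX (yRatesX yFekX) bRecX bLowX bDg1 bDgM yRl1X yGenS (yFlV yVlA)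

theorem bUppX : StmtUppX := tUppX tCvX tPtC (tBvV yVlA) tRtX (yFlV yVlA)

theorem bEndX : StmtEndX := tEndX bUppX tXRl2

/-- The supply of heights. -/
theorem bHSup : StmtHSup := by
  have hGA : HS.StmtGA := HS.tGA HS.tLA (HS.tFs HS.tLA)
  have hGB : HS.StmtGB := HS.tGB HS.tLA (HS.tFs HS.tLA) HS.tTrn (HS.tLB HS.tLA) (HS.tLC HS.tLA)
  have hHt : HS.StmtHt := HS.tHt hGA hGB (HS.tPF hGA) HS.tMean
  have hBase : HS.StmtBase := HS.tBase hHt (HS.tPlf HS.tLA) HS.tLft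
  intro k _ _ _ V V' p p' hp hp' h2 h2' hc hc' S
  by_cases h : Algebra.IsAlgebraic ℚ k
  · exact HS.tSupN hBase k V V' p p' hp hp' h2 h2' hc hc' h S
  · exact HS.tSupF hBase HS.tTrs k V V' p p' hp hp' h2 h2' hc hc' h S

/-! ## Assembly -/

theorem bCoreA : StmtCoreA :=
  yCoreA stmtResF tG1 tRk2 (tRk3 tRk2) aTan (tPresK tUni) tRkK (tIrrK aIrr) tPrimS tNrmX
    (tMoveX tUni) cTowX tLowS

/-- The theorem for the model. -/
theorem bMod3 : StmtMod3 :=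
  yFin3 bFastX bCoreA bHSup aXHL aBoxX tDom (tPresX stmtJacQ) stmtResF tG1 tNoEX tNoPow tNoDescX
    tInvDX tInvD iLiftC2 iDesc cCanX tConj tDesc tBet tCmpB tTpX yFlF yGenS
    (tPrEX tRsE tRsR tG1) (tFlC tUni) bEndX tCuG

theorem bGr3P : StmtGr3P :=
  yGr3P tBet tCmpB yTpG (yCmpX bDg1 bCfD yDgS yDgT bBZ1 bBZ2 yRpA bRpD) yGenS tG1

/-- **Threefolds with `λ₁ > λ₃`.** -/
theorem var3 : StmtVar3 :=
  yVar3 bMod3 tPrimX (tAmbX tJacX tHcn) (tNoInvX tHcn) (tPtsX tHat) bGr3P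

end Pool.Agent.Lib.MP_16285c_agX
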