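import Mathlib

/-!
# Threefolds with `λ₁ > λ₃`: absolute heights (interface)

`HtF Ω` is an (absolute, logarithmic) height on the finite tuples of elements of `Ω`, with constants which do not depend on a field of definition of the tuples. `StmtHSup` is the
supply of such heights; it replaces `StmtXSup` of `Lib/MP_16285c_agN/T3`.
-/

set_option autoImplicit false

namespace Pool.Agent.Lib.MP_16285c_agX

/-- A height on the finite tuples of elements of `Ω`. -/
structure HtF (Ω : Type) [Field Ω] where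
  /-- The height of a tuple (a point of projective space); `0` for the zero tuple. -/
  H : ∀ {ι : Type} [Finite ι], (ι → Ω) → ℝ
  nonneg : ∀ {ι : Type} [Finite ι] (a : ι → Ω), 0 ≤ H a
  zero : ∀ {ι : Type} [Finite ι], H (0 : ι → Ω) = 0
  smul : ∀ {ι : Type} [Finite ι] (c : Ω) (a : ι → Ω), c ≠ 0 → H (c • a) = H a
  comp : ∀ {ι κ : Type} [Finite ι] [Finite κ] (e : κ → ι) (a : ι → Ω), H (a ∘ e) ≤ H a
  tens : ∀ {ι κ : Type} [Finite ι] [Finite κ] (a : ι → Ω) (b : κ → Ω), a ≠ 0 → b ≠ 0 →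
    H (fun t : ι × κ => a t.1 * b t.2) = H a + H b
  pow : ∀ {ι : Type} [Finite ι] (a : ι → Ω) (m : ℕ), H (fun i => a i ^ m) = m * H a
  lin : ∀ {ι κ : Type} [Fintype ι] [Finite κ] (A : κ → ι → Ω), ∃ C : ℝ, ∀ a : ι → Ω,
    H (fun j => ∑ i, A j i * a i) ≤ H a + C
  root : ∀ d : ℕ, ∃ C : ℝ, ∀ (c : Fin (d + 1) → Ω) (u : Ω), c (Fin.last d) ≠ 0 →
    ∑ i, c i * u ^ (i : ℕ) = 0 → H ![1, u] ≤ H c + C
  coef : ∀ d : ℕ, ∃ C : ℝ, ∀ u : Fin d → Ω,
    H (fun i : Fin (d + 1) => (∏ j, (Polynomial.X - Polynomial.C (u j)) : Polynomial Ω).coeff i) ≤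
      ∑ j, H ![1, u j] + C

/-- Supply of heights. `E₀` is a finitely generated field, `Ω` its algebraic closure in `k`, it contains the given finite set `S`; the height is invariant under the automorphisms of `Ω` over `E₀`
(third line; `F` is any field with two embeddings which agree on `E₀`); `t` is in both valuation rings, and the heights of `p p' t ^ j s` tend to infinity. -/
def StmtHSup : Prop :=
  ∀ (k : Type) [Field k] [IsAlgClosed k] [CharZero k]
    (V V' : ValuationSubring k) (p p' : ℕ), p.Prime → p'.Prime → 2 < p → 2 < p' →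
    CharP (IsLocalRing.ResidueField V) p → CharP (IsLocalRing.ResidueField V') p' →
    ∀ S : Finset k, ∃ (E₀ Ω : Subfield k) (h : HtF Ω) (t : k),
      (∃ S₀ : Finset k, Subfield.closure (S₀ : Set k) = E₀) ∧ E₀ ≤ Ω ∧ (S : Set k) ⊆ Ω ∧
      (∀ x ∈ Ω, IsAlgebraic E₀ x) ∧ (∀ x : k, IsAlgebraic E₀ x → x ∈ Ω) ∧
      (∀ (F : Type) [Field F] (ι ι' : F →+* Ω),
        (∀ x ∈ E₀, ∃ y : F, (ι y : k) = x ∧ (ι' y : k) = x) →
        ∀ (m : Type) [Finite m] (a : m → F), h.H (fun i => ι (a i)) = h.H (fun i => ι' (a i))) ∧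
      t ≠ 0 ∧ t ∈ E₀ ∧ t ∈ V ∧ t ∈ V' ∧
      ∀ B : ℝ, ∃ j₀ : ℕ, ∀ j, j₀ ≤ j → ∀ s : ℤ, s ≠ 0 → ∀ y : Ω, (y : k) = p * p' * t ^ j * s →
        B < h.H ![1, y]

end Pool.Agent.Lib.MP_16285c_agX
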