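import Pool.Agent.Lib.MP_16285c_agN.T3.SpecC
import Pool.Agent.Lib.MP_16285c_agX.Top.Spec
import Pool.Agent.Lib.MP_16285c_agX.G.Spec
import Pool.Agent.Lib.MP_16285c_agX.T3.HDefs

/-!
# Threefolds with `λ₁ > λ₃`: definitions (ZD3X)

`E` is the function field of a threefold over `K`, `ξ = (z, x₁, x₂, x₃) : Fin 4 → E` are coordinates: `x` algebraically independent, `z` integral over `K[x]`,
`E = K(ξ)` (`Stp`). `ρ : E →ₐ[K] E` is a dominant rational self-map. The degrees `dgx K 2 1 x (ρ ^ m x)` and `dgx K 1 2 x (ρ ^ m x)` are computed with linear forms in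
`x` and `ρ ^ m x`. `Ω` is a field with a height `h : HtF Ω` (`HDefs.lean`).
-/

set_option autoImplicit false

namespace Pool.Agent.Lib.MP_16285c_agX

open Pool.Agent.Lib.MP_16285c_ag Pool.Agent.Lib.MP_16285c_agN

section

variable (K : Type) {E : Type} [Field K] [Field E] [Algebra K E]

/-- `u` is integral over `K[x]`. -/
def Intx {n : ℕ} (x : Fin n → E) (u : E) : Prop :=
  ∃ F : Polynomial (Pl n K), F.Monic ∧
    Polynomial.eval₂ ((MvPolynomial.aeval x : Pl n K →ₐ[K] E) : Pl n K →+* E) u F = 0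

/-- `u` is integral over `K[x]`, of degree `≤ e` at infinity: `u ^ r + c_1 u ^ (r-1) + … + c_r = 0` with `c_i ∈ K[x]` of degree `≤ e i`. -/
def Rp {n : ℕ} (x : Fin n → E) (e : ℕ) (u : E) : Prop :=
  ∃ F : Polynomial (Pl n K), F.Monic ∧
    Polynomial.eval₂ ((MvPolynomial.aeval x : Pl n K →ₐ[K] E) : Pl n K →+* E) u F = 0 ∧
    ∀ i, (F.coeff i).totalDegree ≤ e * (F.natDegree - i)

/-- `w` is a rational function of degree `≤ d` of `y`: the powers of `w` times powers of a fixed `b` are in `W` times the polynomials of degree `≤ d a` in `y`. -/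
def Dge {s : ℕ} (y : Fin s → E) (w : E) (d : ℕ) : Prop :=
  ∃ b : E, b ≠ 0 ∧ ∃ W : Submodule K E, W.FG ∧ ∀ a i : ℕ, i ≤ a → b ^ a * w ^ i ∈ W * Vd K y (d * a)

/-- The largest finite degree of `E` over a field generated by `c` linear forms in `x` and `r` linear forms in `g`. -/
noncomputable def dgx {n : ℕ} (c r : ℕ) (x g : Fin n → E) : ℕ :=
  sSup (Set.range fun AB : (Fin c → Fin n → K) × (Fin r → Fin n → K) =>
    Module.finrank (IntermediateField.adjoin K (Set.range (lc AB.1 x) ∪ Set.range (lc AB.2 g))) E)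

/-- `1 + u g_1 + u ^ 2 g_2 + …`. -/
noncomputable def Tu {n : ℕ} (u : K) (g : Fin n → E) : E :=
  luN (algebraMap K E u) (Fin.cons 1 g : Fin (n + 1) → E)

/-- The setup: coordinates `ξ = (z, x)` of a function field of dimension `n`. -/
structure Stp {n : ℕ} (ξ : Fin (n + 1) → E) : Prop where
  ai : AlgebraicIndependent K (fun i : Fin n => ξ i.succ)
  int : Intx K (fun i : Fin n => ξ i.succ) (ξ 0)
  gen : IntermediateField.adjoin K (Set.range ξ) = ⊤

/-- The sections: `G(ξ; 1, z')` with `G` homogeneous of degree `j`, with coefficients of degree `≤ P` in `ξ`, not zero, and `Z₀ ^ j * G(ξ; 1, z') / T ^ q` integral over `K[x]`. -/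
def SctX (ξ : Fin 4 → E) (T : E) (z' : Fin 3 → E) (Z₀ : Pl 3 K) (P j q : ℕ) : Prop :=
  ∃ (G : MvPolynomial (Fin 4) (Pl 4 K)) (S : E), G.IsHomogeneous j ∧
    (∀ α, (G.coeff α).totalDegree ≤ P) ∧ S ≠ 0 ∧ Intx K (fun i : Fin 3 => ξ i.succ) S ∧
    MvPolynomial.aeval (fun i : Fin 3 => ξ i.succ) Z₀ ^ j *
      MvPolynomial.eval₂ ((MvPolynomial.aeval ξ : Pl 4 K →ₐ[K] E) : Pl 4 K →+* E)
        (Fin.cons 1 z' : Fin 4 → E) G = T ^ q * S

/-- The rational function `h` has the value `v` at the point `pt`. -/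
def VlX {Ω : Type} [Field Ω] [Algebra K Ω] {n : ℕ} (ξ : Fin n → E) (pt : Fin n → Ω) (h : E) (v : Ω) :
    Prop :=
  ∃ A B : Pl n K, MvPolynomial.aeval pt B ≠ 0 ∧
    h * MvPolynomial.aeval ξ B = MvPolynomial.aeval ξ A ∧
    MvPolynomial.aeval pt A = v * MvPolynomial.aeval pt B

/-- The point `pt` lies on the variety with the generic point `ξ`. -/
def OnX {Ω : Type} [Field Ω] [Algebra K Ω] {n : ℕ} (ξ : Fin n → E) (pt : Fin n → Ω) : Prop :=
  ∀ G : Pl n K, MvPolynomial.aeval ξ G = 0 → MvPolynomial.aeval pt G = 0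

/-- `pt 0, pt 1, …` is an orbit of `ρ`. -/
def FlowX {Ω : Type} [Field Ω] [Algebra K Ω] {n : ℕ} (ξ : Fin n → E) (ρ : E →ₐ[K] E)
    (pt : ℕ → Fin n → Ω) : Prop :=
  ∀ t, OnX K ξ (pt t) ∧ ∀ i, VlX K ξ (pt t) (ρ (ξ i)) (pt (t + 1) i)

end

/-- The height of the point `(z, x)`, measured by `x`. -/
noncomputable def hx {Ω : Type} [Field Ω] (h : HtF Ω) {n : ℕ} (pt : Fin (n + 1) → Ω) : ℝ :=
  h.H (hcN fun i : Fin n => pt i.succ)

end Pool.Agent.Lib.MP_16285c_agX
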