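import Pool.Agent.Lib.MP_16285c_agX.T3.SpecA
import Pool.Agent.Lib.MP_16285c_agX.Hrn.SpecC

/-!
# Threefolds with `λ₁ > λ₃`: the lower bound for heights on lines (statements, ZD3X part L)

Every lemma is a `Prop` with its complete proof in the docstring; used statements are hypotheses: file `T3/Y.lean`, `theorem yY : StmtY` or `theorem yY : StmtZ → StmtY`, namespace `Pool.Agent.Lib.MP_16285c_agX`, auxiliary lemmas in the namespace `Pool.Agent.Lib.MP_16285c_agX.T3YM`.
-/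

set_option autoImplicit false

namespace Pool.Agent.Lib.MP_16285c_agX

open Pool.Agent.Lib.MP_16285c_ag Pool.Agent.Lib.MP_16285c_agN

/-- (LnI) The irreducible polynomial of `w`. PROOF. `R = Pl n K`, `φ = aeval x : R → E` is injective, `k₁ = K(x)` is a field of fractions of `R` (`AlgebraicIndependent.aevalEquivField : FractionRing (MvPolynomial ι K) ≃ₐ[K] IntermediateField.adjoin K (Set.range x)`, or `AlgebraicIndependent.aevalEquiv` and the instance `IsFractionRing (Algebra.adjoin K s) (IntermediateField.adjoin K s)`). Let `m = minpoly k₁ w`, monic, irreducible.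
Clear denominators (`IsLocalization.integerNormalization`) and take the primitive part: `F ∈ R[Y]` primitive whose image over `k₁` is a nonzero constant times `m` (`R` is a normalized gcd domain noncomputably). `F` is irreducible by Gauss (`Polynomial.IsPrimitive.irreducible_iff_irreducible_map_fraction_map`), `F(w) = 0`, `natDegree F = natDegree m = [k₁(w) : k₁]`, and `k₁(w)` has the same elements as `K(w, x)`: tower law. If `Q(w) = 0` then `m` divides the image of `Q` over `k₁`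
(`minpoly.dvd`), so the image of `F` divides it, and `F ∣ Q` (`Polynomial.IsPrimitive.dvd_of_fraction_map_dvd_fraction_map`). -/
def StmtLnI : Prop :=
  ∀ (K E : Type) [Field K] [Field E] [Algebra K E] (n : ℕ) (x : Fin n → E), AlgebraicIndependent K x →
    Module.Finite (IntermediateField.adjoin K (Set.range x)) E → ∀ w : E,
    ∃ F : Polynomial (Pl n K), Irreducible F ∧ 1 ≤ F.natDegree ∧
      Polynomial.eval₂ ((MvPolynomial.aeval x : Pl n K →ₐ[K] E) : Pl n K →+* E) w F = 0 ∧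
      F.natDegree * Module.finrank (IntermediateField.adjoin K (insert w (Set.range x))) E =
        Module.finrank (IntermediateField.adjoin K (Set.range x)) E ∧
      ∀ Q : Polynomial (Pl n K),
        Polynomial.eval₂ ((MvPolynomial.aeval x : Pl n K →ₐ[K] E) : Pl n K →+* E) w Q = 0 → F ∣ Q

/-- (LnQ) The norm of `b Y - N` modulo `P`. PROOF. Use the lemmas of `Hrn/Nm.lean` (import it; namespace `NmM`): for a ring `S` and `p, a : Polynomial S`, `p` monic of degree `e`, `Mg e p a` is the matrix of the multiplication by `a` modulo `p`; `NmM.mem_span`: `C (Mg e p a).det ∈ span {p, a}`; `NmM.map_det`: the determinant commutes with ring homomorphisms of the coefficients. Take `S = Polynomial (Pl n K)` (variable `Y`), `p = (finSuccEquiv K n P).map Polynomial.C`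
(monic), `a = C (C b * X) - (finSuccEquiv K n N).map Polynomial.C`, `Q = (Mg e p a).det`. (1) The ring homomorphism `S[Z] → E`, coefficients in `Pl n K` by `aeval (ξ ∘ succ)`, `Y ↦ w`, `Z ↦ ξ 0` maps `p` to `aeval ξ P = 0` and `a` to `w * b(ξ) - N(ξ) = 0` (`finSuccEquiv` and `eval`: `MvPolynomial.eval_eq_eval_mv_eval'` or induction), so it maps `C Q`, an element of `(p, a)`, to `0`.
(2) Let `ψ : S → Ω`, `aeval t` on `Pl n K` and `Y ↦ y`; `ψ Q = 0` is the determinant for `p' = p.map ψ`, `a' = a.map ψ` over the field `Ω` (`map_det`). There is a vector `v ≠ 0` over `Ω` with `v * Mg e p' a' = 0` (`Matrix.exists_vecMul_eq_zero_iff`), so `V = ∑ v_i Z ^ i` is not zero, of degree `< e`, and `p' ∣ V a'`. If `p', a'` were coprime then `p' ∣ V`, impossible (degrees, `p'` monic of degree `e`). So they are not coprime and have a common root `ζ` in the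
algebraically closed field `Ω` (an irreducible common factor has degree one; or `IsCoprime` criterion by roots). `p'(ζ) = aeval (cons ζ t) P`, `a'(ζ) = y * aeval t b - aeval (cons ζ t) N`. (If `e = 0` then `p = 1`, `Mg` is the empty matrix, the determinant is `1`, and (2) is vacuous, (1) is vacuous too: `aeval ξ P = 1`.) -/
def StmtLnQ : Prop :=
  ∀ (K : Type) [Field K] (n : ℕ) (P N : Pl (n + 1) K) (b : Pl n K), MonZ P →
    ∃ Q : Polynomial (Pl n K),
      (∀ (E : Type) [Field E] [Algebra K E] (ξ : Fin (n + 1) → E) (w : E), MvPolynomial.aeval ξ P = 0 →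
        w * MvPolynomial.aeval (fun i : Fin n => ξ i.succ) b = MvPolynomial.aeval ξ N →
        Polynomial.eval₂ ((MvPolynomial.aeval (fun i : Fin n => ξ i.succ) : Pl n K →ₐ[K] E) :
          Pl n K →+* E) w Q = 0) ∧
      ∀ (Ω : Type) [Field Ω] [IsAlgClosed Ω] [Algebra K Ω] (t : Fin n → Ω) (y : Ω),
        Polynomial.eval₂ ((MvPolynomial.aeval t : Pl n K →ₐ[K] Ω) : Pl n K →+* Ω) y Q = 0 →
        ∃ ζ : Ω, MvPolynomial.aeval (Fin.cons ζ t : Fin (n + 1) → Ω) P = 0 ∧
          y * MvPolynomial.aeval t b = MvPolynomial.aeval (Fin.cons ζ t : Fin (n + 1) → Ω) N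

/-- (LnH) Heights of the coefficients. PROOF. `C` from the axiom `h.coef r`. Let `t, z₀, y₀` be given, `A(Y) = ∑ a_i(t) Y ^ i ∈ Ω[Y]`, of degree exactly `r`. `Ω` is algebraically closed: `A = a_r(t) ∏ j : Fin r, (Y - u j)` (`IsAlgClosed.splits`, list the multiset of roots as a function on `Fin r`). So the tuple of the coefficients of `A` is `a_r(t) •` the tuple of the coefficients of the product: its height is `≤ ∑ j, h.H ![1, u j] + C` (`h.smul`, `h.coef`).
CLAIM: `h.H ![1, u j] = h.H ![1, y₀]`. By `hroot` there is `ζ` with `P(ζ, t) = 0`, `u j * b(t) = N(ζ, t)`. Let `p = (finSuccEquiv K₁ n P₁).map (eval t)`, irreducible over `K₁`; `ζ` and `z₀` are roots of `p` in `Ω`. `F = AdjoinRoot p` (a field), `ι, ι' : F →ₐ[K₁] Ω` with `root ↦ ζ`, `root ↦ z₀` (`AdjoinRoot.liftAlgHom` or `AdjoinRoot.liftHom`), `v = N(root, t) / b(t) ∈ F` (`b(t) ≠ 0` in `K₁`).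
`ι v = u j`, `ι' v = y₀` (divide by `b(t) ≠ 0`). `hinv` for `Fin 2` and `![1, v]`. -/
def StmtLnH : Prop :=
  ∀ (K K₁ Ω : Type) [Field K] [Field K₁] [Field Ω] [IsAlgClosed Ω] [Algebra K K₁] [Algebra K Ω]
    [Algebra K₁ Ω] [IsScalarTower K K₁ Ω] (h : HtF Ω),
    (∀ (F : Type) [Field F] [Algebra K₁ F] (ι ι' : F →ₐ[K₁] Ω) (m : Type) [Finite m] (a : m → F),
      h.H (fun j => ι (a j)) = h.H (fun j => ι' (a j))) →
    ∀ (n r : ℕ) (P N : Pl (n + 1) K) (b : Pl n K) (a : Fin (r + 1) → Pl n K),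
    (∀ (t : Fin n → Ω) (y : Ω), ∑ i, MvPolynomial.aeval t (a i) * y ^ (i : ℕ) = 0 →
      ∃ ζ : Ω, MvPolynomial.aeval (Fin.cons ζ t : Fin (n + 1) → Ω) P = 0 ∧
        y * MvPolynomial.aeval t b = MvPolynomial.aeval (Fin.cons ζ t : Fin (n + 1) → Ω) N) →
    ∃ C : ℝ, ∀ (t : Fin n → K₁) (z₀ y₀ : Ω),
      Irreducible ((MvPolynomial.finSuccEquiv K₁ n (MvPolynomial.map (algebraMap K K₁) P)).map
        (MvPolynomial.eval t)) → MvPolynomial.aeval t b ≠ 0 → MvPolynomial.aeval t (a (Fin.last r)) ≠ 0 →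
      MvPolynomial.aeval (pt t z₀) P = 0 →
      y₀ * MvPolynomial.aeval (fun i => algebraMap K₁ Ω (t i)) b = MvPolynomial.aeval (pt t z₀) N →
      h.H (fun i => algebraMap K₁ Ω (MvPolynomial.aeval t (a i))) ≤ r * h.H ![1, y₀] + C

/-- (LnG) Two generic combinations. PROOF. The landed proof of `StmtXGen` (`Lib/MP_16285c_agN/T3/XGen.lean`; `vand` there is general) works for `a : Fin (r + 1) → Pl n K`: for all but finitely many `u : K` the polynomial `Λ_u = luN (C u) a` is relatively prime to `a q` (a prime factor of `a q` which divides `r + 1` different `Λ_u` divides all `a i`). Moreover for all but finitely many `u` the homogeneous part of degree `D` of `Λ_u` is not zero (a nonzero polynomial in `u`: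
let `μ` be a monomial of degree `D` with nonzero coefficient in some `a i`; the coefficient of `μ` in `Λ_u` is `∑ u ^ i coeff μ (a i)`, a nonzero polynomial in `u`), so `totalDegree Λ_u = D`. Take such a `u` (`K` is infinite), `M 0 j = 1` for `j = q` and `0` otherwise, `M i j = u ^ j` for `i ≠ 0`: the combinations are `a q` for `i = 0` and `Λ_u` for `i ≠ 0`. -/
def StmtLnG : Prop :=
  ∀ (K : Type) [Field K] [Infinite K] (n r D : ℕ) (a : Fin (r + 1) → Pl n K) (q : Fin (r + 1)), 1 ≤ n →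
    a q ≠ 0 → (∀ c : Pl n K, (∀ i, c ∣ a i) → IsUnit c) → (∀ i, (a i).totalDegree ≤ D) →
    (∃ i, (a i).totalDegree = D) →
    ∃ M : Fin (n + 1) → Fin (r + 1) → K, (∑ j, MvPolynomial.C (M 0 j) * a j = a q) ∧
      (∀ c : Pl n K, (∀ i, c ∣ ∑ j, MvPolynomial.C (M i j) * a j) → IsUnit c) ∧
      (∀ i, (∑ j, MvPolynomial.C (M i j) * a j).totalDegree ≤ D) ∧
      ∃ i, (∑ j, MvPolynomial.C (M i j) * a j).totalDegree = D

/-- (LnB) Lower bound for polynomials in one variable (section HL: `StmtHLow`). -/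
def StmtLnB : Prop :=
  ∀ (K₁ Ω : Type) [Field K₁] [Field Ω] [Algebra K₁ Ω] (h : HtF Ω) (r : ℕ) (g : Fin (r + 1) → Polynomial K₁)
    (d : ℕ), (∀ i, (g i).natDegree ≤ d) → (∃ i, (g i).natDegree = d) → Ideal.span (Set.range g) = ⊤ →
    ∃ C : ℝ, ∀ s : K₁, (d : ℝ) * h.H ![1, algebraMap K₁ Ω s] ≤
      h.H (fun i => algebraMap K₁ Ω ((g i).eval s)) + C

/-- (LnL) Lower bound on lines. PROOF (uses `StmtLnG`, `StmtXRpB`, `StmtXLine`, `StmtLnB`). `M` from `StmtLnG` for `a, q`, `F i = ∑ j, C (M i j) * a j` over `K`. `StmtXRpB`: `F₁ i = map F_i` over `K₁` have no common factor; `totalDegree (F₁ i) = totalDegree (F i)` (`map` is injective). `StmtXLine` for `K₁`, `F₁`, `D`, `c` (`eval c (F₁ 0) = aeval c (a q) ≠ 0`): `R`. Let `R(w) ≠ 0`, `θ : Pl n K₁ → K₁[Y]`, `X j ↦ c j + w j Y`, `g i = θ (F₁ i)`: they generate the unit ideal, `natDegree (g i) ≤ totalDegree (F₁ i) ≤ D`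
(`T3XLnM`-lemma `natDegree_res_le` in `Lib/MP_16285c_agN/T3/XLn.lean`, `eval_res` there: `(g i).eval s = eval (lptN c w s) (F₁ i)`), and one has degree `D`. `StmtLnB`: `D h(1, s) ≤ h((F_i(c + s w))_i) + C₁`, and `F_i(t) = ∑ j, M i j a_j(t)`: `h.lin`: `h((F_i(t))_i) ≤ h((a_j(t))_j) + C₂`. -/
def StmtLnL : Prop :=
  ∀ (K K₁ : Type) [Field K] [CharZero K] [Field K₁] [CharZero K₁] [Algebra K K₁] (n r D : ℕ)
    (a : Fin (r + 1) → Pl n K) (q : Fin (r + 1)), 1 ≤ n → a q ≠ 0 →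
    (∀ c : Pl n K, (∀ i, c ∣ a i) → IsUnit c) → (∀ i, (a i).totalDegree ≤ D) →
    (∃ i, (a i).totalDegree = D) → ∀ c : Fin n → K₁, MvPolynomial.aeval c (a q) ≠ 0 →
    ∃ R : Pl n K₁, R ≠ 0 ∧ ∀ w : Fin n → K₁, MvPolynomial.eval w R ≠ 0 →
      ∀ (Ω : Type) [Field Ω] [Algebra K₁ Ω] (h : HtF Ω), ∃ C : ℝ, ∀ s : K₁,
        (D : ℝ) * h.H ![1, algebraMap K₁ Ω s] ≤
          h.H (fun i => algebraMap K₁ Ω (MvPolynomial.aeval (lptN c w s) (a i))) + C

/-- (LnE) Heights on a line. PROOF. `hcN (c + s w) = A ![1, s]` with the matrix `A` with rows `(1, 0)` and `(c i, w i)`: `h.lin`. -/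
def StmtLnE : Prop :=
  ∀ (K₁ Ω : Type) [Field K₁] [Field Ω] [Algebra K₁ Ω] (h : HtF Ω) (n : ℕ) (c w : Fin n → K₁), ∃ C : ℝ,
    ∀ s : K₁, h.H (hcN fun i => algebraMap K₁ Ω (lptN c w s i)) ≤ h.H ![1, algebraMap K₁ Ω s] + C

/-- (LnV) Values of linear combinations. PROOF. For every `j` there are `A j, B j` with `B j (pt) ≠ 0`, `g j * B j (ξ) = A j (ξ)`, `A j (pt) = gv j * B j (pt)`. Let `Π = ∏ j, B j`, `Π_j = ∏ i ≠ j, B i`. `(∑ l_j g_j) * b(ξ) = N(ξ)` multiplied by `Π(ξ)`: `∑ l_j A j (ξ) Π_j(ξ) b(ξ) = N(ξ) Π(ξ)`, so the polynomial `∑ C (l_j) * A j * Π_j * b - N * Π` vanishes at `ξ`, so at `pt` (`OnX`): `∑ l_j gv_j Π(pt) b(pt) = N(pt) Π(pt)`; divide by `Π(pt) ≠ 0`.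
Second part: the axiom `h.lin` for the matrix with rows `(1, 0, …, 0)` and `(0, l)`. -/
def StmtLnV : Prop :=
  (∀ (K E Ω : Type) [Field K] [Field E] [Algebra K E] [Field Ω] [Algebra K Ω] (n m : ℕ) (ξ : Fin n → E)
    (pt : Fin n → Ω), OnX K ξ pt → ∀ (g : Fin m → E) (gv : Fin m → Ω), (∀ j, VlX K ξ pt (g j) (gv j)) →
    ∀ (l : Fin m → K) (b N : Pl n K),
    (∑ j, algebraMap K E (l j) * g j) * MvPolynomial.aeval ξ b = MvPolynomial.aeval ξ N →
    (∑ j, algebraMap K Ω (l j) * gv j) * MvPolynomial.aeval pt b = MvPolynomial.aeval pt N) ∧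
  ∀ (K Ω : Type) [Field K] [Field Ω] [Algebra K Ω] (h : HtF Ω) (m : ℕ) (l : Fin m → K), ∃ C : ℝ,
    ∀ gv : Fin m → Ω, h.H ![1, ∑ j, algebraMap K Ω (l j) * gv j] ≤ h.H (hcN gv) + C

/-- (LnD) The degree. PROOF (uses `StmtFun`, `StmtLnI`). `x i = ξ i.succ` is algebraically independent and `E` is finite over `K(x)` (`StmtFun`, second part; `MonZ P` is `Mon P`). `F` from `StmtLnI` for `w = ξ 0`: `P' = finSuccEquiv K n P` vanishes at `ξ 0` (`aeval ξ P = 0` by `GenN.ker`), so `F ∣ P'`; `P'` is irreducible (ring isomorphism), `F` is not a unit, so they are associated and have the same degree. `K(ξ 0, x) = K(ξ) = E` (`insert (ξ 0) (range x) = range ξ`, `GenN.top`),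
so `[E : K(x)] = natDegree F`. -/
def StmtLnD : Prop :=
  ∀ (K E : Type) [Field K] [Field E] [Algebra K E] (n : ℕ) (P : Pl (n + 1) K) (ξ : Fin (n + 1) → E),
    Irreducible P → MonZ P → GenN P ξ →
    Module.finrank (IntermediateField.adjoin K (Set.range fun i : Fin n => ξ i.succ)) E =
      (MvPolynomial.finSuccEquiv K n P).natDegree

/-- (LowX) THE LOWER BOUND. PROOF (uses `StmtDg1`, `StmtCfA`, `StmtFun`, `StmtLnI`, `StmtLnQ`, `StmtLnH`, `StmtLnL`, `StmtLnE`, `StmtLnV`). `x i = ξ i.succ`; `StmtFun`: `x` algebraically independent, `E` finite over `K(x)` of degree `δ = natDegree (finSuccEquiv P)`; `Stp K ξ`. `StmtDg1` (4): `A, B₀` with `dgx = [E : K(lc A x, w)]`, `w = lc B₀ g 0`. `F` from `StmtLnI`, `r = natDegree F`, `a i = F.coeff i`, `D` = the largest total degree of the `a i`, `s₁ = [E : K(w, x)]`: `r s₁ = δ`, `dgx ≤ D s₁` (`StmtCfA` (1)).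
The `a i` have no common factor (`F` irreducible of positive degree), `a r ≠ 0`. `w = A₁(ξ) / B₁(ξ)`, and there is `b : Pl 3 K`, `b ≠ 0`, `b(x) = V(ξ) B₁(ξ)` (norm: `tNm` (1), (2)): `w b(x) = N(ξ)`. `Q` from `StmtLnQ`; `F ∣ Q` (`StmtLnI`), so a root of `F(t, ·)` is a root of `Q(t, ·)`: hypothesis `hroot` of `StmtLnH`. `B = b * a r`. `R` from `StmtLnL` with `q = r`. `D h(1, s) ≤ h(a(t)) + C ≤ r h(1, y₀) + C ≤ r h(hcN gv) + C` with `y₀ = ∑ B₀ j gv_j` (`StmtLnV`); multiply by `s₁`. -/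
def StmtLowX : Prop :=
  ∀ (K E : Type) [Field K] [CharZero K] [Field E] [Algebra K E] (P : Pl 4 K) (ξ : Fin 4 → E),
    Irreducible P → MonZ P → GenN P ξ → ∀ g : Fin 3 → E, ∃ B : Pl 3 K, B ≠ 0 ∧
    ∀ (K₁ Ω : Type) [Field K₁] [CharZero K₁] [Field Ω] [IsAlgClosed Ω] [Algebra K K₁] [Algebra K Ω]
      [Algebra K₁ Ω] [IsScalarTower K K₁ Ω] (h : HtF Ω),
      (∀ (F : Type) [Field F] [Algebra K₁ F] (ι ι' : F →ₐ[K₁] Ω) (m : Type) [Finite m] (a : m → F),
        h.H (fun j => ι (a j)) = h.H (fun j => ι' (a j))) →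
      ∀ c : Fin 3 → K₁, MvPolynomial.aeval c B ≠ 0 → ∃ R : Pl 3 K₁, R ≠ 0 ∧
        ∀ w : Fin 3 → K₁, MvPolynomial.eval w R ≠ 0 → ∃ C : ℝ, ∀ (s : K₁) (z₀ : Ω) (gv : Fin 3 → Ω),
          Irreducible ((MvPolynomial.finSuccEquiv K₁ 3 (MvPolynomial.map (algebraMap K K₁) P)).map
            (MvPolynomial.eval (lptN c w s))) → MvPolynomial.aeval (lptN c w s) B ≠ 0 →
          MvPolynomial.aeval (pt (lptN c w s) z₀) P = 0 →
          (∀ i, VlX K ξ (pt (lptN c w s) z₀) (g i) (gv i)) →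
          (dgx K 2 1 (fun i : Fin 3 => ξ i.succ) g : ℝ) * h.H ![1, algebraMap K₁ Ω s] ≤
              (MvPolynomial.finSuccEquiv K 3 P).natDegree * h.H (hcN gv) + C ∧
            h.H (hcN fun i => algebraMap K₁ Ω (lptN c w s i)) ≤ h.H ![1, algebraMap K₁ Ω s] + C

end Pool.Agent.Lib.MP_16285c_agX
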